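import Pool.Agent.Lib.F4G.MyDefs

/-! Project f4g, the theorem of Myers for an atlas of discs: the statement. -/

open Set Metric

noncomputable section

namespace Pool.Agent.Lib.F4G.My

/-- An atlas of unit discs with conformal metrics of positive curvature; `J` identifies points of
the discs, by Moebius maps which are isometries on discs of radius `r`. -/
structure Atl {V I : Type} (p : V → I) (F : I → ℂ → ℝ) (J : V → ℂ → V → ℂ → Prop)
    (k B r : ℝ) : Prop where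
  hk : 0 < k
  hr : 0 < r
  cv : ∀ i, Cv k (F i)
  bd : ∀ i z, ‖z‖ < 1 → |F i z| ≤ B
  refl : ∀ v z, ‖z‖ < 1 → J v z v z
  symm : ∀ v z w y, J v z w y → J w y v z
  trans : ∀ v z w y u x, J v z w y → J w y u x → J v z u x
  inn : ∀ v z, ‖z‖ ≤ 3 / 4 → ∃ w y, ‖y‖ ≤ 1 / 2 ∧ J v z w y
  ext : ∀ v z w y, J v z w y → ‖z‖ ≤ 3 / 4 → ‖y‖ ≤ 3 / 4 → ∃ a b c d : ℂ, a * d - b * c = 1 ∧
    (a * z + b) / (c * z + d) = y ∧ ∀ x, ‖x - z‖ < r → c * x + d ≠ 0 ∧
      ‖(a * x + b) / (c * x + d)‖ < 1 ∧ J v x w ((a * x + b) / (c * x + d)) ∧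
      F (p w) ((a * x + b) / (c * x + d)) = F (p v) x - 4 * Real.log ‖c * x + d‖

/-- Two discs have a common inner point. -/
def Lk {V : Type} (J : V → ℂ → V → ℂ → Prop) (v w : V) : Prop :=
  ∃ z y : ℂ, ‖z‖ ≤ 3 / 4 ∧ ‖y‖ ≤ 3 / 4 ∧ J v z w y

/-- Connected discs are joined by a bounded number of links. -/
def St_MYERS : Prop := ∀ (V I : Type) [Finite I] (p : V → I) (F : I → ℂ → ℝ)
  (J : V → ℂ → V → ℂ → Prop) (k B r : ℝ), Atl p F J k B r →
  ∃ M0 : ℕ, ∀ v w, Relation.EqvGen (Lk J) v w →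
    ∃ u : ℕ → V, u 0 = v ∧ u M0 = w ∧ ∀ j < M0, Lk J (u j) (u (j + 1))

end Pool.Agent.Lib.F4G.My
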