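import Pool.Agent.Lib.F4.Defs
import Pool.Agent.Lib.F4.M7
import Pool.Agent.Lib.F4G.MyAtl

/-! Project f4g: finite families of boxes, vertices and identifications. -/

open scoped Topology Matrix MatrixGroups
open Set Filter Metric

noncomputable section

namespace Pool.Agent.Lib.F4G

open Pool.Agent.Lib.SV (E)
open Pool.Agent.Lib.HS32 Pool.Agent.Lib.F4

/-- The group of Möbius maps. -/
abbrev PG : Type := Matrix.ProjectiveSpecialLinearGroup (Fin 2) ℂ

/-- A matrix that represents a Möbius map. -/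
def lf (g : PG) : SL(2, ℂ) := Quotient.out g

/-- A finite family of boxes `U a` in balls of charts, with first integrals `t a / s a` of `α`
onto the unit disc, sections, connected fibres, regular off a countable set, and the invariant metrics. -/
structure Box {n : ℕ} (M : Mf n) (α : M.Fam (E n)) (k B : ℝ) where
  I : Type
  fin : Fintype I
  e : I → M.Ch
  p : I → E n
  R : I → ℝ
  U : I → Set (E n)
  s : I → E n → ℂ
  t : I → E n → ℂ
  sg : I → ℂ → E n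
  T : Set ℂ
  F : I → ℂ → ℝ
  c : I → I → M.X → PG
  S : Finset PG
  hk : 0 < k
  mem : ∀ a, e a ∈ M.C
  sub : ∀ a, closedBall (p a) (R a) ⊆ (e a).target
  opn : ∀ a, IsOpen (U a)
  uq : ∀ a, U a ⊆ ball (p a) (R a)
  hol : ∀ a, ∀ z ∈ closedBall (p a) (R a), DifferentiableAt ℂ (s a) z ∧
    DifferentiableAt ℂ (t a) z ∧ s a z ≠ 0
  wr : ∀ a, ∀ z ∈ closedBall (p a) (R a), ∀ j,
    α (e a) z j = s a z * dz j (t a) z - t a z * dz j (s a) z
  tr : ∀ a b x, In (e a) (ball (p a) (R a)) x → In (e b) (ball (p b) (R b)) x →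
    ∃ h : ℂ, h ^ 2 = jd M (e a) (e b) x ∧
      h • ![s a (e a x), t a (e a x)] = (lf (c a b x)).1 *ᵥ ![s b (e b x), t b (e b x)]
  lc : ∀ a b x, In (e a) (ball (p a) (R a)) x → In (e b) (ball (p b) (R b)) x →
    c a b x ∈ S ∧ (∀ᶠ y in 𝓝 x, c a b y = c a b x) ∧
      ∀ d, In (e d) (ball (p d) (R d)) x → c a b x * c b d x = c a d x
  lt : ∀ a, ∀ z ∈ U a, ‖t a z / s a z‖ < 1
  cov : ∀ x, ∃ a, In (e a) (U a) x ∧ ‖t a (e a x) / s a (e a x)‖ ≤ 1 / 2
  op : ∀ a, ∀ z ∈ U a, ∀ N ∈ 𝓝 z, (fun w => t a w / s a w) '' N ∈ 𝓝 (t a z / s a z)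
  hsg : ∀ a, DifferentiableOn ℂ (sg a) (ball 0 1) ∧
    ∀ w ∈ ball (0 : ℂ) 1, sg a w ∈ U a ∧ t a (sg a w) / s a (sg a w) = w
  cnt : T.Countable
  con : ∀ a w, IsPreconnected {z ∈ U a | t a z / s a z = w}
  reg : ∀ a, ∀ z ∈ U a, t a z / s a z ∉ T → α (e a) z ≠ 0
  cv : ∀ a, My.Cv k (F a)
  bd : ∀ a z, ‖z‖ < 1 → |F a z| ≤ B
  iso : ∀ a b x, In (e a) (U a) x → In (e b) (U b) x →
    F b (t b (e b x) / s b (e b x)) = F a (t a (e a x) / s a (e a x)) - 4 * Real.log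
      ‖(lf (c b a x)).1 0 0 + (lf (c b a x)).1 0 1 * (t a (e a x) / s a (e a x))‖

namespace Box

variable {n : ℕ} {M : Mf n} {α : M.Fam (E n)} {k B : ℝ} (b : Box M α k B)

/-- The first integral in the chart. -/
def W (a : b.I) (z : E n) : ℂ := b.t a z / b.s a z

/-- The ball of the chart, as a subset of the manifold. -/
def O (a : b.I) : Set M.X := {x | In (b.e a) (ball (b.p a) (b.R a)) x}

/-- Two points of discs that come from the same point of the manifold. -/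
def El (u v : (b.I × PG) × ℂ) : Prop := ∃ x, In (b.e u.1.1) (b.U u.1.1) x ∧
  In (b.e v.1.1) (b.U v.1.1) x ∧ u.2 = b.W u.1.1 (b.e u.1.1 x) ∧
  v.2 = b.W v.1.1 (b.e v.1.1 x) ∧ v.1.2 = u.1.2 * b.c u.1.1 v.1.1 x

/-- The identification of points of discs. -/
def J (v : b.I × PG) (z : ℂ) (w : b.I × PG) (y : ℂ) : Prop :=
  Relation.TransGen b.El (v, z) (w, y)

/-- The monodromy of the vertices connected to the vertex `(a, 1)`. -/
def Gam (a : b.I) : Set PG := {g | Relation.EqvGen (My.Lk b.J) (a, 1) (a, g)}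

/-- Compatible functions on the sheets with a bound for the gradient. -/
def Cmp (G : M.Fam (Mat n)) (κ : ℝ) (f : b.I × PG → M.X → ℝ) : Prop := ∀ a g, ∀ x ∈ b.O a,
  (∀ d, x ∈ b.O d → f (d, g * b.c a d x) x = f (a, g) x) ∧
  ContDiffAt ℝ 1 (f (a, g) ∘ (b.e a).symm) (b.e a x) ∧
  ∀ ξ, fderiv ℝ (f (a, g) ∘ (b.e a).symm) (b.e a x) ξ ^ 2 ≤ κ * nq (G (b.e a) (b.e a x)) ξ

end Box

end Pool.Agent.Lib.F4G
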