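import Pool.Agent.Lib.F4G.AtlT98
import Pool.Agent.Lib.F4G.Box

/-! F4G: a family of boxes is an atlas of discs. -/

open scoped Topology Matrix MatrixGroups
open Set Filter Metric Relation

noncomputable section

namespace Pool.Agent.Lib.F4G

open Pool.Agent.Lib.SV (E)
open Pool.Agent.Lib.HS32 Pool.Agent.Lib.F4

theorem pg98 (g h : SL(2, ℂ)) (e : (QuotientGroup.mk g : PG) = QuotientGroup.mk h) :
    g.1 = h.1 ∨ g.1 = -h.1 := by
  obtain ⟨r, h1, h2⟩ := Matrix.SpecialLinearGroup.mem_center_iff.1 (QuotientGroup.eq.1 e.symm)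
  have h3 : g.1 = h.1 * (h⁻¹ * g).1 := by
    rw [← Matrix.SpecialLinearGroup.coe_mul, mul_inv_cancel_left]
  rw [Fintype.card_fin, sq_eq_one_iff] at h1
  rw [h3, ← h2]
  rcases h1 with rfl | rfl
  · left
    simp
  · right
    rw [map_neg, map_one, mul_neg, mul_one]

theorem lf_mul98 (g h : PG) : (lf (g * h)).1 = (lf g).1 * (lf h).1 ∨
    (lf (g * h)).1 = -((lf g).1 * (lf h).1) := by
  refine pg98 (lf (g * h)) (lf g * lf h) ?_
  unfold lf
  rw [QuotientGroup.mk_mul, QuotientGroup.out_eq', QuotientGroup.out_eq', QuotientGroup.out_eq']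

namespace Box

variable {n : ℕ} {M : Mf n} {α : M.Fam (E n)} {k B : ℝ} (b : Box M α k B)

theorem el98 : b.El = Com98 (fun a => {x | In (b.e a) (b.U a) x}) (fun a x => b.W a (b.e a x)) b.c := by
  funext u v
  refine propext (exists_congr fun x => ?_)
  exact ⟨fun h => ⟨h.1, h.2.1, h.2.2.1.symm, h.2.2.2.1.symm, h.2.2.2.2⟩,
    fun h => ⟨h.1, h.2.1, h.2.2.1.symm, h.2.2.2.1.symm, h.2.2.2.2⟩⟩

theorem inO98 {a : b.I} {x : M.X} (h : In (b.e a) (b.U a) x) :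
    In (b.e a) (ball (b.p a) (b.R a)) x := ⟨h.1, b.uq a h.2⟩

theorem mob98 (a d : b.I) (x : M.X) (ha : In (b.e a) (ball (b.p a) (b.R a)) x)
    (hd : In (b.e d) (ball (b.p d) (b.R d)) x) :
    (lf (b.c d a x)).1 0 0 + (lf (b.c d a x)).1 0 1 * b.W a (b.e a x) ≠ 0 ∧
      b.W d (b.e d x) = ((lf (b.c d a x)).1 1 0 + (lf (b.c d a x)).1 1 1 * b.W a (b.e a x)) /
        ((lf (b.c d a x)).1 0 0 + (lf (b.c d a x)).1 0 1 * b.W a (b.e a x)) := by
  obtain ⟨h, -, e⟩ := b.tr d a x hd ha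
  have sa := (b.hol a _ (ball_subset_closedBall ha.2)).2.2
  have sd := (b.hol d _ (ball_subset_closedBall hd.2)).2.2
  have e0 := congrFun e 0
  have e1 := congrFun e 1
  simp only [Pi.smul_apply, smul_eq_mul, Matrix.mulVec, dotProduct, Fin.sum_univ_two,
    Matrix.cons_val_zero, Matrix.cons_val_one] at e0 e1
  have det := (lf (b.c d a x)).2
  rw [Matrix.det_fin_two] at det
  have h0 : h ≠ 0 := by
    rintro rfl
    apply sa
    linear_combination (-(b.s a (b.e a x))) * det - (lf (b.c d a x)).1 1 1 * e0 +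
      (lf (b.c d a x)).1 0 1 * e1
  have ta : b.t a (b.e a x) = b.W a (b.e a x) * b.s a (b.e a x) := by
    unfold W
    rw [div_mul_cancel₀ _ sa]
  have td : b.t d (b.e d x) = b.W d (b.e d x) * b.s d (b.e d x) := by
    unfold W
    rw [div_mul_cancel₀ _ sd]
  rw [ta] at e0 e1
  rw [td] at e1
  have k0 : (lf (b.c d a x)).1 0 0 + (lf (b.c d a x)).1 0 1 * b.W a (b.e a x) ≠ 0 := by
    intro q
    refine mul_ne_zero h0 sd ?_
    linear_combination e0 + b.s a (b.e a x) * q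
  refine ⟨k0, ?_⟩
  rw [eq_div_iff k0]
  refine mul_right_cancel₀ sa ?_
  linear_combination e1 - b.W d (b.e d x) * e0

theorem opnU98 (a : b.I) : IsOpen {x | In (b.e a) (b.U a) x} :=
  (b.e a).isOpen_inter_preimage (b.opn a)

theorem ct98 (a : b.I) (x : M.X) (h : In (b.e a) (b.U a) x) :
    ContinuousAt (fun x => b.W a (b.e a x)) x := by
  obtain ⟨h1, h2, h3⟩ := b.hol a _ (ball_subset_closedBall (b.uq a h.2))
  have h4 : ContinuousAt (b.W a) (b.e a x) := h2.continuousAt.div h1.continuousAt h3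
  exact h4.comp ((b.e a).continuousAt h.1)

theorem op98 (a : b.I) (x : M.X) (h : In (b.e a) (b.U a) x) (N : Set M.X) (hN : N ∈ 𝓝 x) :
    (fun x => b.W a (b.e a x)) '' N ∈ 𝓝 (b.W a (b.e a x)) := by
  have h1 := b.op a _ h.2 _ ((b.e a).image_mem_nhds h.1 hN)
  rw [image_image] at h1
  exact h1

theorem tgt98 {a : b.I} {z : E n} (h : z ∈ b.U a) : z ∈ (b.e a).target :=
  b.sub a (ball_subset_closedBall (b.uq a h))

theorem fib98 (a : b.I) (w : ℂ) :
    IsPreconnected ({x | In (b.e a) (b.U a) x} ∩ (fun x => b.W a (b.e a x)) ⁻¹' {w}) := by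
  have h1 := (b.con a w).image (b.e a).symm
    ((b.e a).continuousOn_symm.mono fun z hz => b.tgt98 hz.1)
  have e : {x | In (b.e a) (b.U a) x} ∩ (fun x => b.W a (b.e a x)) ⁻¹' {w} =
      (b.e a).symm '' {z ∈ b.U a | b.t a z / b.s a z = w} := by
    ext x
    constructor
    · rintro ⟨h2, h3⟩
      exact ⟨b.e a x, ⟨h2.2, h3⟩, (b.e a).left_inv h2.1⟩
    · rintro ⟨z, ⟨h2, h3⟩, rfl⟩
      have h4 := (b.e a).right_inv (b.tgt98 h2)
      refine ⟨⟨(b.e a).map_target (b.tgt98 h2), ?_⟩, ?_⟩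
      · rw [h4]
        exact h2
      · show b.W a (b.e a ((b.e a).symm z)) = w
        rw [h4]
        exact h3
  rw [e]
  exact h1

theorem sec98 (a : b.I) (w : ℂ) (hw : ‖w‖ < 1) :
    In (b.e a) (b.U a) ((b.e a).symm (b.sg a w)) ∧
      b.W a (b.e a ((b.e a).symm (b.sg a w))) = w := by
  obtain ⟨h1, h2⟩ := (b.hsg a).2 w (mem_ball_zero_iff.2 hw)
  have h4 := (b.e a).right_inv (b.tgt98 h1)
  refine ⟨⟨(b.e a).map_target (b.tgt98 h1), ?_⟩, ?_⟩
  · rw [h4]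
    exact h1
  · rw [h4]
    exact h2

theorem co98 (i j l : b.I) (x : M.X) (hi : In (b.e i) (b.U i) x) (hj : In (b.e j) (b.U j) x)
    (hl : In (b.e l) (b.U l) x) : b.c i j x * b.c j l x = b.c i l x :=
  (b.lc i j x (b.inO98 hi) (b.inO98 hj)).2.2 l (b.inO98 hl)

theorem tr98 (i j : b.I) (x : M.X) (hi : In (b.e i) (b.U i) x) (hj : In (b.e j) (b.U j) x) :
    (lf (b.c j i x)).1 0 0 + (lf (b.c j i x)).1 0 1 * b.W i (b.e i x) ≠ 0 ∧
      b.W j (b.e j x) = ((lf (b.c j i x)).1 1 0 + (lf (b.c j i x)).1 1 1 * b.W i (b.e i x)) /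
        ((lf (b.c j i x)).1 0 0 + (lf (b.c j i x)).1 0 1 * b.W i (b.e i x)) ∧
      b.F j (b.W j (b.e j x)) = b.F i (b.W i (b.e i x)) -
        4 * Real.log ‖(lf (b.c j i x)).1 0 0 + (lf (b.c j i x)).1 0 1 * b.W i (b.e i x)‖ :=
  ⟨(b.mob98 i j x (b.inO98 hi) (b.inO98 hj)).1, (b.mob98 i j x (b.inO98 hi) (b.inO98 hj)).2,
    b.iso i j x hi hj⟩

/-- The identification is invariant under left translations. -/
theorem left98 (f : PG) {v w : b.I × PG} {z y : ℂ} (h : b.J v z w y) :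
    b.J (v.1, f * v.2) z (w.1, f * w.2) y := by
  unfold J at h ⊢
  rw [b.el98] at h ⊢
  exact F4G.left98 f h

/-- The identification is given by an isometric Möbius map which depends on the vertices only. -/
theorem iso98 {v w : b.I × PG} {z y : ℂ} (h : b.J v z w y) :
    ‖z‖ < 1 ∧ ‖y‖ < 1 ∧ (lf (w.2⁻¹ * v.2)).1 0 0 + (lf (w.2⁻¹ * v.2)).1 0 1 * z ≠ 0 ∧
      y = ((lf (w.2⁻¹ * v.2)).1 1 0 + (lf (w.2⁻¹ * v.2)).1 1 1 * z) /
        ((lf (w.2⁻¹ * v.2)).1 0 0 + (lf (w.2⁻¹ * v.2)).1 0 1 * z) ∧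
      b.F w.1 y = b.F v.1 z -
        4 * Real.log ‖(lf (w.2⁻¹ * v.2)).1 0 0 + (lf (w.2⁻¹ * v.2)).1 0 1 * z‖ := by
  unfold J at h
  rw [b.el98] at h
  exact F4G.iso98 b.co98 (fun a x hx => b.lt a _ hx.2) b.F (fun g => (lf g).1) lf_mul98 b.tr98 h

/-- An elementary identification holds near the point. -/
theorem opn98 {u v : (b.I × PG) × ℂ} (h : b.El u v) :
    ∃ (f : ℂ → ℂ) (N : Set ℂ), N ∈ 𝓝 u.2 ∧ Tendsto f (𝓝 u.2) (𝓝 v.2) ∧ InjOn f N ∧
      ∀ x ∈ N, b.El (u.1, x) (v.1, f x) := by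
  rw [b.el98] at h ⊢
  exact F4G.opn98 b.opnU98 b.op98
    (fun i j x hi hj => (b.lc i j x (b.inO98 hi) (b.inO98 hj)).2.1) b.co98 b.F
    (fun g => (lf g).1) (fun g => (lf g).2) b.tr98 h

theorem atl98 [M.Cpt] : ∃ r : ℝ, My.Atl (fun v : b.I × PG => v.1) b.F b.J k B r := by
  have := b.fin
  have h := atlT98 (W := fun a x => b.W a (b.e a x)) (c := b.c) b.opnU98 b.cov b.ct98 b.op98
    (fun i j x hi hj => (b.lc i j x (b.inO98 hi) (b.inO98 hj)).2.1) b.co98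
    (fun a x hx => b.lt a _ hx.2) b.T b.cnt (fun a w _ => b.fib98 a w)
    (fun a w => (b.e a).symm (b.sg a w))
    (fun a => (b.e a).continuousOn_symm.comp (b.hsg a).1.continuousOn
      fun w hw => b.tgt98 ((b.hsg a).2 w hw).1)
    b.sec98 b.F (fun g => (lf g).1) (fun g => (lf g).2) lf_mul98 b.tr98 k B b.hk b.cv b.bd
  rw [← b.el98] at h
  exact h

end Box

end Pool.Agent.Lib.F4G
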