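import Pool.Agent.Lib.F4G.Blue
import Pool.Agent.Lib.F4G.BoxAtl98

/-! Project f4g: the discs of a family of boxes form an atlas. -/

namespace Pool.Agent.Lib.F4G

theorem st_ATL : St_ATL := fun _ _ _ _ _ _ b => b.atl98

end Pool.Agent.Lib.F4G
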