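import Pool.Agent.Lib.ZE.N_AUB
import Pool.Agent.Lib.ZK47.Blue

/-! Project f4g: Kähler forms close to the canonical class with a lower bound for the Ricci form. -/

open scoped ComplexOrder
open Set

noncomputable section

namespace Pool.Agent.Lib.F4G

open Pool.Agent.Lib.HS32

theorem aubK37 (hA : HS.St_AUBIN) (n : ℕ) (M : Mf n) [M.Cpt] (H : M.Fam (Mat n)) (ε : ℝ)
    (φ : M.X → ℝ) (hn : 0 < n) (hH : M.Met H) (hε : 0 ≤ ε) (hφ : M.Sm φ)
    (hK : M.Kae (-M.ric H + ε • H + M.hs φ)) :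
    ∃ u, M.Sm u ∧ M.Kae (-M.ric H + ε • H + M.hs u) ∧
      M.Le (-(-M.ric H + ε • H + M.hs u)) (M.ric (-M.ric H + ε • H + M.hs u)) := by
  obtain ⟨u, hu, hk, hd⟩ := ZE.nAUB hA n M H (-M.ric H + ε • H) φ (fun _ => 0) hn hH hφ hK
    (Mf.sm_const 0)
  refine ⟨u, hu, hk, fun e he z hz => ?_⟩
  have r := ((mHES n M).2.2.2.2.2.2.2.2.2 _ H hk.toMet hH).2 e he z hz
  simp only [hd, Real.log_exp, add_zero] at r
  have q : M.ric (-M.ric H + ε • H + M.hs u) e z - (-(-M.ric H + ε • H + M.hs u)) e z =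
      ε • H e z := by
    rw [r]
    simp only [Pi.add_apply, Pi.neg_apply, Pi.smul_apply]
    abel
  beta_reduce
  rw [q]
  exact Mf.psd_rsmul (hH.pos e he z hz).posSemidef hε

theorem aub37 (hA : HS.St_AUBIN) (n : ℕ) (M : Mf n) [M.Cpt] (H : M.Fam (Mat n))
    (a : ℝ → M.X → ℝ) (hn : 0 < n) (hH : M.Kae H) (ho : ZK47.Out M H 0 a) (ε : ℝ)
    (hε : ε ∈ Ioc (0 : ℝ) 1) :
    ∃ u, M.Sm u ∧ M.Kae (-M.ric H + ε • H + M.hs u) ∧
      M.Le (-(-M.ric H + ε • H + M.hs u)) (M.ric (-M.ric H + ε • H + M.hs u)) :=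
  aubK37 hA n M H ε (a ε) hn hH.toMet hε.1.le (ho.sm ε hε) (by
    have := ho.kae ε hε
    rwa [zero_sub] at this)

end Pool.Agent.Lib.F4G
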