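import Pool.Agent.Lib.F4G.Blue
import Pool.Agent.Lib.F4G.Aub37
import Pool.Agent.Lib.KP21.E21

/-! Project f4g: the metrics of Aubin and Yau. -/

open scoped ComplexOrder
open Set

noncomputable section

namespace Pool.Agent.Lib.F4G

open Pool.Agent.Lib.HS32

theorem ay_of (hA : HS.St_AUBIN) : St_AY := by
  intro n M _ H a ε hn hH ho hε
  obtain ⟨u, hu, hk, hl⟩ := aub37 hA n M H a hn hH ho ε hε
  refine ⟨u, hu, fun e he z hz => ?_, hk, hl⟩
  have h := (hk.toMet.pos e he z hz).posSemidef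
  simpa [tE] using h

theorem st_AY : St_AY := ay_of HS21.st_AUBIN

end Pool.Agent.Lib.F4G
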