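import Pool.Agent.Lib.F4G.BoxA

/-! Project f4g: the boxes exist. -/

open scoped Topology Matrix MatrixGroups
open Set Filter Metric

set_option linter.unusedVariables false

noncomputable section

namespace Pool.Agent.Lib.F4G.B72

open Pool.Agent.Lib.SV (E)
open Pool.Agent.Lib.HS32 Pool.Agent.Lib.F4

theorem neg_mk (A : SL(2, ℂ)) : (QuotientGroup.mk (-A) : PG) = QuotientGroup.mk A :=
  QuotientGroup.eq.2 (by
    rw [inv_neg, neg_mul, inv_mul_cancel]
    exact Subgroup.mem_center_iff.2 fun g => by rw [mul_neg, neg_mul, mul_one, one_mul])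

theorem lf_mk (A : SL(2, ℂ)) : ∃ r : ℂ, r ^ 2 = 1 ∧ (lf (QuotientGroup.mk A)).1 = r • A.1 := by
  obtain ⟨z, hz⟩ := QuotientGroup.mk_out_eq_mul (Subgroup.center SL(2, ℂ)) A
  obtain ⟨r, r1, r2⟩ := Matrix.SpecialLinearGroup.mem_center_iff.1 z.2
  refine ⟨r, by simpa using r1, ?_⟩
  have : lf (QuotientGroup.mk A) = A * z := hz
  rw [this, Matrix.SpecialLinearGroup.coe_mul, ← r2, Matrix.scalar_apply,
    ← Matrix.smul_one_eq_diagonal, Matrix.mul_smul, mul_one]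

theorem tr_lf {A : SL(2, ℂ)} {h j : ℂ} {u v : Fin 2 → ℂ} (e : h ^ 2 = j ∧ h • u = A.1 *ᵥ v) :
    ∃ h : ℂ, h ^ 2 = j ∧ h • u = (lf (QuotientGroup.mk A)).1 *ᵥ v := by
  obtain ⟨r, r1, r2⟩ := lf_mk A
  exact ⟨r * h, by rw [mul_pow, r1, one_mul, e.1],
    by rw [r2, Matrix.smul_mulVec, mul_smul, e.2]⟩

theorem opn {n : ℕ} {W : E n → ℂ} {z : E n} (h : ∀ᶠ w in 𝓝 z, DifferentiableAt ℂ W w)
    (h0 : ∃ᶠ w in 𝓝 z, fderiv ℂ W w ≠ 0) (N : Set (E n)) (hN : N ∈ 𝓝 z) : W '' N ∈ 𝓝 (W z) := by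
  refine (RA.ANB.analyticAt h).eventually_constant_or_nhds_le_map_nhds.resolve_left (fun c => ?_)
    (image_mem_map hN)
  refine h0 (c.eventually_nhds.mono fun w hw => not_not.2 ?_)
  rw [Filter.EventuallyEq.fderiv_eq (f := fun _ => W z) hw]
  simp

theorem box {n : ℕ} {M : Mf n} [M.Cpt] {α : M.Fam (E n)} {a : ℝ} {φ ψ : M.Fam ℝ}
    (a0 : 0 < a) (hL : Ld M 3 α a φ ψ) (rm : Rem M α) (den : Den M α) (d : Dev M α) :
    ∃ k B : ℝ, Nonempty (Box M α k B) := by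
  set O : M.X → Set (E n) := fun x => (d.e x).target ∩ (d.e x).symm ⁻¹' d.O x with hO
  have hol : ∀ x, ∀ z ∈ O x, DifferentiableAt ℂ (d.s x) z ∧ DifferentiableAt ℂ (d.t x) z ∧
      d.s x z ≠ 0 := fun x z hz => by
    simpa only [(d.e x).right_inv hz.1] using d.hol x _ hz.2
  have wr : ∀ x, ∀ z ∈ O x, ∀ k, α (d.e x) z k =
      d.s x z * dz k (d.t x) z - d.t x z * dz k (d.s x) z := fun x z hz => by
    simpa only [(d.e x).right_inv hz.1] using d.wr x _ hz.2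
  have oO : ∀ x, IsOpen (O x) := fun x => (d.e x).isOpen_inter_preimage_symm (d.opn x)
  have sf : ∀ x, x ∈ (d.e x).source := fun x => d.sub x (d.self x)
  choose l R D σ F κ H using fun x => loc (O := O x) (p := d.e x x) (ph := φ (d.e x))
    (ps := ψ (d.e x)) a0 (oO x)
    ⟨(d.e x).map_source (sf x), by rw [mem_preimage, (d.e x).left_inv (sf x)]; exact d.self x⟩
    (hol x) (d.base x).2 (wr x) (fun U h hU hs => rm _ (d.mem x) U h hU fun z hz => (hs hz).1)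
    (fun z hz => den _ (d.mem x) z hz.1) (fun z hz => hL.wφ.sm _ (d.mem x) z hz.1)
    (fun z hz => (hL.wψ.sm _ (d.mem x) z hz.1).continuousAt) (fun z hz => hL.pφ _ (d.mem x) z hz.1)
    fun z hz => hL.hφ _ (d.mem x) z hz.1
  set s : M.X → E n → ℂ := fun x z => l x * d.s x z with hs
  set t : M.X → E n → ℂ := fun x z => d.t x z / l x with ht
  have hol' : ∀ x, ∀ z ∈ O x, DifferentiableAt ℂ (s x) z ∧ DifferentiableAt ℂ (t x) z ∧
      s x z ≠ 0 := fun x z hz => ⟨(hol x z hz).1.const_mul _,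
    ddiv (hol x z hz).2.1 (differentiableAt_const _) (l x).ne_zero,
    mul_ne_zero (l x).ne_zero (hol x z hz).2.2⟩
  have wr2 : ∀ x, ∀ z ∈ O x, ∀ k, α (d.e x) z k = s x z ^ 2 * dz k (fun w => t x w / s x w) z :=
    fun x z hz k => (wr x z hz k).trans
      (wr_sc (l x) (hol x z hz).1 (hol x z hz).2.1 (hol x z hz).2.2 k)
  have dW : ∀ x, ∀ z ∈ O x, DifferentiableAt ℂ (fun w => t x w / s x w) z := fun x z hz =>
    ddiv (hol' x z hz).2.1 (hol' x z hz).1 (hol' x z hz).2.2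
  have iW : ∀ x, ∀ z ∈ O x, fderiv ℂ (fun w => t x w / s x w) z = 0 ↔ α (d.e x) z = 0 :=
    fun x z hz => fd_iff (dW x z hz) (pow_ne_zero 2 (hol' x z hz).2.2) (wr2 x z hz)
  have DO : ∀ x, D x ⊆ O x := fun x z hz => (H x).cl (ball_subset_closedBall ((H x).sub hz))
  have iO : ∀ x y, In (d.e x) (closedBall (d.e x x) (R x)) y → y ∈ d.O x := fun x y h => by
    have := ((H x).cl h.2).2
    rwa [mem_preimage, (d.e x).left_inv h.1] at this
  have iB : ∀ x y, In (d.e x) (ball (d.e x x) (R x)) y → y ∈ d.O x := fun x y h =>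
    iO x y ⟨h.1, ball_subset_closedBall h.2⟩
  obtain ⟨I, hI⟩ := CompactSpace.elim_nhds_subcover
    (fun x => {y | In (d.e x) (D x) y ∧ ‖t x (d.e x y) / s x (d.e x y)‖ ≤ 1 / 2}) fun x => by
      have c := (d.e x).continuousAt (sf x)
      refine inter_mem (inter_mem ((d.e x).open_source.mem_nhds (sf x))
        (c ((H x).opn.mem_nhds (H x).mem)))
        (((dW x _ (DO x (H x).mem)).continuousAt.comp c).norm.eventually_le_const ?_)
      simp [ht, (d.base x).2]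
  set c : M.X → M.X → M.X → SL(2, ℂ) := fun x y z => dg (l x) * d.c x y z * (dg (l y))⁻¹ with hc
  have tr : ∀ x y z, z ∈ d.O x → z ∈ d.O y → ∃ h : ℂ, h ^ 2 = jd M (d.e x) (d.e y) z ∧
      h • ![s x (d.e x z), t x (d.e x z)] =
        (lf (QuotientGroup.mk (c x y z))).1 *ᵥ ![s y (d.e y z), t y (d.e y z)] :=
    fun x y z h1 h2 => by
      obtain ⟨h, e1, e2⟩ := d.tr x y z h1 h2
      exact tr_lf ⟨e1, tr_dg e2⟩
  have lc : ∀ x y z, z ∈ d.O x → z ∈ d.O y → ∀ᶠ u in 𝓝 z, c x y u = c x y z ∨ c x y u = -c x y z :=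
    fun x y z h1 h2 => (d.lc x y z h1 h2).mono fun u hu =>
      hu.imp (fun e => by simp only [hc, e]) fun e => by simp only [hc, e, mul_neg, neg_mul]
  have pm : ∀ {A B : SL(2, ℂ)}, A = B ∨ A = -B →
      (QuotientGroup.mk A : PG) = QuotientGroup.mk B := fun h =>
    h.elim (fun e => by rw [e]) fun e => by rw [e, neg_mk]
  have cK : ∀ x, IsCompact ((d.e x).symm '' closedBall (d.e x x) (R x)) := fun x =>
    (isCompact_closedBall _ _).image_of_continuousOn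
      ((d.e x).continuousOn_symm.mono fun z hz => ((H x).cl hz).1)
  have fin : (⋃ x : I, ⋃ y : I, (QuotientGroup.mk : SL(2, ℂ) → PG) '' (c x y ''
      ((d.e x).symm '' closedBall (d.e x x) (R x) ∩
        (d.e y).symm '' closedBall (d.e y y) (R y)))).Finite :=
    finite_iUnion fun x => finite_iUnion fun y => (finv ((cK x).inter (cK y)) _ (by
      rintro z ⟨⟨u, u1, u2⟩, v, v1, v2⟩
      exact lc _ _ z (u2 ▸ ((H x).cl u1).2) (v2 ▸ ((H y).cl v1).2))).image _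
  obtain ⟨k, k1, k0⟩ := ((eventually_all.2 fun x : I => Ioc_mem_nhdsGT (H x).k0).and
    self_mem_nhdsWithin).exists
  have bd : ∀ x : I, ∃ B, ∀ z ∈ closedBall (0 : ℂ) 1, ‖F x z‖ ≤ B := fun x =>
    (isCompact_closedBall _ _).exists_bound_of_continuousOn
      ((H x).sF.mono (closedBall_subset_ball one_lt_two))
  choose B hB using bd
  obtain ⟨B0, hB0⟩ := Finite.exists_le B
  refine ⟨k, B0, ⟨⟨I, inferInstance, fun x => d.e x, fun x => d.e x x, fun x => R x, fun x => D x,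
    fun x => s x, fun x => t x, fun x => σ x, ⋃ x : I, (fun w => t x w / s x w) ''
      {z | z ∈ O x ∧ fderiv ℂ (fun w => t x w / s x w) z = 0}, fun x => F x,
    fun x y z => QuotientGroup.mk (c x y z), fin.toFinset, k0, fun x => d.mem x,
    fun x z hz => ((H x).cl hz).1, fun x => (H x).opn, fun x => (H x).sub,
    fun x z hz => hol' x z ((H x).cl hz), fun x z hz j => ?_,
    fun x y z h1 h2 => tr _ _ z (iB _ _ h1) (iB _ _ h2), fun x y z h1 h2 => ⟨?_,
      (lc _ _ z (iB _ _ h1) (iB _ _ h2)).mono fun u => pm, fun u h3 => ?_⟩,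
    fun x z hz => mem_ball_zero_iff.1 ((H x).rng hz), fun y => ?_, fun x z hz => opn
      (((oO x).eventually_mem (DO x hz)).mono (dW x)) (((den _ (d.mem x) z (DO x hz).1).and_eventually
        ((oO x).eventually_mem (DO x hz))).mono fun w hw => mt (iW x w hw.2).1 hw.1),
    fun x => (H x).sec, countable_iUnion fun x => crit90 _ _ _ (oO x)
      fun z hz => (dW x z hz).differentiableWithinAt, fun x w => (H x).con w,
    fun x z hz hw h0 => hw (mem_iUnion.2 ⟨x, z, ⟨DO x hz, (iW x z (DO x hz)).2 h0⟩, rfl⟩),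
    fun x => ⟨(H x).cv.1, fun z hz => le_trans ?_ ((H x).cv.2 z hz)⟩,
    fun x z hz => (hB x z (mem_closedBall_zero_iff.2 hz.le)).trans (hB0 x),
    fun x y z h1 h2 => ?_⟩⟩⟩
  · have h := hol' x z ((H x).cl hz)
    rw [wr2 x z ((H x).cl hz), dz_div h.1 h.2.1 h.2.2]
  · exact fin.mem_toFinset.2 (mem_iUnion₂.2 ⟨x, y, _, ⟨z, ⟨⟨_, ball_subset_closedBall h1.2,
      (d.e x).left_inv h1.1⟩, _, ball_subset_closedBall h2.2, (d.e y).left_inv h2.1⟩, rfl⟩, rfl⟩)
  · rw [← QuotientGroup.mk_mul]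
    have e : c x y z * c y u z = dg (l x) * (d.c x y z * d.c y u z) * (dg (l u))⁻¹ := by
      simp only [hc, mul_assoc, inv_mul_cancel_left]
    exact pm ((d.co _ _ _ z (iB _ _ h1) (iB _ _ h2) (iB _ _ h3)).imp (fun h => by rw [e, h])
      fun h => by rw [e, h, mul_neg, neg_mul])
  · obtain ⟨x, hx, h⟩ := mem_iUnion₂.1 (hI.ge (mem_univ y))
    exact ⟨⟨x, hx⟩, h⟩
  · have := (k1 x).2
    gcongr
  · obtain ⟨h, e1, e2⟩ := tr y x z (iB _ _ ⟨h2.1, (H y).sub h2.2⟩) (iB _ _ ⟨h1.1, (H x).sub h1.2⟩)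
    have h0 : h ≠ 0 := fun c => ((mTR n M).2.1 _ (d.mem y) _ (d.mem x) z h2.1 h1.1).2.1
      (by rw [← jd, ← e1, c, zero_pow two_ne_zero])
    have y0 := (hol' y _ (DO y h2.2)).2.2
    have x0 := (hol' x _ (DO x h1.2)).2.2
    obtain ⟨m1, m2, -⟩ := mob e2 h0 y0 x0
    exact ((H y).eF _ h2.2).trans ((lg m1 h0 y0 x0 m2
      (e1 ▸ hL.wφ.cmp _ (d.mem y) _ (d.mem x) z h2.1 h1.1)).trans
        (congrArg (· - _) ((H x).eF _ h1.2).symm))

end Pool.Agent.Lib.F4G.B72
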