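import Pool.Agent.Lib.F4G.Blue
import Pool.Agent.Lib.F4G.BoxB

/-! Project f4g: the boxes exist. -/

namespace Pool.Agent.Lib.F4G

theorem st_BOX : St_BOX := fun _ _ _ _ _ _ _ d _ den rm hL s0 => B72.box s0 hL rm den d

end Pool.Agent.Lib.F4G
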