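import Pool.Agent.Lib.F4.M7a
import Pool.Agent.Lib.F4.Ld

/-! Project f4g: a pluriharmonic weight on the canonical bundle gives local parallel sections. -/

open scoped Classical Topology ContDiff Matrix
open Set Filter Metric

set_option linter.unusedVariables false

noncomputable section

namespace Pool.Agent.Lib.F4G

open Pool.Agent.Lib.SV (E)
open Pool.Agent.Lib.HS32 Pool.Agent.Lib.F4 Pool.Agent.Lib.F4.M7

namespace Fl99

variable {n : ℕ}

theorem fd2 {f : E n → ℂ} {z : E n} (h : ContDiffAt ℝ 2 f z) (a : E n) :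
    HasFDerivAt (fun w => fderiv ℝ f w a)
      ((ContinuousLinearMap.apply ℝ ℂ a).comp (fderiv ℝ (fderiv ℝ f) z)) z :=
  (ContinuousLinearMap.apply ℝ ℂ a).hasFDerivAt.comp z
    ((h.fderiv_right (m := 1) (by norm_num)).differentiableAt (by simp)).hasFDerivAt

theorem hd {f : E n → ℂ} {z : E n} (h : ContDiffAt ℝ 2 f z) (j : Fin n) :
    DifferentiableAt ℝ (dz j f) z ∧ ∀ v, fderiv ℝ (dz j f) z v =
      (fderiv ℝ (fderiv ℝ f) z v (Pi.single j 1) -
        Complex.I * fderiv ℝ (fderiv ℝ f) z v (Pi.single j Complex.I)) / 2 := by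
  have a := (((fd2 h (Pi.single j 1)).fun_sub
    ((fd2 h (Pi.single j Complex.I)).const_mul Complex.I)).mul_const (2⁻¹ : ℂ))
  have e : dz j f = fun w => (fderiv ℝ f w (Pi.single j 1) -
      Complex.I * fderiv ℝ f w (Pi.single j Complex.I)) * 2⁻¹ := by
    funext w
    rw [dz, div_eq_mul_inv]
  rw [e]
  refine ⟨a.differentiableAt, fun v => ?_⟩
  rw [a.fderiv]
  simp
  ring

theorem sym {f : E n → ℂ} {z : E n} (h : ContDiffAt ℝ 2 f z) (i j : Fin n) :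
    dz i (dz j f) z = dz j (dz i f) z := by
  have hs : IsSymmSndFDerivAt ℝ f z := h.isSymmSndFDerivAt (by simp)
  rw [dz, (hd h j).2, (hd h j).2, dz, (hd h i).2, (hd h i).2,
    hs.eq (Pi.single i 1) (Pi.single j 1), hs.eq (Pi.single i 1) (Pi.single j Complex.I),
    hs.eq (Pi.single i Complex.I) (Pi.single j 1),
    hs.eq (Pi.single i Complex.I) (Pi.single j Complex.I)]
  ring

theorem cdr {p : E n → ℝ} {z : E n} (h : ContDiffAt ℝ 2 p z) :
    ContDiffAt ℝ 2 (fun w => (p w : ℂ)) z := Complex.ofRealCLM.contDiff.contDiffAt.comp z h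

theorem fl {p : E n → ℝ} {z : E n} (h : ContDiffAt ℝ 2 p z)
    (h0 : hess (fun w => (p w : ℂ)) z = 0) : Fl (fun k => dz k fun w => (p w : ℂ)) z := by
  have d : ∀ k, DifferentiableAt ℂ (dz k fun w => (p w : ℂ)) z := fun k =>
    ((mHOL n _ z).1 (hd (cdr h) k).1).2 fun j => congrFun (congrFun h0 j) k
  refine ⟨d, fun j k => ?_⟩
  rw [← (mHOL n _ z).2.1 (d k), ← (mHOL n _ z).2.1 (d j), sym (cdr h), mul_comm]

theorem gau {M : Mf n} {φ : M.Fam ℝ} (hφ : Wk M 2 φ) {e e' : M.Ch} (he : e ∈ M.C)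
    (he' : e' ∈ M.C) {x : M.X} (hx : x ∈ e.source) (hx' : x ∈ e'.source) :
    Gau e e' (fun k => dz k fun w => (φ e w : ℂ)) (fun k => dz k fun w => (φ e' w : ℂ))
      (fun w => (jm (e ∘ e'.symm) w).det) x := by
  obtain ⟨h1, h0, -, h2, -⟩ := (mTR n M).2.1 e he e' he' x hx hx'
  obtain ⟨c1, -, -, -, c5, -, -, -, -, c10, -⟩ := mCHN n _ _ h1
  have t0 : (e ∘ e'.symm) (e' x) = e x := by simp [e'.left_inv hx']
  have h0' : (jm (e ∘ e'.symm) (e' x)).det ≠ 0 := h0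
  obtain ⟨l1, -, l2⟩ := ((mHOL n _ _).2.2 c5).2.2.2 h0'
  have d0 : DifferentiableAt ℝ (fun w => (φ e w : ℂ)) ((e ∘ e'.symm) (e' x)) := by
    rw [t0]
    exact (cdr (hφ.sm e he _ (e.map_source hx))).differentiableAt (by simp)
  have d1 := d0.comp (e' x) (cd_diff c1)
  have d2 := cd_diff (cd_ofReal l1)
  refine ⟨c5.self_of_nhds, h0'.isUnit, fun k => ?_⟩
  have q : dz k (fun w => (φ e' w : ℂ)) (e' x) = _ := (dz_congr (by
    filter_upwards [h2] with w hw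
    have := hφ.cmp e he e' he' _ hw.2.1 hw.2.2.1
    simp only [jd] at this
    rw [hw.2.2.2.2.2.1, hw.2.2.2.2.2.2] at this
    rw [this, Complex.ofReal_add]
    rfl)).trans (dz_add d1 d2)
  rw [q, (c10 _ d0 k).1, l2 k, t0, ← (mHOL n _ _).2.1 c5.self_of_nhds]
  simp only [Mf.J, smul_eq_mul, mul_comm (jm (e ∘ e'.symm) (e' x) _ k)]
  field_simp
  ring

end Fl99

theorem flatIn99 {n : ℕ} (M : Mf n) (φ : M.Fam ℝ) (hφ : Wk M 2 φ)
    (h0 : M.All fun e z => M.hw φ e z = 0) :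
    ∃ (O : M.X → Set M.X) (y : M.X → E n → ℂ),
      (∀ a, IsOpen (O a) ∧ a ∈ O a ∧ O a ⊆ (M.ch a).source) ∧
      (∀ a, ∀ x ∈ O a, DifferentiableAt ℂ (y a) (M.ch a x) ∧ y a (M.ch a x) ≠ 0) ∧
      ∀ a b x, x ∈ O a → x ∈ O b → ∃ lam : ℂ, lam ≠ 0 ∧ ∀ᶠ x₁ in 𝓝 x,
        y b (M.ch b x₁) = lam * jd M (M.ch a) (M.ch b) x₁ ^ 1 * y a (M.ch a x₁) := by
  set l : M.X → Fin n → E n → ℂ := fun a k => dz k fun w => (φ (M.ch a) w : ℂ) with hl
  have he : ∀ a, M.ch a ∈ M.C := Mf.ch_mem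
  have h1 : ∀ a, ∃ (O : Set M.X) (T : E n → ℂ), (IsOpen O ∧ a ∈ O ∧ O ⊆ (M.ch a).source) ∧
      ∀ z ∈ O, Par (l a) T (M.ch a z) ∧ IsUnit (T (M.ch a z)) := fun a => by
    have s1 := Mf.mem_ch a
    obtain ⟨T, hT⟩ := frameK (l := l a) (x := M.ch a a) (by
      filter_upwards [(M.ch a).open_target.eventually_mem ((M.ch a).map_source s1)] with w hw
      exact Fl99.fl (hφ.sm _ (he a) w hw) (h0 _ (he a) w hw))
    obtain ⟨O, hO, o1, o2⟩ := _root_.eventually_nhds_iff.1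
      ((((M.ch a).continuousAt s1).eventually hT).and ((M.ch a).open_source.eventually_mem s1))
    exact ⟨O, T, ⟨o1, o2, fun z hz => (hO z hz).2⟩, fun z hz => (hO z hz).1⟩
  choose O T hO hT using h1
  refine ⟨O, T, hO, fun a x hx => ⟨(hT a x hx).1.d, (hT a x hx).2.ne_zero⟩, fun a b x ha hb => ?_⟩
  have s1 := (hO b).2.2 hb
  have m1 : ∀ᶠ w in 𝓝 x, w ∈ O a ∧ w ∈ O b := ((hO a).1.inter (hO b).1).mem_nhds ⟨ha, hb⟩
  have m2 := ((M.ch b).continuousAt_symm ((M.ch b).map_source s1)).eventually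
    (((M.ch b).left_inv s1).symm ▸ m1)
  have nz : ∀ w, w ∈ O a → w ∈ O b → jd M (M.ch a) (M.ch b) w ≠ 0 := fun w wa wb =>
    ((mTR n M).2.1 _ (he a) _ (he b) w ((hO a).2.2 wa) ((hO b).2.2 wb)).2.1
  have m3 := const_of_par (l := l b) (Q := T b) (x := M.ch b x)
    (P := fun w => T a (M.ch a ((M.ch b).symm w)) * (jm (M.ch a ∘ (M.ch b).symm) w).det) (by
      filter_upwards [m2, (M.ch b).open_target.eventually_mem ((M.ch b).map_source s1)]
        with w hw ht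
      have q1 := par_gau (he _) (he _) ((hO a).2.2 hw.1) ((hO b).2.2 hw.2)
        (Fl99.gau hφ (he a) (he b) ((hO a).2.2 hw.1) ((hO b).2.2 hw.2)) (hT a _ hw.1).1
      have q2 := hT b _ hw.2
      rw [(M.ch b).right_inv ht] at q1 q2
      exact ⟨q1, q2⟩)
  have n1 := (hT a x ha).2.ne_zero
  have n2 := (hT b x hb).2.ne_zero
  have n3 := nz x ha hb
  refine ⟨T b (M.ch b x) / (jd M (M.ch a) (M.ch b) x * T a (M.ch a x)),
    div_ne_zero n2 (mul_ne_zero n3 n1), ?_⟩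
  filter_upwards [m1, ((M.ch b).continuousAt s1).eventually m3] with w hw h3
  have n4 := (hT b w hw.2).2.ne_zero
  simp only [(M.ch b).left_inv s1, (M.ch b).left_inv ((hO b).2.2 hw.2), Ring.inverse_eq_inv'] at h3
  change T a (M.ch a w) * jd M (M.ch a) (M.ch b) w * _ =
    T a (M.ch a x) * jd M (M.ch a) (M.ch b) x * _ at h3
  field_simp at h3 ⊢
  linear_combination -h3

end Pool.Agent.Lib.F4G
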