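import Mathlib

/-! Project f4g: multiplicative cocycles are torsion when the real cocycles are trivial. -/

open scoped Classical Topology
open Set Filter

set_option linter.unusedVariables false

noncomputable section

namespace Pool.Agent.Lib.F4G.T45

theorem alg (S : Set ℂ) (hS : S.Finite) (h0 : (0 : ℂ) ∉ S) :
    ∃ (m r : ℕ) (Φ : Fin r → ℂ → ℝ) (t : Fin r → ℂ), 0 < m ∧
      (∀ j, ∀ a ∈ S, ∀ b ∈ S, ∀ d ∈ S, a * b = d → Φ j a + Φ j b = Φ j d) ∧
      ∀ a ∈ S, a ^ m = Complex.exp (∑ j, Φ j a * t j) := by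
  let v : Additive ℂˣ → ℂ := fun a => ((Additive.toMul a : ℂˣ) : ℂ)
  have hv : Function.Injective v := fun a b h => Additive.toMul.injective (Units.ext h)
  let N : Submodule ℤ (Additive ℂˣ) := Submodule.span ℤ (v ⁻¹' S)
  have : Module.Finite ℤ N := Module.Finite.span_of_finite ℤ (hS.preimage hv.injOn)
  let T := Submodule.torsion ℤ N
  have hT : Finite T := Module.finite_of_fg_torsion T (Submodule.torsion_isTorsion (R := ℤ) (M := N))
  have : Module.Free ℤ (N ⧸ T) := Module.free_of_finite_type_torsion_free'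
  obtain ⟨s, hs⟩ := Module.projective_lifting_property T.mkQ LinearMap.id T.mkQ_surjective
  let b := Module.finBasis ℤ (N ⧸ T)
  let ι : ∀ a ∈ S, N := fun a ha => ⟨Additive.ofMul (Units.mk0 a fun h => h0 (h ▸ ha)),
    Submodule.subset_span ha⟩
  refine ⟨Nat.card T, _, fun j a => if h : a ∈ S then (b.repr (T.mkQ (ι a h)) j : ℤ) else 0,
    fun j => Nat.card T * Complex.log (v (s (b j))), Nat.card_pos, fun j a ha c hc d hd e => ?_,
    fun a ha => ?_⟩
  · have : ι d hd = ι a ha + ι c hc := Subtype.ext (hv e.symm)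
    simp only [dif_pos ha, dif_pos hc, dif_pos hd, this, map_add, Finsupp.add_apply, Int.cast_add]
  · have h1 : ι a ha - s (T.mkQ (ι a ha)) ∈ T :=
      (Submodule.Quotient.eq T).1 (LinearMap.congr_fun hs (T.mkQ (ι a ha))).symm
    have h2 : Nat.card T • (ι a ha - s (T.mkQ (ι a ha))) = 0 :=
      congrArg Subtype.val (card_nsmul_eq_zero' (G := T) (x := ⟨_, h1⟩))
    rw [smul_sub, sub_eq_zero, ← b.sum_repr (T.mkQ (ι a ha)), map_sum] at h2
    let w : N →+ Additive ℂ := (MonoidHom.toAdditive (Units.coeHom ℂ)).comp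
      N.subtype.toAddMonoidHom
    have h3 := congrArg (fun x => Additive.toMul (w x)) h2
    have h4 : ∀ j (k : ℤ), Additive.toMul (w (s (k • b j))) = v (s (b j)) ^ k := fun j k => by
      rw [map_smul]
      exact Units.val_zpow_eq_zpow_val _ _
    simp only [map_nsmul, map_sum, toMul_nsmul, toMul_sum, h4] at h3
    refine Eq.trans h3 ?_
    rw [Complex.exp_sum, ← Finset.prod_pow]
    refine Finset.prod_congr rfl fun j _ => ?_
    simp only [dif_pos ha, Complex.ofReal_intCast]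
    rw [mul_left_comm, Complex.exp_nat_mul, Complex.exp_int_mul, Complex.exp_log (Units.ne_zero _)]

theorem fin_img {X F : Type} [TopologicalSpace X] {K : Set X} (hK : IsCompact K) (f : X → F)
    (h : ∀ x ∈ K, ∀ᶠ y in 𝓝 x, f y = f x) : (f '' K).Finite := by
  obtain ⟨t, -, ht⟩ := hK.elim_nhds_subcover (fun x => {y | f y = f x}) h
  refine (t.finite_toSet.image f).subset ?_
  rintro _ ⟨y, hy, rfl⟩
  obtain ⟨x, hx, e⟩ := mem_iUnion₂.1 (ht hy)
  exact ⟨x, hx, e.symm⟩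

/-- Every locally constant real cocycle is a coboundary. -/
def RealTriv (X : Type) [TopologicalSpace X] : Prop :=
  ∀ (ι : Type) (O : ι → Set X) (r : ι → ι → X → ℝ), (∀ a, IsOpen (O a)) → (∀ x, ∃ a, x ∈ O a) →
    (∀ a b x, x ∈ O a → x ∈ O b → ∀ᶠ y in 𝓝 x, r a b y = r a b x) →
    (∀ a b d x, x ∈ O a → x ∈ O b → x ∈ O d → r a b x + r b d x = r a d x) →
    ∃ u : ι → X → ℝ, (∀ a, ∀ x ∈ O a, ∀ᶠ y in 𝓝 x, u a y = u a x) ∧
      ∀ a b x, x ∈ O a → x ∈ O b → r a b x + u a x = u b x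

theorem tora {X : Type} [TopologicalSpace X] [CompactSpace X] [T2Space X] (hR : RealTriv X)
    (ι : Type) (O : ι → Set X) (c : ι → ι → X → ℂ) (hO : ∀ a, IsOpen (O a))
    (hc : ∀ x, ∃ a, x ∈ O a)
    (h1 : ∀ a b x, x ∈ O a → x ∈ O b → c a b x ≠ 0 ∧ ∀ᶠ y in 𝓝 x, c a b y = c a b x)
    (h2 : ∀ a b d x, x ∈ O a → x ∈ O b → x ∈ O d → c a b x * c b d x = c a d x) :
    ∃ (m : ℕ) (u : ι → X → ℂ), 0 < m ∧ (∀ a, ∀ x ∈ O a, u a x ≠ 0 ∧ ∀ᶠ y in 𝓝 x, u a y = u a x) ∧
      ∀ a b x, x ∈ O a → x ∈ O b → c a b x ^ m * u a x = u b x := by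
  choose a ha using hc
  choose K k1 k2 k3 using fun x => exists_compact_subset (hO (a x)) (ha x)
  obtain ⟨t, -, ht⟩ := isCompact_univ.elim_nhds_subcover (fun x => interior (K x))
    fun x _ => isOpen_interior.mem_nhds (k2 x)
  have cov : ∀ x, ∃ k : t, x ∈ interior (K k) := fun x => by
    obtain ⟨k, hk, e⟩ := mem_iUnion₂.1 (ht (mem_univ x))
    exact ⟨⟨k, hk⟩, e⟩
  have sub : ∀ {k x}, x ∈ interior (K k) → x ∈ O (a k) := fun h => k3 _ (interior_subset h)
  set S : Set ℂ := ⋃ p : t × t, c (a p.1) (a p.2) '' (K p.1 ∩ K p.2) with hS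
  have mem : ∀ (k l : t) x, x ∈ interior (K k) → x ∈ interior (K l) → c (a k) (a l) x ∈ S :=
    fun k l x hk hl => mem_iUnion.2 ⟨(k, l), x, ⟨interior_subset hk, interior_subset hl⟩, rfl⟩
  obtain ⟨m, r, Φ, τ, m0, p1, p2⟩ := alg S
    (finite_iUnion fun p => fin_img ((k1 _).inter (k1 _)) _ fun x hx =>
      (h1 _ _ x (k3 _ hx.1) (k3 _ hx.2)).2)
    fun h => by
      obtain ⟨p, x, hx, e⟩ := mem_iUnion.1 h
      exact (h1 _ _ x (k3 _ hx.1) (k3 _ hx.2)).1 e
  choose u u1 u2 using fun j => hR t (fun k => interior (K k))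
    (fun k l x => Φ j (c (a k) (a l) x)) (fun _ => isOpen_interior) cov
    (fun k l x hk hl => (h1 _ _ x (sub hk) (sub hl)).2.mono fun y e => congrArg (Φ j) e)
    fun k l d x hk hl hd => p1 j _ (mem k l x hk hl) _ (mem l d x hl hd) _ (mem k d x hk hd)
      (h2 _ _ _ x (sub hk) (sub hl) (sub hd))
  set U : t → X → ℂ := fun k x => Complex.exp (∑ j, u j k x * τ j) with hU
  have e1 : ∀ (k l : t) x, x ∈ interior (K k) → x ∈ interior (K l) →
      c (a k) (a l) x ^ m * U k x = U l x := fun k l x hk hl => by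
    rw [p2 _ (mem k l x hk hl), ← Complex.exp_add, ← Finset.sum_add_distrib]
    refine congrArg Complex.exp (Finset.sum_congr rfl fun j _ => ?_)
    rw [← u2 j k l x hk hl, Complex.ofReal_add, add_mul]
  choose k hk using cov
  refine ⟨m, fun b x => U (k x) x * c (a (k x)) b x ^ m, m0, fun b x hx =>
    ⟨mul_ne_zero (Complex.exp_ne_zero _) (pow_ne_zero _ (h1 _ _ x (sub (hk x)) hx).1), ?_⟩,
    fun b d x hb hd => ?_⟩
  · filter_upwards [isOpen_interior.mem_nhds (hk x), (hO b).mem_nhds hx,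
      (h1 _ _ x (sub (hk x)) hx).2, eventually_all.2 fun j => u1 j _ x (hk x)] with y y1 y2 y3 y4
    have : U (k x) y = U (k x) x := by simp only [hU, y4]
    rw [← e1 _ _ y y1 (hk y), ← this, ← y3, ← h2 _ _ _ y (sub y1) (sub (hk y)) y2, mul_pow]
    ring
  · beta_reduce
    rw [← h2 _ _ _ x (sub (hk x)) hb hd, mul_pow]
    ring

end Pool.Agent.Lib.F4G.T45
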