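import Pool.Agent.Lib.F4.D_MXC
import Pool.Agent.Lib.F4.Defs
import Pool.Agent.Lib.KP.Blue
import Pool.Agent.Lib.F4G.TorA45

/-! Project f4g: flat line bundles are torsion when there is no holomorphic form of degree one. -/

open scoped Classical Topology ContDiff ComplexOrder Matrix
open Set MeasureTheory Complex Metric Filter

set_option linter.unusedVariables false

noncomputable section

namespace Pool.Agent.Lib.F4G.T45

open Pool.Agent.Lib.SV (E)
open Pool.Agent.Lib.HS32 Pool.Agent.Lib.F4 Pool.Agent.Lib.F4.LD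

variable {n : ℕ} {M : Mf n}

/-- Smooth functions that differ locally by constants. -/
structure Mv (g : M.X → M.X → ℝ) : Prop where
  sm : ∀ x, M.Sm (g x)
  loc : ∀ x, ∀ᶠ y in 𝓝 x, ∃ c, ∀ᶠ w in 𝓝 y, g y w = g x w + c

/-- The complex Hessian of the family. -/
def hv (g : M.X → M.X → ℝ) : M.Fam (Mat n) := fun e z => M.hs (g (e.symm z)) e z

variable {g : M.X → M.X → ℝ}

theorem Mv.fd (h : Mv g) {e : M.Ch} {z : E n} (hz : z ∈ e.target) : ∀ᶠ w in 𝓝 z,
    fderiv ℝ (M.lc (g (e.symm w)) e) =ᶠ[𝓝 w] fderiv ℝ (M.lc (g (e.symm z)) e) := by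
  filter_upwards [(e.continuousAt_symm hz).eventually (h.loc _),
    e.open_target.eventually_mem hz] with w ⟨c, hc⟩ hw
  have : M.lc (g (e.symm w)) e =ᶠ[𝓝 w] fun y => M.lc (g (e.symm z)) e y + c := by
    filter_upwards [(e.continuousAt_symm hw).eventually hc] with y hy
    simp only [Mf.lc, hy, ofReal_add]
  exact this.fderiv.trans (Eventually.of_forall fun y => fderiv_add_const _)

theorem Mv.ev (h : Mv g) {e : M.Ch} {z : E n} (hz : z ∈ e.target) : ∀ᶠ w in 𝓝 z,
    (∀ j, dz j (M.lc (g (e.symm w)) e) w = dz j (M.lc (g (e.symm z)) e) w) ∧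
    (∀ j, dzb j (M.lc (g (e.symm w)) e) w = dzb j (M.lc (g (e.symm z)) e) w) ∧
    hv g e w = M.hs (g (e.symm z)) e w := by
  filter_upwards [h.fd hz] with w hw
  refine ⟨fun j => by simp only [dz, hw.self_of_nhds], fun j => by simp only [dzb, hw.self_of_nhds],
    Matrix.ext fun i j => dzb_congr (hw.mono fun y hy => ?_)⟩
  simp only [dz, hy]

theorem Mv.clo (h : Mv g) : M.Clo (hv g) := by
  have c := fun x => (mHES n M).1 _ (h.sm x)
  refine ⟨⟨⟨fun e he z hz => ((c _).sm e he z hz).congr ((h.ev hz).mono fun w hw => hw.2.2),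
    fun e he e' he' x hx hx' => ?_⟩, fun e he z hz => (c _).herm e he z hz⟩,
    fun e he z hz => ((c _).cl e he z hz).congr ((h.ev hz).mono fun w hw => hw.2.2)⟩
  simp only [hv, e.left_inv hx, e'.left_inv hx']
  exact (c x).cmp e he e' he' x hx hx'

theorem Mv.grn [hM : M.Cpt] (h : Mv g) {H T : M.Fam (Mat n)} (hH : M.Met H) (hT : M.Clo T) :
    M.Sm (M.ev fun e z => ((T e z).adjugate * hv g e z).trace / (H e z).det) ∧
    ∫ x, M.ev (fun e z => ((T e z).adjugate * hv g e z).trace / (H e z).det) x ∂M.mu H = 0 := by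
  have v := fun x => BGRN.vden mCHN mCOF mTR M hT.toTen (h.sm x).ofReal (Mf.sm_const (1 : ℂ))
  set W : M.Fam (E n) := fun e z => BGRN.fld (T e) (M.lc (g (e.symm z)) e) (fun _ => 1) z with hW
  have l : ∀ {e : M.Ch} {z}, z ∈ e.target →
      W e =ᶠ[𝓝 z] BGRN.fld (T e) (M.lc (g (e.symm z)) e) fun _ => 1 := fun hz =>
    (h.ev hz).mono fun w hw => by simp only [hW, BGRN.fld, hw.2.1]
  have hV : M.VDen W := ⟨fun e he z hz => ((v _).sm e he z hz).congr_of_eventuallyEq (l hz),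
    fun e he e' he' x hx hx' => by
      simp only [hW, e.left_inv hx, e'.left_inv hx']
      exact (v x).cmp e he e' he' x hx hx'⟩
  obtain ⟨-, s, i⟩ := (mDIV n M H hH).2.1 W hV
  have k : M.All fun e z => ((T e z).adjugate * hv g e z).trace / (H e z).det =
      dv (W e) z / (H e z).det := fun e he z hz => by
    have a : dv (W e) z = dv (BGRN.fld (T e) (M.lc (g (e.symm z)) e) fun _ => 1) z :=
      Finset.sum_congr rfl fun j _ => dz_congr ((l hz).mono fun w hw => congrFun hw j)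
    have d0 : dd (M.lc (g (e.symm z)) e) (fun _ => (1 : ℂ)) z = 0 := by
      ext i j
      simp
    beta_reduce
    rw [a, BGRN.fld_dv mCOF (hT.sm e he z hz) (hT.cl e he z hz) ((h.sm _).lc e he z hz)
      contDiffAt_const, d0, zero_add, one_smul]
    rfl
  rw [Mf.ev_congr k]
  exact ⟨s, i hM⟩

open MXC Polynomial in
theorem Mv.mix [M.Cpt] (h : Mv g) {H S : M.Fam (Mat n)} (hK : M.Kae H) (hS : M.Clo S) :
    ∫ x, M.tr H (hv g) x ∂M.mu H = 0 ∧
    ∫ x, (M.tr H S x * M.tr H (hv g) x - M.ip H S (hv g) x) ∂M.mu H = 0 := by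
  have hH : M.Met H := hK.toMet
  have hA := h.clo
  obtain ⟨i1, i2, i3, i4, -⟩ := mINV n M H hH
  obtain ⟨-, -, -, -, hI, -⟩ := mMU n M H hH
  have tr : ∀ T, M.Form T → ∀ x, (M.tr H T x : ℂ) = ((M.ev H x)⁻¹ * M.ev T x).trace :=
    fun T hT x => by
      have a := (Mf.AllOn.ch (i2 _ hT) x).1
      rwa [Mf.ch_symm] at a
  constructor
  · refine ofReal_eq_zero.1 ?_
    rw [← integral_complex_ofReal, ← (h.grn hH hK.toClo).2]
    refine integral_congr_ae (ae_of_all _ fun x => ?_)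
    beta_reduce
    rw [tr _ hA.toForm, Matrix.inv_def, Ring.inverse_eq_inv', Matrix.smul_mul, Matrix.trace_smul,
      smul_eq_mul, mul_comm]
    rfl
  have G := fun t : ℝ => h.grn hH (BCOH.clo_line hK.toClo hS t)
  have ev : ∀ t : ℝ, (fun x => (q (M.ev H x) (M.ev S x) (M.ev (hv g) x) *
      C (M.ev H x).det⁻¹).eval (t : ℂ)) = M.ev fun e z =>
        ((H e z + (t : ℂ) • S e z).adjugate * hv g e z).trace / (H e z).det := fun t => by
    funext x
    simp only [Mf.ev, eval_mul, eval_C, q_eval, div_eq_mul_inv]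
  obtain ⟨m1, m2⟩ := poly_int (M.mu H)
    (fun x => q (M.ev H x) (M.ev S x) (M.ev (hv g) x) * C (M.ev H x).det⁻¹) n
    (fun x => (natDegree_mul_C_le _ _).trans (q_deg _ _ _))
    (fun i => by
      have e := ev (i : ℝ)
      rw [ofReal_natCast] at e
      rw [e, ← ofReal_natCast]
      exact hI ℂ _ (G i).1.continuous)
    (fun i => by
      have e := ev (i : ℝ)
      rw [ofReal_natCast] at e
      rw [e, ← ofReal_natCast]
      exact (G i).2)
  refine ofReal_eq_zero.1 ?_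
  rw [← integral_complex_ofReal, ← m2]
  refine integral_congr_ae (ae_of_all _ fun x => ?_)
  have a3 := Mf.AllOn.ch (i4 _ _ hS.toForm hA.toForm) x
  rw [Mf.ch_symm] at a3
  beta_reduce
  rw [coeff_mul_C, q_one _ _ _ (hH.ev_det x), ofReal_sub, ofReal_mul, tr _ hS.toForm,
    tr _ hA.toForm, a3]
  rfl

theorem zero_of_ip {H T : Mat n} (hH : H.PosDef) (hT : T.IsHermitian) :
    0 ≤ (H⁻¹ * T * H⁻¹ * T).trace.re ∧ ((H⁻¹ * T * H⁻¹ * T).trace.re = 0 → T = 0) := by
  obtain ⟨W, hW⟩ := Mf.psd_factor hH.inv.posSemidef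
  have d : IsUnit W.det := by
    have := Mf.pd_det_ne hH.inv
    rw [hW, Matrix.det_mul] at this
    exact isUnit_iff_ne_zero.2 (right_ne_zero_of_mul this)
  have e : (H⁻¹ * T * H⁻¹ * T).trace = ((W * T * Wᴴ) * (W * T * Wᴴ)ᴴ).trace := by
    simp only [hW, Matrix.conjTranspose_mul, Matrix.conjTranspose_conjTranspose, hT.eq,
      Matrix.mul_assoc]
    rw [Matrix.trace_mul_comm]
    simp only [Matrix.mul_assoc]
  have p := (Matrix.posSemidef_self_mul_conjTranspose (W * T * Wᴴ)).trace_nonneg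
  rw [e]
  refine ⟨(Complex.nonneg_iff.1 p).1, fun h0 => ?_⟩
  have z := Matrix.trace_mul_conjTranspose_self_eq_zero_iff.1
    (Complex.ext h0 (Complex.nonneg_iff.1 p).2.symm)
  have d' : IsUnit Wᴴ.det := by rw [Matrix.det_conjTranspose]; exact d.star
  have := congrArg (fun A => W⁻¹ * A * Wᴴ⁻¹) z
  simpa [Matrix.mul_assoc, Matrix.mul_nonsing_inv _ d', Matrix.nonsing_inv_mul_cancel_left _ _ d]
    using this

theorem Mv.cst (h : Mv g) (h0 : Zr M (hv g)) (hq : ∀ ρ, H1 M 0 ρ → Zr M ρ) (x : M.X) :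
    ∀ᶠ y in 𝓝 x, g x y = g x x := by
  have z := hq (fun e z j => dz j (M.lc (g (e.symm z)) e) z) ⟨fun e he z hz j => by
    filter_upwards [(h.ev hz).eventually_nhds, e.open_target.eventually_mem hz] with w hw ht
    have s := cd_dz ((h.sm (e.symm z)).lc e he w ht) j
    refine (((mHOL n _ w).1 (cd_diff s)).2 fun i => ?_).congr_of_eventuallyEq
      (hw.mono fun y hy => hy.1 j)
    exact congrFun (congrFun (hw.self_of_nhds.2.2.symm.trans (h0 e he w ht)) i) j,
    fun e he e' he' y hy hy' => by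
      obtain ⟨t1, -, -, t2, -⟩ := (mTR n M).2.1 e he e' he' y hy hy'
      have t0 : (e ∘ e'.symm) (e' y) = e y := by simp [e'.left_inv hy']
      have c := (mCHN n _ _ t1).2.2.2.2.2.2.2.2.2.1 (M.lc (g y) e)
        (t0 ▸ cd_diff ((h.sm y).lc e he _ (e.map_source hy)))
      have q : M.lc (g y) e' =ᶠ[𝓝 (e' y)] M.lc (g y) e ∘ (e ∘ e'.symm) :=
        t2.mono fun w hw => by simp only [Function.comp_apply, Mf.lc, hw.2.2.2.2.1]
      funext j
      simp only [e.left_inv hy, e'.left_inv hy', zpow_zero, one_smul]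
      rw [dz_congr q, (c j).1, t0]
      rfl⟩
  have he := Mf.ch_mem x
  have hz := Mf.ch_tgt x
  have f0 : ∀ᶠ w in 𝓝 (M.ch x x), DifferentiableAt ℝ (M.lc (g x) (M.ch x)) w ∧
      fderiv ℝ (M.lc (g x) (M.ch x)) w = 0 := by
    filter_upwards [h.ev hz, (M.ch x).open_target.eventually_mem hz] with w hw ht
    rw [Mf.ch_symm] at hw
    have s := cd_diff ((h.sm x).lc _ he w ht)
    have a : ∀ j, dz j (M.lc (g x) (M.ch x)) w = 0 := fun j =>
      (hw.1 j).symm.trans (congrFun (z _ he w ht) j)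
    have b : ∀ j, dzb j (M.lc (g x) (M.ch x)) w = 0 := fun j =>
      (star_dz_ofReal s).symm.trans ((congrArg star (a j)).trans (star_zero _))
    exact ⟨s, ContinuousLinearMap.ext fun v => by simp [fderiv_eq_sum, a, b]⟩
  obtain ⟨r, r0, hr⟩ := Metric.eventually_nhds_iff_ball.1 f0
  filter_upwards [(M.ch x).continuousAt (Mf.mem_ch x) (ball_mem_nhds _ r0),
    (M.ch x).open_source.mem_nhds (Mf.mem_ch x)] with y hy hs
  have := isOpen_ball.is_const_of_fderiv_eq_zero (convex_ball _ _).isPreconnected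
    (fun w hw => (hr w hw).1.differentiableWithinAt) (fun w hw => (hr w hw).2) hy (mem_ball_self r0)
  simpa only [Mf.lc, (M.ch x).left_inv hs, Mf.ch_symm, ofReal_inj] using this

theorem Mv.har [M.Cpt] (hP : KP.St_POI) (h : Mv g) {H : M.Fam (Mat n)} (hn : 0 < n)
    (hK : M.Kae H) (hq : ∀ ρ, H1 M 0 ρ → Zr M ρ) :
    ∃ w : M.X → ℝ, ∀ x, ∀ᶠ y in 𝓝 x, g x y + w y = g x x + w x := by
  have hH := hK.toMet
  obtain ⟨i1, -, i3, -⟩ := mINV n M H hH
  obtain ⟨-, m1, m2, m3, hI, -⟩ := mMU n M H hH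
  obtain ⟨w, c, sw, hw⟩ := hP n M H _ hn hK (i1 _ h.clo.toTen).2.1
  have h' : Mv fun x y => g x y + w y := ⟨fun x => (h.sm x).add sw, fun x =>
    (h.loc x).mono fun y hy => hy.imp fun c hc => hc.mono fun v e => by rw [e]; ring⟩
  have t : ∀ x, M.tr H (hv fun x y => g x y + w y) x = c := fun x => by
    have a := (Mf.AllOn.ch (((mLAP n M) _ w (h.sm x) sw).1 0) x).2.1
    have b : M.tr H (hv fun x y => g x y + w y) x = M.tr H (hv g + M.hs w) x := by
      simp only [Mf.tr, Mf.ev, hv, Mf.ch_symm, a, Pi.add_apply]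
    rw [b, Mf.tr_add]
    exact (congrArg _ (hw x)).trans (add_sub_cancel _ _)
  obtain ⟨k1, k2⟩ := h'.mix hK h'.clo
  simp only [t, integral_const, smul_eq_mul, mul_eq_zero, m3.ne', false_or] at k1
  simp only [t, k1, mul_zero, zero_sub, integral_neg, neg_eq_zero] at k2
  obtain ⟨r, s, -⟩ := i3 _ _ h'.clo.toTen h'.clo.toTen
  have k3 := (s.continuous.ae_eq_iff_eq _ continuous_zero).1 ((integral_eq_zero_iff_of_nonneg
    (fun x => (zero_of_ip (hH.ev_pos x) (Mf.AllOn.ch h'.clo.herm x)).1)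
    (hI ℝ _ s.continuous)).1 k2)
  exact ⟨w, h'.cst (fun e he z hz => (zero_of_ip (hH.pos e he z hz) (h'.clo.herm e he z hz)).2
    ((r e he z hz).symm.trans (congrFun k3 _))) hq⟩

theorem torr [M.Cpt] (hP : KP.St_POI) {H : M.Fam (Mat n)} (hn : 0 < n) (hK : M.Kae H)
    (hq : ∀ ρ, H1 M 0 ρ → Zr M ρ) : RealTriv M.X := by
  intro ι O r hO hc h1 h2
  choose a ha using hc
  obtain ⟨V, hV⟩ := (mCOV n M).2.1 M.C (fun x => O (a x)) Mf.sub_all
    fun x => (hO _).mem_nhds (ha x)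
  choose p hp using fun k => (hV k).2
  have sb : ∀ k, closedBall (V.c k) (2 * V.ρ k) ⊆ closedBall (V.c k) (4 * V.ρ k) := fun k =>
    closedBall_subset_closedBall (by linarith [V.pos k])
  have mem : ∀ k y, V.χ k y ≠ 0 → y ∈ (V.e k).symm '' closedBall (V.c k) (2 * V.ρ k) :=
    fun k y hy => ⟨_, ball_subset_closedBall (V.supp k y hy).2, (V.e k).left_inv (V.supp k y hy).1⟩
  set f : ι → M.X → ℝ := fun b y => ∑ k, V.χ k y ^ 2 * r (a (p k)) b y with hf
  have A : ∀ b, ∀ x ∈ O b, ∀ᶠ y in 𝓝 x, f b y = ∑ k, V.χ k y ^ 2 * r (a (p k)) b x :=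
    fun b x hx => by
      refine (eventually_all.2 fun k => ?_).mono fun y hy => Finset.sum_congr rfl fun k _ => hy k
      by_cases hk : x ∈ O (a (p k))
      · exact (h1 _ _ x hk hx).mono fun y e => by rw [e]
      · have cl := ((isCompact_closedBall (V.c k) (2 * V.ρ k)).image_of_continuousOn
          ((V.e k).continuousOn_symm.mono ((sb k).trans (V.sub k)))).isClosed
        filter_upwards [cl.isOpen_compl.mem_nhds fun c => hk (hp k (image_mono (sb k) c))]
          with y hy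
        simp [not_not.1 fun c => hy (mem k y c)]
  have B : ∀ b d x, x ∈ O b → x ∈ O d → r b d x + f b x = f d x := fun b d x hb hd => by
    rw [← one_mul (r b d x), ← V.sum x, Finset.sum_mul, ← Finset.sum_add_distrib]
    refine Finset.sum_congr rfl fun k _ => ?_
    by_cases hk : V.χ k x = 0
    · simp [hk]
    · rw [← h2 _ b d x (hp k (image_mono (sb k) (mem k x hk))) hb hd]
      ring
  have h : Mv fun x y => ∑ k, V.χ k y ^ 2 * r (a (p k)) (a x) x :=
    ⟨fun x => Mf.Sm.sum fun k _ => ((V.sm k).pow 2).mul (Mf.sm_const _), fun x => by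
      filter_upwards [(A _ x (ha x)).eventually_nhds, (hO _).mem_nhds (ha x)] with y y1 y2
      refine ⟨r (a x) (a y) y, ?_⟩
      filter_upwards [y1, A _ y (ha y), h1 _ _ y y2 (ha y), (hO _).mem_nhds y2,
        (hO _).mem_nhds (ha y)] with w w1 w2 w3 w4 w5
      rw [← w1, ← w2, ← w3, ← B _ _ w w4 w5, add_comm]⟩
  obtain ⟨w, hw⟩ := h.har hP hn hK hq
  refine ⟨fun b x => f b x + w x, fun b x hx => ?_, fun b d x hb hd => by
    rw [← add_assoc, B b d x hb hd]⟩
  filter_upwards [hw x, A _ x (ha x), h1 _ _ x (ha x) hx, (hO _).mem_nhds hx,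
    (hO _).mem_nhds (ha x)] with y y1 y2 y3 y4 y5
  rw [← B _ _ y y5 y4, ← B _ _ x (ha x) hx, y3, y2, add_assoc, add_assoc, y1]

theorem tor (hP : KP.St_POI) (n : ℕ) (M : Mf n) [M.Cpt] (H : M.Fam (Mat n)) (hn : 0 < n)
    (hK : M.Kae H) (hq : ∀ ρ, H1 M 0 ρ → Zr M ρ) (ι : Type) (O : ι → Set M.X)
    (c : ι → ι → M.X → ℂ) (hO : ∀ a, IsOpen (O a)) (hc : ∀ x, ∃ a, x ∈ O a)
    (h1 : ∀ a b x, x ∈ O a → x ∈ O b → c a b x ≠ 0 ∧ ∀ᶠ y in 𝓝 x, c a b y = c a b x)
    (h2 : ∀ a b d x, x ∈ O a → x ∈ O b → x ∈ O d → c a b x * c b d x = c a d x) :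
    ∃ (m : ℕ) (u : ι → M.X → ℂ), 0 < m ∧
      (∀ a, ∀ x ∈ O a, u a x ≠ 0 ∧ ∀ᶠ y in 𝓝 x, u a y = u a x) ∧
      ∀ a b x, x ∈ O a → x ∈ O b → c a b x ^ m * u a x = u b x :=
  tora (torr hP hn hK hq) ι O c hO hc h1 h2

end Pool.Agent.Lib.F4G.T45
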