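import Pool.Agent.Lib.F4G.El93
import Pool.Agent.Lib.F4G.Flat99
import Pool.Agent.Lib.F4G.Tor45

/-! Project f4g: the flat case and the elementary case. -/

open scoped Classical Topology ContDiff Matrix MatrixGroups
open Set Filter Metric

set_option linter.unusedVariables false

noncomputable section

namespace Pool.Agent.Lib.F4G

open Pool.Agent.Lib.SV (E)
open Pool.Agent.Lib.HS32 Pool.Agent.Lib.F4

variable {n : ℕ}

theorem tor93 (hP : KP.St_POI) (M : Mf n) [M.Cpt] (H : M.Fam (Mat n)) (hn : 0 < n) (hK : M.Kae H)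
    (hq : ∀ ρ, H1 M 0 ρ → Zr M ρ) :
    ∀ (ι : Type) (O : ι → Set M.X) (c : ι → ι → M.X → ℂ), (∀ a, IsOpen (O a)) →
      (∀ x, ∃ a, x ∈ O a) →
      (∀ a b x, x ∈ O a → x ∈ O b → c a b x ≠ 0 ∧ ∀ᶠ y in 𝓝 x, c a b y = c a b x) →
      (∀ a b d x, x ∈ O a → x ∈ O b → x ∈ O d → c a b x * c b d x = c a d x) →
      ∃ m, 0 < m ∧ ∃ u : ι → M.X → ℂ,
        (∀ a, ∀ x ∈ O a, u a x ≠ 0 ∧ ∀ᶠ y in 𝓝 x, u a y = u a x) ∧
        ∀ a b x, x ∈ O a → x ∈ O b → c a b x ^ m * u a x = u b x := fun ι O c a1 a2 a3 a4 => by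
  obtain ⟨m, u, m0, h⟩ := T45.tor hP n M H hn hK hq ι O c a1 a2 a3 a4
  exact ⟨m, m0, u, h⟩

/-- A flat weight gives a pluricanonical form. -/
theorem flat93 (hP : KP.St_POI) (M : Mf n) [M.Cpt] (H : M.Fam (Mat n)) (hn : 0 < n)
    (hK : M.Kae H) (hq : ∀ ρ, H1 M 0 ρ → Zr M ρ) (φ : M.Fam ℝ) (hφ : Wk M 2 φ)
    (h0 : M.All fun e z => M.hw φ e z = 0) : ∃ m, 0 < m ∧ ∃ s, M.HSec m s ∧ ¬Zr M s := by
  obtain ⟨O, y, h1, h2, h3⟩ := flatIn99 M φ hφ h0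
  obtain ⟨m, m0, s, s1, s2⟩ := sec93 M (tor93 hP M H hn hK hq) M.ch Mf.ch_mem O
    (fun a => ⟨(h1 a).1, (h1 a).2.2⟩) (fun x => ⟨x, (h1 x).2.1⟩) y 1 (fun a x hx => ⟨(h2 a x hx).1,
      (((h1 a).1.eventually_mem hx).mono fun w hw => (h2 a w hw).2).frequently⟩) h3
  exact ⟨_, by simpa using m0, s, s1, s2⟩

/-- The case `s = 0` of Lemma D. -/
theorem flatL93 (hP : KP.St_POI) (M : Mf n) [M.Cpt] (H : M.Fam (Mat n)) (hn : 0 < n)
    (hK : M.Kae H) (hq : ∀ ρ, H1 M 0 ρ → Zr M ρ) {k : ℕ} (hk : 2 ≤ k) {α : M.Fam (E n)}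
    {φ ψ : M.Fam ℝ} (hL : Ld M k α 0 φ ψ) : ∃ m, 0 < m ∧ ∃ s, M.HSec m s ∧ ¬Zr M s :=
  flat93 hP M H hn hK hq φ ⟨fun e he z hz => (hL.wφ.sm e he z hz).of_le (by exact_mod_cast hk),
    hL.wφ.cmp⟩ fun e he z hz => by simpa using hL.hφ e he z hz

/-- The elementary case. -/
theorem elemK93 (hP : KP.St_POI) (M : Mf n) [M.Cpt] (H : M.Fam (Mat n)) (hn : 0 < n)
    (hK : M.Kae H) (hq : ∀ ρ, H1 M 0 ρ → Zr M ρ)
    {α : M.Fam (E n)} (D : Dev M α) (hα : Den M α) {ι : Type} (b : ι → M.X) (U : ι → Set M.X)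
    (hU : ∀ i, IsOpen (U i) ∧ U i ⊆ D.O (b i)) (hc : ∀ x, ∃ i, x ∈ U i)
    (Γ : Subgroup SL(2, ℂ)) (g : ι → SL(2, ℂ))
    (hg : ∀ i j x, x ∈ U i → x ∈ U j → g i * D.c (b i) (b j) x * (g j)⁻¹ ∈ Γ ∨
      -(g i * D.c (b i) (b j) x * (g j)⁻¹) ∈ Γ) (v : Fin 2 → ℂ) (hv : v ≠ 0)
    (hf : ((fun γ : SL(2, ℂ) => Submodule.span ℂ {γ.1 *ᵥ v}) '' Γ).Finite) :
    ∃ m, 0 < m ∧ ∃ s, M.HSec m s ∧ ¬Zr M s :=
  elemG93 M (tor93 hP M H hn hK hq) D hα b U hU hc Γ g hg v hv hf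

theorem linR93 {M : Mf n} {e : M.Ch} {U : Set M.X} (hU : IsOpen U ∧ U ⊆ e.source)
    {s t : E n → ℂ} (hs : ∀ y ∈ U, s (e y) ≠ 0) {x : M.X} (hx : x ∈ U)
    (den : ∃ᶠ w in 𝓝 (e x), fderiv ℂ (fun z => t z / s z) w ≠ 0) {v : Fin 2 → ℂ} (hv : v ≠ 0) :
    ∃ᶠ w in 𝓝 x, v 0 * t (e w) - v 1 * s (e w) ≠ 0 := by
  by_contra hn
  rw [not_frequently] at hn
  have s1 := hU.2 hx
  have h1 : ∀ᶠ z in 𝓝 (e x), v 0 * t z - v 1 * s z = 0 ∧ s z ≠ 0 := by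
    filter_upwards [(e.continuousAt_symm (e.map_source s1)).eventually
      ((e.left_inv s1).symm ▸ (hn.and (hU.1.eventually_mem hx))),
      e.open_target.eventually_mem (e.map_source s1)] with z h1 h2
    have := hs _ h1.2
    rw [e.right_inv h2] at h1 this
    exact ⟨not_not.1 h1.1, this⟩
  have v0 : v 0 ≠ 0 := fun c => hv (funext fun i => by
    obtain ⟨q0, q1⟩ := h1.self_of_nhds
    fin_cases i
    · exact c
    · rw [c, zero_mul, zero_sub, neg_eq_zero] at q0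
      exact (mul_eq_zero.1 q0).resolve_right q1)
  obtain ⟨z, z0, z1⟩ := (den.and_eventually h1.eventually_nhds).exists
  refine z0 ?_
  have : (fun z => t z / s z) =ᶠ[𝓝 z] fun _ => v 1 / v 0 := z1.mono fun y hy => by
    have := hy.2
    field_simp
    linear_combination hy.1
  rw [this.fderiv_eq]
  simp

/-- An invariant finite family of lines gives a pluricanonical form. -/
theorem elemR93 (M : Mf n) [M.Cpt]
    (hT : ∀ (ι : Type) (O : ι → Set M.X) (c : ι → ι → M.X → ℂ), (∀ a, IsOpen (O a)) →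
      (∀ x, ∃ a, x ∈ O a) →
      (∀ a b x, x ∈ O a → x ∈ O b → c a b x ≠ 0 ∧ ∀ᶠ y in 𝓝 x, c a b y = c a b x) →
      (∀ a b d x, x ∈ O a → x ∈ O b → x ∈ O d → c a b x * c b d x = c a d x) →
      ∃ m, 0 < m ∧ ∃ u : ι → M.X → ℂ,
        (∀ a, ∀ x ∈ O a, u a x ≠ 0 ∧ ∀ᶠ y in 𝓝 x, u a y = u a x) ∧
        ∀ a b x, x ∈ O a → x ∈ O b → c a b x ^ m * u a x = u b x)
    {ι : Type} (e : ι → M.Ch) (he : ∀ i, e i ∈ M.C) (U : ι → Set M.X)
    (hU : ∀ i, IsOpen (U i) ∧ U i ⊆ (e i).source) (hc : ∀ x, ∃ i, x ∈ U i)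
    (s t : ι → E n → ℂ) (c : ι → ι → M.X → SL(2, ℂ))
    (hol : ∀ i, ∀ x ∈ U i, DifferentiableAt ℂ (s i) (e i x) ∧ DifferentiableAt ℂ (t i) (e i x) ∧
      s i (e i x) ≠ 0)
    (den : ∀ i, ∀ x ∈ U i, ∃ᶠ w in 𝓝 (e i x), fderiv ℂ (fun z => t i z / s i z) w ≠ 0)
    (tr : ∀ i j x, x ∈ U i → x ∈ U j → ∃ h : ℂ, h ^ 2 = jd M (e i) (e j) x ∧
      h • ![s i (e i x), t i (e i x)] = (c i j x).1 *ᵥ ![s j (e j x), t j (e j x)])
    (lc : ∀ i j x, x ∈ U i → x ∈ U j → ∀ᶠ y in 𝓝 x, c i j y = c i j x ∨ c i j y = -c i j x)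
    (L : ι → Set (Submodule ℂ (Fin 2 → ℂ))) (hf : ∀ i, (L i).Finite) (hne : ∀ i, (L i).Nonempty)
    (hl : ∀ i, ∀ l ∈ L i, ∃ v, v ≠ 0 ∧ l = Submodule.span ℂ {v})
    (hm : ∀ i j x, x ∈ U i → x ∈ U j → ∀ v, Submodule.span ℂ {v} ∈ L j →
      Submodule.span ℂ {(c i j x).1 *ᵥ v} ∈ L i) :
    ∃ m, 0 < m ∧ ∃ s, M.HSec m s ∧ ¬Zr M s := by
  have h0 : ∀ l : Submodule ℂ (Fin 2 → ℂ), ∃ v, ∀ i, l ∈ L i → v ≠ 0 ∧ l = Submodule.span ℂ {v} :=
    fun l => by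
      by_cases h : ∃ i, l ∈ L i
      · obtain ⟨i, hi⟩ := h
        obtain ⟨v, hv⟩ := hl i l hi
        exact ⟨v, fun _ _ => hv⟩
      · exact ⟨0, fun i hi => (h ⟨i, hi⟩).elim⟩
  choose r hr using h0
  have ci : ∀ (g : SL(2, ℂ)) (v w : Fin 2 → ℂ), g.1 *ᵥ v = g.1 *ᵥ w → v = w := fun g v w h => by
    have := congrArg ((g⁻¹).1 *ᵥ ·) h
    simpa only [Matrix.mulVec_mulVec, ← Matrix.SpecialLinearGroup.coe_mul, inv_mul_cancel,
      Matrix.SpecialLinearGroup.coe_one, Matrix.one_mulVec] using this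
  have mp : ∀ i j x, x ∈ U i → x ∈ U j → MapsTo
      (fun l => Submodule.span ℂ {(c i j x).1 *ᵥ r l}) (L j) (L i) :=
    fun i j x h1 h2 l h => hm i j x h1 h2 _ ((hr l j h).2 ▸ h)
  have inj : ∀ (g : SL(2, ℂ)) j, InjOn (fun l => Submodule.span ℂ {g.1 *ᵥ r l}) (L j) := by
    have k : ∀ (g : SL(2, ℂ)) j, ∀ l ∈ L j, ∀ l' ∈ L j,
        Submodule.span ℂ {g.1 *ᵥ r l} = Submodule.span ℂ {g.1 *ᵥ r l'} → l ≤ l' :=
      fun g j l h l' h' q => by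
        obtain ⟨μ, hμ⟩ := Submodule.mem_span_singleton.1
          (q ▸ Submodule.mem_span_singleton_self (g.1 *ᵥ r l))
        rw [← Matrix.mulVec_smul] at hμ
        rw [(hr l j h).2, (hr l' j h').2, Submodule.span_singleton_le_iff_mem, ← ci g _ _ hμ]
        rw [← (hr l' j h').2]
        exact Submodule.smul_mem _ _ ((hr l' j h').2.ge (Submodule.mem_span_singleton_self _))
    exact fun g j l h l' h' q => le_antisymm (k g j l h l' h' q) (k g j l' h' l h q.symm)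
  have cd : ∀ i j x, x ∈ U i → x ∈ U j → (L j).ncard = (L i).ncard := fun i j x h1 h2 =>
    le_antisymm (ncard_le_ncard_of_injOn _ (mp i j x h1 h2) (inj _ j) (hf i))
      (ncard_le_ncard_of_injOn _ (mp j i x h2 h1) (inj _ i) (hf j))
  choose a ha using hc
  obtain ⟨x₀⟩ : Nonempty M.X := inferInstance
  have lk : IsLocallyConstant fun x => (L (a x)).ncard :=
    (IsLocallyConstant.iff_eventually_eq _).2 fun x =>
      ((hU (a x)).1.eventually_mem (ha x)).mono fun w hw => cd _ _ w hw (ha w)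
  have ck : ∀ i, ∀ x ∈ U i, (hf i).toFinset.card = (L (a x₀)).ncard := fun i x hx => by
    rw [← ncard_eq_toFinset_card _ (hf i), cd _ _ x (ha x) hx]
    exact lk.apply_eq_of_preconnectedSpace x x₀
  obtain ⟨m, m0, s', s1, s2⟩ := sec93 M hT e he U hU (fun x => ⟨_, ha x⟩)
    (fun i z => ∏ l ∈ (hf i).toFinset, (r l 0 * t i z - r l 1 * s i z) ^ 2)
    (L (a x₀)).ncard (fun i x hx => ⟨by
      have d := hol _ x hx
      exact (HasFDerivAt.finsetProd (u := (hf i).toFinset) fun l _ =>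
        (((d.2.1.const_mul (r l 0)).fun_sub (d.1.const_mul (r l 1))).fun_pow 2).hasFDerivAt).differentiableAt,
      freq_prod93 (hU i).1 (fun l w => (r l 0 * t i (e i w) -
        r l 1 * s i (e i w)) ^ 2) _ (fun l hl x hx => ⟨by
          have d := hol _ x hx
          exact (((d.2.1.const_mul (r l 0)).fun_sub
            (d.1.const_mul (r l 1))).fun_pow 2).continuousAt.comp
            ((e i).continuousAt ((hU i).2 hx)),
        (linR93 (hU i) (fun y hy => (hol i y hy).2.2) hx (den i x hx) (hr l i ((hf i).mem_toFinset.1 hl)).1).mono fun w hw =>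
          pow_ne_zero 2 hw⟩) x hx⟩) (fun i j x h1 h2 => by
      set g := c i j x with hg
      have im : (hf j).toFinset.image (fun l => Submodule.span ℂ {g.1 *ᵥ r l}) =
          (hf i).toFinset := Finset.eq_of_subset_of_card_le (fun l hl => by
        obtain ⟨l', h3, rfl⟩ := Finset.mem_image.1 hl
        exact (hf i).mem_toFinset.2 (mp i j x h1 h2 ((hf j).mem_toFinset.1 h3))) (by
        rw [Finset.card_image_of_injOn (by simpa using inj g j), ck i x h1, ck j x h2])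
      have mu : ∀ l, ∃ μ : ℂ, l ∈ L j → μ ≠ 0 ∧
          μ • r (Submodule.span ℂ {g.1 *ᵥ r l}) = g.1 *ᵥ r l := fun l => by
        by_cases h : l ∈ L j
        · obtain ⟨μ, hμ⟩ := Submodule.mem_span_singleton.1
            ((hr _ i (mp i j x h1 h2 h)).2.le (Submodule.mem_span_singleton_self (g.1 *ᵥ r l)))
          refine ⟨μ, fun _ => ⟨fun c0 => (hr l j h).1 (ci g _ _ ?_), hμ⟩⟩
          rw [← hμ, c0, zero_smul, Matrix.mulVec_zero]
        · exact ⟨0, fun c0 => (h c0).elim⟩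
      choose μ hμ using mu
      refine ⟨∏ l ∈ (hf j).toFinset, μ l ^ 2, Finset.prod_ne_zero_iff.2 fun l hl =>
        pow_ne_zero 2 (hμ l ((hf j).mem_toFinset.1 hl)).1, ?_⟩
      filter_upwards [lc _ _ x h1 h2, (hU i).1.eventually_mem h1,
        (hU j).1.eventually_mem h2] with w w1 w2 w3
      obtain ⟨h, q1, q2⟩ := tr _ _ w w2 w3
      rw [← im, Finset.prod_image (by simpa using inj g j), ← ck j x h2, ← Finset.prod_const,
        ← Finset.prod_mul_distrib, ← Finset.prod_mul_distrib]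
      refine Finset.prod_congr rfl fun l hl => ?_
      have q3 := (hμ l ((hf j).mem_toFinset.1 hl)).2
      have q4 := g.2
      rw [Matrix.det_fin_two] at q4
      have a0 := congrFun q2 0
      have a1 := congrFun q2 1
      have b0 := congrFun q3 0
      have b1 := congrFun q3 1
      rw [← q1]
      generalize r (Submodule.span ℂ {g.1 *ᵥ r l}) = v at *
      rw [← hg] at w1
      rcases w1 with w1 | w1 <;> rw [w1] at a0 a1 <;>
        simp [Matrix.mulVec, dotProduct, Fin.sum_univ_two] at a0 a1 b0 b1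
      · have : μ l * h * (v 0 * t i (e i w) - v 1 * s i (e i w)) =
            r l 0 * t j (e j w) - r l 1 * s j (e j w) := by
          linear_combination (μ l * v 0) * a1 - (μ l * v 1) * a0 +
            (g.1 1 0 * s j (e j w) + g.1 1 1 * t j (e j w)) * b0 -
            (g.1 0 0 * s j (e j w) + g.1 0 1 * t j (e j w)) * b1 +
            (r l 0 * t j (e j w) - r l 1 * s j (e j w)) * q4
        rw [← this]
        ring
      · have : -(μ l * h * (v 0 * t i (e i w) - v 1 * s i (e i w))) =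
            r l 0 * t j (e j w) - r l 1 * s j (e j w) := by
          linear_combination -(μ l * v 0) * a1 + (μ l * v 1) * a0 +
            (g.1 1 0 * s j (e j w) + g.1 1 1 * t j (e j w)) * b0 -
            (g.1 0 0 * s j (e j w) + g.1 0 1 * t j (e j w)) * b1 +
            (r l 0 * t j (e j w) - r l 1 * s j (e j w)) * q4
        rw [← this]
        ring)
  exact ⟨_, Nat.mul_pos ((ncard_pos (hf _)).2 (hne _)) m0, s', s1, s2⟩

/-- A finite orbit of a group that contains the monodromy gives a pluricanonical form. -/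
theorem elemGR93 (M : Mf n) [M.Cpt]
    (hT : ∀ (ι : Type) (O : ι → Set M.X) (c : ι → ι → M.X → ℂ), (∀ a, IsOpen (O a)) →
      (∀ x, ∃ a, x ∈ O a) →
      (∀ a b x, x ∈ O a → x ∈ O b → c a b x ≠ 0 ∧ ∀ᶠ y in 𝓝 x, c a b y = c a b x) →
      (∀ a b d x, x ∈ O a → x ∈ O b → x ∈ O d → c a b x * c b d x = c a d x) →
      ∃ m, 0 < m ∧ ∃ u : ι → M.X → ℂ,
        (∀ a, ∀ x ∈ O a, u a x ≠ 0 ∧ ∀ᶠ y in 𝓝 x, u a y = u a x) ∧
        ∀ a b x, x ∈ O a → x ∈ O b → c a b x ^ m * u a x = u b x)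
    {ι : Type} (e : ι → M.Ch) (he : ∀ i, e i ∈ M.C) (U : ι → Set M.X)
    (hU : ∀ i, IsOpen (U i) ∧ U i ⊆ (e i).source) (hc : ∀ x, ∃ i, x ∈ U i)
    (s t : ι → E n → ℂ) (c : ι → ι → M.X → SL(2, ℂ))
    (hol : ∀ i, ∀ x ∈ U i, DifferentiableAt ℂ (s i) (e i x) ∧ DifferentiableAt ℂ (t i) (e i x) ∧
      s i (e i x) ≠ 0)
    (den : ∀ i, ∀ x ∈ U i, ∃ᶠ w in 𝓝 (e i x), fderiv ℂ (fun z => t i z / s i z) w ≠ 0)
    (tr : ∀ i j x, x ∈ U i → x ∈ U j → ∃ h : ℂ, h ^ 2 = jd M (e i) (e j) x ∧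
      h • ![s i (e i x), t i (e i x)] = (c i j x).1 *ᵥ ![s j (e j x), t j (e j x)])
    (lc : ∀ i j x, x ∈ U i → x ∈ U j → ∀ᶠ y in 𝓝 x, c i j y = c i j x ∨ c i j y = -c i j x)
    (Γ : Subgroup SL(2, ℂ)) (g : ι → SL(2, ℂ))
    (hg : ∀ i j x, x ∈ U i → x ∈ U j → g i * c i j x * (g j)⁻¹ ∈ Γ ∨
      -(g i * c i j x * (g j)⁻¹) ∈ Γ) (v : Fin 2 → ℂ) (hv : v ≠ 0)
    (hf : ((fun γ : SL(2, ℂ) => Submodule.span ℂ {γ.1 *ᵥ v}) '' Γ).Finite) :
    ∃ m, 0 < m ∧ ∃ s, M.HSec m s ∧ ¬Zr M s := by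
  have mp : ∀ (k : SL(2, ℂ)) (w : Fin 2 → ℂ), (Submodule.span ℂ {w}).map (Matrix.mulVecLin k.1) =
      Submodule.span ℂ {k.1 *ᵥ w} := fun k w => by
    rw [Submodule.map_span, image_singleton]
    rfl
  refine elemR93 M hT e he U hU hc s t c hol den tr lc (fun i => (fun l => l.map (Matrix.mulVecLin ((g i)⁻¹).1)) ''
    ((fun γ : SL(2, ℂ) => Submodule.span ℂ {γ.1 *ᵥ v}) '' Γ)) (fun i => hf.image _)
    (fun i => ⟨_, _, ⟨1, Γ.one_mem, rfl⟩, rfl⟩) ?_ ?_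
  · rintro i _ ⟨_, ⟨γ, -, rfl⟩, rfl⟩
    refine ⟨_, fun c0 => hv ?_, mp _ _⟩
    have := congrArg ((γ⁻¹ * g i).1 *ᵥ ·) c0
    simpa only [Matrix.mulVec_mulVec, ← Matrix.SpecialLinearGroup.coe_mul, mul_assoc,
      mul_inv_cancel_left, inv_mul_cancel, Matrix.SpecialLinearGroup.coe_one, Matrix.one_mulVec,
      Matrix.mulVec_zero] using this
  · rintro i j x h1 h2 w ⟨_, ⟨γ, hγ, rfl⟩, q⟩
    rw [← mp, ← q]
    beta_reduce
    rw [mp, mp]
    rcases hg i j x h1 h2 with h | h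
    · refine ⟨_, ⟨_, Γ.mul_mem h hγ, rfl⟩, ?_⟩
      beta_reduce
      rw [mp]
      simp only [Matrix.mulVec_mulVec, ← Matrix.SpecialLinearGroup.coe_mul, mul_assoc,
        inv_mul_cancel_left]
    · refine ⟨_, ⟨_, Γ.mul_mem h hγ, rfl⟩, ?_⟩
      beta_reduce
      rw [mp]
      rw [neg_mul, Matrix.SpecialLinearGroup.coe_neg, Matrix.neg_mulVec, Matrix.mulVec_neg,
        ← Set.neg_singleton, Submodule.span_neg]
      simp only [Matrix.mulVec_mulVec, ← Matrix.SpecialLinearGroup.coe_mul, mul_assoc,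
        inv_mul_cancel_left]

/-- The elementary case for local data that are not packed in a structure. -/
theorem elemKR93 (hP : KP.St_POI) (M : Mf n) [M.Cpt] (H : M.Fam (Mat n)) (hn : 0 < n)
    (hK : M.Kae H) (hq : ∀ ρ, H1 M 0 ρ → Zr M ρ)
    {ι : Type} (e : ι → M.Ch) (he : ∀ i, e i ∈ M.C) (U : ι → Set M.X)
    (hU : ∀ i, IsOpen (U i) ∧ U i ⊆ (e i).source) (hc : ∀ x, ∃ i, x ∈ U i)
    (s t : ι → E n → ℂ) (c : ι → ι → M.X → SL(2, ℂ))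
    (hol : ∀ i, ∀ x ∈ U i, DifferentiableAt ℂ (s i) (e i x) ∧ DifferentiableAt ℂ (t i) (e i x) ∧
      s i (e i x) ≠ 0)
    (den : ∀ i, ∀ x ∈ U i, ∃ᶠ w in 𝓝 (e i x), fderiv ℂ (fun z => t i z / s i z) w ≠ 0)
    (tr : ∀ i j x, x ∈ U i → x ∈ U j → ∃ h : ℂ, h ^ 2 = jd M (e i) (e j) x ∧
      h • ![s i (e i x), t i (e i x)] = (c i j x).1 *ᵥ ![s j (e j x), t j (e j x)])
    (lc : ∀ i j x, x ∈ U i → x ∈ U j → ∀ᶠ y in 𝓝 x, c i j y = c i j x ∨ c i j y = -c i j x)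
    (Γ : Subgroup SL(2, ℂ)) (g : ι → SL(2, ℂ))
    (hg : ∀ i j x, x ∈ U i → x ∈ U j → g i * c i j x * (g j)⁻¹ ∈ Γ ∨
      -(g i * c i j x * (g j)⁻¹) ∈ Γ) (v : Fin 2 → ℂ) (hv : v ≠ 0)
    (hf : ((fun γ : SL(2, ℂ) => Submodule.span ℂ {γ.1 *ᵥ v}) '' Γ).Finite) :
    ∃ m, 0 < m ∧ ∃ s, M.HSec m s ∧ ¬Zr M s :=
  elemGR93 M (tor93 hP M H hn hK hq) e he U hU hc s t c hol den tr lc Γ g hg v hv hf

end Pool.Agent.Lib.F4G
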