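import Pool.Agent.Lib.F4G.Blue
import Pool.Agent.Lib.F4G.Flat93

/-! Project f4g: the flat case. -/

noncomputable section

namespace Pool.Agent.Lib.F4G

theorem st_FLAT (hP : KP.St_POI) : St_FLAT := fun _ M _ H _ _ _ hn hK hq hL =>
  flatL93 hP M H hn hK hq (by norm_num) hL

end Pool.Agent.Lib.F4G
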