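import Pool.Agent.Lib.F4G.BlueM

/-! Project f4g, row MCO: the cost of a link, in coordinates. -/

open scoped Classical Topology ENNReal NNReal
open Set Filter MeasureTheory Metric

set_option linter.unusedVariables false

noncomputable section

namespace Pool.Agent.Lib.F4G

open Pool.Agent.Lib.SV (E)

namespace Mco65

theorem tri (a b c : ℝ) : ‖a - c‖ₑ ≤ ‖a - b‖ₑ + ‖b - c‖ₑ := by
  have h : a - c = (a - b) + (b - c) := by ring
  rw [h]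
  exact enorm_add_le _ _

theorem tube {n : ℕ} {U N : Set (E n)} {W : E n → ℂ} {D : Set ℂ} {C C0 : ℝ≥0} {f : E n → ℝ}
    {a : ℂ → ℝ} {m : ℝ} (hU : IsOpen U) (hf : ContinuousOn f U) (ha : Measurable a)
    (hD : ∀ χ : ℂ → ℝ≥0∞, Measurable χ → ∫⁻ w in D, χ w ≤ C * ∫⁻ y in U ∩ N, χ (W y))
    (h1 : ∫⁻ y in N, ‖f y - a (W y)‖ₑ ≤ 1) (h2 : ∫⁻ y in U, ‖f y - m‖ₑ ≤ C0) :
    ∫⁻ w in D, ‖a w - m‖ₑ ≤ C * (1 + C0) := by
  refine (hD (fun w => ‖a w - m‖ₑ) (ha.sub_const m).enorm).trans (mul_le_mul_right ?_ _)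
  have hm : AEMeasurable (fun y => ‖f y - m‖ₑ) (volume.restrict (U ∩ N)) :=
    (((hf.aemeasurable hU.measurableSet).sub_const m).enorm).mono_measure
      (Measure.restrict_mono inter_subset_left le_rfl)
  calc ∫⁻ y in U ∩ N, ‖a (W y) - m‖ₑ
      ≤ ∫⁻ y in U ∩ N, (‖f y - a (W y)‖ₑ + ‖f y - m‖ₑ) := lintegral_mono fun y => by
        rw [enorm_sub_rev (f y) (a (W y))]
        exact tri _ _ _
    _ = (∫⁻ y in U ∩ N, ‖f y - a (W y)‖ₑ) + ∫⁻ y in U ∩ N, ‖f y - m‖ₑ :=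
        lintegral_add_right' _ hm
    _ ≤ 1 + C0 := add_le_add ((lintegral_mono_set inter_subset_right).trans h1)
        ((lintegral_mono_set inter_subset_left).trans h2)

theorem pig {A B : Type} (s : Finset A) (t : Finset B) (P : Set ℂ) (Z : A → B → Set ℂ) (k : ℕ)
    (hs : s.card ≤ k) (ht : t.card ≤ k) (hP : P.Nonempty)
    (h : ∀ w ∈ P, ∃ x ∈ s, ∃ y ∈ t, w ∈ Z x y) :
    ∃ x ∈ s, ∃ y ∈ t, volume P ≤ (k * k : ℕ) * volume (Z x y) := by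
  obtain ⟨w0, hw0⟩ := hP
  obtain ⟨x0, hx0, y0, hy0, -⟩ := h w0 hw0
  obtain ⟨q, hq, hmax⟩ := Finset.exists_max_image (s ×ˢ t) (fun q => volume (Z q.1 q.2))
    ⟨(x0, y0), Finset.mem_product.2 ⟨hx0, hy0⟩⟩
  refine ⟨q.1, (Finset.mem_product.1 hq).1, q.2, (Finset.mem_product.1 hq).2, ?_⟩
  calc volume P ≤ volume (⋃ u ∈ s ×ˢ t, Z u.1 u.2) := measure_mono fun w hw => by
        obtain ⟨x, hx, y, hy, hz⟩ := h w hw
        exact mem_iUnion₂.2 ⟨(x, y), Finset.mem_product.2 ⟨hx, hy⟩, hz⟩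
    _ ≤ ∑ u ∈ s ×ˢ t, volume (Z u.1 u.2) := measure_biUnion_finset_le _ _
    _ ≤ (s ×ˢ t).card • volume (Z q.1 q.2) := Finset.sum_le_card_nsmul _ _ _ hmax
    _ ≤ (k * k : ℕ) * volume (Z q.1 q.2) := by
        rw [nsmul_eq_mul, Finset.card_product]
        exact mul_le_mul_left (Nat.cast_le.2 (Nat.mul_le_mul hs ht)) _

theorem fin {K P D D' : Set ℂ} {a a' : ℂ → ℝ} {μ : ℂ → ℂ} {m m' : ℝ} {L : ℝ≥0} {Y : ℝ≥0∞}
    (hK : MeasurableSet K) (hD' : MeasurableSet D') (ha : Measurable a) (ha' : Measurable a')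
    (hμ : Measurable μ) (k1 : K ⊆ P) (k2 : K ⊆ D) (k3 : ∀ w ∈ K, μ w ∈ D')
    (cv : ∀ χ : ℂ → ℝ≥0∞, Measurable χ → ∫⁻ w in P, χ (μ w) ≤ L * ∫⁻ w, χ w)
    (h1 : ∫⁻ w in D, ‖a w - m‖ₑ ≤ Y) (h2 : ∫⁻ w in K, ‖a w - a' (μ w)‖ₑ ≤ 1)
    (h3 : ∫⁻ w in D', ‖a' w - m'‖ₑ ≤ Y) : ‖m - m'‖ₑ * volume K ≤ Y + 1 + L * Y := by
  have m1 : Measurable fun w => ‖a w - m‖ₑ := (ha.sub_const m).enorm
  have m2 : Measurable fun w => ‖a w - a' (μ w)‖ₑ := (ha.sub (ha'.comp hμ)).enorm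
  have m3 : Measurable fun w => ‖a' w - m'‖ₑ := (ha'.sub_const m').enorm
  have h4 : ∫⁻ w in K, ‖a' (μ w) - m'‖ₑ ≤ L * Y :=
    calc ∫⁻ w in K, ‖a' (μ w) - m'‖ₑ
        ≤ ∫⁻ w in K, D'.indicator (fun u => ‖a' u - m'‖ₑ) (μ w) :=
          setLIntegral_mono' hK fun w hw => by rw [indicator_of_mem (k3 w hw)]
      _ ≤ ∫⁻ w in P, D'.indicator (fun u => ‖a' u - m'‖ₑ) (μ w) := lintegral_mono_set k1
      _ ≤ L * ∫⁻ w, D'.indicator (fun u => ‖a' u - m'‖ₑ) w := cv _ (m3.indicator hD')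
      _ ≤ L * Y := by
          rw [lintegral_indicator hD']
          exact mul_le_mul_right h3 _
  calc ‖m - m'‖ₑ * volume K = ∫⁻ _ in K, ‖m - m'‖ₑ := (setLIntegral_const K _).symm
    _ ≤ ∫⁻ w in K, (‖a w - m‖ₑ + ‖a w - a' (μ w)‖ₑ + ‖a' (μ w) - m'‖ₑ) :=
        lintegral_mono fun w => by
          rw [enorm_sub_rev (a w) m]
          exact (tri m (a' (μ w)) m').trans (add_le_add_left (tri _ _ _) _)
    _ = (∫⁻ w in K, ‖a w - m‖ₑ) + (∫⁻ w in K, ‖a w - a' (μ w)‖ₑ) +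
          ∫⁻ w in K, ‖a' (μ w) - m'‖ₑ := by
        rw [lintegral_add_left (m1.fun_add m2), lintegral_add_left m1]
    _ ≤ Y + 1 + L * Y := add_le_add (add_le_add ((lintegral_mono_set k2).trans h1) h2) h4

end Mco65

open Mco65 in
theorem st_MCO (hT : St_MTU) (hX : St_MEX) (hG : St_MGE) (hH : St_MHA) : St_MCO := by
  intro n ι V κ _ bx U W ρ r L C0 Com Good Mo l f m hr hU hW hreg geo hcom hcont hlea hful
  have ex : ∀ i x, ∃ N : Set (E n), x ∈ U i → fderiv ℂ (W i) x ≠ 0 → N ∈ 𝓝 x ∧ ∀ v, bx v = i →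
      ∃ a : κ → ℂ → ℝ, (∀ k, Measurable (a k)) ∧
        Tendsto (fun k => ∫⁻ y in N, ‖f k v y - a k (W i y)‖ₑ) l (𝓝 0) := by
    intro i x
    by_cases h : x ∈ U i ∧ fderiv ℂ (W i) x ≠ 0
    · obtain ⟨N, h1, h2⟩ := hX n κ V l f _ (W i) x
        (((hU i).eventually_mem h.1).mono fun y hy => (hW i).differentiableAt ((hU i).mem_nhds hy))
        h.2 (hlea i x h.1 h.2)
      exact ⟨N, fun _ _ => ⟨h1, h2⟩⟩
    · exact ⟨univ, fun h1 h2 => (h ⟨h1, h2⟩).elim⟩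
  choose N hN using ex
  choose s D C hcov hs using fun i => hT n (U i) (W i) ρ (N i) (hU i) (hW i) (hreg i)
    fun x h1 h2 => (hN i x h1 h2).1
  obtain ⟨C', hC'⟩ := Finite.exists_le C
  obtain ⟨c, hc⟩ := Finite.exists_le fun i => (s i).card
  set Y : ℝ≥0∞ := C' * (1 + C0) with hY
  set Z : ℝ≥0∞ := (c * c : ℕ) * (2 * (Y + 1 + L * Y)) with hZ
  have hYt : Y ≠ ⊤ := ENNReal.mul_ne_top ENNReal.coe_ne_top (by simp)
  have hZt : Z ≠ ⊤ := ENNReal.mul_ne_top (ENNReal.natCast_ne_top _) (ENNReal.mul_ne_top (by simp)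
    (ENNReal.add_ne_top.2 ⟨ENNReal.add_ne_top.2 ⟨hYt, by simp⟩,
      ENNReal.mul_ne_top ENNReal.coe_ne_top hYt⟩))
  have hb0 : volume (ball (0 : ℂ) r) ≠ 0 := (measure_ball_pos _ _ hr).ne'
  refine ⟨(Z / volume (ball (0 : ℂ) r)).toReal, fun v v' z lk => ?_⟩
  obtain ⟨x, hx, x', hx', hp⟩ := pig (s (bx v)) (s (bx v')) (ball z r)
    (fun x x' => ball z r ∩ D (bx v) x ∩ Mo v v' ⁻¹' D (bx v') x') c (hc _) (hc _)
    (nonempty_ball.2 hr) fun w hw => by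
      obtain ⟨x, hx, h1⟩ := mem_iUnion₂.1 (hcov (bx v) (lk.src hw))
      obtain ⟨x', hx', h2⟩ := mem_iUnion₂.1 (hcov (bx v') (lk.tgt hw))
      exact ⟨x, hx, x', hx', ⟨hw, h1⟩, h2⟩
  obtain ⟨p1, p2, p3, p4, p5⟩ := hs (bx v) x hx
  obtain ⟨q1, q2, q3, q4, q5⟩ := hs (bx v') x' hx'
  obtain ⟨a, ha, ta⟩ := (hN (bx v) x p1 p2).2 v rfl
  obtain ⟨a', ha', ta'⟩ := (hN (bx v') x' q1 q2).2 v' rfl
  obtain ⟨S, hS, hch⟩ := lk.chn
  obtain ⟨K, hK, k1, k2, tk⟩ := hH κ l (fun k w => ‖a k w - a' k (Mo v v' w)‖ₑ)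
    (ball z r ∩ D (bx v) x ∩ Mo v v' ⁻¹' D (bx v') x') S
    ((measurableSet_ball.inter p3.measurableSet).inter (geo.mea v v' q3.measurableSet))
    ((measure_mono (inter_subset_left.trans inter_subset_left)).trans_lt measure_ball_lt_top).ne
    hS fun w hw => by
      obtain ⟨y, hy, ey⟩ := p4 hw.1.1.2
      obtain ⟨y', hy', ey'⟩ := q4 hw.1.2
      obtain ⟨g1, g2, g3⟩ := hch w ⟨hw.1.1.1, hw.2⟩
      have := hG n κ V l f _ _ Com Good Mo geo hcom hcont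
        (fun u y h1 h2 => ⟨N (bx u) y, (hN _ y h1 h2).1, (hN _ y h1 h2).2 u rfl⟩) v v' y hy.1 y'
        hy'.1 _ (mem_interior_iff_mem_nhds.1 hy.2) _ (mem_interior_iff_mem_nhds.1 hy'.2) a a' ha
        ha' ta ta' (by simpa only [ey] using g1) (by simpa only [ey'] using g2)
        (by simpa only [ey, ey'] using g3)
      simpa only [ey] using this
  have one : Iic (1 : ℝ≥0∞) ∈ 𝓝 (0 : ℝ≥0∞) := Iic_mem_nhds zero_lt_one
  filter_upwards [ta one, ta' one, tk one] with k e1 e2 e3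
  have t1 := (tube (hU _) (hcont k v) (ha k) p5 e1 (hful k v)).trans
    (mul_le_mul_left (ENNReal.coe_le_coe.2 (hC' _)) _)
  have t2 := (tube (hU _) (hcont k v') (ha' k) q5 e2 (hful k v')).trans
    (mul_le_mul_left (ENNReal.coe_le_coe.2 (hC' _)) _)
  have t3 := fin hK q3.measurableSet (ha k) (ha' k) (geo.mea v v')
    (fun w hw => (k1 hw).1.1) (fun w hw => (k1 hw).1.2) (fun w hw => (k1 hw).2) lk.cv t1 e3 t2
  have t4 : ‖m k v - m k v'‖ₑ * volume (ball (0 : ℂ) r) ≤ Z := by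
    rw [← Measure.addHaar_ball_center volume z r]
    calc ‖m k v - m k v'‖ₑ * volume (ball z r)
        ≤ ‖m k v - m k v'‖ₑ * ((c * c : ℕ) * (2 * volume K)) :=
          mul_le_mul_right (hp.trans (mul_le_mul_right k2 _)) _
      _ = (c * c : ℕ) * (2 * (‖m k v - m k v'‖ₑ * volume K)) := by ring
      _ ≤ Z := mul_le_mul_right (mul_le_mul_right t3 _) _
  have t5 : ‖m k v - m k v'‖ₑ ≤ Z / volume (ball (0 : ℂ) r) :=
    (ENNReal.le_div_iff_mul_le (Or.inl hb0) (Or.inr hZt)).2 t4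
  have t6 := ENNReal.toReal_mono (ENNReal.div_ne_top hZt hb0) t5
  rwa [toReal_enorm, Real.norm_eq_abs] at t6

end Pool.Agent.Lib.F4G
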