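import Pool.Agent.Lib.F4G.BlueM

/-! Project f4g: the cost of a link, from the version in coordinates. -/

open scoped Classical Topology ENNReal NNReal ContDiff ComplexOrder Matrix
open Set Filter MeasureTheory Metric

set_option linter.unusedVariables false

noncomputable section

namespace Pool.Agent.Lib.F4G

open Pool.Agent.Lib.SV (E)
open Pool.Agent.Lib.HS32 Pool.Agent.Lib.F4

namespace Mea46

variable {n : ℕ}

theorem fd_sum {W : E n → ℂ} {z : E n} (h : DifferentiableAt ℂ W z) (v : E n) :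
    fderiv ℂ W z v = ∑ j, dz j W z * v j := by
  have e : ∀ w, fderiv ℝ W z w = fderiv ℂ W z w := fun w => by
    rw [(h.hasFDerivAt.restrictScalars ℝ).fderiv]; rfl
  have d : ∀ j, dz j W z = fderiv ℂ W z (Pi.single j 1) := fun j => by
    have s : (Pi.single j Complex.I : E n) = Complex.I • (Pi.single j 1 : E n) := by
      rw [← Pi.single_smul, smul_eq_mul, mul_one]
    unfold dz
    rw [e, e, s, map_smul, smul_eq_mul, ← mul_assoc, Complex.I_mul_I]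
    ring
  have hv : v = ∑ j, v j • (Pi.single j 1 : E n) := by
    funext i
    simp [Finset.sum_apply, Pi.single_apply]
  conv_lhs => rw [hv]
  rw [map_sum]
  refine Finset.sum_congr rfl fun j _ => ?_
  rw [map_smul, smul_eq_mul, d, mul_comm]

theorem adm_le {b d : ℝ} {T : Mat n} {ξ : E n} {G : ℝ≥0∞} (hT : T.PosSemidef)
    (hd : d ^ 2 ≤ b * nq T ξ) (hG : len T ξ ≤ G * ‖ξ‖ₑ) :
    ‖d‖ₑ ≤ ((Real.sqrt b).toNNReal * G) * ‖ξ‖ₑ := by
  have h0 : 0 ≤ nq T ξ := (Complex.nonneg_iff.1 (hT.dotProduct_mulVec_nonneg ξ)).1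
  have h1 : |d| ≤ Real.sqrt b * Real.sqrt (nq T ξ) := by
    rw [← Real.sqrt_mul' _ h0]
    exact Real.abs_le_sqrt hd
  calc ‖d‖ₑ = ENNReal.ofReal |d| := (Real.enorm_eq_ofReal_abs d)
    _ ≤ ENNReal.ofReal (Real.sqrt b * Real.sqrt (nq T ξ)) := ENNReal.ofReal_le_ofReal h1
    _ = ENNReal.ofReal (Real.sqrt b) * len T ξ := ENNReal.ofReal_mul (Real.sqrt_nonneg _)
    _ ≤ ENNReal.ofReal (Real.sqrt b) * (G * ‖ξ‖ₑ) := by gcongr
    _ = ((Real.sqrt b).toNNReal * G) * ‖ξ‖ₑ := by rw [mul_assoc]; rfl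

theorem psd {M : Mf n} {T : M.Fam (Mat n)} (h : M.Le 0 T) {e : M.Ch} (he : e ∈ M.C) {y : E n}
    (hy : y ∈ e.target) : (T e y).PosSemidef := by
  have := h e he y hy
  simpa using this

/-- One bound for every index, whose mean tends to zero. -/
theorem small {κ : Type} (ε : κ → ℝ) (K : Set (E n)) (a : κ → E n → E n → ℝ≥0∞)
    (P : E n → E n → Prop)
    (h1 : ∀ k, ∃ g : E n → ℝ≥0∞, Measurable g ∧ ∀ y ∈ K, ∀ ξ, P y ξ → a k y ξ ≤ g y * ‖ξ‖ₑ)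
    (h2 : ∀ η : ℝ≥0∞, 0 < η → ∃ δ : ℝ, 0 < δ ∧ ∀ k, ε k ≤ δ → ∃ g : E n → ℝ≥0∞, Measurable g ∧
      ∫⁻ y in K, g y ≤ η ∧ ∀ y ∈ K, ∀ ξ, P y ξ → a k y ξ ≤ g y * ‖ξ‖ₑ) :
    ∃ g : κ → E n → ℝ≥0∞, (∀ k, Measurable (g k)) ∧
      Tendsto (fun k => ∫⁻ y in K, g k y) (comap ε (𝓝 0)) (𝓝 0) ∧
      ∀ k, ∀ y ∈ K, ∀ ξ, P y ξ → a k y ξ ≤ g k y * ‖ξ‖ₑ := by
  have h3 : ∀ j : ℕ, ∃ δ : ℝ, 0 < δ ∧ ∀ k, ∃ g : E n → ℝ≥0∞, Measurable g ∧
      (ε k ≤ δ → ∫⁻ y in K, g y ≤ (j : ℝ≥0∞)⁻¹) ∧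
      ∀ y ∈ K, ∀ ξ, P y ξ → a k y ξ ≤ g y * ‖ξ‖ₑ := fun j => by
    obtain ⟨δ, hδ, h⟩ := h2 (j : ℝ≥0∞)⁻¹ (ENNReal.inv_pos.2 (ENNReal.natCast_ne_top j))
    refine ⟨δ, hδ, fun k => ?_⟩
    by_cases hk : ε k ≤ δ
    · obtain ⟨g, g1, g2, g3⟩ := h k hk
      exact ⟨g, g1, fun _ => g2, g3⟩
    · obtain ⟨g, g1, g3⟩ := h1 k
      exact ⟨g, g1, fun h => absurd h hk, g3⟩
  choose δ hδ G G1 G2 G3 using h3
  refine ⟨fun k y => ⨅ j, G j k y, fun k => Measurable.iInf fun j => G1 j k, ?_,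
    fun k y hy ξ hP => ?_⟩
  · rw [ENNReal.tendsto_nhds_zero]
    intro η hη
    obtain ⟨j, hj⟩ := ENNReal.exists_inv_nat_lt hη.ne'
    have : ∀ᶠ k in comap ε (𝓝 0), ε k ≤ δ j :=
      tendsto_comap.eventually (eventually_le_nhds (hδ j))
    filter_upwards [this] with k hk
    exact (lintegral_mono fun y => iInf_le _ j).trans ((G2 j k hk).trans hj.le)
  · rw [ENNReal.iInf_mul (fun h => absurd h enorm_ne_top)]
    exact le_iInf fun j => G3 j k y hy ξ hP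

end Mea46

open Mea46

theorem st_MEA (hFU : St_MFU) (hLE : St_MLE) (hPT : St_MPT) (hCO : St_MCO) : St_MEA := by
  intro n M _ H α ι V _ bx e c R U W b ρ r L Com Good Mo hH hα hS hr hb hG
  have := Fintype.ofFinite ι
  choose A hA using fun i => hFU n M H hH (e i) (hb i).1 _ (isCompact_closedBall (c i) (R i))
    (hb i).2.2.1
  choose B hB using fun i => hPT n (c i) (R i) (hb i).2.1
  have hsub : ∀ i, ball (c i) (R i) ⊆ (e i).target := fun i =>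
    ball_subset_closedBall.trans (hb i).2.2.1
  obtain ⟨β, hβ⟩ : ∃ β : ℝ≥0, β = (Real.sqrt b).toNNReal := ⟨_, rfl⟩
  have hp : ∀ (ε : ℝ) (u : M.X → ℝ) (i : ι), ∃ p ∈ ball (c i) (R i), 0 ≤ ε → ε ≤ 1 → M.Sm u →
      M.Le 0 (tE M H ε u) → ∀ f, Adm b (tE M H ε u (e i)) (ball (c i) (R i)) f →
        ∫⁻ y in ball (c i) (R i), ‖f y - f p‖ₑ ≤ ((∑ j, B j * (β * A j) : ℝ≥0) : ℝ≥0∞) := by
    intro ε u i
    by_cases hk : 0 ≤ ε ∧ ε ≤ 1 ∧ M.Sm u ∧ M.Le 0 (tE M H ε u)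
    · obtain ⟨h, h1, h2, h3⟩ := hA i ε u hk.1 hk.2.1 hk.2.2.1 hk.2.2.2
      obtain ⟨p, hp, hp2⟩ := hB i (fun y => β * h y) (h1.const_mul _)
      refine ⟨p, hp, fun _ _ _ hle f hf => (hp2 f fun y hy => ⟨(hf y hy).1, fun ξ => ?_⟩).trans ?_⟩
      · rw [hβ]
        exact adm_le (psd hle (hb i).1 (hsub i hy)) ((hf y hy).2 ξ)
          (h3 y (ball_subset_closedBall hy) ξ)
      · rw [lintegral_const_mul _ h1]
        calc (B i : ℝ≥0∞) * (β * ∫⁻ y in ball (c i) (R i), h y) ≤ B i * (β * A i) := by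
              gcongr
              exact (lintegral_mono_set ball_subset_closedBall).trans h2
          _ = ((B i * (β * A i) : ℝ≥0) : ℝ≥0∞) := by push_cast; rfl
          _ ≤ _ := ENNReal.coe_le_coe.2 (Finset.single_le_sum
              (f := fun j => B j * (β * A j)) (fun j _ => zero_le) (Finset.mem_univ i))
    · exact ⟨c i, mem_ball_self (hb i).2.1, fun a1 a2 a3 a4 => absurd ⟨a1, a2, a3, a4⟩ hk⟩
  choose p hp1 hp2 using hp
  let κ : Type := {k : ℝ × (M.X → ℝ) × (V → E n → ℝ) // 0 ≤ k.1 ∧ k.1 ≤ 1 ∧ M.Sm k.2.1 ∧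
    M.Le 0 (tE M H k.1 k.2.1) ∧
    (∀ a, Adm b (tE M H k.1 k.2.1 (e (bx a))) (ball (c (bx a)) (R (bx a))) (k.2.2 a)) ∧
    ∀ a x a' x', Com a x a' x' → k.2.2 a x = k.2.2 a' x'}
  obtain ⟨C1, hC⟩ := hCO n ι V κ bx U W ρ r L (∑ j, B j * (β * A j)) Com Good Mo
    (comap (fun k : κ => k.1.1) (𝓝 0)) (fun k => k.1.2.2)
    (fun k v => k.1.2.2 v (p k.1.1 k.1.2.1 (bx v))) hr (fun i => (hb i).2.2.2.2.1)
    (fun i => (hb i).2.2.2.2.2.1) (fun i => (hb i).2.2.2.2.2.2.2) hG (fun k => k.2.2.2.2.2.2)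
    (fun k v y hy => (k.2.2.2.2.2.1 v y ((hb _).2.2.2.1 hy)).1.continuousAt.continuousWithinAt)
    (fun i x hx hW => by
      obtain ⟨he, -, -, hU, hO, hD, hs, -⟩ := hb i
      have hd : ∀ y ∈ U i, DifferentiableAt ℂ (W i) y := fun y hy =>
        hD.differentiableAt (hO.mem_nhds hy)
      have hx0 : α (e i) x ≠ 0 := fun h0 => by
        obtain ⟨s, hs0, hs1⟩ := hs x hx
        refine hW (ContinuousLinearMap.ext fun ξ => ?_)
        rw [fd_sum (hd x hx)]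
        refine Finset.sum_eq_zero fun j _ => ?_
        have := hs1 j
        rw [h0] at this
        rw [(mul_eq_zero.1 this.symm).resolve_left hs0, zero_mul]
      have hc : ContinuousAt (α (e i)) x := continuousAt_pi.2 fun j =>
        (hα.hol (e i) he x (hsub i (hU hx)) j).self_of_nhds.continuousAt
      obtain ⟨K, hKx, hKs, hK⟩ := local_compact_nhds
        (inter_mem (hO.mem_nhds hx) (hc.eventually_ne hx0))
      have hKt : K ⊆ (e i).target := fun y hy => hsub i (hU (hKs hy).1)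
      obtain ⟨g, g1, g2, g3⟩ := small (fun k : κ => k.1.1) K
        (fun k y ξ => len (tE M H k.1.1 k.1.2.1 (e i) y) ξ) (fun y ξ => α (e i) y ⬝ᵥ ξ = 0)
        (fun k => by
          obtain ⟨h, h1, -, h3⟩ := hA i k.1.1 k.1.2.1 k.2.1 k.2.2.1 k.2.2.2.1 k.2.2.2.2.1
          exact ⟨h, h1, fun y hy ξ _ => h3 y (ball_subset_closedBall (hU (hKs hy).1)) ξ⟩)
        (fun η hη => by
          obtain ⟨δ, hδ, h⟩ := hLE n M H α hH hα hS (e i) he K hK hKt (fun y hy => (hKs hy).2) η hη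
          exact ⟨δ, hδ, fun k hk => h k.1.1 k.1.2.1 k.2.1 hk k.2.2.2.1 k.2.2.2.2.1⟩)
      refine ⟨K, hKx, fun k y => β * g k y, fun k => (g1 k).const_mul _, ?_,
        fun k a ha y hy => ?_⟩
      · have := ENNReal.Tendsto.const_mul (a := (β : ℝ≥0∞)) g2 (Or.inr ENNReal.coe_ne_top)
        rw [mul_zero] at this
        exact this.congr fun k => (lintegral_const_mul _ (g1 k)).symm
      · have ha' : bx a = i := ha
        have hf := k.2.2.2.2.2.1 a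
        rw [ha'] at hf
        refine ⟨(hf y (hU (hKs hy).1)).1, fun ξ hξ => ?_⟩
        rw [hβ]
        refine adm_le (psd k.2.2.2.2.1 he (hKt hy)) ((hf y (hU (hKs hy).1)).2 ξ) (g3 k y hy ξ ?_)
        obtain ⟨s, -, hs1⟩ := hs y (hKs hy).1
        rw [fd_sum (hd y (hKs hy).1)] at hξ
        unfold dotProduct
        simp only [hs1, mul_assoc]
        rw [← Finset.mul_sum, hξ, mul_zero])
    (fun k v => (lintegral_mono_set (hb _).2.2.2.1).trans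
      (hp2 _ _ _ k.2.1 k.2.2.1 k.2.2.2.1 k.2.2.2.2.1 _ (k.2.2.2.2.2.1 v)))
  refine ⟨C1, p, hp1, fun v v' z hl => ?_⟩
  obtain ⟨s, hs, hs2⟩ := mem_comap.1 (hC v v' z hl)
  obtain ⟨δ, hδ, hδ2⟩ := Metric.mem_nhds_iff.1 hs
  refine ⟨min (δ / 2) 1, lt_min (half_pos hδ) one_pos, fun ε u f h0 h1 hu hle hf hc => ?_⟩
  refine @hs2 ⟨(ε, u, f), h0, h1.trans (min_le_right _ _), hu, hle, hf, hc⟩ (hδ2 ?_)
  rw [mem_ball_zero_iff, Real.norm_of_nonneg h0]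
  exact (h1.trans (min_le_left _ _)).trans_lt (half_lt_self hδ)

end Pool.Agent.Lib.F4G
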