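import Pool.Agent.Lib.SV.SDefs
import Pool.Agent.Lib.SV.Hol85

/-! Project f4g: flow boxes of a holomorphic function at a regular point. -/

open scoped Topology ENNReal NNReal Classical
open Set Filter Metric MeasureTheory

noncomputable section

namespace Pool.Agent.Lib.F4G

open Pool.Agent.Lib.SV (E)

namespace F62

variable {n : ℕ}

theorem seg {F : ℝ → ℝ} {G : ℝ → ℝ≥0∞} (hF : ∀ t ∈ Icc (0 : ℝ) 1, DifferentiableAt ℝ F t)
    (hG : ∀ t ∈ Icc (0 : ℝ) 1, ‖deriv F t‖ₑ ≤ G t) :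
    ‖F 1 - F 0‖ₑ ≤ ∫⁻ t in Icc (0 : ℝ) 1, G t := by
  have h1 : ∫⁻ t in Icc (0 : ℝ) 1, ‖deriv F t‖ₑ ≤ ∫⁻ t in Icc (0 : ℝ) 1, G t :=
    setLIntegral_mono' measurableSet_Icc hG
  refine le_trans ?_ h1
  by_cases h : ∫⁻ t in Icc (0 : ℝ) 1, ‖deriv F t‖ₑ = ∞
  · rw [h]; exact le_top
  have hi : IntegrableOn (deriv F) (Icc (0 : ℝ) 1) :=
    ⟨(measurable_deriv F).aestronglyMeasurable, lt_top_iff_ne_top.2 h⟩
  have h2 := intervalIntegral.integral_eq_sub_of_hasDerivAt (f := F) (f' := deriv F) (a := 0)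
    (b := 1) (fun t ht => (hF t (by rwa [uIcc_of_le zero_le_one] at ht)).hasDerivAt)
    ((intervalIntegrable_iff_integrableOn_Icc_of_le zero_le_one).2 hi)
  rw [← h2, intervalIntegral.integral_of_le zero_le_one, ← integral_Icc_eq_integral_Ioc]
  exact enorm_integral_le_lintegral_enorm _

theorem shift (G : E n → ℝ≥0∞) (A B : Set (E n)) (hA : MeasurableSet A)
    (hB : MeasurableSet B) (v : E n) (h : ∀ u ∈ A, u + v ∈ B) :
    ∫⁻ u in A, G (u + v) ≤ ∫⁻ u in B, G u := by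
  rw [← lintegral_indicator hA, ← lintegral_indicator hB,
    ← lintegral_add_right_eq_self (B.indicator G) v]
  refine lintegral_mono fun u => ?_
  by_cases hu : u ∈ A
  · simp only [indicator_of_mem hu, indicator_of_mem (h u hu), le_refl]
  · simp only [indicator_of_notMem hu, zero_le]

/-- The inequality of Poincaré along the coordinate leaves. -/
theorem poin (k : Fin n) (c : E n) {ρ : ℝ} (hρ : 0 < ρ) : ∃ C : ℝ≥0, ∀ (F : E n → ℝ)
    (G : E n → ℝ≥0∞), Measurable F → Measurable G →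
    (∀ u ∈ ball c (3 * ρ), DifferentiableAt ℝ F u) →
    (∀ u ∈ ball c (3 * ρ), ∀ ξ : E n, ξ k = 0 → ‖fderiv ℝ F u ξ‖ₑ ≤ G u * ‖ξ‖ₑ) →
    ∃ ψ : ℂ → ℝ, Measurable ψ ∧
      ∫⁻ u in ball c ρ, ‖F u - ψ (u k)‖ₑ ≤ C * ∫⁻ u in ball c (3 * ρ), G u := by
  have v0 : volume (ball c ρ) ≠ 0 := (measure_ball_pos _ c hρ).ne'
  have v1 : volume (ball c ρ) ≠ ∞ := measure_ball_lt_top.ne
  have v2 : volume (ball (0 : E n) (2 * ρ)) ≠ ∞ := measure_ball_lt_top.ne
  have hC : volume (ball (0 : E n) (2 * ρ)) * ENNReal.ofReal (2 * ρ) / volume (ball c ρ) ≠ ∞ :=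
    ENNReal.div_ne_top (ENNReal.mul_ne_top v2 ENNReal.ofReal_ne_top) v0
  refine ⟨(volume (ball (0 : E n) (2 * ρ)) * ENNReal.ofReal (2 * ρ) / volume (ball c ρ)).toNNReal,
    fun F G mF mG hF hG => ?_⟩
  rw [ENNReal.coe_toNNReal hC]
  set I := ∫⁻ u in ball c (3 * ρ), G u
  have cu : Continuous fun τ : E n => Function.update τ k (0 : ℂ) := by fun_prop
  set H : E n → E n → ℝ≥0∞ := fun u τ => ‖F (u + Function.update τ k 0) - F u‖ₑ with hH
  have mH : Measurable (Function.uncurry H) :=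
    ((mF.comp (measurable_fst.add (cu.measurable.comp measurable_snd))).sub
      (mF.comp measurable_fst)).enorm
  have h1 : ∀ τ ∈ ball (0 : E n) (2 * ρ), ∫⁻ u in ball c ρ, H u τ ≤ ENNReal.ofReal (2 * ρ) * I := by
    intro τ hτ
    set ξ : E n := Function.update τ k 0 with hξ
    have n1 : ‖ξ‖ ≤ 2 * ρ := by
      refine (pi_norm_le_iff_of_nonneg (by positivity)).2 fun j => ?_
      by_cases hj : j = k
      · subst hj; simp only [hξ, Function.update_self, norm_zero]; positivity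
      · rw [hξ, Function.update_of_ne hj]
        exact (norm_le_pi_norm τ j).trans (mem_ball_zero_iff.1 hτ).le
    have m1 : ∀ u ∈ ball c ρ, ∀ t ∈ Icc (0 : ℝ) 1, u + t • ξ ∈ ball c (3 * ρ) := by
      intro u hu t ht
      rw [mem_ball, dist_eq_norm] at hu ⊢
      have e1 : u + t • ξ - c = (u - c) + t • ξ := by abel
      have e2 : ‖t • ξ‖ ≤ 2 * ρ := by
        rw [norm_smul, Real.norm_of_nonneg ht.1]
        nlinarith [ht.1, ht.2, norm_nonneg ξ]
      rw [e1]
      linarith [norm_add_le (u - c) (t • ξ)]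
    have h2 : ∀ u ∈ ball c ρ, H u τ ≤
        ∫⁻ t in Icc (0 : ℝ) 1, ENNReal.ofReal (2 * ρ) * G (u + t • ξ) := by
      intro u hu
      have d : ∀ t ∈ Icc (0 : ℝ) 1, HasDerivAt (fun t : ℝ => F (u + t • ξ))
          (fderiv ℝ F (u + t • ξ) ξ) t := fun t ht => by
        have := (hF _ (m1 u hu t ht)).hasFDerivAt.comp_hasDerivAt t
          (((hasDerivAt_id t).smul_const ξ).const_add u)
        simpa [Function.comp_def] using this
      have := seg (F := fun t : ℝ => F (u + t • ξ))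
        (G := fun t => ENNReal.ofReal (2 * ρ) * G (u + t • ξ))
        (fun t ht => (d t ht).differentiableAt) fun t ht => by
          rw [(d t ht).deriv, mul_comm]
          refine (hG _ (m1 u hu t ht) ξ (by simp [hξ])).trans ?_
          gcongr
          rw [← ofReal_norm]
          exact ENNReal.ofReal_le_ofReal n1
      simpa [hH, hξ] using this
    refine (setLIntegral_mono' measurableSet_ball h2).trans ?_
    rw [lintegral_lintegral_swap ((measurable_const.mul (mG.comp (by fun_prop))).aemeasurable)]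
    refine (setLIntegral_mono' (g := fun _ => ENNReal.ofReal (2 * ρ) * I) measurableSet_Icc
      fun t ht => ?_).trans (by simp)
    rw [lintegral_const_mul' _ _ ENNReal.ofReal_ne_top]
    gcongr
    exact shift G _ _ measurableSet_ball measurableSet_ball _ fun u hu => m1 u hu t ht
  have mK : Measurable (Function.uncurry fun p u : E n => H u (p - u)) :=
    mH.comp (measurable_snd.prodMk (measurable_fst.sub measurable_snd))
  have h3 : ∫⁻ p in ball c ρ, ∫⁻ u in ball c ρ, H u (p - u) ≤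
      volume (ball (0 : E n) (2 * ρ)) * ENNReal.ofReal (2 * ρ) * I := by
    rw [lintegral_lintegral_swap mK.aemeasurable]
    refine (setLIntegral_mono' (g := fun u => ∫⁻ τ in ball (0 : E n) (2 * ρ), H u τ)
      measurableSet_ball fun u hu => ?_).trans ?_
    · simp only [sub_eq_add_neg]
      refine shift (H u) _ _ measurableSet_ball
        measurableSet_ball _ fun p hp => ?_
      rw [mem_ball_zero_iff, ← sub_eq_add_neg, ← dist_eq_norm]
      linarith [dist_triangle_right p u c, mem_ball.1 hp, mem_ball.1 hu]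
    · rw [lintegral_lintegral_swap mH.aemeasurable]
      refine (setLIntegral_mono' measurableSet_ball h1).trans (le_of_eq ?_)
      rw [setLIntegral_const]
      ring
  obtain ⟨p, -, hp⟩ := exists_le_setLAverage (f := fun p => ∫⁻ u in ball c ρ, H u (p - u)) v0 v1
    mK.lintegral_prod_right.aemeasurable
  refine ⟨fun w => F (Function.update p k w), mF.comp (by fun_prop), ?_⟩
  rw [setLAverage_eq] at hp
  have e : ∀ u : E n, ‖F u - F (Function.update p k (u k))‖ₑ = H u (p - u) := fun u => by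
    have : u + Function.update (p - u) k 0 = Function.update p k (u k) := by
      funext j
      by_cases hj : j = k
      · subst hj; simp
      · simp [Function.update_of_ne hj]
    rw [hH]
    simp only [this]
    exact enorm_sub_rev _ _
  simp only [e]
  refine hp.trans ((ENNReal.div_le_div_right h3 _).trans (le_of_eq ?_))
  rw [div_eq_mul_inv, div_eq_mul_inv]
  ring

theorem fub (k : Fin n) (c : E n) {r : ℝ} (hr : 0 < r) : ∃ a : ℝ≥0, a ≠ 0 ∧
    ∀ χ : ℂ → ℝ≥0∞, Measurable χ →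
      ∫⁻ u in ball c r, χ (u k) = a * ∫⁻ w in ball (c k) r, χ w := by
  have f1 : ∏ j ∈ Finset.univ.erase k, volume (ball (c j) r) ≠ ∞ :=
    ENNReal.prod_ne_top fun _ _ => measure_ball_lt_top.ne
  refine ⟨(∏ j ∈ Finset.univ.erase k, volume (ball (c j) r)).toNNReal, ?_, fun χ hχ => ?_⟩
  · exact ENNReal.toNNReal_ne_zero.2
      ⟨Finset.prod_ne_zero_iff.2 fun j _ => (measure_ball_pos _ _ hr).ne', f1⟩
  rw [ENNReal.coe_toNNReal f1, ball_pi _ hr, volume_pi, Measure.restrict_pi_pi,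
    ← lintegral_map (g := Function.eval k) hχ (measurable_pi_apply k), Measure.pi_map_eval,
    lintegral_smul_measure]
  simp

/-- A chart in which the function is a coordinate. -/
theorem chart {W : E n → ℂ} {x : E n} (hW : ∀ᶠ y in 𝓝 x, DifferentiableAt ℂ W y)
    (h0 : fderiv ℂ W x ≠ 0) {N : Set (E n)} (hN : N ∈ 𝓝 x) :
    ∃ (k : Fin n) (σ : E n → E n) (c : E n) (ρ : ℝ) (C : ℝ≥0), 0 < ρ ∧ c k = W x ∧
      Measurable σ ∧ σ '' ball c ρ ∈ 𝓝 x ∧ σ '' ball c (3 * ρ) ⊆ N ∧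
      (∀ u ∈ ball c (3 * ρ), W (σ u) = u k ∧ DifferentiableAt ℝ σ u ∧ ∀ ξ : E n,
        ‖fderiv ℝ σ u ξ‖ ≤ C * ‖ξ‖ ∧ (ξ k = 0 → fderiv ℂ W (σ u) (fderiv ℝ σ u ξ) = 0)) ∧
      ∀ s ⊆ ball c (3 * ρ), MeasurableSet s → ∀ g : E n → ℝ≥0∞,
        ∫⁻ y in σ '' s, g y ≤ C * ∫⁻ u in s, g (σ u) ∧
        ∫⁻ u in s, g (σ u) ≤ C * ∫⁻ y in σ '' s, g y := by
  obtain ⟨k, hk⟩ : ∃ k, fderiv ℂ W x (Pi.single k 1) ≠ 0 := by
    by_contra h
    push Not at h
    refine h0 (ContinuousLinearMap.ext fun ξ => ?_)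
    rw [← Finset.univ_sum_single ξ, map_sum]
    refine Finset.sum_eq_zero fun j _ => ?_
    rw [show (Pi.single j (ξ j) : E n) = ξ j • (Pi.single j 1 : E n) by
      rw [← Pi.single_smul, smul_eq_mul, mul_one], map_smul, h, smul_zero]
  set Φ : E n → E n := fun y => y + (W y - y k) • (Pi.single k 1 : E n) with hΦ
  have Φk : ∀ y, Φ y k = W y := fun y => by simp [hΦ]
  have c1 : ContDiffAt ℂ 1 Φ x :=
    contDiffAt_id.add (((SV.H85.contDiffAt_nat hW 1).sub (contDiffAt_apply ℂ ℂ k x)).smul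
      contDiffAt_const)
  have a1 : HasFDerivAt Φ (ContinuousLinearMap.id ℂ (E n) + (fderiv ℂ W x -
      ContinuousLinearMap.proj k).smulRight (Pi.single k 1 : E n)) x :=
    (hasFDerivAt_id x).add ((hW.self_of_nhds.hasFDerivAt.sub (hasFDerivAt_apply k x)).smul_const _)
  set A := ContinuousLinearMap.id ℂ (E n) + (fderiv ℂ W x -
      ContinuousLinearMap.proj k).smulRight (Pi.single k 1 : E n) with hA
  have inj : Function.Injective (A : E n →ₗ[ℂ] E n) := by
    refine (injective_iff_map_eq_zero _).2 fun ξ hξ => ?_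
    have e0 : ξ + (fderiv ℂ W x ξ - ξ k) • (Pi.single k 1 : E n) = 0 := hξ
    have e1 : fderiv ℂ W x ξ = 0 := by simpa using congrFun e0 k
    rw [e1, zero_sub, neg_smul, add_neg_eq_zero] at e0
    rw [e0, map_smul, smul_eq_zero, or_iff_left hk] at e1
    rw [e0, e1, zero_smul]
  set A' : E n ≃L[ℂ] E n := (LinearEquiv.ofInjectiveEndo _ inj).toContinuousLinearEquiv
  have a2 : HasFDerivAt Φ (A' : E n →L[ℂ] E n) x := a1
  set P := c1.toOpenPartialHomeomorph Φ a2 one_ne_zero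
  have hP : (P : E n → E n) = Φ := rfl
  have xs : x ∈ P.source := c1.mem_toOpenPartialHomeomorph_source a2 one_ne_zero
  have ct : Φ x ∈ P.target := P.map_source xs
  have sx : P.symm (Φ x) = x := P.left_inv xs
  have c2 : ContDiffAt ℝ 1 P.symm (Φ x) := (c1.to_localInverse a2 one_ne_zero).restrict_scalars ℝ
  have c3 : ContinuousAt (fderiv ℝ P.symm) (Φ x) := c2.continuousAt_fderiv one_ne_zero
  have c4 : ContinuousAt (fun u => |(fderiv ℝ P.symm u).det|) (Φ x) :=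
    (ContinuousLinearMap.continuous_det.continuousAt.comp c3).abs
  have d0 : 0 < |(fderiv ℝ P.symm (Φ x)).det| := by
    have h1 := HasFDerivAt.comp (Φ x) (g := Φ) (by rw [sx]; exact a1.restrictScalars ℝ)
      (c2.differentiableAt one_ne_zero).hasFDerivAt
    have h2 := (h1.congr_of_eventuallyEq (f₁ := id) (by
      filter_upwards [P.open_target.mem_nhds ct] with u hu using (P.right_inv hu).symm)).unique
      (hasFDerivAt_id _)
    have h3 := congrArg (fun L : E n →L[ℝ] E n => LinearMap.det (L : E n →ₗ[ℝ] E n)) h2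
    exact abs_pos.2 (right_ne_zero_of_mul_eq_one
      ((LinearMap.det_comp _ _).symm.trans (h3.trans LinearMap.det_id)))
  set d := |(fderiv ℝ P.symm (Φ x)).det|
  have t1 : Tendsto P.symm (𝓝 (Φ x)) (𝓝 x) := by
    have := c2.continuousAt.tendsto
    rwa [sx] at this
  obtain ⟨r, hr, hb⟩ := Metric.eventually_nhds_iff_ball.1
    ((P.open_target.eventually_mem ct).and ((t1.eventually (hW.and hN)).and
    (((c2.eventually (by simp)).mono fun u hu => hu.differentiableAt one_ne_zero).and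
    ((c3.norm.eventually_lt_const (lt_add_one _)).and ((c4.eventually_lt_const (lt_add_one d)).and
    (c4.eventually_const_lt (half_lt_self d0)))))))
  have r3 : 3 * (r / 3) = r := by ring
  set σ := (ball (Φ x) r).piecewise P.symm fun _ => x with hσ
  have e1 : ∀ u ∈ ball (Φ x) r, σ u = P.symm u := fun u hu => piecewise_eq_of_mem _ _ _ hu
  have e2 : ∀ u ∈ ball (Φ x) r, σ =ᶠ[𝓝 u] P.symm := fun u hu => by
    filter_upwards [isOpen_ball.mem_nhds hu] using e1
  have e3 : ∀ u ∈ ball (Φ x) r, W (σ u) = u k := fun u hu => by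
    rw [e1 u hu, ← Φk, ← hP, P.right_inv (hb u hu).1]
  have e4 : ∀ u ∈ ball (Φ x) r, HasFDerivAt σ (fderiv ℝ P.symm u) u := fun u hu =>
    (hb u hu).2.2.1.hasFDerivAt.congr_of_eventuallyEq (e2 u hu)
  have n0 := norm_nonneg (fderiv ℝ P.symm (Φ x))
  have n1 : 0 < 2 / d := by positivity
  obtain ⟨C, hC⟩ : ∃ C : ℝ≥0, (C : ℝ) = ‖fderiv ℝ P.symm (Φ x)‖ + 1 + d + 2 / d :=
    ⟨⟨_, by positivity⟩, rfl⟩
  refine ⟨k, σ, Φ x, r / 3, C, by positivity, Φk x, ContinuousOn.measurable_piecewise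
    (fun u hu => (hb u hu).2.2.1.continuousAt.continuousWithinAt) continuousOn_const
    measurableSet_ball, ?_, ?_, ?_, ?_⟩
  · rw [image_congr fun u hu => e1 u (ball_subset_ball (by linarith) hu)]
    have := P.symm.image_mem_nhds ct (ball_mem_nhds (Φ x) (ε := r / 3) (by positivity))
    rwa [sx] at this
  · rw [r3]
    rintro _ ⟨u, hu, rfl⟩
    rw [e1 u hu]
    exact (hb u hu).2.1.2
  · rw [r3]
    refine fun u hu => ⟨e3 u hu, (e4 u hu).differentiableAt, fun ξ => ⟨?_, fun hξ => ?_⟩⟩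
    · rw [(e4 u hu).fderiv]
      refine (ContinuousLinearMap.le_opNorm _ _).trans ?_
      gcongr
      linarith [(hb u hu).2.2.2.1]
    · have h1 := HasFDerivAt.comp u (g := W) (f := σ)
        (HasFDerivAt.restrictScalars ℝ (by rw [e1 u hu]; exact (hb u hu).2.1.1 :
          DifferentiableAt ℂ W (σ u)).hasFDerivAt) (e4 u hu).differentiableAt.hasFDerivAt
      have h2 := (h1.congr_of_eventuallyEq (f₁ := fun v => v k) (by
        filter_upwards [isOpen_ball.mem_nhds hu] with v hv using (e3 v hv).symm)).unique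
        (hasFDerivAt_apply k u)
      exact (congrArg (fun L : E n →L[ℝ] ℂ => L ξ) h2).trans hξ
  · rw [r3]
    intro s hs ms g
    rw [lintegral_image_eq_lintegral_abs_det_fderiv_mul volume ms
      (fun u hu => (e4 u (hs hu)).hasFDerivWithinAt) (fun u hu v hv h => by
        rw [e1 u (hs hu), e1 v (hs hv)] at h
        exact P.symm.injOn (hb u (hs hu)).1 (hb v (hs hv)).1 h),
      ← lintegral_const_mul' _ _ ENNReal.coe_ne_top, ← lintegral_const_mul' _ _ ENNReal.coe_ne_top]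
    refine ⟨setLIntegral_mono' ms fun u hu => ?_, setLIntegral_mono' ms fun u hu => ?_⟩
    · gcongr
      rw [← ENNReal.ofReal_coe_nnreal]
      exact ENNReal.ofReal_le_ofReal (by linarith [(hb u (hs hu)).2.2.2.2.1])
    · rw [← mul_assoc, ← ENNReal.ofReal_coe_nnreal, ← ENNReal.ofReal_mul C.coe_nonneg]
      refine le_mul_of_one_le_left' (ENNReal.one_le_ofReal.2 ?_)
      have h1 := (hb u (hs hu)).2.2.2.2.2
      have h2 : 2 / d * (d / 2) = 1 := by field_simp
      rw [← h2]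
      gcongr
      linarith

end F62

open F62

variable {n : ℕ}

theorem pfUp62 {W : E n → ℂ} {x : E n} (hW : ∀ᶠ y in 𝓝 x, DifferentiableAt ℂ W y)
    (h0 : fderiv ℂ W x ≠ 0) : ∃ N ∈ 𝓝 x, ∃ C : ℝ≥0, ∀ χ : ℂ → ℝ≥0∞, Measurable χ →
    ∫⁻ y in N, χ (W y) ≤ C * ∫⁻ w, χ w := by
  obtain ⟨k, σ, c, ρ, C, hρ, -, -, h1, -, h2, h3⟩ := chart hW h0 univ_mem
  obtain ⟨a, -, ha⟩ := fub k c hρ
  have s1 : ball c ρ ⊆ ball c (3 * ρ) := ball_subset_ball (by linarith)
  refine ⟨_, h1, C * a, fun χ hχ => (h3 _ s1 measurableSet_ball _).1.trans ?_⟩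
  rw [setLIntegral_congr_fun measurableSet_ball (g := fun u => χ (u k))
    fun u hu => by simp only [(h2 u (s1 hu)).1], ha χ hχ, ENNReal.coe_mul, mul_assoc]
  gcongr
  exact Measure.restrict_le_self

theorem pfLo62 {W : E n → ℂ} {x : E n} (hW : ∀ᶠ y in 𝓝 x, DifferentiableAt ℂ W y)
    (h0 : fderiv ℂ W x ≠ 0) : ∀ N ∈ 𝓝 x, ∃ d > 0, ∃ C : ℝ≥0, ∀ χ : ℂ → ℝ≥0∞, Measurable χ →
    ∫⁻ w in ball (W x) d, χ w ≤ C * ∫⁻ y in N, χ (W y) := by
  intro N hN
  obtain ⟨k, σ, c, ρ, C, hρ, hc, -, -, h1, h2, h3⟩ := chart hW h0 hN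
  have h3ρ : 0 < 3 * ρ := by linarith
  obtain ⟨a, a0, ha⟩ := fub k c h3ρ
  refine ⟨_, h3ρ, a⁻¹ * C, fun χ hχ => ?_⟩
  have h4 := (h3 _ subset_rfl measurableSet_ball fun y => χ (W y)).2
  rw [setLIntegral_congr_fun measurableSet_ball (g := fun u => χ (u k))
    fun u hu => by simp only [(h2 u hu).1], ha χ hχ, hc] at h4
  have h5 : ∫⁻ w in ball (W x) (3 * ρ), χ w =
      (a⁻¹ : ℝ≥0) * (a * ∫⁻ w in ball (W x) (3 * ρ), χ w) := by
    rw [← mul_assoc, ← ENNReal.coe_mul, inv_mul_cancel₀ a0, ENNReal.coe_one, one_mul]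
  rw [h5, ENNReal.coe_mul, mul_assoc]
  refine mul_le_mul_right (h4.trans ?_) _
  gcongr

theorem flow62 {W : E n → ℂ} {x : E n} (hW : ∀ᶠ y in 𝓝 x, DifferentiableAt ℂ W y)
    (h0 : fderiv ℂ W x ≠ 0) : ∀ N ∈ 𝓝 x, ∃ N₁ ∈ 𝓝 x, N₁ ⊆ N ∧ ∃ C : ℝ≥0,
    ∀ (f : E n → ℝ) (g : E n → ℝ≥0∞), Measurable g → (∀ y ∈ N, DifferentiableAt ℝ f y) →
    (∀ y ∈ N, ∀ ξ, fderiv ℂ W y ξ = 0 → ‖fderiv ℝ f y ξ‖ₑ ≤ g y * ‖ξ‖ₑ) →
    ∃ ψ : ℂ → ℝ, Measurable ψ ∧ ∫⁻ y in N₁, ‖f y - ψ (W y)‖ₑ ≤ C * ∫⁻ y in N, g y := by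
  intro N hN
  obtain ⟨k, σ, c, ρ, C, hρ, -, mσ, h0, h1, h2, h3⟩ := chart hW h0 hN
  obtain ⟨P, hP⟩ := poin k c hρ
  have s1 : ball c ρ ⊆ ball c (3 * ρ) := ball_subset_ball (by linarith)
  refine ⟨_, h0, (image_mono s1).trans h1, C * (P * (C * C)), fun f g mg hf hg => ?_⟩
  have d1 : ∀ u ∈ ball c (3 * ρ), HasFDerivAt (f ∘ σ)
      ((fderiv ℝ f (σ u)).comp (fderiv ℝ σ u)) u := fun u hu =>
    (hf _ (h1 ⟨u, hu, rfl⟩)).hasFDerivAt.comp u (h2 u hu).2.1.hasFDerivAt
  set F := (ball c (3 * ρ)).piecewise (f ∘ σ) fun _ => 0 with hF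
  have d2 : ∀ u ∈ ball c (3 * ρ), HasFDerivAt F
      ((fderiv ℝ f (σ u)).comp (fderiv ℝ σ u)) u := fun u hu => (d1 u hu).congr_of_eventuallyEq (by
    filter_upwards [isOpen_ball.mem_nhds hu] with v hv using piecewise_eq_of_mem _ _ _ hv)
  obtain ⟨ψ, mψ, hψ⟩ := hP F (fun u => C * g (σ u))
    (ContinuousOn.measurable_piecewise (fun u hu => (d1 u hu).continuousAt.continuousWithinAt)
      continuousOn_const measurableSet_ball) (measurable_const.mul (mg.comp mσ))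
    (fun u hu => (d2 u hu).differentiableAt) fun u hu ξ hξ => by
      rw [(d2 u hu).fderiv, ContinuousLinearMap.comp_apply]
      refine (hg _ (h1 ⟨u, hu, rfl⟩) _ (((h2 u hu).2.2 ξ).2 hξ)).trans ?_
      rw [mul_comm (C : ℝ≥0∞), mul_assoc]
      gcongr
      rw [← ofReal_norm, ← ofReal_norm, ← ENNReal.ofReal_coe_nnreal,
        ← ENNReal.ofReal_mul C.coe_nonneg]
      exact ENNReal.ofReal_le_ofReal ((h2 u hu).2.2 ξ).1
  refine ⟨ψ, mψ, (h3 _ s1 measurableSet_ball _).1.trans ?_⟩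
  rw [setLIntegral_congr_fun measurableSet_ball (g := fun u => ‖F u - ψ (u k)‖ₑ)
    fun u hu => by simp only [(h2 u (s1 hu)).1, hF, piecewise_eq_of_mem _ _ _ (s1 hu),
      Function.comp_apply], ENNReal.coe_mul, ENNReal.coe_mul, ENNReal.coe_mul, mul_assoc]
  gcongr
  refine hψ.trans ?_
  rw [mul_assoc, lintegral_const_mul' _ _ ENNReal.coe_ne_top, mul_assoc]
  gcongr
  refine (h3 _ subset_rfl measurableSet_ball g).2.trans ?_
  gcongr

end Pool.Agent.Lib.F4G
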