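import Pool.Agent.Lib.F4G.BlueM
import Pool.Agent.Lib.F4G.Flow62

/-! Project f4g, step five: approximation by functions of the first integral. -/

open scoped Topology ENNReal NNReal
open Set Filter MeasureTheory

namespace Pool.Agent.Lib.F4G

theorem st_MEX : St_MEX := by
  intro n κ V l f S W x hW h0 ⟨N, hN, g, mg, tg, hg⟩
  obtain ⟨N₁, h1, -, C, hC⟩ := flow62 hW h0 N hN
  refine ⟨N₁, h1, fun v hv => ?_⟩
  choose a ma ha using fun k => hC (f k v) (g k) (mg k) (fun y hy => (hg k v hv y hy).1)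
    fun y hy => (hg k v hv y hy).2
  refine ⟨a, ma, tendsto_of_tendsto_of_tendsto_of_le_of_le tendsto_const_nhds ?_
    (fun _ => zero_le) ha⟩
  simpa using ENNReal.Tendsto.const_mul tg (Or.inr ENNReal.coe_ne_top)

end Pool.Agent.Lib.F4G
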