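import Pool.Agent.Lib.F4.B_S2K
import Pool.Agent.Lib.F4.B_PW1
import Pool.Agent.Lib.HS32.MAll

/-! Project f4g: the size of the Kähler forms close to the canonical class, in all directions and
along the kernel of `α`. -/

open scoped Classical Topology ContDiff ComplexOrder Matrix NNReal ENNReal
open Set Filter MeasureTheory

set_option linter.unusedVariables false

noncomputable section

namespace Pool.Agent.Lib.F4G

open Pool.Agent.Lib.SV (E)
open Pool.Agent.Lib.HS32 Pool.Agent.Lib.F4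

namespace Sz44

variable {n : ℕ}

theorem nq0 {T : Mat n} (h : T.PosSemidef) (v : E n) : 0 ≤ nq T v :=
  (Complex.nonneg_iff.1 (h.dotProduct_mulVec_nonneg v)).1

theorem p1_pos {H : Mat n} (hH : H.PosDef) {a : E n} (ha : a ≠ 0) : 0 < (p1 H a a).re := by
  have := hH.inv.dotProduct_mulVec_pos (x := star a) (star_ne_zero.2 ha)
  rw [star_star] at this
  exact (Complex.pos_iff.1 this).1

theorem p1_re {H : Mat n} (hH : H.PosDef) (a : E n) : ((p1 H a a).re : ℂ) = p1 H a a :=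
  Complex.ext rfl (Complex.nonneg_iff.1 (PW1.p1_nn hH a)).2

/-- The inequality of Cauchy and Schwarz between a covector and a vector. -/
theorem cs {H : Mat n} (hH : H.PosDef) (b ξ : E n) :
    Complex.normSq (b ⬝ᵥ ξ) ≤ (p1 H b b).re * nq H ξ := by
  by_cases hb : b = 0
  · subst hb
    simp [p1]
  have hP := p1_pos hH hb
  have hu : IsUnit H.det := (Mf.pd_det_ne hH).isUnit
  set η : E n := H⁻¹ *ᵥ star b with hη
  have e1 : H *ᵥ η = star b := by
    rw [hη, Matrix.mulVec_mulVec, Matrix.mul_nonsing_inv _ hu, Matrix.one_mulVec]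
  have e2 : star η ⬝ᵥ H *ᵥ ξ = b ⬝ᵥ ξ := by
    rw [Matrix.dotProduct_mulVec, ← hH.1.eq, ← Matrix.star_mulVec, e1, star_star]
  have e3 : star ξ ⬝ᵥ star b = star (b ⬝ᵥ ξ) := by
    rw [Matrix.star_dotProduct_star]
  have e4 : star η ⬝ᵥ star b = ((p1 H b b).re : ℂ) := by
    rw [Matrix.star_dotProduct_star, p1_re hH]
    exact PW1.p1_star hH b b
  have h0 := nq0 hH.posSemidef ((((p1 H b b).re : ℝ) : ℂ) • ξ - (b ⬝ᵥ ξ) • η)
  set P := (p1 H b b).re with hP'
  set β := b ⬝ᵥ ξ with hβ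
  have e5 : nq H ((P : ℂ) • ξ - β • η) = P * (P * nq H ξ - Complex.normSq β) := by
    simp only [nq, Matrix.mulVec_sub, Matrix.mulVec_smul, star_sub, star_smul, sub_dotProduct,
      dotProduct_sub, smul_dotProduct, dotProduct_smul, e1, e2, e3, e4, smul_eq_mul,
      Complex.star_def, Complex.conj_ofReal, Complex.sub_re, Complex.mul_re, Complex.ofReal_re,
      Complex.ofReal_im, Complex.conj_re, Complex.conj_im, Complex.normSq_apply, Complex.sub_im,
      Complex.mul_im]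
    ring
  rw [e5] at h0
  have := nonneg_of_mul_nonneg_right h0 hP
  linarith

theorem nq_gram (B : Mat n) (ξ : E n) : nq (Bᴴ * B) ξ = ∑ r, Complex.normSq (B r ⬝ᵥ ξ) := by
  rw [nq, ← Matrix.mulVec_mulVec, Matrix.dotProduct_mulVec, ← Matrix.star_mulVec, dotProduct,
    Complex.re_sum]
  refine Finset.sum_congr rfl fun r _ => ?_
  rw [Pi.star_apply, Complex.star_def, Complex.normSq_eq_conj_mul_self.symm, Complex.ofReal_re]
  rfl

/-- A nonnegative form is bounded by its trace. -/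
theorem le_tr {H T : Mat n} (hH : H.PosDef) (hT : T.PosSemidef) (ξ : E n) :
    nq T ξ ≤ (H⁻¹ * T).trace.re * nq H ξ := by
  obtain ⟨B, rfl⟩ := Mf.psd_factor hT
  rw [nq_gram, PW1.gram, Matrix.mul_sum, Matrix.trace_sum, Complex.re_sum, Finset.sum_mul]
  refine Finset.sum_le_sum fun r _ => ?_
  rw [PW1.tr1]
  exact cs hH _ _

/-- On the kernel of `a` a nonnegative form is bounded by the mixed form. -/
theorem le_mq {H T : Mat n} (hH : H.PosDef) (hT : T.PosSemidef) {a ξ : E n} (ha : a ≠ 0)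
    (h : a ⬝ᵥ ξ = 0) : nq T ξ * (p1 H a a).re ≤ (mq H T a).re * nq H ξ := by
  obtain ⟨B, rfl⟩ := Mf.psd_factor hT
  rw [nq_gram, PW1.mq_gram, Complex.re_sum, Finset.sum_mul, Finset.sum_mul]
  refine Finset.sum_le_sum fun r _ => ?_
  have hP := p1_pos hH ha
  set b := B r with hb
  have e0 := p1_re hH a
  have e1 := p1_re hH b
  have e2 := PW1.p1_star hH a b
  set P := (p1 H a a).re with hP'
  set Q := (p1 H b b).re with hQ'
  set γ := p1 H a b with hγ
  have h1 := cs hH ((P : ℂ) • b - star γ • a) ξ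
  have e3 : ((P : ℂ) • b - star γ • a) ⬝ᵥ ξ = P * (b ⬝ᵥ ξ) := by
    rw [sub_dotProduct, smul_dotProduct, smul_dotProduct, h, smul_zero, sub_zero, smul_eq_mul]
  have e4 : p1 H ((P : ℂ) • b - star γ • a) ((P : ℂ) • b - star γ • a) =
      P * (P * p1 H b b - γ * p1 H b a) - star γ * (P * p1 H a b - γ * p1 H a a) := by
    simp only [p1, star_sub, star_smul, Matrix.mulVec_sub, Matrix.mulVec_smul,
      sub_dotProduct, dotProduct_sub, smul_dotProduct, dotProduct_smul, smul_eq_mul,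
      Complex.star_def, Complex.conj_ofReal, Complex.conj_conj]
    ring
  have e5 : (p1 H ((P : ℂ) • b - star γ • a) ((P : ℂ) • b - star γ • a)).re =
      P * (P * Q - Complex.normSq γ) := by
    rw [e4, ← e2, ← e0, ← e1, ← hγ]
    simp only [Complex.star_def, Complex.sub_re, Complex.mul_re, Complex.ofReal_re,
      Complex.ofReal_im, Complex.conj_re, Complex.conj_im, Complex.mul_im, Complex.sub_im,
      Complex.normSq_apply]
    ring
  have e6 : (p2 H (wg b a) (wg b a)).re = P * Q - Complex.normSq γ := by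
    rw [PW1.p2_wg, ← e2, ← e0, ← e1, ← hγ]
    simp only [Complex.star_def, Complex.sub_re, Complex.mul_re, Complex.ofReal_re,
      Complex.ofReal_im, Complex.conj_re, Complex.conj_im, Complex.normSq_apply]
    ring
  rw [e3, e5, map_mul, Complex.normSq_ofReal] at h1
  rw [e6]
  refine le_of_mul_le_mul_left ?_ hP
  linarith

/-- From the manifold to a compact piece of a chart. -/
theorem pack {M : Mf n} [M.Cpt] {H : M.Fam (Mat n)} (hH : M.Met H) {e : M.Ch} (he : e ∈ M.C)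
    {K : Set (E n)} (hK : IsCompact K) (hs : K ⊆ e.target) (D : ℝ) (hD : 0 ≤ D) :
    ∃ C : ℝ≥0, ∀ (q : M.X → ℝ) (A : ℝ), Continuous q → (∀ x, 0 ≤ q x) → 0 ≤ A →
      ∫ x, q x ∂M.mu H ≤ D * A → ∃ g : E n → ℝ≥0∞, Measurable g ∧
        ∫⁻ z in K, g z ≤ C * ENNReal.ofReal √A ∧
        ∀ z ∈ K, g z = ENNReal.ofReal √(q (e.symm z)) := by
  obtain ⟨C0, h1, h0⟩ := (mBD n M H hH).2.2.1 e he K hK hs
  obtain ⟨-, hf, -, -, hi, hc, -⟩ := mMU n M H hH
  have hv : volume K ≠ ⊤ := hK.measure_lt_top.ne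
  refine ⟨(√(C0 * D) * √(volume K).toReal).toNNReal, fun q A hq q0 hA hb => ?_⟩
  have hc1 : ContinuousOn (fun z => ENNReal.ofReal √(q (e.symm z))) K :=
    ENNReal.continuous_ofReal.comp_continuousOn (Real.continuous_sqrt.comp_continuousOn
      (hq.comp_continuousOn (e.continuousOn_symm.mono hs)))
  have hm : Measurable (K.piecewise (fun z => ENNReal.ofReal √(q (e.symm z))) fun _ => 0) :=
    hc1.measurable_piecewise continuousOn_const hK.measurableSet
  refine ⟨_, hm, ?_, fun z hz => piecewise_eq_of_mem _ _ _ hz⟩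
  set g := K.piecewise (fun z => ENNReal.ofReal √(q (e.symm z))) fun _ => 0 with hg
  have h2 := ENNReal.lintegral_mul_le_Lp_mul_Lq (volume.restrict K) Real.HolderConjugate.two_two
    (f := g) (g := fun _ => 1) hm.aemeasurable aemeasurable_const
  have h3 : ∫⁻ z in K, g z ^ (2 : ℝ) ≤ ENNReal.ofReal (C0 * D * A) := by
    calc ∫⁻ z in K, g z ^ (2 : ℝ)
        ≤ ∫⁻ z in K, ENNReal.ofReal C0 *
            (ENNReal.ofReal (H e z).det.re * ENNReal.ofReal (q (e.symm z))) := by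
          refine setLIntegral_mono' hK.measurableSet fun z hz => ?_
          rw [hg, piecewise_eq_of_mem _ _ _ hz, ENNReal.ofReal_rpow_of_nonneg (Real.sqrt_nonneg _)
            (by norm_num), Real.rpow_two, Real.sq_sqrt (q0 _), ← mul_assoc,
            ← ENNReal.ofReal_mul (by linarith), ← ENNReal.ofReal_mul' (q0 _)]
          refine ENNReal.ofReal_le_ofReal (le_mul_of_one_le_left (q0 _) ?_)
          have := mul_le_mul_of_nonneg_left (h0 z hz).2.2.1 (by linarith : 0 ≤ C0)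
          rwa [mul_inv_cancel₀ (by linarith)] at this
      _ = ENNReal.ofReal C0 * ∫⁻ x in e.symm '' K, ENNReal.ofReal (q x) ∂M.mu H := by
          rw [lintegral_const_mul' _ _ ENNReal.ofReal_ne_top,
            (hc e he K hK.measurableSet hs).2.1]
      _ ≤ ENNReal.ofReal C0 * ENNReal.ofReal (D * A) := by
          refine mul_le_mul' le_rfl ((setLIntegral_le_lintegral _ _).trans ?_)
          rw [← ofReal_integral_eq_lintegral_ofReal (hi ℝ q hq) (ae_of_all _ q0)]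
          exact ENNReal.ofReal_le_ofReal hb
      _ = _ := by rw [← ENNReal.ofReal_mul (by linarith), mul_assoc]
  simp only [Pi.mul_apply, mul_one, ENNReal.one_rpow, lintegral_const, one_mul,
    Measure.restrict_apply_univ] at h2
  refine h2.trans ((mul_le_mul' (ENNReal.rpow_le_rpow h3 (by norm_num)) le_rfl).trans (le_of_eq ?_))
  have hCD : 0 ≤ C0 * D := mul_nonneg (by linarith) hD
  rw [← ENNReal.ofReal_toReal hv, ENNReal.ofReal_rpow_of_nonneg (mul_nonneg hCD hA) (by norm_num),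
    ENNReal.ofReal_rpow_of_nonneg ENNReal.toReal_nonneg (by norm_num), ← Real.sqrt_eq_rpow,
    ← Real.sqrt_eq_rpow, ENNReal.toReal_ofReal ENNReal.toReal_nonneg,
    ← ENNReal.ofReal_mul (Real.sqrt_nonneg _), Real.sqrt_mul hCD]
  change _ = ENNReal.ofReal _ * _
  rw [← ENNReal.ofReal_mul (by positivity)]
  congr 1
  ring

theorem fin {a q : ℝ} {ξ : E n} (h : a ≤ q * ‖ξ‖ ^ 2) (hq : 0 ≤ q) :
    ENNReal.ofReal √a ≤ ENNReal.ofReal √q * ‖ξ‖ₑ := by
  rw [← ofReal_norm, ← ENNReal.ofReal_mul (Real.sqrt_nonneg _)]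
  refine ENNReal.ofReal_le_ofReal ((Real.sqrt_le_sqrt h).trans (le_of_eq ?_))
  rw [Real.sqrt_mul hq, Real.sqrt_sq (norm_nonneg _)]

theorem formT {M : Mf n} {H : M.Fam (Mat n)} (hH : M.Met H) (ε : ℝ) {u : M.X → ℝ} (hu : M.Sm u) :
    M.Form (-M.ric H + ε • H + M.hs u) :=
  ((((mHES n M).2.2.2.2.2.2.2.2.1 H hH).toForm.neg).add (hH.toForm.smul ε)).add
    ((mHES n M).1 u hu).toForm

theorem psd {M : Mf n} {T : M.Fam (Mat n)} (h : M.Le 0 T) {e : M.Ch} (he : e ∈ M.C) {z : E n}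
    (hz : z ∈ e.target) : (T e z).PosSemidef := by
  have h1 := h e he z hz
  beta_reduce at h1
  rwa [Pi.zero_apply, Pi.zero_apply, sub_zero] at h1

end Sz44

open Sz44

variable {n : ℕ}

/-- The size in all directions is bounded in the mean. -/
theorem tr44 {M : Mf n} [M.Cpt] {H : M.Fam (Mat n)} (hH : M.Kae H) {e : M.Ch} (he : e ∈ M.C)
    {K : Set (E n)} (hK : IsCompact K) (hs : K ⊆ e.target) :
    ∃ C : ℝ≥0, ∀ (ε : ℝ) (u : M.X → ℝ), 0 ≤ ε → ε ≤ 1 → M.Sm u →
      M.Le 0 (-M.ric H + ε • H + M.hs u) → ∃ g : E n → ℝ≥0∞, Measurable g ∧ ∫⁻ z in K, g z ≤ C ∧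
        ∀ z ∈ K, ∀ ξ, ENNReal.ofReal √(nq ((-M.ric H + ε • H + M.hs u) e z) ξ) ≤ g z * ‖ξ‖ₑ := by
  have hM := hH.toMet
  obtain ⟨D, D0, hD⟩ := BBD.up hK fun z hz => BBD.sn_cont (hM.sm e he z (hs hz))
  obtain ⟨-, hf, -, -, hi, -⟩ := mMU n M H hM
  have hR := ((mHES n M).2.2.2.2.2.2.2.2.1 H hM).toForm.neg
  have sR := ((mINV n M H hM).1 _ hR.toTen).2.1
  obtain ⟨C, hC⟩ := pack hM he hK hs
    (D * (|∫ x, M.tr H (-M.ric H) x ∂M.mu H| + n * (M.mu H).real univ)) (by positivity)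
  refine ⟨C, fun ε u h0 h1 hu hl => ?_⟩
  have hT := formT hM ε hu
  have iT := (mINV n M H hM).1 _ hT.toTen
  have su := ((mINV n M H hM).1 _ ((mHES n M).1 u hu).toTen).2.1
  obtain ⟨g, gm, gi, gv⟩ := hC (fun x => D * M.tr H (-M.ric H + ε • H + M.hs u) x) 1
    (continuous_const.mul iT.2.1.continuous) (fun x => mul_nonneg D0.le (hM.tr_nonneg hl x))
    zero_le_one (by
      rw [integral_const_mul, mul_one]
      refine mul_le_mul_of_nonneg_left ?_ D0.le
      have e1 : ∀ x, M.tr H (-M.ric H + ε • H + M.hs u) x =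
          M.tr H (-M.ric H) x + ε * n + M.lap H u x := fun x => by
        rw [Mf.tr_add, Mf.tr_add, Mf.tr_smul, hM.tr_self]
        rfl
      have i1 := hi ℝ _ sR.continuous
      have i2 : Integrable (fun _ => ε * n) (M.mu H) := integrable_const _
      have i3 : Integrable (M.lap H u) (M.mu H) := hi ℝ _ su.continuous
      have i4 : Integrable (fun x => M.tr H (-M.ric H) x + ε * n) (M.mu H) := i1.add i2
      simp only [e1]
      rw [integral_add i4 i3, integral_add i1 i2, ((mGRN n M).2 H u u hH hu hu).1, add_zero,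
        integral_const, smul_eq_mul]
      refine add_le_add (le_abs_self _) ?_
      have : 0 ≤ (n : ℝ) * (M.mu H).real univ := by positivity
      nlinarith)
  refine ⟨g, gm, by simpa using gi, fun z hz ξ => ?_⟩
  rw [gv z hz]
  refine fin ?_ (mul_nonneg D0.le (hM.tr_nonneg hl _))
  have h2 := le_tr (hM.pos e he z (hs hz)) (psd hl he (hs hz)) ξ
  have h3 := iT.1 e he z (hs hz)
  beta_reduce at h3
  rw [← h3] at h2
  have h4 : nq (H e z) ξ ≤ D * ‖ξ‖ ^ 2 := ((le_abs_self _).trans (BBD.nq_abs _ _)).trans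
    (mul_le_mul_of_nonneg_right (hD z hz) (sq_nonneg _))
  have h5 := mul_le_mul_of_nonneg_left h4 (hM.tr_nonneg hl (e.symm z))
  linarith

/-- The size along the kernel of `α` is small in the mean. -/
theorem lf44 {M : Mf n} [M.Cpt] {H : M.Fam (Mat n)} {α : M.Fam (E n)} (hH : M.Kae H)
    (hα : H1 M 1 α) (h3 : Sm3 M H α) {e : M.Ch} (he : e ∈ M.C) {K : Set (E n)} (hK : IsCompact K)
    (hs : K ⊆ e.target) (hne : ∀ z ∈ K, α e z ≠ 0) :
    ∃ C : ℝ≥0, ∀ (ε : ℝ) (u : M.X → ℝ), 0 ≤ ε → M.Sm u →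
      M.Le 0 (-M.ric H + ε • H + M.hs u) → ∃ g : E n → ℝ≥0∞, Measurable g ∧
        ∫⁻ z in K, g z ≤ C * ENNReal.ofReal √ε ∧ ∀ z ∈ K, ∀ ξ, α e z ⬝ᵥ ξ = 0 →
          ENNReal.ofReal √(nq ((-M.ric H + ε • H + M.hs u) e z) ξ) ≤ g z * ‖ξ‖ₑ := by
  have hM := hH.toMet
  obtain ⟨C3, C0, h3⟩ := h3
  have cp : ∀ z ∈ K, ContinuousAt (fun w => (p1 (H e w) (α e w) (α e w)).re) z := fun z hz => by
    have ha := S2K.smV hα.hol e he z (hs hz)
    have hi := (hM.sm e he z (hs hz)).inv (hM.det_ne e he z (hs hz))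
    have hb : ContDiffAt ℝ ∞ (fun w => star (α e w)) z :=
      contDiffAt_pi.2 fun i => cd_star (contDiffAt_pi.1 ha i)
    exact (cd_re (ContDiffAt.sum fun i _ => (contDiffAt_pi.1 ha i).mul
      (contDiffAt_pi.1 (hi.mulVec hb) i))).continuousAt
  have pp : ∀ z ∈ K, 0 < (p1 (H e z) (α e z) (α e z)).re := fun z hz =>
    p1_pos (hM.pos e he z (hs hz)) (hne z hz)
  obtain ⟨D, D0, hD⟩ := BBD.up hK (f := fun w => (H e w).det.re * BBD.sn (H e w) /
    (p1 (H e w) (α e w) (α e w)).re) fun z hz =>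
    ((cd_re (hM.sm e he z (hs hz)).det).continuousAt.mul
      (BBD.sn_cont (hM.sm e he z (hs hz)))).div (cp z hz) (pp z hz).ne'
  obtain ⟨C, hC⟩ := pack hM he hK hs (D * C3) (by positivity)
  refine ⟨C, fun ε u h0 hu hl => ?_⟩
  have hT := formT hM ε hu
  obtain ⟨fa, -, ha⟩ := (st_S2K st_PW1 n M H hM).2.2.2.2.2.1 α hα
  obtain ⟨-, a1, a2⟩ := ha (-M.ric H + ε • H + M.hs u)
  obtain ⟨g, gm, gi, gv⟩ := hC
    (fun x => D * mx M H (-M.ric H + ε • H + M.hs u) (aa M H α) x) ε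
    (continuous_const.mul (a1 hT.toTen).continuous) (fun x => mul_nonneg D0.le (a2 hT hl x)) h0 (by
      rw [integral_const_mul, mul_assoc]
      exact mul_le_mul_of_nonneg_left (h3 ε u h0 hu hl) D0.le)
  refine ⟨g, gm, gi, fun z hz ξ hξ => ?_⟩
  rw [gv z hz]
  refine fin ?_ (mul_nonneg D0.le (a2 hT hl _))
  have m0 := a2 hT hl (e.symm z)
  have hp := hM.pos e he z (hs hz)
  have h2 := le_mq hp (psd hl he (hs hz)) (hne z hz) hξ
  have r1 := ((mINV n M H hM).1 _ hT.toTen).1 e he z (hs hz)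
  have r2 := ((mINV n M H hM).1 _ fa.toTen).1 e he z (hs hz)
  have r3 := ((mINV n M H hM).2.2.1 _ _ hT.toTen fa.toTen).1 e he z (hs hz)
  beta_reduce at r1 r2 r3
  have r4 : mx M H (-M.ric H + ε • H + M.hs u) (aa M H α) (e.symm z) =
      (mq (H e z) ((-M.ric H + ε • H + M.hs u) e z) (α e z)).re / (H e z).det.re := by
    rw [mx, r1, r2, r3]
    exact S2K.mx_pt hp.1 (hT.herm e he z (hs hz)) _
  have dp := Mf.pd_det_re hp
  rw [eq_div_iff dp.ne'] at r4
  rw [← r4] at h2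
  have h4 : nq (H e z) ξ ≤ BBD.sn (H e z) * ‖ξ‖ ^ 2 := (le_abs_self _).trans (BBD.nq_abs _ _)
  have h5 := hD z hz
  beta_reduce at h5
  rw [div_le_iff₀ (pp z hz)] at h5
  refine le_of_mul_le_mul_right (h2.trans ?_) (pp z hz)
  set m := mx M H (-M.ric H + ε • H + M.hs u) (aa M H α) (e.symm z)
  calc m * (H e z).det.re * nq (H e z) ξ
      ≤ m * (H e z).det.re * (BBD.sn (H e z) * ‖ξ‖ ^ 2) :=
        mul_le_mul_of_nonneg_left h4 (mul_nonneg m0 dp.le)
    _ = m * ‖ξ‖ ^ 2 * ((H e z).det.re * BBD.sn (H e z)) := by ring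
    _ ≤ m * ‖ξ‖ ^ 2 * (D * (p1 (H e z) (α e z) (α e z)).re) :=
        mul_le_mul_of_nonneg_left h5 (mul_nonneg m0 (sq_nonneg _))
    _ = _ := by ring

/-- The real derivative is bounded by the gradient, at a point. -/
theorem grdPt44 {G : Mat n} (hG : G.PosDef) {f : E n → ℝ} {z : E n} (hf : DifferentiableAt ℝ f z)
    (ξ : E n) : fderiv ℝ f z ξ ^ 2 ≤
      4 * (G⁻¹ * dd (fun w => (f w : ℂ)) (fun w => (f w : ℂ)) z).trace.re * nq G ξ := by
  have hc : DifferentiableAt ℝ (fun w => (f w : ℂ)) z :=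
    Complex.ofRealCLM.differentiableAt.comp z hf
  set u : E n := fun j => dz j (fun w => (f w : ℂ)) z with hu
  have hb : ∀ j, dzb j (fun w => (f w : ℂ)) z = star (u j) := fun j => (star_dz_ofReal hc).symm
  have e2 : dd (fun w => (f w : ℂ)) (fun w => (f w : ℂ)) z = Matrix.vecMulVec (star u) u := by
    ext i j
    simp only [dd, Matrix.of_apply, hb, hu, Matrix.vecMulVec_apply, Pi.star_apply]
  have e3 : fderiv ℝ f z ξ = 2 * (u ⬝ᵥ ξ).re := by
    have h1 := fderiv_eq_sum (fun w => (f w : ℂ)) z ξ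
    rw [fderiv_ofReal hf] at h1
    have h2 := congrArg Complex.re h1
    rw [Complex.ofReal_re, Complex.re_sum] at h2
    rw [h2, dotProduct, Complex.re_sum, Finset.mul_sum]
    refine Finset.sum_congr rfl fun j _ => ?_
    rw [hb, ← star_mul', Complex.add_re, Complex.star_def, Complex.conj_re, two_mul]
  have h3 := cs hG u ξ
  rw [e2, PW1.tr1, e3]
  have h4 : (u ⬝ᵥ ξ).re ^ 2 ≤ Complex.normSq (u ⬝ᵥ ξ) := by
    rw [Complex.normSq_apply]
    nlinarith [mul_self_nonneg (u ⬝ᵥ ξ).im]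
  rw [p1] at h3
  linarith

/-- The real derivative is bounded by the gradient, in a chart. -/
theorem grd44 {M : Mf n} {G : M.Fam (Mat n)} (hG : M.Met G) {f : M.X → ℝ} (hf : M.Sm f)
    {e : M.Ch} (he : e ∈ M.C) {z : E n} (hz : z ∈ e.target) {κ : ℝ}
    (h : M.gr G f f (e.symm z) ≤ κ) (ξ : E n) :
    fderiv ℝ (f ∘ e.symm) z ξ ^ 2 ≤ 4 * κ * nq (G e z) ξ ∧
      |fderiv ℝ (f ∘ e.symm) z ξ| ≤ 2 * √κ * √(nq (G e z) ξ) := by
  have hp := hG.pos e he z hz
  have h1 := grdPt44 hp (cd_diff (hf e he z hz)) ξ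
  have h2 := ((mINV n M G hG).1 _ ((mHES n M).2.1 f f hf hf).1).1 e he z hz
  beta_reduce at h2
  have h3 : M.gr G f f (e.symm z) = ((G e z)⁻¹ * dd (fun w => ((f ∘ e.symm) w : ℂ))
      (fun w => ((f ∘ e.symm) w : ℂ)) z).trace.re := h2
  rw [← h3] at h1
  have h0 := nq0 hp.posSemidef ξ
  have k0 : 0 ≤ κ := ((((mLAP n M f f hf hf).2.2 G hG).2.2.1 _ 0).2.2.2.2.2.2.1).trans h
  have h4 : fderiv ℝ (f ∘ e.symm) z ξ ^ 2 ≤ 4 * κ * nq (G e z) ξ :=
    h1.trans (mul_le_mul_of_nonneg_right (by linarith) h0)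
  refine ⟨h4, abs_le_of_sq_le_sq' ?_ (by positivity) |> abs_le.2⟩
  rw [mul_pow, mul_pow, Real.sq_sqrt k0, Real.sq_sqrt h0]
  linarith

end Pool.Agent.Lib.F4G
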