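import Pool.Agent.Lib.F4G.BlueM
import Pool.Agent.Lib.F4G.Sz44

/-! Project f4g: the lengths are bounded in the mean. -/

namespace Pool.Agent.Lib.F4G

open Pool.Agent.Lib.HS32 Pool.Agent.Lib.F4

theorem st_MFU : St_MFU := fun _ _ _ _ hH _ he _ hK hs => tr44 hH he hK hs

theorem st_MPW : St_MPW := fun n H T a ξ hH hT => by
  refine ⟨Sz44.le_tr hH hT ξ, fun h => ?_⟩
  by_cases ha : a = 0
  · subst ha
    simp [p1, mq]
  · exact Sz44.le_mq hH hT ha h

end Pool.Agent.Lib.F4G
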