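import Pool.Agent.Lib.SV.B_SMO

/-! Project f4g: closeness to a function of `W` moves along connected fibres and chains. -/

open scoped Classical Topology ENNReal NNReal
open Set Filter MeasureTheory Metric

noncomputable section

namespace Pool.Agent.Lib.F4G.P19

open Pool.Agent.Lib.SV (E)

variable {n : ℕ} {ι : Type*} {l : Filter ι}

/-- Upper bound of the image of the volume. -/
def St_UP : Prop := ∀ (n : ℕ) (W : E n → ℂ) (x : E n), (∀ᶠ y in 𝓝 x, DifferentiableAt ℂ W y) →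
  fderiv ℂ W x ≠ 0 → ∃ N ∈ 𝓝 x, ∃ C : ℝ≥0, ∀ χ : ℂ → ℝ≥0∞, Measurable χ →
    ∫⁻ y in N, χ (W y) ≤ C * ∫⁻ w, χ w

/-- Lower bound of the image of the volume. -/
def St_LO : Prop := ∀ (n : ℕ) (W : E n → ℂ) (x : E n), (∀ᶠ y in 𝓝 x, DifferentiableAt ℂ W y) →
  fderiv ℂ W x ≠ 0 → ∀ N ∈ 𝓝 x, ∃ d > 0, ∃ C : ℝ≥0, ∀ χ : ℂ → ℝ≥0∞, Measurable χ →
    ∫⁻ w in ball (W x) d, χ w ≤ C * ∫⁻ y in N, χ (W y)

/-- Near `x`, the functions `f k` are close to the functions `a k ∘ W`. -/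
def Cl (l : Filter ι) (f : ι → E n → ℝ) (W : E n → ℂ) (x : E n) (a : ι → ℂ → ℝ) : Prop :=
  ∃ O ∈ 𝓝 x, Tendsto (fun k => ∫⁻ y in O, ‖f k y - a k (W y)‖ₑ) l (𝓝 0)

theorem zero_of {u v : ι → ℝ≥0∞} {C : ℝ≥0∞} (hC : C ≠ ∞) (hv : Tendsto v l (𝓝 0))
    (h : ∀ k, u k ≤ C * v k) : Tendsto u l (𝓝 0) := by
  have := ENNReal.Tendsto.const_mul (a := C) hv (Or.inr hC)
  rw [mul_zero] at this
  exact tendsto_of_tendsto_of_tendsto_of_le_of_le tendsto_const_nhds this (fun _ => zero_le) h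

theorem Cl.ev {f : ι → E n → ℝ} {W : E n → ℂ} {x : E n} {a : ι → ℂ → ℝ} (h : Cl l f W x a) :
    ∀ᶠ y in 𝓝 x, Cl l f W y a := by
  obtain ⟨O, hO, h⟩ := h
  filter_upwards [eventually_mem_nhds_iff.2 hO] with y hy using ⟨O, hy, h⟩

theorem tri (a b c : ℝ) : ‖a - c‖ₑ ≤ ‖b - a‖ₑ + ‖b - c‖ₑ := by
  rw [enorm_sub_rev b a, show a - c = (a - b) + (b - c) by ring]
  exact enorm_add_le _ _

/-- An open neighbourhood on which the functions are measurable. -/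
theorem meas {U O : Set (E n)} (hU : IsOpen U) (hO : O ⊆ U) {f : E n → ℝ} {W : E n → ℂ}
    (hf : ContinuousOn f U) (hW : ContinuousOn W U) {a : ℂ → ℝ} (ha : Measurable a) :
    AEMeasurable (fun y => ‖f y - a (W y)‖ₑ) (volume.restrict O) :=
  (((hf.aemeasurable hU.measurableSet).sub (ha.comp_aemeasurable
    (hW.aemeasurable hU.measurableSet))).mono_measure (Measure.restrict_mono hO le_rfl)).enorm

theorem uniq19 (hL : St_LO) {U : Set (E n)} (hU : IsOpen U) {f : ι → E n → ℝ} {W : E n → ℂ}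
    (hf : ∀ k, ContinuousOn (f k) U) (hW : DifferentiableOn ℂ W U) {x : E n} (hx : x ∈ U)
    (hr : fderiv ℂ W x ≠ 0) {a b : ι → ℂ → ℝ} (ha : ∀ k, Measurable (a k))
    (hb : ∀ k, Measurable (b k)) (h1 : Cl l f W x a) (h2 : Cl l f W x b) :
    ∃ d > 0, Tendsto (fun k => ∫⁻ w in ball (W x) d, ‖a k w - b k w‖ₑ) l (𝓝 0) := by
  obtain ⟨O1, o1, h1⟩ := h1
  obtain ⟨O2, o2, h2⟩ := h2
  obtain ⟨d, hd, C, hC⟩ := hL n W x (hW.eventually_differentiableAt (hU.mem_nhds hx)) hr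
    (O1 ∩ O2 ∩ U) (inter_mem (inter_mem o1 o2) (hU.mem_nhds hx))
  refine ⟨d, hd, zero_of (C := C) ENNReal.coe_ne_top (by simpa using h1.add h2) fun k => ?_⟩
  refine (hC _ ((ha k).sub (hb k)).enorm).trans (mul_le_mul_right ?_ _)
  refine (lintegral_mono fun y => tri _ (f k y) _).trans ?_
  rw [lintegral_add_left' (meas hU inter_subset_right (hf k) hW.continuousOn (ha k))]
  exact add_le_add (lintegral_mono_set fun y hy => hy.1.1) (lintegral_mono_set fun y hy => hy.1.2)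

theorem back19 (hP : St_UP) {U : Set (E n)} (hU : IsOpen U) {f : ι → E n → ℝ} {W : E n → ℂ}
    (hf : ∀ k, ContinuousOn (f k) U) (hW : DifferentiableOn ℂ W U) {x : E n} (hx : x ∈ U)
    (hr : fderiv ℂ W x ≠ 0) {a b : ι → ℂ → ℝ} (ha : ∀ k, Measurable (a k))
    (hb : ∀ k, Measurable (b k)) (h1 : Cl l f W x a) {d : ℝ} (hd : 0 < d)
    (h2 : Tendsto (fun k => ∫⁻ w in ball (W x) d, ‖a k w - b k w‖ₑ) l (𝓝 0)) :
    Cl l f W x b := by
  obtain ⟨O1, o1, h1⟩ := h1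
  obtain ⟨N, hN, C, hC⟩ := hP n W x (hW.eventually_differentiableAt (hU.mem_nhds hx)) hr
  have o2 : W ⁻¹' ball (W x) d ∈ 𝓝 x :=
    (hW.continuousOn.continuousAt (hU.mem_nhds hx)) (ball_mem_nhds _ hd)
  obtain ⟨O, s, o, hO⟩ := _root_.mem_nhds_iff.1 (inter_mem (inter_mem o1 hN)
    (inter_mem o2 (hU.mem_nhds hx)))
  have h3 := ENNReal.Tendsto.const_mul (a := C) h2 (Or.inr ENNReal.coe_ne_top)
  refine ⟨O, o.mem_nhds hO, zero_of (C := 1) ENNReal.one_ne_top (by simpa using h1.add h3)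
    fun k => ?_⟩
  rw [one_mul]
  have t : ∀ y, ‖f k y - b k (W y)‖ₑ ≤ ‖f k y - a k (W y)‖ₑ + ‖a k (W y) - b k (W y)‖ₑ :=
    fun y => by simpa [enorm_sub_rev (a k (W y)) (f k y)] using tri (f k y) (a k (W y)) (b k (W y))
  refine (lintegral_mono t).trans ?_
  rw [lintegral_add_left' (meas hU (fun y hy => (s hy).2.2) (hf k) hW.continuousOn (ha k))]
  refine add_le_add (lintegral_mono_set fun y hy => (s hy).1.1) ?_
  have := hC _ (((ha k).sub (hb k)).enorm.indicator (measurableSet_ball (x := W x) (ε := d)))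
  rw [lintegral_indicator measurableSet_ball] at this
  refine le_trans ?_ this
  refine le_trans (setLIntegral_mono' o.measurableSet fun y hy => ?_)
    (lintegral_mono_set fun y hy => (s hy).1.2)
  exact (indicator_of_mem (mem_preimage.1 (s hy).2.1) fun w => ‖a k w - b k w‖ₑ).ge

/-- Along a connected regular fibre. -/
theorem fibre19 (hP : St_UP) (hL : St_LO) {U : Set (E n)} (hU : IsOpen U) {f : ι → E n → ℝ}
    {W : E n → ℂ} (hf : ∀ k, ContinuousOn (f k) U) (hW : DifferentiableOn ℂ W U)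
    (hE : ∀ x ∈ U, fderiv ℂ W x ≠ 0 → ∃ a, (∀ k, Measurable (a k)) ∧ Cl l f W x a) {w : ℂ}
    (hc : IsPreconnected (U ∩ W ⁻¹' {w})) (hr : ∀ x ∈ U, W x = w → fderiv ℂ W x ≠ 0)
    {b : ι → ℂ → ℝ} (hb : ∀ k, Measurable (b k)) {x : E n} (hx : x ∈ U) (e : W x = w)
    (h : Cl l f W x b) : ∀ y ∈ U, W y = w → Cl l f W y b := by
  intro y hy ey
  by_contra c
  have key : ∀ z ∈ U ∩ W ⁻¹' {w}, z ∈ closure ({z | Cl l f W z b} ∩ (U ∩ W ⁻¹' {w})) →
      Cl l f W z b := by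
    rintro z ⟨hz, ez⟩ hcl
    obtain ⟨a, ha, h1⟩ := hE z hz (hr z hz ez)
    obtain ⟨u, hu, h2, h3, h4⟩ := mem_closure_iff_nhds.1 hcl _ h1.ev
    obtain ⟨d, hd, h5⟩ := uniq19 hL hU hf hW h3 (hr u h3 h4) ha hb hu h2
    exact back19 hP hU hf hW hz (hr z hz ez) ha hb h1 hd (by rwa [ez.trans h4.symm])
  obtain ⟨z, h1, h2, h3⟩ := hc {z | Cl l f W z b} _ (isOpen_iff_mem_nhds.2 fun z hz => Cl.ev hz)
    (isClosed_closure (s := {z | Cl l f W z b} ∩ (U ∩ W ⁻¹' {w}))).isOpen_compl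
    (fun z hz => or_iff_not_imp_right.2 fun h => key z hz (not_not.1 h)) ⟨x, ⟨hx, e⟩, h⟩
    ⟨y, ⟨hy, ey⟩, fun h => c (key y ⟨hy, ey⟩ h)⟩
  exact h3 (subset_closure ⟨h2, h1⟩)

/-- Change of variables. -/
theorem chg {F : Type*} [NormedAddCommGroup F] [NormedSpace ℝ F] [FiniteDimensional ℝ F]
    [MeasurableSpace F] [BorelSpace F] (μ : Measure F) [μ.IsAddHaarMeasure] {τ : F → F}
    {A : F →L[ℝ] F} {x : F} (hA : Function.Injective A) (h : HasStrictFDerivAt τ A x)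
    {O' : Set F} (hO : O' ∈ 𝓝 (τ x)) : ∃ O ∈ 𝓝 x, ∃ C : ℝ≥0∞, C ≠ ∞ ∧ ∀ g : F → ℝ≥0∞,
      AEMeasurable g (μ.restrict O') → ∫⁻ y in O, g (τ y) ∂μ ≤ C * ∫⁻ y in O', g y ∂μ := by
  have hd : A.det ≠ 0 := ((LinearMap.isUnit_iff_isUnit_det _).1
    ((LinearMap.isUnit_iff_ker_eq_bot _).2 (LinearMap.ker_eq_bot.2 hA))).ne_zero
  obtain ⟨m, m0, hm⟩ := ENNReal.lt_iff_exists_nnreal_btwn.1
    (ENNReal.ofReal_pos.2 (abs_pos.2 hd))
  obtain ⟨δ, hδ, d0⟩ := ((mul_le_addHaar_image_of_lt_det μ A hm).and self_mem_nhdsWithin).exists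
  obtain ⟨s, hs, ap⟩ := h.approximates_deriv_on_nhds (c := δ) (Or.inr d0)
  obtain ⟨O1, s1, o1, h1⟩ := _root_.mem_nhds_iff.1 hO
  obtain ⟨O, s2, o, hx⟩ := _root_.mem_nhds_iff.1 (inter_mem hs (h.continuousAt (o1.mem_nhds h1)))
  have hτ : AEMeasurable τ (μ.restrict O) :=
    (ap.continuousOn.mono fun y hy => (s2 hy).1).aemeasurable o.measurableSet
  have le : (μ.restrict O).map τ ≤ (m : ℝ≥0∞)⁻¹ • μ.restrict O' := by
    refine Measure.le_iff.2 fun t ht => ?_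
    rw [Measure.map_apply_of_aemeasurable hτ ht, Measure.restrict_apply' o.measurableSet,
      Measure.smul_apply, smul_eq_mul, ← ENNReal.mul_le_iff_le_inv m0.ne' ENNReal.coe_ne_top,
      Measure.restrict_apply ht]
    exact (hδ _ τ (ap.mono_set fun y hy => (s2 hy.2).1)).trans
      (measure_mono (by rintro _ ⟨y, hy, rfl⟩; exact ⟨hy.1, s1 (s2 hy.2).2⟩))
  refine ⟨O, o.mem_nhds hx, (m : ℝ≥0∞)⁻¹, ENNReal.inv_ne_top.2 m0.ne', fun g hg => ?_⟩
  rw [← lintegral_map' ((hg.smul_measure _).mono_measure le) hτ]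
  refine (lintegral_mono' le le_rfl).trans ?_
  rw [lintegral_smul_measure, smul_eq_mul]

theorem map_nhds {U : Set (E n)} (hU : IsOpen U) {W : E n → ℂ} (hW : DifferentiableOn ℂ W U)
    {x : E n} (hx : x ∈ U) (hr : fderiv ℂ W x ≠ 0) : map W (𝓝 x) = 𝓝 (W x) := by
  refine (((SV.stSMO n ℂ U W hU hW 1).contDiffAt (hU.mem_nhds hx)).hasStrictFDerivAt
    (by simp)).map_nhds_eq_of_surj (LinearMap.range_eq_top.2 fun c => ?_)
  obtain ⟨v, hv⟩ : ∃ v, fderiv ℂ W x v ≠ 0 := by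
    by_contra! h
    exact hr (ContinuousLinearMap.ext h)
  exact ⟨(c / fderiv ℂ W x v) • v, by simp [hv]⟩

section chain

variable {V : Type*} (U : V → Set (E n)) (W : V → E n → ℂ) (Com : V → E n → V → E n → Prop)

/-- Two values taken at a common point. -/
def El (a b : V × ℂ) : Prop := ∃ x y, Com a.1 x b.1 y ∧ W a.1 x = a.2 ∧ W b.1 y = b.2

/-- The fibre is connected and regular. -/
def Gd (a : V × ℂ) : Prop := IsPreconnected (U a.1 ∩ W a.1 ⁻¹' {a.2}) ∧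
  ∀ x ∈ U a.1, W a.1 x = a.2 → fderiv ℂ (W a.1) x ≠ 0

/-- The geometric data. -/
structure Geo (M : V → V → ℂ → ℂ) : Prop where
  op : ∀ v, IsOpen (U v)
  hol : ∀ v, DifferentiableOn ℂ (W v) (U v)
  com : ∀ v x u y, Com v x u y → x ∈ U v ∧ y ∈ U u ∧ ∃ (τ : E n → E n) (A : E n →L[ℝ] E n),
    τ x = y ∧ Function.Injective A ∧ HasStrictFDerivAt τ A x ∧ ∀ᶠ z in 𝓝 x, Com v z u (τ z)
  fn : ∀ a b, Relation.ReflTransGen (El W Com) a b → b.2 = M a.1 b.1 a.2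
  ms : ∀ v u, Measurable (M v u)

/-- The analytic data. -/
structure Ana (l : Filter ι) (f : ι → V → E n → ℝ) : Prop where
  co : ∀ k v, ContinuousOn (f k v) (U v)
  eq : ∀ k v x u y, Com v x u y → f k v x = f k u y
  ex : ∀ v, ∀ x ∈ U v, fderiv ℂ (W v) x ≠ 0 →
    ∃ a, (∀ k, Measurable (a k)) ∧ Cl l (f · v) (W v) x a

variable {U W Com}

theorem prop19 (hP : St_UP) (hL : St_LO) {M : V → V → ℂ → ℂ} (G : Geo U W Com M)
    {f : ι → V → E n → ℝ} (A : Ana U W Com l f) {p q : V × ℂ}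
    (h : Relation.ReflTransGen (fun a b => El W Com a b ∧ Gd U W a) p q) (hq : Gd U W q)
    {y : E n} (hy : y ∈ U q.1) (ey : W q.1 y = q.2) {a : ι → ℂ → ℝ} (ha : ∀ k, Measurable (a k))
    (hc : Cl l (f · q.1) (W q.1) y a) :
    ∀ x ∈ U p.1, W p.1 x = p.2 → Cl l (f · p.1) (W p.1) x fun k w => a k (M p.1 q.1 w) := by
  suffices (∀ x ∈ U p.1, W p.1 x = p.2 →
      Cl l (f · p.1) (W p.1) x fun k w => a k (M p.1 q.1 w)) ∧
      ∀ᶠ w in 𝓝 p.2, Relation.ReflTransGen (El W Com) (p.1, w) (q.1, M p.1 q.1 w) from this.1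
  have hm : ∀ v k, Measurable fun w => a k (M v q.1 w) := fun v k => (ha k).comp (G.ms _ _)
  induction h using Relation.ReflTransGen.head_induction_on with
  | refl =>
    have e : ∀ w, M q.1 q.1 w = w := fun w => (G.fn (q.1, w) (q.1, w) .refl).symm
    simp only [e]
    exact ⟨fibre19 hP hL (G.op _) (A.co · _) (G.hol _) (A.ex _) hq.1 hq.2 ha hy ey hc,
      .of_forall fun w => .refl⟩
  | @head p r h1 _ ih =>
    obtain ⟨⟨x, z, c, e1, e2⟩, g⟩ := h1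
    obtain ⟨hx, hz, τ, B, rfl, hB, hτ, ev⟩ := G.com _ _ _ _ c
    obtain ⟨O', o', t⟩ := ih.1 _ hz e2
    have o2 := (G.op r.1).mem_nhds hz
    have e3 : ∀ᶠ s in 𝓝 x, Relation.ReflTransGen (El W Com) (p.1, W p.1 s)
        (q.1, M r.1 q.1 (W r.1 (τ s))) := by
      have : Tendsto (fun s => W r.1 (τ s)) (𝓝 x) (𝓝 r.2) :=
        e2 ▸ ((G.hol _).continuousOn.continuousAt o2).tendsto.comp hτ.continuousAt
      filter_upwards [ev, this ih.2] with s s1 s2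
      exact .head (b := (r.1, W r.1 (τ s))) ⟨s, τ s, s1, rfl, rfl⟩ s2
    obtain ⟨O, o, C, hC, hg⟩ := chg volume hB hτ (inter_mem o' o2)
    constructor
    · refine fibre19 hP hL (G.op _) (A.co · _) (G.hol _) (A.ex _) g.1 g.2 (hm _) hx e1 ?_
      obtain ⟨O2, s2, o3, h3⟩ := _root_.mem_nhds_iff.1 (inter_mem o (ev.and e3))
      refine ⟨O2, o3.mem_nhds h3, zero_of hC t fun k => ?_⟩
      refine le_trans ?_ ((hg _ (meas (G.op _) inter_subset_right (A.co k _)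
        (G.hol _).continuousOn (hm r.1 k))).trans
        (mul_le_mul_right (lintegral_mono_set inter_subset_left) _))
      refine le_trans (setLIntegral_mono' o3.measurableSet fun s hs => ?_)
        (lintegral_mono_set fun s hs => (s2 hs).1)
      beta_reduce
      rw [A.eq k _ _ _ _ (s2 hs).2.1, ← G.fn _ _ (s2 hs).2.2]
    · rw [← e1, ← map_nhds (G.op _) (G.hol _) hx (g.2 x hx e1), eventually_map]
      filter_upwards [e3] with s hs
      rwa [← G.fn _ _ hs]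

end chain

/-- From germs to a compact set of half the measure. -/
theorem half19 {D T : Set ℂ} (hD : MeasurableSet D) (h0 : volume D ≠ 0) (h1 : volume D ≠ ∞)
    (hT : volume T = 0) {u : ι → ℂ → ℝ≥0∞}
    (h : ∀ w ∈ D \ T, ∃ d > 0, Tendsto (fun k => ∫⁻ z in ball w d, u k z) l (𝓝 0)) :
    ∃ K ⊆ D \ T, IsCompact K ∧ volume D / 2 < volume K ∧
      Tendsto (fun k => ∫⁻ z in K, u k z) l (𝓝 0) := by
  obtain ⟨T', s, m, z⟩ := exists_measurable_superset_of_null hT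
  obtain ⟨K, k1, k2, k3⟩ := (hD.diff m).exists_lt_isCompact_of_ne_top
    (μ := volume) (by rwa [measure_sdiff_null z]) (r := volume D / 2)
    (by rw [measure_sdiff_null z]; exact ENNReal.half_lt_self h0 h1)
  have k4 : K ⊆ D \ T := k1.trans (sdiff_subset_sdiff_right s)
  refine ⟨K, k4, k2, k3, ?_⟩
  refine k2.induction_on (p := fun K => Tendsto (fun k => ∫⁻ z in K, u k z) l (𝓝 0))
    (by simpa using tendsto_const_nhds)
    (fun s t st ht => zero_of (C := 1) ENNReal.one_ne_top ht fun k => by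
      rw [one_mul]; exact lintegral_mono_set st)
    (fun s t hs ht => zero_of (C := 1) ENNReal.one_ne_top (by simpa using hs.add ht) fun k => by
      rw [one_mul]; exact lintegral_union_le _ _ _) fun w hw => ?_
  obtain ⟨d, hd, t⟩ := h w (k4 hw)
  exact ⟨_, mem_nhdsWithin_of_mem_nhds (ball_mem_nhds w hd), t⟩

end Pool.Agent.Lib.F4G.P19
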