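import Pool.Agent.Lib.F4G.BlueM
import Pool.Agent.Lib.F4G.Prop19
import Pool.Agent.Lib.F4G.Flow62

/-! Project f4g: rows MGE and MHA. -/

open scoped Classical Topology ENNReal NNReal
open Set Filter MeasureTheory Metric

noncomputable section

namespace Pool.Agent.Lib.F4G

theorem mge_of (hP : P19.St_UP) (hL : P19.St_LO) : St_MGE := by
  intro n κ V l f U W Com Good Mo G eq co ex v v' x hx x' hx' N hN N' hN' a a' ha ha' t t' g g' ch
  have G' : P19.Geo U W Com Mo := ⟨G.opn, G.hol, fun v x u y h => by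
    obtain ⟨h1, h2, τ, A, h3, h4, h5⟩ := G.com v x u y h
    exact ⟨h1, h2, τ, A, h4, A.injective, h3, h5⟩, G.val, G.mea⟩
  have A : P19.Ana U W Com l f := ⟨co, eq, fun v x hx h0 => by
    obtain ⟨O, o, a, h1, h2⟩ := ex v x hx h0
    exact ⟨a, h1, O, o, h2⟩⟩
  obtain ⟨d, d0, h⟩ := P19.uniq19 hL (G.opn v) (co · v) (G.hol v) hx ((G.good _ _ g).2 x hx rfl)
    ha (fun k => (ha' k).comp (G.mea v v')) ⟨N, hN, t⟩
    (P19.prop19 hP hL G' A (p := (v, W v x)) (q := (v', W v' x'))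
      (Relation.ReflTransGen.mono (r := ElG W Com Good)
        (fun a b h => ⟨h.1, G.good _ _ h.2.1⟩) _ _ ch) (G.good _ _ g') hx' rfl ha' ⟨N', hN', t'⟩
      x hx rfl)
  exact ⟨_, ball_mem_nhds _ d0, h⟩

theorem st_MGE : St_MGE :=
  mge_of (fun _ _ _ h1 h2 => pfUp62 h1 h2) fun _ _ _ h1 h2 => pfLo62 h1 h2

theorem st_MHA : St_MHA := by
  intro κ l G A S hA h1 hS h
  by_cases h0 : volume A = 0
  · exact ⟨∅, .empty, empty_subset _, by simp [h0], by simpa using tendsto_const_nhds⟩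
  obtain ⟨K, k1, k2, k3, k4⟩ := P19.half19 hA h0 h1 (hS.measure_zero _) (u := G) fun w hw => by
    obtain ⟨D, hD, t⟩ := h w hw
    obtain ⟨d, d0, s⟩ := Metric.mem_nhds_iff.1 hD
    exact ⟨d, d0, P19.zero_of (C := 1) ENNReal.one_ne_top t fun k => by
      rw [one_mul]; exact lintegral_mono_set s⟩
  refine ⟨K, k2.measurableSet, k1.trans sdiff_subset, ?_, k4⟩
  rw [mul_comm]
  exact (ENNReal.div_le_iff two_ne_zero ENNReal.ofNat_ne_top).1 k3.le

end Pool.Agent.Lib.F4G
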