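import Pool.Agent.Lib.F4G.Ext37
import Pool.Agent.Lib.F4G.MyAtl

/-! F4G: the atlas relation generated by common points of boxes. -/

namespace Pool.Agent.Lib.F4G

open Set Filter Topology Metric Relation

section Atl
variable {X I Γ : Type} [TopologicalSpace X] [Group Γ]

/-- Two pairs (vertex, value) are given by a common point of the two boxes. -/
def Com98 (U : I → Set X) (W : I → X → ℂ) (c : I → I → X → Γ) (a b : (I × Γ) × ℂ) : Prop :=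
  ∃ x, x ∈ U a.1.1 ∧ x ∈ U b.1.1 ∧ W a.1.1 x = a.2 ∧ W b.1.1 x = b.2 ∧
    b.1.2 = a.1.2 * c a.1.1 b.1.1 x

variable {U : I → Set X} {W : I → X → ℂ} {c : I → I → X → Γ}

omit [TopologicalSpace X] in
theorem one98 (hco : ∀ i j k x, x ∈ U i → x ∈ U j → x ∈ U k → c i j x * c j k x = c i k x)
    {i : I} {x : X} (h : x ∈ U i) : c i i x = 1 := by
  have h1 := hco i i i x h h h
  exact mul_left_cancel (a := c i i x) (by rw [h1, mul_one])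

omit [TopologicalSpace X] in
theorem symm98 (hco : ∀ i j k x, x ∈ U i → x ∈ U j → x ∈ U k → c i j x * c j k x = c i k x)
    {a b : (I × Γ) × ℂ} (h : TransGen (Com98 U W c) a b) : TransGen (Com98 U W c) b a := by
  have h1 : ∀ a b, Com98 U W c a b → Com98 U W c b a := by
    rintro a b ⟨x, hi, hj, h1, h2, h3⟩
    refine ⟨x, hj, hi, h2, h1, ?_⟩
    rw [h3, mul_assoc, hco _ _ _ x hi hj hi, one98 hco hi, mul_one]
  induction h with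
  | single h => exact TransGen.single (h1 _ _ h)
  | tail _ h ih => exact TransGen.head (h1 _ _ h) ih

omit [TopologicalSpace X] in
theorem left98 (f : Γ) {a b : (I × Γ) × ℂ} (h : TransGen (Com98 U W c) a b) :
    TransGen (Com98 U W c) ((a.1.1, f * a.1.2), a.2) ((b.1.1, f * b.1.2), b.2) := by
  have h1 : ∀ a b, Com98 U W c a b →
      Com98 U W c ((a.1.1, f * a.1.2), a.2) ((b.1.1, f * b.1.2), b.2) := by
    rintro a b ⟨x, hi, hj, h1, h2, h3⟩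
    refine ⟨x, hi, hj, h1, h2, ?_⟩
    show f * b.1.2 = f * a.1.2 * c a.1.1 b.1.1 x
    rw [h3, mul_assoc]
  induction h with
  | single h => exact TransGen.single (h1 _ _ h)
  | tail _ h ih => exact TransGen.tail ih (h1 _ _ h)

theorem comp98 (A B C : Matrix (Fin 2) (Fin 2) ℂ) (hC : C = B * A ∨ C = -(B * A)) (z y u : ℂ)
    (p q r : ℝ) (h1 : A 0 0 + A 0 1 * z ≠ 0) (h2 : y = (A 1 0 + A 1 1 * z) / (A 0 0 + A 0 1 * z))
    (h3 : q = p - 4 * Real.log ‖A 0 0 + A 0 1 * z‖) (h4 : B 0 0 + B 0 1 * y ≠ 0)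
    (h5 : u = (B 1 0 + B 1 1 * y) / (B 0 0 + B 0 1 * y))
    (h6 : r = q - 4 * Real.log ‖B 0 0 + B 0 1 * y‖) :
    C 0 0 + C 0 1 * z ≠ 0 ∧ u = (C 1 0 + C 1 1 * z) / (C 0 0 + C 0 1 * z) ∧
      r = p - 4 * Real.log ‖C 0 0 + C 0 1 * z‖ := by
  have hy : y * (A 0 0 + A 0 1 * z) = A 1 0 + A 1 1 * z := by
    rw [h2, div_mul_cancel₀ _ h1]
  have e0 : (B * A) 0 0 + (B * A) 0 1 * z = (B 0 0 + B 0 1 * y) * (A 0 0 + A 0 1 * z) := by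
    simp only [Matrix.mul_apply, Fin.sum_univ_two]
    linear_combination (-(B 0 1)) * hy
  have e1 : (B * A) 1 0 + (B * A) 1 1 * z = (B 1 0 + B 1 1 * y) * (A 0 0 + A 0 1 * z) := by
    simp only [Matrix.mul_apply, Fin.sum_univ_two]
    linear_combination (-(B 1 1)) * hy
  have hl : Real.log ‖(B 0 0 + B 0 1 * y) * (A 0 0 + A 0 1 * z)‖ =
      Real.log ‖B 0 0 + B 0 1 * y‖ + Real.log ‖A 0 0 + A 0 1 * z‖ := by
    rw [norm_mul, Real.log_mul (norm_ne_zero_iff.2 h4) (norm_ne_zero_iff.2 h1)]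
  rcases hC with hC | hC
  · rw [hC, e0, e1, hl]
    refine ⟨mul_ne_zero h4 h1, ?_, by linarith⟩
    rw [h5, mul_div_mul_right _ _ h1]
  · have f0 : C 0 0 + C 0 1 * z = -((B 0 0 + B 0 1 * y) * (A 0 0 + A 0 1 * z)) := by
      rw [hC, ← e0]; simp only [Matrix.neg_apply]; ring
    have f1 : C 1 0 + C 1 1 * z = -((B 1 0 + B 1 1 * y) * (A 0 0 + A 0 1 * z)) := by
      rw [hC, ← e1]; simp only [Matrix.neg_apply]; ring
    rw [f0, f1, norm_neg, hl]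
    refine ⟨neg_ne_zero.2 (mul_ne_zero h4 h1), ?_, by linarith⟩
    rw [h5, neg_div_neg_eq, mul_div_mul_right _ _ h1]

omit [TopologicalSpace X] in
theorem iso98 (hco : ∀ i j k x, x ∈ U i → x ∈ U j → x ∈ U k → c i j x * c j k x = c i k x)
    (hball : ∀ i x, x ∈ U i → ‖W i x‖ < 1) (F : I → ℂ → ℝ) (m : Γ → Matrix (Fin 2) (Fin 2) ℂ)
    (hm : ∀ g h, m (g * h) = m g * m h ∨ m (g * h) = -(m g * m h))
    (htr : ∀ i j x, x ∈ U i → x ∈ U j →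
      m (c j i x) 0 0 + m (c j i x) 0 1 * W i x ≠ 0 ∧
      W j x = (m (c j i x) 1 0 + m (c j i x) 1 1 * W i x) /
        (m (c j i x) 0 0 + m (c j i x) 0 1 * W i x) ∧
      F j (W j x) = F i (W i x) - 4 * Real.log ‖m (c j i x) 0 0 + m (c j i x) 0 1 * W i x‖)
    {a b : (I × Γ) × ℂ} (h : TransGen (Com98 U W c) a b) :
    ‖a.2‖ < 1 ∧ ‖b.2‖ < 1 ∧
      m (b.1.2⁻¹ * a.1.2) 0 0 + m (b.1.2⁻¹ * a.1.2) 0 1 * a.2 ≠ 0 ∧
      b.2 = (m (b.1.2⁻¹ * a.1.2) 1 0 + m (b.1.2⁻¹ * a.1.2) 1 1 * a.2) /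
        (m (b.1.2⁻¹ * a.1.2) 0 0 + m (b.1.2⁻¹ * a.1.2) 0 1 * a.2) ∧
      F b.1.1 b.2 = F a.1.1 a.2 -
        4 * Real.log ‖m (b.1.2⁻¹ * a.1.2) 0 0 + m (b.1.2⁻¹ * a.1.2) 0 1 * a.2‖ := by
  have h1 : ∀ a b : (I × Γ) × ℂ, Com98 U W c a b → ‖a.2‖ < 1 ∧ ‖b.2‖ < 1 ∧
      m (b.1.2⁻¹ * a.1.2) 0 0 + m (b.1.2⁻¹ * a.1.2) 0 1 * a.2 ≠ 0 ∧
      b.2 = (m (b.1.2⁻¹ * a.1.2) 1 0 + m (b.1.2⁻¹ * a.1.2) 1 1 * a.2) /
        (m (b.1.2⁻¹ * a.1.2) 0 0 + m (b.1.2⁻¹ * a.1.2) 0 1 * a.2) ∧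
      F b.1.1 b.2 = F a.1.1 a.2 -
        4 * Real.log ‖m (b.1.2⁻¹ * a.1.2) 0 0 + m (b.1.2⁻¹ * a.1.2) 0 1 * a.2‖ := by
    rintro a b ⟨x, hi, hj, h1, h2, h3⟩
    have e : b.1.2⁻¹ * a.1.2 = c b.1.1 a.1.1 x := by
      rw [inv_mul_eq_iff_eq_mul, h3, mul_assoc, hco _ _ _ x hi hj hi, one98 hco hi, mul_one]
    rw [e, ← h1, ← h2]
    exact ⟨hball _ _ hi, hball _ _ hj, htr _ _ x hi hj⟩
  induction h with
  | single h => exact h1 _ _ h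
  | @tail b d _ h ih =>
    obtain ⟨k1, -, k3, k4, k5⟩ := ih
    obtain ⟨-, l2, l3, l4, l5⟩ := h1 _ _ h
    refine ⟨k1, l2, comp98 _ _ _ ?_ _ _ _ _ _ _ k3 k4 k5 l3 l4 l5⟩
    have e : d.1.2⁻¹ * a.1.2 = (d.1.2⁻¹ * b.1.2) * (b.1.2⁻¹ * a.1.2) := by group
    rw [e]
    exact hm _ _

omit [Group Γ] in
theorem unif98 (hU : ∀ i, IsOpen (U i)) (hct : ∀ i x, x ∈ U i → ContinuousAt (W i) x)
    (hop : ∀ i x, x ∈ U i → ∀ N ∈ 𝓝 x, W i '' N ∈ 𝓝 (W i x))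
    (hlc : ∀ i j x, x ∈ U i → x ∈ U j → ∀ᶠ y in 𝓝 x, c i j y = c i j x)
    (i j : I) (K : Set X) (hK : IsCompact K) (hi : K ⊆ U i) (hj : K ⊆ U j) :
    ∃ ρ : ℝ, 0 < ρ ∧ ∀ x ∈ K, ∀ z : ℂ, ‖z - W i x‖ < ρ →
      ∃ y, y ∈ U i ∧ y ∈ U j ∧ W i y = z ∧ c i j y = c i j x := by
  refine hK.induction_on (p := fun S => ∃ ρ : ℝ, 0 < ρ ∧ ∀ x ∈ S, ∀ z : ℂ, ‖z - W i x‖ < ρ →
      ∃ y, y ∈ U i ∧ y ∈ U j ∧ W i y = z ∧ c i j y = c i j x) ?_ ?_ ?_ ?_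
  · exact ⟨1, one_pos, fun x hx => absurd hx (notMem_empty x)⟩
  · rintro S T hST ⟨ρ, h0, h⟩
    exact ⟨ρ, h0, fun x hx => h x (hST hx)⟩
  · rintro S T ⟨ρ, h0, h⟩ ⟨ρ1, h01, h1⟩
    refine ⟨min ρ ρ1, lt_min h0 h01, ?_⟩
    rintro x (hx | hx) z hz
    · exact h x hx z (hz.trans_le (min_le_left _ _))
    · exact h1 x hx z (hz.trans_le (min_le_right _ _))
  · intro x hx
    have hN : {y | y ∈ U i ∧ y ∈ U j ∧ c i j y = c i j x} ∈ 𝓝 x := by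
      filter_upwards [(hU i).mem_nhds (hi hx), (hU j).mem_nhds (hj hx),
        hlc i j x (hi hx) (hj hx)] with y h1 h2 h3 using ⟨h1, h2, h3⟩
    obtain ⟨ε, hε, hb⟩ := Metric.mem_nhds_iff.1 (hop i x (hi hx) _ hN)
    have hT : (W i) ⁻¹' ball (W i x) (ε / 2) ∈ 𝓝 x :=
      hct i x (hi hx) (ball_mem_nhds _ (half_pos hε))
    refine ⟨_, mem_nhdsWithin_of_mem_nhds (inter_mem hN hT), ε / 2, half_pos hε, ?_⟩
    rintro x1 ⟨⟨-, -, h3⟩, h4⟩ z hz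
    have h5 : z ∈ ball (W i x) ε := by
      rw [mem_preimage, mem_ball, dist_eq_norm] at h4
      rw [mem_ball, dist_eq_norm]
      have := norm_add_le (z - W i x1) (W i x1 - W i x)
      rw [sub_add_sub_cancel] at this
      linarith
    obtain ⟨y, ⟨k1, k2, k3⟩, k4⟩ := hb h5
    exact ⟨y, k1, k2, k4, k3.trans h3.symm⟩

theorem ref98 [CompactSpace X] [T2Space X] [Finite I] (hU : ∀ i, IsOpen (U i))
    (hcov : ∀ x, ∃ i, x ∈ U i)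
    (hct : ∀ i x, x ∈ U i → ContinuousAt (W i) x)
    (hop : ∀ i x, x ∈ U i → ∀ N ∈ 𝓝 x, W i '' N ∈ 𝓝 (W i x))
    (hlc : ∀ i j x, x ∈ U i → x ∈ U j → ∀ᶠ y in 𝓝 x, c i j y = c i j x)
    (hco : ∀ i j k x, x ∈ U i → x ∈ U j → x ∈ U k → c i j x * c j k x = c i k x)
    (hfib : ∀ i z, IsPreconnected (U i ∩ W i ⁻¹' {z}))
    (hdet : ∀ i j x y, x ∈ U i → x ∈ U j → y ∈ U i → y ∈ U j → W i x = W i y →
      c i j x = c i j y → W j x = W j y)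
    (s : I → ℂ → X) (hs : ∀ i, ContinuousOn (s i) (ball 0 1))
    (hsU : ∀ i z, ‖z‖ < 1 → s i z ∈ U i ∧ W i (s i z) = z) (R : ℝ) (hR : R < 1) :
    ∃ ρ : ℝ, 0 < ρ ∧ ∀ a b : (I × Γ) × ℂ, TransGen (Com98 U W c) a b → ‖a.2‖ ≤ R → ‖b.2‖ ≤ R →
      TransGen (fun a b : (I × Γ) × ℂ => Com98 U W c a b ∧
        ∀ z : ℂ, ‖z - a.2‖ < ρ → ∃ y, Com98 U W c (a.1, z) (b.1, y)) a b := by
  obtain ⟨V, hV, hVo, hVc⟩ := exists_iUnion_eq_closure_subset hU (fun x => toFinite _)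
    (eq_univ_of_forall fun x => mem_iUnion.2 (hcov x))
  have hsub : closedBall (0 : ℂ) R ⊆ ball 0 1 := closedBall_subset_ball hR
  obtain ⟨K, hK, hKU, hVK, hsK⟩ : ∃ K : I → Set X, (∀ i, IsCompact (K i)) ∧ (∀ i, K i ⊆ U i) ∧
      (∀ i, V i ⊆ K i) ∧ ∀ i z, ‖z‖ ≤ R → s i z ∈ K i := by
    refine ⟨fun i => closure (V i) ∪ s i '' closedBall 0 R, fun i => ?_, fun i => ?_,
      fun i => subset_closure.trans subset_union_left, fun i z hz => ?_⟩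
    · exact isClosed_closure.isCompact.union
        ((isCompact_closedBall _ _).image_of_continuousOn ((hs i).mono hsub))
    · rintro x (hx | ⟨z, hz, rfl⟩)
      · exact hVc i hx
      · exact (hsU i z (mem_ball_zero_iff.1 (hsub hz))).1
    · exact Or.inr ⟨z, mem_closedBall_zero_iff.2 hz, rfl⟩
  have hρ : ∀ q : I × I, ∃ ρ : ℝ, 0 < ρ ∧ ∀ x ∈ K q.1 ∩ K q.2, ∀ z : ℂ, ‖z - W q.1 x‖ < ρ →
      ∃ y, y ∈ U q.1 ∧ y ∈ U q.2 ∧ W q.1 y = z ∧ c q.1 q.2 y = c q.1 q.2 x := fun q =>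
    unif98 hU hct hop hlc q.1 q.2 _ ((hK q.1).inter (hK q.2))
      (inter_subset_left.trans (hKU _)) (inter_subset_right.trans (hKU _))
  choose r hr0 hr using hρ
  obtain ⟨ρ, hρ0, hρ⟩ : ∃ ρ : ℝ, 0 < ρ ∧ ∀ q, ρ ≤ r q := by
    have h1 : ∀ᶠ ρ in 𝓝[>] (0 : ℝ), ∀ q, ρ ≤ r q := by
      rw [eventually_all]
      intro q
      exact mem_nhdsWithin_of_mem_nhds (Iic_mem_nhds (hr0 q))
    obtain ⟨ρ, h2, h3⟩ := (h1.and self_mem_nhdsWithin).exists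
    exact ⟨ρ, h3, h2⟩
  refine ⟨ρ, hρ0, ?_⟩
  set E : (I × Γ) × ℂ → (I × Γ) × ℂ → Prop := fun a b => Com98 U W c a b ∧
        ∀ z : ℂ, ‖z - a.2‖ < ρ → ∃ y, Com98 U W c (a.1, z) (b.1, y) with hE
  have hVx : ∀ x, ∃ j, x ∈ V j := fun x => mem_iUnion.1 (hV ▸ mem_univ x)
  have A : ∀ i g j k x, x ∈ U i → x ∈ K j → x ∈ K k →
      E ((j, g * c i j x), W j x) ((k, g * c i k x), W k x) := by
    intro i g j k x hi hj hk
    have e : g * c i k x = g * c i j x * c j k x := by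
      rw [mul_assoc, hco i j k x hi (hKU j hj) (hKU k hk)]
    refine ⟨⟨x, hKU j hj, hKU k hk, rfl, rfl, e⟩, fun z hz => ?_⟩
    obtain ⟨y, h1, h2, h3, h4⟩ := hr (j, k) x ⟨hj, hk⟩ z (hz.trans_le (hρ _))
    refine ⟨W k y, y, h1, h2, h3, rfl, ?_⟩
    show g * c i k x = g * c i j x * c j k y
    rw [e]
    exact congrArg _ h4.symm
  have B : ∀ i g z x y, x ∈ U i ∩ W i ⁻¹' {z} → y ∈ U i ∩ W i ⁻¹' {z} → ∀ j k, x ∈ K j →
      y ∈ K k → TransGen E ((j, g * c i j x), W j x) ((k, g * c i k y), W k y) := by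
    intro i g z x y hx hy
    refine (hfib i z).induction₂' (fun x y => ∀ j k, x ∈ K j →
      y ∈ K k → TransGen E ((j, g * c i j x), W j x) ((k, g * c i k y), W k y)) ?_ ?_ hx hy
    · intro x hx
      obtain ⟨l, hl⟩ := hVx x
      have hlU : x ∈ U l := hKU l (hVK l hl)
      filter_upwards [self_mem_nhdsWithin, mem_nhdsWithin_of_mem_nhds ((hVo l).mem_nhds hl),
        mem_nhdsWithin_of_mem_nhds (hlc i l x hx.1 hlU)] with y hy h1 h2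
      have h3 : W l y = W l x := hdet i l y x hy.1 (hKU l (hVK l h1)) hx.1 hlU
        ((show W i y = z from hy.2).trans (show W i x = z from hx.2).symm) h2
      constructor
      · intro j k hj hk
        have k1 := A i g j l x hx.1 hj (hVK l hl)
        have k2 := A i g l k y hy.1 (hVK l h1) hk
        rw [h2, h3] at k2
        exact (TransGen.single k1).tail k2
      · intro j k hj hk
        have k1 := A i g j l y hy.1 hj (hVK l h1)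
        have k2 := A i g l k x hx.1 (hVK l hl) hk
        rw [h2, h3] at k1
        exact (TransGen.single k1).tail k2
    · intro x y u _ _ _ h1 h2 j k hj hk
      obtain ⟨l, hl⟩ := hVx y
      exact (h1 j l hj (hVK l hl)).trans (h2 l k (hVK l hl) hk)
  have C1 : ∀ a b, Com98 U W c a b → ∀ x y, x ∈ U a.1.1 ∩ W a.1.1 ⁻¹' {a.2} →
      y ∈ U b.1.1 ∩ W b.1.1 ⁻¹' {b.2} → ∀ j k, x ∈ K j → y ∈ K k →
      TransGen E ((j, a.1.2 * c a.1.1 j x), W j x) ((k, b.1.2 * c b.1.1 k y), W k y) := by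
    rintro a b ⟨u, hi, hj, h1, h2, h3⟩ x y hx hy j k hxj hyk
    obtain ⟨l, hl⟩ := hVx u
    have k1 := B a.1.1 a.1.2 a.2 x u hx ⟨hi, h1⟩ j l hxj (hVK l hl)
    have k2 := B b.1.1 b.1.2 b.2 u y ⟨hj, h2⟩ hy l k (hVK l hl) hyk
    have e : b.1.2 * c b.1.1 l u = a.1.2 * c a.1.1 l u := by
      rw [h3, mul_assoc, hco _ _ _ u hi hj (hKU l (hVK l hl))]
    rw [e] at k2
    exact k1.trans k2
  have C : ∀ a b, TransGen (Com98 U W c) a b → ∀ x y, x ∈ U a.1.1 ∩ W a.1.1 ⁻¹' {a.2} →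
      y ∈ U b.1.1 ∩ W b.1.1 ⁻¹' {b.2} → ∀ j k, x ∈ K j → y ∈ K k →
      TransGen E ((j, a.1.2 * c a.1.1 j x), W j x) ((k, b.1.2 * c b.1.1 k y), W k y) := by
    intro a b h
    induction h with
    | single h => exact C1 _ _ h
    | @tail b d _ h ih =>
      intro x y hx hy j k hj hk
      obtain ⟨u, hi, -, h1, -⟩ := id h
      obtain ⟨l, hl⟩ := hVx u
      exact (ih x u hx ⟨hi, h1⟩ j l hj (hVK l hl)).trans
        (C1 _ _ h u y ⟨hi, h1⟩ hy l k (hVK l hl) hk)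
  intro a b h ha hb
  obtain ⟨a1, a2⟩ := hsU a.1.1 a.2 (ha.trans_lt hR)
  obtain ⟨b1, b2⟩ := hsU b.1.1 b.2 (hb.trans_lt hR)
  have k := C a b h _ _ ⟨a1, a2⟩ ⟨b1, b2⟩ _ _ (hsK _ _ ha) (hsK _ _ hb)
  rw [one98 hco a1, one98 hco b1, mul_one, mul_one, a2, b2] at k
  exact k

theorem atl98 [CompactSpace X] [T2Space X] [Finite I] (hU : ∀ i, IsOpen (U i))
    (hcov : ∀ x, ∃ i, x ∈ U i ∧ ‖W i x‖ ≤ 1 / 2)
    (hct : ∀ i x, x ∈ U i → ContinuousAt (W i) x)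
    (hop : ∀ i x, x ∈ U i → ∀ N ∈ 𝓝 x, W i '' N ∈ 𝓝 (W i x))
    (hlc : ∀ i j x, x ∈ U i → x ∈ U j → ∀ᶠ y in 𝓝 x, c i j y = c i j x)
    (hco : ∀ i j k x, x ∈ U i → x ∈ U j → x ∈ U k → c i j x * c j k x = c i k x)
    (hball : ∀ i x, x ∈ U i → ‖W i x‖ < 1)
    (hfib : ∀ i z, IsPreconnected (U i ∩ W i ⁻¹' {z}))
    (s : I → ℂ → X) (hs : ∀ i, ContinuousOn (s i) (ball 0 1))
    (hsU : ∀ i z, ‖z‖ < 1 → s i z ∈ U i ∧ W i (s i z) = z)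
    (F : I → ℂ → ℝ) (m : Γ → Matrix (Fin 2) (Fin 2) ℂ) (hm1 : ∀ g, (m g).det = 1)
    (hm : ∀ g h, m (g * h) = m g * m h ∨ m (g * h) = -(m g * m h))
    (htr : ∀ i j x, x ∈ U i → x ∈ U j →
      m (c j i x) 0 0 + m (c j i x) 0 1 * W i x ≠ 0 ∧
      W j x = (m (c j i x) 1 0 + m (c j i x) 1 1 * W i x) /
        (m (c j i x) 0 0 + m (c j i x) 0 1 * W i x) ∧
      F j (W j x) = F i (W i x) - 4 * Real.log ‖m (c j i x) 0 0 + m (c j i x) 0 1 * W i x‖)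
    (k B : ℝ) (hk : 0 < k) (hcv : ∀ i, My.Cv k (F i)) (hB : ∀ i z, ‖z‖ < 1 → |F i z| ≤ B) :
    ∃ r : ℝ, My.Atl (fun v : I × Γ => v.1) F
      (fun v z w y => TransGen (Com98 U W c) (v, z) (w, y)) k B r := by
  have hinv : ∀ i j x, x ∈ U i → x ∈ U j → c j i x = (c i j x)⁻¹ := fun i j x hi hj =>
    eq_inv_of_mul_eq_one_left (by rw [hco j i j x hj hi hj, one98 hco hj])
  have hdet : ∀ i j x y, x ∈ U i → x ∈ U j → y ∈ U i → y ∈ U j → W i x = W i y →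
      c i j x = c i j y → W j x = W j y := by
    intro i j x y h1 h2 h3 h4 h5 h6
    rw [(htr i j x h1 h2).2.1, (htr i j y h3 h4).2.1, hinv i j x h1 h2, hinv i j y h3 h4, h5, h6]
  obtain ⟨ρ, hρ, href⟩ := ref98 hU (fun x => (hcov x).imp fun _ h => h.1) hct hop hlc hco hfib
    hdet s hs hsU (3 / 4) (by norm_num)
  have rf : ∀ (v : I × Γ) z, ‖z‖ < 1 → TransGen (Com98 U W c) (v, z) (v, z) := by
    intro v z hz
    obtain ⟨h1, h2⟩ := hsU v.1 z hz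
    refine TransGen.single ⟨s v.1 z, h1, h1, h2, h2, ?_⟩
    show v.2 = v.2 * c v.1 v.1 (s v.1 z)
    rw [one98 hco h1, mul_one]
  have iso : ∀ (v : I × Γ) z (w : I × Γ) y, TransGen (Com98 U W c) (v, z) (w, y) →
      m (w.2⁻¹ * v.2) 0 1 * z + m (w.2⁻¹ * v.2) 0 0 ≠ 0 ∧
      y = (m (w.2⁻¹ * v.2) 1 1 * z + m (w.2⁻¹ * v.2) 1 0) /
        (m (w.2⁻¹ * v.2) 0 1 * z + m (w.2⁻¹ * v.2) 0 0) ∧ ‖z‖ < 1 ∧ ‖y‖ < 1 ∧
      F w.1 y = F v.1 z - 4 * Real.log ‖m (w.2⁻¹ * v.2) 0 1 * z + m (w.2⁻¹ * v.2) 0 0‖ := by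
    intro v z w y h
    obtain ⟨h1, h2, h3, h4, h5⟩ := iso98 hco hball F m hm htr h
    rw [add_comm (m (w.2⁻¹ * v.2) 0 1 * z), add_comm (m (w.2⁻¹ * v.2) 1 1 * z)]
    exact ⟨h3, h4, h1, h2, h5⟩
  have det : ∀ v w : I × Γ, m (w.2⁻¹ * v.2) 1 1 * m (w.2⁻¹ * v.2) 0 0 -
      m (w.2⁻¹ * v.2) 1 0 * m (w.2⁻¹ * v.2) 0 1 = 1 := by
    intro v w
    have h := hm1 (w.2⁻¹ * v.2)
    rw [Matrix.det_fin_two] at h
    linear_combination h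
  obtain ⟨r, hr, hext⟩ := ext37 (fun v : I × Γ => v.1) F (fun v w => m (w.2⁻¹ * v.2) 1 1)
    (fun v w => m (w.2⁻¹ * v.2) 1 0) (fun v w => m (w.2⁻¹ * v.2) 0 1)
    (fun v w => m (w.2⁻¹ * v.2) 0 0) (fun v z w y => TransGen (Com98 U W c) (v, z) (w, y))
    (fun v z w y => Com98 U W c (v, z) (w, y) ∧
      ∀ x : ℂ, ‖x - z‖ < ρ → ∃ u, Com98 U W c (v, x) (w, u)) B ρ hρ det
    (fun _ _ _ _ _ _ h1 h2 => h1.trans h2) rf iso hB
    (fun _ _ _ _ h => TransGen.single h.1)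
    (fun v z w y h x hx => by
      obtain ⟨u, hu⟩ := h.2 x hx
      have h1 := TransGen.single (r := Com98 U W c) hu
      rw [← (iso v x w u h1).2.1]
      exact h1)
    (fun v z w y h hz hy => (href (v, z) (w, y) h hz hy).to_reflTransGen)
  refine ⟨r, hk, hr, hcv, hB, rf, fun _ _ _ _ h => symm98 hco h,
    fun _ _ _ _ _ _ h1 h2 => h1.trans h2, ?_, ?_⟩
  · intro v z hz
    obtain ⟨h1, h2⟩ := hsU v.1 z (hz.trans_lt (by norm_num))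
    obtain ⟨j, h3, h4⟩ := hcov (s v.1 z)
    exact ⟨(j, v.2 * c v.1 j (s v.1 z)), W j (s v.1 z), h4,
      TransGen.single ⟨s v.1 z, h1, h3, h2, rfl, rfl⟩⟩
  · intro v z w y h hz hy
    refine ⟨_, _, _, _, det v w, (iso v z w y h).2.1.symm, fun x hx => ?_⟩
    have h1 := hext v z w y h hz hy x hx
    obtain ⟨k1, -, -, k4, k5⟩ := iso _ _ _ _ h1
    exact ⟨k1, k4, h1, k5⟩

end Atl

end Pool.Agent.Lib.F4G
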