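import Pool.Agent.Lib.F4G.BlueN
import Pool.Agent.Lib.F4G.Atl98

/-! Project f4g, step five: the geometric data of a family of boxes. -/

open scoped Topology Matrix MatrixGroups
open Set Filter Metric

noncomputable section

namespace Pool.Agent.Lib.F4G

open Pool.Agent.Lib.SV (E)
open Pool.Agent.Lib.HS32 Pool.Agent.Lib.F4

namespace G62

theorem lf_mk (A : SL(2, ℂ)) :
    (lf (QuotientGroup.mk A)).1 = A.1 ∨ (lf (QuotientGroup.mk A)).1 = -A.1 := by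
  obtain ⟨z, hz⟩ := QuotientGroup.mk_out_eq_mul (Subgroup.center SL(2, ℂ)) A
  obtain ⟨r, h1, h2⟩ := Matrix.SpecialLinearGroup.mem_center_iff.1 z.2
  have e : (lf (QuotientGroup.mk A)).1 = r • A.1 := by
    rw [show lf (QuotientGroup.mk A) = A * z from hz, Matrix.SpecialLinearGroup.coe_mul, ← h2]
    ext i j
    simp [Matrix.scalar, Matrix.mul_diagonal, mul_comm]
  rw [Fintype.card_fin, sq_eq_one_iff] at h1
  rcases h1 with rfl | rfl
  · exact Or.inl (e.trans (one_smul _ _))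
  · exact Or.inr (e.trans (neg_one_smul _ _))

theorem lf_mul (g h : PG) :
    (lf (g * h)).1 = (lf g).1 * (lf h).1 ∨ (lf (g * h)).1 = -((lf g).1 * (lf h).1) := by
  have e : g * h = QuotientGroup.mk (lf g * lf h) := by
    rw [QuotientGroup.mk_mul, lf, lf, QuotientGroup.out_eq', QuotientGroup.out_eq']
  have k := lf_mk (lf g * lf h)
  rwa [← e] at k

variable {n : ℕ} {M : Mf n} {α : M.Fam (E n)} {k B : ℝ} (b : Box M α k B)

theorem cb {i : b.I} {z : E n} (h : z ∈ b.U i) : z ∈ closedBall (b.p i) (b.R i) :=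
  ball_subset_closedBall (b.uq i h)

theorem dW {i : b.I} {z : E n} (h : z ∈ b.U i) : DifferentiableAt ℂ (b.W i) z ∧
    ∀ j, α (b.e i) z j = b.s i z ^ 2 * dz j (b.W i) z := by
  obtain ⟨h1, h2, h3⟩ := b.hol i z (cb b h)
  have d := h2.hasFDerivAt.fun_mul ((hasDerivAt_inv h3).comp_hasFDerivAt z h1.hasFDerivAt)
  have e : b.W i = fun y => b.t i y * ((fun y : ℂ => y⁻¹) ∘ b.s i) y :=
    funext fun y => div_eq_mul_inv _ _
  rw [← e] at d
  refine ⟨d.differentiableAt, fun j => ?_⟩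
  rw [b.wr i z (cb b h), M7.dz_fd d, M7.dz_fd h1.hasFDerivAt, M7.dz_fd h2.hasFDerivAt]
  simp
  field_simp
  ring

theorem step {u v : (b.I × PG) × ℂ} (h : El (fun v : b.I × PG => b.W v.1) b.Com u v) :
    (lf (v.1.2⁻¹ * u.1.2)).1 0 0 + (lf (v.1.2⁻¹ * u.1.2)).1 0 1 * u.2 ≠ 0 ∧
      v.2 = b.Mo u.1 v.1 u.2 := by
  obtain ⟨_, _, ⟨y, y1, y2, rfl, rfl, y3⟩, h1, h2⟩ := h
  have o1 : In (b.e u.1.1) (ball (b.p u.1.1) (b.R u.1.1)) y := ⟨y1.1, b.uq _ y1.2⟩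
  have o2 : In (b.e v.1.1) (ball (b.p v.1.1) (b.R v.1.1)) y := ⟨y2.1, b.uq _ y2.2⟩
  have c1 : b.c u.1.1 u.1.1 y = 1 := mul_left_cancel (a := b.c u.1.1 u.1.1 y)
    (by rw [(b.lc _ _ y o1 o1).2.2 _ o1, mul_one])
  have e : v.1.2⁻¹ * u.1.2 = b.c v.1.1 u.1.1 y := by
    rw [inv_mul_eq_iff_eq_mul, y3, mul_assoc, (b.lc _ _ y o1 o2).2.2 _ o1, c1, mul_one]
  obtain ⟨r, r1, r2⟩ := b.tr _ _ y o2 o1
  have r0 : r ≠ 0 := fun h => ((mTR n M).2.1 _ (b.mem _) _ (b.mem _) y y2.1 y1.1).2.1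
    (by rw [h] at r1; exact r1.symm.trans (by simp))
  have s1 := (b.hol _ _ (cb b y1.2)).2.2
  have s2 := (b.hol _ _ (cb b y2.2)).2.2
  have q0 := congrFun r2 0
  have q1 := congrFun r2 1
  simp only [Pi.smul_apply, smul_eq_mul, Matrix.mulVec, dotProduct, Fin.sum_univ_two,
    Matrix.cons_val_zero, Matrix.cons_val_one] at q0 q1
  rw [Box.Mo, e, ← h1, ← h2]
  simp only [Box.W]
  generalize (lf (b.c v.1.1 u.1.1 y)).1 = A at *
  generalize b.s u.1.1 _ = s at *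
  generalize b.t u.1.1 _ = t at *
  generalize b.s v.1.1 _ = s' at *
  generalize b.t v.1.1 _ = t' at *
  have e0 : A 0 0 + A 0 1 * (t / s) = r * s' / s := by rw [q0]; field_simp
  have e1 : A 1 0 + A 1 1 * (t / s) = r * t' / s := by rw [q1]; field_simp
  rw [e0, e1]
  exact ⟨div_ne_zero (mul_ne_zero r0 s2) s1, by field_simp⟩

theorem val {u v : (b.I × PG) × ℂ}
    (h : Relation.ReflTransGen (El (fun v : b.I × PG => b.W v.1) b.Com) u v) :
    (lf (v.1.2⁻¹ * u.1.2)).1 0 0 + (lf (v.1.2⁻¹ * u.1.2)).1 0 1 * u.2 ≠ 0 ∧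
      v.2 = b.Mo u.1 v.1 u.2 := by
  induction h with
  | refl =>
    rw [Box.Mo, inv_mul_cancel]
    rcases lf_mk 1 with e | e <;> rw [QuotientGroup.mk_one] at e <;> rw [e] <;> simp
  | @tail v w _ h ih =>
    have l := step b h
    have e : w.1.2⁻¹ * u.1.2 = (w.1.2⁻¹ * v.1.2) * (v.1.2⁻¹ * u.1.2) := by group
    have := comp98 _ _ (lf (w.1.2⁻¹ * u.1.2)).1 (by rw [e]; exact lf_mul _ _) u.2 v.2 w.2 0 _ _
      ih.1 ih.2 rfl l.1 l.2 rfl
    exact ⟨this.1, this.2.1⟩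

end G62

open G62

theorem st_MGO : St_MGO := by
  intro n M α k B b
  refine ⟨⟨fun v => b.opn _, fun v z hz => (dW b hz).1.differentiableWithinAt, ?_,
    fun v w hw => ⟨b.con _ w, fun x hx e h0 => b.reg _ x hx (by rwa [← e] at hw) ?_⟩,
    fun v v' => ?_, fun u v h => (val b h).2⟩, fun i => ⟨fun z hz =>
      (dW b hz).1.differentiableWithinAt, fun y hy => ⟨_, pow_ne_zero 2 (b.hol i y (cb b hy)).2.2,
      (dW b hy).2⟩, fun w hw => ?_⟩⟩
  · rintro v _ v' _ ⟨y, y1, y2, rfl, rfl, y3⟩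
    obtain ⟨h1, -, -, h2, -⟩ := (mTR n M).2.1 _ (b.mem v'.1) _ (b.mem v.1) y y2.1 y1.1
    obtain ⟨g1, -, -, g2, -⟩ := (mTR n M).2.1 _ (b.mem v.1) _ (b.mem v'.1) y y1.1 y2.1
    have t0 : (b.e v'.1 ∘ (b.e v.1).symm) (b.e v.1 y) = b.e v'.1 y := by
      simp [(b.e v.1).left_inv y1.1]
    have t1 : (b.e v.1 ∘ (b.e v'.1).symm) (b.e v'.1 y) = b.e v.1 y := by
      simp [(b.e v'.1).left_inv y2.1]
    have d1 := ((SV.H85.contDiffAt_nat h1 1).restrict_scalars ℝ).hasStrictFDerivAt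
      (by simp)
    have d2 := (g1.self_of_nhds.restrictScalars ℝ).hasFDerivAt
    have i1 := ((HasFDerivAt.comp _ (t0 ▸ d2) d1.hasFDerivAt).congr_of_eventuallyEq (f₁ := id) (by
      filter_upwards [h2] with w hw
      simp only [Function.comp_apply, id, hw.2.2.2.2.1, hw.2.2.2.2.2.1])).unique
      (hasFDerivAt_id _)
    have i2 := ((HasFDerivAt.comp _ (t1 ▸ d1.hasFDerivAt) d2).congr_of_eventuallyEq (f₁ := id) (by
      filter_upwards [g2] with w hw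
      simp only [Function.comp_apply, id, hw.2.2.2.2.1, hw.2.2.2.2.2.1])).unique
      (hasFDerivAt_id _)
    rw [t0] at i1
    rw [t1] at i2
    refine ⟨y1.2, y2.2, b.e v'.1 ∘ (b.e v.1).symm, .equivOfInverse' _ _ i2 i1, d1, t0, ?_⟩
    have ts : Tendsto (b.e v.1).symm (𝓝 (b.e v.1 y)) (𝓝 y) := (b.e v.1).tendsto_symm y1.1
    filter_upwards [h2, (b.opn v.1).mem_nhds y1.2, d1.continuousAt.eventually
      ((b.opn v'.1).eventually_mem (t0 ▸ y2.2)), ts.eventually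
      (b.lc _ _ y ⟨y1.1, b.uq _ y1.2⟩ ⟨y2.1, b.uq _ y2.2⟩).2.1] with w k1 k2 k3 k4
    exact ⟨_, ⟨k1.2.2.1, by rwa [k1.2.2.2.2.2.1]⟩, ⟨k1.2.1, k3⟩, k1.2.2.2.2.2.1, rfl,
      by rw [k4, y3]⟩
  · funext j
    rw [(dW b hx).2 j, M7.dz_fd (dW b hx).1.hasFDerivAt, h0]
    simp
  · unfold Box.Mo
    fun_prop
  · have hw' : w ∈ ball (0 : ℂ) 1 := closedBall_subset_ball (by norm_num) hw
    obtain ⟨h1, h2⟩ := b.hsg i
    refine ⟨_, (h2 w hw').1, (h2 w hw').2, fun h0 => ?_⟩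
    have d := ((dW b (h2 w hw').1).1.hasFDerivAt.comp_hasDerivAt w
      (h1.differentiableAt (isOpen_ball.mem_nhds hw')).hasDerivAt).congr_of_eventuallyEq
      (f₁ := id) (by
        filter_upwards [isOpen_ball.mem_nhds hw'] with u hu using (h2 u hu).2.symm)
    rw [h0] at d
    exact zero_ne_one (d.unique (hasDerivAt_id w))

end Pool.Agent.Lib.F4G
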