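import Pool.Agent.Lib.F4G.BlueM
import Pool.Agent.Lib.F4G.Sz44

/-! Project f4g: the lengths along the kernel are small in the mean. -/

open scoped Topology NNReal ENNReal
open Set Filter MeasureTheory

namespace Pool.Agent.Lib.F4G

open Pool.Agent.Lib.HS32 Pool.Agent.Lib.F4

theorem st_MLE : St_MLE := fun n M _ H α hH hα h3 e he K hK hs hne η hη => by
  obtain ⟨C, hC⟩ := lf44 hH hα h3 he hK hs hne
  have h1 : Tendsto (fun ε : ℝ => (C : ℝ≥0∞) * ENNReal.ofReal √ε) (𝓝 0) (𝓝 0) := by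
    have h2 : Tendsto (fun ε : ℝ => ENNReal.ofReal √ε) (𝓝 0) (𝓝 0) := by
      simpa [Function.comp_def] using
        (ENNReal.continuous_ofReal.comp Real.continuous_sqrt).tendsto 0
    simpa using ENNReal.Tendsto.const_mul h2 (Or.inr ENNReal.coe_ne_top)
  obtain ⟨δ, δ0, hδ⟩ := Metric.eventually_nhds_iff.1 (h1.eventually (Iic_mem_nhds hη))
  refine ⟨δ / 2, half_pos δ0, fun ε u h0 h2 hu hl => ?_⟩
  obtain ⟨g, gm, gi, gv⟩ := hC ε u h0 hu hl
  refine ⟨g, gm, gi.trans (hδ ?_), gv⟩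
  rw [Real.dist_eq, sub_zero, abs_of_nonneg h0]
  linarith

end Pool.Agent.Lib.F4G
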