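import Pool.Agent.Lib.F4G.Seg39

/-! Project f4g: a good base point in a ball. -/

open scoped Topology ENNReal NNReal
open Set Filter MeasureTheory Metric

noncomputable section

namespace Pool.Agent.Lib.F4G

/-- The oscillation of a differentiable function along a segment. -/
theorem oscD39 {E : Type} [NormedAddCommGroup E] [NormedSpace ℝ E] {f : E → ℝ} {x v : E}
    {g : ℝ → ℝ≥0∞} (hf : ∀ t ∈ Icc (0 : ℝ) 1, DifferentiableAt ℝ f (x + t • v))
    (hg : ∀ t ∈ Icc (0 : ℝ) 1, ‖fderiv ℝ f (x + t • v) v‖ₑ ≤ g t) :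
    ‖f (x + v) - f x‖ₑ ≤ ∫⁻ t in Icc (0 : ℝ) 1, g t := by
  have hd : ∀ t ∈ Icc (0 : ℝ) 1, HasDerivAt (fun s : ℝ => f (x + s • v))
      (fderiv ℝ f (x + t • v) v) t := fun t ht => by
    have h1 : HasDerivAt (fun s : ℝ => x + s • v) v t := by
      simpa using ((hasDerivAt_id t).smul_const v).const_add x
    exact (hf t ht).hasFDerivAt.comp_hasDerivAt t h1
  have hb : ∫⁻ t in Icc (0 : ℝ) 1, ‖deriv (fun s : ℝ => f (x + s • v)) t‖ₑ ≤
      ∫⁻ t in Icc (0 : ℝ) 1, g t :=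
    setLIntegral_mono' measurableSet_Icc fun t ht => by rw [(hd t ht).deriv]; exact hg t ht
  rcases eq_or_ne (∫⁻ t in Icc (0 : ℝ) 1, g t) ⊤ with h | h
  · simp [h]
  have hi := intervalIntegral.integral_eq_sub_of_hasDerivAt (a := 0) (b := 1)
    (f := fun s : ℝ => f (x + s • v)) (f' := deriv fun s : ℝ => f (x + s • v))
    (fun t ht => (hd t (by rwa [uIcc_of_le zero_le_one] at ht)).differentiableAt.hasDerivAt)
    ((intervalIntegrable_iff_integrableOn_Icc_of_le zero_le_one).2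
      ⟨(measurable_deriv _).aestronglyMeasurable, hb.trans_lt h.lt_top⟩)
  simp only [one_smul, zero_smul, add_zero] at hi
  rw [← hi, intervalIntegral.integral_of_le zero_le_one]
  exact (enorm_integral_le_lintegral_enorm _).trans
    ((lintegral_mono_set Ioc_subset_Icc_self).trans hb)

/-- One point of the ball serves all functions with the same bound of the gradient. -/
theorem pt39 {E : Type} [NormedAddCommGroup E] [NormedSpace ℝ E] [FiniteDimensional ℝ E]
    [MeasurableSpace E] [BorelSpace E] (μ : Measure E) [μ.IsAddHaarMeasure] (c : E) {r : ℝ}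
    (hr : 0 < r) {A η : ℝ≥0∞} (hA : A ≠ ⊤) (hη : η ≠ 0) : ∃ T : ℝ, 0 < T ∧ ∀ g : E → ℝ≥0∞,
      Measurable g → ∫⁻ y in ball c r, g y ∂μ ≤ A → ∃ p ∈ ball c r, ∃ Z : Set E,
        MeasurableSet Z ∧ μ Z ≤ η ∧ ∀ f : E → ℝ, (∀ y ∈ ball c r, DifferentiableAt ℝ f y) →
          (∀ y ∈ ball c r, ∀ ξ, ‖fderiv ℝ f y ξ‖ₑ ≤ g y * ‖ξ‖ₑ) →
          ∀ y ∈ ball c r, y ∉ Z → |f y - f p| ≤ T := by
  obtain ⟨C, hC⟩ := seg39 μ
  have hB : (C * A / η + 1 : ℝ≥0∞) ≠ ⊤ :=
    ENNReal.add_ne_top.2 ⟨ENNReal.div_ne_top (ENNReal.mul_ne_top ENNReal.coe_ne_top hA) hη, by simp⟩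
  have hB0 : (C * A / η + 1 : ℝ≥0∞) ≠ 0 := by simp
  set B : ℝ≥0∞ := C * A / η + 1 with eB
  refine ⟨B.toReal * (2 * r), mul_pos (ENNReal.toReal_pos hB0 hB) (by positivity),
    fun g hg hI => ?_⟩
  have m : Measurable fun p : E × E => ∫⁻ t in Icc (0 : ℝ) 1, g (p.1 + t • (p.2 - p.1)) :=
    Measurable.lintegral_prod_right' (f := fun q : (E × E) × ℝ => g (q.1.1 + q.2 • (q.1.2 - q.1.1)))
      (by fun_prop)
  have h1 := hC _ g measurableSet_ball (convex_ball c r) hg
  rw [← Measure.prod_restrict, lintegral_prod _ m.aemeasurable] at h1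
  have k0 : μ (ball c r) ≠ 0 := (measure_ball_pos μ c hr).ne'
  have k1 : μ (ball c r) ≠ ⊤ := measure_ball_lt_top.ne
  obtain ⟨p, hp, h2⟩ := exists_le_setLAverage k0 k1
    (m.lintegral_prod_right' (ν := μ.restrict (ball c r))).aemeasurable
  rw [setLAverage_eq] at h2
  have h3 : ∫⁻ y in ball c r, (∫⁻ t in Icc (0 : ℝ) 1, g (p + t • (y - p))) ∂μ ≤ C * A := by
    refine h2.trans (ENNReal.div_le_of_le_mul (h1.trans ?_))
    rw [mul_right_comm]
    gcongr
  have mp : Measurable fun y : E => ∫⁻ t in Icc (0 : ℝ) 1, g (p + t • (y - p)) :=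
    m.comp (measurable_const.prodMk measurable_id)
  have mZ : MeasurableSet {y : E | B ≤ ∫⁻ t in Icc (0 : ℝ) 1, g (p + t • (y - p))} :=
    measurableSet_le measurable_const mp
  refine ⟨p, hp, _ ∩ ball c r, mZ.inter measurableSet_ball, ?_, fun f hf hd y hy hZ => ?_⟩
  · rw [← Measure.restrict_apply mZ]
    refine (meas_ge_le_lintegral_div mp.aemeasurable hB0 hB).trans
      (ENNReal.div_le_of_le_mul' (h3.trans ?_))
    rcases eq_or_ne η ⊤ with h | h
    · rw [h, ENNReal.mul_top hB0]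
      exact le_top
    · calc _ = C * A / η * η := (ENNReal.div_mul_cancel hη h).symm
        _ ≤ _ := by gcongr; exact le_self_add
  · have s : ∀ t ∈ Icc (0 : ℝ) 1, p + t • (y - p) ∈ ball c r := fun t ht =>
      (convex_ball c r).add_smul_sub_mem hp hy ht
    have h4 := oscD39 (g := fun t => g (p + t • (y - p)) * ‖y - p‖ₑ) (fun t ht => hf _ (s t ht))
      fun t ht => hd _ (s t ht) _
    have h5 : ‖y - p‖ ≤ 2 * r := by
      rw [← dist_eq_norm]
      linarith [dist_triangle_right y p c, mem_ball.1 hy, mem_ball.1 hp]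
    rw [lintegral_mul_const' _ _ enorm_ne_top, add_sub_cancel] at h4
    have h6 : ‖f y - f p‖ₑ ≤ B * ENNReal.ofReal (2 * r) := by
      refine h4.trans (mul_le_mul' (not_le.1 fun h => hZ ⟨h, hy⟩).le ?_)
      rw [← ofReal_norm]
      exact ENNReal.ofReal_le_ofReal h5
    have h7 := ENNReal.toReal_mono (ENNReal.mul_ne_top hB ENNReal.ofReal_ne_top) h6
    rwa [toReal_enorm, ENNReal.toReal_mul, ENNReal.toReal_ofReal (by positivity),
      Real.norm_eq_abs] at h7

end Pool.Agent.Lib.F4G
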