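import Pool.Agent.Lib.F4G.BlueM
import Pool.Agent.Lib.F4G.Pt39

/-! Project f4g, step five: the base point. -/

open scoped Topology ENNReal NNReal
open Set Filter MeasureTheory Metric

noncomputable section

namespace Pool.Agent.Lib.F4G

open Pool.Agent.Lib.SV (E)

theorem st_MPT : St_MPT := by
  intro n c r hr
  obtain ⟨C, hC⟩ := seg39 (volume : Measure (E n))
  refine ⟨C * (2 * r).toNNReal, fun g hg => ?_⟩
  have m : Measurable fun p : E n × E n => ∫⁻ t in Icc (0 : ℝ) 1, g (p.1 + t • (p.2 - p.1)) :=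
    Measurable.lintegral_prod_right'
      (f := fun q : (E n × E n) × ℝ => g (q.1.1 + q.2 • (q.1.2 - q.1.1))) (by fun_prop)
  have h1 := hC _ g measurableSet_ball (convex_ball c r) hg
  rw [← Measure.prod_restrict, lintegral_prod _ m.aemeasurable] at h1
  have k0 : volume (ball c r) ≠ 0 := (measure_ball_pos volume c hr).ne'
  have k1 : volume (ball c r) ≠ ⊤ := measure_ball_lt_top.ne
  obtain ⟨p, hp, h2⟩ := exists_le_setLAverage k0 k1
    (m.lintegral_prod_right' (ν := volume.restrict (ball c r))).aemeasurable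
  rw [setLAverage_eq] at h2
  have h3 : ∫⁻ y in ball c r, (∫⁻ t in Icc (0 : ℝ) 1, g (p + t • (y - p))) ≤
      C * ∫⁻ y in ball c r, g y := by
    refine h2.trans (ENNReal.div_le_of_le_mul (h1.trans_eq ?_))
    rw [mul_right_comm]
  refine ⟨p, hp, fun f hf => ?_⟩
  calc _ ≤ ∫⁻ y in ball c r, ENNReal.ofReal (2 * r) *
          ∫⁻ t in Icc (0 : ℝ) 1, g (p + t • (y - p)) := by
        refine setLIntegral_mono' measurableSet_ball fun y hy => ?_
        have s : ∀ t ∈ Icc (0 : ℝ) 1, p + t • (y - p) ∈ ball c r := fun t ht =>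
          (convex_ball c r).add_smul_sub_mem hp hy ht
        have h4 := oscD39 (g := fun t => g (p + t • (y - p)) * ‖y - p‖ₑ)
          (fun t ht => (hf _ (s t ht)).1) fun t ht => (hf _ (s t ht)).2 _
        have h5 : ‖y - p‖ ≤ 2 * r := by
          rw [← dist_eq_norm]
          linarith [dist_triangle_right y p c, mem_ball.1 hy, mem_ball.1 hp]
        rw [lintegral_mul_const' _ _ enorm_ne_top, add_sub_cancel, mul_comm] at h4
        refine h4.trans (mul_le_mul_left ?_ _)
        rw [← ofReal_norm]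
        exact ENNReal.ofReal_le_ofReal h5
    _ ≤ _ := by
        rw [lintegral_const_mul' _ _ ENNReal.ofReal_ne_top, ENNReal.coe_mul, mul_comm (C : ℝ≥0∞),
          mul_assoc]
        exact mul_le_mul_right h3 _

end Pool.Agent.Lib.F4G
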