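import Pool.Agent.Lib.F4G.BlueM
import Pool.Agent.Lib.F4G.Flow62

/-! Project f4g, row MTU: finitely many tubes. -/

open scoped Classical Topology ENNReal NNReal
open Set Filter MeasureTheory Metric

noncomputable section

namespace Pool.Agent.Lib.F4G

open Pool.Agent.Lib.SV (E)

/-- A holomorphic function is open at a regular point. -/
theorem mtu_open {n : ℕ} {U : Set (E n)} {W : E n → ℂ} (hU : IsOpen U)
    (hW : DifferentiableOn ℂ W U) {x : E n} (hx : x ∈ U) (h0 : fderiv ℂ W x ≠ 0)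
    {Q : Set (E n)} (hQ : Q ∈ 𝓝 x) : W '' Q ∈ 𝓝 (W x) := by
  obtain ⟨ξ, hξ⟩ : ∃ ξ, fderiv ℂ W x ξ ≠ 0 := by
    by_contra h
    push Not at h
    exact h0 (ContinuousLinearMap.ext h)
  set γ : ℂ → E n := fun t => x + t • ξ with hγ
  have hγd : Differentiable ℂ γ := by
    intro t
    exact (differentiableAt_const x).add (differentiableAt_id.smul_const ξ)
  have hγ0 : γ 0 = x := by simp [hγ]
  have hO : IsOpen (γ ⁻¹' U) := hU.preimage hγd.continuous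
  have h0O : (0 : ℂ) ∈ γ ⁻¹' U := by simpa [hγ0] using hx
  have hg : DifferentiableOn ℂ (W ∘ γ) (γ ⁻¹' U) :=
    hW.comp hγd.differentiableOn (fun _ h => h)
  have hga : AnalyticAt ℂ (W ∘ γ) 0 := hg.analyticAt (hO.mem_nhds h0O)
  have hWx : HasFDerivAt W (fderiv ℂ W x) (γ 0) := by
    rw [hγ0]
    exact (hW.differentiableAt (hU.mem_nhds hx)).hasFDerivAt
  have hγ' : HasDerivAt γ ξ 0 := by
    have h1 := ((hasDerivAt_id (0 : ℂ)).smul_const ξ).const_add x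
    simpa [hγ] using h1
  have hd : HasDerivAt (W ∘ γ) (fderiv ℂ W x ξ) 0 := hWx.comp_hasDerivAt 0 hγ'
  have hs : HasStrictDerivAt (W ∘ γ) (fderiv ℂ W x ξ) 0 := by
    have h1 := hga.hasStrictDerivAt
    rwa [hd.deriv] at h1
  have hm := hs.map_nhds_eq hξ
  have hQ' : γ ⁻¹' Q ∈ 𝓝 (0 : ℂ) := hγd.continuous.continuousAt.preimage_mem_nhds (hγ0 ▸ hQ)
  have h2 : (W ∘ γ) '' (γ ⁻¹' Q) ∈ 𝓝 ((W ∘ γ) 0) := by
    rw [← hm]
    exact image_mem_map hQ'
  have h3 : (W ∘ γ) 0 = W x := by simp [hγ0]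
  rw [h3] at h2
  refine mem_of_superset h2 ?_
  rintro _ ⟨t, ht, rfl⟩
  exact ⟨γ t, ht, rfl⟩

/-- The row from the lower bound for the image of the volume near a regular point. -/
theorem st_MTU_of (hlo : ∀ (n : ℕ) (W : E n → ℂ) (x : E n),
    (∀ᶠ y in 𝓝 x, DifferentiableAt ℂ W y) → fderiv ℂ W x ≠ 0 → ∀ N ∈ 𝓝 x,
      ∃ d : ℝ, 0 < d ∧ ∃ C : ℝ≥0, ∀ χ : ℂ → ℝ≥0∞, Measurable χ →
        ∫⁻ w in ball (W x) d, χ w ≤ C * ∫⁻ y in N, χ (W y)) : St_MTU := by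
  intro n U W ρ N hU hW hreg hN
  have key : ∀ x : E n, ∃ (D : Set ℂ) (C : ℝ≥0), x ∈ U → fderiv ℂ W x ≠ 0 →
      IsOpen D ∧ W x ∈ D ∧ D ⊆ W '' (U ∩ interior (N x)) ∧
        ∀ χ : ℂ → ℝ≥0∞, Measurable χ → ∫⁻ w in D, χ w ≤ C * ∫⁻ y in U ∩ N x, χ (W y) := by
    intro x
    by_cases hx : x ∈ U ∧ fderiv ℂ W x ≠ 0
    · obtain ⟨hxU, hx0⟩ := hx
      have hev : ∀ᶠ y in 𝓝 x, DifferentiableAt ℂ W y := by
        filter_upwards [hU.mem_nhds hxU] with y hy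
        exact hW.differentiableAt (hU.mem_nhds hy)
      obtain ⟨d, hd, C, hC⟩ := hlo n W x hev hx0 (U ∩ N x)
        (inter_mem (hU.mem_nhds hxU) (hN x hxU hx0))
      have him : W '' (U ∩ interior (N x)) ∈ 𝓝 (W x) :=
        mtu_open hU hW hxU hx0
          (inter_mem (hU.mem_nhds hxU) (interior_mem_nhds.2 (hN x hxU hx0)))
      refine ⟨ball (W x) d ∩ interior (W '' (U ∩ interior (N x))), C, fun _ _ =>
        ⟨isOpen_ball.inter isOpen_interior, ⟨mem_ball_self hd, mem_interior_iff_mem_nhds.2 him⟩,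
          fun w hw => interior_subset hw.2, fun χ hχ => ?_⟩⟩
      exact (lintegral_mono_set inter_subset_left).trans (hC χ hχ)
    · exact ⟨∅, 0, fun h1 h2 => absurd ⟨h1, h2⟩ hx⟩
  choose D C hD using key
  choose! p hpU hpW hp0 using hreg
  obtain ⟨t, ht, hcov⟩ := (isCompact_closedBall (0 : ℂ) ρ).elim_nhds_subcover
    (fun w => D (p w)) (fun w hw => by
      obtain ⟨h1, h2, -, -⟩ := hD (p w) (hpU w hw) (hp0 w hw)
      rw [hpW w hw] at h2
      exact h1.mem_nhds h2)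
  refine ⟨t.image p, D, (t.image p).sup C, ?_, ?_⟩
  · intro w hw
    obtain ⟨u, hu, hwu⟩ := mem_iUnion₂.1 (hcov hw)
    exact mem_iUnion₂.2 ⟨p u, Finset.mem_image_of_mem p hu, hwu⟩
  · intro x hx
    obtain ⟨u, hu, rfl⟩ := Finset.mem_image.1 hx
    obtain ⟨h1, -, h3, h4⟩ := hD (p u) (hpU u (ht u hu)) (hp0 u (ht u hu))
    refine ⟨hpU u (ht u hu), hp0 u (ht u hu), h1, h3, fun χ hχ => (h4 χ hχ).trans ?_⟩
    have hle : C (p u) ≤ (t.image p).sup C := Finset.le_sup hx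
    gcongr

/-- Finitely many tubes. -/
theorem st_MTU : St_MTU := st_MTU_of fun _ _ _ hW h0 => pfLo62 hW h0

end Pool.Agent.Lib.F4G
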