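import Pool.Agent.Lib.F4G.G_MEAN
import Pool.Agent.Lib.F4G.M_MEA
import Pool.Agent.Lib.F4G.M_MFU
import Pool.Agent.Lib.F4G.M_MLE
import Pool.Agent.Lib.F4G.M_MPT
import Pool.Agent.Lib.F4G.M_MCO
import Pool.Agent.Lib.F4G.M_MTU
import Pool.Agent.Lib.F4G.M_MEX
import Pool.Agent.Lib.F4G.M_MGE
import Pool.Agent.Lib.F4G.M_MGO

/-! Project f4g: the cost of a link, without hypotheses. -/

namespace Pool.Agent.Lib.F4G

theorem st_MEAN : St_MEAN :=
  mean_of (st_MEA st_MFU st_MLE st_MPT (st_MCO st_MTU st_MEX st_MGE st_MHA)) st_MGO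

end Pool.Agent.Lib.F4G
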