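import Pool.Agent.Lib.F4.AllT
import Pool.Agent.Lib.F4.AllR
import Pool.Agent.Lib.F4.T_ADP

/-! Project f4g: the projective triple with a given first form. -/

open scoped Classical Topology ContDiff ComplexOrder Matrix
open Set Filter Metric MeasureTheory

set_option linter.unusedVariables false

noncomputable section

namespace Pool.Agent.Lib.F4G

open Pool.Agent.Lib.SV (E)
open Pool.Agent.Lib.HS32 Pool.Agent.Lib.F4

/-- A projective triple whose first form is `α`. -/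
def PrjA {n : ℕ} (M : Mf n) (α : M.Fam (E n)) : Prop := ∃ (ι : Type) (e : ι → M.Ch)
  (D : ι → Set (E n)) (be ga : ι → E n → E n) (c : ι → ι → E n → ℂ), (∀ a, e a ∈ M.C) ∧
  (∀ a, IsOpen (D a)) ∧ (∀ x, ∃ a, In (e a) (D a) x) ∧
  (∀ a x, In (e a) (D a) x → Tri (α (e a)) (be a) (ga a) (e a x)) ∧
  (∀ a b x, In (e a) (D a) x → In (e b) (D b) x →
    Gg (e a) (e b) (α (e a)) (be a) (ga a) (α (e b)) (be b) (ga b) (c a b) x) ∧
  ∀ a b d x, In (e a) (D a) x → In (e b) (D b) x → In (e d) (D d) x →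
    c a d (e d x) = c a b (e b x) / (M.J (e b) (e d) x).det + c b d (e d x)

open T6 in
theorem topA (n : ℕ) (M : Mf n) [M.Cpt] (H : M.Fam (Mat n)) (α : M.Fam (E n))
    (φ ψ : M.Fam ℝ) (s : ℝ) (hH : M.Met H) (hI : Inp M α φ ψ s)
    (z2 : ∀ T, H2 M (-1) T → Zr M T) (hS : ∀ ξ, Src M ξ → ∃ r, Sol M H ξ r) : PrjA M α := by
  choose e ρ G hρ hx hD using aDT n M α φ ψ s hI
  obtain ⟨r, hr⟩ := hS _
    (tSR aDT (tRH tCK) (tXB tCK) (tCL (R.st_CLO R.st_CAP)) tX1 n M α φ ψ s hI)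
  choose γ hγ using fun x =>
    tTH (tBE tCK) (tRH tCK) (tGA (tIB tCK)) n M H α φ ψ s r (e x) _ (G x) hH hI hr (hD x)
  have pt : ∀ a, ∀ z ∈ ball (e a a) (ρ a), Pt (α (e a)) (φ (e a)) (ψ (e a)) s z :=
    fun a z hz => hI.pt _ (hD a).mem z ((hD a).sub hz)
  have hb := fun a => tBE tCK n _ _ _ _ s (G a) isOpen_ball (pt a) (hD a).pr
  have ha : ∀ a, ∀ z ∈ ball (e a a) (ρ a), DifferentiableAt ℂ (α (e a)) z := fun a z hz =>
    differentiableAt_pi.2 fun k => ((pt a z hz).hol k).self_of_nhds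
  have cov : ∀ x, ∃ a, In (e a) (ball (e a a) (ρ a)) x := fun x =>
    ⟨x, hx x, mem_ball_self (hρ x)⟩
  have gg := fun a b => tGG (tBE tCK) tG1 n M H α φ ψ s r (e a) (e b) _ _ (G a) (G b) (γ a) (γ b)
    hH hI hr (hD a) (hD b) (hγ a) (hγ b)
  have c0 := tE0 tEL tGL n M M.X e (fun a => ball (e a a) (ρ a)) (fun a => α (e a))
    (fun a => be (α (e a)) (φ (e a)) (G a)) γ (fun a b => gc (e a) (e b) (G a) (G b)) z2
    (fun a => (hD a).mem) (fun a => isOpen_ball) (fun a => (hD a).sub) cov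
    (fun a => ⟨fun z hz => (ha a z hz).differentiableWithinAt, (hb a).1, (hγ a).hol,
      fun z hz => ⟨Matrix.ext fun j k => by
        have := (((hb a).2 z hz) j k).1
        simp only [d1, wg, Matrix.of_apply]
        linear_combination this, Matrix.ext fun j k => by
        have := (hγ a).eb z hz j k
        simp only [d1, wg, Matrix.of_apply]
        linear_combination this⟩⟩) gg
  refine ⟨M.X, e, fun a => ball (e a a) (ρ a),
    fun a => be (α (e a)) (φ (e a)) (G a), γ, fun a b => gc (e a) (e b) (G a) (G b),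
    fun a => (hD a).mem, fun a => isOpen_ball, cov, fun a x h => ?_, gg, fun a b d x h1 h2 h3 =>
      gc_co (hD a).mem (hD b).mem (hD d).mem h1.1 h2.1 h3.1 _ _ _⟩
  have nb := isOpen_ball.mem_nhds h.2
  refine ⟨ha a _ h.2, (hb a).1.differentiableAt nb, (hγ a).hol.differentiableAt nb,
    fun j k => ((hb a).2 _ h.2 j k).1, (hγ a).eb _ h.2, fun j k => ?_⟩
  have := congrFun (congrFun (c0 a _ h.2) j) k
  simp only [cv, d1, wg, Matrix.add_apply, Matrix.of_apply, Matrix.zero_apply] at this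
  linear_combination this

theorem prjA {M : Mf 4} [M.Cpt] {H S P : M.Fam (Mat 4)} {V W α : M.Fam (E 4)}
    {a : ℝ → M.X → ℝ} (hH : M.Kae H) (hO : ZK47.Out M H 0 a) (hD : Data M S P V W α)
    (hL : ∀ k, ∃ s φ ψ, Ld M k α s φ ψ) : PrjA M α := by
  obtain ⟨s, φ, ψ, h⟩ := hL 3
  obtain ⟨w, hA⟩ := R.aHV 4 M H a 1 (by norm_num) hH hO
  refine topA 4 M H α φ ψ s hH.toMet (ADP.inp h hD.hα hD.den)
    (hD.z2 _ (by norm_num) (by norm_num) (by norm_num)) fun ξ hξ => ?_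
  obtain ⟨r, hr⟩ := R.aSOL 4 M H _ _ ξ hH w (hA (hD.zL H)) (ADP.xi hξ) (ADP.cl hξ)
  refine ⟨r, .of_forall fun x e he e' he' hx hx' => ?_, hr.int, hr.eq⟩
  rw [← ADP.kan3 e e' x ((mTR 4 M).2.1 e he e' he' x hx hx').2.1]
  exact hr.law e he e' he' x hx hx'

end Pool.Agent.Lib.F4G
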