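import Pool.Agent.Lib.F4G.Dev
import Pool.Agent.Lib.F4G.DevA

/-! Project f4g: the local developing maps exist. -/

open scoped Classical Topology ContDiff Matrix MatrixGroups
open Set Filter Metric Complex

set_option linter.unusedVariables false

noncomputable section

namespace Pool.Agent.Lib.F4G

open Pool.Agent.Lib.SV (E)
open Pool.Agent.Lib.HS32 Pool.Agent.Lib.F4 Pool.Agent.Lib.F4.M7

namespace DevB

open scoped Matrix.Norms.Operator

variable {n : ℕ}

/-- Matrices from their entries. -/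
def ofL : (Fin 2 → Fin 2 → ℂ) →L[ℂ] Mat 2 :=
  LinearMap.toContinuousLinearMap (Matrix.ofLinearEquiv ℂ).toLinearMap

/-- An entry. -/
def enL (i j : Fin 2) : Mat 2 →L[ℂ] ℂ :=
  LinearMap.toContinuousLinearMap (Matrix.entryLinearMap ℂ ℂ i j)

theorem mat_d {A : E n → Mat 2} {z : E n} (h : ∀ i j, DifferentiableAt ℂ (A · i j) z) :
    DifferentiableAt ℂ A z ∧
      ∀ k, fderiv ℂ A z (Pi.single k 1) = Matrix.of fun i j => dz k (A · i j) z := by
  have a : DifferentiableAt ℂ A z :=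
    (ofL.differentiableAt.comp z (differentiableAt_pi.2 fun i => differentiableAt_pi.2 (h i)) :)
  refine ⟨a, fun k => Matrix.ext fun i j => ?_⟩
  rw [Matrix.of_apply, (mHOL n _ z).2.1 (h i j)]
  exact (congrArg (fun D : E n →L[ℂ] ℂ => D (Pi.single k 1))
    ((enL i j).hasFDerivAt.comp z a.hasFDerivAt).fderiv).symm

/-- The connection. -/
def l2 (al be ga : E n → E n) (k : Fin n) (z : E n) : Mat 2 :=
  !![be z k * 2⁻¹, ga z k * 2⁻¹; al z k, -(be z k * 2⁻¹)]

/-- The gauge matrix. -/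
def g2 (h c : ℂ) : Mat 2 := !![h, h * c * 2⁻¹; 0, h⁻¹]

theorem fl2 {al be ga : E n → E n} {z : E n} (h : Tri al be ga z) : Fl (l2 al be ga) z := by
  have a := differentiableAt_pi.1 h.da
  have b := differentiableAt_pi.1 h.db
  have c := differentiableAt_pi.1 h.dg
  have d : ∀ k, _ := fun k => mat_d (A := l2 al be ga k) (z := z) fun i j => by
    fin_cases i <;> fin_cases j <;> simp only [l2] <;> simp <;> fun_prop
  have e1 : ∀ (f : E n → E n) (j k), DifferentiableAt ℂ (f · k) z →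
      dz j (fun w => f w k * 2⁻¹) z = dz j (f · k) z * 2⁻¹ := fun f j k hf => by
    rw [dz_fd (hf.hasFDerivAt.mul_const _), dz_fd hf.hasFDerivAt]
    simp [mul_comm]
  refine ⟨fun k => (d k).1, fun j k => ?_⟩
  erw [(d k).2, (d j).2]
  ext p q
  have := h.ea j k
  have := h.eb j k
  have := h.eg j k
  fin_cases p <;> fin_cases q <;> simp [l2, dz_neg, e1, b, c] <;> grind

theorem gau2 {M : Mf n} {e e' : M.Ch} {x : M.X} {al be ga al' be' ga' : E n → E n}
    {c h : E n → ℂ} (hG : Gg e e' al be ga al' be' ga' c x) (hh : DifferentiableAt ℂ h (e' x))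
    (h0 : h (e' x) ≠ 0) (h2 : ∀ᶠ w in 𝓝 (e' x), (jm (e ∘ e'.symm) w).det = h w * h w) :
    Gau e e' (l2 al be ga) (l2 al' be' ga') (fun w => g2 (h w) (c w)) x := by
  obtain ⟨hc, ea, eb, eg⟩ := hG
  have e9 : (M.J e e' x).det = h (e' x) * h (e' x) := h2.self_of_nhds
  have e8 : ∀ k, dz k (fun w => (jm (e ∘ e'.symm) w).det) (e' x) =
      2 * h (e' x) * dz k h (e' x) := fun k => by
    rw [dz_congr h2, dz_mul (hh.restrictScalars ℝ) (hh.restrictScalars ℝ)]
    ring
  simp only [e8] at eb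
  rw [e9] at ea eb eg
  have i0 : DifferentiableAt ℂ (fun w => (h w)⁻¹) (e' x) := hh.fun_inv h0
  have d := mat_d (A := fun w => g2 (h w) (c w)) (z := e' x) fun i j => by
    fin_cases i <;> fin_cases j <;> simp only [g2] <;> simp <;> fun_prop
  have e1 : ∀ j, dz j (fun w => h w * c w * 2⁻¹) (e' x) = (h (e' x) * dz j c (e' x) +
      c (e' x) * dz j h (e' x)) * 2⁻¹ := fun j => by
    rw [dz_fd ((hh.hasFDerivAt.fun_mul hc.hasFDerivAt).mul_const _), dz_fd hh.hasFDerivAt,
      dz_fd hc.hasFDerivAt]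
    simp
    ring
  have e3 : ∀ j, dz j (fun w => (h w)⁻¹) (e' x) = -dz j h (e' x) / h (e' x) ^ 2 := fun j => by
    refine (dz_fd ((hasDerivAt_inv h0).comp_hasFDerivAt (e' x) hh.hasFDerivAt) j).trans ?_
    rw [dz_fd hh.hasFDerivAt]
    simp
    ring
  refine ⟨d.1, (Matrix.isUnit_iff_isUnit_det _).2 (Ne.isUnit ?_), fun k => ?_⟩
  · simp [g2, Matrix.det_fin_two, h0]
  · have s1 : ∑ j, M.J e e' x j k • l2 al be ga j (e x) = !![(be (e x) ᵥ* M.J e e' x) k * 2⁻¹,
        (ga (e x) ᵥ* M.J e e' x) k * 2⁻¹; (al (e x) ᵥ* M.J e e' x) k,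
        -((be (e x) ᵥ* M.J e e' x) k * 2⁻¹)] := by
      ext p q
      fin_cases p <;> fin_cases q <;>
        simp [l2, Matrix.sum_apply, Matrix.vecMul, dotProduct, mul_comm, Finset.mul_sum,
          mul_left_comm]
    have q1 := congrFun ea k
    have q2 := eb k
    have q3 := eg k
    rw [Pi.smul_apply, smul_eq_mul] at q1
    rw [s1]
    generalize (be (e x) ᵥ* M.J e e' x) k = B at *
    generalize (ga (e x) ᵥ* M.J e e' x) k = C at *
    generalize (al (e x) ᵥ* M.J e e' x) k = A at *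
    erw [d.2]
    ext p q
    fin_cases p <;> fin_cases q <;>
      simp [l2, g2, Matrix.mul_apply, Fin.sum_univ_two, e1, e3] <;>
      simp only [q3, q2, q1] <;> field_simp <;> ring

theorem par_en {al be ga : E n → E n} {T : E n → Mat 2} {z : E n} (h : Par (l2 al be ga) T z)
    (i j : Fin 2) : DifferentiableAt ℂ (T · i j) z ∧
      ∀ k, dz k (T · i j) z = (T z * l2 al be ga k z) i j := by
  have d := fun i j => (enL i j).differentiableAt.comp z h.d
  exact ⟨d i j, fun k => (congrFun (congrFun ((mat_d d).2 k) i) j).symm.trans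
    (congrFun (congrFun (h.e k) i) j)⟩

theorem frame2 {al be ga : E n → E n} {x : E n} (h : ∀ᶠ z in 𝓝 x, Tri al be ga z) :
    ∃ T : E n → Mat 2, T x = 1 ∧ ∀ᶠ z in 𝓝 x, Par (l2 al be ga) T z ∧ (T z).det = 1 := by
  obtain ⟨T, hT⟩ := frameK (h.mono fun z => fl2)
  have a : ∀ᶠ z in 𝓝 x, Par (l2 al be ga) (fun w => Ring.inverse (T x) * T w) z :=
    hT.mono fun z hz => ⟨hz.1.d.const_mul _, fun k => by
      rw [(hz.1.d.hasFDerivAt.const_mul _).fderiv, mul_assoc, ← hz.1.e k]
      rfl⟩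
  have b : (fun w => Ring.inverse (T x) * T w) x = 1 :=
    Ring.inverse_mul_cancel _ hT.self_of_nhds.2
  generalize (fun w => Ring.inverse (T x) * T w) = U at a b
  have c := const_of_par (𝔸 := ℂ) (l := fun _ _ => 0) (P := fun w => (U w).det) (Q := fun _ => 1)
    (x := x) (a.mono fun z hz => by
      have d := fun i j => (par_en hz i j).1
      have d' := fun i j => (d i j).restrictScalars ℝ
      have e : (fun w => (U w).det) = fun w => U w 0 0 * U w 1 1 - U w 0 1 * U w 1 0 :=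
        funext fun w => Matrix.det_fin_two _
      have f := ((d 0 0).fun_mul (d 1 1)).fun_sub ((d 0 1).fun_mul (d 1 0))
      refine ⟨e ▸ ⟨f, fun k => ?_⟩, ⟨differentiableAt_const _, fun k => by simp⟩, isUnit_one⟩
      rw [← (mHOL n _ z).2.1 f, dz_sub ((d' 0 0).fun_mul (d' 1 1)) ((d' 0 1).fun_mul (d' 1 0)),
        dz_mul (d' 0 0) (d' 1 1), dz_mul (d' 0 1) (d' 1 0)]
      simp [(par_en hz _ _).2, l2, Matrix.mul_apply, Fin.sum_univ_two]
      ring)
  exact ⟨U, b, (a.and c).mono fun z hz => ⟨hz.1, by simpa [b] using hz.2⟩⟩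

/-- A square root. -/
def rt (g : ℂ) : ℂ := exp (log g / 2)

theorem rt_sq {g : ℂ} (h : g ≠ 0) : rt g * rt g = g := by
  rw [rt, ← exp_add, add_halves, exp_log h]

theorem g2_neg (h c : ℂ) : g2 (-h) c = -g2 h c := by
  ext p q
  fin_cases p <;> fin_cases q <;> simp [g2, inv_neg]

theorem g2_mul {h h' : ℂ} (c c' : ℂ) (h0 : h ≠ 0) (h0' : h' ≠ 0) :
    g2 h c * g2 h' c' = g2 (h * h') (c / (h' * h') + c') := by
  ext p q
  fin_cases p <;> fin_cases q <;> simp [g2, Matrix.mul_apply, Fin.sum_univ_two] <;> field_simp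
  ring

theorem g2_det {h : ℂ} (c : ℂ) (h0 : h ≠ 0) : (g2 h c).det = 1 := by
  simp [g2, Matrix.det_fin_two, h0]

theorem dev {M : Mf n} {α : M.Fam (E n)} (h : PrjA M α) : Nonempty (Dev M α) := by
  obtain ⟨ι, e, D, be, ga, c, he, hD, hc, h1, h2, h3⟩ := h
  have T := (mTR n M).2.1
  choose a ha using hc
  have k1 : ∀ x, ∃ (O : Set M.X) (F : E n → Mat 2), (IsOpen O ∧ x ∈ O) ∧ F (e (a x) x) = 1 ∧
      ∀ z ∈ O, In (e (a x)) (D (a x)) z ∧ F (e (a x) z) 0 0 ≠ 0 ∧
        Par (l2 (α (e (a x))) (be (a x)) (ga (a x))) F (e (a x) z) ∧ (F (e (a x) z)).det = 1 := by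
    intro x
    have s1 := (ha x).1
    have o : IsOpen {y | In (e (a x)) (D (a x)) y} := (e (a x)).isOpen_inter_preimage (hD _)
    obtain ⟨F, f1, f2⟩ := frame2 (al := α (e (a x))) (be := be (a x)) (ga := ga (a x))
      (x := e (a x) x) (by
      filter_upwards [(e (a x)).open_target.eventually_mem ((e (a x)).map_source s1),
        ((e (a x)).continuousAt_symm ((e (a x)).map_source s1)).eventually
        (o.eventually_mem (by rw [(e (a x)).left_inv s1]; exact ha x))] with w h1' h2'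
      exact (e (a x)).right_inv h1' ▸ h1 _ _ h2')
    have f3 : ∀ᶠ w in 𝓝 (e (a x) x), F w 0 0 ≠ 0 :=
      (par_en f2.self_of_nhds.1 0 0).1.continuousAt.eventually_ne (by simp [f1])
    obtain ⟨O, hO, o1, o2⟩ := _root_.eventually_nhds_iff.1 ((o.eventually_mem (ha x)).and
      (((e (a x)).continuousAt s1).eventually (f3.and f2)))
    exact ⟨O, F, ⟨o1, o2⟩, f1, hO⟩
  choose O F hO f1 hF using k1
  have j0 : ∀ x y z, z ∈ O x → z ∈ O y → (M.J (e (a x)) (e (a y)) z).det ≠ 0 :=
    fun x y z hx hy => (T _ (he _) _ (he _) z (hF x z hx).1.1 (hF y z hy).1.1).2.1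
  have r0 : ∀ g, rt g ≠ 0 := fun g => exp_ne_zero _
  have u : ∀ x, ∀ z ∈ O x, IsUnit (F x (e (a x) z)) := fun x z hz =>
    (Matrix.isUnit_iff_isUnit_det _).2 ((hF x z hz).2.2.2 ▸ isUnit_one)
  set m : M.X → M.X → M.X → Mat 2 := fun x y z => F x (e (a x) z) *
    g2 (rt (M.J (e (a x)) (e (a y)) z).det) (c (a x) (a y) (e (a y) z)) *
      Ring.inverse (F y (e (a y) z)) with hm
  have m0 : ∀ x y z, z ∈ O y → m x y z * F y (e (a y) z) = F x (e (a x) z) *
      g2 (rt (M.J (e (a x)) (e (a y)) z).det) (c (a x) (a y) (e (a y) z)) := fun x y z hy =>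
    Ring.inverse_mul_cancel_right _ _ (u y z hy)
  have m1 : ∀ x y z, z ∈ O x → z ∈ O y → (m x y z).det = 1 := fun x y z hx hy => by
    have := congrArg Matrix.det (m0 x y z hy)
    simpa only [Matrix.det_mul, (hF x z hx).2.2.2, (hF y z hy).2.2.2, g2_det _ (r0 _),
      mul_one] using this
  set c' : M.X → M.X → M.X → SL(2, ℂ) := fun x y z =>
    if h : (m x y z).det = 1 then ⟨m x y z, h⟩ else 1 with hc'
  have hv : ∀ x y z, z ∈ O x → z ∈ O y → (c' x y z).1 = m x y z := fun x y z hx hy => by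
    simp only [hc', dif_pos (m1 x y z hx hy)]
  refine ⟨⟨fun x => e (a x), O, fun x w => F x w 0 0, fun x w => F x w 1 0, c', fun x => he _,
    fun x => (hO x).1, fun x => (hO x).2, fun x z hz => (hF x z hz).1.1, fun x z hz =>
      ⟨(par_en (hF x z hz).2.2.1 0 0).1, (par_en (hF x z hz).2.2.1 1 0).1, (hF x z hz).2.1⟩,
    fun x => by simp [f1], fun x z hz k => ?_, fun x y z hx hy => ⟨rt _, by
      rw [sq, rt_sq (j0 x y z hx hy)], ?_⟩, fun x y z hx hy => ?_, fun x y d z hx hy hd => ?_⟩⟩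
  · have d := (hF x z hz).2.2.2
    rw [Matrix.det_fin_two] at d
    simp only [(par_en (hF x z hz).2.2.1 _ _).2, l2, Matrix.mul_apply, Fin.sum_univ_two]
    simp
    linear_combination (-α (e (a x)) (e (a x) z) k) * d
  · rw [hv x y z hx hy]
    ext i
    have := congrFun (congrFun (m0 x y z hy) i) 0
    fin_cases i <;>
      simpa [g2, Matrix.mul_apply, Matrix.mulVec, dotProduct, mul_comm] using this.symm
  · have s1 := (hF y z hy).1.1
    have t1 := (T _ (he _) _ (he _) z (hF x z hx).1.1 s1).1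
    have t2 := (mCHN n _ _ t1).2.2.2.2.1
    have g0 := j0 x y z hx hy
    set g : E n → ℂ := fun w => (jm (e (a x) ∘ (e (a y)).symm) w).det with hg
    have e9 : ∀ w, (M.J (e (a x)) (e (a y)) w).det = g (e (a y) w) := fun w => rfl
    simp only [e9] at g0
    set h : E n → ℂ := fun w => rt (g (e (a y) z)) * exp (log (g w / g (e (a y) z)) / 2) with hh
    have n1 : ∀ᶠ w in 𝓝 (e (a y) z), DifferentiableAt ℂ h w ∧ g w = h w * h w := by
      filter_upwards [t2, (t2.self_of_nhds.continuousAt.div_const (g (e (a y) z))).eventually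
        (isOpen_slitPlane.mem_nhds (by simp [g0]))] with w h1 h2
      have h2' : g w / g (e (a y) z) ∈ slitPlane := h2
      have h1' : DifferentiableAt ℂ g w := h1
      have h5 : DifferentiableAt ℂ (fun w => log (g w / g (e (a y) z))) w :=
        DifferentiableAt.clog (f := fun w => g w / g (e (a y) z))
          (h1'.mul_const (g (e (a y) z))⁻¹) h2'
      have h6 := (h5.mul_const 2⁻¹).cexp.const_mul (rt (g (e (a y) z)))
      refine ⟨h6, ?_⟩
      rw [mul_mul_mul_comm, rt_sq g0, ← exp_add, add_halves, exp_log (slitPlane_ne_zero h2),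
        mul_div_cancel₀ _ g0]
    have hz : h (e (a y) z) = rt (g (e (a y) z)) := by simp [hh, g0]
    have m1' : ∀ᶠ w in 𝓝 z, w ∈ O x ∧ w ∈ O y := ((hO x).1.inter (hO y).1).mem_nhds ⟨hx, hy⟩
    have m2 := ((e (a y)).continuousAt_symm ((e (a y)).map_source s1)).eventually
      (((e (a y)).left_inv s1).symm ▸ m1')
    have m3 := const_of_par (l := l2 (α (e (a y))) (be (a y)) (ga (a y))) (Q := F y)
      (x := e (a y) z) (P := fun w => F x (e (a x) ((e (a y)).symm w)) *
        g2 (h w) (c (a x) (a y) w)) (by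
        filter_upwards [m2, (e (a y)).open_target.eventually_mem ((e (a y)).map_source s1),
          n1.eventually_nhds] with w hw ht hn
        rw [← (e (a y)).right_inv ht] at hn
        have q1 := par_gau (he _) (he _) (hF x _ hw.1).1.1 (hF y _ hw.2).1.1
          (gau2 (h2 _ _ _ (hF x _ hw.1).1 (hF y _ hw.2).1) hn.self_of_nhds.1
            (mul_ne_zero (r0 _) (exp_ne_zero _)) (hn.mono fun _ h => h.2)) (hF x _ hw.1).2.2.1
        have q2 := (hF y _ hw.2).2.2.1
        have q3 := u y _ hw.2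
        rw [(e (a y)).right_inv ht] at q1 q2 q3
        exact ⟨q1, q2, q3⟩)
    filter_upwards [m1', ((e (a y)).continuousAt s1).eventually (m3.and n1)] with w hw h3
    have h4 := h3.1
    simp only [(e (a y)).left_inv s1, (e (a y)).left_inv (hF y _ hw.2).1.1, hz] at h4
    refine (mul_self_eq_mul_self_iff.1 ((rt_sq (j0 x y w hw.1 hw.2)).trans h3.2.2)).imp
      (fun q => Subtype.ext ?_) fun q => Subtype.ext ?_
    · rw [hv _ _ _ hw.1 hw.2, hv _ _ _ hx hy]
      simp only [hm]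
      rw [q]
      exact h4
    · rw [Matrix.SpecialLinearGroup.coe_neg, hv _ _ _ hw.1 hw.2, hv _ _ _ hx hy]
      simp only [hm]
      rw [q, g2_neg, mul_neg, neg_mul]
      exact congrArg Neg.neg h4
  · have e1 : m x y z * m y d z = F x (e (a x) z) * g2 (rt (M.J (e (a x)) (e (a y)) z).det *
        rt (M.J (e (a y)) (e (a d)) z).det) (c (a x) (a d) (e (a d) z)) *
          Ring.inverse (F d (e (a d) z)) := by
      rw [h3 _ _ _ z (hF x z hx).1 (hF y z hy).1 (hF d z hd).1, ← rt_sq (j0 y d z hy hd)]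
      simp only [hm, mul_assoc]
      rw [Ring.inverse_mul_cancel_left _ _ (u y z hy), ← mul_assoc (g2 _ _),
        g2_mul _ _ (r0 _) (r0 _), rt_sq (j0 y d z hy hd)]
    have e2 : rt (M.J (e (a x)) (e (a y)) z).det * rt (M.J (e (a y)) (e (a d)) z).det *
        (rt (M.J (e (a x)) (e (a y)) z).det * rt (M.J (e (a y)) (e (a d)) z).det) =
        rt (M.J (e (a x)) (e (a d)) z).det * rt (M.J (e (a x)) (e (a d)) z).det := by
      rw [mul_mul_mul_comm, rt_sq (j0 x y z hx hy), rt_sq (j0 y d z hy hd),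
        rt_sq (j0 x d z hx hd), ← Matrix.det_mul, ← (T _ (he _) _ (he _) z (hF x z hx).1.1
          (hF y z hy).1.1).2.2.2.2 _ (he _) (hF d z hd).1.1]
    refine (mul_self_eq_mul_self_iff.1 e2).imp (fun q => Subtype.ext ?_) fun q => Subtype.ext ?_
    · rw [Matrix.SpecialLinearGroup.coe_mul, hv _ _ _ hx hy, hv _ _ _ hy hd, hv _ _ _ hx hd, e1, q]
    · rw [Matrix.SpecialLinearGroup.coe_mul, Matrix.SpecialLinearGroup.coe_neg, hv _ _ _ hx hy,
        hv _ _ _ hy hd, hv _ _ _ hx hd, e1, q, g2_neg, mul_neg, neg_mul]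

end DevB

theorem aDEV {M : Mf 4} [M.Cpt] {H S P : M.Fam (Mat 4)} {V W α : M.Fam (E 4)}
    {a : ℝ → M.X → ℝ} (hH : M.Kae H) (hO : ZK47.Out M H 0 a) (hD : Data M S P V W α)
    (hL : ∀ k, ∃ s φ ψ, Ld M k α s φ ψ) : Nonempty (Dev M α) := DevB.dev (prjA hH hO hD hL)

end Pool.Agent.Lib.F4G
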