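import Pool.Agent.Lib.F4G.Blue
import Pool.Agent.Lib.F4G.DevB
import Pool.Agent.Lib.F4.O_REM

/-! Project f4g, rows OUT and DEV: the outer layer. -/

open scoped Classical Topology ContDiff ComplexOrder Matrix Manifold
open Set Filter

noncomputable section

namespace Pool.Agent.Lib.F4G

open Pool.Agent.Lib.SV (E Pluri)
open Pool.Agent.Lib.HS32 Pool.Agent.Lib.GH Pool.Agent.Lib.F4
open Pool.Agent.Lib.HS.BBR (mf)

theorem st_DEV : St_DEV := fun _ _ _ _ _ _ _ _ _ hH hO hD hL => aDEV hH hO hD hL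

theorem f4g_of (hM : St_MN) (hK : St_KBM) (hF : St_FH) (hV : St_VW) (hZ : St_Z0)
    (hE : K3E.St_MER) : St_F4G := by
  intro X _ _ _ _ _ _ G hG hN h1 ⟨σ, s1, s2⟩
  have : (mf 4 X).Cpt := ⟨‹_›, ‹_›, ‹_›⟩
  refine or_iff_not_imp_right.2 fun hD => by_contra fun hP => ?_
  have hH := HW.kae hG
  have hN' := HW.nef hG hN
  have no : ¬Plu (mf 4 X) := fun ⟨m, m0, t, t1, t2⟩ =>
    hP ⟨m, m0, (hE 4 X).2 m t t1 (by_contra fun c => t2 fun e he z hz =>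
      by_contra fun d => c ⟨e, he, z, hz, d⟩)⟩
  have q0 : ∀ ρ, H1 (mf 4 X) 0 ρ → Zr (mf 4 X) ρ := fun ρ h => by_contra fun c =>
    (G72.t1 (a := 0) h c).elim fun t ht => ht.2.1 (h1 t ht.1)
  obtain ⟨x₀⟩ : Nonempty X := inferInstance
  obtain ⟨r1, r2, r3⟩ := st_REM X hD
  obtain ⟨S, V, W, a1, a2, a3, a4, a5⟩ := hV _ _ hH
    (by_contra fun c => no (hK 4 _ _ four_pos hH hN' c)) q0 (hF 4 X _ 2 2 rfl σ s1 s2)
    (hF 4 X _ 0 4 rfl (fun _ => AlternatingMap.constOfIsEmpty ℂ _ _ 1) (fun x v => by simp)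
      fun c => one_ne_zero (α := ℂ) (congrArg (fun β => β x₀ 0) c))
  exact no (hM _ _ S V W hH hN' ⟨hZ 4 _ _ hH.toMet (fun ε hε =>
    (hN' ε hε.1).imp fun w hw => ⟨hw.1, fun e he z hz => by
      simpa [Mf.gE] using (hw.2 e he z hz).posSemidef⟩)
    (fun m m0 t t1 => by_contra fun c => no ⟨m, m0, t, t1, c⟩), q0, r1, r2, r3⟩ a1 a2 a3 a4 a5)

end Pool.Agent.Lib.F4G
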