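import Pool.Agent.Lib.F4G.GrpPG

namespace Pool.Agent.Lib.F4G.G78

open Matrix
open scoped MatrixGroups LinearAlgebra.Projectivization

theorem ext_hom {G Q : Type} [Group G] [Group Q] (H : Subgroup G) (r : H →* Q) :
    ∃ ρ : G → Q, (∀ x : H, ρ x = r x) ∧ ∀ g, ∀ h ∈ H, ρ (g * h) = ρ g * ρ h := by
  classical
  have hm : ∀ g : G, (Quotient.out (QuotientGroup.mk g : G ⧸ H))⁻¹ * g ∈ H := fun g =>
    QuotientGroup.eq.1 (Quotient.out_eq (QuotientGroup.mk g : G ⧸ H))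
  refine ⟨fun g => if h : g ∈ H then r ⟨g, h⟩ else r ⟨_, hm g⟩, fun x => dif_pos x.2,
    fun g h hh => ?_⟩
  by_cases hg : g ∈ H
  · simp only [dif_pos hg, dif_pos hh, dif_pos (H.mul_mem hg hh)]
    exact map_mul r ⟨g, hg⟩ ⟨h, hh⟩
  · have h1 : g * h ∉ H := fun h1 => hg ((H.mul_mem_cancel_right hh).1 h1)
    simp only [dif_neg hg, dif_pos hh, dif_neg h1]
    rw [← map_mul]
    refine congrArg r (Subtype.ext ?_)
    change (Quotient.out (QuotientGroup.mk (g * h) : G ⧸ H))⁻¹ * (g * h) =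
      (Quotient.out (QuotientGroup.mk g : G ⧸ H))⁻¹ * g * h
    rw [QuotientGroup.mk_mul_of_mem g hh, mul_assoc]

theorem quo (S : Finset (Matrix.ProjectiveSpecialLinearGroup (Fin 2) ℂ))
    (Γ : Subgroup (Matrix.ProjectiveSpecialLinearGroup (Fin 2) ℂ))
    (hS : Γ ≤ Subgroup.closure (S : Set (Matrix.ProjectiveSpecialLinearGroup (Fin 2) ℂ)))
    (h : ∀ v : ℙ ℂ (Fin 2 → ℂ),
      ¬ ((fun γ : Matrix.ProjectiveSpecialLinearGroup (Fin 2) ℂ => γ • v) '' Γ).Finite) (N : ℕ) :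
    ∃ T : Fin N → Matrix.ProjectiveSpecialLinearGroup (Fin 2) ℂ, (∀ i, T i ∈ Γ) ∧ ∀ k : ℕ,
      ∃ (Q : Type) (_ : Group Q) (_ : Fintype Q)
        (ρ : Matrix.ProjectiveSpecialLinearGroup (Fin 2) ℂ → Q), ρ 1 = 1 ∧
        (∀ g, ∀ h ∈ Subgroup.closure (S : Set (Matrix.ProjectiveSpecialLinearGroup (Fin 2) ℂ)),
          ρ (g * h) = ρ g * ρ h) ∧ ∀ w w' : Fin k → Fin N,
        (List.ofFn ((ρ ∘ T) ∘ w)).prod = (List.ofFn ((ρ ∘ T) ∘ w')).prod → w = w' := by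
  obtain ⟨T, hT, hk⟩ := st_GRPP S Γ hS (fun v hv hf => h (Projectivization.mk ℂ v hv) (by
    refine Set.Finite.of_finite_image (f := Projectivization.submodule) (hf.subset ?_)
      Projectivization.submodule_injective.injOn
    rintro _ ⟨_, ⟨g, hg, rfl⟩, rfl⟩
    refine ⟨g, hg, ?_⟩
    have e : g • Projectivization.mk ℂ v hv =
        (Quotient.out g : SL(2, ℂ)) • Projectivization.mk ℂ v hv := by
      rw [← Matrix.ProjectiveSpecialLinearGroup.smul_proj_mk]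
      exact congrArg (· • Projectivization.mk ℂ v hv) (Quotient.out_eq g).symm
    simp only [e]
    rw [Projectivization.smul_mk, Projectivization.submodule_mk]
    rfl)) N
  refine ⟨T, hT, fun k => ?_⟩
  obtain ⟨Q, i1, i2, r, hr⟩ := hk k
  obtain ⟨ρ, h1, h2⟩ := ext_hom _ r
  refine ⟨Q, i1, Fintype.ofFinite Q, ρ, (h1 1).trans (map_one r), h2, fun w w' e => ?_⟩
  let T' : Fin N → Subgroup.closure (S : Set (Matrix.ProjectiveSpecialLinearGroup (Fin 2) ℂ)) :=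
    fun i => ⟨T i, hS (hT i)⟩
  have h3 : ρ ∘ T = r ∘ T' := funext fun i => h1 (T' i)
  have h4 : ∀ w : Fin k → Fin N, ((List.ofFn (T' ∘ w)).prod).1 = (List.ofFn (T ∘ w)).prod :=
    fun w => by
      rw [Subgroup.val_list_prod, List.map_ofFn]
      rfl
  have h5 : ∀ w : Fin k → Fin N,
      r (List.ofFn (T' ∘ w)).prod = (List.ofFn ((ρ ∘ T) ∘ w)).prod := fun w => by
    rw [map_list_prod, List.map_ofFn, h3]
    rfl
  exact hr w w' _ _ (h4 w) (h4 w') (by rw [h5, h5, e])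

end Pool.Agent.Lib.F4G.G78
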