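import Pool.Agent.Lib.F4G.Blue
import Pool.Agent.Lib.F4G.GrpQ

namespace Pool.Agent.Lib.F4G

theorem st_QUO : St_QUO := fun S Γ hS h N => G78.quo S Γ hS h N

end Pool.Agent.Lib.F4G
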