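import Pool.Agent.Lib.HS32.MBlue

/-! Project f4g, step (4): functions with bounded gradient on the finite coverings. -/

open scoped Classical Topology ContDiff ComplexOrder Matrix
open Set Filter

noncomputable section

namespace Pool.Agent.Lib.F4G

open Pool.Agent.Lib.SV (E)
open Pool.Agent.Lib.HS32

/-- For a metric with Ricci curvature at least `-1` and a locally constant cocycle with at most
`m` values in a finite group there are compatible functions on the sheets, with a universal bound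
for the gradient, and bounds for the sums over the fibres and for the value at the base point
that do not depend on the group. -/
def St_GRD : Prop := ∀ n : ℕ, ∃ κ : ℝ, 0 ≤ κ ∧ ∀ (M : Mf n) [M.Cpt] (G : M.Fam (Mat n)), 0 < n →
  M.Kae G → M.Le (-G) (M.ric G) → ∀ (ι : Type) [Fintype ι] (O : ι → Set M.X) (m : ℕ),
  (∀ a, IsOpen (O a)) → (∀ x, ∃ a, x ∈ O a) → ∃ C : ℝ,
  ∀ (Q : Type) [Group Q] [Fintype Q] (S : Finset Q) (c : ι → ι → M.X → Q), S.card ≤ m →
  (∀ a b, ∀ x ∈ O a, x ∈ O b → c a b x ∈ S ∧ (∀ᶠ y in 𝓝 x, c a b y = c a b x) ∧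
    ∀ d, x ∈ O d → c a b x * c b d x = c a d x) →
  ∀ a₀, ∀ x₀ ∈ O a₀, ∃ f : ι → Q → M.X → ℝ, -C ≤ f a₀ 1 x₀ ∧ ∀ a, ∀ x ∈ O a,
    ∑ t, Real.exp (f a t x) ≤ C ∧ (∀ b t, x ∈ O b → f b (t * c a b x) x = f a t x) ∧
    ∀ t, ∀ e ∈ M.C, x ∈ e.source → ContDiffAt ℝ ∞ (f a t ∘ e.symm) (e x) ∧
      ∀ ξ, fderiv ℝ (f a t ∘ e.symm) (e x) ξ ^ 2 ≤ κ * nq (G e (e x)) ξ

end Pool.Agent.Lib.F4G
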