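import Pool.Agent.Lib.F4G.Cov9a
import Pool.Agent.Lib.KP21.E21

/-! Project f4g: the finite cover of a locally constant cocycle; the resolvent on families. -/

open scoped Classical Topology ContDiff ComplexOrder Matrix
open Set Filter Metric

set_option linter.unusedVariables false

noncomputable section

namespace Pool.Agent.Lib.F4G.C9

open Pool.Agent.Lib.SV (E)
open Pool.Agent.Lib.HS32

/-- A locally constant cocycle on an open cover. -/
structure Coc {X ι Q : Type} [TopologicalSpace X] [Group Q] (O : ι → Set X)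
    (c : ι → ι → X → Q) : Prop where
  opn : ∀ a, IsOpen (O a)
  cov : ∀ x, ∃ a, x ∈ O a
  lc : ∀ a b x, x ∈ O a → x ∈ O b → ∀ᶠ y in 𝓝 x, c a b y = c a b x
  mul : ∀ a b d x, x ∈ O a → x ∈ O b → x ∈ O d → c a b x * c b d x = c a d x

/-- The total space, with its fibre coordinates and its local sections. -/
structure Tot {X ι Q T : Type} [TopologicalSpace X] [TopologicalSpace T] [Group Q] (O : ι → Set X)
    (c : ι → ι → X → Q) (p : T → X) (k : ι → T → Q) (σ : ι → Q → X → T) : Prop where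
  t2 : T2Space T
  cpt : CompactSpace T
  lh : IsLocalHomeomorph p
  ps : ∀ a t x, p (σ a t x) = x
  ks : ∀ a t x, x ∈ O a → k a (σ a t x) = t
  sk : ∀ a y, p y ∈ O a → σ a (k a y) (p y) = y
  lc : ∀ a y, p y ∈ O a → ∀ᶠ y' in 𝓝 y, k a y' = k a y
  cs : ∀ a t x, x ∈ O a → ContinuousAt (σ a t) x
  tr : ∀ a b y, p y ∈ O a → p y ∈ O b → k b y = k a y * c a b (p y)

theorem Coc.self {X ι Q : Type} [TopologicalSpace X] [Group Q] {O : ι → Set X}
    {c : ι → ι → X → Q} (h : Coc O c) (a : ι) (x : X) (hx : x ∈ O a) : c a a x = 1 :=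
  mul_left_cancel ((h.mul a a a x hx hx hx).trans (mul_one _).symm)

theorem top9 {X ι Q : Type} [TopologicalSpace X] [T2Space X] [CompactSpace X] [Group Q] [Finite Q]
    {O : ι → Set X} {c : ι → ι → X → Q} (h : Coc O c) : ∃ (T : Type) (_ : TopologicalSpace T)
    (p : T → X) (k : ι → T → Q) (σ : ι → Q → X → T), Tot O c p k σ := by
  let _ : TopologicalSpace Q := ⊥
  have : DiscreteTopology Q := ⟨rfl⟩
  choose ix hix using h.cov
  let Z : FiberBundleCore ι X Q :=
    { baseSet := O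
      isOpen_baseSet := h.opn
      indexAt := ix
      mem_baseSet_at := hix
      coordChange := fun a b x t => t * c a b x
      coordChange_self := fun a x hx t => by rw [h.self a x hx, mul_one]
      continuousOn_coordChange := fun a b q hq => by
        have h1 : ∀ᶠ r : X × Q in 𝓝 q, c a b r.1 = c a b q.1 :=
          continuous_fst.continuousAt.eventually (h.lc a b q.1 hq.1.1 hq.1.2)
        have h2 : ∀ᶠ r : X × Q in 𝓝 q, r.2 = q.2 :=
          continuous_snd.continuousAt.eventually (p := fun t => t = q.2) (by simp)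
        refine (continuousAt_const.congr (f := fun _ => q.2 * c a b q.1) ?_).continuousWithinAt
        filter_upwards [h1, h2] with r a1 a2
        rw [a1, a2]
      coordChange_comp := fun a b d x hx t => by
        rw [mul_assoc, h.mul a b d x hx.1.1 hx.1.2 hx.2] }
  have hc : IsCoveringMap Z.proj := .mk _ (fun _ => Q) (fun x => Z.localTriv (ix x)) hix
  have cs : ∀ a (t : Q) x, x ∈ O a →
      ContinuousAt (fun x => (Z.localTriv a).toOpenPartialHomeomorph.symm (x, t)) x :=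
    fun a t x hx => ContinuousAt.comp (f := fun x : X => (x, t))
      ((Z.localTriv a).toOpenPartialHomeomorph.continuousAt_symm
        ((Z.mem_localTriv_target a _).2 hx)) (by fun_prop)
  have sk : ∀ a (y : Z.TotalSpace), Z.proj y ∈ O a →
      (Z.localTriv a).toOpenPartialHomeomorph.symm (Z.proj y, (Z.localTriv a y).2) = y :=
    fun a y hy => (Z.localTriv a).toOpenPartialHomeomorph.left_inv hy
  refine ⟨Z.TotalSpace, inferInstance, Z.proj, fun a y => (Z.localTriv a y).2,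
    fun a t x => (Z.localTriv a).toOpenPartialHomeomorph.symm (x, t), ⟨fun y y' hy => ?_⟩, ⟨?_⟩,
    hc.isLocalHomeomorph, fun _ _ _ => rfl, fun a t x hx => ?_, sk, fun a y hy => ?_, cs,
    fun a b y ha hb => ?_⟩
  · by_cases e : Z.proj y = Z.proj y'
    · exact hc.isSeparatedMap y y' e hy
    · exact separated_by_continuous hc.continuous e
  · have h1 : ∀ x, ∃ K ∈ 𝓝 x, K ⊆ O (ix x) ∧ IsCompact K := fun x =>
      local_compact_nhds ((h.opn _).mem_nhds (hix x))
    choose K k1 k2 k3 using h1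
    obtain ⟨s, -, hs⟩ := isCompact_univ.elim_nhds_subcover K fun x _ => k1 x
    have h2 : IsCompact (⋃ x ∈ s, ⋃ t : Q,
        (fun x' => (Z.localTriv (ix x)).toOpenPartialHomeomorph.symm (x', t)) '' K x) :=
      s.isCompact_biUnion fun x _ => isCompact_iUnion fun t => (k3 x).image_of_continuousOn
        fun x' hx' => (cs _ t x' (k2 x hx')).continuousWithinAt
    refine h2.of_isClosed_subset isClosed_univ fun y _ => ?_
    obtain ⟨x, hx, hy⟩ := mem_iUnion₂.1 (hs (mem_univ (Z.proj y)))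
    exact mem_iUnion₂.2 ⟨x, hx, mem_iUnion.2 ⟨_, _, hy, sk _ y (k2 x hy)⟩⟩
  · exact congrArg Prod.snd ((Z.localTriv a).toOpenPartialHomeomorph.right_inv
      (x := (x, t)) ((Z.mem_localTriv_target a _).2 hx))
  · have h1 : ContinuousAt (fun y => (Z.localTriv a y).2) y :=
      continuous_snd.continuousAt.comp ((Z.localTriv a).toOpenPartialHomeomorph.continuousAt hy)
    exact h1.eventually (p := fun t => t = (Z.localTriv a y).2) (by simp)
  · exact (Z.coordChange_comp _ a b _ ⟨⟨hix _, ha⟩, hb⟩ _).symm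

variable {n : ℕ} {M : Mf n} {ι Q : Type} [Group Q] {O : ι → Set M.X} {c : ι → ι → M.X → Q}

theorem cc_open {T : Type} [TopologicalSpace T] {p : T → M.X} (hp : IsLocalHomeomorph p) (y : T) :
    IsOpen (connectedComponent y) := by
  refine isOpen_iff_mem_nhds.2 fun y' hy' => ?_
  obtain ⟨S, h1, h2⟩ := ex_pre (M := pull M p hp) y'
  refine mem_of_superset h1 ?_
  rw [connectedComponent_eq hy']
  exact h2.subset_connectedComponent (mem_of_mem_nhds h1)

theorem cc_lh {T : Type} [TopologicalSpace T] {p : T → M.X} (hp : IsLocalHomeomorph p) (y : T) :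
    IsLocalHomeomorph fun z : connectedComponent y => p z.1 :=
  hp.comp (cc_open hp y).isOpenEmbedding_subtypeVal.isLocalHomeomorph

theorem cc_cpt {T : Type} [TopologicalSpace T] [T2Space T] [CompactSpace T] {p : T → M.X}
    (hp : IsLocalHomeomorph p) (y : T) : (pull M _ (cc_lh hp y)).Cpt where
  t2 := inferInstanceAs (T2Space (connectedComponent y))
  cpt := isCompact_iff_compactSpace.1 isClosed_connectedComponent.isCompact
  con := Subtype.connectedSpace isConnected_connectedComponent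

/-- A connected component of the cover. -/
structure Cv {N : Mf n} (O : ι → Set M.X) (c : ι → ι → M.X → Q) (p : N.X → M.X)
    (k : ι → N.X → Q) : Prop where
  et : Et p
  lc : ∀ a y, p y ∈ O a → ∀ᶠ y' in 𝓝 y, k a y' = k a y
  tr : ∀ a b y, p y ∈ O a → p y ∈ O b → k b y = k a y * c a b (p y)
  inj : ∀ a y y', p y = p y' → p y ∈ O a → k a y = k a y' → y = y'
  sec : ∀ a y, p y ∈ O a → ∃ s : M.X → N.X, s (p y) = y ∧ ContinuousAt s (p y) ∧
    ∀ᶠ x in 𝓝 (p y), p (s x) = x ∧ k a (s x) = k a y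

theorem cc_cv {T : Type} [TopologicalSpace T] {p : T → M.X} {k : ι → T → Q}
    {σ : ι → Q → M.X → T} (h : Coc O c) (t : Tot O c p k σ) (y0 : T) :
    Cv (N := pull M _ (cc_lh t.lh y0)) O c (fun z : connectedComponent y0 => p z.1)
      fun a (z : connectedComponent y0) => k a z.1 where
  et := pull_et _
  lc a y hy := continuous_subtype_val.continuousAt.eventually (t.lc a y.1 hy)
  tr a b y ha hb := t.tr a b y.1 ha hb
  inj a y y' h1 h2 h3 := by
    refine Subtype.ext ?_
    have h4 : p y.1 = p y'.1 := h1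
    have h5 : k a y.1 = k a y'.1 := h3
    rw [← t.sk a y.1 h2, h5, h4, t.sk a y'.1 (h4 ▸ h2)]
  sec a y hy := by
    have h1 := t.cs a (k a y.1) _ hy
    have h2 : ∀ᶠ x in 𝓝 (p y.1), σ a (k a y.1) x ∈ connectedComponent y0 :=
      h1.eventually ((cc_open t.lh y0).mem_nhds (by rw [t.sk a y.1 hy]; exact y.2))
    let s : M.X → connectedComponent y0 := fun x =>
      if h : σ a (k a y.1) x ∈ connectedComponent y0 then ⟨_, h⟩ else y
    have h3 : ∀ᶠ x in 𝓝 (p y.1), (s x).1 = σ a (k a y.1) x :=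
      h2.mono fun x hx => congrArg Subtype.val (dif_pos hx)
    refine ⟨s, Subtype.ext (h3.self_of_nhds.trans (t.sk a y.1 hy)), ?_, ?_⟩
    · exact Topology.IsInducing.subtypeVal.continuousAt_iff.2 (h1.congr (EventuallyEq.symm h3))
    · filter_upwards [h3, (h.opn a).mem_nhds hy] with x a1 a2
      exact ⟨(congrArg p a1).trans (t.ps _ _ _), (congrArg (k a) a1).trans (t.ks _ _ _ a2)⟩

/-- The finite cover through a given vertex. -/
theorem cov9 [M.Cpt] [Finite Q] (h : Coc O c) (a0 : ι) (t0 : Q) (x0 : M.X) (h0 : x0 ∈ O a0) :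
    ∃ (N : Mf n) (_ : N.Cpt) (p : N.X → M.X) (k : ι → N.X → Q) (y0 : N.X),
      Cv O c p k ∧ p y0 = x0 ∧ k a0 y0 = t0 := by
  obtain ⟨T, _, p, k, σ, t⟩ := top9 h
  have := t.t2
  have := t.cpt
  exact ⟨_, cc_cpt t.lh (σ a0 t0 x0), _, _, ⟨_, mem_connectedComponent⟩, cc_cv h t _, t.ps _ _ _,
    t.ks _ _ _ h0⟩

/-! ### Families -/

/-- A compatible family of smooth functions. -/
structure Cp (O : ι → Set M.X) (c : ι → ι → M.X → Q) (u : ι → Q → M.X → ℝ) : Prop where
  sm : ∀ a t x, x ∈ O a → SmAt M (u a t) x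
  tr : ∀ a b t x, x ∈ O a → x ∈ O b → u b (t * c a b x) x = u a t x

theorem chart_ev {f g : M.X → ℝ} {x : M.X} (h : f =ᶠ[𝓝 x] g) {e : M.Ch} (hx : x ∈ e.source) :
    f ∘ e.symm =ᶠ[𝓝 (e x)] g ∘ e.symm :=
  (e.continuousAt_symm (e.map_source hx)).eventually (p := fun y => f y = g y)
    (by rw [e.left_inv hx]; exact h)

theorem SmAt.congr {f g : M.X → ℝ} {x : M.X} (hf : SmAt M f x) (h : g =ᶠ[𝓝 x] f) : SmAt M g x :=
  fun e he hx => (hf e he hx).congr_of_eventuallyEq (chart_ev h hx)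

theorem lap_congr (G : M.Fam (Mat n)) {f g : M.X → ℝ} {x : M.X} (h : f =ᶠ[𝓝 x] g) :
    M.lap G f x = M.lap G g x := by
  have h1 : M.lc f (M.ch x) =ᶠ[𝓝 (M.ch x x)] M.lc g (M.ch x) :=
    (chart_ev h (Mf.mem_ch x)).mono fun w hw => congrArg Complex.ofReal hw
  show (_ * hess (M.lc f (M.ch x)) (M.ch x x)).trace.re =
    (_ * hess (M.lc g (M.ch x)) (M.ch x x)).trace.re
  rw [hess_congr h1]

theorem gr_congr (G : M.Fam (Mat n)) {f g f' g' : M.X → ℝ} {x : M.X} (h : f =ᶠ[𝓝 x] f')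
    (h' : g =ᶠ[𝓝 x] g') : M.gr G f g x = M.gr G f' g' x := by
  have h1 : M.lc f (M.ch x) =ᶠ[𝓝 (M.ch x x)] M.lc f' (M.ch x) :=
    (chart_ev h (Mf.mem_ch x)).mono fun w hw => congrArg Complex.ofReal hw
  have h2 : M.lc g (M.ch x) =ᶠ[𝓝 (M.ch x x)] M.lc g' (M.ch x) :=
    (chart_ev h' (Mf.mem_ch x)).mono fun w hw => congrArg Complex.ofReal hw
  show (_ * dd (M.lc f (M.ch x)) (M.lc g (M.ch x)) (M.ch x x)).trace.re =
    (_ * dd (M.lc f' (M.ch x)) (M.lc g' (M.ch x)) (M.ch x x)).trace.re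
  rw [dd_congr h1 h2]

/-- A compatible family is a function on every space over `M` with fibre coordinates. -/
theorem lift0 {T : Type} [TopologicalSpace T] {p : T → M.X} {k : ι → T → Q} (h : Coc O c)
    (hp : Continuous p) (lc : ∀ a y, p y ∈ O a → ∀ᶠ y' in 𝓝 y, k a y' = k a y)
    (tr : ∀ a b y, p y ∈ O a → p y ∈ O b → k b y = k a y * c a b (p y)) {u : ι → Q → M.X → ℝ}
    (hu : Cp O c u) : ∃ U : T → ℝ, ∀ a y, p y ∈ O a → ∀ᶠ y' in 𝓝 y, U y' = u a (k a y) (p y') := by
  choose ix hix using h.cov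
  refine ⟨fun y => u (ix (p y)) (k (ix (p y)) y) (p y), fun a y hy => ?_⟩
  filter_upwards [lc a y hy, hp.continuousAt.eventually ((h.opn a).mem_nhds hy)] with y' a1 a2
  rw [← a1, tr _ a y' (hix _) a2, hu.tr _ a _ _ (hix _) a2]

theorem Cv.lift {N : Mf n} {p : N.X → M.X} {k : ι → N.X → Q} (v : Cv O c p k) (h : Coc O c)
    {u : ι → Q → M.X → ℝ} (hu : Cp O c u) : ∃ U : N.X → ℝ, N.Sm U ∧
      ∀ a y, p y ∈ O a → ∀ᶠ y' in 𝓝 y, U y' = u a (k a y) (p y') := by
  obtain ⟨U, hU⟩ := lift0 h v.et.ct v.lc v.tr hu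
  refine ⟨U, sm_iff.2 fun y => ?_, hU⟩
  obtain ⟨a, ha⟩ := h.cov (p y)
  exact (pull_sm v.et (hU a y ha)).2 (hu.sm a _ _ ha)

/-- The resolvent on compatible families. -/
theorem res9 [M.Cpt] [Finite Q] (h : Coc O c) {G : M.Fam (Mat n)} (hG : M.Met G) {r : ℝ}
    (hr : 0 < r) {u : ι → Q → M.X → ℝ} (hu : Cp O c u) : ∃ w, Cp O c w ∧
      ∀ a t x, x ∈ O a → r * w a t x - M.lap G (w a t) x = u a t x := by
  obtain ⟨T, _, p, k, σ, t⟩ := top9 h
  have := t.t2
  have := t.cpt
  have sol : ∀ C : Set T, ∃ W : T → ℝ, ∀ y0, C = connectedComponent y0 → ∀ y ∈ C, ∀ a,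
      p y ∈ O a → SmAt M (fun x => W (σ a (k a y) x)) (p y) ∧
        r * W y - M.lap G (fun x => W (σ a (k a y) x)) (p y) = u a (k a y) (p y) := by
    intro C
    by_cases hC : ∃ y0, C = connectedComponent y0
    swap
    · exact ⟨0, fun y0 h0 => (hC ⟨y0, h0⟩).elim⟩
    obtain ⟨y0, rfl⟩ := hC
    have := cc_cpt t.lh y0
    have v := cc_cv h t y0
    obtain ⟨U, u1, u2⟩ := v.lift h hu
    obtain ⟨V, -⟩ := (mCOV n (pull M _ (cc_lh t.lh y0))).2.2.1
    obtain ⟨w, w1, w2⟩ := HS21.eLINR.ex _ V _ U r (pf_met v.et hG) u1 hr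
    let w' : connectedComponent y0 → ℝ := w
    refine ⟨fun y => if hy : y ∈ connectedComponent y0 then w' ⟨y, hy⟩ else 0,
      fun _ _ y hy a ha => ?_⟩
    have e1 : ∀ᶠ y' : connectedComponent y0 in 𝓝 ⟨y, hy⟩, w' y' =
        (fun x => if hy : σ a (k a y) x ∈ connectedComponent y0 then w' ⟨_, hy⟩ else 0) (p y'.1) := by
      filter_upwards [v.lc a ⟨y, hy⟩ ha, v.et.ct.continuousAt.eventually ((h.opn a).mem_nhds ha)]
        with y' a1 a2
      have a3 : σ a (k a y) (p y'.1) = y'.1 := by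
        have a4 : k a y'.1 = k a y := a1
        rw [← a4]
        exact t.sk a y'.1 a2
      simp only [a3, dif_pos y'.2]
    have e2 := (pull_sm v.et (g := w) (y := ⟨y, hy⟩) (u := fun x =>
      if hy : σ a (k a y) x ∈ connectedComponent y0 then w' ⟨_, hy⟩ else 0) e1).1 (sm_iff.1 w1 _)
    refine ⟨e2, ?_⟩
    have e3 := pull_lap v.et hG (g := w) (y := ⟨y, hy⟩) (u := fun x =>
      if hy : σ a (k a y) x ∈ connectedComponent y0 then w' ⟨_, hy⟩ else 0) e1 e2
    have e4 := w2 ⟨y, hy⟩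
    have e5 := (u2 a ⟨y, hy⟩ ha).self_of_nhds
    simp only [dif_pos hy]
    exact ((congrArg (fun s => r * w' ⟨y, hy⟩ - s) e3).symm.trans e4).trans e5
  choose F hF using sol
  have ev : ∀ a s x, x ∈ O a → (fun x' => F (connectedComponent (σ a s x')) (σ a s x')) =ᶠ[𝓝 x]
      fun x' => F (connectedComponent (σ a s x)) (σ a s x') := fun a s x hx =>
    ((t.cs a s x hx).eventually ((cc_open t.lh _).mem_nhds mem_connectedComponent)).mono
      fun x' hx' => by simp only [← connectedComponent_eq hx']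
  have sp : ∀ a s x, x ∈ O a →
      SmAt M (fun x' => F (connectedComponent (σ a s x)) (σ a s x')) x ∧
      r * F (connectedComponent (σ a s x)) (σ a s x) -
        M.lap G (fun x' => F (connectedComponent (σ a s x)) (σ a s x')) x = u a s x := by
    intro a s x hx
    have := hF _ (σ a s x) rfl _ mem_connectedComponent a (by rw [t.ps]; exact hx)
    rwa [t.ps, t.ks _ _ _ hx] at this
  refine ⟨fun a s x => F (connectedComponent (σ a s x)) (σ a s x), ⟨fun a s x hx =>
    (sp a s x hx).1.congr (ev a s x hx), fun a b s x ha hb => ?_⟩, fun a s x hx => ?_⟩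
  · have e1 := t.tr a b (σ a s x) (by rw [t.ps]; exact ha) (by rw [t.ps]; exact hb)
    have e2 := t.sk b (σ a s x) (by rw [t.ps]; exact hb)
    rw [e1, t.ps, t.ks _ _ _ ha] at e2
    simp only [e2]
  · rw [lap_congr G (ev a s x hx)]
    exact (sp a s x hx).2

end Pool.Agent.Lib.F4G.C9
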