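import Pool.Agent.Lib.HS32.MAll

/-! Project f4g: from the norm of the gradient to the derivative in a chart. -/

open scoped Classical Topology ContDiff ComplexOrder Matrix
open Set Filter Complex

noncomputable section

namespace Pool.Agent.Lib.F4G

open Pool.Agent.Lib.SV (E)
open Pool.Agent.Lib.HS32 Pool.Agent.Lib.HS32.Mf

namespace Fd29

variable {n : ℕ}

theorem cs {T : Mat n} (hT : T.PosDef) (u η : E n) :
    (u ⬝ᵥ η).re ^ 2 ≤ nq T⁻¹ (star u) * nq T η := by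
  have hu : IsUnit T.det := hT.det_pos.ne'.isUnit
  set a : E n := T⁻¹ *ᵥ star u with ha
  have h1 : T *ᵥ a = star u := by
    rw [ha, Matrix.mulVec_mulVec, Matrix.mul_nonsing_inv _ hu, Matrix.one_mulVec]
  have h2 : star a ᵥ* T = u := by
    have := congrArg star h1
    rwa [Matrix.star_mulVec, hT.1.eq, star_star] at this
  have h3 : nq T⁻¹ (star u) = (u ⬝ᵥ a).re := by rw [nq, star_star]
  have h4 : ∀ l : ℝ, 0 ≤ (u ⬝ᵥ a).re * (l * l) + (-2 * (u ⬝ᵥ η).re) * l + nq T η := fun l => by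
    have h5 := (Complex.nonneg_iff.1
      (hT.posSemidef.dotProduct_mulVec_nonneg (η - (l : ℂ) • a))).1
    have h6 : star η ⬝ᵥ star u = star (u ⬝ᵥ η) := by
      simp only [dotProduct, star_sum, star_mul, Pi.star_apply]
    have h7 : star a ⬝ᵥ T *ᵥ η = u ⬝ᵥ η := by rw [Matrix.dotProduct_mulVec, h2]
    have h8 : star a ⬝ᵥ star u = u ⬝ᵥ a := by rw [← h1, Matrix.dotProduct_mulVec, h2]
    rw [star_sub, star_smul, Matrix.mulVec_sub, Matrix.mulVec_smul, h1, sub_dotProduct,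
      dotProduct_sub, dotProduct_sub, dotProduct_smul, smul_dotProduct, smul_dotProduct,
      dotProduct_smul, h6, h7, h8] at h5
    simp only [smul_eq_mul, sub_re, star_def, conj_ofReal, re_ofReal_mul, conj_re] at h5
    unfold nq
    linarith
  have h9 := discrim_le_zero h4
  rw [discrim] at h9
  rw [h3]
  nlinarith

theorem loc {T : Mat n} (hT : T.PosDef) {F : E n → ℝ} {z : E n} (hF : DifferentiableAt ℝ F z)
    (η : E n) : fderiv ℝ F z η ^ 2 ≤
      4 * (T⁻¹ * dd (fun w => (F w : ℂ)) (fun w => (F w : ℂ)) z).trace.re * nq T η := by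
  have hF' : DifferentiableAt ℝ (fun w => (F w : ℂ)) z := ofRealCLM.differentiableAt.comp z hF
  set u : E n := fun j => dz j (fun w => (F w : ℂ)) z with hu
  have hb : ∀ j, dzb j (fun w => (F w : ℂ)) z = star (u j) := fun j => (star_dz_ofReal hF').symm
  have e2 : dd (fun w => (F w : ℂ)) (fun w => (F w : ℂ)) z =
      Matrix.of fun i j => star (u i) * u j := by
    ext i j
    simp only [dd, Matrix.of_apply, hb, hu]
  have e3 : (fderiv ℝ F z η : ℂ) = fderiv ℝ (fun w => (F w : ℂ)) z η := by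
    have := (ofRealCLM.hasFDerivAt.comp z hF.hasFDerivAt).fderiv
    exact (congrArg (fun L : E n →L[ℝ] ℂ => L η) this).symm
  have e4 : fderiv ℝ F z η = 2 * (u ⬝ᵥ η).re := by
    have := congrArg Complex.re e3
    rw [ofReal_re, fderiv_eq_sum, re_sum] at this
    rw [this, dotProduct, re_sum, Finset.mul_sum]
    refine Finset.sum_congr rfl fun j _ => ?_
    rw [hb, ← star_mul', add_re, star_def, conj_re]
    ring
  rw [e2, BBD.tr_dd, e4]
  nlinarith [cs hT u η]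

end Fd29

/-- The derivative in a chart is bounded by the norm of the gradient. -/
theorem fd29 {n : ℕ} {M : Mf n} {G : M.Fam (Mat n)} (hG : M.Met G) {e : M.Ch} (he : e ∈ M.C)
    {x : M.X} (hx : x ∈ e.source) {f : M.X → ℝ} (hf : ContDiffAt ℝ ∞ (f ∘ e.symm) (e x)) {k : ℝ}
    (hk : M.gr G f f x ≤ k) (ξ : E n) :
    fderiv ℝ (f ∘ e.symm) (e x) ξ ^ 2 ≤ 4 * k * nq (G e (e x)) ξ := by
  have h0 := ch_mem x
  have h0' := mem_ch x
  have hf0 := ((mTR n M).2.2.2.1 ℝ f).2.1 e he _ h0 x hx h0' hf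
  obtain ⟨t1, -, -, t4, -⟩ := (mTR n M).2.1 _ h0 e he x h0' hx
  have e0 : ((M.ch x) ∘ e.symm) (e x) = M.ch x x := by simp [e.left_inv hx]
  have e1 : f ∘ e.symm =ᶠ[𝓝 (e x)] (f ∘ (M.ch x).symm) ∘ ((M.ch x) ∘ e.symm) :=
    t4.mono fun w hw => by
      simp only [Function.comp_apply, hw.2.2.2.2.1]
  have d1 : DifferentiableAt ℂ ((M.ch x) ∘ e.symm) (e x) := t1.self_of_nhds
  have d2 : DifferentiableAt ℝ (f ∘ (M.ch x).symm) (M.ch x x) := cd_diff hf0
  have e2 : fderiv ℝ (f ∘ e.symm) (e x) ξ =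
      fderiv ℝ (f ∘ (M.ch x).symm) (M.ch x x) (M.J (M.ch x) e x *ᵥ ξ) := by
    rw [e1.fderiv_eq, fderiv_comp _ (e0.symm ▸ d2) (d1.restrictScalars ℝ), e0,
      d1.fderiv_restrictScalars ℝ, ContinuousLinearMap.comp_apply,
      ContinuousLinearMap.coe_restrictScalars', ((mCHN n _ _ t1).2.2.2.2.2.1 ξ)]
    rfl
  have e3 := hG.cmp _ h0 e he x h0' hx
  beta_reduce at e3
  rw [e2, e3, BBD.nq_conj]
  have hp := hG.ev_pos x
  have h1 := Fd29.loc hp d2 (M.J (M.ch x) e x *ᵥ ξ)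
  have h2 : 0 ≤ nq (M.ev G x) (M.J (M.ch x) e x *ᵥ ξ) :=
    (Complex.nonneg_iff.1 (hp.posSemidef.dotProduct_mulVec_nonneg _)).1
  exact h1.trans (mul_le_mul_of_nonneg_right (mul_le_mul_of_nonneg_left hk (by norm_num)) h2)

end Pool.Agent.Lib.F4G
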