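import Pool.Agent.Lib.HS32.MAll

/-! Project f4g: a partition of unity and the bounds for its positive combinations. -/

open scoped Classical Topology ContDiff
open Set Filter

set_option linter.unusedVariables false

noncomputable section

namespace Pool.Agent.Lib.F4G.U8

open Pool.Agent.Lib.SV (E)
open Pool.Agent.Lib.HS32

variable {n : ℕ} {M : Mf n} {G : M.Fam (Mat n)}

theorem pou [M.Cpt] (ι : Type) [Fintype ι] (O : ι → Set M.X) (hO : ∀ a, IsOpen (O a))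
    (hc : ∀ x, ∃ a, x ∈ O a) : ∃ χ : ι → M.X → ℝ, (∀ b, M.Sm (χ b)) ∧ (∀ b x, 0 ≤ χ b x) ∧
      (∀ x, ∑ b, χ b x = 1) ∧ ∀ b x, x ∉ O b → ∀ᶠ y in 𝓝 x, χ b y = 0 := by
  obtain ⟨K, hK, hKc, hKO⟩ := exists_iUnion_eq_closed_subset (u := O) hO
    (fun x => Set.toFinite _) (eq_univ_of_forall fun x => mem_iUnion.2 (hc x))
  have h := fun b => (mCOV n M).2.2.2.2.2 (K b) (O b) (hKc b) (hO b) (hKO b)
  choose ψ hs h01 h1 hsup using h
  have hpos : ∀ x, 0 < ∑ b, ψ b x := by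
    intro x
    obtain ⟨b, hb⟩ := mem_iUnion.1 (hK.symm ▸ mem_univ x : x ∈ ⋃ b, K b)
    have e1 : ψ b x = 1 := (h1 b).self_of_nhdsSet x hb
    exact Finset.sum_pos' (fun d _ => (h01 d x).1) ⟨b, Finset.mem_univ b, by rw [e1]; exact one_pos⟩
  refine ⟨fun b x => ψ b x / ∑ d, ψ d x, fun b => ?_, fun b x => ?_, fun x => ?_, fun b x hx => ?_⟩
  · exact (hs b).div (Mf.Sm.sum fun d _ => hs d) fun x => (hpos x).ne'
  · exact div_nonneg (h01 b x).1 (hpos x).le
  · rw [← Finset.sum_div, div_self (hpos x).ne']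
  · have : x ∉ tsupport (ψ b) := fun h => hx (hsup b h)
    filter_upwards [notMem_tsupport_iff_eventuallyEq.1 this] with y hy
    have e0 : ψ b y = 0 := hy
    rw [e0, zero_div]

theorem lap_sum (hG : M.Met G) {ι : Type} (s : Finset ι) (l : ι → ℝ) (f : ι → M.X → ℝ)
    (hf : ∀ a, M.Sm (f a)) (x : M.X) :
    M.lap G (fun y => ∑ a ∈ s, l a * f a y) x = ∑ a ∈ s, l a * M.lap G (f a) x := by
  induction s using Finset.induction_on with
  | empty =>
    simp only [Finset.sum_empty]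
    exact (((mLAP n M _ _ (M.sm_const (0 : ℝ)) (M.sm_const (0 : ℝ))).2.2 G hG).2.2.1 x 0).1
  | insert a s ha ih =>
    simp only [Finset.sum_insert ha]
    have h1 : M.Sm fun y => l a * f a y := (hf a).const_mul (l a)
    have h2 : M.Sm fun y => ∑ b ∈ s, l b * f b y := Mf.Sm.sum fun b _ => (hf b).const_mul (l b)
    rw [(((mLAP n M _ _ h1 h2).2.2 G hG).2.2.1 x 0).2.1, ih,
      (((mLAP n M _ _ (hf a) (hf a)).2.2 G hG).2.2.1 x (l a)).2.2.2.1]

theorem lap_zero (hG : M.Met G) {f : M.X → ℝ} (hf : M.Sm f) {x : M.X}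
    (h : ∀ᶠ y in 𝓝 x, f y = 0) : M.lap G f x = 0 := by
  have h0 := h.self_of_nhds
  have H := (((mLAP n M _ _ hf hf).2.2 G hG).2.2.1 x 0).2.2.2.2.2.2.2.2
  have h1 : IsLocalMax f x := h.mono fun y hy => by rw [hy, h0]
  have h2 : IsLocalMin f x := h.mono fun y hy => by rw [hy, h0]
  exact le_antisymm (H.1 h1).1 (H.2 h2).1

theorem abs_lap_sum (hG : M.Met G) {ι : Type} [Fintype ι] (l : ι → ℝ) (f : ι → M.X → ℝ)
    (hf : ∀ a, M.Sm (f a)) (x : M.X) (C L : ℝ) (hC : ∀ a, |M.lap G (f a) x| ≤ C) (hL : 0 ≤ L)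
    (hl : ∀ a, (0 ≤ l a ∧ l a ≤ L) ∨ ∀ᶠ y in 𝓝 x, f a y = 0) :
    |M.lap G (fun y => ∑ a, l a * f a y) x| ≤ Fintype.card ι * (L * C) := by
  rw [lap_sum hG _ l f hf]
  refine (Finset.abs_sum_le_sum_abs _ _).trans ?_
  have : ∀ a ∈ Finset.univ, |l a * M.lap G (f a) x| ≤ L * C := by
    intro a _
    have hC0 : 0 ≤ C := (abs_nonneg _).trans (hC a)
    rcases hl a with h | h
    · rw [abs_mul, abs_of_nonneg h.1]
      exact mul_le_mul h.2 (hC a) (abs_nonneg _) hL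
    · rw [lap_zero hG (hf a) h, mul_zero, abs_zero]
      exact mul_nonneg hL hC0
  refine (Finset.sum_le_card_nsmul _ _ _ this).trans (le_of_eq ?_)
  rw [nsmul_eq_mul, Finset.card_univ]

theorem gr_log (hG : M.Met G) {g : M.X → ℝ} (hg : M.Sm g) (h0 : ∀ y, 0 < g y) (x : M.X) :
    M.gr G (fun y => Real.log (g y)) (fun y => Real.log (g y)) x = M.gr G g g x / g x ^ 2 := by
  have hl : M.Sm fun y => Real.log (g y) := hg.log fun y => (h0 y).ne'
  have hφ : ∀ y, ContDiffAt ℝ ∞ Real.log (g y) := fun y => Real.contDiffAt_log.2 (h0 y).ne'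
  have a1 := (((mLAP n M _ _ hg hl).2.2 G hG).2.2.2.1 Real.log hφ x).2
  have a2 := (((mLAP n M _ _ hg hg).2.2 G hG).2.2.2.1 Real.log hφ x).2
  have a3 := (((mLAP n M _ _ hg hl).2.2 G hG).2.2.1 x 0).2.2.2.2.2.1
  rw [a1, a3, a2, Real.deriv_log]
  have := (h0 x).ne'
  field_simp

theorem bnd [M.Cpt] {ι : Type} [Fintype ι] (f : ι → M.X → ℝ) (hf : ∀ a, M.Sm (f a)) :
    ∃ C : ℝ, 0 ≤ C ∧ ∀ a x, |f a x| ≤ C := by
  choose C h0 hC using fun a => (hf a).exists_bound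
  refine ⟨∑ a, C a, Finset.sum_nonneg fun a _ => (h0 a).le, fun a x => (hC a x).trans ?_⟩
  exact Finset.single_le_sum (fun b _ => (h0 b).le) (Finset.mem_univ a)

end Pool.Agent.Lib.F4G.U8

namespace Pool.Agent.Lib.F4G

open Pool.Agent.Lib.SV (E)
open Pool.Agent.Lib.HS32 U8

/-- A partition of unity whose positive combinations with comparable coefficients have bounded
logarithmic derivatives. -/
theorem u08 (n : ℕ) (M : Mf n) [M.Cpt] (G : M.Fam (Mat n)) (hG : M.Met G) (ι : Type) [Fintype ι]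
    (O : ι → Set M.X) (hO : ∀ a, IsOpen (O a)) (hc : ∀ x, ∃ a, x ∈ O a) (R : ℝ) :
    ∃ (χ : ι → M.X → ℝ) (W B : ℝ), 0 ≤ W ∧ 0 ≤ B ∧ (∀ b, M.Sm (χ b)) ∧ (∀ b x, 0 ≤ χ b x) ∧
      (∀ x, ∑ b, χ b x = 1) ∧ (∀ b x, x ∉ O b → ∀ᶠ y in 𝓝 x, χ b y = 0) ∧
      ∀ (l : ι → ℝ), (∀ b, 0 < l b) → M.Sm (fun y => ∑ b, l b * χ b y) ∧
        (∀ y, 0 < ∑ b, l b * χ b y) ∧
        ∀ x, (∀ b d, x ∈ O b → x ∈ O d → l b ≤ R * l d) →
          (∀ b, x ∈ O b → l b ≤ R * ∑ d, l d * χ d x) ∧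
          M.gr G (fun y => ∑ b, l b * χ b y) (fun y => ∑ b, l b * χ b y) x ≤
            W * (∑ b, l b * χ b x) ^ 2 ∧
          M.gr G (fun y => Real.log (∑ b, l b * χ b y))
            (fun y => Real.log (∑ b, l b * χ b y)) x ≤ W ∧
          |M.lap G (fun y => ∑ b, l b * χ b y) x| ≤ B * ∑ b, l b * χ b x := by
  obtain ⟨χ, hs, h0, h1, hz⟩ := pou ι O hO hc
  have hs2 : ∀ p : ι × ι, M.Sm fun y => χ p.1 y * χ p.2 y := fun p => (hs p.1).mul (hs p.2)
  obtain ⟨C, hC0, hC⟩ := bnd (fun b => M.lap G (χ b))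
    fun b => ((mLAP n M _ _ (hs b) (hs b)).2.2 G hG).1
  obtain ⟨D, hD0, hD⟩ := bnd (fun p : ι × ι => M.lap G fun y => χ p.1 y * χ p.2 y)
    fun p => ((mLAP n M _ _ (hs2 p) (hs2 p)).2.2 G hG).1
  refine ⟨χ, Fintype.card (ι × ι) * (R ^ 2 * D) + Fintype.card ι * (|R| * C),
    Fintype.card ι * (|R| * C), by positivity, by positivity, hs, h0, h1, hz, fun l hl => ?_⟩
  have hg : M.Sm fun y => ∑ b, l b * χ b y := Mf.Sm.sum fun b _ => (hs b).const_mul (l b)
  have hp : ∀ y, 0 < ∑ b, l b * χ b y := by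
    intro y
    have : ∃ b ∈ Finset.univ, 0 < χ b y := by
      by_contra hn
      push Not at hn
      have : ∑ b, χ b y ≤ 0 := Finset.sum_nonpos hn
      rw [h1 y] at this
      exact absurd this (by norm_num)
    obtain ⟨b, hb, hb0⟩ := this
    exact Finset.sum_pos' (fun d _ => mul_nonneg (hl d).le (h0 d y)) ⟨b, hb, mul_pos (hl b) hb0⟩
  refine ⟨hg, hp, fun x hR => ?_⟩
  have hle : ∀ b, x ∈ O b → l b ≤ R * ∑ d, l d * χ d x := by
    intro b hb
    calc l b = ∑ d, l b * χ d x := by rw [← Finset.mul_sum, h1 x, mul_one]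
      _ ≤ ∑ d, R * (l d * χ d x) := by
        refine Finset.sum_le_sum fun d _ => ?_
        by_cases hd : x ∈ O d
        · rw [← mul_assoc]
          exact mul_le_mul_of_nonneg_right (hR b d hb hd) (h0 d x)
        · rw [(hz d x hd).self_of_nhds]; simp
      _ = _ := by rw [Finset.mul_sum]
  obtain ⟨g, hgd⟩ : ∃ g : M.X → ℝ, g = fun y => ∑ b, l b * χ b y := ⟨_, rfl⟩
  have hgx : ∀ y, ∑ b, l b * χ b y = g y := fun y => by rw [hgd]
  have hle' : ∀ b, x ∈ O b → l b ≤ |R| * g x := fun b hb => (hle b hb).trans (by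
    rw [hgx]; exact mul_le_mul_of_nonneg_right (le_abs_self R) (hgx x ▸ (hp x).le))
  have hgp : 0 < g x := hgx x ▸ hp x
  have b1 : |M.lap G g x| ≤ Fintype.card ι * (|R| * g x * C) := by
    have := abs_lap_sum hG l χ hs x C (|R| * g x) (fun a => hC a x) (by positivity) fun a => by
      by_cases ha : x ∈ O a
      · exact Or.inl ⟨(hl a).le, hle' a ha⟩
      · exact Or.inr (hz a x ha)
    rwa [← hgd] at this
  have b2 : |M.lap G (fun y => g y * g y) x| ≤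
      Fintype.card (ι × ι) * (|R| * g x * (|R| * g x) * D) := by
    have e : (fun y => g y * g y) =
        fun y => ∑ p : ι × ι, l p.1 * l p.2 * (χ p.1 y * χ p.2 y) := by
      funext y
      rw [← hgx, Finset.sum_mul_sum, Fintype.sum_prod_type]
      exact Finset.sum_congr rfl fun a _ => Finset.sum_congr rfl fun b _ => by ring
    rw [e]
    refine abs_lap_sum hG (fun p : ι × ι => l p.1 * l p.2) _ hs2 x D _ (fun a => hD a x)
      (by positivity) fun p => ?_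
    by_cases ha : x ∈ O p.1
    · by_cases hb : x ∈ O p.2
      · exact Or.inl ⟨mul_nonneg (hl _).le (hl _).le,
          mul_le_mul (hle' _ ha) (hle' _ hb) (hl _).le (by positivity)⟩
      · exact Or.inr ((hz _ x hb).mono fun y hy => by rw [hy, mul_zero])
    · exact Or.inr ((hz _ x ha).mono fun y hy => by rw [hy, zero_mul])
  have hg' : M.Sm g := hgd ▸ hg
  have b3 := (((mLAP n M _ _ hg' hg').2.2 G hG).2.2.1 x 0).2.2.2.2.1
  have b4 : M.gr G g g x ≤
      (Fintype.card (ι × ι) * (R ^ 2 * D) + Fintype.card ι * (|R| * C)) * g x ^ 2 := by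
    have c1 := (abs_le.1 b1).1
    have c2 := (abs_le.1 b2).2
    have c3 : |R| * g x * (|R| * g x) = R ^ 2 * g x ^ 2 := by rw [← sq_abs R]; ring
    rw [c3] at c2
    have c4 : 0 ≤ (Fintype.card (ι × ι) : ℝ) * (R ^ 2 * g x ^ 2 * D) := by positivity
    have c5 := mul_le_mul_of_nonneg_left c1 hgp.le
    nlinarith
  simp only [hgx] at hle ⊢
  refine ⟨hle, b4, ?_, b1.trans (le_of_eq (by ring))⟩
  rw [gr_log hG hg' (fun y => hgx y ▸ hp y) x, div_le_iff₀ (by positivity)]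
  exact b4

end Pool.Agent.Lib.F4G
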