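import Mathlib

/-! A positive weight on a finite group with bounded total mass and bounded ratios along a
finite set, the bounds depending only on the size of the set. -/

open Finset
open scoped Pointwise

namespace Pool.Agent.Lib.F4G

theorem wt90 (m : ℕ) (Q : Type) [Group Q] [Fintype Q] (S : Finset Q) (hS : S.card ≤ m) :
    ∃ a : Q → ℝ, (∀ t, 0 < a t) ∧ 1 ≤ a 1 ∧ ∑ t, a t ≤ 3 ∧
      ∀ t, ∀ s ∈ S, a (t * s) ≤ (4 * m + 2) * a t ∧ a t ≤ (4 * m + 2) * a (t * s) := by
  classical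
  set T : Finset Q := insert 1 (S ∪ S⁻¹) with hT
  have hTc : (T.card : ℝ) ≤ 2 * m + 1 := by
    have h1 : T.card ≤ (S ∪ S⁻¹).card + 1 := card_insert_le _ _
    have h2 : (S ∪ S⁻¹).card ≤ S.card + S⁻¹.card := card_union_le _ _
    rw [card_inv] at h2
    have h3 : T.card ≤ 2 * m + 1 := by omega
    exact_mod_cast h3
  have hm : (0 : ℝ) ≤ m := Nat.cast_nonneg m
  set θ : ℝ := (4 * m + 2)⁻¹ with hθ
  have hB : (0 : ℝ) < 4 * m + 2 := by linarith
  have hθ0 : 0 < θ := inv_pos.2 hB
  have hθB : (4 * m + 2) * θ = 1 := mul_inv_cancel₀ hB.ne'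
  have hθ1 : θ < 1 := by nlinarith
  let c : Q → ℕ → ℝ := fun t k => if t ∈ T ^ k then θ ^ k else 0
  have hc0 : ∀ t k, 0 ≤ c t k := fun t k => by
    simp only [c]; split_ifs <;> positivity
  have hc1 : ∀ t k, c t k ≤ θ ^ k := fun t k => by
    simp only [c]; split_ifs
    · exact le_rfl
    · positivity
  have hcs : ∀ t, Summable (c t) := fun t =>
    Summable.of_nonneg_of_le (hc0 t) (hc1 t) (summable_geometric_of_lt_one hθ0.le hθ1)
  have hN : (0 : ℝ) < Fintype.card Q := by exact_mod_cast Fintype.card_pos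
  have hb0 : ∀ t, 0 ≤ ∑' k, c t k := fun t => tsum_nonneg (hc0 t)
  have key : ∀ t, ∀ s ∈ T, (Fintype.card Q : ℝ)⁻¹ + ∑' k, c t k ≤
      (4 * m + 2) * ((Fintype.card Q : ℝ)⁻¹ + ∑' k, c (t * s) k) := fun t s hs => by
    have h1 : ∀ k, c t k ≤ (4 * m + 2) * c (t * s) (k + 1) := fun k => by
      by_cases h : t ∈ T ^ k
      · have h2 : t * s ∈ T ^ (k + 1) := by rw [pow_succ]; exact mul_mem_mul h hs
        simp only [c, if_pos h, if_pos h2]
        rw [pow_succ', ← mul_assoc, hθB, one_mul]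
      · have := hc0 (t * s) (k + 1)
        simp only [c, if_neg h]
        exact mul_nonneg hB.le this
    have h2 : Summable fun k => c (t * s) (k + 1) := (summable_nat_add_iff 1).2 (hcs _)
    have h3 := (hcs t).tsum_le_tsum h1 (h2.mul_left _)
    rw [tsum_mul_left] at h3
    have h4 := (hcs (t * s)).tsum_eq_zero_add
    have h5 := hc0 (t * s) 0
    have h6 := inv_pos.2 hN
    nlinarith
  refine ⟨fun t => (Fintype.card Q : ℝ)⁻¹ + ∑' k, c t k,
    fun t => add_pos_of_pos_of_nonneg (inv_pos.2 hN) (hb0 t), ?_, ?_, fun t s hs => ⟨?_, ?_⟩⟩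
  · have h1 := (hcs 1).le_tsum 0 fun k _ => hc0 1 k
    have h2 : c 1 0 = 1 := by simp [c]
    have h6 := inv_pos.2 hN
    linarith
  · rw [sum_add_distrib, sum_const, card_univ, nsmul_eq_mul, mul_inv_cancel₀ hN.ne',
      ← Summable.tsum_finsetSum fun t _ => hcs t]
    have h1 : ∀ k, ∑ t, c t k ≤ (1 / 2 : ℝ) ^ k := fun k => by
      have h2 : ∑ t, c t k = (T ^ k).card * θ ^ k := by
        simp only [c]
        rw [← sum_filter, sum_const, nsmul_eq_mul, filter_mem_eq_inter, univ_inter]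
      have h3 : ((T ^ k).card : ℝ) ≤ (2 * m + 1) ^ k := by
        calc ((T ^ k).card : ℝ) ≤ (T.card : ℝ) ^ k := by exact_mod_cast card_pow_le
          _ ≤ _ := pow_le_pow_left₀ (Nat.cast_nonneg _) hTc k
      have h4 : (2 * m + 1) * θ = 1 / 2 := by linarith
      rw [h2, ← h4, mul_pow]
      exact mul_le_mul_of_nonneg_right h3 (by positivity)
    have h2 := (summable_sum fun t _ => hcs t).tsum_le_tsum h1 summable_geometric_two
    rw [tsum_geometric_two] at h2
    linarith
  · have h := key (t * s) s⁻¹ (mem_insert_of_mem (mem_union_right _ (inv_mem_inv hs)))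
    rwa [mul_inv_cancel_right] at h
  · exact key t s (mem_insert_of_mem (mem_union_left _ hs))

end Pool.Agent.Lib.F4G
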