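import Pool.Agent.Lib.F4G.Gr47
import Pool.Agent.Lib.F4G.Wt90
import Pool.Agent.Lib.F4G.U08
import Pool.Agent.Lib.F4G.BlueC
import Pool.Agent.Lib.F4G.Fd29
import Pool.Agent.Lib.F4G.Cov9
import Pool.Agent.Lib.HS95.R_LOC

/-! Project f4g, step (4): from a finite covering to functions on the sheets. -/

open scoped Classical Topology ContDiff ComplexOrder Matrix
open Set Filter Complex

noncomputable section

namespace Pool.Agent.Lib.F4G.G47

open Pool.Agent.Lib.SV (E)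
open Pool.Agent.Lib.HS32 Pool.Agent.Lib.HS95.LOCK

variable {n : ℕ}

/-- The value of `w` at the point over `x` on the sheet `t`, or `d` if there is no such point. -/
def sh {X Y ι Q : Type} (p : Y → X) (k : ι → Y → Q) (d : ℝ) (w : Y → ℝ) (a : ι) (t : Q) (x : X) :
    ℝ := if h : ∃ y, p y = x ∧ k a y = t then w h.choose else d

/-- A covering defined by a cocycle. -/
structure Cv (M N : Mf n) {ι Q : Type} [Group Q] (O : ι → Set M.X) (c : ι → ι → M.X → Q)
    (p : N.X → M.X) (k : ι → N.X → Q) : Prop where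
  op : ∀ a, IsOpen (O a)
  et : C9.Et p
  lk : ∀ a y, p y ∈ O a → ∀ᶠ y' in 𝓝 y, k a y' = k a y
  kc : ∀ a b y, p y ∈ O a → p y ∈ O b → k b y = k a y * c a b (p y)
  inj : ∀ a y y', p y = p y' → p y ∈ O a → k a y = k a y' → y = y'
  sec : ∀ a y, p y ∈ O a → ∀ᶠ x in 𝓝 (p y), ∃ y', p y' = x ∧ k a y' = k a y

namespace Cv

variable {M N : Mf n} {ι Q : Type} [Group Q] {O : ι → Set M.X} {c : ι → ι → M.X → Q}
  {p : N.X → M.X} {k : ι → N.X → Q} {G : M.Fam (Mat n)}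
  (h : Cv M N O c p k) {d : ℝ} {w : N.X → ℝ} {a b : ι} {t : Q} {x : M.X} {y : N.X}

include h

theorem sh_eq (hy : p y ∈ O a) : sh p k d w a (k a y) (p y) = w y := by
  have e : ∃ y', p y' = p y ∧ k a y' = k a y := ⟨y, rfl, rfl⟩
  rw [sh, dif_pos e]
  exact congrArg w (h.inj a y _ e.choose_spec.1.symm hy e.choose_spec.2.symm).symm

theorem sh_cmp (ha : x ∈ O a) (hb : x ∈ O b) :
    sh p k d w b (t * c a b x) x = sh p k d w a t x := by
  by_cases e : ∃ y, p y = x ∧ k a y = t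
  · obtain ⟨y, rfl, rfl⟩ := e
    rw [← h.kc a b y ha hb, h.sh_eq ha, h.sh_eq hb]
  · rw [sh, sh, dif_neg e, dif_neg]
    rintro ⟨y, rfl, e'⟩
    rw [h.kc a b y ha hb] at e'
    exact e ⟨y, rfl, mul_right_cancel e'⟩

variable [M.Cpt] [N.Cpt]

theorem sh_not (ha : x ∈ O a) (e : ¬∃ y, p y = x ∧ k a y = t) :
    sh p k d w a t =ᶠ[𝓝 x] fun _ => d := by
  filter_upwards [h.et.ct.isClosedMap.eventually_nhds_fiber (p := fun y => k a y ≠ t) x
    fun y hy => (h.lk a y ((show p y = x from hy) ▸ ha)).mono fun y' e' e'' =>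
      e ⟨y, hy, e'.symm.trans e''⟩] with x' hx'
  exact dif_neg fun ⟨y, e1, e2⟩ => hx' y e1 e2

omit [M.Cpt] [N.Cpt] in
theorem sh_ev (hy : p y ∈ O a) : ∀ᶠ y' in 𝓝 y, w y' = sh p k d w a (k a y) (p y') := by
  filter_upwards [h.lk a y hy, h.et.ct.continuousAt.eventually ((h.op a).mem_nhds hy)] with y' u v
  rw [← u, h.sh_eq v]

/-- The functions on the sheets are smooth, with the same Laplacian and gradient. -/
theorem sh_loc (hG : M.Met G) (hw : N.Sm w) (ha : x ∈ O a) (d : ℝ) (t : Q) :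
    ∃ f, M.Sm f ∧ sh p k d w a t =ᶠ[𝓝 x] f ∧
      M.lap G f x = sh p k 0 (N.lap (C9.pf p G) w) a t x ∧
      M.gr G f f x = sh p k 0 (N.gr (C9.pf p G) w w) a t x := by
  by_cases e : ∃ y, p y = x ∧ k a y = t
  · obtain ⟨y, rfl, rfl⟩ := e
    have sm : ∀ y, p y ∈ O a → C9.SmAt M (sh p k d w a (k a y)) (p y) := fun y hy =>
      (C9.pull_sm h.et (h.sh_ev hy)).1 (C9.sm_iff.1 hw y)
    obtain ⟨f, hf, ef⟩ := exists_sm mCOV mTR (f := sh p k d w a (k a y)) (x := p y) (by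
      filter_upwards [h.sec a y ha, (h.op a).mem_nhds ha] with x' u v
      obtain ⟨y', rfl, e'⟩ := u
      exact ⟨_, Mf.ch_mem _, Mf.mem_ch _, e' ▸ sm y' v _ (Mf.ch_mem _) (Mf.mem_ch _)⟩)
    refine ⟨f, hf, ef, ?_, ?_⟩
    · rw [h.sh_eq ha, ← lap_congr G ef, C9.pull_lap h.et hG (h.sh_ev ha) (sm y ha)]
    · rw [h.sh_eq ha, ← gr_congr G ef ef,
        C9.pull_gr h.et hG (h.sh_ev ha) (h.sh_ev ha) (sm y ha) (sm y ha)]
  · refine ⟨fun _ => d, Mf.sm_const d, h.sh_not ha e, ?_, ?_⟩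
    · rw [sh, dif_neg e]
      exact (((mLAP n M _ _ (Mf.sm_const d) (Mf.sm_const d)).2.2 _ hG).2.2.1 x d).1
    · rw [sh, dif_neg e, gr_const hG (Mf.sm_const d)]

omit h [N.Cpt] [M.Cpt] in
theorem lap_sum (hG : M.Met G) {T : Type} (s : Finset T) {f : T → M.X → ℝ}
    (hf : ∀ t, M.Sm (f t)) (x : M.X) :
    M.lap G (fun y => ∑ t ∈ s, f t y) x = ∑ t ∈ s, M.lap G (f t) x := by
  induction s using Finset.induction_on with
  | empty =>
    simpa using (((mLAP n M _ _ (Mf.sm_const (0 : ℝ)) (Mf.sm_const 0)).2.2 _ hG).2.2.1 x 0).1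
  | insert a s ha ih =>
    simp only [Finset.sum_insert ha]
    rw [(((mLAP n M _ _ (hf a) (Mf.Sm.sum fun t _ => hf t)).2.2 _ hG).2.2.1 x 0).2.1, ih]

variable [Fintype Q]

omit [N.Cpt] [M.Cpt] in
theorem sum_eq (ha : x ∈ O a) (hb : x ∈ O b) :
    ∑ t, sh p k d w b t x = ∑ t, sh p k d w a t x := by
  rw [← Equiv.sum_comp (Equiv.mulRight (c a b x))]
  exact Finset.sum_congr rfl fun t _ => h.sh_cmp ha hb

/-- The sum over the fibres commutes with the Laplace operator. -/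
theorem com (hG : M.Met G) (i : M.X → ι) (hi : ∀ x, x ∈ O (i x)) :
    Com N M (C9.pf p G) G fun w x => ∑ t, sh p k 0 w (i x) t x := by
  intro w hw
  have key : ∀ x, ∃ f, M.Sm f ∧ (fun x => ∑ t, sh p k 0 w (i x) t x) =ᶠ[𝓝 x] f ∧
      M.lap G f x = ∑ t, sh p k 0 (N.lap (C9.pf p G) w) (i x) t x := fun x => by
    choose f f1 f2 f3 _ using h.sh_loc hG hw (hi x) 0
    refine ⟨fun y => ∑ t, f t y, Mf.Sm.sum fun t _ => f1 t, ?_, ?_⟩
    · filter_upwards [eventually_all.2 f2, (h.op _).mem_nhds (hi x)] with y h1 h2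
      rw [h.sum_eq h2 (hi y)]
      exact Finset.sum_congr rfl fun t _ => h1 t
    · rw [lap_sum hG _ f1]
      exact Finset.sum_congr rfl fun t _ => f3 t
  refine ⟨fun e he z hz => ?_, fun x => ?_⟩
  · obtain ⟨f, f1, f2, -⟩ := key (e.symm z)
    have := ev_symm f2 (e.map_target hz)
    rw [e.right_inv hz] at this
    exact (f1 e he z hz).congr_of_eventuallyEq this
  · obtain ⟨f, f1, f2, f3⟩ := key x
    rw [lap_congr G f2, f3, ← Finset.sum_sub_distrib]
    refine Finset.sum_congr rfl fun t _ => ?_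
    unfold sh
    split_ifs <;> simp

end Cv

/-- The existence of the coverings. -/
def St_CV : Prop := ∀ (n : ℕ) (M : Mf n) [M.Cpt] (ι Q : Type) [Group Q] [Fintype Q]
  (O : ι → Set M.X) (c : ι → ι → M.X → Q), (∀ a, IsOpen (O a)) → (∀ x, ∃ a, x ∈ O a) →
  (∀ a b, ∀ x ∈ O a, x ∈ O b → (∀ᶠ y in 𝓝 x, c a b y = c a b x) ∧
    ∀ d, x ∈ O d → c a b x * c b d x = c a d x) → ∀ a₀, ∀ x₀ ∈ O a₀,
  ∃ (N : Mf n) (_ : N.Cpt) (p : N.X → M.X) (k : ι → N.X → Q) (y₀ : N.X),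
    p y₀ = x₀ ∧ k a₀ y₀ = 1 ∧ Cv M N O c p k

theorem st_CV : St_CV := fun _ _ _ _ _ _ _ _ _ hO hc h a₀ x₀ h₀ => by
  obtain ⟨N, i, p, k, y, v, e1, e2⟩ := C9.cov9 ⟨hO, hc, fun a b x ha hb => (h a b x ha hb).1,
    fun a b d x ha hb hd => (h a b x ha hb).2 d hd⟩ a₀ 1 x₀ h₀
  exact ⟨N, i, p, k, y, e1, e2, hO, v.et, v.lc, v.tr, v.inj, fun a y hy => by
    obtain ⟨s, -, -, hs⟩ := v.sec a y hy
    exact hs.mono fun x hx => ⟨s x, hx⟩⟩

theorem grd (hC : St_CV) : St_GRD := by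
  intro n
  refine ⟨4 * ((n : ℝ) + 2), by positivity, fun M _ G hn hG hR ι _ O m hO hc => ?_⟩
  have hM := hG.toMet
  obtain ⟨χ, W, B, -, B0, -, c2, c3, c4, c5⟩ := u08 n M G hM ι O hO hc (4 * m + 2)
  obtain ⟨c₀, c0, hg⟩ := grad47 n hn W B B0
  have R0 : (1 : ℝ) ≤ 4 * m + 2 := by linarith [m.cast_nonneg (α := ℝ)]
  refine ⟨4 + c₀ + Real.log (4 * m + 2), fun Q _ _ S c hS hc' a₀ x₀ h₀ => ?_⟩
  obtain ⟨N, _, p, k, y₀, rfl, k0, h⟩ := hC n M ι Q O c hO hc
    (fun a b x ha hb => (hc' a b x ha hb).2) a₀ x₀ h₀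
  obtain ⟨α, a1, a2, a3, a4⟩ := wt90 m Q S hS
  choose i hi using hc
  have z0 : ∀ b x, x ∉ O b → χ b x = 0 := fun b x hx => (c4 b x hx).self_of_nhds
  set u : N.X → ℝ := fun y => ∑ b, α (k b y) * χ b (p y) with hu
  have loc : ∀ y, ∀ᶠ y' in 𝓝 y, u y' = ∑ b, α (k b y) * χ b (p y') := fun y => by
    have : ∀ b, ∀ᶠ y' in 𝓝 y, α (k b y') * χ b (p y') = α (k b y) * χ b (p y') := fun b => by
      by_cases e : p y ∈ O b
      · exact (h.lk b y e).mono fun y' e' => by rw [e']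
      · exact (h.et.ct.continuousAt.eventually (c4 b _ e)).mono fun y' e' => by
          rw [e', mul_zero, mul_zero]
    exact (eventually_all.2 this).mono fun y' e' => Finset.sum_congr rfl fun b _ => e' b
  have es := fun y => c5 (fun b => α (k b y)) fun b => a1 _
  have est := fun y => ((es y).2.2 (p y) fun b d hb hd => by
    rw [h.kc d b y hd hb]
    exact (a4 _ _ (hc' d b _ hd hb).1).1).2
  have sm := fun y => C9.sm_iff.1 (es y).1 (p y)
  obtain ⟨f, hf, f1, f2, f3⟩ := hg N _ u (C9.pf_kae h.et hG) (C9.pf_ric' h.et hG.toTen hR)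
    (C9.sm_iff.2 fun y => (C9.pull_sm h.et (loc y)).2 (sm y)) (fun y => (es y).2.1 (p y))
    (fun y => by
      rw [C9.pull_gr h.et hM (loc y) (loc y) (sm y) (sm y)]
      exact (est y).1) fun y => by
      rw [C9.pull_lap h.et hM (loc y) (sm y)]
      exact (abs_le.1 (est y).2.2).1
  have f4 := f3 M G _ 3 hM (h.com hM i hi) fun x => by
    have : ∀ t, sh p k 0 u (i x) t x ≤ ∑ b, α (t * c (i x) b x) * χ b x := fun t => by
      by_cases e : ∃ y, p y = x ∧ k (i x) y = t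
      · obtain ⟨y, rfl, rfl⟩ := e
        rw [h.sh_eq (hi _)]
        refine le_of_eq (Finset.sum_congr rfl fun b _ => ?_)
        by_cases e : p y ∈ O b
        · rw [h.kc _ b y (hi _) e]
        · rw [z0 b _ e, mul_zero, mul_zero]
      · rw [sh, dif_neg e]
        exact Finset.sum_nonneg fun b _ => mul_nonneg (a1 _).le (c2 b x)
    refine (Finset.sum_le_sum fun t _ => this t).trans ?_
    rw [Finset.sum_comm, ← mul_one (3 : ℝ), ← c3 x, Finset.mul_sum]
    refine Finset.sum_le_sum fun b _ => ?_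
    rw [← Finset.sum_mul]
    refine mul_le_mul_of_nonneg_right (le_of_eq_of_le ?_ a3) (c2 b x)
    exact Equiv.sum_comp (Equiv.mulRight (c (i x) b x)) α
  have q0 : (0 : ℝ) < Fintype.card Q := by exact_mod_cast Fintype.card_pos
  have l0 := Real.log_nonneg R0
  refine ⟨sh p k (-Real.log (Fintype.card Q)) f, ?_, fun a x ha => ⟨?_, fun b t hb =>
    h.sh_cmp ha hb, fun t e he hx => ?_⟩⟩
  · rw [← k0, h.sh_eq h₀]
    have : (4 * m + 2 : ℝ)⁻¹ ≤ u y₀ := by
      rw [← mul_one (4 * m + 2 : ℝ)⁻¹, ← c3 (p y₀), Finset.mul_sum]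
      refine Finset.sum_le_sum fun b _ => ?_
      by_cases e : p y₀ ∈ O b
      · refine mul_le_mul_of_nonneg_right ?_ (c2 b _)
        rw [h.kc a₀ b y₀ h₀ e, k0, inv_le_iff_one_le_mul₀' (by linarith)]
        exact a2.trans (a4 _ _ (hc' a₀ b _ h₀ e).1).2
      · rw [z0 b _ e, mul_zero, mul_zero]
    have := Real.log_le_log (by positivity) this
    rw [Real.log_inv] at this
    linarith [f2 y₀]
  · have : ∀ t, Real.exp (sh p k (-Real.log (Fintype.card Q)) f a t x) ≤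
        sh p k 0 (fun y => Real.exp (f y)) a t x + (Fintype.card Q : ℝ)⁻¹ := fun t => by
      unfold sh
      split_ifs
      · exact le_add_of_nonneg_right (by positivity)
      · rw [Real.exp_neg, Real.exp_log q0, zero_add]
    refine (Finset.sum_le_sum fun t _ => this t).trans ?_
    rw [Finset.sum_add_distrib, h.sum_eq (hi x) ha, Finset.sum_const, Finset.card_univ,
      nsmul_eq_mul, mul_inv_cancel₀ q0.ne']
    linarith [f4 x]
  · obtain ⟨g, g1, g2, -, g4⟩ := h.sh_loc hM hf ha (-Real.log (Fintype.card Q)) t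
    have e1 := ev_symm g2 hx
    refine ⟨(g1 e he _ (e.map_source hx)).congr_of_eventuallyEq e1, fun ξ => ?_⟩
    rw [e1.fderiv_eq]
    refine fd29 hM he hx (g1 e he _ (e.map_source hx)) ?_ ξ
    rw [g4]
    unfold sh
    split_ifs
    · exact f1 _
    · positivity

end Pool.Agent.Lib.F4G.G47

/-- Step (4). -/
theorem Pool.Agent.Lib.F4G.st_GRD : Pool.Agent.Lib.F4G.St_GRD :=
  Pool.Agent.Lib.F4G.G47.grd Pool.Agent.Lib.F4G.G47.st_CV
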