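import Pool.Agent.Lib.F4G.MyDefs

/-! Project f4g: the four point mean of the cost of one step. -/

open Metric Set Complex

noncomputable section

namespace Pool.Agent.Lib.F4G.My.S43

/-- The Laplacian. -/
def lap (F : ℂ → ℝ) (z : ℂ) : ℝ :=
  fderiv ℝ (fderiv ℝ F) z 1 1 + fderiv ℝ (fderiv ℝ F) z I I

theorem lin_eq (L : ℂ →L[ℝ] ℝ) (h : ℂ) : L h = h.re * L 1 + h.im * L I := by
  conv_lhs => rw [show h = h.re • (1 : ℂ) + h.im • I by simp [Complex.ext_iff]]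
  simp only [map_add, map_smul, smul_eq_mul]

theorem fd_eq (F : ℂ → ℝ) (a h : ℂ) : fderiv ℝ F a h = 2 * (Fw F a * h).re := by
  rw [lin_eq]; simp [Fw, Complex.div_re]; ring

theorem Fw_sub (F : ℂ → ℝ) (a b : ℂ) : ‖Fw F b - Fw F a‖ ≤ ‖fderiv ℝ F b - fderiv ℝ F a‖ := by
  set L := fderiv ℝ F b - fderiv ℝ F a
  have e : Fw F b - Fw F a = (((L 1 : ℝ) : ℂ) - I * (L I : ℝ)) / 2 := by
    simp [Fw, L]; ring
  have h1 := L.le_opNorm 1
  have h2 := L.le_opNorm I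
  have h3 := norm_sub_le ((L 1 : ℝ) : ℂ) (I * (L I : ℝ))
  simp only [norm_one, norm_I, mul_one, norm_mul, one_mul, norm_real] at h1 h2 h3
  rw [e, norm_div]; simp only [Complex.norm_ofNat]; linarith

theorem Fw_le (F : ℂ → ℝ) (a : ℂ) : ‖Fw F a‖ ≤ ‖fderiv ℝ F a‖ := by
  have h1 := (fderiv ℝ F a).le_opNorm 1
  have h2 := (fderiv ℝ F a).le_opNorm I
  have h3 := norm_sub_le ((fderiv ℝ F a 1 : ℝ) : ℂ) (I * (fderiv ℝ F a I : ℝ))
  simp only [norm_one, norm_I, mul_one, norm_mul, one_mul, norm_real] at h1 h2 h3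
  rw [Fw, norm_div]; simp only [Complex.norm_ofNat]; linarith

theorem quad4 (B : ℂ →L[ℝ] ℂ →L[ℝ] ℝ) (g : ℂ) :
    B g g + B (I * g) (I * g) = ‖g‖ ^ 2 * (B 1 1 + B I I) := by
  have e : ∀ x y : ℂ, B x y = x.re * (y.re * B 1 1 + y.im * B 1 I) +
      x.im * (y.re * B I 1 + y.im * B I I) := fun x y => by
    rw [← lin_eq (B 1), ← lin_eq (B I)]
    exact lin_eq (B.flip y) x
  rw [e g g, e (I * g) (I * g), Complex.sq_norm, normSq_apply]
  simp; ring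

section
variable {F : ℂ → ℝ} (hF : ContDiffOn ℝ 2 F (ball 0 1))

theorem sub34 {z : ℂ} (hz : z ∈ closedBall (0 : ℂ) (3 / 4)) : ball (0 : ℂ) 1 ∈ nhds z :=
  isOpen_ball.mem_nhds (closedBall_subset_ball (by norm_num) hz)

include hF

theorem d1 {z : ℂ} (hz : z ∈ closedBall (0 : ℂ) (3 / 4)) : HasFDerivAt F (fderiv ℝ F z) z :=
  ((hF.contDiffAt (sub34 hz)).differentiableAt (by norm_num)).hasFDerivAt

theorem c1 {z : ℂ} (hz : z ∈ closedBall (0 : ℂ) (3 / 4)) : ContDiffAt ℝ 1 (fderiv ℝ F) z :=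
  (hF.contDiffAt (sub34 hz)).fderiv_right (by norm_num)

theorem d2 {z : ℂ} (hz : z ∈ closedBall (0 : ℂ) (3 / 4)) :
    HasFDerivAt (fderiv ℝ F) (fderiv ℝ (fderiv ℝ F) z) z :=
  ((c1 hF hz).differentiableAt (by norm_num)).hasFDerivAt

theorem c2 : ContinuousOn (fderiv ℝ (fderiv ℝ F)) (closedBall 0 (3 / 4)) := fun _ hz =>
  ((c1 hF hz).fderiv_right (m := 0) (by norm_num)).continuousAt.continuousWithinAt

theorem bd : ∃ M, 1 ≤ M ∧ (∀ z ∈ closedBall (0 : ℂ) (3 / 4), ‖fderiv ℝ F z‖ ≤ M ∧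
    ‖fderiv ℝ (fderiv ℝ F) z‖ ≤ M) ∧ ∀ a ∈ closedBall (0 : ℂ) (3 / 4),
    ∀ b ∈ closedBall (0 : ℂ) (3 / 4), ‖Fw F b - Fw F a‖ ≤ M * ‖b - a‖ := by
  obtain ⟨A, hA⟩ := (isCompact_closedBall (0 : ℂ) (3 / 4)).exists_bound_of_continuousOn
    (f := fderiv ℝ F) fun _ hz => (c1 hF hz).continuousAt.continuousWithinAt
  obtain ⟨B, hB⟩ := (isCompact_closedBall (0 : ℂ) (3 / 4)).exists_bound_of_continuousOn
    (f := fderiv ℝ (fderiv ℝ F)) (by exact c2 hF)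
  have hb : ∀ z ∈ closedBall (0 : ℂ) (3 / 4), ‖fderiv ℝ (fderiv ℝ F) z‖ ≤ max 1 (max A B) :=
    fun z hz => (hB z hz).trans ((le_max_right _ _).trans (le_max_right _ _))
  refine ⟨max 1 (max A B), le_max_left _ _, fun z hz =>
    ⟨(hA z hz).trans ((le_max_left _ _).trans (le_max_right _ _)), hb z hz⟩, fun a ha b hb' => ?_⟩
  exact (Fw_sub F a b).trans ((convex_closedBall _ _).norm_image_sub_le_of_norm_hasFDerivWithin_le
    (fun z hz => (d2 hF hz).hasFDerivWithinAt) hb ha hb')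

theorem tay {w : ℝ} (hw : 0 < w) : ∃ r > 0, ∀ a ∈ closedBall (0 : ℂ) (5 / 8), ∀ h : ℂ, ‖h‖ ≤ r →
    |F (a + h) - F a - fderiv ℝ F a h - fderiv ℝ (fderiv ℝ F) a h h / 2| ≤ w * ‖h‖ ^ 2 := by
  obtain ⟨d, d0, hd⟩ := (Metric.uniformContinuousOn_iff_le (f := fderiv ℝ (fderiv ℝ F))).1
    (by exact (isCompact_closedBall (0 : ℂ) (3 / 4)).uniformContinuousOn_of_continuous (c2 hF)) w hw
  refine ⟨min d (1 / 8), by positivity, fun a ha h hh => ?_⟩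
  have sb : closedBall a (min d (1 / 8)) ⊆ closedBall (0 : ℂ) (3 / 4) :=
    closedBall_subset_closedBall' (by
      have := min_le_right d (1 / 8); have := mem_closedBall.1 ha; linarith)
  have a0 : a ∈ closedBall a (min d (1 / 8)) := mem_closedBall_self (by positivity)
  have k1 : ∀ y ∈ closedBall a (min d (1 / 8)),
      ‖fderiv ℝ F y - fderiv ℝ F a - fderiv ℝ (fderiv ℝ F) a (y - a)‖ ≤ w * ‖y - a‖ := fun y hy =>
    (convex_closedBall _ _).norm_image_sub_le_of_norm_hasFDerivWithin_le'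
      (fun z hz => (d2 hF (sb hz)).hasFDerivWithinAt) (fun z hz => by
        rw [← dist_eq_norm]
        exact hd z (sb hz) a (sb a0) ((mem_closedBall.1 hz).trans (min_le_left _ _))) a0 hy
  have mem : ∀ t ∈ Icc (0 : ℝ) 1, a + t • h ∈ closedBall a (min d (1 / 8)) := fun t ht => by
    rw [mem_closedBall, dist_eq_norm, add_sub_cancel_left, norm_smul, Real.norm_of_nonneg ht.1]
    exact (mul_le_of_le_one_left (norm_nonneg _) ht.2).trans hh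
  have k2 := norm_image_sub_le_of_norm_deriv_le_segment_01'
    (f := fun t : ℝ => F (a + t • h) - t * fderiv ℝ F a h -
      t ^ 2 * (fderiv ℝ (fderiv ℝ F) a h h / 2))
    (f' := fun t : ℝ => (fderiv ℝ F (a + t • h) - fderiv ℝ F a -
      fderiv ℝ (fderiv ℝ F) a (a + t • h - a)) h) (C := w * ‖h‖ ^ 2) (fun t ht => by
      have e1 : HasDerivAt (fun t : ℝ => a + t • h) h t := by
        simpa using ((hasDerivAt_id t).smul_const h).const_add a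
      have e2 := (d1 hF (sb (mem t ht))).comp_hasDerivAt t e1
      have e3 := (e2.sub (hasDerivAt_mul_const (fderiv ℝ F a h))).sub
        ((hasDerivAt_pow 2 t).mul_const (fderiv ℝ (fderiv ℝ F) a h h / 2))
      refine (e3.congr_deriv ?_).hasDerivWithinAt
      simp only [add_sub_cancel_left, map_smul, ContinuousLinearMap.sub_apply,
        ContinuousLinearMap.smul_apply, smul_eq_mul]
      push_cast; ring) (fun t ht => by
      have ht' : t ∈ Icc (0 : ℝ) 1 := Ico_subset_Icc_self ht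
      refine (ContinuousLinearMap.le_opNorm _ _).trans ?_
      have := k1 _ (mem t ht')
      have e : ‖a + t • h - a‖ ≤ ‖h‖ := by
        rw [add_sub_cancel_left, norm_smul, Real.norm_of_nonneg ht'.1]
        exact mul_le_of_le_one_left (norm_nonneg _) ht'.2
      calc _ ≤ w * ‖h‖ * ‖h‖ := by gcongr; exact this.trans (by gcongr)
        _ = _ := by ring)
  simp only [one_smul, zero_smul, add_zero, Real.norm_eq_abs] at k2
  rw [show F (a + h) - F a - fderiv ℝ F a h - fderiv ℝ (fderiv ℝ F) a h h / 2 =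
    F (a + h) - 1 * fderiv ℝ F a h - 1 ^ 2 * (fderiv ℝ (fderiv ℝ F) a h h / 2) -
    (F a - 0 * fderiv ℝ F a h - 0 ^ 2 * (fderiv ℝ (fderiv ℝ F) a h h / 2)) by ring]
  exact k2

end

theorem lg {x : ℂ} (hx : ‖x‖ ≤ 1 / 2) :
    |2 * Real.log ‖1 + x‖ - 2 * (x / (1 + x)).re - (x ^ 2).re| ≤ 6 * ‖x‖ ^ 3 := by
  have n1 : 1 / 2 ≤ ‖1 + x‖ := by
    have := norm_sub_norm_le (1 : ℂ) (-x)
    simp only [norm_one, norm_neg, sub_neg_eq_add] at this; linarith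
  have n0 : 1 + x ≠ 0 := fun h => by rw [h, norm_zero] at n1; linarith
  have h := Complex.norm_log_sub_logTaylor_le 2 (z := x) (by linarith)
  have e : logTaylor 3 x = x - x ^ 2 / 2 := by
    simp [logTaylor, Finset.sum_range_succ]; ring
  rw [e] at h
  have e2 : 2 * Real.log ‖1 + x‖ - 2 * (x / (1 + x)).re - (x ^ 2).re =
      2 * (log (1 + x) - (x - x ^ 2 / 2) - x ^ 3 / (1 + x)).re := by
    have : x / (1 + x) = x - x ^ 2 + x ^ 3 / (1 + x) := by field_simp; ring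
    rw [this, ← Complex.log_re]; simp; ring
  have h2 : ‖x ^ 3 / (1 + x)‖ ≤ 2 * ‖x‖ ^ 3 := by
    rw [norm_div, norm_pow, div_le_iff₀ (by linarith)]
    nlinarith [pow_nonneg (norm_nonneg x) 3]
  have h3 : (1 - ‖x‖)⁻¹ ≤ 2 := by rw [inv_le_comm₀ (by linarith) (by norm_num)]; linarith
  have h4 : ‖x‖ ^ (2 + 1) * (1 - ‖x‖)⁻¹ / ((2 : ℕ) + 1) ≤ ‖x‖ ^ 3 := by
    have := pow_nonneg (norm_nonneg x) 3
    norm_num; nlinarith
  rw [e2, abs_mul, abs_two]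
  have := (abs_re_le_norm _).trans (norm_sub_le (log (1 + x) - (x - x ^ 2 / 2)) (x ^ 3 / (1 + x)))
  linarith

/-- The exponent of the motion. -/
def ex (F : ℂ → ℝ) (a u ζ : ℂ) : ℝ :=
  2 * Real.log ‖1 - ζ * Fw F a * u / 2‖ + (F (mv F a u ζ) - F a) / 2

/-- Its quadratic part. -/
def qd (F : ℂ → ℝ) (a u ζ : ℂ) : ℝ :=
  ((ζ * Fw F a * u / 2) ^ 2).re + fderiv ℝ (fderiv ℝ F) a (ζ * u) (ζ * u) / 4

theorem qd_sum (F : ℂ → ℝ) (a u : ℂ) (s : ℝ) :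
    ∑ j : Fin 4, qd F a u (s * I ^ (j : ℕ)) = s ^ 2 * ‖u‖ ^ 2 * lap F a / 2 := by
  have h := quad4 (fderiv ℝ (fderiv ℝ F) a) (s * u)
  have e1 : (s : ℂ) * I ^ 1 * u = I * (s * u) := by ring
  have e2 : (s : ℂ) * I ^ 2 * u = -(s * u) := by rw [I_sq]; ring
  have e3 : (s : ℂ) * I ^ 3 * u = -(I * (s * u)) := by rw [I_pow_three]; ring
  have f1 : ((s : ℂ) * I ^ 1 * Fw F a * u / 2) ^ 2 = -(s * Fw F a * u / 2) ^ 2 := by
    linear_combination (s * Fw F a * u / 2) ^ 2 * I_sq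
  have f2 : ((s : ℂ) * I ^ 2 * Fw F a * u / 2) ^ 2 = (s * Fw F a * u / 2) ^ 2 := by
    rw [I_sq]; ring
  have f3 : ((s : ℂ) * I ^ 3 * Fw F a * u / 2) ^ 2 = -(s * Fw F a * u / 2) ^ 2 := by
    rw [I_pow_three]; linear_combination (s * Fw F a * u / 2) ^ 2 * I_sq
  rw [norm_mul, mul_pow, norm_real, Real.norm_eq_abs, sq_abs] at h
  simp only [Fin.sum_univ_four, qd, Fin.val_zero, Fin.val_one, Fin.val_two, pow_zero, mul_one,
    show ((3 : Fin 4) : ℕ) = 3 from rfl, e1, e2, e3, f1, f2, f3, map_neg,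
    ContinuousLinearMap.neg_apply, neg_neg, neg_re, lap]
  linarith

theorem ex_est {F : ℂ → ℝ} {a u ζ : ℂ} {M w s : ℝ} (M1 : 1 ≤ M) (w0 : 0 ≤ w) (hs : ‖ζ‖ = s)
    (sM : s * M ^ 2 ≤ 1) (hu : ‖u‖ ≤ M) (h1 : ‖fderiv ℝ F a‖ ≤ M)
    (h2 : ‖fderiv ℝ (fderiv ℝ F) a‖ ≤ M)
    (ht : ∀ h : ℂ, ‖h‖ ≤ 2 * s * M → |F (a + h) - F a - fderiv ℝ F a h -
      fderiv ℝ (fderiv ℝ F) a h h / 2| ≤ w * ‖h‖ ^ 2) :
    ‖ζ * Fw F a * u / 2‖ ≤ 1 / 2 ∧ ‖mv F a u ζ - a‖ ≤ 2 * s * M ∧ |qd F a u ζ| ≤ M ^ 4 * s ^ 2 / 2 ∧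
      |ex F a u ζ - qd F a u ζ| ≤ 3 * M ^ 6 * s ^ 3 + 2 * w * M ^ 2 * s ^ 2 := by
  have s0 : 0 ≤ s := hs ▸ norm_nonneg _
  have M0 : 0 ≤ M := by linarith
  obtain ⟨x, hx⟩ : ∃ x, x = -(ζ * Fw F a * u / 2) := ⟨_, rfl⟩
  set B := fderiv ℝ (fderiv ℝ F) a
  have x1 : ‖x‖ ≤ s * M ^ 2 / 2 := by
    rw [hx, norm_neg, norm_div, norm_mul, norm_mul, hs, Complex.norm_ofNat]
    have := (Fw_le F a).trans h1
    calc _ ≤ s * M * M / 2 := by gcongr
      _ = _ := by ring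
  have x2 : ‖x‖ ≤ 1 / 2 := by linarith
  have n1 : 1 / 2 ≤ ‖1 + x‖ := by
    have := norm_sub_norm_le (1 : ℂ) (-x)
    simp only [norm_one, norm_neg, sub_neg_eq_add] at this; linarith
  have n0 : 1 + x ≠ 0 := fun h => by rw [h, norm_zero] at n1; linarith
  have e0 : 1 - ζ * Fw F a * u / 2 = 1 + x := by rw [hx]; ring
  obtain ⟨g, hg⟩ : ∃ g, g = ζ * u := ⟨_, rfl⟩
  obtain ⟨h, hh⟩ : ∃ h, h = g / (1 + x) := ⟨_, rfl⟩
  have em : mv F a u ζ = a + h := by rw [mv, e0, hh, hg]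
  have g1 : ‖g‖ ≤ s * M := by rw [hg, norm_mul, hs]; gcongr
  have hh1 : ‖h‖ ≤ 2 * s * M := by
    rw [hh, norm_div, div_le_iff₀ (by linarith)]; nlinarith [mul_nonneg s0 M0]
  have hd : ‖h - g‖ ≤ 2 * s * M * (s * M ^ 2 / 2) := by
    rw [show h - g = -(h * x) by rw [hh]; field_simp; ring, norm_neg, norm_mul]; gcongr
  have bb : ∀ p q : ℂ, |B p q| ≤ M * ‖p‖ * ‖q‖ := fun p q =>
    (B.le_opNorm₂ p q).trans (by gcongr)
  have e1 : fderiv ℝ F a h = -4 * (x / (1 + x)).re := by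
    rw [fd_eq, show Fw F a * h = -2 * (x / (1 + x)) by
      rw [hh, hg, mul_div_assoc', mul_div_assoc']; congr 1; rw [hx]; ring]
    simp only [neg_mul, neg_re, mul_re, re_ofNat, im_ofNat]; ring
  have eq : qd F a u ζ = (x ^ 2).re + B g g / 4 := by rw [qd, hx, hg, neg_sq]
  have b1 : |B h h - B g g| ≤ M * (2 * s * M * (s * M ^ 2 / 2)) * (3 * s * M) := by
    rw [show B h h - B g g = B (h - g) h + B g (h - g) by simp]
    refine (abs_add_le _ _).trans ?_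
    have k1 : |B (h - g) h| ≤ M * (2 * s * M * (s * M ^ 2 / 2)) * (2 * s * M) :=
      (bb _ _).trans (by gcongr)
    have k2 : |B g (h - g)| ≤ M * (s * M) * (2 * s * M * (s * M ^ 2 / 2)) :=
      (bb _ _).trans (by gcongr)
    linarith
  have p4 : M ^ 3 ≤ M ^ 4 := pow_le_pow_right₀ M1 (by norm_num)
  have p6 : M ^ 5 ≤ M ^ 6 := pow_le_pow_right₀ M1 (by norm_num)
  refine ⟨by rw [← norm_neg, ← hx]; exact x2, by rwa [em, add_sub_cancel_left], ?_, ?_⟩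
  · have k1 : |(x ^ 2).re| ≤ (s * M ^ 2 / 2) ^ 2 :=
      (abs_re_le_norm _).trans (by rw [norm_pow]; gcongr)
    have k2 : |B g g| ≤ M * (s * M) * (s * M) := (bb _ _).trans (by gcongr)
    have k3 := mul_le_mul_of_nonneg_left p4 (sq_nonneg s)
    rw [eq, abs_le] at *
    constructor <;> nlinarith
  · have k1 : 6 * ‖x‖ ^ 3 ≤ 6 * (s * M ^ 2 / 2) ^ 3 := by gcongr
    have k2 := (lg x2).trans k1
    have k3 : w * ‖h‖ ^ 2 ≤ w * (2 * s * M) ^ 2 := by gcongr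
    have k4 := (ht h hh1).trans k3
    have k5 := mul_le_mul_of_nonneg_left p6 (pow_nonneg s0 3)
    have k6 : 0 ≤ s ^ 3 * M ^ 6 := by positivity
    rw [eq, ex, e0, em]
    rw [e1] at k4
    rw [abs_le] at *
    constructor <;> nlinarith

theorem ln_eq (F : ℂ → ℝ) {a b u v q p ζ : ℂ} (h1 : ‖ζ * Fw F a * u / 2‖ ≤ 1 / 2)
    (h2 : ‖ζ * Fw F b * v / 2‖ ≤ 1 / 2)
    (hq : q * (b - a) = v - u - (b - a) * (Fw F a * u + Fw F b * v) / 2)
    (hp : p * (b - a) = u * v * (Fw F b - Fw F a) / 2 + (b - a) * (Fw F a * u * (Fw F b * v)) / 4) :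
    ln F (mv F a u ζ) (mv F b v ζ) =
      ln F a b * (‖1 + ζ * q + ζ ^ 2 * p‖ * Real.exp (-(ex F a u ζ + ex F b v ζ) / 2)) := by
  have n : ∀ x : ℂ, ‖x‖ ≤ 1 / 2 → 1 - x ≠ 0 := fun x hx h => by
    rw [← sub_eq_zero.1 h, norm_one] at hx; linarith
  have n1 := n _ h1
  have n2 := n _ h2
  have e : mv F b v ζ - mv F a u ζ = (b - a) * (1 + ζ * q + ζ ^ 2 * p) /
      ((1 - ζ * Fw F a * u / 2) * (1 - ζ * Fw F b * v / 2)) := by
    rw [mv, mv, eq_div_iff (mul_ne_zero n1 n2)]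
    have i1 := div_mul_cancel₀ (ζ * u) n1
    have i2 := div_mul_cancel₀ (ζ * v) n2
    linear_combination (1 - ζ * Fw F a * u / 2) * i2 - (1 - ζ * Fw F b * v / 2) * i1 -
      ζ * hq - ζ ^ 2 * hp
  have e2 : -(ex F a u ζ + ex F b v ζ) / 2 = -(F (mv F a u ζ) + F (mv F b v ζ)) / 4 -
      -(F a + F b) / 4 - Real.log ‖1 - ζ * Fw F a * u / 2‖ -
      Real.log ‖1 - ζ * Fw F b * v / 2‖ := by rw [ex, ex]; ring
  rw [ln, ln, e, e2, Real.exp_sub, Real.exp_sub, Real.exp_sub, Real.exp_log (norm_pos_iff.2 n1),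
    Real.exp_log (norm_pos_iff.2 n2), norm_div, norm_mul, norm_mul]
  field_simp

theorem one {P : ℂ} {y η θ : ℝ} (hy : |y| ≤ η) (η1 : η ≤ 1 / 4) (hP : ‖P - 1‖ ≤ θ)
    (θ1 : θ ≤ 1 / 8) : ‖P‖ * Real.exp (-y / 2) ≤ 3 / 2 ∧
      ‖P‖ * Real.exp (-y / 2) ≤ (1 + ‖P‖ ^ 2 - y + 3 * θ * η + 2 * η ^ 2) / 2 := by
  have a1 := abs_le.1 ((abs_norm_sub_norm_le P 1).trans hP)
  rw [norm_one] at a1
  have η0 : 0 ≤ η := (abs_nonneg _).trans hy
  have θ0 : 0 ≤ θ := (norm_nonneg _).trans hP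
  have a2 := abs_le.1 hy
  have e1 := (abs_le.1 (Real.abs_exp_sub_one_sub_id_le (x := -y)
    (by rw [abs_neg]; linarith))).2
  have e2 : Real.exp (-y) = Real.exp (-y / 2) ^ 2 := by rw [← Real.exp_nat_mul]; congr 1; push_cast; ring
  have y2 : y ^ 2 ≤ η ^ 2 := sq_le_sq' a2.1 a2.2
  have e0 := Real.exp_pos (-y / 2)
  have p0 := norm_nonneg P
  have k1 : Real.exp (-y / 2) ^ 2 ≤ 1 - y + η ^ 2 := by rw [← e2]; nlinarith
  have k2 : |1 - ‖P‖ ^ 2| ≤ 3 * θ := abs_le.2 ⟨by nlinarith, by nlinarith⟩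
  have k3 : (1 - ‖P‖ ^ 2) * y ≤ 3 * θ * η :=
    (le_abs_self _).trans (by rw [abs_mul]; gcongr)
  have k4 : ‖P‖ ^ 2 * η ^ 2 ≤ 2 * η ^ 2 := by gcongr; nlinarith
  have k5 := mul_le_mul_of_nonneg_left k1 (sq_nonneg ‖P‖)
  refine ⟨?_, by nlinarith [sq_nonneg (‖P‖ * Real.exp (-y / 2) - 1)]⟩
  have k6 : Real.exp (-y / 2) ≤ 4 / 3 := by nlinarith
  nlinarith

theorem psum (q p : ℂ) (s : ℝ) : ∑ j : Fin 4, ‖1 + s * I ^ (j : ℕ) * q + (s * I ^ (j : ℕ)) ^ 2 * p‖ ^ 2 =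
    4 * (1 + s ^ 2 * ‖q‖ ^ 2 + s ^ 4 * ‖p‖ ^ 2) := by
  simp only [Fin.sum_univ_four, Fin.val_zero, Fin.val_one, Fin.val_two, pow_zero, pow_one,
    show ((3 : Fin 4) : ℕ) = 3 from rfl, I_sq, I_pow_three, Complex.sq_norm, normSq_apply]
  simp [pow_two]; ring

end S43

open S43

theorem step : St_STEP := by
  intro F k L k0 L0 ⟨hF, hc⟩
  obtain ⟨M₀, -, hb, hl⟩ := bd hF
  obtain ⟨M, M2, hM, hL⟩ : ∃ M : ℝ, 2 ≤ M ∧ M₀ ≤ M ∧ L ≤ M := ⟨max 2 (max M₀ L), le_max_left _ _,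
    (le_max_left _ _).trans (le_max_right _ _), (le_max_right _ _).trans (le_max_right _ _)⟩
  have M0 : 0 < M := by linarith
  have M1 : 1 ≤ M := by linarith
  obtain ⟨r, r0, ht⟩ := tay hF (w := 1 / (16 * M ^ 2)) (by positivity)
  refine ⟨min (r / (2 * M)) (1 / (40 * M ^ 8)), by positivity,
    fun s s0 hs a b u v q ha hb' hu hv hq q2 => ?_⟩
  have s1 : 2 * s * M ≤ r := by
    have := (le_div_iff₀ (by positivity)).1 (hs.trans (min_le_left _ _)); linarith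
  have s2 : s * M ^ 8 ≤ 1 / 40 := by
    have := (le_div_iff₀ (by positivity)).1 (hs.trans (min_le_right _ _)); linarith
  have s3 : ∀ j ≤ 8, s * M ^ j ≤ 1 / 40 := fun j hj =>
    le_trans (by gcongr) s2
  have s4 : s ≤ 1 / 40 := by simpa using s3 0 (by norm_num)
  have m4 : 1 ≤ M ^ 4 := one_le_pow₀ M1
  have ib : ∀ z : ℂ, ‖z‖ ≤ 5 / 8 → z ∈ closedBall (0 : ℂ) (3 / 4) := fun z hz =>
    mem_closedBall_zero_iff.2 (by linarith)
  have est : ∀ z g ζ : ℂ, ‖z‖ ≤ 5 / 8 → ‖g‖ ≤ L → ‖ζ‖ = s → ‖ζ * Fw F z * g / 2‖ ≤ 1 / 2 ∧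
      |ex F z g ζ| ≤ M ^ 4 * s ^ 2 ∧ qd F z g ζ - s ^ 2 / 4 ≤ ex F z g ζ := fun z g ζ hz hg hζ => by
    obtain ⟨e1, -, e2, e3⟩ := ex_est (F := F) (a := z) (u := g) (w := 1 / (16 * M ^ 2)) M1
      (by positivity) hζ ((s3 2 (by norm_num)).trans (by norm_num)) (hg.trans hL)
      ((hb z (ib z hz)).1.trans hM) ((hb z (ib z hz)).2.trans hM)
      fun h hh => ht z (mem_closedBall_zero_iff.2 hz) h (hh.trans s1)
    rw [show 2 * (1 / (16 * M ^ 2)) * M ^ 2 = 1 / 8 by field_simp; norm_num] at e3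
    have k1 := mul_le_mul_of_nonneg_left (s3 6 (by norm_num)) (sq_nonneg s)
    have k2 := mul_le_mul_of_nonneg_left m4 (sq_nonneg s)
    have k3 := sq_nonneg s
    rw [abs_le] at *
    exact ⟨e1, ⟨by nlinarith, by nlinarith⟩, by nlinarith⟩
  obtain ⟨p, hp, p1⟩ : ∃ p : ℂ, p * (b - a) = u * v * (Fw F b - Fw F a) / 2 +
      (b - a) * (Fw F a * u * (Fw F b * v)) / 4 ∧ ‖p‖ ≤ M ^ 4 := by
    have fa := ((Fw_le F a).trans (hb a (ib a ha)).1).trans hM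
    have fb := ((Fw_le F b).trans (hb b (ib b hb')).1).trans hM
    have hu' := hu.trans hL
    have hv' := hv.trans hL
    by_cases e : b - a = 0
    · exact ⟨0, by rw [sub_eq_zero.1 e]; ring, by simp; positivity⟩
    refine ⟨u * v * ((Fw F b - Fw F a) / (b - a)) / 2 + Fw F a * u * (Fw F b * v) / 4,
      by field_simp, (norm_add_le _ _).trans ?_⟩
    have k1 : ‖(Fw F b - Fw F a) / (b - a)‖ ≤ M := by
      rw [norm_div, div_le_iff₀ (norm_pos_iff.2 e)]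
      exact (hl a (ib a ha) b (ib b hb')).trans (by gcongr)
    have k2 : M ^ 3 ≤ M ^ 4 := pow_le_pow_right₀ M1 (by norm_num)
    calc _ ≤ M * M * M / 2 + M * M * (M * M) / 4 := by
          rw [norm_div, norm_div (_ * _), norm_mul, norm_mul, norm_mul, norm_mul, norm_mul,
            Complex.norm_ofNat, Complex.norm_ofNat]
          gcongr
      _ ≤ _ := by nlinarith
  have l0 : 0 ≤ ln F a b := by unfold ln; positivity
  have key : ∀ ζ : ℂ, ‖ζ‖ = s → ln F (mv F a u ζ) (mv F b v ζ) ≤ 3 / 2 * ln F a b ∧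
      ln F (mv F a u ζ) (mv F b v ζ) ≤ ln F a b * ((1 + ‖1 + ζ * q + ζ ^ 2 * p‖ ^ 2 -
        qd F a u ζ - qd F b v ζ + s ^ 2) / 2) := fun ζ hζ => by
    obtain ⟨a1, a2, a3⟩ := est a u ζ ha hu hζ
    obtain ⟨b1, b2, b3⟩ := est b v ζ hb' hv hζ
    have k4 := s3 4 (by norm_num)
    have k0 := mul_le_mul_of_nonneg_left k4 s0.le
    obtain ⟨o1, o2⟩ := one (P := 1 + ζ * q + ζ ^ 2 * p) (y := ex F a u ζ + ex F b v ζ)
      (η := 2 * (M ^ 4 * s ^ 2)) (θ := 3 * s) ((abs_add_le _ _).trans (by linarith))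
      (by nlinarith) (by
        rw [add_assoc, add_sub_cancel_left]
        refine (norm_add_le _ _).trans ?_
        rw [norm_mul, norm_mul, norm_pow, hζ]
        have : s ^ 2 * ‖p‖ ≤ s ^ 2 * M ^ 4 := by gcongr
        nlinarith) (by linarith)
    rw [ln_eq F a1 b1 hq hp, mul_comm (3 / 2)]
    refine ⟨by gcongr, mul_le_mul_of_nonneg_left (o2.trans ?_) l0⟩
    have k1 := mul_le_mul_of_nonneg_left k4 (sq_nonneg s)
    have k2 : (s * M ^ 4) ^ 2 ≤ (1 / 40) ^ 2 := by gcongr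
    have k3 := mul_le_mul_of_nonneg_left k2 (sq_nonneg s)
    nlinarith
  refine ⟨fun ζ hζ => (key ζ hζ).1, ?_⟩
  have S := Finset.sum_le_sum fun (j : Fin 4) (_ : j ∈ Finset.univ) =>
    (key (s * I ^ (j : ℕ)) (by simp [abs_of_pos s0])).2
  rw [← Finset.mul_sum, ← Finset.sum_div, Finset.sum_add_distrib, Finset.sum_sub_distrib,
    Finset.sum_sub_distrib, Finset.sum_add_distrib, psum, qd_sum, qd_sum] at S
  simp only [Fin.sum_univ_four, Fin.val_zero, Fin.val_one, Fin.val_two, pow_zero, pow_one, mul_one,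
    show ((3 : Fin 4) : ℕ) = 3 from rfl, I_sq, I_pow_three, mul_neg] at S
  refine S.trans ?_
  rw [mul_comm 4 (ln F a b), mul_assoc (ln F a b)]
  refine mul_le_mul_of_nonneg_left ?_ l0
  have ca : 4 * k * Real.exp (-F a) ≤ lap F a := hc a (mem_ball_zero_iff.2 (by linarith))
  have cb : 0 ≤ lap F b := le_trans (by positivity) (hc b (mem_ball_zero_iff.2 (by linarith)))
  have k1 : s ^ 2 * ‖u‖ ^ 2 * (4 * k * Real.exp (-F a)) ≤ s ^ 2 * ‖u‖ ^ 2 * lap F a := by gcongr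
  have k2 : 0 ≤ s ^ 2 * ‖v‖ ^ 2 * lap F b := by positivity
  have k3 : s ^ 2 * ‖q‖ ^ 2 ≤ s ^ 2 * 2 ^ 2 := by gcongr
  have k4 : (s * ‖p‖) ^ 2 ≤ (1 / 40) ^ 2 := by
    gcongr; exact le_trans (by gcongr) (s3 4 (by norm_num))
  have k5 := mul_le_mul_of_nonneg_left k4 (sq_nonneg s)
  nlinarith [sq_nonneg s]

end Pool.Agent.Lib.F4G.My
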