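import Pool.Agent.Lib.F4G.MyDefs

/-! Project f4g, the theorem of Myers: the transformation rule of the derivative. -/

open Set Metric

noncomputable section

namespace Pool.Agent.Lib.F4G.My

theorem fd_Fw (F : ℂ → ℝ) (z ξ : ℂ) : fderiv ℝ F z ξ = 2 * (Fw F z * ξ).re := by
  have e : ξ = ξ.re • (1 : ℂ) + ξ.im • Complex.I := by
    apply Complex.ext <;> simp
  conv_lhs => rw [e, map_add, map_smul, map_smul]
  simp only [Fw, smul_eq_mul, Complex.mul_re, Complex.div_ofNat_re, Complex.div_ofNat_im,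
    Complex.sub_re, Complex.sub_im, Complex.mul_im, Complex.ofReal_re, Complex.ofReal_im,
    Complex.I_re, Complex.I_im]
  ring

theorem Fw_eq {F : ℂ → ℝ} {z A : ℂ} (h : ∀ ξ, fderiv ℝ F z ξ = 2 * (A * ξ).re) : Fw F z = A := by
  rw [Fw, h, h]
  apply Complex.ext <;> simp

theorem cov : St_COV := by
  intro F G a b c d z hdet hm hF hG h
  refine Fw_eq fun η => ?_
  set m := c * z + d with hm'
  set ξ := m ^ 2 * η with hξ
  have l : HasDerivAt (fun t : ℝ => z + t • ξ) ξ 0 := by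
    simpa using ((hasDerivAt_id (0 : ℝ)).smul_const ξ).const_add z
  have l0 : z + (0 : ℝ) • ξ = z := by simp
  have u : HasDerivAt (fun t : ℝ => c * (z + t • ξ) + d) (c * ξ) 0 := (l.const_mul c).add_const d
  have j : HasDerivAt (fun t : ℝ => (a * (z + t • ξ) + b) / (c * (z + t • ξ) + d)) η 0 := by
    have := ((l.const_mul a).add_const b).fun_div u (by rw [l0]; exact hm)
    refine this.congr_deriv ?_
    rw [l0, ← hm', div_eq_iff (pow_ne_zero 2 hm), hξ]
    linear_combination (m ^ 2 * η) * hdet - (a * m ^ 2 * η) * hm'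
  have g : HasDerivAt (fun t : ℝ => G ((a * (z + t • ξ) + b) / (c * (z + t • ξ) + d)))
      (fderiv ℝ G ((a * z + b) / m) η) 0 :=
    HasFDerivAt.comp_hasDerivAt_of_eq (0 : ℝ) hG.hasFDerivAt j (by rw [l0])
  have f : HasDerivAt (fun t : ℝ => F (z + t • ξ)) (fderiv ℝ F z ξ) 0 :=
    HasFDerivAt.comp_hasDerivAt_of_eq (0 : ℝ) hF.hasFDerivAt l l0.symm
  have n0 : ‖m‖ ^ 2 ≠ 0 := pow_ne_zero 2 (norm_ne_zero_iff.2 hm)
  have q := (u.norm_sq.log (by rw [l0]; exact n0)).const_mul 2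
  have e : (fun t : ℝ => G ((a * (z + t • ξ) + b) / (c * (z + t • ξ) + d))) =ᶠ[nhds 0]
      fun t : ℝ => F (z + t • ξ) - 2 * Real.log (‖c * (z + t • ξ) + d‖ ^ 2) := by
    have h' : ∀ᶠ y in nhds (z + (0 : ℝ) • ξ),
        G ((a * y + b) / (c * y + d)) = F y - 4 * Real.log ‖c * y + d‖ := by rwa [l0]
    filter_upwards [l.continuousAt.eventually h'] with t ht
    rw [ht, Real.log_pow]
    push_cast
    ring
  rw [g.unique ((f.fun_sub q).congr_of_eventuallyEq e), fd_Fw, l0, ← hm', Complex.inner,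
    show c * ξ * (starRingEnd ℂ) m = (‖m‖ ^ 2 : ℝ) * (c * m * η) by
      rw [hξ, ← Complex.normSq_eq_norm_sq, ← Complex.mul_conj]; ring,
    Complex.re_ofReal_mul, show (m ^ 2 * Fw F z - 2 * c * m) * η =
      Fw F z * ξ - (2 : ℝ) * (c * m * η) by rw [hξ]; push_cast; ring,
    Complex.sub_re, Complex.re_ofReal_mul]
  field_simp

end Pool.Agent.Lib.F4G.My
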