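import Pool.Agent.Lib.F4G.MyDefs

/-! Project f4g: first order bounds on a smaller disc. -/

open Set Metric

noncomputable section

namespace Pool.Agent.Lib.F4G.My

theorem tay_nrm (L : ℂ →L[ℝ] ℝ) :
    ‖(((L 1 : ℝ) : ℂ) - Complex.I * ((L Complex.I : ℝ) : ℂ)) / 2‖ ≤ ‖L‖ := by
  have h1 : ‖L 1‖ ≤ ‖L‖ := by simpa using L.le_opNorm 1
  have h2 : ‖L Complex.I‖ ≤ ‖L‖ := by simpa using L.le_opNorm Complex.I
  have h3 := norm_sub_le ((L 1 : ℝ) : ℂ) (Complex.I * ((L Complex.I : ℝ) : ℂ))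
  rw [norm_mul, Complex.norm_I, one_mul, Complex.norm_real, Complex.norm_real] at h3
  rw [norm_div, Complex.norm_two]
  linarith

theorem tay_re (L : ℂ →L[ℝ] ℝ) (v : ℂ) :
    2 * ((((L 1 : ℝ) : ℂ) - Complex.I * ((L Complex.I : ℝ) : ℂ)) / 2 * v).re = L v := by
  have h : v = v.re • (1 : ℂ) + v.im • Complex.I := by
    simp [Complex.re_add_im]
  have h2 : L v = v.re * L 1 + v.im * L Complex.I := by
    conv_lhs => rw [h]
    rw [map_add, map_smul, map_smul, smul_eq_mul, smul_eq_mul]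
  rw [h2]
  simp [Complex.mul_re]
  ring

theorem tay : St_TAY := by
  intro F hF
  have hs : closedBall (0 : ℂ) (3 / 4) ⊆ ball 0 1 := closedBall_subset_ball (by norm_num)
  have h1 : ContDiffOn ℝ 1 (fderiv ℝ F) (ball 0 1) :=
    hF.fderiv_of_isOpen isOpen_ball (by norm_num)
  have h2 : ContinuousOn (fderiv ℝ (fderiv ℝ F)) (ball 0 1) :=
    h1.continuousOn_fderiv_of_isOpen isOpen_ball le_rfl
  obtain ⟨C1, c1⟩ := (isCompact_closedBall (0 : ℂ) (3 / 4)).exists_bound_of_continuousOn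
    (h1.continuousOn.mono hs)
  obtain ⟨C2, c2⟩ := (isCompact_closedBall (0 : ℂ) (3 / 4)).exists_bound_of_continuousOn
    (E := ℂ →L[ℝ] ℂ →L[ℝ] ℝ) (f := fderiv ℝ (fderiv ℝ F)) (h2.mono hs)
  have d1 : ∀ x ∈ closedBall (0 : ℂ) (3 / 4), DifferentiableAt ℝ F x := fun x hx =>
    (hF.contDiffAt (isOpen_ball.mem_nhds (hs hx))).differentiableAt (by norm_num)
  have d2 : ∀ x ∈ closedBall (0 : ℂ) (3 / 4), DifferentiableAt ℝ (fderiv ℝ F) x := fun x hx =>
    (h1.contDiffAt (isOpen_ball.mem_nhds (hs hx))).differentiableAt (by norm_num)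
  have lp : ∀ a ∈ closedBall (0 : ℂ) (3 / 4), ∀ b ∈ closedBall (0 : ℂ) (3 / 4),
      ‖fderiv ℝ F b - fderiv ℝ F a‖ ≤ C2 * ‖b - a‖ := fun a ha b hb =>
    (convex_closedBall _ _).norm_image_sub_le_of_norm_fderiv_le d2 c2 ha hb
  have p2 : 0 ≤ C2 := (norm_nonneg _).trans (c2 0 (mem_closedBall_self (by norm_num)))
  refine ⟨max 1 (max C1 C2), le_max_left _ _, fun a b ha hb => ?_⟩
  have ha' : a ∈ closedBall (0 : ℂ) (3 / 4) := mem_closedBall_zero_iff.2 ha
  have hb' : b ∈ closedBall (0 : ℂ) (3 / 4) := mem_closedBall_zero_iff.2 hb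
  have e1 : C1 ≤ max 1 (max C1 C2) := (le_max_left _ _).trans (le_max_right _ _)
  have e2 : C2 ≤ max 1 (max C1 C2) := (le_max_right _ _).trans (le_max_right _ _)
  refine ⟨((tay_nrm _).trans (c1 a ha')).trans e1, ?_, ?_⟩
  · have e : Fw F b - Fw F a = ((((fderiv ℝ F b - fderiv ℝ F a) 1 : ℝ) : ℂ) -
        Complex.I * (((fderiv ℝ F b - fderiv ℝ F a) Complex.I : ℝ) : ℂ)) / 2 := by
      simp only [Fw, ContinuousLinearMap.sub_apply, Complex.ofReal_sub]
      ring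
    rw [e]
    exact ((tay_nrm _).trans (lp a ha' b hb')).trans
      (mul_le_mul_of_nonneg_right e2 (norm_nonneg _))
  · have sb : segment ℝ a b ⊆ closedBall (0 : ℂ) (3 / 4) :=
      (convex_closedBall _ _).segment_subset ha' hb'
    have h3 := (convex_segment a b).norm_image_sub_le_of_norm_fderiv_le' (𝕜 := ℝ) (f := F)
      (φ := fderiv ℝ F a) (C := C2 * ‖b - a‖) (fun x hx => d1 x (sb hx)) (fun x hx => by
        refine (lp a ha' x (sb hx)).trans (mul_le_mul_of_nonneg_left ?_ p2)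
        exact norm_sub_le_of_mem_segment hx) (left_mem_segment ℝ a b) (right_mem_segment ℝ a b)
    rw [Fw, tay_re, ← Real.norm_eq_abs]
    refine h3.trans ?_
    rw [mul_assoc, ← sq]
    exact mul_le_mul_of_nonneg_right e2 (sq_nonneg _)

end Pool.Agent.Lib.F4G.My
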