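import Pool.Agent.Lib.F4G.MyD
import Pool.Agent.Lib.F4G.MyTay
import Pool.Agent.Lib.F4G.MyCov
import Pool.Agent.Lib.F4G.My43

/-! Project f4g: the theorem of Myers for an atlas of discs. -/

namespace Pool.Agent.Lib.F4G.My

theorem myers : St_MYERS := myers_of step tay cov

end Pool.Agent.Lib.F4G.My
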