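import Pool.Agent.Lib.F4.AllA
import Pool.Agent.Lib.F4.AllD
import Pool.Agent.Lib.F4.AllR
import Pool.Agent.Lib.F4.AllS
import Pool.Agent.Lib.F4.AllT
import Pool.Agent.Lib.F4.B_OUZ
import Pool.Agent.Lib.F4.O_KBM
import Pool.Agent.Lib.F4.O_FH
import Pool.Agent.Lib.F4.O_VW
import Pool.Agent.Lib.ZK.All2
import Pool.Agent.Lib.K3E.B_MER
import Pool.Agent.Lib.F4G.G_ATL
import Pool.Agent.Lib.F4G.G_AY
import Pool.Agent.Lib.F4G.G_BOX
import Pool.Agent.Lib.F4G.G_FIN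
import Pool.Agent.Lib.F4G.G_FLAT
import Pool.Agent.Lib.F4G.G_GAM
import Pool.Agent.Lib.F4G.G_MEANb
import Pool.Agent.Lib.F4G.G_ORB
import Pool.Agent.Lib.F4G.G_OUT
import Pool.Agent.Lib.F4G.G_QUO
import Pool.Agent.Lib.F4G.Gr47b
import Pool.Agent.Lib.F4G.MyAll

/-! Project f4g: the theorem. -/

namespace Pool.Agent.Lib.F4G

open Pool.Agent.Lib.F4

theorem aF4G : St_F4G :=
  have p := KP.st_POI KP.st_HARM KP.st_CPT
  f4g_of (mn_of aALG (st_OUZ ZK.zkMain2) aS3 aS34 LD.aLD st_DEV st_BOX st_GAM (st_ORB p)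
    (st_FLAT p) (st_FIN st_ATL My.myers st_GRD st_MEAN st_QUO st_AY)) st_KBM st_FH
    (st_VW IDX.aIDX K3E.bKAN aXP aXT aOS aPT1) aZ0 K3E.bMER

end Pool.Agent.Lib.F4G
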