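import Pool.Agent.Lib.F4G.M_MEA
import Pool.Agent.Lib.F4G.M_MFU
import Pool.Agent.Lib.F4G.M_MLE
import Pool.Agent.Lib.F4G.M_MPT
import Pool.Agent.Lib.F4G.M_MTU
import Pool.Agent.Lib.F4G.M_MEX
import Pool.Agent.Lib.F4G.M_MGE
import Pool.Agent.Lib.F4G.M_MCO

/-! Project f4g, step five: assembly. -/

namespace Pool.Agent.Lib.F4G

theorem aMCO : St_MCO :=
  st_MCO (st_MTU_of fun _ _ _ h1 h2 => pfLo62 h1 h2) st_MEX st_MGE st_MHA

theorem aMEA : St_MEA := st_MEA st_MFU st_MLE st_MPT aMCO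

end Pool.Agent.Lib.F4G
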