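import Mathlib

/-! Project f4g: a chain of good links extends to a disc of uniform radius. -/

open Set

set_option linter.unusedVariables false

namespace Pool.Agent.Lib.F4G

theorem moeb_sub37 {a b c d x z : ℂ} (h : a * d - b * c = 1) (hx : c * x + d ≠ 0)
    (hz : c * z + d ≠ 0) :
    (a * x + b) / (c * x + d) - (a * z + b) / (c * z + d) =
      (x - z) / ((c * x + d) * (c * z + d)) := by
  rw [div_sub_div _ _ hx hz]
  congr 1
  linear_combination (x - z) * h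

theorem inv_le37 {u : ℂ} {s t B : ℝ} (hu : u ≠ 0) (h : s = t - 4 * Real.log ‖u‖) (hs : |s| ≤ B)
    (ht : |t| ≤ B) : Real.exp (-(B / 2)) ≤ ‖u‖ := by
  have p : 0 < ‖u‖ := norm_pos_iff.2 hu
  rw [← Real.exp_log p, Real.exp_le_exp]
  have := abs_le.1 hs
  have := abs_le.1 ht
  linarith

theorem ext37 {V I : Type*} (p : V → I) (F : I → ℂ → ℝ) (a b c d : V → V → ℂ)
    (J G : V → ℂ → V → ℂ → Prop) (B ρ : ℝ) (hρ : 0 < ρ)
    (det : ∀ v w, a v w * d v w - b v w * c v w = 1)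
    (tr : ∀ u x v y w z, J u x v y → J v y w z → J u x w z)
    (rf : ∀ v z, ‖z‖ < 1 → J v z v z)
    (iso : ∀ v z w y, J v z w y → c v w * z + d v w ≠ 0 ∧
      y = (a v w * z + b v w) / (c v w * z + d v w) ∧ ‖z‖ < 1 ∧ ‖y‖ < 1 ∧
      F (p w) y = F (p v) z - 4 * Real.log ‖c v w * z + d v w‖)
    (bd : ∀ i z, ‖z‖ < 1 → |F i z| ≤ B)
    (gj : ∀ v z w y, G v z w y → J v z w y)
    (good : ∀ v z w y, G v z w y → ∀ x, ‖x - z‖ < ρ →
      J v x w ((a v w * x + b v w) / (c v w * x + d v w)))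
    (ref : ∀ v z w y, J v z w y → ‖z‖ ≤ 3 / 4 → ‖y‖ ≤ 3 / 4 →
      Relation.ReflTransGen (fun s t : V × ℂ => G s.1 s.2 t.1 t.2) (v, z) (w, y)) :
    ∃ r : ℝ, 0 < r ∧ ∀ v z w y, J v z w y → ‖z‖ ≤ 3 / 4 → ‖y‖ ≤ 3 / 4 → ∀ x, ‖x - z‖ < r →
      J v x w ((a v w * x + b v w) / (c v w * x + d v w)) := by
  refine ⟨min (1 / 4) (ρ * Real.exp (-B)), lt_min (by norm_num) (by positivity), ?_⟩
  intro v z w y hJ hz hy x hx
  have x1 : ‖x‖ < 1 := by
    have : ‖x‖ ≤ ‖x - z‖ + ‖z‖ := by simpa using norm_add_le (x - z) z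
    have := hx.trans_le (min_le_left _ _)
    linarith
  have key : ∀ t : V × ℂ,
      Relation.ReflTransGen (fun s t : V × ℂ => G s.1 s.2 t.1 t.2) (v, z) t →
      J v z t.1 t.2 ∧ ∃ x', J v x t.1 x' := by
    intro t ht
    induction ht with
    | refl => exact ⟨rf v z (by linarith), x, rf v x x1⟩
    | @tail s t _ hg ih =>
      obtain ⟨j0, x', j1⟩ := ih
      refine ⟨tr _ _ _ _ _ _ j0 (gj _ _ _ _ hg), _, tr _ _ _ _ _ _ j1 (good _ _ _ _ hg x' ?_)⟩
      obtain ⟨n0, e0, a0, b0, f0⟩ := iso _ _ _ _ j0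
      obtain ⟨n1, e1, a1, b1, f1⟩ := iso _ _ _ _ j1
      have l0 := inv_le37 n0 f0 (bd _ _ b0) (bd _ _ a0)
      have l1 := inv_le37 n1 f1 (bd _ _ b1) (bd _ _ a1)
      have pe : 0 < Real.exp (-(B / 2)) := Real.exp_pos _
      have ee : Real.exp (-(B / 2)) * Real.exp (-(B / 2)) = Real.exp (-B) := by
        rw [← Real.exp_add]
        congr 1
        ring
      rw [e1, e0, moeb_sub37 (det _ _) n1 n0, norm_div, norm_mul,
        div_lt_iff₀ (mul_pos (pe.trans_le l1) (pe.trans_le l0))]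
      refine (hx.trans_le (min_le_right _ _)).trans_le (mul_le_mul_of_nonneg_left ?_ hρ.le)
      rw [← ee]
      exact mul_le_mul l1 l0 pe.le (norm_nonneg _)
  obtain ⟨-, x', j⟩ := key _ (ref v z w y hJ hz hy)
  have e := (iso _ _ _ _ j).2.1
  exact e ▸ j

end Pool.Agent.Lib.F4G
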