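import Mathlib

/-! Project f4g: a chain of common points moves to nearby values off a countable set. -/

open Set Filter Topology

namespace Pool.Agent.Lib.F4G

/-- A chain of open elementary links persists near its start, and off a countable set all values
along the chain avoid the countable sets `T`. -/
theorem gen74 {V : Type*} (T : V → Set ℂ) (hT : ∀ v, (T v).Countable)
    (El : V × ℂ → V × ℂ → Prop)
    (opn : ∀ a b, El a b → ∃ (M : ℂ → ℂ) (N : Set ℂ), N ∈ 𝓝 a.2 ∧ Tendsto M (𝓝 a.2) (𝓝 b.2) ∧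
      InjOn M N ∧ ∀ x ∈ N, El (a.1, x) (b.1, M x))
    {a b : V × ℂ} (h : Relation.ReflTransGen El a b) :
    ∃ (M : ℂ → ℂ) (N S : Set ℂ), N ∈ 𝓝 a.2 ∧ S.Countable ∧ Tendsto M (𝓝 a.2) (𝓝 b.2) ∧
      InjOn M N ∧ ∀ x ∈ N, Relation.ReflTransGen El (a.1, x) (b.1, M x) ∧
        (x ∉ S → x ∉ T a.1 ∧ M x ∉ T b.1 ∧ Relation.ReflTransGen
          (fun s t => El s t ∧ s.2 ∉ T s.1 ∧ t.2 ∉ T t.1) (a.1, x) (b.1, M x)) := by
  induction h with
  | refl =>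
    exact ⟨id, univ, T a.1, univ_mem, hT _, tendsto_id, injOn_id _,
      fun x _ => ⟨.refl, fun hx => ⟨hx, hx, .refl⟩⟩⟩
  | @tail b c _ hbc ih =>
    obtain ⟨M, N, S, hN, hS, hM, hI, hx⟩ := ih
    obtain ⟨M', N', hN', hM', hI', hx'⟩ := opn b c hbc
    have hJ : InjOn (M' ∘ M) (N ∩ M ⁻¹' N') := fun x p y q e =>
      hI p.1 q.1 (hI' p.2 q.2 e)
    refine ⟨M' ∘ M, N ∩ M ⁻¹' N', S ∪ (N ∩ M ⁻¹' N') ∩ (M' ∘ M) ⁻¹' T c.1,
      inter_mem hN (hM hN'), hS.union ?_, hM'.comp hM, hJ, fun x p => ⟨(hx x p.1).1.tail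
        (hx' _ p.2), fun q => ?_⟩⟩
    · exact countable_of_injective_of_countable_image (hJ.mono inter_subset_left)
        ((hT c.1).mono (by rintro _ ⟨y, hy, rfl⟩; exact hy.2))
    · obtain ⟨h1, h2, h3⟩ := (hx x p.1).2 fun r => q (Or.inl r)
      have h4 : (M' ∘ M) x ∉ T c.1 := fun r => q (Or.inr ⟨p, r⟩)
      exact ⟨h1, h4, h3.tail ⟨hx' _ p.2, h2, h4⟩⟩

/-- The same on a whole set of values, with one countable set; `fn` says that the far value of a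
chain is determined by the two vertices and the first value. -/
theorem genSet74 {V : Type*} (T : V → Set ℂ) (hT : ∀ v, (T v).Countable)
    (El : V × ℂ → V × ℂ → Prop)
    (opn : ∀ a b, El a b → ∃ (M : ℂ → ℂ) (N : Set ℂ), N ∈ 𝓝 a.2 ∧ Tendsto M (𝓝 a.2) (𝓝 b.2) ∧
      InjOn M N ∧ ∀ x ∈ N, El (a.1, x) (b.1, M x))
    (v w : V) (fn : ∀ x y y', Relation.ReflTransGen El (v, x) (w, y) →
      Relation.ReflTransGen El (v, x) (w, y') → y = y') :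
    ∃ S : Set ℂ, S.Countable ∧ ∀ x y, Relation.ReflTransGen El (v, x) (w, y) → x ∉ S →
      x ∉ T v ∧ y ∉ T w ∧ Relation.ReflTransGen
        (fun s t => El s t ∧ s.2 ∉ T s.1 ∧ t.2 ∉ T t.1) (v, x) (w, y) := by
  let D : Set ℂ := {x | ∃ y, Relation.ReflTransGen El (v, x) (w, y)}
  have key : ∀ z : ℂ, ∃ N S : Set ℂ, S.Countable ∧ (z ∈ D → N ∈ 𝓝 z) ∧ ∀ x ∈ N, ∀ y,
      Relation.ReflTransGen El (v, x) (w, y) → x ∉ S → x ∉ T v ∧ y ∉ T w ∧ Relation.ReflTransGen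
        (fun s t => El s t ∧ s.2 ∉ T s.1 ∧ t.2 ∉ T t.1) (v, x) (w, y) := by
    intro z
    by_cases hz : z ∈ D
    · obtain ⟨y, hy⟩ := hz
      obtain ⟨M, N, S, hN, hS, -, -, hx⟩ := gen74 T hT El opn hy
      refine ⟨N, S, hS, fun _ => hN, fun x p y' q r => ?_⟩
      obtain rfl : y' = M x := fn x _ _ q (hx x p).1
      exact (hx x p).2 r
    · exact ⟨∅, ∅, countable_empty, fun h => absurd h hz, fun x p => p.elim⟩
  choose N S hS hN hx using key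
  obtain ⟨s, hs, hc, hcov⟩ := TopologicalSpace.countable_cover_nhdsWithin (f := N) (s := D)
    fun z hz => mem_nhdsWithin_of_mem_nhds (hN z hz)
  refine ⟨⋃ z ∈ s, S z, hc.biUnion fun z _ => hS z, fun x y q r => ?_⟩
  obtain ⟨z, hz, p⟩ := mem_iUnion₂.1 (hcov (show x ∈ D from ⟨y, q⟩))
  exact hx z x p y q fun t => r (mem_iUnion₂.2 ⟨z, hz, t⟩)

/-- A point near the start off the countable set, with the far value near the far end. -/
theorem genPt74 {V : Type*} (T : V → Set ℂ) (hT : ∀ v, (T v).Countable)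
    (El : V × ℂ → V × ℂ → Prop)
    (opn : ∀ a b, El a b → ∃ (M : ℂ → ℂ) (N : Set ℂ), N ∈ 𝓝 a.2 ∧ Tendsto M (𝓝 a.2) (𝓝 b.2) ∧
      InjOn M N ∧ ∀ x ∈ N, El (a.1, x) (b.1, M x))
    {a b : V × ℂ} (h : Relation.ReflTransGen El a b) {ε : ℝ} (hε : 0 < ε) :
    ∃ x y, ‖x - a.2‖ < ε ∧ ‖y - b.2‖ < ε ∧ x ∉ T a.1 ∧ y ∉ T b.1 ∧ Relation.ReflTransGen
      (fun s t => El s t ∧ s.2 ∉ T s.1 ∧ t.2 ∉ T t.1) (a.1, x) (b.1, y) := by
  obtain ⟨M, N, S, hN, hS, hM, -, hx⟩ := gen74 T hT El opn h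
  have h1 : N ∩ (Metric.ball a.2 ε ∩ M ⁻¹' Metric.ball b.2 ε) ∈ 𝓝 a.2 :=
    inter_mem hN (inter_mem (Metric.ball_mem_nhds _ hε) (hM (Metric.ball_mem_nhds _ hε)))
  obtain ⟨x, q, p⟩ := (hS.dense_compl ℂ).inter_nhds_nonempty h1
  obtain ⟨h2, h3, h4⟩ := (hx x p.1).2 q
  exact ⟨x, M x, mem_ball_iff_norm.1 p.2.1, mem_ball_iff_norm.1 p.2.2, h2, h3, h4⟩

/-- The hypothesis `opn` at a common point where two coordinates differ by a Moebius map. -/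
theorem opn74 {X : Type*} [TopologicalSpace X] {O : Set X} {x₀ : X} (W W' : X → ℂ) {a b c d : ℂ}
    (det : a * d - b * c = 1) (hO : O ∈ 𝓝 x₀) (hop : ∀ N ∈ 𝓝 x₀, W '' N ∈ 𝓝 (W x₀))
    (hf : ∀ x ∈ O, c * W x + d ≠ 0 ∧ W' x = (a * W x + b) / (c * W x + d)) :
    ∃ (M : ℂ → ℂ) (N : Set ℂ), N ∈ 𝓝 (W x₀) ∧ Tendsto M (𝓝 (W x₀)) (𝓝 (W' x₀)) ∧ InjOn M N ∧
      ∀ z ∈ N, ∃ x ∈ O, W x = z ∧ W' x = M z := by
  have h0 := hf x₀ (mem_of_mem_nhds hO)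
  refine ⟨fun z => (a * z + b) / (c * z + d), W '' O, hop O hO, ?_, ?_, ?_⟩
  · rw [h0.2]
    exact ContinuousAt.div (f := fun z => a * z + b) (g := fun z => c * z + d) (by fun_prop)
      (by fun_prop) h0.1
  · rintro _ ⟨x, p, rfl⟩ _ ⟨y, q, rfl⟩ e
    rw [div_eq_div_iff (hf x p).1 (hf y q).1] at e
    linear_combination e - (W x - W y) * det
  · rintro _ ⟨x, p, rfl⟩
    exact ⟨x, p, rfl, (hf x p).2⟩

end Pool.Agent.Lib.F4G
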