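import Pool.Agent.Lib.F4G.BlueM

/-! Project f4g: change of variable in the plane. -/

open scoped ENNReal NNReal
open Set MeasureTheory

noncomputable section

namespace Pool.Agent.Lib.F4G

theorem mcv_det (a : ℂ) : (a • (1 : ℂ →L[ℝ] ℂ)).det = ‖a‖ ^ 2 := by
  rw [ContinuousLinearMap.det, ← LinearMap.det_toMatrix Complex.basisOneI, Matrix.det_fin_two,
    Complex.sq_norm, Complex.normSq_apply]
  simp [LinearMap.toMatrix_apply]

theorem st_MCV : St_MCV := by
  intro A m m' L hA hi hd χ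
  have h := lintegral_image_eq_lintegral_abs_det_fderiv_mul volume hA
    (fun w hw => (hd w hw).1.complexToReal_fderiv.hasFDerivWithinAt) hi χ
  calc ∫⁻ w in A, χ (m w)
      ≤ ∫⁻ w in A, (L ^ 2 : ℝ≥0) * (ENNReal.ofReal |(m' w • (1 : ℂ →L[ℝ] ℂ)).det| * χ (m w)) := by
        refine setLIntegral_mono' hA fun w hw => ?_
        rw [← mul_assoc]
        refine le_mul_of_one_le_left' ?_
        rw [mcv_det, abs_of_nonneg (sq_nonneg _), ← ENNReal.ofReal_coe_nnreal,
          ← ENNReal.ofReal_mul (NNReal.coe_nonneg _), ENNReal.one_le_ofReal, NNReal.coe_pow,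
          ← mul_pow]
        exact one_le_pow₀ (hd w hw).2
    _ = (L ^ 2 : ℝ≥0) * ∫⁻ w in m '' A, χ w := by
        rw [h, lintegral_const_mul' _ _ ENNReal.coe_ne_top]
    _ ≤ _ := mul_le_mul' le_rfl (setLIntegral_le_lintegral _ _)

end Pool.Agent.Lib.F4G
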