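import Pool.Agent.Lib.F4G.BlueM
import Pool.Agent.Lib.F4G.MyAtl
import Pool.Agent.Lib.F4G.Ext37
import Pool.Agent.Lib.F4G.Gen74
import Pool.Agent.Lib.F4G.M_MCV

/-! Project f4g: the links of the atlas of discs are links in the sense of step five. -/

open scoped Topology NNReal
open Set Filter Metric

namespace Pool.Agent.Lib.F4G

open Pool.Agent.Lib.SV (E)

/-- Common points persist. -/
theorem opnG74 {n : ℕ} {V : Type} {U : V → Set (E n)} {W : V → E n → ℂ}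
    {Com : V → E n → V → E n → Prop} {Good : V → ℂ → Prop} {Mo : V → V → ℂ → ℂ}
    (hG : Geo U W Com Good Mo) (sy : ∀ v x v' x', Com v x v' x' → Com v' x' v x)
    (den : ∀ v, ∀ x ∈ U v, ∀ N ∈ 𝓝 x, W v '' N ∈ 𝓝 (W v x)) (a b : V × ℂ)
    (h : El W Com a b) : ∃ (M : ℂ → ℂ) (N : Set ℂ), N ∈ 𝓝 a.2 ∧ Tendsto M (𝓝 a.2) (𝓝 b.2) ∧
      InjOn M N ∧ ∀ x ∈ N, El W Com (a.1, x) (b.1, M x) := by
  obtain ⟨v, z⟩ := a
  obtain ⟨v', z'⟩ := b
  obtain ⟨x, x', hc, ez, ez'⟩ := h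
  dsimp only at hc ez ez' ⊢
  subst ez ez'
  obtain ⟨hx, hx', τ, τ', hτ, rfl, hy⟩ := hG.com _ _ _ _ hc
  have ho := den v x hx
  have e1 : ∀ y, Com v y v' (τ y) → W v' (τ y) = Mo v v' (W v y) := fun y p =>
    hG.val (v, W v y) (v', W v' (τ y)) (.single ⟨y, τ y, p, rfl, rfl⟩)
  have e2 : ∀ y, Com v y v' (τ y) → W v y = Mo v' v (Mo v v' (W v y)) := fun y p => by
    rw [← e1 y p]
    exact hG.val (v', W v' (τ y)) (v, W v y) (.single ⟨τ y, y, sy _ _ _ _ p, rfl, rfl⟩)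
  refine ⟨Mo v v', W v '' {y | Com v y v' (τ y)}, ho _ hy, fun O hO => ?_, ?_, ?_⟩
  · have h1 : ContinuousAt (fun y => W v' (τ y)) x :=
      ContinuousAt.comp ((hG.hol v').continuousOn.continuousAt ((hG.opn v').mem_nhds hx'))
        hτ.continuousAt
    refine mem_map.2 (mem_of_superset (ho _ (inter_mem hy (h1 hO))) ?_)
    rintro _ ⟨y, ⟨p, q⟩, rfl⟩
    change Mo v v' (W v y) ∈ O
    rw [← e1 y p]
    exact q
  · rintro _ ⟨y, p, rfl⟩ _ ⟨y', q, rfl⟩ e
    rw [e2 y p, e, ← e2 y' q]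
  · rintro _ ⟨y, p, rfl⟩
    exact ⟨y, τ y, p, rfl, e1 y p⟩

theorem mlk74 {n : ℕ} {V I : Type} {p : V → I} {F : I → ℂ → ℝ}
    {J : V → ℂ → V → ℂ → Prop} {k B r : ℝ} (hA : My.Atl p F J k B r) {U : V → Set (E n)}
    {W : V → E n → ℂ} {Com : V → E n → V → E n → Prop} {Good : V → ℂ → Prop}
    {Mo : V → V → ℂ → ℂ} (hG : Geo U W Com Good Mo)
    (sy : ∀ v x v' x', Com v x v' x' → Com v' x' v x)
    (den : ∀ v, ∀ x ∈ U v, ∀ N ∈ 𝓝 x, W v '' N ∈ 𝓝 (W v x))
    (hT : ∀ v, {w | ¬Good v w}.Countable)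
    (hJ : ∀ v z w y, J v z w y → Relation.ReflTransGen (El W Com) (v, z) (w, y)) :
    ∃ (r' : ℝ) (L : ℝ≥0), 0 < r' ∧ ∀ v v', My.Lk J v v' →
      ∃ z, Lnk W Com Good Mo (7 / 8) r' L v v' z := by
  have hB := Real.exp_pos B
  refine ⟨min r (min (1 / 8) (1 / (8 * Real.exp B))), ⟨Real.exp B, hB.le⟩ ^ 2,
    lt_min hA.hr (lt_min (by norm_num) (by positivity)), ?_⟩
  rintro v v' ⟨z, y, hz, hy, hj⟩
  obtain ⟨a, b, c, d, det, e0, hx⟩ := hA.ext v z v' y hj hz hy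
  set ρ := min r (min (1 / 8) (1 / (8 * Real.exp B))) with hρ
  have r1 : ρ ≤ r := min_le_left _ _
  have r2 : ρ ≤ 1 / 8 := (min_le_right _ _).trans (min_le_left _ _)
  have r3 : ρ ≤ 1 / (8 * Real.exp B) := (min_le_right _ _).trans (min_le_right _ _)
  have n1 : ∀ x, ‖x - z‖ < ρ → ‖x‖ < 7 / 8 := fun x h => by
    have := norm_add_le (x - z) z
    rw [sub_add_cancel] at this
    linarith
  have k1 : ∀ x, ‖x - z‖ < ρ → c * x + d ≠ 0 ∧ Real.exp (-(B / 2)) ≤ ‖c * x + d‖ ∧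
      ‖c * x + d‖ ^ 2 ≤ Real.exp B ∧ Mo v v' x = (a * x + b) / (c * x + d) ∧
      Relation.ReflTransGen (El W Com) (v, x) (v', Mo v v' x) := fun x h => by
    obtain ⟨h1, h2, h3, h4⟩ := hx x (h.trans_le r1)
    have b1 := hA.bd (p v') _ h2
    have b2 := hA.bd (p v) x (by linarith [n1 x h])
    have e : Mo v v' x = (a * x + b) / (c * x + d) := (hG.val _ _ (hJ _ _ _ _ h3)).symm
    refine ⟨h1, inv_le37 h1 h4 b1 b2, ?_, e, e ▸ hJ _ _ _ _ h3⟩
    have q : 0 < ‖c * x + d‖ := norm_pos_iff.2 h1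
    rw [← Real.exp_log q, ← Real.exp_nat_mul, Real.exp_le_exp]
    have := abs_le.1 b1
    have := abs_le.1 b2
    push_cast
    linarith
  have hρ0 : 0 < ρ := lt_min hA.hr (lt_min (by norm_num) (by positivity))
  have kz := k1 z (by simpa using hρ0)
  refine ⟨z, fun x h => mem_closedBall_zero_iff.2 (n1 x (mem_ball_iff_norm.1 h)).le,
    fun x h => ?_, fun χ _ => ?_, ?_⟩
  · have h' := mem_ball_iff_norm.1 h
    obtain ⟨h1, h2, -, h4, -⟩ := k1 x h'
    have h5 : ‖Mo v v' x - y‖ ≤ 1 / 8 := by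
      rw [h4, ← e0, moeb_sub37 det h1 kz.1, norm_div, norm_mul,
        div_le_iff₀ (mul_pos (norm_pos_iff.2 h1) (norm_pos_iff.2 kz.1))]
      have h6 : Real.exp (-(B / 2)) * Real.exp (-(B / 2)) ≤ ‖c * x + d‖ * ‖c * z + d‖ :=
        mul_le_mul h2 kz.2.1 (Real.exp_pos _).le (norm_nonneg _)
      have h7 : Real.exp (-(B / 2)) * Real.exp (-(B / 2)) = (Real.exp B)⁻¹ := by
        rw [← Real.exp_add, ← Real.exp_neg]
        congr 1
        ring
      have h8 : 1 / (8 * Real.exp B) = 1 / 8 * (Real.exp B)⁻¹ := by field_simp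
      linarith
    have := norm_add_le (Mo v v' x - y) y
    rw [sub_add_cancel] at this
    exact mem_closedBall_zero_iff.2 (by linarith)
  · refine st_MCV (ball z ρ) (Mo v v') (fun w => 1 / (c * w + d) ^ 2) ⟨Real.exp B, hB.le⟩
      measurableSet_ball (fun x h x' h' e => ?_) (fun w h => ⟨?_, ?_⟩) χ
    · obtain ⟨h1, -, -, h4, -⟩ := k1 x (mem_ball_iff_norm.1 h)
      obtain ⟨h2, -, -, h5, -⟩ := k1 x' (mem_ball_iff_norm.1 h')
      rw [h4, h5, div_eq_div_iff h1 h2] at e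
      linear_combination e - (x - x') * det
    · have h1 := (k1 w (mem_ball_iff_norm.1 h)).1
      have h2 : HasDerivAt (fun x => (a * x + b) / (c * x + d))
          ((a * (c * w + d) - (a * w + b) * c) / (c * w + d) ^ 2) w := by
        have t1 : HasDerivAt (fun x => a * x + b) a w := by
          simpa using ((hasDerivAt_id w).const_mul a).add_const b
        have t2 : HasDerivAt (fun x => c * x + d) c w := by
          simpa using ((hasDerivAt_id w).const_mul c).add_const d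
        exact t1.div t2 h1
      have h3 : a * (c * w + d) - (a * w + b) * c = 1 := by linear_combination det
      rw [h3] at h2
      refine h2.congr_of_eventuallyEq ?_
      filter_upwards [isOpen_ball.mem_nhds h] with x hx'
      exact (k1 x (mem_ball_iff_norm.1 hx')).2.2.2.1
    · obtain ⟨h1, -, h3, -⟩ := k1 w (mem_ball_iff_norm.1 h)
      have q : 0 < ‖c * w + d‖ ^ 2 := pow_pos (norm_pos_iff.2 h1) 2
      change 1 ≤ Real.exp B * _
      rw [norm_div, norm_one, norm_pow, mul_one_div, le_div_iff₀ q, one_mul]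
      exact h3
  · obtain ⟨S, hS, h⟩ := genSet74 (fun v => {w | ¬Good v w}) hT (El W Com) (opnG74 hG sy den) v v'
      fun x y y' p q => (hG.val _ _ p).trans (hG.val _ _ q).symm
    refine ⟨S, hS, fun w hw => ?_⟩
    obtain ⟨h1, h2, h3⟩ := h w _ (k1 w (mem_ball_iff_norm.1 hw.1)).2.2.2.2 hw.2
    refine ⟨not_not.1 h1, not_not.1 h2, ?_⟩
    generalize (v', Mo v v' w) = t at h3
    induction h3 with
    | refl => exact .refl
    | tail _ q ih => exact ih.tail ⟨q.1, not_not.1 q.2.1, not_not.1 q.2.2⟩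

end Pool.Agent.Lib.F4G
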