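import Pool.Agent.Lib.F4G.BlueN
import Pool.Agent.Lib.F4G.M_MLK

/-! Project f4g: the links of a family of boxes. -/

open Set Filter Metric

namespace Pool.Agent.Lib.F4G

open Pool.Agent.Lib.HS32 Pool.Agent.Lib.F4

theorem st_MLK (hG : St_MGO) : St_MLK := by
  intro n M α k B r b atl
  refine mlk74 atl (hG n M α k B b).1 ?_ (fun v x hx => b.op v.1 x hx)
    (fun _ => b.cnt.mono fun w h => not_not.1 h) fun v z w y h => ?_
  · rintro v x v' x' ⟨y, y1, y2, e1, e2, e3⟩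
    have o1 : In (b.e v.1) (ball (b.p v.1) (b.R v.1)) y := ⟨y1.1, b.uq _ y1.2⟩
    have o2 : In (b.e v'.1) (ball (b.p v'.1) (b.R v'.1)) y := ⟨y2.1, b.uq _ y2.2⟩
    have k1 : b.c v.1 v.1 y = 1 :=
      mul_left_cancel (((b.lc _ _ y o1 o1).2.2 _ o1).trans (mul_one _).symm)
    exact ⟨y, y2, y1, e2, e1, by rw [e3, mul_assoc, (b.lc _ _ y o1 o2).2.2 _ o1, k1, mul_one]⟩
  · have h1 : ∀ s t, b.El s t → El (fun v : b.I × PG => b.W v.1) b.Com s t := by
      rintro s t ⟨x, x1, x2, e1, e2, e3⟩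
      exact ⟨_, _, ⟨x, x1, x2, rfl, rfl, e3⟩, e1.symm, e2.symm⟩
    unfold Box.J at h
    generalize (w, y) = t at h
    induction h with
    | single q => exact .single (h1 _ _ q)
    | tail _ q ih => exact ih.tail (h1 _ _ q)

end Pool.Agent.Lib.F4G
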