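import Pool.Agent.Lib.F4G.Blue
import Pool.Agent.Lib.F4G.M_MLKb

/-! Project f4g: the cost of a link, row of the blueprint. -/

namespace Pool.Agent.Lib.F4G

theorem mean_of (hA : St_MEA) (hG : St_MGO) : St_MEAN := st_MEANS hA hG (st_MLK hG)

end Pool.Agent.Lib.F4G
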