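import Pool.Agent.Lib.F4G.AllM
import Pool.Agent.Lib.F4G.M_MGO
import Pool.Agent.Lib.F4G.G_MEAN

/-! Project f4g, step five on a family of boxes: assembly. -/

namespace Pool.Agent.Lib.F4G

theorem aMEAN : St_MEAN := mean_of aMEA st_MGO

end Pool.Agent.Lib.F4G
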