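import Pool.Agent.Lib.F4G.Atl98

/-! F4G: the atlas relation with vertices in `SL(2, ℂ)` and cocycles up to sign. -/

namespace Pool.Agent.Lib.F4G

open Set Filter Topology Metric Relation
open scoped MatrixGroups

section AtlS
variable {X I : Type} [TopologicalSpace X]

/-- A common point of two boxes, the group elements being related up to sign. -/
def ComS98 (U : I → Set X) (W : I → X → ℂ) (c : I → I → X → SL(2, ℂ))
    (a b : (I × SL(2, ℂ)) × ℂ) : Prop :=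
  ∃ x, x ∈ U a.1.1 ∧ x ∈ U b.1.1 ∧ W a.1.1 x = a.2 ∧ W b.1.1 x = b.2 ∧
    (b.1.2 = a.1.2 * c a.1.1 b.1.1 x ∨ b.1.2 = -(a.1.2 * c a.1.1 b.1.1 x))

/-- The subgroup of the two signs. -/
def sg98 : Subgroup SL(2, ℂ) where
  carrier := {g | g = 1 ∨ g = -1}
  one_mem' := Or.inl rfl
  mul_mem' := by
    rintro a b (rfl | rfl) (rfl | rfl) <;> simp
  inv_mem' := by
    rintro a (rfl | rfl)
    · exact Or.inl inv_one
    · exact Or.inr (inv_eq_of_mul_eq_one_left (by simp))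

instance sg98_normal : sg98.Normal where
  conj_mem := by
    rintro a (rfl | rfl) g
    · exact Or.inl (by simp)
    · exact Or.inr (by simp)

theorem mk98 (g h : SL(2, ℂ)) :
    (QuotientGroup.mk g : SL(2, ℂ) ⧸ sg98) = QuotientGroup.mk h ↔ g = h ∨ g = -h := by
  rw [eq_comm, QuotientGroup.eq]
  show (h⁻¹ * g = 1 ∨ h⁻¹ * g = -1) ↔ _
  rw [inv_mul_eq_iff_eq_mul, inv_mul_eq_iff_eq_mul, mul_one, mul_neg, mul_one]

variable {U : I → Set X} {W : I → X → ℂ} {c : I → I → X → SL(2, ℂ)}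

omit [TopologicalSpace X] in
theorem comS98 (a b : (I × SL(2, ℂ)) × ℂ) : ComS98 U W c a b ↔
    Com98 U W (fun i j x => (QuotientGroup.mk (c i j x) : SL(2, ℂ) ⧸ sg98))
      ((a.1.1, QuotientGroup.mk a.1.2), a.2) ((b.1.1, QuotientGroup.mk b.1.2), b.2) := by
  refine exists_congr fun x => and_congr_right fun _ => and_congr_right fun _ =>
    and_congr_right fun _ => and_congr_right fun _ => ?_
  exact (mk98 _ _).symm

omit [TopologicalSpace X] in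
theorem transS98 (a b : (I × SL(2, ℂ)) × ℂ) : TransGen (ComS98 U W c) a b ↔
    TransGen (Com98 U W (fun i j x => (QuotientGroup.mk (c i j x) : SL(2, ℂ) ⧸ sg98)))
      ((a.1.1, QuotientGroup.mk a.1.2), a.2) ((b.1.1, QuotientGroup.mk b.1.2), b.2) := by
  constructor
  · intro h
    induction h with
    | single h => exact TransGen.single ((comS98 _ _).1 h)
    | tail _ h ih => exact ih.tail ((comS98 _ _).1 h)
  · have key : ∀ q : (I × (SL(2, ℂ) ⧸ sg98)) × ℂ,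
        TransGen (Com98 U W (fun i j x => (QuotientGroup.mk (c i j x) : SL(2, ℂ) ⧸ sg98)))
          ((a.1.1, QuotientGroup.mk a.1.2), a.2) q → ∀ b : (I × SL(2, ℂ)) × ℂ,
        q = ((b.1.1, QuotientGroup.mk b.1.2), b.2) → TransGen (ComS98 U W c) a b := by
      intro q h
      induction h with
      | single h =>
        rintro b rfl
        exact TransGen.single ((comS98 _ _).2 h)
      | @tail u q _ h ih =>
        rintro b rfl
        have e : u = ((u.1.1, QuotientGroup.mk (Quotient.out u.1.2)), u.2) := by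
          rw [QuotientGroup.out_eq']
        refine (ih ((u.1.1, Quotient.out u.1.2), u.2) e).tail ((comS98 _ _).2 ?_)
        rw [e] at h
        exact h
    exact fun h => key _ h b rfl

omit [TopologicalSpace X] in
theorem leftS98 (f : SL(2, ℂ)) {a b : (I × SL(2, ℂ)) × ℂ} (h : TransGen (ComS98 U W c) a b) :
    TransGen (ComS98 U W c) ((a.1.1, f * a.1.2), a.2) ((b.1.1, f * b.1.2), b.2) := by
  rw [transS98] at h ⊢
  exact left98 (QuotientGroup.mk f) h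

theorem sign98 (A C : Matrix (Fin 2) (Fin 2) ℂ) (hC : C = A ∨ C = -A) (z y : ℂ) (p q : ℝ)
    (h : A 0 0 + A 0 1 * z ≠ 0 ∧ y = (A 1 0 + A 1 1 * z) / (A 0 0 + A 0 1 * z) ∧
      q = p - 4 * Real.log ‖A 0 0 + A 0 1 * z‖) :
    C 0 0 + C 0 1 * z ≠ 0 ∧ y = (C 1 0 + C 1 1 * z) / (C 0 0 + C 0 1 * z) ∧
      q = p - 4 * Real.log ‖C 0 0 + C 0 1 * z‖ :=
  comp98 A 1 C (by rwa [one_mul]) z y y p q q h.1 h.2.1 h.2.2 (by simp) (by simp) (by simp)

theorem out98 (g : SL(2, ℂ)) :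
    (Quotient.out (QuotientGroup.mk g : SL(2, ℂ) ⧸ sg98)).1 = g.1 ∨
      (Quotient.out (QuotientGroup.mk g : SL(2, ℂ) ⧸ sg98)).1 = -g.1 := by
  rcases (mk98 _ g).1 (QuotientGroup.out_eq' (QuotientGroup.mk g : SL(2, ℂ) ⧸ sg98)) with h | h
  · exact Or.inl (congrArg Subtype.val h)
  · exact Or.inr (congrArg Subtype.val h)

theorem outmul98 (g h : SL(2, ℂ) ⧸ sg98) :
    (Quotient.out (g * h)).1 = (Quotient.out g).1 * (Quotient.out h).1 ∨
      (Quotient.out (g * h)).1 = -((Quotient.out g).1 * (Quotient.out h).1) := by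
  have e : g * h = QuotientGroup.mk (Quotient.out g * Quotient.out h) := by
    rw [QuotientGroup.mk_mul, QuotientGroup.out_eq', QuotientGroup.out_eq']
  have k := out98 (Quotient.out g * Quotient.out h)
  rw [← e] at k
  exact k

omit [TopologicalSpace X] in
theorem isoS98 (hco : ∀ i j k x, x ∈ U i → x ∈ U j → x ∈ U k →
      c i j x * c j k x = c i k x ∨ c i j x * c j k x = -c i k x)
    (hball : ∀ i x, x ∈ U i → ‖W i x‖ < 1) (F : I → ℂ → ℝ)
    (htr : ∀ i j x, x ∈ U i → x ∈ U j →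
      (c j i x).1 0 0 + (c j i x).1 0 1 * W i x ≠ 0 ∧
      W j x = ((c j i x).1 1 0 + (c j i x).1 1 1 * W i x) /
        ((c j i x).1 0 0 + (c j i x).1 0 1 * W i x) ∧
      F j (W j x) = F i (W i x) - 4 * Real.log ‖(c j i x).1 0 0 + (c j i x).1 0 1 * W i x‖)
    {a b : (I × SL(2, ℂ)) × ℂ} (h : TransGen (ComS98 U W c) a b) :
    ‖a.2‖ < 1 ∧ ‖b.2‖ < 1 ∧
      (b.1.2⁻¹ * a.1.2).1 0 0 + (b.1.2⁻¹ * a.1.2).1 0 1 * a.2 ≠ 0 ∧
      b.2 = ((b.1.2⁻¹ * a.1.2).1 1 0 + (b.1.2⁻¹ * a.1.2).1 1 1 * a.2) /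
        ((b.1.2⁻¹ * a.1.2).1 0 0 + (b.1.2⁻¹ * a.1.2).1 0 1 * a.2) ∧
      F b.1.1 b.2 = F a.1.1 a.2 -
        4 * Real.log ‖(b.1.2⁻¹ * a.1.2).1 0 0 + (b.1.2⁻¹ * a.1.2).1 0 1 * a.2‖ := by
  obtain ⟨h1, h2, h3⟩ := iso98 (fun i j k x hi hj hk => (mk98 _ _).2 (hco i j k x hi hj hk)) hball F
    (fun q => (Quotient.out q).1) outmul98
    (fun i j x hi hj => sign98 _ _ (out98 _) _ _ _ _ (htr i j x hi hj)) ((transS98 a b).1 h)
  refine ⟨h1, h2, sign98 _ _ ?_ _ _ _ _ h3⟩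
  rcases out98 (b.1.2⁻¹ * a.1.2) with k | k
  · exact Or.inl k.symm
  · exact Or.inr (neg_eq_iff_eq_neg.1 k.symm)

theorem atlS98 [CompactSpace X] [T2Space X] [Finite I] (hU : ∀ i, IsOpen (U i))
    (hcov : ∀ x, ∃ i, x ∈ U i ∧ ‖W i x‖ ≤ 1 / 2)
    (hct : ∀ i x, x ∈ U i → ContinuousAt (W i) x)
    (hop : ∀ i x, x ∈ U i → ∀ N ∈ 𝓝 x, W i '' N ∈ 𝓝 (W i x))
    (hlc : ∀ i j x, x ∈ U i → x ∈ U j → ∀ᶠ y in 𝓝 x, c i j y = c i j x ∨ c i j y = -c i j x)
    (hco : ∀ i j k x, x ∈ U i → x ∈ U j → x ∈ U k →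
      c i j x * c j k x = c i k x ∨ c i j x * c j k x = -c i k x)
    (hball : ∀ i x, x ∈ U i → ‖W i x‖ < 1)
    (hfib : ∀ i z, IsPreconnected (U i ∩ W i ⁻¹' {z}))
    (s : I → ℂ → X) (hs : ∀ i, ContinuousOn (s i) (ball 0 1))
    (hsU : ∀ i z, ‖z‖ < 1 → s i z ∈ U i ∧ W i (s i z) = z) (F : I → ℂ → ℝ)
    (htr : ∀ i j x, x ∈ U i → x ∈ U j →
      (c j i x).1 0 0 + (c j i x).1 0 1 * W i x ≠ 0 ∧
      W j x = ((c j i x).1 1 0 + (c j i x).1 1 1 * W i x) /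
        ((c j i x).1 0 0 + (c j i x).1 0 1 * W i x) ∧
      F j (W j x) = F i (W i x) - 4 * Real.log ‖(c j i x).1 0 0 + (c j i x).1 0 1 * W i x‖)
    (k B : ℝ) (hk : 0 < k) (hcv : ∀ i, My.Cv k (F i)) (hB : ∀ i z, ‖z‖ < 1 → |F i z| ≤ B) :
    ∃ r : ℝ, My.Atl (fun v : I × SL(2, ℂ) => v.1) F
      (fun v z w y => TransGen (ComS98 U W c) (v, z) (w, y)) k B r := by
  obtain ⟨r, h⟩ := atl98 (c := fun i j x => (QuotientGroup.mk (c i j x) : SL(2, ℂ) ⧸ sg98)) hU hcov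
    hct hop (fun i j x hi hj => (hlc i j x hi hj).mono fun y hy => (mk98 _ _).2 hy)
    (fun i j k x hi hj hk => (mk98 _ _).2 (hco i j k x hi hj hk)) hball hfib s hs hsU F
    (fun q => (Quotient.out q).1) (fun q => (Quotient.out q).2) outmul98
    (fun i j x hi hj => sign98 _ _ (out98 _) _ _ _ _ (htr i j x hi hj)) k B hk hcv hB
  refine ⟨r, hk, h.hr, hcv, hB, fun v z hz => (transS98 _ _).2 (h.refl _ z hz),
    fun v z w y a => (transS98 _ _).2 (h.symm _ _ _ _ ((transS98 _ _).1 a)),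
    fun _ _ _ _ _ _ a b => a.trans b, fun v z hz => ?_, fun v z w y a hz hy => ?_⟩
  · obtain ⟨w, y, h1, h2⟩ := h.inn (v.1, QuotientGroup.mk v.2) z hz
    refine ⟨(w.1, Quotient.out w.2), y, h1, (transS98 _ _).2 ?_⟩
    show TransGen _ _ ((w.1, QuotientGroup.mk (Quotient.out w.2)), y)
    rw [QuotientGroup.out_eq']
    exact h2
  · obtain ⟨a1, b1, c1, d1, h1, h2, h3⟩ := h.ext _ z _ y ((transS98 _ _).1 a) hz hy
    refine ⟨a1, b1, c1, d1, h1, h2, fun x hx => ?_⟩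
    obtain ⟨k1, k2, k3, k4⟩ := h3 x hx
    exact ⟨k1, k2, (transS98 _ _).2 k3, k4⟩

end AtlS

end Pool.Agent.Lib.F4G
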