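import Pool.Agent.Lib.F4G.Atl98
import Pool.Agent.Lib.F4G.Gen74

/-! F4G: the atlas relation when the fibres are connected off a countable set. -/

namespace Pool.Agent.Lib.F4G

open Set Filter Topology Metric Relation

theorem extT98 {V I : Type} (p : V → I) (F : I → ℂ → ℝ) (a b c d : V → V → ℂ)
    (El : V × ℂ → V × ℂ → Prop) (B ρ : ℝ) (hρ : 0 < ρ)
    (det : ∀ v w, a v w * d v w - b v w * c v w = 1)
    (iso : ∀ v z w y, TransGen El (v, z) (w, y) → c v w * z + d v w ≠ 0 ∧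
      y = (a v w * z + b v w) / (c v w * z + d v w) ∧ ‖z‖ < 1 ∧ ‖y‖ < 1 ∧
      F (p w) y = F (p v) z - 4 * Real.log ‖c v w * z + d v w‖)
    (bd : ∀ i z, ‖z‖ < 1 → |F i z| ≤ B) (v : V) (z x : ℂ) (rz : TransGen El (v, z) (v, z))
    (rx : TransGen El (v, x) (v, x)) (hx : ‖x - z‖ < ρ * Real.exp (-B)) {t : V × ℂ}
    (ht : ReflTransGen (fun s t : V × ℂ => El s t ∧
      ∀ u : ℂ, ‖u - s.2‖ < ρ → ∃ y, El (s.1, u) (t.1, y)) (v, z) t) :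
    ∃ y, TransGen El (v, x) (t.1, y) := by
  have key : TransGen El (v, z) t ∧ ∃ y, TransGen El (v, x) (t.1, y) := by
    induction ht with
    | refl => exact ⟨rz, x, rx⟩
    | @tail s t _ hg ih =>
      obtain ⟨j0, x', j1⟩ := ih
      refine ⟨j0.tail hg.1, (hg.2 x' ?_).imp fun y hy => j1.tail hy⟩
      obtain ⟨n0, e0, a0, b0, f0⟩ := iso v z s.1 s.2 j0
      obtain ⟨n1, e1, a1, b1, f1⟩ := iso _ _ _ _ j1
      have l0 := inv_le37 n0 f0 (bd _ _ b0) (bd _ _ a0)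
      have l1 := inv_le37 n1 f1 (bd _ _ b1) (bd _ _ a1)
      have pe : 0 < Real.exp (-(B / 2)) := Real.exp_pos _
      have ee : Real.exp (-(B / 2)) * Real.exp (-(B / 2)) = Real.exp (-B) := by
        rw [← Real.exp_add]
        congr 1
        ring
      rw [e1, e0, moeb_sub37 (det _ _) n1 n0, norm_div, norm_mul,
        div_lt_iff₀ (mul_pos (pe.trans_le l1) (pe.trans_le l0))]
      refine hx.trans_le (mul_le_mul_of_nonneg_left ?_ hρ.le)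
      rw [← ee]
      exact mul_le_mul l1 l0 pe.le (norm_nonneg _)
  exact key.2

section Atl
variable {X I Γ : Type} [TopologicalSpace X] [Group Γ]
  {U : I → Set X} {W : I → X → ℂ} {c : I → I → X → Γ}

theorem opn98 (hU : ∀ i, IsOpen (U i))
    (hop : ∀ i x, x ∈ U i → ∀ N ∈ 𝓝 x, W i '' N ∈ 𝓝 (W i x))
    (hlc : ∀ i j x, x ∈ U i → x ∈ U j → ∀ᶠ y in 𝓝 x, c i j y = c i j x)
    (_hco : ∀ i j k x, x ∈ U i → x ∈ U j → x ∈ U k → c i j x * c j k x = c i k x)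
    (F : I → ℂ → ℝ) (m : Γ → Matrix (Fin 2) (Fin 2) ℂ) (hm1 : ∀ g, (m g).det = 1)
    (htr : ∀ i j x, x ∈ U i → x ∈ U j →
      m (c j i x) 0 0 + m (c j i x) 0 1 * W i x ≠ 0 ∧
      W j x = (m (c j i x) 1 0 + m (c j i x) 1 1 * W i x) /
        (m (c j i x) 0 0 + m (c j i x) 0 1 * W i x) ∧
      F j (W j x) = F i (W i x) - 4 * Real.log ‖m (c j i x) 0 0 + m (c j i x) 0 1 * W i x‖)
    {a b : (I × Γ) × ℂ} (h : Com98 U W c a b) :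
    ∃ (M : ℂ → ℂ) (N : Set ℂ), N ∈ 𝓝 a.2 ∧ Tendsto M (𝓝 a.2) (𝓝 b.2) ∧ InjOn M N ∧
      ∀ x ∈ N, Com98 U W c (a.1, x) (b.1, M x) := by
  obtain ⟨x, hi, hj, h1, h2, h3⟩ := h
  have hO : {y | y ∈ U a.1.1 ∧ y ∈ U b.1.1 ∧ c a.1.1 b.1.1 y = c a.1.1 b.1.1 x ∧
      c b.1.1 a.1.1 y = c b.1.1 a.1.1 x} ∈ 𝓝 x := by
    filter_upwards [(hU _).mem_nhds hi, (hU _).mem_nhds hj, hlc _ _ x hi hj, hlc _ _ x hj hi]
      with y k1 k2 k3 k4 using ⟨k1, k2, k3, k4⟩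
  have det : m (c b.1.1 a.1.1 x) 1 1 * m (c b.1.1 a.1.1 x) 0 0 -
      m (c b.1.1 a.1.1 x) 1 0 * m (c b.1.1 a.1.1 x) 0 1 = 1 := by
    have h := hm1 (c b.1.1 a.1.1 x)
    rw [Matrix.det_fin_two] at h
    linear_combination h
  obtain ⟨M, N, k1, k2, k3, k4⟩ := opn74 (W a.1.1) (W b.1.1) det hO (hop _ x hi) (by
    rintro y ⟨l1, l2, -, l4⟩
    obtain ⟨q1, q2, -⟩ := htr _ _ y l1 l2
    rw [l4] at q1 q2
    rw [add_comm (m (c b.1.1 a.1.1 x) 0 1 * _), add_comm (m (c b.1.1 a.1.1 x) 1 1 * _)]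
    exact ⟨q1, q2⟩)
  rw [h1] at k1 k2
  rw [h2] at k2
  refine ⟨M, N, k1, k2, k3, fun z hz => ?_⟩
  obtain ⟨y, ⟨l1, l2, l3, -⟩, l5, l6⟩ := k4 z hz
  exact ⟨y, l1, l2, l5, l6, by rw [l3]; exact h3⟩

theorem refT98 [CompactSpace X] [T2Space X] [Finite I] (hU : ∀ i, IsOpen (U i))
    (hcov : ∀ x, ∃ i, x ∈ U i)
    (hct : ∀ i x, x ∈ U i → ContinuousAt (W i) x)
    (hop : ∀ i x, x ∈ U i → ∀ N ∈ 𝓝 x, W i '' N ∈ 𝓝 (W i x))
    (hlc : ∀ i j x, x ∈ U i → x ∈ U j → ∀ᶠ y in 𝓝 x, c i j y = c i j x)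
    (hco : ∀ i j k x, x ∈ U i → x ∈ U j → x ∈ U k → c i j x * c j k x = c i k x)
    (T : Set ℂ) (hfib : ∀ i z, z ∉ T → IsPreconnected (U i ∩ W i ⁻¹' {z}))
    (hdet : ∀ i j x y, x ∈ U i → x ∈ U j → y ∈ U i → y ∈ U j → W i x = W i y →
      c i j x = c i j y → W j x = W j y)
    (s : I → ℂ → X) (hs : ∀ i, ContinuousOn (s i) (ball 0 1))
    (hsU : ∀ i z, ‖z‖ < 1 → s i z ∈ U i ∧ W i (s i z) = z) (R : ℝ) (hR : R < 1) :
    ∃ ρ : ℝ, 0 < ρ ∧ ∀ a b : (I × Γ) × ℂ,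
      TransGen (fun a b : (I × Γ) × ℂ => Com98 U W c a b ∧ a.2 ∉ T ∧ b.2 ∉ T) a b →
      ‖a.2‖ ≤ R → ‖b.2‖ ≤ R → TransGen (fun a b : (I × Γ) × ℂ => Com98 U W c a b ∧
        ∀ z : ℂ, ‖z - a.2‖ < ρ → ∃ y, Com98 U W c (a.1, z) (b.1, y)) a b := by
  obtain ⟨V, hV, hVo, hVc⟩ := exists_iUnion_eq_closure_subset hU (fun x => toFinite _)
    (eq_univ_of_forall fun x => mem_iUnion.2 (hcov x))
  have hsub : closedBall (0 : ℂ) R ⊆ ball 0 1 := closedBall_subset_ball hR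
  obtain ⟨K, hK, hKU, hVK, hsK⟩ : ∃ K : I → Set X, (∀ i, IsCompact (K i)) ∧ (∀ i, K i ⊆ U i) ∧
      (∀ i, V i ⊆ K i) ∧ ∀ i z, ‖z‖ ≤ R → s i z ∈ K i := by
    refine ⟨fun i => closure (V i) ∪ s i '' closedBall 0 R, fun i => ?_, fun i => ?_,
      fun i => subset_closure.trans subset_union_left, fun i z hz => ?_⟩
    · exact isClosed_closure.isCompact.union
        ((isCompact_closedBall _ _).image_of_continuousOn ((hs i).mono hsub))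
    · rintro x (hx | ⟨z, hz, rfl⟩)
      · exact hVc i hx
      · exact (hsU i z (mem_ball_zero_iff.1 (hsub hz))).1
    · exact Or.inr ⟨z, mem_closedBall_zero_iff.2 hz, rfl⟩
  have hρ : ∀ q : I × I, ∃ ρ : ℝ, 0 < ρ ∧ ∀ x ∈ K q.1 ∩ K q.2, ∀ z : ℂ, ‖z - W q.1 x‖ < ρ →
      ∃ y, y ∈ U q.1 ∧ y ∈ U q.2 ∧ W q.1 y = z ∧ c q.1 q.2 y = c q.1 q.2 x := fun q =>
    unif98 hU hct hop hlc q.1 q.2 _ ((hK q.1).inter (hK q.2))
      (inter_subset_left.trans (hKU _)) (inter_subset_right.trans (hKU _))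
  choose r hr0 hr using hρ
  obtain ⟨ρ, hρ0, hρ⟩ : ∃ ρ : ℝ, 0 < ρ ∧ ∀ q, ρ ≤ r q := by
    have h1 : ∀ᶠ ρ in 𝓝[>] (0 : ℝ), ∀ q, ρ ≤ r q := by
      rw [eventually_all]
      intro q
      exact mem_nhdsWithin_of_mem_nhds (Iic_mem_nhds (hr0 q))
    obtain ⟨ρ, h2, h3⟩ := (h1.and self_mem_nhdsWithin).exists
    exact ⟨ρ, h3, h2⟩
  refine ⟨ρ, hρ0, ?_⟩
  set E : (I × Γ) × ℂ → (I × Γ) × ℂ → Prop := fun a b => Com98 U W c a b ∧
        ∀ z : ℂ, ‖z - a.2‖ < ρ → ∃ y, Com98 U W c (a.1, z) (b.1, y) with hE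
  have hVx : ∀ x, ∃ j, x ∈ V j := fun x => mem_iUnion.1 (hV ▸ mem_univ x)
  have A : ∀ i g j k x, x ∈ U i → x ∈ K j → x ∈ K k →
      E ((j, g * c i j x), W j x) ((k, g * c i k x), W k x) := by
    intro i g j k x hi hj hk
    have e : g * c i k x = g * c i j x * c j k x := by
      rw [mul_assoc, hco i j k x hi (hKU j hj) (hKU k hk)]
    refine ⟨⟨x, hKU j hj, hKU k hk, rfl, rfl, e⟩, fun z hz => ?_⟩
    obtain ⟨y, h1, h2, h3, h4⟩ := hr (j, k) x ⟨hj, hk⟩ z (hz.trans_le (hρ _))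
    refine ⟨W k y, y, h1, h2, h3, rfl, ?_⟩
    show g * c i k x = g * c i j x * c j k y
    rw [e]
    exact congrArg _ h4.symm
  have B : ∀ i g z x y, z ∉ T → x ∈ U i ∩ W i ⁻¹' {z} → y ∈ U i ∩ W i ⁻¹' {z} → ∀ j k, x ∈ K j →
      y ∈ K k → TransGen E ((j, g * c i j x), W j x) ((k, g * c i k y), W k y) := by
    intro i g z x y hz hx hy
    refine (hfib i z hz).induction₂' (fun x y => ∀ j k, x ∈ K j →
      y ∈ K k → TransGen E ((j, g * c i j x), W j x) ((k, g * c i k y), W k y)) ?_ ?_ hx hy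
    · intro x hx
      obtain ⟨l, hl⟩ := hVx x
      have hlU : x ∈ U l := hKU l (hVK l hl)
      filter_upwards [self_mem_nhdsWithin, mem_nhdsWithin_of_mem_nhds ((hVo l).mem_nhds hl),
        mem_nhdsWithin_of_mem_nhds (hlc i l x hx.1 hlU)] with y hy h1 h2
      have h3 : W l y = W l x := hdet i l y x hy.1 (hKU l (hVK l h1)) hx.1 hlU
        ((show W i y = z from hy.2).trans (show W i x = z from hx.2).symm) h2
      constructor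
      · intro j k hj hk
        have k1 := A i g j l x hx.1 hj (hVK l hl)
        have k2 := A i g l k y hy.1 (hVK l h1) hk
        rw [h2, h3] at k2
        exact (TransGen.single k1).tail k2
      · intro j k hj hk
        have k1 := A i g j l y hy.1 hj (hVK l h1)
        have k2 := A i g l k x hx.1 (hVK l hl) hk
        rw [h2, h3] at k1
        exact (TransGen.single k1).tail k2
    · intro x y u _ _ _ h1 h2 j k hj hk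
      obtain ⟨l, hl⟩ := hVx y
      exact (h1 j l hj (hVK l hl)).trans (h2 l k (hVK l hl) hk)
  have C1 : ∀ a b, (Com98 U W c a b ∧ a.2 ∉ T ∧ b.2 ∉ T) → ∀ x y,
      x ∈ U a.1.1 ∩ W a.1.1 ⁻¹' {a.2} →
      y ∈ U b.1.1 ∩ W b.1.1 ⁻¹' {b.2} → ∀ j k, x ∈ K j → y ∈ K k →
      TransGen E ((j, a.1.2 * c a.1.1 j x), W j x) ((k, b.1.2 * c b.1.1 k y), W k y) := by
    rintro a b ⟨⟨u, hi, hj, h1, h2, h3⟩, ta, tb⟩ x y hx hy j k hxj hyk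
    obtain ⟨l, hl⟩ := hVx u
    have k1 := B a.1.1 a.1.2 a.2 x u ta hx ⟨hi, h1⟩ j l hxj (hVK l hl)
    have k2 := B b.1.1 b.1.2 b.2 u y tb ⟨hj, h2⟩ hy l k (hVK l hl) hyk
    have e : b.1.2 * c b.1.1 l u = a.1.2 * c a.1.1 l u := by
      rw [h3, mul_assoc, hco _ _ _ u hi hj (hKU l (hVK l hl))]
    rw [e] at k2
    exact k1.trans k2
  have C : ∀ a b,
      TransGen (fun a b : (I × Γ) × ℂ => Com98 U W c a b ∧ a.2 ∉ T ∧ b.2 ∉ T) a b → ∀ x y,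
      x ∈ U a.1.1 ∩ W a.1.1 ⁻¹' {a.2} →
      y ∈ U b.1.1 ∩ W b.1.1 ⁻¹' {b.2} → ∀ j k, x ∈ K j → y ∈ K k →
      TransGen E ((j, a.1.2 * c a.1.1 j x), W j x) ((k, b.1.2 * c b.1.1 k y), W k y) := by
    intro a b h
    induction h with
    | single h => exact C1 _ _ h
    | @tail b d _ h ih =>
      intro x y hx hy j k hj hk
      obtain ⟨⟨u, hi, -, h1, -⟩, -⟩ := id h
      obtain ⟨l, hl⟩ := hVx u
      exact (ih x u hx ⟨hi, h1⟩ j l hj (hVK l hl)).trans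
        (C1 _ _ h u y ⟨hi, h1⟩ hy l k (hVK l hl) hk)
  intro a b h ha hb
  obtain ⟨a1, a2⟩ := hsU a.1.1 a.2 (ha.trans_lt hR)
  obtain ⟨b1, b2⟩ := hsU b.1.1 b.2 (hb.trans_lt hR)
  have k := C a b h _ _ ⟨a1, a2⟩ ⟨b1, b2⟩ _ _ (hsK _ _ ha) (hsK _ _ hb)
  rw [one98 hco a1, one98 hco b1, mul_one, mul_one, a2, b2] at k
  exact k

theorem atlT98 [CompactSpace X] [T2Space X] [Finite I] (hU : ∀ i, IsOpen (U i))
    (hcov : ∀ x, ∃ i, x ∈ U i ∧ ‖W i x‖ ≤ 1 / 2)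
    (hct : ∀ i x, x ∈ U i → ContinuousAt (W i) x)
    (hop : ∀ i x, x ∈ U i → ∀ N ∈ 𝓝 x, W i '' N ∈ 𝓝 (W i x))
    (hlc : ∀ i j x, x ∈ U i → x ∈ U j → ∀ᶠ y in 𝓝 x, c i j y = c i j x)
    (hco : ∀ i j k x, x ∈ U i → x ∈ U j → x ∈ U k → c i j x * c j k x = c i k x)
    (hball : ∀ i x, x ∈ U i → ‖W i x‖ < 1)
    (T : Set ℂ) (hT : T.Countable)
    (hfib : ∀ i z, z ∉ T → IsPreconnected (U i ∩ W i ⁻¹' {z}))
    (s : I → ℂ → X) (hs : ∀ i, ContinuousOn (s i) (ball 0 1))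
    (hsU : ∀ i z, ‖z‖ < 1 → s i z ∈ U i ∧ W i (s i z) = z)
    (F : I → ℂ → ℝ) (m : Γ → Matrix (Fin 2) (Fin 2) ℂ) (hm1 : ∀ g, (m g).det = 1)
    (hm : ∀ g h, m (g * h) = m g * m h ∨ m (g * h) = -(m g * m h))
    (htr : ∀ i j x, x ∈ U i → x ∈ U j →
      m (c j i x) 0 0 + m (c j i x) 0 1 * W i x ≠ 0 ∧
      W j x = (m (c j i x) 1 0 + m (c j i x) 1 1 * W i x) /
        (m (c j i x) 0 0 + m (c j i x) 0 1 * W i x) ∧
      F j (W j x) = F i (W i x) - 4 * Real.log ‖m (c j i x) 0 0 + m (c j i x) 0 1 * W i x‖)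
    (k B : ℝ) (hk : 0 < k) (hcv : ∀ i, My.Cv k (F i)) (hB : ∀ i z, ‖z‖ < 1 → |F i z| ≤ B) :
    ∃ r : ℝ, My.Atl (fun v : I × Γ => v.1) F
      (fun v z w y => TransGen (Com98 U W c) (v, z) (w, y)) k B r := by
  have hinv : ∀ i j x, x ∈ U i → x ∈ U j → c j i x = (c i j x)⁻¹ := fun i j x hi hj =>
    eq_inv_of_mul_eq_one_left (by rw [hco j i j x hj hi hj, one98 hco hj])
  have hdet : ∀ i j x y, x ∈ U i → x ∈ U j → y ∈ U i → y ∈ U j → W i x = W i y →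
      c i j x = c i j y → W j x = W j y := by
    intro i j x y h1 h2 h3 h4 h5 h6
    rw [(htr i j x h1 h2).2.1, (htr i j y h3 h4).2.1, hinv i j x h1 h2, hinv i j y h3 h4, h5, h6]
  obtain ⟨ρ, hρ, href⟩ := refT98 hU (fun x => (hcov x).imp fun _ h => h.1) hct hop hlc hco T
    hfib hdet s hs hsU (7 / 8) (by norm_num)
  have rf : ∀ (v : I × Γ) z, ‖z‖ < 1 → TransGen (Com98 U W c) (v, z) (v, z) := by
    intro v z hz
    obtain ⟨h1, h2⟩ := hsU v.1 z hz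
    refine TransGen.single ⟨s v.1 z, h1, h1, h2, h2, ?_⟩
    show v.2 = v.2 * c v.1 v.1 (s v.1 z)
    rw [one98 hco h1, mul_one]
  have iso : ∀ (v : I × Γ) z (w : I × Γ) y, TransGen (Com98 U W c) (v, z) (w, y) →
      m (w.2⁻¹ * v.2) 0 1 * z + m (w.2⁻¹ * v.2) 0 0 ≠ 0 ∧
      y = (m (w.2⁻¹ * v.2) 1 1 * z + m (w.2⁻¹ * v.2) 1 0) /
        (m (w.2⁻¹ * v.2) 0 1 * z + m (w.2⁻¹ * v.2) 0 0) ∧ ‖z‖ < 1 ∧ ‖y‖ < 1 ∧
      F w.1 y = F v.1 z - 4 * Real.log ‖m (w.2⁻¹ * v.2) 0 1 * z + m (w.2⁻¹ * v.2) 0 0‖ := by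
    intro v z w y h
    obtain ⟨h1, h2, h3, h4, h5⟩ := iso98 hco hball F m hm htr h
    rw [add_comm (m (w.2⁻¹ * v.2) 0 1 * z), add_comm (m (w.2⁻¹ * v.2) 1 1 * z)]
    exact ⟨h3, h4, h1, h2, h5⟩
  have det : ∀ v w : I × Γ, m (w.2⁻¹ * v.2) 1 1 * m (w.2⁻¹ * v.2) 0 0 -
      m (w.2⁻¹ * v.2) 1 0 * m (w.2⁻¹ * v.2) 0 1 = 1 := by
    intro v w
    have h := hm1 (w.2⁻¹ * v.2)
    rw [Matrix.det_fin_two] at h
    linear_combination h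
  have opn : ∀ a b : (I × Γ) × ℂ, Com98 U W c a b → ∃ (M : ℂ → ℂ) (N : Set ℂ), N ∈ 𝓝 a.2 ∧
      Tendsto M (𝓝 a.2) (𝓝 b.2) ∧ InjOn M N ∧ ∀ x ∈ N, Com98 U W c (a.1, x) (b.1, M x) :=
    fun a b h => opn98 hU hop hlc hco F m hm1 htr h
  obtain ⟨r, hr, hext⟩ : ∃ r : ℝ, 0 < r ∧ ∀ (v : I × Γ) z (w : I × Γ) y,
      TransGen (Com98 U W c) (v, z) (w, y) → ‖z‖ ≤ 3 / 4 → ‖y‖ ≤ 3 / 4 → ∀ x, ‖x - z‖ < r →
      TransGen (Com98 U W c) (v, x) (w, (m (w.2⁻¹ * v.2) 1 1 * x + m (w.2⁻¹ * v.2) 1 0) /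
        (m (w.2⁻¹ * v.2) 0 1 * x + m (w.2⁻¹ * v.2) 0 0)) := by
    have p0 : 0 < min (1 / 8) (ρ * Real.exp (-B) / 2) := lt_min (by norm_num) (by positivity)
    refine ⟨_, p0, fun v z w y h hz hy x hx => ?_⟩
    obtain ⟨x0, y0, k1, k2, -, -, k3⟩ := genPt74 (fun _ => T) (fun _ => hT) _ opn
      h.to_reflTransGen p0
    have b1 := min_le_left (1 / 8 : ℝ) (ρ * Real.exp (-B) / 2)
    have b2 := min_le_right (1 / 8 : ℝ) (ρ * Real.exp (-B) / 2)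
    have n1 : ‖x0‖ ≤ ‖x0 - z‖ + ‖z‖ := by simpa using norm_add_le (x0 - z) z
    have n2 : ‖y0‖ ≤ ‖y0 - y‖ + ‖y‖ := by simpa using norm_add_le (y0 - y) y
    have n3 : ‖x‖ ≤ ‖x - z‖ + ‖z‖ := by simpa using norm_add_le (x - z) z
    have n4 : ‖x - x0‖ ≤ ‖x - z‖ + ‖x0 - z‖ := by
      simpa using norm_sub_le (x - z) (x0 - z)
    simp only at k1 k2
    have k4 : ReflTransGen (fun a b : (I × Γ) × ℂ => Com98 U W c a b ∧
        ∀ z : ℂ, ‖z - a.2‖ < ρ → ∃ y, Com98 U W c (a.1, z) (b.1, y)) (v, x0) (w, y0) := by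
      rcases reflTransGen_iff_eq_or_transGen.1 k3 with e | e
      · rw [e]
      · exact (href _ _ e (by show ‖x0‖ ≤ _; linarith) (by show ‖y0‖ ≤ _; linarith)).to_reflTransGen
    obtain ⟨u, hu⟩ := extT98 (fun v : I × Γ => v.1) F (fun v w => m (w.2⁻¹ * v.2) 1 1)
      (fun v w => m (w.2⁻¹ * v.2) 1 0) (fun v w => m (w.2⁻¹ * v.2) 0 1)
      (fun v w => m (w.2⁻¹ * v.2) 0 0) (Com98 U W c) B ρ hρ det iso hB v x0 x
      (rf v x0 (by linarith)) (rf v x (by linarith)) (by linarith) k4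
    rw [← (iso v x w u hu).2.1]
    exact hu
  refine ⟨r, hk, hr, hcv, hB, rf, fun _ _ _ _ h => symm98 hco h,
    fun _ _ _ _ _ _ h1 h2 => h1.trans h2, ?_, ?_⟩
  · intro v z hz
    obtain ⟨h1, h2⟩ := hsU v.1 z (hz.trans_lt (by norm_num))
    obtain ⟨j, h3, h4⟩ := hcov (s v.1 z)
    exact ⟨(j, v.2 * c v.1 j (s v.1 z)), W j (s v.1 z), h4,
      TransGen.single ⟨s v.1 z, h1, h3, h2, rfl, rfl⟩⟩
  · intro v z w y h hz hy
    refine ⟨_, _, _, _, det v w, (iso v z w y h).2.1.symm, fun x hx => ?_⟩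
    have h1 := hext v z w y h hz hy x hx
    obtain ⟨k1, -, -, k4, k5⟩ := iso _ _ _ _ h1
    exact ⟨k1, k4, h1, k5⟩

end Atl

end Pool.Agent.Lib.F4G
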