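import Pool.Agent.Lib.RA.T_AN

/-! The critical values of a holomorphic function of several variables are countable. -/

open Set Metric Filter
open scoped Nat Topology

namespace Pool.Agent.Lib.F4G

namespace C90

/-- A set that is locally mapped to countable sets is mapped to a countable set. -/
lemma loc90 {V : Type} [NormedAddCommGroup V] [NormedSpace ℂ V] [FiniteDimensional ℂ V]
    (W : V → ℂ) (S : Set V) (h : ∀ x ∈ S, ∃ N ∈ 𝓝 x, (W '' (S ∩ N)).Countable) :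
    (W '' S).Countable := by
  have : ProperSpace V := FiniteDimensional.proper ℂ V
  choose! N hN hc using h
  obtain ⟨t, ht, htc, hcov⟩ := TopologicalSpace.countable_cover_nhdsWithin (s := S) (f := N)
    fun x hx => mem_nhdsWithin_of_mem_nhds (hN x hx)
  refine (htc.biUnion fun x hx => hc x (ht hx)).mono ?_
  rintro _ ⟨y, hy, rfl⟩
  obtain ⟨x, hx, hyx⟩ := mem_iUnion₂.1 (hcov hy)
  exact mem_iUnion₂.2 ⟨x, hx, y, ⟨hy, hyx⟩, rfl⟩

/-- The statement for one space. -/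
def P90 (V : Type) [NormedAddCommGroup V] [NormedSpace ℂ V] : Prop :=
  ∀ (W : V → ℂ) (U : Set V), IsOpen U → DifferentiableOn ℂ W U →
    (W '' {x | x ∈ U ∧ fderiv ℂ W x = 0}).Countable

/-- Critical points on a smooth hypersurface. -/
lemma hyp90 {V : Type} [NormedAddCommGroup V] [NormedSpace ℂ V] [FiniteDimensional ℂ V]
    {W g : V → ℂ} {U : Set V} (hU : IsOpen U) (hW : DifferentiableOn ℂ W U) {x : V} (hx : x ∈ U)
    (hg : ContDiffAt ℂ 1 g x) (h1 : fderiv ℂ g x ≠ 0)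
    (ih : P90 (fderiv ℂ g x).ker) :
    ∃ N ∈ 𝓝 x, (W '' ({y | y ∈ U ∧ fderiv ℂ W y = 0 ∧ g y = 0} ∩ N)).Countable := by
  have : CompleteSpace V := FiniteDimensional.complete ℂ V
  set L := fderiv ℂ g x with hL
  obtain ⟨w, hw⟩ : ∃ w, L w ≠ 0 := by
    by_contra h
    push Not at h
    exact h1 (ContinuousLinearMap.ext h)
  let r : ℂ →L[ℂ] V := ContinuousLinearMap.toSpanSingleton ℂ ((L w)⁻¹ • w)
  have hr : Function.RightInverse r L := fun c => by
    simp [r, ContinuousLinearMap.toSpanSingleton_apply, hw]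
  let e := ContinuousLinearEquiv.equivOfRightInverse L r hr
  let Φ : V → ℂ × L.ker := fun y => (g y, (e y).2)
  have hΦ : ContDiffAt ℂ 1 Φ x := hg.prodMk (contDiff_snd.comp e.contDiff).contDiffAt
  have hΦ' : HasFDerivAt Φ (e : V →L[ℂ] ℂ × L.ker) x := by
    have h2 : HasFDerivAt g L x := (hg.differentiableAt one_ne_zero).hasFDerivAt
    have h3 : HasFDerivAt (fun y => (e y).2)
        ((ContinuousLinearMap.snd ℂ ℂ L.ker).comp (e : V →L[ℂ] ℂ × L.ker)) x :=
      ((ContinuousLinearMap.snd ℂ ℂ L.ker).comp (e : V →L[ℂ] ℂ × L.ker)).hasFDerivAt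
    refine (h2.prodMk h3).congr_fderiv ?_
    ext v <;> rfl
  set Ψ := hΦ.localInverse hΦ' one_ne_zero with hΨ
  have hΨ1 : ContDiffAt ℂ 1 Ψ (Φ x) := hΦ.to_localInverse hΦ' one_ne_zero
  have hΨ2 : ∀ᶠ y in 𝓝 x, Ψ (Φ y) = y :=
    (hΦ.hasStrictFDerivAt' hΦ' one_ne_zero).eventually_left_inverse
  have hΨ3 : Ψ (Φ x) = x := hΨ2.self_of_nhds
  have hA : ∀ᶠ p in 𝓝 (Φ x), DifferentiableAt ℂ Ψ p ∧ Ψ p ∈ U := by
    refine ((hΨ1.eventually (by simp)).mono fun p hp => hp.differentiableAt one_ne_zero).and ?_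
    exact hΨ1.continuousAt.eventually (by rw [hΨ3]; exact hU.mem_nhds hx)
  obtain ⟨A, hA1, hA2, hA3⟩ := _root_.eventually_nhds_iff.1 hA
  let j : L.ker →L[ℂ] ℂ × L.ker := ContinuousLinearMap.inr ℂ ℂ L.ker
  have hd : ∀ k, j k ∈ A → HasFDerivAt (fun k => W (Ψ (j k)))
      ((fderiv ℂ W (Ψ (j k))).comp ((fderiv ℂ Ψ (j k)).comp j)) k := fun k hk =>
    (hW.differentiableAt (hU.mem_nhds (hA1 _ hk).2)).hasFDerivAt.comp k
      ((hA1 _ hk).1.hasFDerivAt.comp k j.hasFDerivAt)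
  refine ⟨{y | Φ y ∈ A ∧ Ψ (Φ y) = y},
    (hΦ.continuousAt.eventually (hA2.mem_nhds hA3)).and hΨ2, ?_⟩
  refine (ih (fun k => W (Ψ (j k))) (j ⁻¹' A) (hA2.preimage j.continuous)
    fun k hk => (hd k hk).differentiableAt.differentiableWithinAt).mono ?_
  rintro _ ⟨y, ⟨⟨-, hy2, hy3⟩, hy4, hy5⟩, rfl⟩
  have hj : j (e y).2 = Φ y := by simp [j, Φ, hy3]
  have hk : j (e y).2 ∈ A := by rw [hj]; exact hy4
  refine ⟨(e y).2, ⟨hk, ?_⟩, by simp only [hj, hy5]⟩
  rw [(hd _ hk).fderiv, hj, hy5, hy2, ContinuousLinearMap.zero_comp]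

lemma ker90 {V : Type} [NormedAddCommGroup V] [NormedSpace ℂ V] [FiniteDimensional ℂ V]
    {L : V →L[ℂ] ℂ} (h : L ≠ 0) : Module.finrank ℂ L.ker < Module.finrank ℂ V := by
  refine Submodule.finrank_lt fun h1 => h ?_
  ext v
  have : v ∈ L.ker := h1 ▸ Submodule.mem_top
  simpa using this

lemma step90 {V : Type} [NormedAddCommGroup V] [NormedSpace ℂ V] [FiniteDimensional ℂ V]
    (ih : ∀ L : V →L[ℂ] ℂ, L ≠ 0 → P90 L.ker) : P90 V := by
  intro W U hU hW
  have han := RA.ANB.analyticOnNhd hU hW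
  let S : ℕ → Set V := fun k => {x | x ∈ U ∧ fderiv ℂ W x = 0 ∧
    iteratedFDeriv ℂ (k + 1) W x = 0 ∧ iteratedFDeriv ℂ (k + 2) W x ≠ 0}
  let T : Set V := {x | x ∈ U ∧ ∀ k, iteratedFDeriv ℂ (k + 1) W x = 0}
  have hS : ∀ k, (W '' S k).Countable := fun k => by
    refine loc90 W _ fun x hx => ?_
    obtain ⟨hx1, -, -, hx4⟩ := hx
    obtain ⟨m, hm⟩ : ∃ m, iteratedFDeriv ℂ (k + 2) W x m ≠ 0 := by
      by_contra h
      push Not at h
      exact hx4 (ContinuousMultilinearMap.ext h)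
    have hD : AnalyticAt ℂ (iteratedFDeriv ℂ (k + 1) W) x := han.iteratedFDeriv (k + 1) x hx1
    let a := ContinuousMultilinearMap.apply ℂ (fun _ : Fin (k + 1) => V) ℂ (Fin.tail m)
    have hg : ContDiffAt ℂ 1 (fun y => iteratedFDeriv ℂ (k + 1) W y (Fin.tail m)) x :=
      a.contDiff.contDiffAt.comp x hD.contDiffAt
    have h1 : fderiv ℂ (fun y => iteratedFDeriv ℂ (k + 1) W y (Fin.tail m)) x ≠ 0 := fun h => by
      have h2 := fderiv_continuousMultilinear_apply_const_apply hD.differentiableAt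
        (Fin.tail m) (m 0)
      rw [h] at h2
      exact hm ((iteratedFDeriv_succ_apply_left m).trans h2.symm)
    obtain ⟨N, hN, hc⟩ := hyp90 hU hW hx1 hg h1 (ih _ h1)
    refine ⟨N, hN, hc.mono (image_mono ?_)⟩
    rintro y ⟨⟨hy1, hy2, hy3, -⟩, hy⟩
    exact ⟨⟨hy1, hy2, by simp [hy3]⟩, hy⟩
  have hT : (W '' T).Countable := by
    refine loc90 W _ fun x hx => ?_
    obtain ⟨R, hR, hb⟩ := Metric.mem_nhds_iff.1 (hU.mem_nhds hx.1)
    refine ⟨ball x R, ball_mem_nhds x hR, (countable_singleton (W x)).mono ?_⟩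
    rintro _ ⟨y, ⟨-, hy⟩, rfl⟩
    have h1 := RA.ANB.taylor (hW.mono hb) (y := y - x) (by rwa [mem_ball, dist_eq_norm] at hy)
    have h2 := hasSum_single
      (f := fun k => ((k ! : ℂ)⁻¹) • iteratedFDeriv ℂ k W x fun _ => y - x) 0 fun k hk => by
        obtain ⟨j, rfl⟩ := Nat.exists_eq_succ_of_ne_zero hk
        simp [hx.2 j]
    simpa using h1.unique h2
  refine (hT.union (countable_iUnion hS)).mono ?_
  rintro _ ⟨x, ⟨hx1, hx2⟩, rfl⟩
  by_cases h : ∀ k, iteratedFDeriv ℂ (k + 1) W x = 0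
  · exact Or.inl ⟨x, ⟨hx1, h⟩, rfl⟩
  · refine Or.inr ?_
    by_contra h2
    refine h fun k => ?_
    induction k with
    | zero => ext m; simp [hx2]
    | succ k ihk =>
      by_contra h3
      exact h2 (mem_iUnion.2 ⟨k, x, ⟨hx1, hx2, ihk, h3⟩, rfl⟩)

lemma all90 (n : ℕ) : ∀ (V : Type) [NormedAddCommGroup V] [NormedSpace ℂ V]
    [FiniteDimensional ℂ V], Module.finrank ℂ V < n → P90 V := by
  induction n with
  | zero => intro V _ _ _ h; exact absurd h (Nat.not_lt_zero _)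
  | succ n ih =>
    intro V _ _ _ h
    exact step90 fun L hL => ih _ (lt_of_lt_of_le (ker90 hL) (Nat.lt_succ_iff.1 h))

end C90

/-- The set of critical values of a holomorphic function is countable. -/
theorem crit90 (V : Type) [NormedAddCommGroup V] [NormedSpace ℂ V] [FiniteDimensional ℂ V]
    (W : V → ℂ) (U : Set V) (hU : IsOpen U) (hW : DifferentiableOn ℂ W U) :
    (W '' {x | x ∈ U ∧ fderiv ℂ W x = 0}).Countable :=
  C90.all90 _ V (Nat.lt_succ_self _) W U hU hW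

end Pool.Agent.Lib.F4G
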