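import Pool.Agent.Lib.F4.Ld
import Pool.Agent.Lib.F4G.Crit
import Pool.Agent.Lib.HS32.MAll

/-! Project f4g: the weight of a box is a function of the first integral. -/

open scoped Classical Topology ContDiff ComplexOrder Matrix
open Set Filter Complex Metric

set_option linter.unusedVariables false

noncomputable section

namespace Pool.Agent.Lib.F4G

open Pool.Agent.Lib.SV (E)
open Pool.Agent.Lib.HS32 Pool.Agent.Lib.F4

namespace F83

variable {n : ℕ}

theorem fd_sum {W : E n → ℂ} {z : E n} (h : DifferentiableAt ℂ W z) (v : E n) :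
    fderiv ℂ W z v = ∑ j, dz j W z * v j := by
  have e : fderiv ℝ W z v = fderiv ℂ W z v := by
    rw [(h.hasFDerivAt.restrictScalars ℝ).fderiv]; rfl
  rw [← e, fderiv_eq_sum]
  refine Finset.sum_congr rfl fun j _ => ?_
  rw [((mHOL n W z).1 (h.restrictScalars ℝ)).1 h j, zero_mul, add_zero]

/-- The derivative of `h` vanishes on the kernel of the derivative of `W`. -/
theorem ker {W : E n → ℂ} {h : E n → ℝ} {z v : E n} (hW : DifferentiableAt ℂ W z)
    (hh : DifferentiableAt ℝ h z) (e : ∀ i j, dw h z i * dz j W z = dz i W z * dw h z j)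
    (h0 : fderiv ℂ W z ≠ 0) (hv : fderiv ℂ W z v = 0) : fderiv ℝ h z v = 0 := by
  obtain ⟨j, hj⟩ : ∃ j, dz j W z ≠ 0 := by
    by_contra hn
    push Not at hn
    exact h0 (ContinuousLinearMap.ext fun u => by simp [fd_sum hW, hn])
  have a : ∑ i, dw h z i * v i = 0 := by
    refine (mul_eq_zero.1 ?_).resolve_right hj
    have b : (∑ i, dz i W z * v i) * dw h z j = 0 := by rw [← fd_sum hW, hv, zero_mul]
    rw [← b, Finset.sum_mul, Finset.sum_mul]
    exact Finset.sum_congr rfl fun i _ => by linear_combination v i * e i j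
  have hd : DifferentiableAt ℝ (fun w => (h w : ℂ)) z := ofRealCLM.differentiableAt.comp z hh
  have c : ((fderiv ℝ h z v : ℝ) : ℂ) = 0 := by
    rw [← fderiv_ofReal hh, fderiv_eq_sum, Finset.sum_add_distrib]
    have d : ∑ i, dzb i (fun w => (h w : ℂ)) z * star (v i) = star (∑ i, dw h z i * v i) := by
      rw [star_sum]
      exact Finset.sum_congr rfl fun i _ => by rw [star_mul', dw, star_dz_ofReal hd]
    rw [d, a, star_zero, add_zero]
    exact a
  exact_mod_cast c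

/-- Straightening of a holomorphic function at a regular point. -/
theorem str {W : E n → ℂ} {x : E n} (hW : HolN W x) (h0 : fderiv ℂ W x ≠ 0) :
    ∃ (L : E n →L[ℂ] ℂ) (Φ ψ : E n → E n), ContinuousAt Φ x ∧ (∀ z, L (Φ z) = W z) ∧
      (∀ᶠ z in 𝓝 x, ψ (Φ z) = z) ∧ Tendsto ψ (𝓝 (Φ x)) (𝓝 x) ∧
      (∀ᶠ u in 𝓝 (Φ x), DifferentiableAt ℂ ψ u ∧ Φ (ψ u) = u) ∧ map W (𝓝 x) = 𝓝 (W x) := by
  obtain ⟨v, hv⟩ : ∃ v, fderiv ℂ W x v ≠ 0 := by
    by_contra hn
    push Not at hn
    exact h0 (ContinuousLinearMap.ext hn)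
  set L := fderiv ℂ W x with hL
  set e : E n := (L v)⁻¹ • v with he
  have Le : L e = 1 := by rw [he, map_smul, smul_eq_mul, inv_mul_cancel₀ hv]
  have c : ContDiffAt ℂ 1 W x := Pool.Agent.Lib.SV.H85.contDiffAt_nat hW 1
  set Φ : E n → E n := fun z => z + (W z - L z) • e with hΦ
  have cΦ : ContDiffAt ℂ 1 Φ x :=
    contDiffAt_id.add ((c.sub L.contDiff.contDiffAt).smul contDiffAt_const)
  have dΦ : HasFDerivAt Φ
      ((ContinuousLinearEquiv.refl ℂ (E n) : E n ≃L[ℂ] E n) : E n →L[ℂ] E n) x := by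
    have := (hasFDerivAt_id x).add
      (((hW.self_of_nhds.hasFDerivAt).sub L.hasFDerivAt).smul_const e)
    refine this.congr_fderiv ?_
    ext1 u
    simp [hL]
  have hs := cΦ.hasStrictFDerivAt' dΦ (by simp)
  have LΦ : ∀ z, L (Φ z) = W z := fun z => by simp [hΦ, Le]
  refine ⟨L, Φ, cΦ.localInverse dΦ (by simp), cΦ.continuousAt, LΦ, hs.eventually_left_inverse,
    hs.localInverse_tendsto, ?_, ?_⟩
  · filter_upwards [(cΦ.to_localInverse dΦ (by simp)).eventually (by simp),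
      hs.eventually_right_inverse] with u a b
    exact ⟨a.differentiableAt (by simp), b⟩
  · refine (c.hasStrictFDerivAt (by simp)).map_nhds_eq_of_surj ?_
    rw [LinearMap.range_eq_top]
    exact fun t => ⟨t • e, by simp [← hL, Le]⟩

/-- The function is locally constant along the fibre. -/
theorem loc {W : E n → ℂ} {h : E n → ℝ} {x : E n} (hW : HolN W x) (h0 : fderiv ℂ W x ≠ 0)
    (hh : ∀ᶠ z in 𝓝 x, DifferentiableAt ℝ h z ∧
      ∀ i j, dw h z i * dz j W z = dz i W z * dw h z j) :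
    ∀ᶠ z in 𝓝 x, W z = W x → h z = h x := by
  obtain ⟨L, Φ, ψ, cΦ, LΦ, l, t, r, -⟩ := str hW h0
  have L0 : L ≠ 0 := by
    rintro rfl
    have : W = fun _ => 0 := funext fun z => (LΦ z).symm
    exact h0 (by rw [this]; simp)
  have k : ∀ᶠ u in 𝓝 (Φ x), DifferentiableAt ℝ (h ∘ ψ) u ∧
      ∀ v, L v = 0 → fderiv ℝ (h ∘ ψ) u v = 0 := by
    filter_upwards [r.eventually_nhds, t.eventually hh, t.eventually hW] with u a b c
    have a1 := a.self_of_nhds.1
    have a2 := (a1.hasFDerivAt.restrictScalars ℝ)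
    have e : (fderiv ℂ W (ψ u)).comp (fderiv ℂ ψ u) = L := by
      refine (c.hasFDerivAt.comp u a1.hasFDerivAt).unique (L.hasFDerivAt.congr_of_eventuallyEq ?_)
      filter_upwards [a] with w hw
      rw [Function.comp_apply, ← LΦ, hw.2]
    refine ⟨b.1.comp u a2.differentiableAt, fun v hv => ?_⟩
    rw [(b.1.hasFDerivAt.comp u a2).fderiv]
    refine ker c b.1 b.2 (fun h1 => L0 ?_) ?_
    · rw [← e, h1, ContinuousLinearMap.zero_comp]
    · exact (congrArg (fun D : E n →L[ℂ] ℂ => D v) e).trans hv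
  obtain ⟨ρ, hρ, hk⟩ := Metric.eventually_nhds_iff_ball.1 k
  filter_upwards [l, cΦ.eventually (ball_mem_nhds _ hρ)] with z a b c
  set v := Φ z - Φ x with hv
  have Lv : L v = 0 := by rw [hv, map_sub, LΦ, LΦ, c, sub_self]
  have m : ∀ s ∈ Icc (0 : ℝ) 1, Φ x + s • v ∈ ball (Φ x) ρ := fun s hs =>
    (convex_ball _ _).add_smul_sub_mem (mem_ball_self hρ) b hs
  have d : ∀ s ∈ Icc (0 : ℝ) 1, HasDerivAt (fun s : ℝ => (h ∘ ψ) (Φ x + s • v)) 0 s := fun s hs => by
    have d1 : HasDerivAt (fun s : ℝ => Φ x + s • v) v s := by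
      simpa using ((hasDerivAt_id s).smul_const v).const_add (Φ x)
    have d2 := (hk _ (m s hs)).1.hasFDerivAt.comp_hasDerivAt s d1
    rw [(hk _ (m s hs)).2 v Lv] at d2
    exact d2
  have f := constant_of_has_deriv_right_zero
    (fun s hs => (d s hs).continuousAt.continuousWithinAt)
    (fun s hs => (d s (Ico_subset_Icc_self hs)).hasDerivWithinAt) 1 (right_mem_Icc.2 zero_le_one)
  simpa [hv, a, l.self_of_nhds] using f

/-- The quadratic form of the complex Hessian. -/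
theorem lev {f : E n → ℝ} {z : E n} (h2 : ContDiffAt ℝ 2 f z) (x : E n) :
    star x ⬝ᵥ hess (fun w => (f w : ℂ)) z *ᵥ x = (((fderiv ℝ (fderiv ℝ f) z x x +
      fderiv ℝ (fderiv ℝ f) z (I • x) (I • x)) / 4 : ℝ) : ℂ) := by
  have hs : ∀ p q, fderiv ℝ (fderiv ℝ f) z p q = fderiv ℝ (fderiv ℝ f) z q p := fun p q =>
    h2.isSymmSndFDerivAt (by simp) p q
  have e : star x ⬝ᵥ hess (fun w => (f w : ℂ)) z *ᵥ x =
      BMAXE.S (fderiv ℝ (fderiv ℝ f) z) x x / 4 := by
    rw [← BMAXE.S_star hs, BMAXE.S_sum, star_sum, Finset.sum_div]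
    simp only [dotProduct, Matrix.mulVec, BMAXE.hess_eq h2, Pi.star_apply]
    refine Finset.sum_congr rfl fun i _ => ?_
    rw [star_mul', BMAXE.S_star hs, BMAXE.S_sum _ _ x, Finset.sum_mul, Finset.sum_div,
      Finset.mul_sum]
    exact Finset.sum_congr rfl fun j _ => by ring
  rw [e, BMAXE.S, hs (I • x) x, sub_self, mul_zero, add_zero]
  push_cast
  rfl

/-- The second derivative along a holomorphic curve. -/
theorem d2c {g : E n → ℝ} {τ : ℂ → E n} {z : ℂ} (hτ : ContDiffAt ℂ 2 τ z)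
    (hg : ContDiffAt ℝ 2 g (τ z)) (u : ℂ) : fderiv ℝ (fderiv ℝ (g ∘ τ)) z u u =
      fderiv ℝ (fderiv ℝ g) (τ z) (fderiv ℂ τ z u) (fderiv ℂ τ z u) +
        fderiv ℝ g (τ z) (fderiv ℂ (fderiv ℂ τ) z u u) := by
  have hτ1 : DifferentiableAt ℂ τ z := hτ.differentiableAt (by simp)
  have e : (fun w => fderiv ℝ (g ∘ τ) w u) =ᶠ[𝓝 z]
      fun w => fderiv ℝ g (τ w) (fderiv ℂ τ w u) := by
    filter_upwards [hτ.eventually (by simp),
      hτ1.continuousAt.tendsto.eventually (hg.eventually (by simp))] with w a b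
    have a1 := (a.differentiableAt (by simp)).hasFDerivAt.restrictScalars ℝ
    have b1 := (b.differentiableAt (by simp)).hasFDerivAt
    rw [(b1.comp w a1).fderiv]
    rfl
  have h1 : HasFDerivAt (fun w => fderiv ℝ g (τ w))
      ((fderiv ℝ (fderiv ℝ g) (τ z)).comp ((fderiv ℂ τ z).restrictScalars ℝ)) z :=
    ((hg.fderiv_right (m := 1) (by norm_num)).differentiableAt (by norm_num)).hasFDerivAt.comp z
      (hτ1.hasFDerivAt.restrictScalars ℝ)
  have h2 : DifferentiableAt ℂ (fderiv ℂ τ) z :=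
    (hτ.fderiv_right (m := 1) (by norm_num)).differentiableAt (by norm_num)
  have h3 := (h2.hasFDerivAt.clm_apply (hasFDerivAt_const u z)).restrictScalars ℝ
  have h4 := h1.clm_apply h3
  have h5 : DifferentiableAt ℝ (fderiv ℝ (g ∘ τ)) z :=
    ((hg.comp z (hτ.restrict_scalars ℝ)).fderiv_right (m := 1) (by norm_num)).differentiableAt
      (by norm_num)
  have h6 := (h5.hasFDerivAt.clm_apply (hasFDerivAt_const u z)).fderiv
  have h7 := congrArg (fun D : ℂ →L[ℝ] ℝ => D u) (h6.symm.trans (e.fderiv_eq.trans h4.fderiv))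
  simpa [add_comm] using h7

end F83

open F83 in
/-- The weight of a box. -/
theorem fun83 {n : ℕ} (m : ℕ) (hm : 2 ≤ m) (U : Set (E n)) (B T : Set ℂ) (W y : E n → ℂ)
    (al : E n → E n) (ph ps : E n → ℝ) (sg : ℂ → E n) (s c : ℝ) (hU : IsOpen U)
    (hB : IsOpen B)
    (hW : DifferentiableOn ℂ W U) (hy : DifferentiableOn ℂ y U) (y0 : ∀ z ∈ U, y z ≠ 0)
    (ha : ∀ z ∈ U, ∀ k, al z k = y z * dz k W z) (hpm : ∀ z ∈ U, ContDiffAt ℝ m ph z)
    (pw : ∀ z ∈ U, d1 al z = wg (dw ph z) (al z))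
    (hh : ∀ z ∈ U, hess (fun w => (ph w : ℂ)) z = ((s * Real.exp (-ps z) : ℝ) : ℂ) • oo (al z))
    (hc : ∀ z ∈ U, c ≤ s * Real.exp (ph z - ps z)) (den : ∀ z ∈ U, ∃ᶠ w in 𝓝 z, al w ≠ 0)
    (mp : MapsTo W U B) (hs : DifferentiableOn ℂ sg B) (sw : ∀ w ∈ B, sg w ∈ U ∧ W (sg w) = w)
    (hT : T.Countable) (con : ∀ w ∈ B \ T, IsPreconnected (U ∩ W ⁻¹' {w})) :
    ∃ F : ℂ → ℝ, ContDiffOn ℝ m F B ∧
      (∀ z ∈ U, F (W z) = ph z - Real.log (normSq (y z))) ∧
      ∀ w ∈ B, 4 * c * Real.exp (-F w) ≤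
        fderiv ℝ (fderiv ℝ F) w 1 1 + fderiv ℝ (fderiv ℝ F) w I I := by
  have hol : ∀ {f : E n → ℂ}, DifferentiableOn ℂ f U → ∀ z ∈ U, HolN f z := fun hf z hz =>
    (hU.eventually_mem hz).mono fun w hw => hf.differentiableAt (hU.mem_nhds hw)
  have hp : ∀ z ∈ U, ContDiffAt ℝ 2 ph z := fun z hz => (hpm z hz).of_le (by exact_mod_cast hm)
  set l : E n → ℝ := fun z => Real.log (normSq (y z)) with hl
  set h : E n → ℝ := fun z => ph z - l z with hh'
  have ly := fun z hz => ((mHOL n y z).2.2 (hol hy z hz)).2.2.2 (y0 z hz)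
  have ch : ∀ z ∈ U, ContDiffAt ℝ 2 h z := fun z hz => (hp z hz).sub (cd_le (ly z hz).1 2)
  have wd : ∀ z ∈ U, DifferentiableAt ℝ h z ∧
      ∀ i j, dw h z i * dz j W z = dz i W z * dw h z j := fun z hz => by
    refine ⟨(ch z hz).differentiableAt (by simp), fun i j => ?_⟩
    obtain ⟨w1, w2, -⟩ := (mHOL n W z).2.2 (hol hW z hz)
    have e1 : ∀ k, dw h z k = dw ph z k - dz k y z / y z := fun k => by
      rw [← (ly z hz).2.2 k, dw, dw, ← dz_sub (f := fun w => (ph w : ℂ))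
        (ofRealCLM.differentiableAt.comp z ((hp z hz).differentiableAt (by simp)) :)
        (cd_diff (cd_ofReal (ly z hz).1))]
      simp only [hh', hl, ofReal_sub]
    have e2 : ∀ i j, dz i (fun w => al w j) z = dz i y z * dz j W z + y z * dz i (dz j W) z :=
      fun i j => by
        rw [← dz_mul ((hol hy z hz).self_of_nhds.restrictScalars ℝ) (cd_diff (cd_dz w1 j))]
        exact dz_congr ((hU.eventually_mem hz).mono fun w hw => ha w hw j)
    have e3 := congrFun (congrFun (pw z hz) i) j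
    simp only [d1, wg, Matrix.of_apply, e2, ha z hz, dz_dz w1 i j] at e3
    have := y0 z hz
    rw [e1, e1]
    field_simp
    linear_combination -e3
  have reg : ∀ z ∈ U, al z ≠ 0 → fderiv ℂ W z ≠ 0 := fun z hz h1 h2 => h1 (funext fun k => by
    rw [ha z hz, (mHOL n W z).2.1 (hol hW z hz).self_of_nhds, h2]; simp)
  have cs : ∀ w ∈ B, ContDiffAt ℂ 2 sg w := fun w hw =>
    (hs.analyticAt (hB.mem_nhds hw)).contDiffAt
  have cF : ∀ w ∈ B, ContDiffAt ℝ 2 (h ∘ sg) w := fun w hw =>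
    (ch _ (sw w hw).1).comp w ((cs w hw).restrict_scalars ℝ)
  have hT' := hT.union (crit90 _ W U hU hW)
  have gen : ∀ z ∈ U, W z ∉ T ∪ W '' {x | x ∈ U ∧ fderiv ℂ W x = 0} → h (sg (W z)) = h z := by
    intro z hz hn
    have hw := mp hz
    refine (con _ ⟨hw, fun t => hn (Or.inl t)⟩).induction₂ (fun a b => h a = h b)
      (fun x hx => ?_) (fun a b d _ _ _ p q => p.trans q) (fun a b _ _ p => p.symm)
      ⟨(sw _ hw).1, (sw _ hw).2⟩ ⟨hz, rfl⟩
    have r : fderiv ℂ W x ≠ 0 := fun r => hn (Or.inr ⟨x, ⟨hx.1, r⟩, hx.2⟩)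
    filter_upwards [nhdsWithin_le_nhds (loc (hol hW x hx.1) r ((hU.eventually_mem hx.1).mono wd)),
      self_mem_nhdsWithin] with u a b
    exact (a (b.2.trans hx.2.symm)).symm
  refine ⟨h ∘ sg, fun w hw => ?_, fun z hz => ?_, fun w hw => ?_⟩
  · have a : ContDiffAt ℂ m sg w := (hs.analyticAt (hB.mem_nhds hw)).contDiffAt
    exact (((hpm _ (sw w hw).1).sub (cd_le (ly _ (sw w hw).1).1 m)).comp w
      (a.restrict_scalars ℝ)).contDiffWithinAt
  · have c1 : ContinuousAt (fun x => h (sg (W x))) z :=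
      (cF _ (mp hz)).continuousAt.comp (hol hW z hz).self_of_nhds.continuousAt
    refine tendsto_nhds_unique_of_frequently_eq c1 (ch z hz).continuousAt ?_
    intro hn
    obtain ⟨x, hx, hx', hxU⟩ := ((den z hz).and_eventually
      (hn.eventually_nhds.and (hU.eventually_mem hz))).exists
    obtain ⟨-, -, -, -, -, -, -, -, m1⟩ := str (hol hW x hxU) (reg x hxU hx)
    have i : W '' {u | ¬h (sg (W u)) = h u ∧ u ∈ U} ∈ 𝓝 (W x) := by
      rw [← m1]
      exact image_mem_map (hx'.and (hU.eventually_mem hxU))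
    obtain ⟨t, ht, u, hu, rfl⟩ := (hT'.dense_compl ℝ).inter_nhds_nonempty i
    exact hu.1 (gen u hu.2 ht)
  · obtain ⟨hz, e⟩ := sw w hw
    have d := (cs w hw).differentiableAt (by simp)
    set ξ := fderiv ℂ sg w 1 with hξ
    have e1 : fderiv ℂ sg w I = I • ξ := by rw [hξ, ← map_smul, smul_eq_mul, mul_one]
    have e2 : fderiv ℂ (fderiv ℂ sg) w I I = -fderiv ℂ (fderiv ℂ sg) w 1 1 := by
      have : (I : ℂ) = I • (1 : ℂ) := by simp
      rw [this, map_smul, map_smul, ContinuousLinearMap.smul_apply, smul_smul, I_mul_I,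
        neg_one_smul]
    have e3 : fderiv ℂ W (sg w) ξ = 1 := by
      have a := ((hol hW _ hz).self_of_nhds.hasFDerivAt.comp w d.hasFDerivAt).unique
        ((hasFDerivAt_id w).congr_of_eventuallyEq
          ((hB.eventually_mem hw).mono fun t ht => (sw t ht).2))
      exact congrArg (fun D : ℂ →L[ℂ] ℂ => D 1) a
    have e4 : al (sg w) ⬝ᵥ ξ = y (sg w) := by
      rw [fd_sum (hol hW _ hz).self_of_nhds] at e3
      simp only [dotProduct, ha _ hz, mul_assoc, ← Finset.mul_sum, e3, mul_one]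
    have q1 := lev (hp _ hz) ξ
    have q2 := lev (cd_le (ly _ hz).1 2) ξ
    have q3 : fderiv ℝ (fderiv ℝ h) (sg w) =
        fderiv ℝ (fderiv ℝ ph) (sg w) - fderiv ℝ (fderiv ℝ l) (sg w) := by
      have a : fderiv ℝ h =ᶠ[𝓝 (sg w)] fun u => fderiv ℝ ph u - fderiv ℝ l u :=
        (hU.eventually_mem hz).mono fun u hu =>
          fderiv_fun_sub ((hp u hu).differentiableAt (by simp)) (cd_diff (ly u hu).1)
      rw [a.fderiv_eq]
      exact fderiv_fun_sub
        (((hp _ hz).fderiv_right (m := 1) (by norm_num)).differentiableAt (by simp))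
        (cd_diff ((ly _ hz).1.fderiv_right (m := ∞) (by simp)))
    rw [(ly _ hz).2.1, Matrix.zero_mulVec, dotProduct_zero] at q2
    have q4 : star ξ ⬝ᵥ oo (al (sg w)) *ᵥ ξ = (normSq (y (sg w)) : ℂ) := by
      rw [oo, Matrix.vecMulVec_mulVec, e4, op_smul_eq_smul, dotProduct_smul,
        Matrix.star_dotProduct_star, e4, normSq_eq_conj_mul_self, smul_eq_mul,
        mul_comm]
      rfl
    rw [hh _ hz, Matrix.smul_mulVec, dotProduct_smul, q4, smul_eq_mul] at q1
    have q5 := ofReal_injective ((ofReal_mul _ _).trans q1)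
    have q6 := ofReal_injective (ofReal_zero.trans q2)
    have n0 := normSq_pos.2 (y0 _ hz)
    have q7 : Real.exp (ph (sg w) - ps (sg w)) * Real.exp (-(h ∘ sg) w) =
        Real.exp (-ps (sg w)) * normSq (y (sg w)) := by
      rw [← Real.exp_add, ← Real.exp_log n0, ← Real.exp_add]
      simp only [Function.comp_apply, hh', hl, Real.exp_log n0]
      ring_nf
    have q8 := mul_le_mul_of_nonneg_right (hc _ hz) (Real.exp_pos (-(h ∘ sg) w)).le
    rw [d2c (cs w hw) (ch _ hz), d2c (cs w hw) (ch _ hz), e1, e2, map_neg, q3, ← hξ]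
    simp only [ContinuousLinearMap.sub_apply]
    rw [mul_assoc s, q7, ← mul_assoc s] at q8
    linarith

end Pool.Agent.Lib.F4G
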