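import Pool.Agent.Lib.F4G.Box
import Pool.Agent.Lib.F4G.Fun83

/-! Project f4g: small facts for the construction of the boxes. -/

open scoped Classical Topology Matrix MatrixGroups
open Set Filter Complex

set_option linter.unusedVariables false

noncomputable section

namespace Pool.Agent.Lib.F4G

open Pool.Agent.Lib.SV (E)
open Pool.Agent.Lib.HS32 Pool.Agent.Lib.F4

variable {n : ℕ}

/-- The open mapping theorem at a point. -/
theorem opn83 {W : E n → ℂ} {z : E n} (hW : HolN W z) (h : ∃ᶠ w in 𝓝 z, fderiv ℂ W w ≠ 0) :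
    ∀ N ∈ 𝓝 z, W '' N ∈ 𝓝 (W z) := by
  intro N hN
  rcases (Pool.Agent.Lib.RA.ANB.analyticAt hW).eventually_constant_or_nhds_le_map_nhds with a | a
  · refine absurd ?_ h
    filter_upwards [a.eventually_nhds] with w hw
    have e : W =ᶠ[𝓝 w] fun _ => W z := hw
    simp [e.fderiv_eq]
  · exact a (image_mem_map hN)

/-- The quotient of two weights is bounded below. -/
theorem kap83 (M : Mf n) [M.Cpt] {k : ℕ} {φ ψ : M.Fam ℝ} (hφ : Wk M k φ) (hψ : Wk M k ψ) :
    ∃ c : ℝ, 0 < c ∧ M.All fun e z => c ≤ Real.exp (φ e z - ψ e z) := by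
  have := Mf.Cpt.cpt (M := M)
  have := Mf.Cpt.con (M := M)
  set f : M.X → ℝ := M.ev fun e z => φ e z - ψ e z with hf
  have r : ∀ e ∈ M.C, ∀ x ∈ e.source, f x = φ e (e x) - ψ e (e x) := fun e he x hx => by
    rw [hφ.cmp _ (Mf.ch_mem x) e he x (Mf.mem_ch x) hx,
      hψ.cmp _ (Mf.ch_mem x) e he x (Mf.mem_ch x) hx, hf, Mf.ev]
    ring
  have c : Continuous f := continuous_iff_continuousAt.2 fun x => by
    have m := (M.ch x).map_source (Mf.mem_ch x)
    have a := (((hφ.sm _ (Mf.ch_mem x) _ m).continuousAt.sub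
      (hψ.sm _ (Mf.ch_mem x) _ m).continuousAt).comp ((M.ch x).continuousAt (Mf.mem_ch x)))
    refine a.congr ?_
    filter_upwards [(M.ch x).open_source.mem_nhds (Mf.mem_ch x)] with y hy
    exact (r _ (Mf.ch_mem x) y hy).symm
  obtain ⟨x, -, hx⟩ := isCompact_univ.exists_isMinOn univ_nonempty c.continuousOn
  refine ⟨Real.exp (f x), Real.exp_pos _, Mf.allOn_of_source fun e he y hy => ?_⟩
  rw [← r e he y hy]
  exact Real.exp_le_exp.2 (hx (mem_univ y))

/-- The Möbius law. -/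
theorem mob83 {h s0 t0 s1 t1 : ℂ} {A : Matrix (Fin 2) (Fin 2) ℂ} (h0 : h ≠ 0) (a0 : s0 ≠ 0)
    (a1 : s1 ≠ 0) (e : h • ![s1, t1] = A *ᵥ ![s0, t0]) :
    h * s1 = s0 * (A 0 0 + A 0 1 * (t0 / s0)) ∧ A 0 0 + A 0 1 * (t0 / s0) ≠ 0 ∧
      t1 / s1 = (A 1 0 + A 1 1 * (t0 / s0)) / (A 0 0 + A 0 1 * (t0 / s0)) := by
  have e0 := congrFun e 0
  have e1 := congrFun e 1
  simp only [Pi.smul_apply, smul_eq_mul, Matrix.mulVec, dotProduct, Fin.sum_univ_two,
    Matrix.cons_val_zero, Matrix.cons_val_one] at e0 e1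
  have p : h * s1 = s0 * (A 0 0 + A 0 1 * (t0 / s0)) := by rw [e0]; field_simp
  have q : h * t1 = s0 * (A 1 0 + A 1 1 * (t0 / s0)) := by rw [e1]; field_simp
  have r : A 0 0 + A 0 1 * (t0 / s0) ≠ 0 := fun r =>
    mul_ne_zero h0 a1 (by rw [p, r, mul_zero])
  refine ⟨p, r, ?_⟩
  rw [← mul_div_mul_left t1 s1 h0, p, q, mul_div_mul_left _ _ a0]

/-- The law of the weights. -/
theorem iso83 {h j s0 t0 s1 t1 : ℂ} {A : Matrix (Fin 2) (Fin 2) ℂ} {p0 p1 : ℝ} (hj : h ^ 2 = j)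
    (j0 : j ≠ 0) (a0 : s0 ≠ 0) (a1 : s1 ≠ 0) (e : h • ![s1, t1] = A *ᵥ ![s0, t0])
    (hp : p0 = p1 + Real.log (normSq j)) : p1 - Real.log (normSq (s1 ^ 2)) =
      p0 - Real.log (normSq (s0 ^ 2)) - 4 * Real.log ‖A 0 0 + A 0 1 * (t0 / s0)‖ := by
  have h0 : h ≠ 0 := fun r => j0 (by rw [← hj, r]; simp)
  obtain ⟨p, r, -⟩ := mob83 h0 a0 a1 e
  have q := congrArg (fun w : ℂ => Real.log ‖w‖) p
  simp only [norm_mul] at q
  rw [Real.log_mul (norm_ne_zero_iff.2 h0) (norm_ne_zero_iff.2 a1),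
    Real.log_mul (norm_ne_zero_iff.2 a0) (norm_ne_zero_iff.2 r)] at q
  simp only [hp, ← hj, normSq_eq_norm_sq, norm_pow, Real.log_pow]
  push_cast
  linarith

/-- Two matrices have the same class if and only if they agree up to sign. -/
theorem mk83 (A B : SL(2, ℂ)) :
    (QuotientGroup.mk A : PG) = QuotientGroup.mk B ↔ B = A ∨ B = -A := by
  rw [QuotientGroup.eq, Matrix.SpecialLinearGroup.mem_center_iff]
  constructor
  · rintro ⟨r, hr, e⟩
    have e1 : B.1 = r • A.1 := by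
      have : B = A * (A⁻¹ * B) := by group
      rw [this, Matrix.SpecialLinearGroup.coe_mul, ← e, Matrix.scalar_apply,
        ← Matrix.smul_one_eq_diagonal, Matrix.mul_smul, Matrix.mul_one]
    rcases sq_eq_one_iff.1 (by simpa using hr : r ^ 2 = 1) with rfl | rfl
    · exact Or.inl (Subtype.ext (by simpa using e1))
    · exact Or.inr (Subtype.ext (by simpa using e1))
  · rintro (rfl | rfl)
    · exact ⟨1, by simp, by simp⟩
    · exact ⟨-1, by simp, by simp [← Matrix.diagonal_one, Matrix.diagonal_neg]⟩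

/-- The chosen matrix of a class. -/
theorem lf83 (A : SL(2, ℂ)) : lf (QuotientGroup.mk A) = A ∨ lf (QuotientGroup.mk A) = -A :=
  (mk83 A _).1 (QuotientGroup.out_eq' _).symm

end Pool.Agent.Lib.F4G
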