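import Pool.Agent.Lib.F4.BlueS

/-! Project f4g, step five: the cost of a link. Blueprint. -/

open scoped Classical Topology ENNReal NNReal ContDiff ComplexOrder Matrix
open Set Filter MeasureTheory Metric

set_option linter.unusedVariables false

noncomputable section

namespace Pool.Agent.Lib.F4G

open Pool.Agent.Lib.SV (E)
open Pool.Agent.Lib.HS32 Pool.Agent.Lib.F4

variable {n : ℕ}

/-- The forms close to the canonical class. -/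
def tE (M : Mf n) (H : M.Fam (Mat n)) (ε : ℝ) (u : M.X → ℝ) : M.Fam (Mat n) :=
  -M.ric H + ε • H + M.hs u

/-- The length of a vector. -/
def len (T : Mat n) (ξ : E n) : ℝ≥0∞ := ENNReal.ofReal (Real.sqrt (nq T ξ))

/-- A common point of two vertices, read on the values of the first integrals. -/
def El {V : Type} (W : V → E n → ℂ) (Com : V → E n → V → E n → Prop) (a b : V × ℂ) : Prop :=
  ∃ x x', Com a.1 x b.1 x' ∧ W a.1 x = a.2 ∧ W b.1 x' = b.2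

/-- The same, between good values. -/
def ElG {V : Type} (W : V → E n → ℂ) (Com : V → E n → V → E n → Prop) (Good : V → ℂ → Prop)
    (a b : V × ℂ) : Prop := El W Com a b ∧ Good a.1 a.2 ∧ Good b.1 b.2

/-- Boxes, common points, good values and the maps between the values. -/
structure Geo {V : Type} (U : V → Set (E n)) (W : V → E n → ℂ)
    (Com : V → E n → V → E n → Prop) (Good : V → ℂ → Prop) (Mo : V → V → ℂ → ℂ) : Prop where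
  opn : ∀ v, IsOpen (U v)
  hol : ∀ v, DifferentiableOn ℂ (W v) (U v)
  com : ∀ v x v' x', Com v x v' x' → x ∈ U v ∧ x' ∈ U v' ∧
    ∃ (τ : E n → E n) (τ' : E n ≃L[ℝ] E n), HasStrictFDerivAt τ (τ' : E n →L[ℝ] E n) x ∧
      τ x = x' ∧ ∀ᶠ y in 𝓝 x, Com v y v' (τ y)
  good : ∀ v w, Good v w → IsPreconnected (U v ∩ W v ⁻¹' {w}) ∧
    ∀ x ∈ U v, W v x = w → fderiv ℂ (W v) x ≠ 0
  mea : ∀ v v', Measurable (Mo v v')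
  val : ∀ a b, Relation.ReflTransGen (El W Com) a b → b.2 = Mo a.1 b.1 a.2

/-- A link between two vertices. -/
structure Lnk {V : Type} (W : V → E n → ℂ) (Com : V → E n → V → E n → Prop)
    (Good : V → ℂ → Prop) (Mo : V → V → ℂ → ℂ) (ρ r : ℝ) (L : ℝ≥0) (v v' : V) (z : ℂ) : Prop where
  src : ball z r ⊆ closedBall 0 ρ
  tgt : MapsTo (Mo v v') (ball z r) (closedBall 0 ρ)
  cv : ∀ χ : ℂ → ℝ≥0∞, Measurable χ → ∫⁻ w in ball z r, χ (Mo v v' w) ≤ L * ∫⁻ w, χ w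
  chn : ∃ S : Set ℂ, S.Countable ∧ ∀ w ∈ ball z r \ S, Good v w ∧ Good v' (Mo v v' w) ∧
    Relation.ReflTransGen (ElG W Com Good) (v, w) (v', Mo v v' w)

/-- The derivatives along the fibres of `W` tend to zero in the mean near `x`. -/
def Lea {κ V : Type} (l : Filter κ) (f : κ → V → E n → ℝ) (S : Set V) (W : E n → ℂ) (x : E n) :
    Prop :=
  ∃ N ∈ 𝓝 x, ∃ g : κ → E n → ℝ≥0∞, (∀ k, Measurable (g k)) ∧
    Tendsto (fun k => ∫⁻ y in N, g k y) l (𝓝 0) ∧ ∀ k, ∀ a ∈ S, ∀ y ∈ N,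
      DifferentiableAt ℝ (f k a) y ∧
        ∀ ξ, fderiv ℂ W y ξ = 0 → ‖fderiv ℝ (f k a) y ξ‖ₑ ≤ g k y * ‖ξ‖ₑ

/-- Pointwise algebra. -/
def St_MPW : Prop := ∀ (n : ℕ) (H T : Mat n) (a ξ : E n), H.PosDef → T.PosSemidef →
  nq T ξ ≤ (H⁻¹ * T).trace.re * nq H ξ ∧
  (a ⬝ᵥ ξ = 0 → nq T ξ * (p1 H a a).re ≤ (mq H T a).re * nq H ξ)

/-- The lengths are bounded in the mean. -/
def St_MFU : Prop := ∀ (n : ℕ) (M : Mf n) [M.Cpt] (H : M.Fam (Mat n)), M.Kae H → ∀ e ∈ M.C,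
  ∀ K : Set (E n), IsCompact K → K ⊆ e.target → ∃ C : ℝ≥0, ∀ (ε : ℝ) (u : M.X → ℝ), 0 ≤ ε →
    ε ≤ 1 → M.Sm u → M.Le 0 (tE M H ε u) → ∃ h : E n → ℝ≥0∞, Measurable h ∧
      ∫⁻ y in K, h y ≤ C ∧ ∀ y ∈ K, ∀ ξ, len (tE M H ε u e y) ξ ≤ h y * ‖ξ‖ₑ

/-- The lengths along the kernel are small in the mean. -/
def St_MLE : Prop := ∀ (n : ℕ) (M : Mf n) [M.Cpt] (H : M.Fam (Mat n)) (α : M.Fam (E n)),
  M.Kae H → H1 M 1 α → Sm3 M H α → ∀ e ∈ M.C, ∀ K : Set (E n), IsCompact K → K ⊆ e.target →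
  (∀ y ∈ K, α e y ≠ 0) → ∀ η : ℝ≥0∞, 0 < η → ∃ δ : ℝ, 0 < δ ∧ ∀ (ε : ℝ) (u : M.X → ℝ), 0 ≤ ε →
    ε ≤ δ → M.Sm u → M.Le 0 (tE M H ε u) → ∃ g : E n → ℝ≥0∞, Measurable g ∧
      ∫⁻ y in K, g y ≤ η ∧ ∀ y ∈ K, ∀ ξ, α e y ⬝ᵥ ξ = 0 → len (tE M H ε u e y) ξ ≤ g y * ‖ξ‖ₑ

/-- A base point that works for all functions with the same bound on the derivative. -/
def St_MPT : Prop := ∀ (n : ℕ) (c : E n) (R : ℝ), 0 < R → ∃ C : ℝ≥0, ∀ h : E n → ℝ≥0∞,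
  Measurable h → ∃ p ∈ ball c R, ∀ f : E n → ℝ, (∀ y ∈ ball c R, DifferentiableAt ℝ f y ∧
    ∀ ξ, ‖fderiv ℝ f y ξ‖ₑ ≤ h y * ‖ξ‖ₑ) →
    ∫⁻ y in ball c R, ‖f y - f p‖ₑ ≤ C * ∫⁻ y in ball c R, h y

/-- Change of variable in the plane. -/
def St_MCV : Prop := ∀ (A : Set ℂ) (m m' : ℂ → ℂ) (L : ℝ≥0), MeasurableSet A → InjOn m A →
  (∀ w ∈ A, HasDerivAt m (m' w) w ∧ 1 ≤ L * ‖m' w‖) → ∀ χ : ℂ → ℝ≥0∞,
    ∫⁻ w in A, χ (m w) ≤ (L ^ 2 : ℝ≥0) * ∫⁻ w, χ w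

/-- Finitely many tubes. -/
def St_MTU : Prop := ∀ (n : ℕ) (U : Set (E n)) (W : E n → ℂ) (ρ : ℝ) (N : E n → Set (E n)),
  IsOpen U → DifferentiableOn ℂ W U →
  (∀ w ∈ closedBall (0 : ℂ) ρ, ∃ x ∈ U, W x = w ∧ fderiv ℂ W x ≠ 0) →
  (∀ x ∈ U, fderiv ℂ W x ≠ 0 → N x ∈ 𝓝 x) →
  ∃ (s : Finset (E n)) (D : E n → Set ℂ) (C : ℝ≥0), (closedBall 0 ρ ⊆ ⋃ x ∈ s, D x) ∧
    ∀ x ∈ s, x ∈ U ∧ fderiv ℂ W x ≠ 0 ∧ IsOpen (D x) ∧ D x ⊆ W '' (U ∩ interior (N x)) ∧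
      ∀ χ : ℂ → ℝ≥0∞, Measurable χ → ∫⁻ w in D x, χ w ≤ C * ∫⁻ y in U ∩ N x, χ (W y)

/-- The functions are close to functions of `W`, on a neighbourhood that does not depend on the
vertex. -/
def St_MEX : Prop := ∀ (n : ℕ) (κ V : Type) (l : Filter κ) (f : κ → V → E n → ℝ) (S : Set V)
  (W : E n → ℂ) (x : E n), (∀ᶠ y in 𝓝 x, DifferentiableAt ℂ W y) → fderiv ℂ W x ≠ 0 →
  Lea l f S W x → ∃ N ∈ 𝓝 x, ∀ v ∈ S, ∃ a : κ → ℂ → ℝ, (∀ k, Measurable (a k)) ∧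
    Tendsto (fun k => ∫⁻ y in N, ‖f k v y - a k (W y)‖ₑ) l (𝓝 0)

/-- Propagation along a chain of good values. -/
def St_MGE : Prop := ∀ (n : ℕ) (κ V : Type) (l : Filter κ) (f : κ → V → E n → ℝ)
  (U : V → Set (E n)) (W : V → E n → ℂ) (Com : V → E n → V → E n → Prop) (Good : V → ℂ → Prop)
  (Mo : V → V → ℂ → ℂ), Geo U W Com Good Mo →
  (∀ k v x v' x', Com v x v' x' → f k v x = f k v' x') → (∀ k v, ContinuousOn (f k v) (U v)) →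
  (∀ v, ∀ x ∈ U v, fderiv ℂ (W v) x ≠ 0 → ∃ N ∈ 𝓝 x, ∃ a : κ → ℂ → ℝ, (∀ k, Measurable (a k)) ∧
    Tendsto (fun k => ∫⁻ y in N, ‖f k v y - a k (W v y)‖ₑ) l (𝓝 0)) →
  ∀ v v', ∀ x ∈ U v, ∀ x' ∈ U v', ∀ N ∈ 𝓝 x, ∀ N' ∈ 𝓝 x', ∀ a a' : κ → ℂ → ℝ,
    (∀ k, Measurable (a k)) → (∀ k, Measurable (a' k)) →
    Tendsto (fun k => ∫⁻ y in N, ‖f k v y - a k (W v y)‖ₑ) l (𝓝 0) →
    Tendsto (fun k => ∫⁻ y in N', ‖f k v' y - a' k (W v' y)‖ₑ) l (𝓝 0) →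
    Good v (W v x) → Good v' (W v' x') →
    Relation.ReflTransGen (ElG W Com Good) (v, W v x) (v', W v' x') →
    ∃ D ∈ 𝓝 (W v x), Tendsto (fun k => ∫⁻ w in D, ‖a k w - a' k (Mo v v' w)‖ₑ) l (𝓝 0)

/-- Exhaustion of half of the area. -/
def St_MHA : Prop := ∀ (κ : Type) (l : Filter κ) (G : κ → ℂ → ℝ≥0∞) (A S : Set ℂ),
  MeasurableSet A → volume A ≠ ⊤ → S.Countable →
  (∀ w ∈ A \ S, ∃ D ∈ 𝓝 w, Tendsto (fun k => ∫⁻ u in D, G k u) l (𝓝 0)) →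
  ∃ K : Set ℂ, MeasurableSet K ∧ K ⊆ A ∧ volume A ≤ 2 * volume K ∧
    Tendsto (fun k => ∫⁻ u in K, G k u) l (𝓝 0)

/-- The cost of a link, in coordinates. -/
def St_MCO : Prop := ∀ (n : ℕ) (ι V κ : Type) [Finite ι] (bx : V → ι) (U : ι → Set (E n))
  (W : ι → E n → ℂ) (ρ r : ℝ) (L C0 : ℝ≥0) (Com : V → E n → V → E n → Prop)
  (Good : V → ℂ → Prop) (Mo : V → V → ℂ → ℂ) (l : Filter κ) (f : κ → V → E n → ℝ)
  (m : κ → V → ℝ), 0 < r → (∀ i, IsOpen (U i)) → (∀ i, DifferentiableOn ℂ (W i) (U i)) →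
  (∀ i, ∀ w ∈ closedBall (0 : ℂ) ρ, ∃ x ∈ U i, W i x = w ∧ fderiv ℂ (W i) x ≠ 0) →
  Geo (fun v => U (bx v)) (fun v => W (bx v)) Com Good Mo →
  (∀ k v x v' x', Com v x v' x' → f k v x = f k v' x') →
  (∀ k v, ContinuousOn (f k v) (U (bx v))) →
  (∀ i, ∀ x ∈ U i, fderiv ℂ (W i) x ≠ 0 → Lea l f {v | bx v = i} (W i) x) →
  (∀ k v, ∫⁻ y in U (bx v), ‖f k v y - m k v‖ₑ ≤ C0) →
  ∃ C1 : ℝ, ∀ v v' z, Lnk (fun v => W (bx v)) Com Good Mo ρ r L v v' z →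
    ∀ᶠ k in l, |m k v - m k v'| ≤ C1

/-- A function whose derivative is bounded by the form `T` on the set `Q`. -/
def Adm (b : ℝ) (T : E n → Mat n) (Q : Set (E n)) (f : E n → ℝ) : Prop :=
  ∀ y ∈ Q, DifferentiableAt ℝ f y ∧ ∀ ξ, (fderiv ℝ f y ξ) ^ 2 ≤ b * nq (T y) ξ

/-- The cost of a link. -/
def St_MEA : Prop := ∀ (n : ℕ) (M : Mf n) [M.Cpt] (H : M.Fam (Mat n)) (α : M.Fam (E n))
  (ι V : Type) [Finite ι] (bx : V → ι) (e : ι → M.Ch) (c : ι → E n) (R : ι → ℝ)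
  (U : ι → Set (E n)) (W : ι → E n → ℂ) (b ρ r : ℝ) (L : ℝ≥0)
  (Com : V → E n → V → E n → Prop) (Good : V → ℂ → Prop) (Mo : V → V → ℂ → ℂ),
  M.Kae H → H1 M 1 α → Sm3 M H α → 0 < r →
  (∀ i, e i ∈ M.C ∧ 0 < R i ∧ closedBall (c i) (R i) ⊆ (e i).target ∧ U i ⊆ ball (c i) (R i) ∧
    IsOpen (U i) ∧ DifferentiableOn ℂ (W i) (U i) ∧
    (∀ y ∈ U i, ∃ s : ℂ, s ≠ 0 ∧ ∀ k, α (e i) y k = s * dz k (W i) y) ∧
    ∀ w ∈ closedBall (0 : ℂ) ρ, ∃ x ∈ U i, W i x = w ∧ fderiv ℂ (W i) x ≠ 0) →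
  Geo (fun v => U (bx v)) (fun v => W (bx v)) Com Good Mo →
  ∃ (C1 : ℝ) (p : ℝ → (M.X → ℝ) → ι → E n), (∀ ε u i, p ε u i ∈ ball (c i) (R i)) ∧
    ∀ v v' z, Lnk (fun v => W (bx v)) Com Good Mo ρ r L v v' z →
      ∃ δ : ℝ, 0 < δ ∧ ∀ (ε : ℝ) (u : M.X → ℝ) (f : V → E n → ℝ), 0 ≤ ε → ε ≤ δ → M.Sm u →
        M.Le 0 (tE M H ε u) →
        (∀ a, Adm b (tE M H ε u (e (bx a))) (ball (c (bx a)) (R (bx a))) (f a)) →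
        (∀ a x a' x', Com a x a' x' → f a x = f a' x') →
        |f v (p ε u (bx v)) - f v' (p ε u (bx v'))| ≤ C1

end Pool.Agent.Lib.F4G
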