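import Pool.Agent.Lib.F4.Defs

/-! Project f4g: local developing maps. -/

open scoped Topology Matrix MatrixGroups
open Set Filter

noncomputable section

namespace Pool.Agent.Lib.F4G

open Pool.Agent.Lib.SV (E)
open Pool.Agent.Lib.HS32 Pool.Agent.Lib.F4

/-- Local developing maps `t / s` with `α = s ^ 2 d (t / s)`, related by Möbius maps. -/
structure Dev {n : ℕ} (M : Mf n) (α : M.Fam (E n)) where
  e : M.X → M.Ch
  O : M.X → Set M.X
  s : M.X → E n → ℂ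
  t : M.X → E n → ℂ
  c : M.X → M.X → M.X → SL(2, ℂ)
  mem : ∀ a, e a ∈ M.C
  opn : ∀ a, IsOpen (O a)
  self : ∀ a, a ∈ O a
  sub : ∀ a, O a ⊆ (e a).source
  hol : ∀ a, ∀ x ∈ O a, DifferentiableAt ℂ (s a) (e a x) ∧ DifferentiableAt ℂ (t a) (e a x) ∧
    s a (e a x) ≠ 0
  base : ∀ a, s a (e a a) = 1 ∧ t a (e a a) = 0
  wr : ∀ a, ∀ x ∈ O a, ∀ k, α (e a) (e a x) k =
    s a (e a x) * dz k (t a) (e a x) - t a (e a x) * dz k (s a) (e a x)
  tr : ∀ a b x, x ∈ O a → x ∈ O b → ∃ h : ℂ, h ^ 2 = jd M (e a) (e b) x ∧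
    h • ![s a (e a x), t a (e a x)] = (c a b x).1 *ᵥ ![s b (e b x), t b (e b x)]
  lc : ∀ a b x, x ∈ O a → x ∈ O b → ∀ᶠ y in 𝓝 x, c a b y = c a b x ∨ c a b y = -c a b x
  co : ∀ a b d x, x ∈ O a → x ∈ O b → x ∈ O d →
    c a b x * c b d x = c a d x ∨ c a b x * c b d x = -c a d x

end Pool.Agent.Lib.F4G
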