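import Mathlib

/-! Project f4g: the final count. -/

set_option linter.unusedVariables false

namespace Pool.Agent.Lib.F4G

theorem word37 {Q : Type*} [Monoid Q] (m : Q → ℝ) (D : ℝ) (l : List Q)
    (h : ∀ g ∈ l, ∀ t, m t - D ≤ m (t * g)) (t : Q) : m t - l.length * D ≤ m (t * l.prod) := by
  induction l generalizing t with
  | nil => simp
  | cons g l ih =>
    have a := ih (fun g' hg => h g' (List.mem_cons_of_mem _ hg)) (t * g)
    have b := h g List.mem_cons_self t
    rw [List.prod_cons, ← mul_assoc, List.length_cons]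
    push_cast
    linarith

theorem count37 (N : ℕ) (D C : ℝ) (h : Real.exp D < N) : ∃ k : ℕ, ∀ (Q : Type) [Fintype Q]
    (ω : (Fin k → Fin N) → Q) (m : Q → ℝ), Function.Injective ω →
    (∀ w, -C - k * D ≤ m (ω w)) → ¬∑ t, Real.exp (m t) ≤ C := by
  have q : 1 < N / Real.exp D := (one_lt_div (Real.exp_pos D)).2 h
  obtain ⟨k, hk⟩ := pow_unbounded_of_one_lt (C * Real.exp C) q
  refine ⟨k, fun Q _ ω m hω hm hs => ?_⟩
  classical
  have a : ∑ w, Real.exp (m (ω w)) ≤ ∑ t, Real.exp (m t) := by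
    rw [← Finset.sum_image (s := Finset.univ) (g := ω) (f := fun t => Real.exp (m t))
      fun x _ y _ e => hω e]
    exact Finset.sum_le_sum_of_subset_of_nonneg (Finset.subset_univ _)
      fun t _ _ => (Real.exp_pos _).le
  have b : (N : ℝ) ^ k * Real.exp (-C - k * D) ≤ ∑ w, Real.exp (m (ω w)) := by
    have := Finset.card_nsmul_le_sum (Finset.univ : Finset (Fin k → Fin N))
      (fun w => Real.exp (m (ω w))) (Real.exp (-C - k * D))
      fun w _ => Real.exp_le_exp.2 (hm w)
    simpa [nsmul_eq_mul] using this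
  have e : (N / Real.exp D) ^ k = (N : ℝ) ^ k * Real.exp (-C - k * D) * Real.exp C := by
    rw [mul_assoc, ← Real.exp_add, div_pow, ← Real.exp_nat_mul, div_eq_mul_inv, ← Real.exp_neg]
    congr 2
    ring
  have := mul_le_mul_of_nonneg_right (b.trans (a.trans hs)) (Real.exp_pos C).le
  rw [← e] at this
  exact absurd hk (not_lt.2 this)

theorem fin37 (N : ℕ) (D C : ℝ) (h : Real.exp D < N) : ∃ k : ℕ, ∀ (Q : Type) [Group Q]
    [Fintype Q] (T : Fin N → Q) (m : Q → ℝ),
    (∀ w w' : Fin k → Fin N, (List.ofFn (T ∘ w)).prod = (List.ofFn (T ∘ w')).prod → w = w') →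
    (∀ t i, m t - D ≤ m (t * T i)) → -C ≤ m 1 → ¬∑ t, Real.exp (m t) ≤ C := by
  obtain ⟨k, hk⟩ := count37 N D C h
  refine ⟨k, fun Q _ _ T m hw hT h1 => hk Q (fun w => (List.ofFn (T ∘ w)).prod) m hw fun w => ?_⟩
  have := word37 m D (List.ofFn (T ∘ w)) (fun g hg t => by
    obtain ⟨i, rfl⟩ := List.mem_ofFn.1 hg
    exact hT t _) 1
  rw [one_mul, List.length_ofFn] at this
  linarith

end Pool.Agent.Lib.F4G
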