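import Pool.Agent.Lib.F4.BlueO
import Pool.Agent.Lib.F4G.Box
import Pool.Agent.Lib.F4G.BlueC
import Pool.Agent.Lib.F4G.BlueM
import Pool.Agent.Lib.F4G.Dev
import Pool.Agent.Lib.F4G.Fin37

/-! Project f4g: the theorem without hypothesis on the fundamental group. Blueprint. -/

open scoped Classical Topology ContDiff ComplexOrder Matrix Manifold MatrixGroups
open scoped LinearAlgebra.Projectivization
open Set Filter Metric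

set_option linter.unusedVariables false

noncomputable section

namespace Pool.Agent.Lib.F4G

open Pool.Agent.Lib.SV (E Pluri)
open Pool.Agent.Lib.HS32 Pool.Agent.Lib.GH Pool.Agent.Lib.F4
open Pool.Agent.Lib.HW (CanNef)

/-- The theorem. -/
def St_F4G : Prop := ∀ (X : Type) [TopologicalSpace X] [ChartedSpace (E 4) X]
  [IsManifold 𝓘(ℂ, E 4) ω X] [CompactSpace X] [T2Space X] [ConnectedSpace X] (G : X → Mat 4),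
  Kaehler G → CanNef G → (∀ ρ ∈ TF 4 X 1 0, ρ = 0) → (∃ σ ∈ TF 4 X 2 0, σ ≠ 0) →
  (∃ m, 0 < m ∧ ∃ s ∈ Pluri 4 X m, s ≠ 0) ∨
    ∃ p a, a ≤ 1 ∧ p + a ≤ 3 ∧ ∃ s ∈ TF 4 X p a, s ≠ 0 ∧ HypIn 4 {x | s x = 0}

/-- There is a pluricanonical form. -/
def Plu {n : ℕ} (M : Mf n) : Prop := ∃ m, 0 < m ∧ ∃ t, M.HSec m t ∧ ¬Zr M t

/-- Developing maps exist. -/
def St_DEV : Prop := ∀ (M : Mf 4) [M.Cpt] (H S P : M.Fam (Mat 4)) (V W α : M.Fam (E 4))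
  (a : ℝ → M.X → ℝ), M.Kae H → ZK47.Out M H 0 a → Data M S P V W α →
  (∀ k, ∃ s φ ψ, Ld M k α s φ ψ) → Nonempty (Dev M α)

/-- Boxes exist. -/
def St_BOX : Prop := ∀ (n : ℕ) (M : Mf n) [M.Cpt] (α φ ψ : _) (s : ℝ), Dev M α → H1 M 1 α →
  Den M α → Rem M α → Ld M 3 α s φ ψ → 0 < s → ∃ k B, Nonempty (Box M α k B)

/-- The discs form an atlas. -/
def St_ATL : Prop := ∀ (n : ℕ) (M : Mf n) [M.Cpt] (α : M.Fam (E n)) (k B : ℝ) (b : Box M α k B),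
  ∃ r, My.Atl Prod.fst b.F b.J k B r

/-- The monodromy group. -/
def St_GAM : Prop := ∀ (n : ℕ) (M : Mf n) [M.Cpt] (α : M.Fam (E n)) (k B : ℝ) (b : Box M α k B)
  (a : b.I), (∃ Γ : Subgroup PG, (Γ : Set PG) = b.Gam a ∧ Γ ≤ Subgroup.closure (b.S : Set PG)) ∧
  ∃ (U : b.I → Set M.X) (g : b.I → PG), (∀ i, IsOpen (U i) ∧ U i ⊆ b.O i) ∧ (∀ x, ∃ i, x ∈ U i) ∧
    ∀ i j x, x ∈ U i → x ∈ U j → g i * b.c i j x * (g j)⁻¹ ∈ b.Gam a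

/-- A finite orbit gives a pluricanonical form. -/
def St_ORB : Prop := ∀ (n : ℕ) (M : Mf n) [M.Cpt] (H : M.Fam (Mat n)) (α : M.Fam (E n))
  (k B : ℝ) (b : Box M α k B) (Γ : Subgroup PG) (U : b.I → Set M.X) (g : b.I → PG)
  (v : ℙ ℂ (Fin 2 → ℂ)), 0 < n → M.Kae H → (∀ ρ, H1 M 0 ρ → Zr M ρ) → Den M α →
  (∀ i, IsOpen (U i) ∧ U i ⊆ b.O i) → (∀ x, ∃ i, x ∈ U i) →
  (∀ i j x, x ∈ U i → x ∈ U j → g i * b.c i j x * (g j)⁻¹ ∈ Γ) →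
  ((fun γ : PG => γ • v) '' Γ).Finite → Plu M

/-- The flat case. -/
def St_FLAT : Prop := ∀ (n : ℕ) (M : Mf n) [M.Cpt] (H : M.Fam (Mat n)) (α φ ψ : _), 0 < n →
  M.Kae H → (∀ ρ, H1 M 0 ρ → Zr M ρ) → Ld M 3 α 0 φ ψ → Plu M

/-- Without finite orbit there are free semigroups, seen in finite quotients. -/
def St_QUO : Prop := ∀ (S : Finset PG) (Γ : Subgroup PG), Γ ≤ Subgroup.closure (S : Set PG) →
  (∀ v : ℙ ℂ (Fin 2 → ℂ), ¬((fun γ : PG => γ • v) '' Γ).Finite) → ∀ N : ℕ,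
  ∃ T : Fin N → PG, (∀ i, T i ∈ Γ) ∧ ∀ k : ℕ, ∃ (Q : Type) (_ : Group Q) (_ : Fintype Q)
    (ρ : PG → Q), ρ 1 = 1 ∧ (∀ g, ∀ h ∈ Subgroup.closure (S : Set PG), ρ (g * h) = ρ g * ρ h) ∧
    ∀ w w' : Fin k → Fin N,
      (List.ofFn ((ρ ∘ T) ∘ w)).prod = (List.ofFn ((ρ ∘ T) ∘ w')).prod → w = w'

/-- The cost of a link. -/
def St_MEAN : Prop := ∀ (n : ℕ) (M : Mf n) [M.Cpt] (H : M.Fam (Mat n)) (α : M.Fam (E n))
  (k B r κ : ℝ) (b : Box M α k B), M.Kae H → H1 M 1 α → Sm3 M H α →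
  My.Atl Prod.fst b.F b.J k B r →
  ∃ (C : ℝ) (p : ℝ → (M.X → ℝ) → b.I → M.X), (∀ ε u i, p ε u i ∈ b.O i) ∧
    ∀ v w, My.Lk b.J v w → ∃ δ : ℝ, 0 < δ ∧ ∀ (ε : ℝ) (u : M.X → ℝ) (f : b.I × PG → M.X → ℝ),
      0 ≤ ε → ε ≤ δ → M.Sm u → M.Le 0 (tE M H ε u) → b.Cmp (tE M H ε u) κ f →
      |f v (p ε u v.1) - f w (p ε u w.1)| ≤ C

/-- The metrics of Aubin and Yau. -/
def St_AY : Prop := ∀ (n : ℕ) (M : Mf n) [M.Cpt] (H : M.Fam (Mat n)) (a : ℝ → M.X → ℝ) (ε : ℝ),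
  0 < n → M.Kae H → ZK47.Out M H 0 a → ε ∈ Ioc (0 : ℝ) 1 → ∃ u, M.Sm u ∧ M.Le 0 (tE M H ε u) ∧
    M.Kae (tE M H ε u) ∧ M.Le (-tE M H ε u) (M.ric (tE M H ε u))

/-- The monodromy has a finite orbit. -/
def St_FIN : Prop := ∀ (n : ℕ) (M : Mf n) [M.Cpt] (H : M.Fam (Mat n)) (α : M.Fam (E n))
  (a : ℝ → M.X → ℝ) (k B : ℝ) (b : Box M α k B) (i : b.I) (Γ : Subgroup PG), 0 < n → M.Kae H →
  ZK47.Out M H 0 a → H1 M 1 α → Sm3 M H α → (Γ : Set PG) = b.Gam i →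
  Γ ≤ Subgroup.closure (b.S : Set PG) →
  ∃ v : ℙ ℂ (Fin 2 → ℂ), ((fun γ : PG => γ • v) '' Γ).Finite

/-- The theorem on the manifold layer. -/
def St_MN : Prop := ∀ (M : Mf 4) [M.Cpt] (H S : M.Fam (Mat 4)) (V W : M.Fam (E 4)), M.Kae H →
  W86.Nef M H → Hyp M → H2 M 0 S → ¬Zr M S → HT M 1 V → HT M 1 W → Ind M V W → Plu M

theorem mn_of (hA : St_ALG) (hO : St_OUZ) (h3 : St_S3) (hS : St_S34) (hL : St_LD) (hV : St_DEV)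
    (hB : St_BOX) (hG : St_GAM) (hR : St_ORB) (hF : St_FLAT) (hN : St_FIN) : St_MN := by
  intro M _ H S V W hH hn hy hS0 nS h1 h2 hI
  obtain ⟨P, V, W, α, hD⟩ := hA M S V W hy hS0 nS h1 h2 hI
  obtain ⟨a, ha⟩ := hO 4 M H hH hn
  obtain ⟨F, t, hF'⟩ := hS M H S P V W α a hH hD ha
  have hl := fun k => hL M H α a F t k hH ha hD.hα hD.nα hF'
  obtain ⟨s, φ, ψ, hs⟩ := hl 3
  rcases hs.s0.eq_or_lt with rfl | s0
  · exact hF 4 M H α φ ψ four_pos hH hy.q0 hs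
  obtain ⟨D⟩ := hV M H S P V W α a hH ha hD hl
  obtain ⟨k, B, ⟨b⟩⟩ := hB 4 M α φ ψ s D hD.hα hD.den hD.rem hs s0
  obtain ⟨x⟩ : Nonempty M.X := inferInstance
  obtain ⟨i, -⟩ := b.cov x
  obtain ⟨⟨Γ, g1, g2⟩, U, g, u1, u2, u3⟩ := hG 4 M α k B b i
  obtain ⟨v, hv⟩ := hN 4 M H α a k B b i Γ four_pos hH ha hD.hα (h3 M H S P V W α hH hD) g1 g2
  exact hR 4 M H α k B b Γ U g v four_pos hH hy.q0 hD.den u1 u2
    (fun i j x hi hj => by rw [← SetLike.mem_coe, g1]; exact u3 i j x hi hj) hv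

end Pool.Agent.Lib.F4G
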