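import Pool.Agent.Lib.F4G.BlueM
import Pool.Agent.Lib.F4G.Box

/-! Project f4g, step five on a family of boxes. Blueprint. -/

open scoped Classical Topology ENNReal NNReal Matrix
open Set Filter MeasureTheory Metric

set_option linter.unusedVariables false

noncomputable section

namespace Pool.Agent.Lib.F4G

open Pool.Agent.Lib.SV (E)
open Pool.Agent.Lib.HS32 Pool.Agent.Lib.F4

namespace Box

variable {n : ℕ} {M : Mf n} {α : M.Fam (E n)} {k B : ℝ} (b : Box M α k B)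

/-- Common points, in coordinates. -/
def Com (v : b.I × PG) (x : E n) (v' : b.I × PG) (x' : E n) : Prop :=
  ∃ y, In (b.e v.1) (b.U v.1) y ∧ In (b.e v'.1) (b.U v'.1) y ∧ b.e v.1 y = x ∧ b.e v'.1 y = x' ∧
    v'.2 = v.2 * b.c v.1 v'.1 y

/-- The Möbius map between the discs of two vertices. -/
def Mo (v v' : b.I × PG) (w : ℂ) : ℂ :=
  ((lf (v'.2⁻¹ * v.2)).1 1 0 + (lf (v'.2⁻¹ * v.2)).1 1 1 * w) /
    ((lf (v'.2⁻¹ * v.2)).1 0 0 + (lf (v'.2⁻¹ * v.2)).1 0 1 * w)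

end Box

/-- The geometric data of a family of boxes. -/
def St_MGO : Prop := ∀ (n : ℕ) (M : Mf n) (α : M.Fam (E n)) (k B : ℝ) (b : Box M α k B),
  Geo (fun v : b.I × PG => b.U v.1) (fun v => b.W v.1) b.Com (fun _ w => w ∉ b.T) b.Mo ∧
  ∀ i, DifferentiableOn ℂ (b.W i) (b.U i) ∧
    (∀ y ∈ b.U i, ∃ s : ℂ, s ≠ 0 ∧ ∀ j, α (b.e i) y j = s * dz j (b.W i) y) ∧
    ∀ w ∈ closedBall (0 : ℂ) (7 / 8), ∃ x ∈ b.U i, b.W i x = w ∧ fderiv ℂ (b.W i) x ≠ 0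

/-- The links of the atlas are links on discs of a fixed size. -/
def St_MLK : Prop := ∀ (n : ℕ) (M : Mf n) (α : M.Fam (E n)) (k B r : ℝ) (b : Box M α k B),
  My.Atl Prod.fst b.F b.J k B r → ∃ (r' : ℝ) (L : ℝ≥0), 0 < r' ∧ ∀ v w, My.Lk b.J v w →
    ∃ z, Lnk (fun v : b.I × PG => b.W v.1) b.Com (fun _ w => w ∉ b.T) b.Mo (7 / 8) r' L v w z

/-- The cost of a link of the atlas. -/
def St_MEANS : Prop := ∀ (n : ℕ) (M : Mf n) [M.Cpt] (H : M.Fam (Mat n)) (α : M.Fam (E n))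
  (k B r κ : ℝ) (b : Box M α k B), M.Kae H → H1 M 1 α → Sm3 M H α →
  My.Atl Prod.fst b.F b.J k B r →
  ∃ (C1 : ℝ) (p : ℝ → (M.X → ℝ) → b.I → M.X), (∀ ε u i, p ε u i ∈ b.O i) ∧
    ∀ v w, My.Lk b.J v w → ∃ δ : ℝ, 0 < δ ∧ ∀ (ε : ℝ) (u : M.X → ℝ) (f : b.I × PG → M.X → ℝ),
      0 ≤ ε → ε ≤ δ → M.Sm u → M.Le 0 (tE M H ε u) → b.Cmp (tE M H ε u) κ f →
      |f v (p ε u v.1) - f w (p ε u w.1)| ≤ C1

theorem st_MEANS (hA : St_MEA) (hG : St_MGO) (hL : St_MLK) : St_MEANS := by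
  intro n M _ H α k B r κ b hH hα h3 atl
  have := b.fin
  obtain ⟨geo, hb⟩ := hG n M α k B b
  obtain ⟨r', L, hr, hl⟩ := hL n M α k B r b atl
  have hR : ∀ i, 0 < b.R i := fun i =>
    nonempty_ball.1 ⟨_, b.uq i ((b.hsg i).2 0 (mem_ball_self one_pos)).1⟩
  have tg : ∀ i, ∀ z ∈ ball (b.p i) (b.R i), z ∈ (b.e i).target := fun i z hz =>
    b.sub i (ball_subset_closedBall hz)
  have mem : ∀ i, ∀ z ∈ ball (b.p i) (b.R i), (b.e i).symm z ∈ b.O i := fun i z hz =>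
    ⟨(b.e i).map_target (tg i z hz), by rwa [(b.e i).right_inv (tg i z hz)]⟩
  obtain ⟨C1, p, hp, h⟩ := hA n M H α b.I (b.I × PG) Prod.fst b.e b.p b.R b.U b.W κ (7 / 8) r' L
    b.Com (fun _ w => w ∉ b.T) b.Mo hH hα h3 hr (fun i => ⟨b.mem i, hR i, b.sub i, b.uq i,
      b.opn i, (hb i).1, (hb i).2.1, (hb i).2.2⟩) geo
  refine ⟨C1, fun ε u i => (b.e i).symm (p ε u i), fun ε u i => mem i _ (hp ε u i),
    fun v w lk => ?_⟩
  obtain ⟨z, hz⟩ := hl v w lk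
  obtain ⟨δ, hδ, hd⟩ := h v w z hz
  refine ⟨δ, hδ, fun ε u f h0 h1 hu hT hf => ?_⟩
  refine hd ε u (fun a => f a ∘ (b.e a.1).symm) h0 h1 hu hT (fun a y hy => ?_) ?_
  · obtain ⟨-, k2, k3⟩ := hf a.1 a.2 _ (mem a.1 y hy)
    rw [(b.e a.1).right_inv (tg a.1 y hy)] at k2 k3
    exact ⟨k2.differentiableAt one_ne_zero, k3⟩
  · rintro a _ a' _ ⟨y, y1, y2, rfl, rfl, y3⟩
    have k1 := (hf a.1 a.2 y ⟨y1.1, b.uq _ y1.2⟩).1 a'.1 ⟨y2.1, b.uq _ y2.2⟩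
    rw [← y3] at k1
    simp only [Function.comp_apply, (b.e a.1).left_inv y1.1, (b.e a'.1).left_inv y2.1]
    exact k1.symm

end Pool.Agent.Lib.F4G
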