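import Pool.Agent.Lib.F4G.Con2
import Pool.Agent.Lib.RA.T_AN
import Pool.Agent.Lib.F4.Defs

/-! Project f4g: boxes with connected fibres. -/

open scoped Topology ContDiff
open Set Filter Metric

set_option linter.unusedVariables false

noncomputable section

namespace Pool.Agent.Lib.F4G

open Pool.Agent.Lib.SV (E)
open Pool.Agent.Lib.F4 (Rm)

namespace Con

variable {V : Type} [NormedAddCommGroup V] [NormedSpace ℂ V]

theorem pre {X : Type} [MetricSpace X] {F : Set X} (h : ∀ A B, IsOpen A → IsOpen B →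
    Disjoint A B → F ⊆ A ∪ B → (F ∩ A).Nonempty → (F ∩ B).Nonempty → False) :
    IsPreconnected F := by
  intro u v hu hv h1 h2 h3
  by_contra hn
  have k : ∀ u v : Set X, IsOpen v → ¬(F ∩ (u ∩ v)).Nonempty →
      Disjoint (closure (F ∩ u)) (F ∩ v) := fun u v hv hn => Set.disjoint_left.2 fun x a b => by
    obtain ⟨y, c1, c2⟩ := mem_closure_iff.1 a v hv b.2
    exact hn ⟨y, c2.1, c2.2, c1⟩
  obtain ⟨A, a, B, b, c⟩ := Filter.disjoint_iff.1 (CompletelyNormalSpace.completely_normal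
    (k u v hv hn) (k v u hu (by rwa [inter_comm v u])).symm)
  obtain ⟨A', a1, a2, a3⟩ := mem_nhdsSet_iff_exists.1 a
  obtain ⟨B', b1, b2, b3⟩ := mem_nhdsSet_iff_exists.1 b
  exact h A' B' a1 b1 (c.mono a3 b3) (fun x hx => (h1 hx).imp (fun e => a2 ⟨hx, e⟩)
    fun e => b2 ⟨hx, e⟩) (h2.mono fun x hx => ⟨hx.1, a2 hx⟩) (h3.mono fun x hx => ⟨hx.1, b2 hx⟩)

theorem core {g : V × ℂ → ℂ} {r p d : ℝ} {a : V} (hp : 0 < p) (hd : 0 < d) (ha : ‖a‖ < r)
    (hA : ∀ z y, ‖z‖ < r → ‖y‖ ≤ p → AnalyticAt ℂ g (z, y))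
    (hb : ∀ z y, ‖z‖ < r → ‖y‖ = p → d ≤ ‖g (z, y)‖)
    (h0 : ∀ y, ‖y‖ ≤ p → y ≠ 0 → g (0, y) ≠ 0 ∧ dy g (0, y) ≠ 0) (h00 : g (0, 0) = 0)
    (hS : ∀ (t : ℂ) y, ‖t‖ = 1 → ‖y‖ ≤ p → g (t • a, y) = 0 → dy g (t • a, y) ≠ 0) :
    ∃ e > 0, ∀ c, ‖c‖ < e →
      IsPreconnected {q : V × ℂ | ‖q.1‖ < r ∧ ‖q.2‖ < p ∧ g q = c} := by
  set G : ℂ × ℂ → ℂ := fun w => g (w.1 • a, w.2) with hG
  have hr : ‖(0 : V)‖ < r := by rw [norm_zero]; exact (norm_nonneg a).trans_lt ha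
  have n1 : ∀ t : ℂ, ‖t‖ ≤ 1 → ‖t • a‖ < r := fun t ht => by
    rw [norm_smul]; nlinarith [norm_nonneg a, norm_nonneg t]
  have cG : Continuous fun w : ℂ × ℂ => ((w.1 • a, w.2) : V × ℂ) := by fun_prop
  have aG : ∀ t y, ‖t‖ ≤ 1 → ‖y‖ ≤ p → AnalyticAt ℂ G (t, y) := fun t y ht hy =>
    (hA _ y (n1 t ht) hy).comp_of_eq (f := fun w : ℂ × ℂ => ((w.1 • a, w.2) : V × ℂ))
      ((analyticAt_fst.smul analyticAt_const).prod analyticAt_snd) rfl
  have dG : ∀ t y, ‖t‖ ≤ 1 → ‖y‖ ≤ p → dy G (t, y) = dy g (t • a, y) := fun t y ht hy => by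
    have e1 := sl_der (hA _ y (n1 t ht) hy)
    exact (sl_der (aG t y ht hy)).unique e1
  obtain ⟨m, hm, h1⟩ := sep (G := G) (p := p) (fun t y ht => aG t y ht.le) fun t y ht hy e => by
    rw [dG t y ht.le hy]
    exact hS t y ht hy e
  obtain ⟨d2, hd2, h2⟩ := ((isCompact_closedBall (0 : ℂ) p).diff
    (isOpen_ball (x := 0) (ε := m / 2))).exists_forall_le' (f := fun y => ‖g (0, y)‖) (a := 0)
    (fun y hy => (sl_an (hA 0 y hr (mem_closedBall_zero_iff.1 hy.1))).continuousAt.norm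
      |>.continuousWithinAt) fun y hy => norm_pos_iff.2 (h0 y (mem_closedBall_zero_iff.1 hy.1)
        fun e => hy.2 (by rw [e]; exact mem_ball_self (by linarith))).1
  refine ⟨min d (min m d2), by positivity, fun c hc => ?_⟩
  simp only [lt_min_iff] at hc
  refine pre fun A B oA oB hD hF nA nB => ?_
  have k : ∀ A B : Set (V × ℂ), IsOpen A → IsOpen B → Disjoint A B →
      {q : V × ℂ | ‖q.1‖ < r ∧ ‖q.2‖ < p ∧ g q = c} ⊆ A ∪ B →
      ({q : V × ℂ | ‖q.1‖ < r ∧ ‖q.2‖ < p ∧ g q = c} ∩ A).Nonempty → ∃ y,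
      ‖y‖ < p ∧ ‖y‖ < m / 2 ∧ (0, y) ∈ A ∧ g (0, y) = c := by
    rintro A B oA oB hD hF ⟨q, ⟨q1, q2, q3⟩, q4⟩
    obtain ⟨y, b1, b2, b3⟩ := surj hp hA hb hc.1 oA oB hD (fun z y e1 e2 e3 => hF ⟨e1, e2, e3⟩)
      ⟨q.1, q.2, q1, q2, q3, q4⟩ hr
    refine ⟨y, b1, ?_, b3, b2⟩
    by_contra e
    have := h2 y ⟨mem_closedBall_zero_iff.2 b1.le, fun e' => e (mem_ball_zero_iff.1 e')⟩
    simp only [b2] at this
    linarith [hc.2.2]
  obtain ⟨y, y1, y2, y3, y4⟩ := k A B oA oB hD hF nA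
  obtain ⟨x, x1, x2, x3, x4⟩ := k B A oB oA hD.symm (union_comm A B ▸ hF) nB
  by_cases c0 : c = 0
  · have e1 : y = 0 := by_contra fun e => (h0 y y1.le e).1 (y4.trans c0)
    have e2 : x = 0 := by_contra fun e => (h0 x x1.le e).1 (x4.trans c0)
    exact hD.notMem_of_mem_left y3 (by rw [e1, ← e2]; exact x3)
  have t3 : ‖(0 : ℂ)‖ ≤ 1 := by simp
  have t4 : ∀ y, ‖y‖ < p → g (0, y) = c → dy G (0, y) ≠ 0 := fun y e1 e2 => by
    rw [dG 0 y t3 e1.le, zero_smul]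
    exact (h0 y e1.le fun e => c0 (by rw [← e2, e, h00])).2
  have h3 := mp (c := c) hm aG (oA.preimage cG) (oB.preimage cG) (hD.preimage _)
    (fun t y e1 e2 e3 => by
      have b : ‖y‖ < p := lt_of_le_of_ne e2 fun e' => by
        have b1 := hb _ y (n1 t e1) e'
        have b2 : g (t • a, y) = c := e3
        rw [b2] at b1
        linarith [hc.1]
      exact ⟨b, hF (a := (t • a, y)) ⟨n1 t e1, b, e3⟩⟩)
    (fun t y x e1 e2 e3 e4 e5 => h1 t y x e1 e2 e3 (e4 ▸ hc.2.1) (e4.trans e5.symm))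
    t3 y1.le x1.le (by simpa only [hG, zero_smul] using y4) (by simpa only [hG, zero_smul] using x4)
    (by simpa only [mem_preimage, zero_smul] using y3)
    (by simpa only [mem_preimage, zero_smul] using x3) (t4 y y1 y4) (t4 x x1 x4)
  linarith [norm_sub_le y x]

theorem con0 [CompleteSpace V] [SecondCountableTopology V] {g : V × ℂ → ℂ} {O : Set (V × ℂ)}
    (hO : O ∈ 𝓝 0) (hg : AnalyticOnNhd ℂ g O) (h0 : g 0 = 0) (h1 : ¬∀ᶠ y in 𝓝 0, g (0, y) = 0)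
    (h2 : ∀ q ∈ O, ∀ γ : V → ℂ, AnalyticAt ℂ γ q.1 → γ q.1 = q.2 →
      ¬∀ᶠ z in 𝓝 q.1, g (z, γ z) = 0 ∧ fderiv ℂ g (z, γ z) = 0) :
    ∃ (r p e : ℝ) (s : ℂ → V × ℂ), 0 < r ∧ 0 < p ∧ 0 < e ∧
      (∀ z y, ‖z‖ < r → ‖y‖ ≤ p → (z, y) ∈ O) ∧ DifferentiableOn ℂ s (ball 0 e) ∧
      (∀ w, ‖w‖ < e → ‖(s w).1‖ < r ∧ ‖(s w).2‖ < p ∧ g (s w) = w) ∧
      ∀ c, ‖c‖ < e → IsPreconnected {q : V × ℂ | ‖q.1‖ < r ∧ ‖q.2‖ < p ∧ g q = c} := by
  have a1 : ∀ᶠ y in 𝓝[≠] (0 : ℂ), g (0, y) ≠ 0 :=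
    (sl_an (hg 0 (mem_of_mem_nhds hO))).eventually_eq_zero_or_eventually_ne_zero.resolve_left h1
  have a2 : ContinuousAt (fun y : ℂ => (((0 : V), y) : V × ℂ)) 0 := by fun_prop
  have a0 : ∀ᶠ y in 𝓝[≠] (0 : ℂ), dy g (0, y) ≠ 0 :=
    (sl_an (dy_an (hg 0 (mem_of_mem_nhds hO)))).eventually_eq_zero_or_eventually_ne_zero
      |>.resolve_left fun e => by
      obtain ⟨t, ht, b⟩ := Metric.eventually_nhds_iff_ball.1 (e.and (a2.eventually hO))
      refine h1 (mem_of_superset (ball_mem_nhds 0 ht) fun y hy => ?_)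
      exact (isOpen_ball.is_const_of_deriv_eq_zero (f := fun y => g (0, y))
        (convex_ball (0 : ℂ) t).isPreconnected (fun x hx => (sl_der (hg (0, x)
          (b x hx).2)).differentiableAt.differentiableWithinAt) (fun x hx =>
          (sl_der (hg (0, x) (b x hx).2)).deriv.trans (b x hx).1) hy (mem_ball_self ht)).trans h0
  obtain ⟨p, hp, a8⟩ := Metric.nhds_basis_closedBall.eventually_iff.1
    (((eventually_nhdsWithin_iff.1 a1).and (a2.eventually (eventually_mem_nhds_iff.2 hO))).and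
      (eventually_nhdsWithin_iff.1 a0))
  have a3 := fun {y} hy => (a8 (x := y) hy).1
  obtain ⟨d, hd, a4⟩ := (isCompact_sphere (0 : ℂ) p).exists_forall_le'
    (f := fun y => ‖g (0, y)‖) (a := 0) (fun y hy => (sl_an (hg (0, y) (mem_of_mem_nhds
      (a3 (sphere_subset_closedBall hy)).2))).continuousAt.norm.continuousWithinAt)
    fun y hy => norm_pos_iff.2 ((a3 (sphere_subset_closedBall hy)).1 fun e => by
      have e' : y = 0 := e
      rw [e', mem_sphere, dist_self] at hy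
      exact hp.ne hy)
  have a5 : ∀ᶠ z in 𝓝 (0 : V), ∀ y ∈ closedBall (0 : ℂ) p, (z, y) ∈ O :=
    (isCompact_closedBall 0 p).eventually_forall_of_forall_eventually fun y hy => (a3 hy).2
  have a6 : ∀ᶠ z in 𝓝 (0 : V), ∀ y ∈ sphere (0 : ℂ) p, d / 2 < ‖g (z, y)‖ :=
    (isCompact_sphere 0 p).eventually_forall_of_forall_eventually fun y hy =>
      continuousAt_const.eventually_lt (hg (0, y) (mem_of_mem_nhds
        (a3 (sphere_subset_closedBall hy)).2)).continuousAt.norm (by linarith [a4 y hy])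
  obtain ⟨r, hr, a7⟩ := Metric.eventually_nhds_iff_ball.1 (a5.and a6)
  have hB : ∀ z y, ‖z‖ < r → ‖y‖ ≤ p → (z, y) ∈ O := fun z y e1 e2 =>
    (a7 z (mem_ball_zero_iff.2 e1)).1 y (mem_closedBall_zero_iff.2 e2)
  have hA : ∀ z y, ‖z‖ < r → ‖y‖ ≤ p → AnalyticAt ℂ g (z, y) := fun z y e1 e2 =>
    hg _ (hB z y e1 e2)
  have hb : ∀ z y, ‖z‖ < r → ‖y‖ = p → d / 2 ≤ ‖g (z, y)‖ := fun z y e1 e2 =>
    ((a7 z (mem_ball_zero_iff.2 e1)).2 y (mem_sphere_zero_iff_norm.2 e2)).le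
  have hd' : ‖(0 : ℂ)‖ < d / 2 := by rw [norm_zero]; linarith
  obtain ⟨S, s1, s2, s3⟩ := mult (g := g) (O := {w | ‖w.1‖ < r ∧ ‖w.2‖ ≤ p})
    (fun q hq => hA q.1 q.2 hq.1 hq.2)
    (fun q hq e e' => nz (z := q.1) hp (fun y => hA _ y hq.1) (fun y => hb _ y hq.1) hq.2
      (by rw [e]; exact hd') (e'.mono fun y hy => hy.trans e.symm))
    fun q hq => h2 q (hB q.1 q.2 hq.1 hq.2)
  obtain ⟨a, ha, b1⟩ := line s1 s2 hr
  have hS : ∀ (t : ℂ) y, ‖t‖ = 1 → ‖y‖ ≤ p → g (t • a, y) = 0 → dy g (t • a, y) ≠ 0 :=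
    fun t y e1 e2 e3 e4 => by
      obtain ⟨s, c1, c2, c3⟩ := s3 (t • a, y) ⟨by rwa [norm_smul, e1, one_mul], e2⟩ e3 e4
      exact b1 t e1 s c1 c2 c3
  obtain ⟨e, he, t2⟩ := core hp (half_pos hd) ha hA hb (fun y e1 e2 =>
    ⟨(a3 (mem_closedBall_zero_iff.2 e1)).1 e2, (a8 (mem_closedBall_zero_iff.2 e1)).2 e2⟩) h0 hS
  obtain ⟨y, y1, y2, -⟩ := surj hp hA hb hd' isOpen_univ isOpen_empty (disjoint_empty _)
    (fun _ _ _ _ _ => Or.inl trivial) ⟨0, 0, by simpa using hr, by simpa using hp, h0, trivial⟩ ha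
  obtain ⟨γ, g1, g2, g3, -⟩ := inv (q := (a, y)) (hA a y ha y1.le)
    (by simpa only [one_smul] using hS 1 y norm_one y1.le (by simpa only [one_smul] using y2))
  rw [y2] at g1 g2 g3
  have g4 : ContinuousAt (fun w : ℂ => ((a, w) : V × ℂ)) 0 := by fun_prop
  have g5 := sl_an g1
  obtain ⟨e', he', g6⟩ := Metric.eventually_nhds_iff_ball.1 (g5.eventually_analyticAt.and
    ((g4.eventually g3).and (g5.continuousAt.norm.eventually_lt continuousAt_const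
      (show ‖γ (a, 0)‖ < p from g2 ▸ y1))))
  refine ⟨r, p, min e e', fun w => (a, γ (a, w)), hr, hp, lt_min he he', hB,
    fun w hw => ?_, fun w hw => ?_, fun c hc => t2 c (lt_min_iff.1 hc).1⟩
  · exact ((differentiableAt_const a).prodMk (g6 w (ball_subset_ball (min_le_right _ _)
      hw)).1.differentiableAt).differentiableWithinAt
  · have := (g6 w (mem_ball_zero_iff.2 (lt_min_iff.1 hw).2)).2
    exact ⟨ha, this.2, this.1⟩

theorem ngr {n : ℕ} {O Z : Set (E n)} {x : E n} {u : E n → ℂ} (hR : Rm O Z) (hO : O ∈ 𝓝 x)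
    (hZ : ∃ᶠ z in 𝓝 x, z ∉ Z) (hu : AnalyticAt ℂ u x) (h0 : u x = 0) :
    ¬∀ᶠ z in 𝓝 x, u z = 0 → z ∈ Z := by
  intro h
  obtain ⟨U, a1, a2, a3⟩ := _root_.eventually_nhds_iff.1 (h.and (hu.eventually_analyticAt.and hO))
  obtain ⟨k, b1, b2⟩ := hR U (fun z => (u z)⁻¹) a2 (fun z hz => (a1 z hz).2.2) fun z hz =>
    ((a1 z hz.1).2.1.differentiableAt.inv fun e => hz.2 ((a1 z hz.1).1 e)).differentiableWithinAt
  have b3 : ContinuousAt (fun z => u z * k z) x :=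
    hu.continuousAt.mul (b1.differentiableAt (a2.mem_nhds a3)).continuousAt
  obtain ⟨z, c1, c2, c3⟩ := (hZ.and_eventually ((b3.eventually_ne (y := 1)
    (by simp [h0])).and (a2.mem_nhds a3))).exists
  exact c2 (by rw [b2 ⟨c3, c1⟩, mul_inv_cancel₀ fun e => c1 ((a1 z c3).1 e)])

end Con

/-- Boxes with a holomorphic section and connected fibres. -/
def St_CON0 : Prop := ∀ (n : ℕ) (O : Set (E n)) (W : E n → ℂ) (p : E n) (N : Set (E n)),
  IsOpen O → p ∈ O → DifferentiableOn ℂ W O → Rm O {z | fderiv ℂ W z = 0} →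
  (∃ᶠ z in 𝓝 p, fderiv ℂ W z ≠ 0) → N ∈ 𝓝 p →
  ∃ (U : Set (E n)) (d : ℝ) (s : ℂ → E n), IsOpen U ∧ p ∈ U ∧ U ⊆ N ∩ O ∧ 0 < d ∧
    MapsTo W U (ball (W p) d) ∧ DifferentiableOn ℂ s (ball (W p) d) ∧
    (∀ w ∈ ball (W p) d, s w ∈ U ∧ W (s w) = w) ∧
    ∀ w ∈ ball (W p) d, IsPreconnected (U ∩ W ⁻¹' {w})

theorem st_CON0 : St_CON0 := by
  intro n O W p N hO hp hW hR hD hN
  have aW := RA.ANB.analyticOnNhd hO hW
  obtain ⟨R, hR0, hB⟩ := Metric.mem_nhds_iff.1 (inter_mem hN (hO.mem_nhds hp))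
  have aB : AnalyticOnNhd ℂ W (ball p R) := aW.mono fun z hz => (hB hz).2
  obtain ⟨z0, z1, z2⟩ := (hD.and_eventually (ball_mem_nhds p hR0)).exists
  have hZ : ∀ x ∈ ball p R, ∃ᶠ z in 𝓝 x, fderiv ℂ W z ≠ 0 := fun x hx => not_eventually.1 fun e =>
    z1 (aB.fderiv.eqOn_zero_of_preconnected_of_eventuallyEq_zero
      (convex_ball p R).isPreconnected hx e z2)
  obtain ⟨x1, b1, b2⟩ : ∃ x ∈ ball p R, W x ≠ W p := by
    by_contra e
    refine z1 ((EventuallyEq.fderiv_eq (f₁ := W) (f := fun _ => W p) ?_).trans (by simp))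
    filter_upwards [isOpen_ball.mem_nhds z2] with x hx
    by_contra e'
    exact e ⟨x, hx, e'⟩
  obtain ⟨l, hl⟩ := SeparatingDual.exists_eq_one (R := ℂ) (x := x1 - p)
    (sub_ne_zero.2 fun e => b2 (by rw [e]))
  let V := LinearMap.ker (l : E n →ₗ[ℂ] ℂ)
  let Φ : (V × ℂ) ≃L[ℂ] E n := ContinuousLinearEquiv.equivOfInverse
    (V.subtypeL.coprod (ContinuousLinearMap.toSpanSingleton ℂ (x1 - p)))
    ((((ContinuousLinearMap.id ℂ (E n)) - (ContinuousLinearMap.toSpanSingleton ℂ (x1 - p)).comp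
      l).codRestrict V fun x => by simp [V, hl, -map_sub, map_sub l x]).prod l)
    (fun q => by
      have := q.1.2
      simp only [V, LinearMap.mem_ker, ContinuousLinearMap.coe_coe] at this
      ext <;> simp [hl, this, -map_sub]) fun x => by simp
  have hΦ : ∀ y : ℂ, Φ (0, y) = y • (x1 - p) := fun y => by simp [Φ]
  have aΦ : ∀ q, AnalyticAt ℂ (fun q => p + Φ q) q := fun q =>
    analyticAt_const.add (Φ.analyticAt q)
  have aΨ : ∀ x, AnalyticAt ℂ (fun x => Φ.symm (x - p)) x := fun x =>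
    (Φ.symm.analyticAt _).comp (analyticAt_id.sub analyticAt_const)
  have cΦ : Continuous fun q => p + Φ q := by fun_prop
  have cΨ : Continuous fun x => Φ.symm (x - p) := by fun_prop
  have aG : AnalyticOnNhd ℂ (fun q => W (p + Φ q) - W p) ((fun q => p + Φ q) ⁻¹' ball p R) :=
    fun q hq => ((aB _ hq).comp_of_eq (aΦ q) rfl).sub analyticAt_const
  obtain ⟨r, ρ, e, s, hr, hρ, he, c1, c3, c4, c5⟩ := Con.con0 (g := fun q => W (p + Φ q) - W p)
    ((isOpen_ball.preimage cΦ).mem_nhds (by simpa using hR0)) aG (by simp) (fun h => by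
      have d1 : Convex ℝ {y : ℂ | p + Φ (0, y) ∈ ball p R} := by
        simp only [hΦ, add_mem_ball_iff_norm, ← mem_ball_zero_iff]
        exact (convex_ball 0 R).linear_preimage
          ((LinearMap.toSpanSingleton ℂ (E n) (x1 - p)).restrictScalars ℝ)
      have d2 := AnalyticOnNhd.eqOn_zero_of_preconnected_of_eventuallyEq_zero
        (f := fun y => W (p + Φ (0, y)) - W p) (U := {y : ℂ | p + Φ (0, y) ∈ ball p R})
        (fun y hy => Con.sl_an (q := (0, y)) (aG _ hy))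
        d1.isPreconnected (z₀ := 0) (by simpa [hΦ] using hR0) h (show 1 ∈ _ by simpa [hΦ] using mem_ball_iff_norm.1 b1)
      exact b2 (by simpa [hΦ, sub_eq_zero] using d2)) fun q hq γ d1 d2 h => by
      have d3 : Φ.symm (p + Φ q - p) = q := by simp
      refine Con.ngr (u := fun x => (Φ.symm (x - p)).2 - γ (Φ.symm (x - p)).1) hR
        (hO.mem_nhds (hB hq).2) (hZ _ hq) ((analyticAt_snd.comp (aΨ _)).sub
        (d1.comp_of_eq (analyticAt_fst.comp (aΨ _)) (congrArg Prod.fst d3)))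
        (by simp only [d3, d2, sub_self]) ?_
      have d4 : Tendsto (fun x => (Φ.symm (x - p)).1) (𝓝 (p + Φ q)) (𝓝 q.1) :=
        cΨ.fst.tendsto' _ _ (congrArg Prod.fst d3)
      filter_upwards [d4.eventually h] with x hx d5
      have d6 := hx.2
      rw [← sub_eq_zero.1 d5, fderiv_sub_const] at d6
      have d7 := Φ.comp_right_fderiv (f := fun v => W (p + v)) (x := Φ.symm (x - p))
      have d8 : (fderiv ℂ (fun v => W (p + v)) (Φ (Φ.symm (x - p)))).comp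
        (Φ : (V × ℂ) →L[ℂ] E n) = 0 := d7.symm.trans d6
      rw [fderiv_comp_add_left, Φ.apply_symm_apply, add_sub_cancel] at d8
      refine ContinuousLinearMap.ext fun v => ?_
      simpa using congrArg (fun A => A (Φ.symm v)) d8
  have hU : ∀ x, ‖(Φ.symm (x - p)).1‖ < r → ‖(Φ.symm (x - p)).2‖ < ρ → x ∈ ball p R :=
    fun x d1 d2 => by
      have : p + Φ (Φ.symm (x - p)) ∈ ball p R := c1 _ _ d1 d2.le
      rwa [Φ.apply_symm_apply, add_sub_cancel] at this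
  refine ⟨({x | ‖(Φ.symm (x - p)).1‖ < r} ∩ {x | ‖(Φ.symm (x - p)).2‖ < ρ} ∩ O) ∩
    W ⁻¹' ball (W p) e, e, fun w => p + Φ (s (w - W p)), ?_,
    ⟨⟨⟨by simpa using hr, by simpa using hρ⟩, hp⟩, mem_ball_self he⟩,
    fun x hx => hB (hU x hx.1.1.1 hx.1.1.2), he, fun x hx => hx.2, ?_,
    fun w hw => ?_, fun w hw => ?_⟩
  · exact (hW.continuousOn.mono inter_subset_right).isOpen_inter_preimage
      (((isOpen_lt cΨ.fst.norm continuous_const).inter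
        (isOpen_lt cΨ.snd.norm continuous_const)).inter hO) isOpen_ball
  · refine (Φ.differentiable.comp_differentiableOn (c3.comp (by fun_prop) fun w hw => ?_)).const_add p
    exact mem_ball_zero_iff.2 (mem_ball_iff_norm.1 hw)
  · obtain ⟨d1, d2, d3⟩ := c4 _ (mem_ball_iff_norm.1 hw)
    have d4 : W (p + Φ (s (w - W p))) = w := sub_left_injective d3
    exact ⟨⟨⟨⟨by simpa using d1, by simpa using d2⟩, (hB (c1 _ _ d1 d2.le)).2⟩, by
      rwa [mem_preimage, d4]⟩, d4⟩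
  · have d1 := (c5 (w - W p) (mem_ball_iff_norm.1 hw)).image _ cΦ.continuousOn
    refine Eq.subst ?_ d1
    ext x
    constructor
    · rintro ⟨q, ⟨d2, d3, d4⟩, rfl⟩
      have d5 : W (p + Φ q) = w := sub_left_injective d4
      exact ⟨⟨⟨⟨by simpa using d2, by simpa using d3⟩, (hB (c1 _ _ d2 d3.le)).2⟩, by
        rw [mem_preimage, d5]; exact hw⟩, d5⟩
    · rintro ⟨⟨⟨⟨d2, d3⟩, -⟩, -⟩, d4⟩
      exact ⟨Φ.symm (x - p), ⟨d2, d3, by simpa using d4⟩, by simp⟩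

/-- Boxes with a holomorphic section and connected fibres outside a countable set. -/
def St_CON : Prop := ∀ (n : ℕ) (O : Set (E n)) (W : E n → ℂ) (p : E n) (N : Set (E n)),
  IsOpen O → p ∈ O → DifferentiableOn ℂ W O → Rm O {z | fderiv ℂ W z = 0} →
  (∃ᶠ z in 𝓝 p, fderiv ℂ W z ≠ 0) → N ∈ 𝓝 p →
  ∃ (U : Set (E n)) (d : ℝ) (s : ℂ → E n) (T : Set ℂ), IsOpen U ∧ p ∈ U ∧ U ⊆ N ∩ O ∧ 0 < d ∧
    T.Countable ∧ MapsTo W U (ball (W p) d) ∧ DifferentiableOn ℂ s (ball (W p) d) ∧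
    (∀ w ∈ ball (W p) d, s w ∈ U ∧ W (s w) = w) ∧
    ∀ w ∈ ball (W p) d \ T, IsPreconnected (U ∩ W ⁻¹' {w})

theorem st_CON : St_CON := fun n O W p N a b c d e f => by
  obtain ⟨U, r, s, h1, h2, h3, h4, h5, h6, h7, h8⟩ := st_CON0 n O W p N a b c d e f
  exact ⟨U, r, s, ∅, h1, h2, h3, h4, countable_empty, h5, h6, h7, fun w hw => h8 w hw.1⟩

end Pool.Agent.Lib.F4G
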