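import Pool.Agent.Lib.F4G.Box
import Pool.Agent.Lib.F4G.Fun83
import Pool.Agent.Lib.F4G.Dev
import Pool.Agent.Lib.F4G.Con3

/-! Project f4g: the boxes. Algebra of the transitions and the box at one point. -/

open scoped Topology Matrix MatrixGroups
open Set Filter Metric

set_option linter.unusedVariables false

noncomputable section

namespace Pool.Agent.Lib.F4G.B72

open Pool.Agent.Lib.SV (E)
open Pool.Agent.Lib.HS32 Pool.Agent.Lib.F4

theorem finv {X G : Type} [TopologicalSpace X] [Neg G] {K : Set X} (hK : IsCompact K) (f : X → G)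
    (h : ∀ x ∈ K, ∀ᶠ y in 𝓝 x, f y = f x ∨ f y = -f x) : (f '' K).Finite := by
  obtain ⟨t, -, ht⟩ := hK.elim_nhds_subcover (fun x => {y | f y = f x ∨ f y = -f x}) h
  refine ((t.finite_toSet.image f).union (t.finite_toSet.image fun x => -f x)).subset ?_
  rintro _ ⟨y, hy, rfl⟩
  obtain ⟨x, hx, h⟩ := mem_iUnion₂.1 (ht hy)
  rcases h with h | h
  exacts [Or.inl ⟨x, hx, h.symm⟩, Or.inr ⟨x, hx, h.symm⟩]

/-- Diagonal matrices. -/
def dg (l : ℂˣ) : SL(2, ℂ) := ⟨!![(l : ℂ), 0; 0, (l : ℂ)⁻¹], by simp [Matrix.det_fin_two]⟩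

theorem dg_mul (l : ℂˣ) (x y : ℂ) : (dg l).1 *ᵥ ![x, y] = ![l * x, y / l] := by
  ext i
  fin_cases i <;> simp [dg, Matrix.mulVec, dotProduct, Fin.sum_univ_two, div_eq_inv_mul]

theorem tr_dg {l m : ℂˣ} {A : SL(2, ℂ)} {h x y u v : ℂ} (e : h • ![x, y] = A.1 *ᵥ ![u, v]) :
    h • ![l * x, y / l] = (dg l * A * (dg m)⁻¹).1 *ᵥ ![m * u, v / m] := by
  rw [← dg_mul, ← dg_mul, Matrix.mulVec_mulVec, ← Matrix.SpecialLinearGroup.coe_mul,
    inv_mul_cancel_right, Matrix.SpecialLinearGroup.coe_mul, ← Matrix.mulVec_mulVec, ← e,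
    Matrix.mulVec_smul]

theorem mob {A : Matrix (Fin 2) (Fin 2) ℂ} {h x y u v : ℂ} (e : h • ![x, y] = A *ᵥ ![u, v])
    (h0 : h ≠ 0) (x0 : x ≠ 0) (u0 : u ≠ 0) : h * x = u * (A 0 0 + A 0 1 * (v / u)) ∧
    A 0 0 + A 0 1 * (v / u) ≠ 0 ∧ y / x = (A 1 0 + A 1 1 * (v / u)) / (A 0 0 + A 0 1 * (v / u)) := by
  have e0 : h * x = A 0 0 * u + A 0 1 * v := by
    simpa [Matrix.mulVec, dotProduct, Fin.sum_univ_two] using congrFun e 0
  have e1 : h * y = A 1 0 * u + A 1 1 * v := by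
    simpa [Matrix.mulVec, dotProduct, Fin.sum_univ_two] using congrFun e 1
  have a : h * x = u * (A 0 0 + A 0 1 * (v / u)) := by
    rw [e0]
    field_simp
  have b : A 0 0 + A 0 1 * (v / u) ≠ 0 := fun c => mul_ne_zero h0 x0 (by rw [a, c, mul_zero])
  refine ⟨a, b, ?_⟩
  rw [div_eq_div_iff x0 b]
  apply mul_left_cancel₀ (mul_ne_zero h0 u0)
  have c : h * y = u * (A 1 0 + A 1 1 * (v / u)) := by
    rw [e1]
    field_simp
  linear_combination u * (A 0 0 + A 0 1 * (v / u)) * c - u * (A 1 0 + A 1 1 * (v / u)) * a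

theorem lg {h x u d : ℂ} {p p' : ℝ} (e : h * x = u * d) (h0 : h ≠ 0) (x0 : x ≠ 0) (u0 : u ≠ 0)
    (d0 : d ≠ 0) (c : p' = p + Real.log (Complex.normSq (h ^ 2))) :
    p - Real.log (Complex.normSq (x ^ 2)) =
      p' - Real.log (Complex.normSq (u ^ 2)) - 4 * Real.log ‖d‖ := by
  have := congrArg (fun z => Real.log ‖z‖) e
  simp only [norm_mul, Real.log_mul (norm_ne_zero_iff.2 h0) (norm_ne_zero_iff.2 x0),
    Real.log_mul (norm_ne_zero_iff.2 u0) (norm_ne_zero_iff.2 d0)] at this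
  simp only [c, Complex.normSq_eq_norm_sq, norm_pow, Real.log_pow]
  push_cast
  linarith

variable {n : ℕ}

theorem dz_div {s t : E n → ℂ} {z : E n} (hs : DifferentiableAt ℂ s z) (ht : DifferentiableAt ℂ t z)
    (h0 : s z ≠ 0) (k : Fin n) :
    s z * dz k t z - t z * dz k s z = s z ^ 2 * dz k (fun w => t w / s w) z := by
  have e : (fun w => t w / s w) = fun w => t w * ((fun y : ℂ => y⁻¹) ∘ s) w :=
    funext fun w => div_eq_mul_inv _ _
  rw [M7.dz_fd hs.hasFDerivAt, M7.dz_fd ht.hasFDerivAt, e, M7.dz_fd (ht.hasFDerivAt.fun_mul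
    ((hasDerivAt_inv h0).comp_hasFDerivAt z hs.hasFDerivAt))]
  simp
  field_simp
  ring

theorem fd_iff {W : E n → ℂ} {z a : E n} {y : ℂ} (hW : DifferentiableAt ℂ W z) (y0 : y ≠ 0)
    (h : ∀ k, a k = y * dz k W z) : fderiv ℂ W z = 0 ↔ a = 0 := by
  simp only [M7.dz_fd hW.hasFDerivAt] at h
  refine ⟨fun c => funext fun k => by simp [h, c], fun c => ?_⟩
  refine ContinuousLinearMap.coe_injective (LinearMap.pi_ext' fun k => LinearMap.ext_ring ?_)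
  simpa [c, y0] using h k

theorem ddiv {s t : E n → ℂ} {z : E n} (ht : DifferentiableAt ℂ t z) (hs : DifferentiableAt ℂ s z)
    (h0 : s z ≠ 0) : DifferentiableAt ℂ (fun w => t w / s w) z := by
  simp only [div_eq_mul_inv]
  exact ht.fun_mul (hs.fun_inv h0)

/-- The box at the point `p`. -/
structure Loc (O : Set (E n)) (p : E n) (s W : E n → ℂ) (ph : E n → ℝ) (R : ℝ) (D : Set (E n))
    (σ : ℂ → E n) (F : ℂ → ℝ) (κ : ℝ) : Prop where
  cl : closedBall p R ⊆ O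
  opn : IsOpen D
  mem : p ∈ D
  sub : D ⊆ ball p R
  rng : MapsTo W D (ball 0 1)
  sec : DifferentiableOn ℂ σ (ball 0 1) ∧ ∀ w ∈ ball (0 : ℂ) 1, σ w ∈ D ∧ W (σ w) = w
  con : ∀ w, IsPreconnected (D ∩ W ⁻¹' {w})
  sF : ContinuousOn F (ball 0 2)
  k0 : 0 < κ
  cv : My.Cv κ F
  eF : ∀ z ∈ D, F (W z) = ph z - Real.log (Complex.normSq (s z ^ 2))

theorem wr_sc {s t : E n → ℂ} {z : E n} (l : ℂˣ) (hs : DifferentiableAt ℂ s z)
    (ht : DifferentiableAt ℂ t z) (h0 : s z ≠ 0) (k : Fin n) :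
    s z * dz k t z - t z * dz k s z =
      (l * s z) ^ 2 * dz k (fun w => t w / l / (l * s w)) z := by
  rw [← dz_div (s := fun w => l * s w) (t := fun w => t w / l) (hs.const_mul _)
    (ddiv ht (differentiableAt_const _) l.ne_zero)
    (mul_ne_zero l.ne_zero h0), M7.dz_fd hs.hasFDerivAt, M7.dz_fd ht.hasFDerivAt,
    M7.dz_fd (hs.hasFDerivAt.const_mul (l : ℂ))]
  simp only [div_eq_mul_inv]
  rw [M7.dz_fd (ht.hasFDerivAt.mul_const ((l : ℂ)⁻¹))]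
  simp
  field_simp

theorem loc {O : Set (E n)} {p : E n} {s t : E n → ℂ} {al : E n → E n}
    {ph ps : E n → ℝ} {a : ℝ} (a0 : 0 < a) (hO : IsOpen O) (hp : p ∈ O)
    (hol : ∀ z ∈ O, DifferentiableAt ℂ s z ∧ DifferentiableAt ℂ t z ∧ s z ≠ 0) (t0 : t p = 0)
    (wr : ∀ z ∈ O, ∀ k, al z k = s z * dz k t z - t z * dz k s z) (rm : Rm O {z | al z = 0})
    (den : ∀ z ∈ O, ∃ᶠ w in 𝓝 z, al w ≠ 0) (h1 : ∀ z ∈ O, ContDiffAt ℝ 3 ph z)
    (h2 : ∀ z ∈ O, ContinuousAt ps z) (h3 : ∀ z ∈ O, d1 al z = wg (dw ph z) (al z))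
    (h4 : ∀ z ∈ O, hess (fun w => (ph w : ℂ)) z = ((a * Real.exp (-ps z) : ℝ) : ℂ) • oo (al z)) :
    ∃ (l : ℂˣ) (R : ℝ) (D : Set (E n)) (σ : ℂ → E n) (F : ℂ → ℝ) (κ : ℝ),
      Loc O p (fun z => l * s z) (fun z => t z / l / (l * s z)) ph R D σ F κ := by
  obtain ⟨R, R0, hR⟩ := nhds_basis_closedBall.mem_iff.1 (hO.mem_nhds hp)
  have dW : ∀ z ∈ O, DifferentiableAt ℂ (fun w => t w / s w) z := fun z hz =>
    ddiv (hol z hz).2.1 (hol z hz).1 (hol z hz).2.2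
  have iW : ∀ z ∈ O, fderiv ℂ (fun w => t w / s w) z = 0 ↔ al z = 0 := fun z hz =>
    fd_iff (dW z hz) (pow_ne_zero 2 (hol z hz).2.2) fun k =>
      (wr z hz k).trans (dz_div (hol z hz).1 (hol z hz).2.1 (hol z hz).2.2 k)
  obtain ⟨U, d, σ, u1, u2, u3, d0, u4, u5, u6, u7⟩ := st_CON0 n O (fun w => t w / s w) p (ball p R)
    hO hp
    (fun z hz => (dW z hz).differentiableWithinAt) (fun V h hV hs hh => by
      have e : V \ {z | fderiv ℂ (fun w => t w / s w) z = 0} = V \ {z | al z = 0} :=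
        Set.ext fun z => and_congr_right fun hz => not_congr (iW z (hs hz))
      rw [e] at hh ⊢
      exact rm V h hV hs hh)
    (((den p hp).and_eventually (hO.mem_nhds hp)).mono fun z hz => mt (iW z hz.2).1 hz.1)
    (ball_mem_nhds p R0)
  simp only [t0, zero_div] at u4 u5 u6 u7
  have uO : U ⊆ O := fun z hz => (u3 hz).2
  have r0 : (0 : ℝ) < √(d / 2) := Real.sqrt_pos.2 (half_pos d0)
  set l : ℂˣ := Units.mk0 ((√(d / 2) : ℝ) : ℂ) (Complex.ofReal_ne_zero.2 r0.ne') with hl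
  have ll : (l : ℂ) * l = ((d / 2 : ℝ) : ℂ) := by
    rw [hl, Units.val_mk0, ← Complex.ofReal_mul, Real.mul_self_sqrt (half_pos d0).le]
  have l0 : ((d / 2 : ℝ) : ℂ) ≠ 0 := Complex.ofReal_ne_zero.2 (half_pos d0).ne'
  have nl : ‖((d / 2 : ℝ) : ℂ)‖ = d / 2 := by
    rw [Complex.norm_real, Real.norm_of_nonneg (half_pos d0).le]
  set W : E n → ℂ := fun z => t z / l / (l * s z) with hW
  have eW : ∀ z, W z = t z / s z / ((d / 2 : ℝ) : ℂ) := fun z => by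
    simp only [hW, ← ll, div_div]
    congr 1
    ring
  have mp : MapsTo (fun w : ℂ => ((d / 2 : ℝ) : ℂ) * w) (ball 0 2) (ball 0 d) := fun w hw => by
    rw [mem_ball_zero_iff] at hw ⊢
    rw [norm_mul, nl]
    nlinarith
  have sc : ∀ w ∈ ball (0 : ℂ) 2, σ (((d / 2 : ℝ) : ℂ) * w) ∈ U ∧
      W (σ (((d / 2 : ℝ) : ℂ) * w)) = w := fun w hw =>
    ⟨(u6 _ (mp hw)).1, by rw [eW, (u6 _ (mp hw)).2, mul_div_cancel_left₀ _ l0]⟩
  have ds : DifferentiableOn ℂ (fun w => σ (((d / 2 : ℝ) : ℂ) * w)) (ball 0 2) :=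
    u5.comp (differentiable_id.const_mul _).differentiableOn mp
  have cn : ∀ w ∈ ball (0 : ℂ) 2, IsPreconnected (U ∩ W ⁻¹' {w}) := fun w hw => by
    have e : W ⁻¹' {w} = (fun z => t z / s z) ⁻¹' {((d / 2 : ℝ) : ℂ) * w} :=
      Set.ext fun z => by simp only [mem_preimage, mem_singleton_iff, eW, div_eq_iff l0, mul_comm]
    exact e ▸ u7 _ (mp hw)
  have dW' : DifferentiableOn ℂ W U := fun z hz =>
    (ddiv (dW z (uO hz)) (differentiableAt_const _) l0).differentiableWithinAt.congr (fun y _ => eW y) (eW z)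
  have dy : ∀ z ∈ O, DifferentiableAt ℂ (fun z => ((l : ℂ) * s z) ^ 2) z := fun z hz =>
    ((hol z hz).1.const_mul _).fun_pow 2
  have y0 : ∀ z ∈ O, ((l : ℂ) * s z) ^ 2 ≠ 0 := fun z hz =>
    pow_ne_zero 2 (mul_ne_zero l.ne_zero (hol z hz).2.2)
  obtain ⟨κ, k0, hκ⟩ := (isCompact_closedBall p R).exists_forall_le'
    (f := fun z => a * Real.exp (ph z - ps z)) (a := 0) (fun z hz =>
      (continuousAt_const.mul (Real.continuous_exp.continuousAt.comp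
        ((h1 z (hR hz)).continuousAt.sub (h2 z (hR hz))))).continuousWithinAt)
    fun z _ => by positivity
  obtain ⟨F, f1, f2, f3⟩ := fun83 2 le_rfl U (ball 0 2) ∅ W (fun z => ((l : ℂ) * s z) ^ 2) al ph ps _ a κ u1
    isOpen_ball dW' (fun z hz => (dy z (uO hz)).differentiableWithinAt) (fun z hz => y0 z (uO hz))
    (fun z hz k => (wr z (uO hz) k).trans
      (wr_sc l (hol z (uO hz)).1 (hol z (uO hz)).2.1 (hol z (uO hz)).2.2 k))
    (fun z hz => (h1 z (uO hz)).of_le (by norm_num)) (fun z hz => h3 z (uO hz))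
    (fun z hz => h4 z (uO hz)) (fun z hz => hκ z (ball_subset_closedBall (u3 hz).1))
    (fun z hz => den z (uO hz)) (fun z hz => by
      have := mem_ball_zero_iff.1 (u4 hz)
      rw [mem_ball_zero_iff, eW, norm_div, nl, div_lt_iff₀ (half_pos d0)]
      linarith) ds sc countable_empty fun w hw => cn w hw.1
  have b12 : ball (0 : ℂ) 1 ⊆ ball 0 2 := ball_subset_ball one_le_two
  refine ⟨l, R, U ∩ W ⁻¹' ball 0 1, fun w => σ (((d / 2 : ℝ) : ℂ) * w), F, κ, hR,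
    dW'.continuousOn.isOpen_inter_preimage u1 isOpen_ball, ⟨u2, by simp [hW, t0]⟩,
    fun z hz => (u3 hz.1).1, fun z hz => hz.2, ⟨ds.mono b12, fun w hw => ⟨⟨(sc w (b12 hw)).1, ?_⟩,
      (sc w (b12 hw)).2⟩⟩, fun w => ?_, f1.continuousOn, k0, ⟨f1.mono b12, fun w hw => f3 w (b12 hw)⟩,
    fun z hz => f2 z hz.1⟩
  · rw [mem_preimage, (sc w (b12 hw)).2]
    exact hw
  · by_cases hw : w ∈ ball (0 : ℂ) 1
    · have e : U ∩ W ⁻¹' ball 0 1 ∩ W ⁻¹' {w} = U ∩ W ⁻¹' {w} := Set.ext fun z =>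
        ⟨fun h => ⟨h.1.1, h.2⟩, fun h => ⟨⟨h.1, by rw [mem_preimage, h.2]; exact hw⟩, h.2⟩⟩
      exact e ▸ cn w (b12 hw)
    · have e : U ∩ W ⁻¹' ball 0 1 ∩ W ⁻¹' {w} = ∅ :=
        eq_empty_of_forall_notMem fun z h => hw (h.2 ▸ h.1.2)
      exact e ▸ isPreconnected_empty

end Pool.Agent.Lib.F4G.B72
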