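import Mathlib

/-! Final count of F4G step (6): exponential growth of words against a bounded fibre sum. -/

namespace Pool.Agent.Lib.F4G

open Finset

theorem cnt31_num (D : ℝ) (N : ℕ) (hN : Real.exp D < N) (C : ℝ) :
    ∃ k : ℕ, C < (N : ℝ) ^ k * Real.exp (-C - k * D) := by
  have hD : 0 < Real.exp D := Real.exp_pos D
  have h1 : 1 < (N : ℝ) / Real.exp D := by rw [lt_div_iff₀ hD]; simpa using hN
  obtain ⟨k, hk⟩ := pow_unbounded_of_one_lt (C * Real.exp C) h1
  refine ⟨k, ?_⟩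
  have e : (N : ℝ) ^ k * Real.exp (-C - k * D) = ((N : ℝ) / Real.exp D) ^ k / Real.exp C := by
    rw [div_pow, ← Real.exp_nat_mul, sub_eq_add_neg, Real.exp_add, Real.exp_neg, Real.exp_neg]
    field_simp
  rw [e, lt_div_iff₀ (Real.exp_pos C)]
  exact hk

theorem cnt31_right {Q : Type} [Group Q] {N : ℕ} (τ : Fin N → Q) (m : Q → ℝ) (D : ℝ)
    (h : ∀ t i, m t - D ≤ m (t * τ i)) (l : List (Fin N)) (t : Q) :
    m t - l.length * D ≤ m (t * (l.map τ).prod) := by
  induction l generalizing t with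
  | nil => simp
  | cons a l ih =>
    have h1 := ih (t * τ a)
    have h2 := h t a
    simp only [List.length_cons, List.map_cons, List.prod_cons, ← mul_assoc]
    push_cast
    linarith

theorem cnt31_left {Q : Type} [Group Q] {N : ℕ} (τ : Fin N → Q) (m : Q → ℝ) (D : ℝ)
    (h : ∀ t i, m t - D ≤ m (τ i * t)) (l : List (Fin N)) :
    m 1 - l.length * D ≤ m ((l.map τ).prod) := by
  induction l with
  | nil => simp
  | cons a l ih =>
    have h2 := h (l.map τ).prod a
    simp only [List.length_cons, List.map_cons, List.prod_cons]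
    push_cast
    linarith

theorem cnt31_core {Q : Type} [Fintype Q] {N k : ℕ} (P : (Fin k → Fin N) → Q) (m : Q → ℝ)
    (B C : ℝ) (hinj : ∀ w w', P w = P w' → w = w') (hsum : ∑ t, Real.exp (m t) ≤ C)
    (hlow : ∀ w, B ≤ m (P w)) : (N : ℝ) ^ k * Real.exp B ≤ C := by
  classical
  have h1 : ∑ w : Fin k → Fin N, Real.exp B ≤ ∑ w : Fin k → Fin N, Real.exp (m (P w)) :=
    Finset.sum_le_sum fun w _ => Real.exp_le_exp.2 (hlow w)
  have h2 : ∑ w : Fin k → Fin N, Real.exp (m (P w)) =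
      ∑ t ∈ Finset.univ.image P, Real.exp (m t) := by
    rw [Finset.sum_image fun w _ w' _ h => hinj w w' h]
  have h3 : ∑ t ∈ Finset.univ.image P, Real.exp (m t) ≤ ∑ t, Real.exp (m t) :=
    Finset.sum_le_sum_of_subset_of_nonneg (Finset.subset_univ _)
      fun t _ _ => (Real.exp_pos _).le
  have h4 : ∑ _w : Fin k → Fin N, Real.exp B = (N : ℝ) ^ k * Real.exp B := by
    simp
  linarith

theorem cnt31 (D : ℝ) (N : ℕ) (hN : Real.exp D < N) (C : ℝ) :
    ∃ k : ℕ, ∀ (Q : Type) [Group Q] [Fintype Q] (τ : Fin N → Q) (m : Q → ℝ),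
      (∀ w w' : Fin k → Fin N,
        (List.ofFn (τ ∘ w)).prod = (List.ofFn (τ ∘ w')).prod → w = w') →
      ∑ t, Real.exp (m t) ≤ C → -C ≤ m 1 → (∀ t i, m t - D ≤ m (t * τ i)) → False := by
  obtain ⟨k, hk⟩ := cnt31_num D N hN C
  refine ⟨k, fun Q _ _ τ m hinj hsum hbase hstep => ?_⟩
  have := cnt31_core (fun w : Fin k → Fin N => (List.ofFn (τ ∘ w)).prod) m (-C - k * D) C hinj hsum
    (fun w => by
      have h := cnt31_right τ m D hstep (List.ofFn w) 1
      rw [List.map_ofFn, List.length_ofFn, one_mul] at h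
      linarith)
  linarith

theorem cntL31 (D : ℝ) (N : ℕ) (hN : Real.exp D < N) (C : ℝ) :
    ∃ k : ℕ, ∀ (Q : Type) [Group Q] [Fintype Q] (τ : Fin N → Q) (m : Q → ℝ),
      (∀ w w' : Fin k → Fin N,
        (List.ofFn (τ ∘ w)).prod = (List.ofFn (τ ∘ w')).prod → w = w') →
      ∑ t, Real.exp (m t) ≤ C → -C ≤ m 1 → (∀ t i, m t - D ≤ m (τ i * t)) → False := by
  obtain ⟨k, hk⟩ := cnt31_num D N hN C
  refine ⟨k, fun Q _ _ τ m hinj hsum hbase hstep => ?_⟩
  have := cnt31_core (fun w : Fin k → Fin N => (List.ofFn (τ ∘ w)).prod) m (-C - k * D) C hinj hsum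
    (fun w => by
      have h := cnt31_left τ m D hstep (List.ofFn w)
      rw [List.map_ofFn, List.length_ofFn] at h
      linarith)
  linarith

/-- The count on top of the free-word statement for a subgroup `H` of a group `G`:
generators `T i ∈ H`, a homomorphism `ρ : H →* Q` separating the words of length `k`. -/
theorem cntG31 (D : ℝ) (N : ℕ) (hN : Real.exp D < N) (C : ℝ) :
    ∃ k : ℕ, ∀ (G : Type) [Group G] (H : Subgroup G) (T : Fin N → G) (hT : ∀ i, T i ∈ H)
      (Q : Type) [Group Q] [Fintype Q] (ρ : H →* Q) (m : Q → ℝ),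
      (∀ w w' : Fin k → Fin N, ∀ x x' : H, x.1 = (List.ofFn (T ∘ w)).prod →
        x'.1 = (List.ofFn (T ∘ w')).prod → ρ x = ρ x' → w = w') →
      ∑ t, Real.exp (m t) ≤ C → -C ≤ m 1 →
      ((∀ t i, m t - D ≤ m (t * ρ ⟨T i, hT i⟩)) ∨ (∀ t i, m t - D ≤ m (ρ ⟨T i, hT i⟩ * t))) →
      False := by
  obtain ⟨k, hk⟩ := cnt31_num D N hN C
  refine ⟨k, fun G _ H T hT Q _ _ ρ m hinj hsum hbase hstep => ?_⟩
  set σ : Fin N → H := fun i => ⟨T i, hT i⟩ with hσ
  have hval : ∀ w : Fin k → Fin N,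
      ((List.ofFn (σ ∘ w)).prod : H).1 = (List.ofFn (T ∘ w)).prod := by
    intro w
    have := map_list_prod H.subtype (List.ofFn (σ ∘ w))
    rw [List.map_ofFn] at this
    exact this
  have hrho : ∀ w : Fin k → Fin N,
      ρ (List.ofFn (σ ∘ w)).prod = (List.ofFn ((fun i => ρ (σ i)) ∘ w)).prod := by
    intro w
    rw [map_list_prod, List.map_ofFn]
    rfl
  have := cnt31_core (fun w : Fin k → Fin N => (List.ofFn ((fun i => ρ (σ i)) ∘ w)).prod) m
    (-C - k * D) C
    (fun w w' h => hinj w w' _ _ (hval w) (hval w') (by rw [hrho, hrho]; exact h)) hsum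
    (fun w => by
      rcases hstep with hs | hs
      · have h := cnt31_right (fun i => ρ (σ i)) m D hs (List.ofFn w) 1
        rw [List.map_ofFn, List.length_ofFn, one_mul] at h
        linarith
      · have h := cnt31_left (fun i => ρ (σ i)) m D hs (List.ofFn w)
        rw [List.map_ofFn, List.length_ofFn] at h
        linarith)
  linarith

end Pool.Agent.Lib.F4G
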