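import Mathlib

/-! Project f4g: roots of a holomorphic function in its last variable. -/

open scoped Topology ContDiff
open Set Filter Metric

set_option linter.unusedVariables false

noncomputable section

namespace Pool.Agent.Lib.F4G.Con

variable {V : Type} [NormedAddCommGroup V] [NormedSpace ℂ V]

/-- The derivative in the last variable. -/
def dy (g : V × ℂ → ℂ) (q : V × ℂ) : ℂ := fderiv ℂ g q (0, 1)

theorem dy_an {g : V × ℂ → ℂ} {q : V × ℂ} (h : AnalyticAt ℂ g q) : AnalyticAt ℂ (dy g) q :=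
  ((ContinuousLinearMap.apply ℂ ℂ ((0, 1) : V × ℂ)).analyticAt _).comp h.fderiv

theorem sl_an {g : V × ℂ → ℂ} {q : V × ℂ} (h : AnalyticAt ℂ g q) :
    AnalyticAt ℂ (fun y => g (q.1, y)) q.2 :=
  h.comp_of_eq (analyticAt_const.prod analyticAt_id) rfl

theorem sl_der {g : V × ℂ → ℂ} {q : V × ℂ} (h : AnalyticAt ℂ g q) :
    HasDerivAt (fun y => g (q.1, y)) (dy g q) q.2 := by
  have h1 : HasDerivAt (fun y : ℂ => ((q.1, y) : V × ℂ)) (0, 1) q.2 :=
    (hasDerivAt_const _ _).prodMk (hasDerivAt_id _)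
  exact h.differentiableAt.hasFDerivAt.comp_hasDerivAt q.2 h1

theorem fd_last (g : V × ℂ → ℂ) (q : V × ℂ) (y : ℂ) : fderiv ℂ g q (0, y) = y * dy g q := by
  have : ((0, y) : V × ℂ) = y • (0, 1) := by simp
  rw [this, map_smul]; rfl

theorem imp [CompleteSpace V] {f : V × ℂ → ℂ} {q : V × ℂ} (hf : AnalyticAt ℂ f q)
    (h1 : dy f q ≠ 0) : ∃ γ : V → ℂ, AnalyticAt ℂ γ q.1 ∧ γ q.1 = q.2 ∧
      (∀ᶠ z in 𝓝 q.1, f (z, γ z) = f q) ∧ ∀ᶠ w in 𝓝 q, f w = f q → γ w.1 = w.2 := by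
  have hc : ContDiffAt ℂ ω f q := hf.contDiffAt
  have hi : (fderiv ℂ f q ∘L ContinuousLinearMap.inr ℂ V ℂ).IsInvertible := by
    refine ⟨ContinuousLinearEquiv.unitsEquivAut ℂ (Units.mk0 _ h1), ?_⟩
    ext
    simp [dy]
  have h0 : (ω : ℕ∞ω) ≠ 0 := by simp
  exact ⟨hc.implicitFunction h0 hi, (hc.contDiffAt_implicitFunction h0 hi).analyticAt,
    hc.implicitFunction_apply_self h0 hi, hc.eventually_apply_implicitFunction h0 hi,
    (hc.eventually_apply_eq_iff_implicitFunction h0 hi).mono fun w hw => hw.1⟩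

/-- Roots persist. -/
theorem hur {g : V × ℂ → ℂ} {q : V × ℂ} {N : Set (V × ℂ)} (hg : AnalyticAt ℂ g q)
    (h1 : ¬∀ᶠ y in 𝓝 q.2, g (q.1, y) = g q) (hN : N ∈ 𝓝 q) :
    ∀ᶠ z in 𝓝 q.1, ∃ y, (z, y) ∈ N ∧ g (z, y) = g q := by
  have h2 : ∀ᶠ y in 𝓝[≠] q.2, g (q.1, y) - g q ≠ 0 :=
    (((sl_an hg).sub analyticAt_const).eventually_eq_zero_or_eventually_ne_zero).resolve_left
      fun h => h1 (h.mono fun y hy => sub_eq_zero.1 hy)
  have h3 : ∀ᶠ w in 𝓝 q, AnalyticAt ℂ g w ∧ w ∈ N := hg.eventually_analyticAt.and hN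
  obtain ⟨z0, y0⟩ := q
  rw [nhds_prod_eq, eventually_prod_iff] at h3
  obtain ⟨pa, ha, pb, hb, h3⟩ := h3
  obtain ⟨r, hr, hB⟩ := Metric.nhds_basis_closedBall.eventually_iff.1
    ((eventually_nhdsWithin_iff.1 h2).and hb)
  have ha0 : pa z0 := ha.self_of_nhds
  obtain ⟨m, hm, h4⟩ := (isCompact_sphere y0 r).exists_forall_le'
    (f := fun y => ‖g (z0, y) - g (z0, y0)‖) (a := 0)
    (fun y hy => (((sl_an (h3 ha0 (hB (sphere_subset_closedBall hy)).2).1).continuousAt.sub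
      continuousAt_const).norm).continuousWithinAt)
    fun y hy => norm_pos_iff.2 ((hB (sphere_subset_closedBall hy)).1 fun e => by
      have e' : y = y0 := e
      rw [e', mem_sphere, dist_self] at hy
      exact hr.ne hy)
  have h5 : ∀ᶠ z in 𝓝 z0, ∀ y ∈ closedBall y0 r, ‖g (z, y) - g (z0, y)‖ < m / 3 := by
    refine (isCompact_closedBall y0 r).eventually_forall_of_forall_eventually fun y hy => ?_
    have c1 : ContinuousAt g (z0, y) := (h3 ha0 (hB hy).2).1.continuousAt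
    have c2 : ContinuousAt (fun w : V × ℂ => g (z0, w.2)) (z0, y) :=
      c1.comp_of_eq (by fun_prop) rfl
    have c3 := (c1.sub c2).norm
    exact c3.eventually_lt continuousAt_const (by simp; linarith)
  filter_upwards [ha, h5] with z hz h5
  by_contra hn
  have h6 : ∀ y ∈ closedBall y0 r, g (z, y) - g (z0, y0) ≠ 0 := fun y hy e =>
    hn ⟨y, (h3 hz (hB hy).2).2, sub_eq_zero.1 e⟩
  have h7 : DiffContOnCl ℂ (fun y => (g (z, y) - g (z0, y0))⁻¹) (ball y0 r) := by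
    refine DifferentiableOn.diffContOnCl ?_
    rw [closure_ball y0 hr.ne']
    exact fun y hy => (((sl_an (h3 hz (hB hy).2).1).differentiableAt.sub_const _).inv
      (h6 y hy)).differentiableWithinAt
  have h8 := Complex.norm_le_of_forall_mem_frontier_norm_le isBounded_ball h7
    (C := (2 * m / 3)⁻¹) (fun y hy => by
      rw [frontier_ball y0 hr.ne'] at hy
      have c1 := h5 y (sphere_subset_closedBall hy)
      have c2 := h4 y hy
      have c3 := norm_sub_le (g (z, y) - g (z0, y0)) (g (z, y) - g (z0, y))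
      rw [sub_sub_sub_cancel_left] at c3
      rw [norm_inv]
      exact inv_anti₀ (by linarith) (by linarith)) (subset_closure (mem_ball_self hr))
  have h9 := h5 y0 (mem_closedBall_self hr.le)
  have h10 := norm_pos_iff.2 (h6 y0 (mem_closedBall_self hr.le))
  rw [norm_inv, inv_le_inv₀ h10 (by linarith)] at h8
  linarith

/-- The zeros of an analytic function of one variable are countable. -/
theorem cz {f : ℂ → ℂ} {L : Set ℂ} (hL : IsPreconnected L) (hf : AnalyticOnNhd ℂ f L) {t : ℂ}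
    (ht : t ∈ L) (h : f t ≠ 0) : {s | s ∈ L ∧ f s = 0}.Countable := by
  have h1 : ∀ s ∈ {s | s ∈ L ∧ f s = 0}, ({s} : Set ℂ) ∈ 𝓝[{s | s ∈ L ∧ f s = 0}] s := by
    intro s hs
    have h2 : ∀ᶠ y in 𝓝[≠] s, f y ≠ 0 :=
      (hf s hs.1).eventually_eq_zero_or_eventually_ne_zero.resolve_left fun e =>
        h (hf.eqOn_zero_of_preconnected_of_eventuallyEq_zero hL hs.1 e ht)
    filter_upwards [mem_nhdsWithin_of_mem_nhds (eventually_nhdsWithin_iff.1 h2),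
      self_mem_nhdsWithin] with y a b
    by_contra c
    exact a c b.2
  obtain ⟨s, -, h2, h3⟩ := TopologicalSpace.countable_cover_nhdsWithin h1
  refine h2.mono (h3.trans ?_)
  simp

theorem gr {g : V × ℂ → ℂ} {γ : V → ℂ} {z : V} (hγ : AnalyticAt ℂ γ z)
    (hg : AnalyticAt ℂ g (z, γ z)) (h0 : ∀ᶠ w in 𝓝 z, g (w, γ w) = 0) (h1 : dy g (z, γ z) = 0) :
    fderiv ℂ g (z, γ z) = 0 := by
  have h2 : HasFDerivAt (fun w => g (w, γ w)) ((fderiv ℂ g (z, γ z)).comp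
      ((ContinuousLinearMap.id ℂ V).prod (fderiv ℂ γ z))) z :=
    hg.differentiableAt.hasFDerivAt.comp z ((hasFDerivAt_id z).prodMk hγ.differentiableAt.hasFDerivAt)
  have h3 := h2.unique ((hasFDerivAt_const (0 : ℂ) z).congr_of_eventuallyEq h0)
  refine ContinuousLinearMap.ext fun v => ?_
  have h4 : fderiv ℂ g (z, γ z) (v.1, fderiv ℂ γ z v.1) = 0 := congrArg (fun A => A v.1) h3
  have h5 : v = (v.1, fderiv ℂ γ z v.1) + (0, v.2 - fderiv ℂ γ z v.1) := by simp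
  rw [h5, map_add, h4, fd_last, h1]
  simp

theorem it_an {g : V × ℂ → ℂ} {q : V × ℂ} (h : AnalyticAt ℂ g q) (k : ℕ) :
    AnalyticAt ℂ (dy^[k] g) q := by
  induction k with
  | zero => exact h
  | succ k ih => rw [Function.iterate_succ_apply']; exact dy_an ih

theorem it_sl {g : V × ℂ → ℂ} (k : ℕ) : ∀ {q : V × ℂ}, AnalyticAt ℂ g q →
    iteratedDeriv k (fun y => g (q.1, y)) q.2 = dy^[k] g q := by
  induction k with
  | zero => intro q h; rfl
  | succ k ih =>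
    intro q h
    rw [iteratedDeriv_succ, Function.iterate_succ_apply', ← (sl_der (it_an h k)).deriv]
    refine EventuallyEq.deriv_eq ?_
    have h1 : ContinuousAt (fun y : ℂ => ((q.1, y) : V × ℂ)) q.2 := by fun_prop
    filter_upwards [h1.eventually h.eventually_analyticAt] with y hy
    exact ih hy

theorem ord {g : V × ℂ → ℂ} {q : V × ℂ} (h : AnalyticAt ℂ g q) (h0 : g q = 0)
    (h1 : ¬∀ᶠ y in 𝓝 q.2, g (q.1, y) = 0) : ∃ k, dy^[k] g q = 0 ∧ dy (dy^[k] g) q ≠ 0 := by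
  by_contra hn
  have h2 : ∀ k, dy^[k] g q = 0 := by
    intro k
    induction k with
    | zero => exact h0
    | succ k ih =>
      rw [Function.iterate_succ_apply']
      by_contra e
      exact hn ⟨k, ih, e⟩
  refine h1 (analyticOrderAt_eq_top.1 ?_)
  refine ENat.eq_top_iff_forall_ge.2 fun k => ?_
  exact (natCast_le_analyticOrderAt_iff_iteratedDeriv_eq_zero (sl_an h)).2 fun i _ => by
    rw [it_sl i h, h2]

/-- Multiple roots lie over countably many proper analytic sets. -/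
theorem mult [CompleteSpace V] [SecondCountableTopology V] {g : V × ℂ → ℂ} {O : Set (V × ℂ)}
    (hg : AnalyticOnNhd ℂ g O) (h1 : ∀ q ∈ O, g q = 0 → ¬∀ᶠ y in 𝓝 q.2, g (q.1, y) = 0)
    (h2 : ∀ q ∈ O, ∀ γ : V → ℂ, AnalyticAt ℂ γ q.1 → γ q.1 = q.2 →
      ¬∀ᶠ z in 𝓝 q.1, g (z, γ z) = 0 ∧ fderiv ℂ g (z, γ z) = 0) :
    ∃ S : Set (V × ℝ × (V → ℂ)), S.Countable ∧
      (∀ s ∈ S, AnalyticOnNhd ℂ s.2.2 (ball s.1 s.2.1) ∧ ∃ z ∈ ball s.1 s.2.1, s.2.2 z ≠ 0) ∧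
      ∀ q ∈ O, g q = 0 → dy g q = 0 → ∃ s ∈ S, q.1 ∈ ball s.1 s.2.1 ∧ s.2.2 q.1 = 0 := by
  have key : ∀ k : ℕ, ∀ q : V × ℂ, ∃ (N : Set (V × ℂ)) (s : V × ℝ × (V → ℂ)),
      (q ∈ O ∧ dy^[k] g q = 0 ∧ dy (dy^[k] g) q ≠ 0) → N ∈ 𝓝 q ∧
      (AnalyticOnNhd ℂ s.2.2 (ball s.1 s.2.1) ∧ ∃ z ∈ ball s.1 s.2.1, s.2.2 z ≠ 0) ∧
      ∀ w ∈ N, dy^[k] g w = 0 → g w = 0 → dy g w = 0 → w.1 ∈ ball s.1 s.2.1 ∧ s.2.2 w.1 = 0 := by
    intro k q
    by_cases hq : q ∈ O ∧ dy^[k] g q = 0 ∧ dy (dy^[k] g) q ≠ 0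
    swap
    · exact ⟨∅, (0, 0, 0), fun h => absurd h hq⟩
    obtain ⟨γ, a1, a2, -, a4⟩ := imp (it_an (hg q hq.1) k) hq.2.2
    have a5 : AnalyticAt ℂ (fun z => ((z, γ z) : V × ℂ)) q.1 := analyticAt_id.prod a1
    have a6 : ((q.1, γ q.1) : V × ℂ) = q := by rw [a2]
    have a7 : ∃ h : V × ℂ → ℂ, AnalyticAt ℂ h q ∧ (∀ w, g w = 0 → dy g w = 0 → h w = 0) ∧
        ¬∀ᶠ z in 𝓝 q.1, h (z, γ z) = 0 := by
      by_cases b : ∀ᶠ z in 𝓝 q.1, g (z, γ z) = 0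
      · refine ⟨dy g, dy_an (hg q hq.1), fun w _ e => e, fun b' => h2 q hq.1 γ a1 a2 ?_⟩
        have b2 : ∀ᶠ z in 𝓝 q.1, AnalyticAt ℂ g (z, γ z) :=
          a5.continuousAt.eventually (a6.symm ▸ (hg q hq.1).eventually_analyticAt)
        filter_upwards [b, b.eventually_nhds, b', b2, a1.eventually_analyticAt] with z c1 c2 c3 c4 c5
        exact ⟨c1, gr c5 c4 c2 c3⟩
      · exact ⟨g, hg q hq.1, fun w e _ => e, b⟩
    obtain ⟨h, b1, b2, b3⟩ := a7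
    have b4 : AnalyticAt ℂ (fun z => h (z, γ z)) q.1 := b1.comp_of_eq a5 a6
    obtain ⟨r, hr, b5⟩ := Metric.eventually_nhds_iff_ball.1 b4.eventually_analyticAt
    refine ⟨{w | (dy^[k] g w = dy^[k] g q → γ w.1 = w.2) ∧ w.1 ∈ ball q.1 r},
      (q.1, r, fun z => h (z, γ z)), fun _ => ⟨?_, ⟨b5, ?_⟩, fun w hw c1 c2 c3 => ⟨hw.2, ?_⟩⟩⟩
    · exact a4.and (continuousAt_fst.eventually (ball_mem_nhds _ hr))
    · by_contra c
      exact b3 (mem_of_superset (ball_mem_nhds _ hr) fun z hz => by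
        by_contra e
        exact c ⟨z, hz, e⟩)
    · have c4 := hw.1 (c1.trans hq.2.1.symm)
      show h (w.1, γ w.1) = 0
      rw [c4]
      exact b2 w c2 c3
  choose N s hs using key
  have h3 : ∀ k : ℕ, ∃ T ⊆ {q | q ∈ O ∧ dy^[k] g q = 0 ∧ dy (dy^[k] g) q ≠ 0}, T.Countable ∧
      {q | q ∈ O ∧ dy^[k] g q = 0 ∧ dy (dy^[k] g) q ≠ 0} ⊆ ⋃ q ∈ T, N k q := fun k =>
    TopologicalSpace.countable_cover_nhdsWithin fun q hq =>
      mem_nhdsWithin_of_mem_nhds (hs k q hq).1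
  choose T t1 t2 t3 using h3
  refine ⟨⋃ k, s k '' T k, countable_iUnion fun k => (t2 k).image _, fun u hu => ?_,
    fun q hq c1 c2 => ?_⟩
  · obtain ⟨k, q, hq, rfl⟩ := by simpa only [mem_iUnion, mem_image] using hu
    exact (hs k q (t1 k hq)).2.1
  · obtain ⟨k, c3, c4⟩ := ord (hg q hq) c1 (h1 q hq c1)
    obtain ⟨w, hw, c5⟩ := mem_iUnion₂.1 (t3 k ⟨hq, c3, c4⟩)
    exact ⟨s k w, mem_iUnion.2 ⟨k, w, hw, rfl⟩, (hs k w (t1 k hw)).2.2 q c5 c3 c1 c2⟩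

/-- A circle in a line that avoids countably many proper analytic sets. -/
theorem line [CompleteSpace V] {S : Set (V × ℝ × (V → ℂ))} (hS : S.Countable)
    (h : ∀ s ∈ S, AnalyticOnNhd ℂ s.2.2 (ball s.1 s.2.1) ∧ ∃ z ∈ ball s.1 s.2.1, s.2.2 z ≠ 0)
    {r : ℝ} (hr : 0 < r) : ∃ a : V, ‖a‖ < r ∧ ∀ t : ℂ, ‖t‖ = 1 → ∀ s ∈ S,
      t • a ∈ ball s.1 s.2.1 → s.2.2 (t • a) ≠ 0 := by
  obtain ⟨Q, q1, q2⟩ := TopologicalSpace.exists_countable_dense ℂ
  have h1 : ∀ u ∈ S ×ˢ (Q \ {0}), Dense (interior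
      {a : V | u.2 • a ∈ ball u.1.1 u.1.2.1 → u.1.2.2 (u.2 • a) ≠ 0}) := by
    rintro ⟨s, t⟩ ⟨hs, -, ht⟩
    have ht' : t ≠ 0 := ht
    refine dense_iff_inter_open.2 fun U hU ⟨a, ha⟩ => ?_
    by_cases b : ∃ a ∈ U, t • a ∈ ball s.1 s.2.1
    · obtain ⟨a, a1, a2⟩ := b
      obtain ⟨c1, z, c2, c3⟩ := h s hs
      have c4 : ¬∀ᶠ w in 𝓝 (t • a), s.2.2 w = 0 := fun e =>
        c3 (c1.eqOn_zero_of_preconnected_of_eventuallyEq_zero (convex_ball _ _).isPreconnected a2 e c2)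
      have c5 : ∀ᶠ w in 𝓝 (t • a), t⁻¹ • w ∈ U ∧ w ∈ ball s.1 s.2.1 := by
        refine Eventually.and ?_ (isOpen_ball.mem_nhds a2)
        have c6 : ContinuousAt (fun w : V => t⁻¹ • w) (t • a) := by fun_prop
        exact c6.eventually (hU.mem_nhds (by simp only [inv_smul_smul₀ ht']; exact a1))
      obtain ⟨w, d1, d2, d3⟩ := ((not_eventually.1 c4).and_eventually c5).exists
      refine ⟨t⁻¹ • w, d2, mem_interior_iff_mem_nhds.2 ?_⟩
      have d4 : ContinuousAt (fun a : V => s.2.2 (t • a)) (t⁻¹ • w) :=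
        (c1 w d3).continuousAt.comp_of_eq (by fun_prop) (smul_inv_smul₀ ht' w)
      filter_upwards [d4.eventually_ne (y := 0) (by simp only [smul_inv_smul₀ ht']; exact d1)] with a e _ using e
    · exact ⟨a, ha, mem_interior.2 ⟨U, fun x hx e => absurd ⟨x, hx, e⟩ b, hU, ha⟩⟩
  obtain ⟨a, a1, a2⟩ := (dense_biInter_of_isOpen (fun _ _ => isOpen_interior)
    (hS.prod (q1.mono sdiff_subset)) h1).inter_open_nonempty (ball 0 r) isOpen_ball
      ⟨0, mem_ball_self hr⟩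
  have h2 : ∀ s ∈ S, {t : ℂ | t ∈ {t : ℂ | t • a ∈ ball s.1 s.2.1} ∧ s.2.2 (t • a) = 0}.Countable := by
    intro s hs
    rcases eq_empty_or_nonempty {t : ℂ | t • a ∈ ball s.1 s.2.1} with e | e
    · rw [e]; simp
    have b1 : IsOpen {t : ℂ | t • a ∈ ball s.1 s.2.1} := isOpen_ball.preimage (by fun_prop)
    obtain ⟨t, b2, b3⟩ := (q2.sdiff_singleton 0).inter_open_nonempty _ b1 e
    have b4 : Convex ℝ {t : ℂ | t • a ∈ ball s.1 s.2.1} :=
      (convex_ball s.1 s.2.1).linear_preimage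
        ((LinearMap.toSpanSingleton ℂ V a).restrictScalars ℝ)
    exact cz b4.isPreconnected (fun x hx => ((h s hs).1 _ hx).comp_of_eq (by fun_prop) rfl) b2
      (interior_subset (mem_iInter₂.1 a2 (s, t) ⟨hs, b3⟩) b2)
  have h3 := ((hS.biUnion h2).image fun t : ℂ => ‖t‖)
  obtain ⟨x, x1, x2⟩ := h3.dense_compl ℝ |>.inter_open_nonempty (Ioo 0 1) isOpen_Ioo
    ⟨1 / 2, by norm_num⟩
  refine ⟨(x : ℂ) • a, ?_, fun t ht s hs e1 e2 => x2 ⟨t * x, mem_iUnion₂.2 ⟨s, hs, ?_⟩, ?_⟩⟩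
  · rw [norm_smul, Complex.norm_real, Real.norm_of_nonneg x1.1.le]
    have := mem_ball_zero_iff.1 a1
    nlinarith [norm_nonneg a, x1.1, x1.2]
  · rw [smul_smul] at e1 e2
    exact ⟨e1, e2⟩
  · simp [ht, abs_of_pos x1.1]

end Pool.Agent.Lib.F4G.Con
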