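import Pool.Agent.Lib.F4G.Con1

/-! Project f4g: separation of roots by the maximum principle. -/

open scoped Topology ContDiff
open Set Filter Metric

set_option linter.unusedVariables false

noncomputable section

namespace Pool.Agent.Lib.F4G.Con

variable {V : Type} [NormedAddCommGroup V] [NormedSpace ℂ V]

theorem nz {g : V × ℂ → ℂ} {z : V} {y : ℂ} {p d : ℝ} (hp : 0 < p)
    (hA : ∀ y, ‖y‖ ≤ p → AnalyticAt ℂ g (z, y)) (hb : ∀ y, ‖y‖ = p → d ≤ ‖g (z, y)‖)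
    (hy : ‖y‖ ≤ p) (h : ‖g (z, y)‖ < d) : ¬∀ᶠ x in 𝓝 y, g (z, x) = g (z, y) := by
  intro e
  have h1 : AnalyticOnNhd ℂ (fun x => g (z, x)) (closedBall 0 p) := fun x hx =>
    sl_an (hA x (mem_closedBall_zero_iff.1 hx))
  have h2 : ‖(p : ℂ)‖ = p := by simp [hp.le]
  have h3 := h1.eqOn_of_preconnected_of_eventuallyEq analyticOnNhd_const
    (convex_closedBall (0 : ℂ) p).isPreconnected (mem_closedBall_zero_iff.2 hy) e
    (mem_closedBall_zero_iff.2 h2.le)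
  have h4 := hb p h2
  have h5 : g (z, p) = g (z, y) := h3
  rw [h5] at h4
  linarith

theorem surj {g : V × ℂ → ℂ} {r p d : ℝ} {c : ℂ} {A B : Set (V × ℂ)} (hp : 0 < p)
    (hA : ∀ z y, ‖z‖ < r → ‖y‖ ≤ p → AnalyticAt ℂ g (z, y))
    (hb : ∀ z y, ‖z‖ < r → ‖y‖ = p → d ≤ ‖g (z, y)‖) (hc : ‖c‖ < d) (oA : IsOpen A)
    (oB : IsOpen B) (hd : Disjoint A B)
    (hF : ∀ z y, ‖z‖ < r → ‖y‖ < p → g (z, y) = c → (z, y) ∈ A ∪ B)
    (hn : ∃ z y, ‖z‖ < r ∧ ‖y‖ < p ∧ g (z, y) = c ∧ (z, y) ∈ A) {z : V} (hz : ‖z‖ < r) :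
    ∃ y, ‖y‖ < p ∧ g (z, y) = c ∧ (z, y) ∈ A := by
  have h1 : IsOpen {z : V | ‖z‖ < r ∧ ∃ y, ‖y‖ < p ∧ g (z, y) = c ∧ (z, y) ∈ A} := by
    refine isOpen_iff_mem_nhds.2 fun z ⟨a, y, b1, b2, b3⟩ => ?_
    have c1 : {q : V × ℂ | ‖q.2‖ < p} ∩ A ∈ 𝓝 ((z, y) : V × ℂ) :=
      inter_mem ((isOpen_lt (by fun_prop) continuous_const).mem_nhds b1) (oA.mem_nhds b3)
    have c2 := hur (q := (z, y)) (hA z y a b1.le)
      (nz hp (fun y => hA z y a) (fun y => hb z y a) b1.le (b2 ▸ hc)) c1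
    filter_upwards [c2, (isOpen_lt continuous_norm continuous_const).mem_nhds a] with w ⟨x, e1, e2⟩ e3
    exact ⟨e3, x, e1.1, e2.trans b2, e1.2⟩
  obtain ⟨z0, y0, a1, a2⟩ := hn
  refine ((convex_ball (0 : V) r).isPreconnected.subset_of_closure_inter_subset h1
    ⟨z0, mem_ball_zero_iff.2 a1, a1, y0, a2⟩ ?_ (mem_ball_zero_iff.2 hz)).2
  rintro w ⟨b1, b2⟩
  have b3 := mem_ball_zero_iff.1 b2
  refine ⟨b3, ?_⟩
  by_contra hn
  have b4 : ∀ᶠ x in 𝓝 w, ∀ y ∈ closedBall (0 : ℂ) p, ¬(g (x, y) = c ∧ (x, y) ∈ A) := by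
    refine (isCompact_closedBall 0 p).eventually_forall_of_forall_eventually fun y hy => ?_
    have hy' := mem_closedBall_zero_iff.1 hy
    by_cases e : g (w, y) = c
    · have c1 : ‖y‖ < p := lt_of_le_of_ne hy' fun e' => by
        have := hb w y b3 e'
        rw [e] at this
        linarith
      have c2 : (w, y) ∈ B := (hF w y b3 c1 e).resolve_left fun e' => hn ⟨y, c1, e, e'⟩
      filter_upwards [oB.mem_nhds c2] with q c3 c4 using hd.notMem_of_mem_left c4.2 c3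
    · filter_upwards [(hA w y b3 hy').continuousAt.eventually_ne e] with q c3 c4 using c3 c4.1
  obtain ⟨x, ⟨-, y, c1, c2⟩, c3⟩ := ((mem_closure_iff_frequently.1 b1).and_eventually b4).exists
  exact c3 y (mem_closedBall_zero_iff.2 c1.le) c2

/-- The local inverse in the last variable. -/
theorem inv [CompleteSpace V] {g : V × ℂ → ℂ} {q : V × ℂ} (hg : AnalyticAt ℂ g q)
    (h1 : dy g q ≠ 0) : ∃ γ : V × ℂ → ℂ, AnalyticAt ℂ γ (q.1, g q) ∧ γ (q.1, g q) = q.2 ∧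
      (∀ᶠ z in 𝓝 (q.1, g q), g (z.1, γ z) = z.2) ∧ ∀ᶠ w in 𝓝 q, γ (w.1, g w) = w.2 := by
  have a1 : AnalyticAt ℂ (fun w : (V × ℂ) × ℂ => g (w.1.1, w.2) - w.1.2) ((q.1, g q), q.2) :=
    (hg.comp_of_eq (g := g) (f := fun w : (V × ℂ) × ℂ => (w.1.1, w.2))
      ((analyticAt_fst.comp analyticAt_fst).prod analyticAt_snd) rfl).sub
      (analyticAt_snd.comp analyticAt_fst)
  have a2 := (sl_der a1).unique ((sl_der hg).sub_const (g q))
  obtain ⟨γ, b1, b2, b3, b4⟩ := imp a1 (a2 ▸ h1)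
  refine ⟨γ, b1, b2, b3.mono fun z hz => sub_eq_zero.1 (hz.trans (sub_self _)), ?_⟩
  have a3 : ContinuousAt (fun w : V × ℂ => (((w.1, g w), w.2) : (V × ℂ) × ℂ)) q :=
    (continuousAt_fst.prodMk hg.continuousAt).prodMk continuousAt_snd
  filter_upwards [a3.eventually b4] with w hw
  exact hw (by simp)

theorem sep {G : ℂ × ℂ → ℂ} {p : ℝ} (hA : ∀ t y, ‖t‖ = 1 → ‖y‖ ≤ p → AnalyticAt ℂ G (t, y))
    (hS : ∀ t y, ‖t‖ = 1 → ‖y‖ ≤ p → G (t, y) = 0 → dy G (t, y) ≠ 0) :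
    ∃ m > 0, ∀ t y x, ‖t‖ = 1 → ‖y‖ ≤ p → ‖x‖ ≤ p → ‖G (t, y)‖ < m → G (t, y) = G (t, x) →
      y ≠ x → m ≤ ‖y - x‖ := by
  set S := interior {w : ℂ × ℂ × ℂ | G (w.1, w.2.1) = G (w.1, w.2.2) → w.2.1 = w.2.2}
  have hK : IsCompact ((sphere (0 : ℂ) 1 ×ˢ closedBall (0 : ℂ) p ×ˢ closedBall (0 : ℂ) p) \ S) :=
    ((isCompact_sphere 0 1).prod ((isCompact_closedBall 0 p).prod
      (isCompact_closedBall 0 p))).diff isOpen_interior
  obtain ⟨m, hm, h⟩ := hK.exists_forall_le' (a := 0)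
    (f := fun w => ‖G (w.1, w.2.1)‖ + ‖w.2.1 - w.2.2‖) (fun w hw => by
      have a1 : ContinuousAt (fun w : ℂ × ℂ × ℂ => G (w.1, w.2.1)) w :=
        (hA _ _ (mem_sphere_zero_iff_norm.1 hw.1.1)
          (mem_closedBall_zero_iff.1 hw.1.2.1)).continuousAt.comp_of_eq (by fun_prop) rfl
      exact (a1.norm.add (by fun_prop)).continuousWithinAt) (by
      rintro ⟨t, y, x⟩ ⟨⟨a1, a2, a3⟩, a4⟩
      by_contra e
      have b0 : ‖G (t, y)‖ + ‖y - x‖ ≤ 0 := not_lt.1 e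
      have b1 : G (t, y) = 0 := norm_le_zero_iff.1 (by linarith [norm_nonneg (y - x)])
      have b2 : y = x := sub_eq_zero.1 (norm_le_zero_iff.1 (by linarith [norm_nonneg (G (t, y))]))
      subst b2
      have b3 := mem_sphere_zero_iff_norm.1 a1
      have b4 := mem_closedBall_zero_iff.1 a2
      obtain ⟨γ, -, -, -, c⟩ := inv (hA t y b3 b4) (hS t y b3 b4 b1)
      refine a4 (mem_interior_iff_mem_nhds.2 ?_)
      have c1 : ContinuousAt (fun w : ℂ × ℂ × ℂ => ((w.1, w.2.1) : ℂ × ℂ)) (t, y, y) := by fun_prop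
      have c2 : ContinuousAt (fun w : ℂ × ℂ × ℂ => ((w.1, w.2.2) : ℂ × ℂ)) (t, y, y) := by fun_prop
      filter_upwards [c1.eventually c, c2.eventually c] with w d1 d2 d3
      rw [← d1, ← d2, d3])
  refine ⟨m / 2, by linarith, fun t y x a1 a2 a3 a4 a5 a6 => ?_⟩
  have := h (t, y, x) ⟨⟨mem_sphere_zero_iff_norm.2 a1, mem_closedBall_zero_iff.2 a2,
    mem_closedBall_zero_iff.2 a3⟩, fun e => a6 (interior_subset e a5)⟩
  simp only at this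
  linarith

theorem mp {G : ℂ × ℂ → ℂ} {p m : ℝ} {c : ℂ} {A B : Set (ℂ × ℂ)} (hm : 0 < m)
    (hA : ∀ t y, ‖t‖ ≤ 1 → ‖y‖ ≤ p → AnalyticAt ℂ G (t, y)) (oA : IsOpen A) (oB : IsOpen B)
    (hd : Disjoint A B)
    (hF : ∀ t y, ‖t‖ ≤ 1 → ‖y‖ ≤ p → G (t, y) = c → ‖y‖ < p ∧ (t, y) ∈ A ∪ B)
    (hS : ∀ t y x, ‖t‖ = 1 → ‖y‖ ≤ p → ‖x‖ ≤ p → G (t, y) = c → G (t, x) = c → y ≠ x →
      m ≤ ‖y - x‖) {t y x : ℂ} (ht : ‖t‖ ≤ 1) (hy : ‖y‖ ≤ p) (hx : ‖x‖ ≤ p) (gy : G (t, y) = c)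
    (gx : G (t, x) = c) (yA : (t, y) ∈ A) (xB : (t, x) ∈ B) (ny : dy G (t, y) ≠ 0)
    (nx : dy G (t, x) ≠ 0) : m ≤ ‖y - x‖ := by
  set K := closedBall (0 : ℂ) 1 ×ˢ closedBall (0 : ℂ) p ×ˢ closedBall (0 : ℂ) p with hK
  have cK : IsCompact K := (isCompact_closedBall 0 1).prod ((isCompact_closedBall 0 p).prod
      (isCompact_closedBall 0 p))
  have mK : ∀ w, w ∈ K ↔ ‖w.1‖ ≤ 1 ∧ ‖w.2.1‖ ≤ p ∧ ‖w.2.2‖ ≤ p := fun w => by
    simp only [hK, mem_prod, mem_closedBall_zero_iff]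
  have k1 : ∀ f : ℂ × ℂ → ℂ, (∀ t y, ‖t‖ ≤ 1 → ‖y‖ ≤ p → AnalyticAt ℂ f (t, y)) →
      ContinuousOn (fun w : ℂ × ℂ × ℂ => f (w.1, w.2.1)) K ∧
      ContinuousOn (fun w : ℂ × ℂ × ℂ => f (w.1, w.2.2)) K := fun f hf =>
    ⟨fun w hw => ((hf _ _ ((mK w).1 hw).1 ((mK w).1 hw).2.1).continuousAt.comp_of_eq
      (f := fun w : ℂ × ℂ × ℂ => (w.1, w.2.1)) (by fun_prop) rfl).continuousWithinAt,
      fun w hw => ((hf _ _ ((mK w).1 hw).1 ((mK w).1 hw).2.2).continuousAt.comp_of_eq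
      (f := fun w : ℂ × ℂ × ℂ => (w.1, w.2.2)) (by fun_prop) rfl).continuousWithinAt⟩
  have k2 := k1 G hA
  have k3 := k1 (dy G) fun t y a b => dy_an (hA t y a b)
  set P := (K ∩ (fun w : ℂ × ℂ × ℂ => ((G (w.1, w.2.1), G (w.1, w.2.2)) : ℂ × ℂ)) ⁻¹' {(c, c)}) ∩
    ((fun w : ℂ × ℂ × ℂ => ((w.1, w.2.1) : ℂ × ℂ)) ⁻¹' Bᶜ ∩
      (fun w : ℂ × ℂ × ℂ => ((w.1, w.2.2) : ℂ × ℂ)) ⁻¹' Aᶜ) with hP
  have cP : IsCompact P := cK.of_isClosed_subset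
    (((k2.1.prodMk k2.2).preimage_isClosed_of_isClosed cK.isClosed isClosed_singleton).inter
      ((oB.isClosed_compl.preimage (by fun_prop)).inter (oA.isClosed_compl.preimage (by fun_prop))))
    fun w hw => hw.1.1
  have mP : ∀ w, w ∈ P ↔ (‖w.1‖ ≤ 1 ∧ ‖w.2.1‖ ≤ p ∧ ‖w.2.2‖ ≤ p) ∧ G (w.1, w.2.1) = c ∧
      G (w.1, w.2.2) = c ∧ (w.1, w.2.1) ∈ A ∧ (w.1, w.2.2) ∈ B := fun w => by
    simp only [hP, mem_inter_iff, mK, mem_preimage, mem_singleton_iff, Prod.mk.injEq, mem_compl_iff]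
    exact ⟨fun ⟨⟨a, b1, b2⟩, d1, d2⟩ => ⟨a, b1, b2, (hF _ _ a.1 a.2.1 b1).2.resolve_right d1,
      (hF _ _ a.1 a.2.2 b2).2.resolve_left d2⟩, fun ⟨a, b1, b2, d1, d2⟩ =>
      ⟨⟨a, b1, b2⟩, hd.notMem_of_mem_left d1, hd.symm.notMem_of_mem_left d2⟩⟩
  have nP : ∀ w ∈ P, w.2.1 ≠ w.2.2 := fun w hw e =>
    hd.notMem_of_mem_left ((mP w).1 hw).2.2.2.1 (e ▸ ((mP w).1 hw).2.2.2.2)
  obtain ⟨L, hL⟩ := cK.exists_bound_of_continuousOn (k3.1.mul k3.2)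
  have w0 : (t, y, x) ∈ P := (mP _).2 ⟨⟨ht, hy, hx⟩, gy, gx, yA, xB⟩
  have key : ∀ N : ℕ, ‖dy G (t, y) * dy G (t, x) / (y - x) ^ N‖ ≤ L / m ^ N := by
    intro N
    set f : ℂ × ℂ × ℂ → ℂ := fun w => dy G (w.1, w.2.1) * dy G (w.1, w.2.2) / (w.2.1 - w.2.2) ^ N
      with hf
    have c1 : ContinuousOn (fun w => ‖f w‖) P :=
      (((k3.1.mul k3.2).mono fun w hw => hw.1.1).div (by fun_prop)
        fun w hw => pow_ne_zero _ (sub_ne_zero.2 (nP w hw))).norm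
    obtain ⟨w1, a1, a2⟩ := cP.exists_isMaxOn ⟨_, w0⟩ c1
    have c2 : IsCompact (P ∩ (fun w => ‖f w‖) ⁻¹' Ici ‖f w1‖) := cP.of_isClosed_subset
      (c1.preimage_isClosed_of_isClosed cP.isClosed isClosed_Ici) inter_subset_left
    obtain ⟨⟨s, u, v⟩, ⟨b1, b2⟩, b3⟩ := c2.exists_isMaxOn (f := fun w => ‖w.1‖)
      ⟨w1, a1, le_refl ‖f w1‖⟩ (by fun_prop)
    have b4 : ‖f w1‖ ≤ ‖f (s, u, v)‖ := b2
    have b5 : ‖f (t, y, x)‖ ≤ ‖f w1‖ := a2 w0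
    have b6 : f (t, y, x) ≠ 0 :=
      div_ne_zero (mul_ne_zero ny nx) (pow_ne_zero _ (sub_ne_zero.2 (nP _ w0)))
    have b7 : f (s, u, v) ≠ 0 := norm_pos_iff.1 ((norm_pos_iff.2 b6).trans_le (b5.trans b4))
    obtain ⟨⟨d1, d2, d3⟩, d4, d5, d6, d7⟩ := (mP _).1 b1
    rcases d1.eq_or_lt with e | e
    · refine (b5.trans b4).trans ?_
      rw [hf]
      simp only [norm_div, norm_pow]
      exact div_le_div₀ ((norm_nonneg _).trans (hL _ b1.1.1)) (hL _ b1.1.1) (by positivity)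
        (pow_le_pow_left₀ hm.le (hS s u v e d2 d3 d4 d5 (nP _ b1)) N)
    exfalso
    have b8 := mul_ne_zero_iff.1 (div_ne_zero_iff.1 b7).1
    obtain ⟨γ, g1, g2, g3, -⟩ := imp (q := (s, u)) (hA s u d1 d2) b8.1
    obtain ⟨κ, j1, j2, j3, -⟩ := imp (q := (s, v)) (hA s v d1 d3) b8.2
    simp only at g1 g2 g3 j1 j2 j3 d1 d2 d3 d4 d5 d6 d7 e
    have g4 : AnalyticAt ℂ (fun z => ((z, γ z) : ℂ × ℂ)) s := analyticAt_id.prod g1
    have j4 : AnalyticAt ℂ (fun z => ((z, κ z) : ℂ × ℂ)) s := analyticAt_id.prod j1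
    have l1 : ∀ᶠ z in 𝓝 s, (z, γ z, κ z) ∈ P := by
      filter_upwards [g3, j3, (isOpen_lt continuous_norm continuous_const).mem_nhds e,
        g1.continuousAt.norm.eventually_lt continuousAt_const (g2 ▸ (hF s u d1 d2 d4).1),
        j1.continuousAt.norm.eventually_lt continuousAt_const (j2 ▸ (hF s v d1 d3 d5).1),
        g4.continuousAt.eventually (oA.mem_nhds (by simpa only [g2] using d6)),
        j4.continuousAt.eventually (oB.mem_nhds (by simpa only [j2] using d7))] with z m1 m2 m3 m4 m5 m6 m7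
      exact (mP _).2 ⟨⟨le_of_lt m3, m4.le, m5.le⟩, m1.trans d4, m2.trans d5, m6, m7⟩
    have l2 : AnalyticAt ℂ (fun z => f (z, γ z, κ z)) s :=
      (((dy_an (hA s u d1 d2)).comp_of_eq g4 (by rw [g2])).mul
        ((dy_an (hA s v d1 d3)).comp_of_eq j4 (by rw [j2]))).div ((g1.sub j1).pow N)
        (pow_ne_zero _ (by simpa only [Pi.sub_apply, g2, j2] using sub_ne_zero.2 (nP _ b1)))
    have l3 : IsLocalMax (norm ∘ fun z => f (z, γ z, κ z)) s := by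
      filter_upwards [l1] with z hz
      simp only [Function.comp, g2, j2]
      exact (a2 hz).trans b4
    have l4 := Complex.norm_eventually_eq_of_isLocalMax
      (l2.eventually_analyticAt.mono fun z hz => hz.differentiableAt) l3
    have l5 : IsLocalMax (norm ∘ fun z : ℂ => z) s := by
      filter_upwards [l1, l4] with z hz h4
      refine b3 (a := (z, γ z, κ z)) ⟨hz, ?_⟩
      show ‖f w1‖ ≤ ‖f (z, γ z, κ z)‖
      rw [h4, g2, j2]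
      exact b4
    have l6 := Complex.eventually_eq_of_isLocalMax_norm
      (Eventually.of_forall fun z => differentiableAt_id) l5
    obtain ⟨z, z1, z2⟩ := ((l6.filter_mono nhdsWithin_le_nhds).and
      (self_mem_nhdsWithin (s := {s}ᶜ) (a := s))).exists
    exact z2 z1
  by_contra hn
  have e1 : 0 < ‖y - x‖ := norm_pos_iff.2 (sub_ne_zero.2 (nP _ w0))
  have e2 : 0 < ‖dy G (t, y) * dy G (t, x)‖ := norm_pos_iff.2 (mul_ne_zero ny nx)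
  obtain ⟨N, hN⟩ := pow_unbounded_of_one_lt (L / ‖dy G (t, y) * dy G (t, x)‖)
    ((one_lt_div e1).2 (not_le.1 hn))
  have e3 := key N
  rw [norm_div, norm_pow, div_le_div_iff₀ (by positivity) (by positivity)] at e3
  rw [div_pow, div_lt_div_iff₀ e2 (by positivity)] at hN
  linarith

end Pool.Agent.Lib.F4G.Con
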