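import Pool.Agent.Lib.HS32.MAll

/-! Project f4g: pull-back of an atlas and of a metric along a local homeomorphism. -/

open scoped Classical Topology ContDiff ComplexOrder Matrix
open Set Filter Metric

set_option linter.unusedVariables false

noncomputable section

namespace Pool.Agent.Lib.F4G.C9

open Pool.Agent.Lib.SV (E)
open Pool.Agent.Lib.HS32

variable {n : ℕ} {M : Mf n}

/-! ### Local formulas -/

theorem tr_cj {J G A : Mat n} (hJ : J.det ≠ 0) (hG : G.det ≠ 0) :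
    ((Jᴴ * G * J)⁻¹ * (Jᴴ * A * J)).trace = (G⁻¹ * A).trace := by
  have h1 : IsUnit J.det := isUnit_iff_ne_zero.2 hJ
  have h2 : IsUnit (Jᴴ).det := by
    rw [Matrix.det_conjTranspose]
    exact isUnit_iff_ne_zero.2 (star_ne_zero.2 hJ)
  rw [Matrix.mul_inv_rev, Matrix.mul_inv_rev]
  have e : J⁻¹ * (G⁻¹ * Jᴴ⁻¹) * (Jᴴ * A * J) = J⁻¹ * (G⁻¹ * (Jᴴ⁻¹ * Jᴴ) * A) * J := by
    simp only [Matrix.mul_assoc]
  rw [e, Matrix.nonsing_inv_mul _ h2, Matrix.mul_one, Matrix.trace_mul_cycle,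
    Matrix.mul_nonsing_inv _ h1, Matrix.one_mul]

theorem lc_ev (f : M.X → ℝ) {e e' : M.Ch} (he : e ∈ M.C) (he' : e' ∈ M.C) {x : M.X}
    (hx : x ∈ e.source) (hx' : x ∈ e'.source) :
    M.lc f e' =ᶠ[𝓝 (e' x)] M.lc f e ∘ (e ∘ e'.symm) := by
  filter_upwards [((mTR n M).2.1 e he e' he' x hx hx').2.2.2.1] with w hw
  simp only [Mf.lc, Function.comp_apply, hw.2.2.2.2.1]

theorem lc_sm {f : M.X → ℝ} {e : M.Ch} {z : E n} (h : ContDiffAt ℝ ∞ (f ∘ e.symm) z) :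
    ContDiffAt ℝ ∞ (M.lc f e) z :=
  Complex.ofRealCLM.contDiff.contDiffAt.comp z h

theorem lap_loc {G : M.Fam (Mat n)} (hG : M.Met G) {f : M.X → ℝ} {e : M.Ch} (he : e ∈ M.C)
    {x : M.X} (hx : x ∈ e.source) (hf : ContDiffAt ℝ ∞ (f ∘ e.symm) (e x)) :
    M.lap G f x = ((G e (e x))⁻¹ * hess (M.lc f e) (e x)).trace.re := by
  obtain ⟨h1, h2, -, -, -⟩ := (mTR n M).2.1 e he _ (Mf.ch_mem x) x hx (Mf.mem_ch x)
  have h3 : (e ∘ (M.ch x).symm) (M.ch x x) = e x := by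
    simp only [Function.comp_apply, Mf.ch_symm]
  have h4 := (mCHN n _ _ h1).2.2.2.2.2.2.2.2.2.2.2 (M.lc f e) (by rw [h3]; exact lc_sm hf)
  rw [h3] at h4
  show ((G (M.ch x) (M.ch x x))⁻¹ * hess (M.lc f (M.ch x)) (M.ch x x)).trace.re = _
  rw [hess_congr (lc_ev f he (Mf.ch_mem x) hx (Mf.mem_ch x)), h4,
    hG.cmp e he _ (Mf.ch_mem x) x hx (Mf.mem_ch x)]
  exact congrArg Complex.re (tr_cj h2 (hG.det_ne e he _ (e.map_source hx)))

theorem gr_loc {G : M.Fam (Mat n)} (hG : M.Met G) {f g : M.X → ℝ} {e : M.Ch} (he : e ∈ M.C)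
    {x : M.X} (hx : x ∈ e.source) (hf : ContDiffAt ℝ ∞ (f ∘ e.symm) (e x))
    (hg : ContDiffAt ℝ ∞ (g ∘ e.symm) (e x)) :
    M.gr G f g x = ((G e (e x))⁻¹ * dd (M.lc f e) (M.lc g e) (e x)).trace.re := by
  obtain ⟨h1, h2, -, -, -⟩ := (mTR n M).2.1 e he _ (Mf.ch_mem x) x hx (Mf.mem_ch x)
  have h3 : (e ∘ (M.ch x).symm) (M.ch x x) = e x := by
    simp only [Function.comp_apply, Mf.ch_symm]
  have h4 := (mCHN n _ _ h1).2.2.2.2.2.2.2.2.2.2.1 (M.lc f e) (M.lc g e)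
    (by rw [h3]; exact cd_diff (lc_sm hf)) (by rw [h3]; exact cd_diff (lc_sm hg))
  rw [h3] at h4
  show ((G (M.ch x) (M.ch x x))⁻¹ *
    dd (M.lc f (M.ch x)) (M.lc g (M.ch x)) (M.ch x x)).trace.re = _
  rw [dd_congr (lc_ev f he (Mf.ch_mem x) hx (Mf.mem_ch x))
    (lc_ev g he (Mf.ch_mem x) hx (Mf.mem_ch x)), h4,
    hG.cmp e he _ (Mf.ch_mem x) x hx (Mf.mem_ch x)]
  exact congrArg Complex.re (tr_cj h2 (hG.det_ne e he _ (e.map_source hx)))

/-- Every point has a connected neighbourhood. -/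
theorem ex_pre (x : M.X) : ∃ S ∈ 𝓝 x, IsPreconnected S := by
  obtain ⟨r, hr, hs⟩ := Metric.isOpen_iff.1 (M.ch x).open_target _ (Mf.ch_tgt x)
  refine ⟨(M.ch x).symm '' ball (M.ch x x) r, ?_, (convex_ball _ _).isPreconnected.image _
    ((M.ch x).continuousOn_symm.mono hs)⟩
  have h := (M.ch x).symm.image_mem_nhds (Mf.ch_tgt x) (ball_mem_nhds _ hr)
  rwa [Mf.ch_symm] at h

/-! ### The pull-back -/

section top

variable {Y : Type} [TopologicalSpace Y] {p : Y → M.X}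

/-- The chart `f` is the chart `e` composed with `p` near `y`. -/
def Adp (p : Y → M.X) (f : OpenPartialHomeomorph Y (E n)) (e : M.Ch) (y : Y) : Prop :=
  e ∈ M.C ∧ p y ∈ e.source ∧ ∀ᶠ y' in 𝓝 y, f y' = e (p y')

theorem adp_ev (hp : Continuous p) {f : OpenPartialHomeomorph Y (E n)} {e : M.Ch} {z : E n}
    (hz : z ∈ f.target) (h : Adp p f e (f.symm z)) : ∀ᶠ w in 𝓝 z, w ∈ f.target ∧
      Adp p f e (f.symm w) ∧ w ∈ e.target ∧ e (p (f.symm w)) = w ∧ p (f.symm w) = e.symm w := by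
  have h1 : ∀ᶠ y in 𝓝 (f.symm z), p y ∈ e.source ∧ ∀ᶠ y' in 𝓝 y, f y' = e (p y') :=
    (hp.continuousAt.eventually (e.open_source.mem_nhds h.2.1)).and h.2.2.eventually_nhds
  filter_upwards [f.open_target.mem_nhds hz, (f.continuousAt_symm hz).eventually h1] with w a b
  have c : e (p (f.symm w)) = w := by rw [← b.2.self_of_nhds, f.right_inv a]
  refine ⟨a, ⟨h.1, b.1, b.2⟩, c ▸ e.map_source b.1, c, ?_⟩
  rw [← e.left_inv b.1, c]

theorem adp_cmp (hp : Continuous p) {f f' : OpenPartialHomeomorph Y (E n)} {e e' : M.Ch} {y : Y}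
    (hy : y ∈ f'.source) (h : Adp p f e y) (h' : Adp p f' e' y) :
    f ∘ f'.symm =ᶠ[𝓝 (f' y)] e ∘ e'.symm := by
  have h0 := f'.left_inv hy
  have h1 := adp_ev hp (f'.map_source hy) (by rw [h0]; exact h')
  have h2 := (f'.continuousAt_symm (f'.map_source hy)).eventually
    (p := fun y' => f y' = e (p y')) (by rw [h0]; exact h.2.2)
  filter_upwards [h1, h2] with w a b
  simp only [Function.comp_apply, b, a.2.2.2.2]

/-- The pull-back of the atlas. -/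
def pull (M : Mf n) (p : Y → M.X) (hp : IsLocalHomeomorph p) : Mf n where
  X := Y
  C := {f | ∀ y ∈ f.source, ∃ e, Adp p f e y}
  cov y := by
    obtain ⟨h, hy, hh⟩ := hp y
    refine ⟨h.trans (M.ch (p y)), fun y' hy' => ⟨M.ch (p y), Mf.ch_mem _, ?_, ?_⟩, hy, ?_⟩
    · have a : h y' ∈ (M.ch (p y)).source := hy'.2
      rwa [← congrFun hh y'] at a
    · exact Eventually.of_forall fun w => congrArg (M.ch (p y)) (congrFun hh w).symm
    · show h y ∈ (M.ch (p y)).source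
      rw [← congrFun hh y]
      exact Mf.mem_ch (p y)
  hol f hf f' hf' z hz := by
    obtain ⟨e, he⟩ := hf _ hz.2
    obtain ⟨e', he'⟩ := hf' _ (f'.map_target hz.1)
    have h1 := adp_cmp hp.continuous (f'.map_target hz.1) he he'
    have h2 := ((mTR n M).2.1 e he.1 e' he'.1 _ he.2.1 he'.2.1).1.self_of_nhds
    rw [← he'.2.2.self_of_nhds] at h2
    rw [f'.right_inv hz.1] at h1 h2
    exact (h2.congr_of_eventuallyEq h1).differentiableWithinAt
  sat f hf ψ h1 h2 y hy := by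
    obtain ⟨e, he⟩ := hf y hy.1
    refine ⟨e.trans ψ, M.sat e he.1 ψ h1 h2, ⟨he.2.1, ?_⟩, he.2.2.mono fun w hw => ?_⟩
    · have := hy.2
      rw [mem_preimage] at this ⊢
      have h3 : f y = e (p y) := he.2.2.self_of_nhds
      exact h3 ▸ this
    · show ψ (f w) = ψ (e (p w))
      rw [hw]

end top

/-- The map `p` is continuous and the charts of `N` come from the charts of `M`. -/
structure Et {N : Mf n} (p : N.X → M.X) : Prop where
  ct : Continuous p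
  ad : ∀ f ∈ N.C, ∀ y ∈ f.source, ∃ e, Adp p f e y

theorem pull_et {Y : Type} [TopologicalSpace Y] {p : Y → M.X} (hp : IsLocalHomeomorph p) :
    Et (N := pull M p hp) p := ⟨hp.continuous, fun _ hf => hf⟩

variable {N : Mf n} {p : N.X → M.X}

theorem pull_J (hp : Et p) {f f' : N.Ch} {e e' : M.Ch} {y : N.X} (hy : y ∈ f'.source)
    (h : Adp p f e y) (h' : Adp p f' e' y) : N.J f f' y = M.J e e' (p y) := by
  show jm (f ∘ f'.symm) (f' y) = jm (e ∘ e'.symm) (e' (p y))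
  rw [BTR.jm_congr (adp_cmp hp.ct hy h h'), h'.2.2.self_of_nhds]

/-- The pull-back of a family. -/
def pf (p : N.X → M.X) (T : M.Fam (Mat n)) : N.Fam (Mat n) := fun f z =>
  if h : ∃ e, Adp p f e (f.symm z) then T h.choose z else 0

theorem pf_at (hp : Et p) {T : M.Fam (Mat n)} (hT : M.Ten T) {f : N.Ch} (hf : f ∈ N.C)
    {e : M.Ch} {z : E n} (hz : z ∈ f.target) (h : Adp p f e (f.symm z)) : pf p T f z = T e z := by
  have h0 : ∃ e, Adp p f e (f.symm z) := ⟨e, h⟩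
  have h1 := h0.choose_spec
  have h2 := hT.cmp e h.1 _ h1.1 _ h.2.1 h1.2.1
  beta_reduce at h2
  rw [← pull_J hp (f.map_target hz) h h1,
    (mTR n N).2.2.1 f hf _ (f.map_target hz), ← h.2.2.self_of_nhds,
    ← h1.2.2.self_of_nhds, f.right_inv hz, Matrix.conjTranspose_one, Matrix.one_mul,
    Matrix.mul_one] at h2
  simp only [pf, dif_pos h0, h2]

theorem pf_ev (hp : Et p) {T : M.Fam (Mat n)} (hT : M.Ten T) {f : N.Ch} (hf : f ∈ N.C)
    {e : M.Ch} {z : E n} (hz : z ∈ f.target) (h : Adp p f e (f.symm z)) :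
    pf p T f =ᶠ[𝓝 z] T e :=
  (adp_ev hp.ct hz h).mono fun w hw => pf_at hp hT hf hw.1 hw.2.1

theorem pf_all (hp : Et p) {T : M.Fam (Mat n)} (hT : M.Ten T) {f : N.Ch}
    (hf : f ∈ N.C) {z : E n} (hz : z ∈ f.target) :
    ∃ e ∈ M.C, z ∈ e.target ∧ pf p T f =ᶠ[𝓝 z] T e := by
  obtain ⟨e, he⟩ := hp.ad f hf _ (f.map_target hz)
  exact ⟨e, he.1, (adp_ev hp.ct hz he).self_of_nhds.2.2.1, pf_ev hp hT hf hz he⟩

theorem pf_ten (hp : Et p) {T : M.Fam (Mat n)} (hT : M.Ten T) : N.Ten (pf p T) where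
  sm f hf z hz i j := by
    obtain ⟨e, he, h1, h2⟩ := pf_all hp hT hf hz
    exact (hT.sm e he z h1 i j).congr_of_eventuallyEq (h2.mono fun w hw => by simp only [hw])
  cmp f hf f' hf' y hy hy' := by
    obtain ⟨e, he⟩ := hp.ad f hf y hy
    obtain ⟨e', he'⟩ := hp.ad f' hf' y hy'
    rw [pf_at hp hT hf (f.map_source hy) (e := e) (by rw [f.left_inv hy]; exact he),
      pf_at hp hT hf' (f'.map_source hy') (e := e') (by rw [f'.left_inv hy']; exact he'),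
      pull_J hp hy' he he', he.2.2.self_of_nhds, he'.2.2.self_of_nhds]
    exact hT.cmp e he.1 e' he'.1 _ he.2.1 he'.2.1

theorem pf_met (hp : Et p) {T : M.Fam (Mat n)} (hT : M.Met T) : N.Met (pf p T) where
  toTen := pf_ten hp hT.toTen
  herm f hf z hz := by
    obtain ⟨e, he, h1, h2⟩ := pf_all hp hT.toTen hf hz
    rw [h2.self_of_nhds]
    exact hT.herm e he z h1
  pos f hf z hz := by
    obtain ⟨e, he, h1, h2⟩ := pf_all hp hT.toTen hf hz
    rw [h2.self_of_nhds]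
    exact hT.pos e he z h1

theorem pf_kae (hp : Et p) {T : M.Fam (Mat n)} (hT : M.Kae T) : N.Kae (pf p T) where
  toForm := (pf_met hp hT.toMet).toForm
  cl f hf z hz i j k := by
    obtain ⟨e, he, h1, h2⟩ := pf_all hp hT.toTen hf hz
    rw [dM_congr h2, dM_congr h2]
    exact hT.cl e he z h1 i j k
  pos := (pf_met hp hT.toMet).pos

theorem pf_ric (hp : Et p) {T : M.Fam (Mat n)} (hT : M.Ten T) (c : ℝ) (h : M.Le (c • T) (M.ric T)) :
    N.Le (c • pf p T) (N.ric (pf p T)) := by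
  intro f hf z hz
  obtain ⟨e, he, h1, h2⟩ := pf_all hp hT hf hz
  have h3 : hess (ld (pf p T f)) z = hess (ld (T e)) z :=
    hess_congr (h2.mono fun w hw => by simp only [ld, hw])
  have h4 := h e he z h1
  show (-hess (ld (pf p T f)) z - c • pf p T f z).PosSemidef
  rw [h3, h2.self_of_nhds]
  exact h4

theorem pf_ric' (hp : Et p) {T : M.Fam (Mat n)} (hT : M.Ten T) (h : M.Le (-T) (M.ric T)) :
    N.Le (-pf p T) (N.ric (pf p T)) := by
  have := pf_ric hp hT (-1) (by rwa [neg_one_smul])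
  rwa [neg_one_smul] at this

theorem fn_ev (hp : Et p) {F : Type} {g : N.X → F} {u : M.X → F} {y : N.X} (h : ∀ᶠ y' in 𝓝 y, g y' = u (p y'))
    {f : N.Ch} (hy : y ∈ f.source) {e : M.Ch} (he : Adp p f e y) :
    g ∘ f.symm =ᶠ[𝓝 (e (p y))] u ∘ e.symm := by
  have h0 := f.left_inv hy
  have h1 := adp_ev hp.ct (f.map_source hy) (by rw [h0]; exact he)
  have h2 := (f.continuousAt_symm (f.map_source hy)).eventually
    (p := fun y' => g y' = u (p y')) (by rw [h0]; exact h)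
  rw [← he.2.2.self_of_nhds]
  filter_upwards [h1, h2] with w a b
  simp only [Function.comp_apply, b, a.2.2.2.2]

/-- Smooth at `x` in every chart. -/
def SmAt (M : Mf n) (u : M.X → ℝ) (x : M.X) : Prop :=
  ∀ e ∈ M.C, x ∈ e.source → ContDiffAt ℝ ∞ (u ∘ e.symm) (e x)

theorem smAt_of {u : M.X → ℝ} {x : M.X} {e : M.Ch} (he : e ∈ M.C) (hx : x ∈ e.source)
    (h : ContDiffAt ℝ ∞ (u ∘ e.symm) (e x)) : SmAt M u x := fun e' he' hx' =>
  ((mTR n M).2.2.2.1 ℝ u).2.1 e he e' he' x hx hx' h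

theorem sm_iff {u : M.X → ℝ} : M.Sm u ↔ ∀ x, SmAt M u x := by
  refine ⟨fun h x e he hx => h e he _ (e.map_source hx), fun h e he z hz => ?_⟩
  have := h _ e he (e.map_target hz)
  rwa [e.right_inv hz] at this

theorem pull_sm (hp : Et p) {g : N.X → ℝ} {u : M.X → ℝ} {y : N.X} (h : ∀ᶠ y' in 𝓝 y, g y' = u (p y')) :
    SmAt N g y ↔ SmAt M u (p y) := by
  obtain ⟨f, hf, hy⟩ := N.cov y
  obtain ⟨e, he⟩ := hp.ad f hf y hy
  have h1 := fn_ev hp h hy he
  refine ⟨fun a => smAt_of he.1 he.2.1 ?_, fun a => smAt_of hf hy ?_⟩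
  · have := a f hf hy
    rw [he.2.2.self_of_nhds] at this
    exact this.congr_of_eventuallyEq h1.symm
  · rw [he.2.2.self_of_nhds]
    exact (a e he.1 he.2.1).congr_of_eventuallyEq h1

theorem pull_lap (hp : Et p) {G : M.Fam (Mat n)} (hG : M.Met G) {g : N.X → ℝ} {u : M.X → ℝ} {y : N.X}
    (h : ∀ᶠ y' in 𝓝 y, g y' = u (p y')) (hu : SmAt M u (p y)) :
    N.lap (pf p G) g y = M.lap G u (p y) := by
  obtain ⟨f, hf, hy⟩ := N.cov y
  obtain ⟨e, he⟩ := hp.ad f hf y hy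
  have h1 : N.lc g f =ᶠ[𝓝 (e (p y))] M.lc u e :=
    (fn_ev hp h hy he).mono fun w hw => congrArg Complex.ofReal hw
  rw [lap_loc (pf_met hp hG) hf hy ((pull_sm hp h).2 hu f hf hy), lap_loc hG he.1 he.2.1 (hu e he.1 he.2.1),
    pf_at hp hG.toTen hf (f.map_source hy) (e := e) (by rw [f.left_inv hy]; exact he),
    he.2.2.self_of_nhds, hess_congr h1]

theorem pull_gr (hp : Et p) {G : M.Fam (Mat n)} (hG : M.Met G) {g g' : N.X → ℝ} {u u' : M.X → ℝ} {y : N.X}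
    (h : ∀ᶠ y' in 𝓝 y, g y' = u (p y')) (h' : ∀ᶠ y' in 𝓝 y, g' y' = u' (p y'))
    (hu : SmAt M u (p y)) (hu' : SmAt M u' (p y)) :
    N.gr (pf p G) g g' y = M.gr G u u' (p y) := by
  obtain ⟨f, hf, hy⟩ := N.cov y
  obtain ⟨e, he⟩ := hp.ad f hf y hy
  have h1 : N.lc g f =ᶠ[𝓝 (e (p y))] M.lc u e :=
    (fn_ev hp h hy he).mono fun w hw => congrArg Complex.ofReal hw
  have h2 : N.lc g' f =ᶠ[𝓝 (e (p y))] M.lc u' e :=
    (fn_ev hp h' hy he).mono fun w hw => congrArg Complex.ofReal hw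
  rw [gr_loc (pf_met hp hG) hf hy ((pull_sm hp h).2 hu f hf hy) ((pull_sm hp h').2 hu' f hf hy),
    gr_loc hG he.1 he.2.1 (hu e he.1 he.2.1) (hu' e he.1 he.2.1),
    pf_at hp hG.toTen hf (f.map_source hy) (e := e) (by rw [f.left_inv hy]; exact he),
    he.2.2.self_of_nhds, dd_congr h1 h2]

end Pool.Agent.Lib.F4G.C9
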