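import Pool.Agent.Lib.F4.Ld
import Pool.Agent.Lib.F4.M7
import Pool.Agent.Lib.F4G.Dev

/-! Project f4g: projectively flat local sections give a pluricanonical form. -/

open scoped Classical Topology ContDiff Matrix MatrixGroups
open Set Filter Metric

set_option linter.unusedVariables false

noncomputable section

namespace Pool.Agent.Lib.F4G

open Pool.Agent.Lib.SV (E)
open Pool.Agent.Lib.HS32 Pool.Agent.Lib.F4

variable {n : ℕ}

/-- Local holomorphic functions that transform as sections of `r K` define a section. -/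
theorem glue93 (M : Mf n) {ι : Type} (e : ι → M.Ch) (he : ∀ a, e a ∈ M.C) (O : ι → Set M.X)
    (hO : ∀ a, IsOpen (O a) ∧ O a ⊆ (e a).source) (hc : ∀ x, ∃ a, x ∈ O a)
    (z : ι → M.X → ℂ) (r : ℕ)
    (hz : ∀ a, ∀ x ∈ O a, DifferentiableAt ℂ (z a ∘ (e a).symm) (e a x))
    (hr : ∀ a b x, x ∈ O a → x ∈ O b → z b x = jd M (e a) (e b) x ^ r * z a x) :
    ∃ s, M.HSec r s ∧ ∀ a, ∀ x ∈ O a, s (e a) (e a x) = z a x := by
  have T := (mTR n M).2.1
  choose a ha using hc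
  have hs : ∀ x, x ∈ (e (a x)).source := fun x => (hO _).2 (ha x)
  set s : M.Fam ℂ := fun f w =>
    z (a (f.symm w)) (f.symm w) * (M.J (e (a (f.symm w))) f (f.symm w)).det ^ r with hs'
  have k1 : ∀ f ∈ M.C, ∀ b y, y ∈ O b → y ∈ f.source →
      s f (f y) = z b y * (M.J (e b) f y).det ^ r := fun f hf b y hy hy' => by
    simp only [hs', f.left_inv hy']
    rw [hr b (a y) y hy (ha y), (T _ (he b) _ (he (a y)) y ((hO b).2 hy) (hs y)).2.2.2.2 f hf hy',
      Matrix.det_mul, mul_pow]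
    ring
  have k2 : M.All fun f w => DifferentiableAt ℂ (s f) w := Mf.allOn_of_source fun f hf x hx => by
    obtain ⟨t1, -, -, t2, -⟩ := T _ (he _) f hf x (hs x) hx
    have t0 : (e (a x) ∘ f.symm) (f x) = e (a x) x := by simp [f.left_inv hx]
    have t3 := (((t0 ▸ hz _ x (ha x)).comp (f x) t1.self_of_nhds)).fun_mul
      ((mCHN n _ _ t1).2.2.2.2.1.self_of_nhds.fun_pow r)
    refine t3.congr_of_eventuallyEq ?_
    filter_upwards [t2, (f.continuousAt_symm (f.map_source hx)).eventually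
      ((hO (a x)).1.eventually_mem (by rw [f.left_inv hx]; exact ha x))] with w hw hw'
    have := k1 f hf _ _ hw' hw.2.2.1
    rw [hw.2.2.2.2.2.1, hw.2.2.2.2.2.2] at this
    rw [this]
    simp only [Function.comp_apply, hw.2.2.2.2.1]
  refine ⟨s, ⟨⟨fun f hf w hw => ((mHOL n _ w).2.2 (k2.ev hf hw)).1,
    fun f hf f' hf' x hx hx' => ?_⟩, k2⟩, fun b x hx => ?_⟩
  · beta_reduce
    rw [k1 f hf _ x (ha x) hx, k1 f' hf' _ x (ha x) hx',
      (T _ (he _) f hf x (hs x) hx).2.2.2.2 f' hf' hx', Matrix.det_mul, mul_pow, mul_assoc]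
  · rw [k1 _ (he b) b x hx ((hO b).2 hx), (mTR n M).2.2.1 _ (he b) x ((hO b).2 hx)]
    simp

/-- Local holomorphic functions that transform as sections of `k K` up to constant factors. -/
theorem secX93 (M : Mf n) [Nonempty M.X]
    (hT : ∀ (ι : Type) (O : ι → Set M.X) (c : ι → ι → M.X → ℂ), (∀ a, IsOpen (O a)) →
      (∀ x, ∃ a, x ∈ O a) →
      (∀ a b x, x ∈ O a → x ∈ O b → c a b x ≠ 0 ∧ ∀ᶠ y in 𝓝 x, c a b y = c a b x) →
      (∀ a b d x, x ∈ O a → x ∈ O b → x ∈ O d → c a b x * c b d x = c a d x) →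
      ∃ m, 0 < m ∧ ∃ u : ι → M.X → ℂ,
        (∀ a, ∀ x ∈ O a, u a x ≠ 0 ∧ ∀ᶠ y in 𝓝 x, u a y = u a x) ∧
        ∀ a b x, x ∈ O a → x ∈ O b → c a b x ^ m * u a x = u b x)
    {ι : Type} (e : ι → M.Ch) (he : ∀ a, e a ∈ M.C) (O : ι → Set M.X)
    (hO : ∀ a, IsOpen (O a) ∧ O a ⊆ (e a).source) (hc : ∀ x, ∃ a, x ∈ O a)
    (y : ι → M.X → ℂ) (k : ℕ)
    (hy : ∀ a, ∀ x ∈ O a, DifferentiableAt ℂ (y a ∘ (e a).symm) (e a x) ∧ ∃ᶠ w in 𝓝 x, y a w ≠ 0)
    (hr : ∀ a b x, x ∈ O a → x ∈ O b → ∃ l : ℂ, l ≠ 0 ∧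
      ∀ᶠ w in 𝓝 x, y b w = l * jd M (e a) (e b) w ^ k * y a w) :
    ∃ m, 0 < m ∧ ∃ s, M.HSec (k * m) s ∧ ¬Zr M s := by
  have T := (mTR n M).2.1
  have hr' : ∀ a b x, ∃ l : ℂ, x ∈ O a → x ∈ O b → l ≠ 0 ∧
      ∀ᶠ w in 𝓝 x, y b w = l * jd M (e a) (e b) w ^ k * y a w := fun a b x => by
    by_cases h : x ∈ O a ∧ x ∈ O b
    · obtain ⟨l, hl⟩ := hr a b x h.1 h.2
      exact ⟨l, fun _ _ => hl⟩
    · exact ⟨0, fun h1 h2 => (h ⟨h1, h2⟩).elim⟩
  choose c hcc using hr'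
  have j0 : ∀ a b x, x ∈ O a → x ∈ O b → jd M (e a) (e b) x ≠ 0 := fun a b x h1 h2 =>
    (T _ (he a) _ (he b) x ((hO a).2 h1) ((hO b).2 h2)).2.1
  have un : ∀ a b x, x ∈ O a → x ∈ O b → ∀ l : ℂ,
      (∀ᶠ w in 𝓝 x, y b w = l * jd M (e a) (e b) w ^ k * y a w) → l = c a b x :=
    fun a b x h1 h2 l hl => by
      obtain ⟨w, w0, w1, w2, w3, w4⟩ := ((hy a x h1).2.and_eventually (hl.and
        ((hcc a b x h1 h2).2.and (((hO a).1.eventually_mem h1).and
        ((hO b).1.eventually_mem h2))))).exists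
      rw [w2] at w1
      exact (mul_right_cancel₀ (pow_ne_zero k (j0 a b w w3 w4)) (mul_right_cancel₀ w0 w1)).symm
  obtain ⟨m, m0, u, u1, u2⟩ := hT ι O c (fun a => (hO a).1) hc (fun a b x h1 h2 =>
    ⟨(hcc a b x h1 h2).1, by
      filter_upwards [(hcc a b x h1 h2).2.eventually_nhds, (hO a).1.eventually_mem h1,
        (hO b).1.eventually_mem h2] with w w1 w2 w3
      exact (un a b w w2 w3 _ w1).symm⟩) (fun a b d x h1 h2 h3 => un a d x h1 h3 _ (by
      filter_upwards [(hcc a b x h1 h2).2, (hcc b d x h2 h3).2, (hO a).1.eventually_mem h1,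
        (hO b).1.eventually_mem h2, (hO d).1.eventually_mem h3] with w w1 w2 w3 w4 w5
      rw [w2, w1]
      simp only [jd]
      rw [(T _ (he a) _ (he b) w ((hO a).2 w3) ((hO b).2 w4)).2.2.2.2 _ (he d) ((hO d).2 w5),
        Matrix.det_mul]
      ring))
  obtain ⟨s, s1, s2⟩ := glue93 M e he O hO hc (fun a x => y a x ^ m / u a x) (k * m)
    (fun a x hx => by
      have s1 := (hO a).2 hx
      refine (((hy a x hx).1.fun_pow m).mul_const (u a x)⁻¹).congr_of_eventuallyEq ?_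
      filter_upwards [((e a).continuousAt_symm ((e a).map_source s1)).eventually
        (p := fun w => u a w = u a x) (by rw [(e a).left_inv s1]; exact (u1 a x hx).2)] with w hw
      simp only [Function.comp_apply, hw, div_eq_mul_inv])
    (fun a b x h1 h2 => by
      rw [(hcc a b x h1 h2).2.self_of_nhds, ← u2 a b x h1 h2]
      have := (hcc a b x h1 h2).1
      have := (u1 a x h1).1
      rw [pow_mul, mul_pow, mul_pow]
      field_simp)
  refine ⟨m, m0, s, s1, fun h => ?_⟩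
  obtain ⟨x⟩ : Nonempty M.X := inferInstance
  obtain ⟨a, ha⟩ := hc x
  obtain ⟨w, w0, w1⟩ := ((hy a x ha).2.and_eventually ((hO a).1.eventually_mem ha)).exists
  have := Mf.AllOn.at h (he a) ((hO a).2 w1)
  rw [s2 a w w1] at this
  exact div_ne_zero (pow_ne_zero m w0) (u1 a w w1).1 this

/-- The same, with the functions read in the charts. -/
theorem sec93 (M : Mf n) [Nonempty M.X]
    (hT : ∀ (ι : Type) (O : ι → Set M.X) (c : ι → ι → M.X → ℂ), (∀ a, IsOpen (O a)) →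
      (∀ x, ∃ a, x ∈ O a) →
      (∀ a b x, x ∈ O a → x ∈ O b → c a b x ≠ 0 ∧ ∀ᶠ y in 𝓝 x, c a b y = c a b x) →
      (∀ a b d x, x ∈ O a → x ∈ O b → x ∈ O d → c a b x * c b d x = c a d x) →
      ∃ m, 0 < m ∧ ∃ u : ι → M.X → ℂ,
        (∀ a, ∀ x ∈ O a, u a x ≠ 0 ∧ ∀ᶠ y in 𝓝 x, u a y = u a x) ∧
        ∀ a b x, x ∈ O a → x ∈ O b → c a b x ^ m * u a x = u b x)
    {ι : Type} (e : ι → M.Ch) (he : ∀ a, e a ∈ M.C) (O : ι → Set M.X)
    (hO : ∀ a, IsOpen (O a) ∧ O a ⊆ (e a).source) (hc : ∀ x, ∃ a, x ∈ O a)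
    (y : ι → E n → ℂ) (k : ℕ)
    (hy : ∀ a, ∀ x ∈ O a, DifferentiableAt ℂ (y a) (e a x) ∧ ∃ᶠ w in 𝓝 x, y a (e a w) ≠ 0)
    (hr : ∀ a b x, x ∈ O a → x ∈ O b → ∃ l : ℂ, l ≠ 0 ∧
      ∀ᶠ w in 𝓝 x, y b (e b w) = l * jd M (e a) (e b) w ^ k * y a (e a w)) :
    ∃ m, 0 < m ∧ ∃ s, M.HSec (k * m) s ∧ ¬Zr M s :=
  secX93 M hT e he O hO hc (fun a x => y a (e a x)) k (fun a x hx => ⟨(hy a x hx).1.congr_of_eventuallyEq (by
    filter_upwards [(e a).open_target.eventually_mem ((e a).map_source ((hO a).2 hx))] with w hw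
    simp only [Function.comp_apply, (e a).right_inv hw]), (hy a x hx).2⟩) hr

theorem freq_prod93 {X κ : Type} [TopologicalSpace X] {U : Set X} (hU : IsOpen U) (f : κ → X → ℂ)
    (S : Finset κ) (hf : ∀ l ∈ S, ∀ x ∈ U, ContinuousAt (f l) x ∧ ∃ᶠ w in 𝓝 x, f l w ≠ 0) :
    ∀ x ∈ U, ∃ᶠ w in 𝓝 x, ∏ l ∈ S, f l w ≠ 0 := by
  induction S using Finset.induction_on with
  | empty => intro x _; simp
  | insert a S ha ih =>
    intro x hx
    have h1 := ih (fun l hl => hf l (Finset.mem_insert_of_mem hl))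
    have h2 := hf a (Finset.mem_insert_self a S)
    rw [← frequently_frequently_nhds]
    refine ((h2 x hx).2.and_eventually (hU.eventually_mem hx)).mono fun w hw => ?_
    refine ((h1 w hw.2).and_eventually ((h2 w hw.2).1.eventually_ne hw.1)).mono fun z hz => ?_
    rw [Finset.prod_insert ha]
    exact mul_ne_zero hz.2 hz.1

theorem lin93 {M : Mf n} {α : M.Fam (E n)} (D : Dev M α) (hα : Den M α) (a : M.X) {x : M.X}
    (hx : x ∈ D.O a) {v : Fin 2 → ℂ} (hv : v ≠ 0) :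
    ∃ᶠ w in 𝓝 x, v 0 * D.t a (D.e a w) - v 1 * D.s a (D.e a w) ≠ 0 := by
  by_contra hn
  rw [not_frequently] at hn
  have s1 := D.sub a hx
  have h1 : ∀ᶠ z in 𝓝 (D.e a x), v 0 * D.t a z - v 1 * D.s a z = 0 ∧ z ∈ (D.e a).target ∧
      (D.e a).symm z ∈ D.O a := by
    filter_upwards [((D.e a).continuousAt_symm ((D.e a).map_source s1)).eventually
      (((D.e a).left_inv s1).symm ▸ (hn.and ((D.opn a).eventually_mem hx))),
      (D.e a).open_target.eventually_mem ((D.e a).map_source s1)] with z h1 h2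
    rw [(D.e a).right_inv h2] at h1
    exact ⟨not_not.1 h1.1, h2, h1.2⟩
  obtain ⟨z, z0, z1⟩ := ((Mf.AllOn.at hα (D.mem a) s1).and_eventually h1.eventually_nhds).exists
  obtain ⟨q0, q1, q2⟩ := z1.self_of_nhds
  have d := D.hol a _ q2
  have w := D.wr a _ q2
  rw [(D.e a).right_inv q1] at d w
  refine z0 (funext fun k => ?_)
  have e1 : dz k (fun z => v 0 * D.t a z - v 1 * D.s a z) z = 0 := by
    rw [dz_congr (g := fun _ => (0 : ℂ)) (z1.mono fun y hy => hy.1), dz_const]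
  rw [M7.dz_fd ((d.2.1.hasFDerivAt.const_mul (v 0)).fun_sub (d.1.hasFDerivAt.const_mul (v 1)))] at e1
  rw [w k, M7.dz_fd d.2.1.hasFDerivAt, M7.dz_fd d.1.hasFDerivAt]
  simp only [sub_apply, smul_apply, smul_eq_mul] at e1
  by_contra hne
  refine hv (funext fun i => ?_)
  fin_cases i
  · refine (mul_eq_zero.1 ?_).resolve_right hne
    show v 0 * _ = 0
    linear_combination D.s a z * e1 - fderiv ℂ (D.s a) z (Pi.single k 1) * q0
  · refine (mul_eq_zero.1 ?_).resolve_right hne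
    show v 1 * _ = 0
    linear_combination D.t a z * e1 - fderiv ℂ (D.t a) z (Pi.single k 1) * q0

/-- An invariant finite family of lines gives a pluricanonical form. -/
theorem elem93 (M : Mf n) [M.Cpt]
    (hT : ∀ (ι : Type) (O : ι → Set M.X) (c : ι → ι → M.X → ℂ), (∀ a, IsOpen (O a)) →
      (∀ x, ∃ a, x ∈ O a) →
      (∀ a b x, x ∈ O a → x ∈ O b → c a b x ≠ 0 ∧ ∀ᶠ y in 𝓝 x, c a b y = c a b x) →
      (∀ a b d x, x ∈ O a → x ∈ O b → x ∈ O d → c a b x * c b d x = c a d x) →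
      ∃ m, 0 < m ∧ ∃ u : ι → M.X → ℂ,
        (∀ a, ∀ x ∈ O a, u a x ≠ 0 ∧ ∀ᶠ y in 𝓝 x, u a y = u a x) ∧
        ∀ a b x, x ∈ O a → x ∈ O b → c a b x ^ m * u a x = u b x)
    {α : M.Fam (E n)} (D : Dev M α) (hα : Den M α) {ι : Type} (b : ι → M.X) (U : ι → Set M.X)
    (hU : ∀ i, IsOpen (U i) ∧ U i ⊆ D.O (b i)) (hc : ∀ x, ∃ i, x ∈ U i)
    (L : ι → Set (Submodule ℂ (Fin 2 → ℂ))) (hf : ∀ i, (L i).Finite) (hne : ∀ i, (L i).Nonempty)
    (hl : ∀ i, ∀ l ∈ L i, ∃ v, v ≠ 0 ∧ l = Submodule.span ℂ {v})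
    (hm : ∀ i j x, x ∈ U i → x ∈ U j → ∀ v, Submodule.span ℂ {v} ∈ L j →
      Submodule.span ℂ {(D.c (b i) (b j) x).1 *ᵥ v} ∈ L i) :
    ∃ m, 0 < m ∧ ∃ s, M.HSec m s ∧ ¬Zr M s := by
  have h0 : ∀ l : Submodule ℂ (Fin 2 → ℂ), ∃ v, ∀ i, l ∈ L i → v ≠ 0 ∧ l = Submodule.span ℂ {v} :=
    fun l => by
      by_cases h : ∃ i, l ∈ L i
      · obtain ⟨i, hi⟩ := h
        obtain ⟨v, hv⟩ := hl i l hi
        exact ⟨v, fun _ _ => hv⟩
      · exact ⟨0, fun i hi => (h ⟨i, hi⟩).elim⟩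
  choose r hr using h0
  have ci : ∀ (g : SL(2, ℂ)) (v w : Fin 2 → ℂ), g.1 *ᵥ v = g.1 *ᵥ w → v = w := fun g v w h => by
    have := congrArg ((g⁻¹).1 *ᵥ ·) h
    simpa only [Matrix.mulVec_mulVec, ← Matrix.SpecialLinearGroup.coe_mul, inv_mul_cancel,
      Matrix.SpecialLinearGroup.coe_one, Matrix.one_mulVec] using this
  have mp : ∀ i j x, x ∈ U i → x ∈ U j → MapsTo
      (fun l => Submodule.span ℂ {(D.c (b i) (b j) x).1 *ᵥ r l}) (L j) (L i) :=
    fun i j x h1 h2 l h => hm i j x h1 h2 _ ((hr l j h).2 ▸ h)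
  have inj : ∀ (g : SL(2, ℂ)) j, InjOn (fun l => Submodule.span ℂ {g.1 *ᵥ r l}) (L j) := by
    have k : ∀ (g : SL(2, ℂ)) j, ∀ l ∈ L j, ∀ l' ∈ L j,
        Submodule.span ℂ {g.1 *ᵥ r l} = Submodule.span ℂ {g.1 *ᵥ r l'} → l ≤ l' :=
      fun g j l h l' h' q => by
        obtain ⟨μ, hμ⟩ := Submodule.mem_span_singleton.1
          (q ▸ Submodule.mem_span_singleton_self (g.1 *ᵥ r l))
        rw [← Matrix.mulVec_smul] at hμ
        rw [(hr l j h).2, (hr l' j h').2, Submodule.span_singleton_le_iff_mem, ← ci g _ _ hμ]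
        rw [← (hr l' j h').2]
        exact Submodule.smul_mem _ _ ((hr l' j h').2.ge (Submodule.mem_span_singleton_self _))
    exact fun g j l h l' h' q => le_antisymm (k g j l h l' h' q) (k g j l' h' l h q.symm)
  have cd : ∀ i j x, x ∈ U i → x ∈ U j → (L j).ncard = (L i).ncard := fun i j x h1 h2 =>
    le_antisymm (ncard_le_ncard_of_injOn _ (mp i j x h1 h2) (inj _ j) (hf i))
      (ncard_le_ncard_of_injOn _ (mp j i x h2 h1) (inj _ i) (hf j))
  choose a ha using hc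
  obtain ⟨x₀⟩ : Nonempty M.X := inferInstance
  have lc : IsLocallyConstant fun x => (L (a x)).ncard :=
    (IsLocallyConstant.iff_eventually_eq _).2 fun x =>
      ((hU (a x)).1.eventually_mem (ha x)).mono fun w hw => cd _ _ w hw (ha w)
  have ck : ∀ i, ∀ x ∈ U i, (hf i).toFinset.card = (L (a x₀)).ncard := fun i x hx => by
    rw [← ncard_eq_toFinset_card _ (hf i), cd _ _ x (ha x) hx]
    exact lc.apply_eq_of_preconnectedSpace x x₀
  obtain ⟨m, m0, s, s1, s2⟩ := sec93 M hT (fun i => D.e (b i)) (fun i => D.mem _) U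
    (fun i => ⟨(hU i).1, (hU i).2.trans (D.sub _)⟩) (fun x => ⟨_, ha x⟩)
    (fun i z => ∏ l ∈ (hf i).toFinset, (r l 0 * D.t (b i) z - r l 1 * D.s (b i) z) ^ 2)
    (L (a x₀)).ncard (fun i x hx => ⟨by
      have d := D.hol _ x ((hU i).2 hx)
      exact (HasFDerivAt.finsetProd (u := (hf i).toFinset) fun l _ =>
        (((d.2.1.const_mul (r l 0)).fun_sub (d.1.const_mul (r l 1))).fun_pow 2).hasFDerivAt).differentiableAt,
      freq_prod93 (hU i).1 (fun l w => (r l 0 * D.t (b i) (D.e (b i) w) -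
        r l 1 * D.s (b i) (D.e (b i) w)) ^ 2) _ (fun l hl x hx => ⟨by
          have d := D.hol _ x ((hU i).2 hx)
          exact (((d.2.1.const_mul (r l 0)).fun_sub
            (d.1.const_mul (r l 1))).fun_pow 2).continuousAt.comp
            ((D.e (b i)).continuousAt (D.sub _ ((hU i).2 hx))),
        (lin93 D hα _ ((hU i).2 hx) (hr l i ((hf i).mem_toFinset.1 hl)).1).mono fun w hw =>
          pow_ne_zero 2 hw⟩) x hx⟩) (fun i j x h1 h2 => by
      set g := D.c (b i) (b j) x with hg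
      have im : (hf j).toFinset.image (fun l => Submodule.span ℂ {g.1 *ᵥ r l}) =
          (hf i).toFinset := Finset.eq_of_subset_of_card_le (fun l hl => by
        obtain ⟨l', h3, rfl⟩ := Finset.mem_image.1 hl
        exact (hf i).mem_toFinset.2 (mp i j x h1 h2 ((hf j).mem_toFinset.1 h3))) (by
        rw [Finset.card_image_of_injOn (by simpa using inj g j), ck i x h1, ck j x h2])
      have mu : ∀ l, ∃ μ : ℂ, l ∈ L j → μ ≠ 0 ∧
          μ • r (Submodule.span ℂ {g.1 *ᵥ r l}) = g.1 *ᵥ r l := fun l => by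
        by_cases h : l ∈ L j
        · obtain ⟨μ, hμ⟩ := Submodule.mem_span_singleton.1
            ((hr _ i (mp i j x h1 h2 h)).2.le (Submodule.mem_span_singleton_self (g.1 *ᵥ r l)))
          refine ⟨μ, fun _ => ⟨fun c => (hr l j h).1 (ci g _ _ ?_), hμ⟩⟩
          rw [← hμ, c, zero_smul, Matrix.mulVec_zero]
        · exact ⟨0, fun c => (h c).elim⟩
      choose μ hμ using mu
      refine ⟨∏ l ∈ (hf j).toFinset, μ l ^ 2, Finset.prod_ne_zero_iff.2 fun l hl =>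
        pow_ne_zero 2 (hμ l ((hf j).mem_toFinset.1 hl)).1, ?_⟩
      filter_upwards [D.lc _ _ x ((hU i).2 h1) ((hU j).2 h2), (hU i).1.eventually_mem h1,
        (hU j).1.eventually_mem h2] with w w1 w2 w3
      obtain ⟨h, q1, q2⟩ := D.tr _ _ w ((hU i).2 w2) ((hU j).2 w3)
      rw [← im, Finset.prod_image (by simpa using inj g j), ← ck j x h2, ← Finset.prod_const,
        ← Finset.prod_mul_distrib, ← Finset.prod_mul_distrib]
      refine Finset.prod_congr rfl fun l hl => ?_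
      have q3 := (hμ l ((hf j).mem_toFinset.1 hl)).2
      have q4 := g.2
      rw [Matrix.det_fin_two] at q4
      have a0 := congrFun q2 0
      have a1 := congrFun q2 1
      have b0 := congrFun q3 0
      have b1 := congrFun q3 1
      rw [← q1]
      generalize r (Submodule.span ℂ {g.1 *ᵥ r l}) = v at *
      rw [← hg] at w1
      rcases w1 with w1 | w1 <;> rw [w1] at a0 a1 <;>
        simp [Matrix.mulVec, dotProduct, Fin.sum_univ_two] at a0 a1 b0 b1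
      · have : μ l * h * (v 0 * D.t (b i) (D.e (b i) w) - v 1 * D.s (b i) (D.e (b i) w)) =
            r l 0 * D.t (b j) (D.e (b j) w) - r l 1 * D.s (b j) (D.e (b j) w) := by
          linear_combination (μ l * v 0) * a1 - (μ l * v 1) * a0 +
            (g.1 1 0 * D.s (b j) (D.e (b j) w) + g.1 1 1 * D.t (b j) (D.e (b j) w)) * b0 -
            (g.1 0 0 * D.s (b j) (D.e (b j) w) + g.1 0 1 * D.t (b j) (D.e (b j) w)) * b1 +
            (r l 0 * D.t (b j) (D.e (b j) w) - r l 1 * D.s (b j) (D.e (b j) w)) * q4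
        rw [← this]
        ring
      · have : -(μ l * h * (v 0 * D.t (b i) (D.e (b i) w) - v 1 * D.s (b i) (D.e (b i) w))) =
            r l 0 * D.t (b j) (D.e (b j) w) - r l 1 * D.s (b j) (D.e (b j) w) := by
          linear_combination -(μ l * v 0) * a1 + (μ l * v 1) * a0 +
            (g.1 1 0 * D.s (b j) (D.e (b j) w) + g.1 1 1 * D.t (b j) (D.e (b j) w)) * b0 -
            (g.1 0 0 * D.s (b j) (D.e (b j) w) + g.1 0 1 * D.t (b j) (D.e (b j) w)) * b1 +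
            (r l 0 * D.t (b j) (D.e (b j) w) - r l 1 * D.s (b j) (D.e (b j) w)) * q4
        rw [← this]
        ring)
  exact ⟨_, Nat.mul_pos ((ncard_pos (hf _)).2 (hne _)) m0, s, s1, s2⟩

/-- A finite orbit of a group that contains the monodromy gives a pluricanonical form. -/
theorem elemG93 (M : Mf n) [M.Cpt]
    (hT : ∀ (ι : Type) (O : ι → Set M.X) (c : ι → ι → M.X → ℂ), (∀ a, IsOpen (O a)) →
      (∀ x, ∃ a, x ∈ O a) →
      (∀ a b x, x ∈ O a → x ∈ O b → c a b x ≠ 0 ∧ ∀ᶠ y in 𝓝 x, c a b y = c a b x) →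
      (∀ a b d x, x ∈ O a → x ∈ O b → x ∈ O d → c a b x * c b d x = c a d x) →
      ∃ m, 0 < m ∧ ∃ u : ι → M.X → ℂ,
        (∀ a, ∀ x ∈ O a, u a x ≠ 0 ∧ ∀ᶠ y in 𝓝 x, u a y = u a x) ∧
        ∀ a b x, x ∈ O a → x ∈ O b → c a b x ^ m * u a x = u b x)
    {α : M.Fam (E n)} (D : Dev M α) (hα : Den M α) {ι : Type} (b : ι → M.X) (U : ι → Set M.X)
    (hU : ∀ i, IsOpen (U i) ∧ U i ⊆ D.O (b i)) (hc : ∀ x, ∃ i, x ∈ U i)
    (Γ : Subgroup SL(2, ℂ)) (g : ι → SL(2, ℂ))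
    (hg : ∀ i j x, x ∈ U i → x ∈ U j → g i * D.c (b i) (b j) x * (g j)⁻¹ ∈ Γ ∨
      -(g i * D.c (b i) (b j) x * (g j)⁻¹) ∈ Γ) (v : Fin 2 → ℂ) (hv : v ≠ 0)
    (hf : ((fun γ : SL(2, ℂ) => Submodule.span ℂ {γ.1 *ᵥ v}) '' Γ).Finite) :
    ∃ m, 0 < m ∧ ∃ s, M.HSec m s ∧ ¬Zr M s := by
  have mp : ∀ (k : SL(2, ℂ)) (w : Fin 2 → ℂ), (Submodule.span ℂ {w}).map (Matrix.mulVecLin k.1) =
      Submodule.span ℂ {k.1 *ᵥ w} := fun k w => by
    rw [Submodule.map_span, image_singleton]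
    rfl
  refine elem93 M hT D hα b U hU hc (fun i => (fun l => l.map (Matrix.mulVecLin ((g i)⁻¹).1)) ''
    ((fun γ : SL(2, ℂ) => Submodule.span ℂ {γ.1 *ᵥ v}) '' Γ)) (fun i => hf.image _)
    (fun i => ⟨_, _, ⟨1, Γ.one_mem, rfl⟩, rfl⟩) ?_ ?_
  · rintro i _ ⟨_, ⟨γ, -, rfl⟩, rfl⟩
    refine ⟨_, fun c => hv ?_, mp _ _⟩
    have := congrArg ((γ⁻¹ * g i).1 *ᵥ ·) c
    simpa only [Matrix.mulVec_mulVec, ← Matrix.SpecialLinearGroup.coe_mul, mul_assoc,
      mul_inv_cancel_left, inv_mul_cancel, Matrix.SpecialLinearGroup.coe_one, Matrix.one_mulVec,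
      Matrix.mulVec_zero] using this
  · rintro i j x h1 h2 w ⟨_, ⟨γ, hγ, rfl⟩, q⟩
    rw [← mp, ← q]
    beta_reduce
    rw [mp, mp]
    rcases hg i j x h1 h2 with h | h
    · refine ⟨_, ⟨_, Γ.mul_mem h hγ, rfl⟩, ?_⟩
      beta_reduce
      rw [mp]
      simp only [Matrix.mulVec_mulVec, ← Matrix.SpecialLinearGroup.coe_mul, mul_assoc,
        inv_mul_cancel_left]
    · refine ⟨_, ⟨_, Γ.mul_mem h hγ, rfl⟩, ?_⟩
      beta_reduce
      rw [mp]
      rw [neg_mul, Matrix.SpecialLinearGroup.coe_neg, Matrix.neg_mulVec, Matrix.mulVec_neg,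
        ← Set.neg_singleton, Submodule.span_neg]
      simp only [Matrix.mulVec_mulVec, ← Matrix.SpecialLinearGroup.coe_mul, mul_assoc,
        inv_mul_cancel_left]

end Pool.Agent.Lib.F4G
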