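import Mathlib

/-! Project f4g: the comparison of the two ends of a link. -/

open scoped Topology ENNReal NNReal
open Set Filter MeasureTheory Metric

noncomputable section

namespace Pool.Agent.Lib.F4G

/-- Distortion of the area under an injective holomorphic map. -/
theorem dist39 {O : Set ℂ} (hO : IsOpen O) {m m' : ℂ → ℂ} {L : ℝ}
    (hm : ∀ w ∈ O, HasDerivAt m (m' w) w) (hi : InjOn m O) (hL : ∀ w ∈ O, 1 ≤ L * ‖m' w‖)
    (Y : Set ℂ) : volume {w ∈ O | m w ∈ Y} ≤ ENNReal.ofReal (L ^ 2) * volume Y := by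
  have hc : ContinuousOn m O := fun w hw => (hm w hw).continuousAt.continuousWithinAt
  have ms : MeasurableSet (O ∩ m ⁻¹' toMeasurable volume Y) := by
    have := hO.measurableSet.subtype_image
      (hc.domRestrict.measurable (measurableSet_toMeasurable volume Y))
    have e : O ∩ m ⁻¹' toMeasurable volume Y =
        Subtype.val '' (O.domRestrict m ⁻¹' toMeasurable volume Y) := by
      ext w
      simp [and_comm]
    rwa [e]
  have h := lintegral_abs_det_fderiv_eq_addHaar_image volume ms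
    (f' := fun w => ContinuousLinearMap.mul ℝ ℂ (m' w)) (fun w hw => by
      refine (((hm w hw.1).hasFDerivAt.restrictScalars ℝ).congr_fderiv ?_).hasFDerivWithinAt
      ext <;> simp [mul_comm]) (hi.mono inter_subset_left)
  calc _ ≤ volume (O ∩ m ⁻¹' toMeasurable volume Y) :=
        measure_mono fun w hw => ⟨hw.1, subset_toMeasurable _ _ hw.2⟩
    _ = ∫⁻ _ in O ∩ m ⁻¹' toMeasurable volume Y, 1 := by simp
    _ ≤ ∫⁻ w in O ∩ m ⁻¹' toMeasurable volume Y, ENNReal.ofReal (L ^ 2) *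
          ENNReal.ofReal |(ContinuousLinearMap.mul ℝ ℂ (m' w)).det| := by
        refine setLIntegral_mono' ms fun w hw => ?_
        have e : (ContinuousLinearMap.mul ℝ ℂ (m' w)).det = ‖m' w‖ ^ 2 := by
          rw [← Complex.normSq_eq_norm_sq, ← Algebra.norm_complex_apply, Algebra.norm_apply]
          rfl
        rw [e, ← ENNReal.ofReal_mul (sq_nonneg _), abs_of_nonneg (sq_nonneg _), ← mul_pow,
          ENNReal.one_le_ofReal]
        exact one_le_pow₀ (hL w hw.1)
    _ ≤ _ := by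
        rw [lintegral_const_mul' _ _ ENNReal.ofReal_ne_top, h,
          ← measure_toMeasurable (μ := volume) Y]
        exact mul_le_mul_right (measure_mono (image_subset_iff.2 inter_subset_right)) _

/-- The inequality of Markov for a difference. -/
theorem mark39 {X : Type} [MeasurableSpace X] (μ : Measure X) {u : X → ℝ} (hu : AEMeasurable u μ) :
    μ {x | 1 ≤ |u x|} ≤ ∫⁻ x, ‖u x‖ₑ ∂μ := by
  have h := meas_ge_le_lintegral_div (μ := μ) hu.enorm one_ne_zero ENNReal.one_ne_top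
  rw [div_one] at h
  refine le_trans (measure_mono fun x hx => ?_) h
  rw [mem_ofPred, ← ofReal_norm, ENNReal.one_le_ofReal]
  exact hx

/-- One end of a link. -/
theorem side39 {X : Type} [MeasurableSpace X] (μ : Measure X) {N Z : Set X} (hN : MeasurableSet N)
    {W : X → ℂ} {D : Set ℂ} {C : ℝ≥0∞} (hW : AEMeasurable W (μ.restrict N))
    (hC : ∀ χ : ℂ → ℝ≥0∞, Measurable χ → ∫⁻ w in D, χ w ≤ C * ∫⁻ y in N, χ (W y) ∂μ)
    {f : X → ℝ} {a : ℂ → ℝ} {m T : ℝ} (hf : AEMeasurable f (μ.restrict N)) (ha : Measurable a)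
    (h : ∀ y ∈ N, y ∉ Z → |f y - m| ≤ T) : volume {w ∈ D | T + 1 ≤ |a w - m|} ≤
      C * (μ Z + ∫⁻ y in N, ‖f y - a (W y)‖ₑ ∂μ) := by
  have ms : MeasurableSet {w | T + 1 ≤ |a w - m|} :=
    measurableSet_le measurable_const (by fun_prop)
  have h1 := hC _ (measurable_one.indicator ms)
  rw [lintegral_indicator_one ms, Measure.restrict_apply ms] at h1
  refine le_trans (measure_mono fun w hw => mem_inter hw.2 hw.1) (h1.trans (mul_le_mul_right ?_ _))
  have e : (fun y => {w | T + 1 ≤ |a w - m|}.indicator (1 : ℂ → ℝ≥0∞) (W y)) =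
      (W ⁻¹' {w | T + 1 ≤ |a w - m|}).indicator 1 := rfl
  rw [e]
  refine (lintegral_indicator_one_le _).trans ?_
  have h2 := mark39 (μ.restrict N) (hf.sub (ha.comp_aemeasurable hW))
  refine le_trans ?_ (add_le_add (Measure.restrict_le_self (s := N) Z) h2)
  refine le_trans (measure_mono_ae ?_) (measure_union_le _ _)
  filter_upwards [ae_restrict_mem hN] with y hy h3
  by_contra h4
  have h5 := h y hy fun hz => h4 (Or.inl hz)
  have h6 : |f y - a (W y)| < 1 := not_le.1 fun hz => h4 (Or.inr hz)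
  have h7 : T + 1 ≤ |a (W y) - m| := h3
  have h8 := abs_sub_le (a (W y)) (f y) m
  rw [abs_sub_comm] at h6
  linarith

/-- The two ends of a link. -/
theorem end39 {O K D' : Set ℂ} (hO : IsOpen O) (hK : MeasurableSet K) (hKO : K ⊆ O)
    {m m' : ℂ → ℂ} {L : ℝ} (hm : ∀ w ∈ O, HasDerivAt m (m' w) w) (hi : InjOn m O)
    (hL : ∀ w ∈ O, 1 ≤ L * ‖m' w‖) (hD : MapsTo m O D') {a b : ℂ → ℝ} (ha : Measurable a)
    (hb : Measurable b) {x x' T T' : ℝ} {δ δ' δ'' : ℝ≥0∞}
    (h1 : volume {w ∈ O | T ≤ |a w - x|} ≤ δ) (h2 : volume {w ∈ D' | T' ≤ |b w - x'|} ≤ δ')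
    (h3 : ∫⁻ w in K, ‖a w - b (m w)‖ₑ ≤ δ'')
    (h : δ + ENNReal.ofReal (L ^ 2) * δ' + δ'' < volume K) : |x - x'| ≤ T + T' + 1 := by
  have hc : ContinuousOn m K := fun w hw => (hm w (hKO hw)).continuousAt.continuousWithinAt
  have k2 := (dist39 hO hm hi hL _).trans (mul_le_mul_right h2 _)
  have k3 := (mark39 (volume.restrict K)
    (ha.aemeasurable.sub (hb.comp_aemeasurable (hc.aemeasurable hK)))).trans h3
  rw [Measure.restrict_apply' hK] at k3
  by_contra hn
  refine h.not_ge (le_trans (measure_mono fun w hw => ?_) (((measure_union_le _ _).trans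
    (add_le_add_left (measure_union_le _ _) _)).trans (add_le_add (add_le_add h1 k2) k3)))
  by_contra h4
  have h5 : |a w - x| < T := not_le.1 fun hz => h4 (Or.inl (Or.inl ⟨hKO hw, hz⟩))
  have h6 : |b (m w) - x'| < T' :=
    not_le.1 fun hz => h4 (Or.inl (Or.inr ⟨hKO hw, hD (hKO hw), hz⟩))
  have h7 : |a w - b (m w)| < 1 := not_le.1 fun hz => h4 (Or.inr ⟨hz, hw⟩)
  rw [abs_lt] at h5 h6 h7
  exact hn (abs_le.2 ⟨by linarith, by linarith⟩)

end Pool.Agent.Lib.F4G
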