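import Pool.Agent.Lib.F4G.Blue

/-! Project f4g: the monodromy has a finite orbit. -/

open scoped Classical Topology ContDiff ComplexOrder Matrix
open Set Filter Metric

set_option linter.unusedVariables false

noncomputable section

namespace Pool.Agent.Lib.F4G

open Pool.Agent.Lib.SV (E)
open Pool.Agent.Lib.HS32 Pool.Agent.Lib.F4

theorem fin_chain (x : ℕ → ℝ) (C : ℝ) (m : ℕ) (h : ∀ j < m, |x j - x (j + 1)| ≤ C) :
    x 0 - m * C ≤ x m := by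
  induction m with
  | zero => simp
  | succ m ih =>
    have h1 := ih fun j hj => h j (hj.trans m.lt_succ_self)
    have h2 := (abs_le.1 (h m m.lt_succ_self)).2
    push_cast
    linarith

theorem st_FIN (hA : St_ATL) (hM : My.St_MYERS) (hG : St_GRD) (hE : St_MEAN) (hQ : St_QUO)
    (hY : St_AY) : St_FIN := by
  intro n M _ H α a k B b i Γ hn hH ha hα h3 g1 g2
  by_contra hc
  push Not at hc
  let := b.fin
  obtain ⟨r, hr⟩ := hA n M α k B b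
  obtain ⟨M0, hM0⟩ := hM _ _ _ _ _ _ _ _ hr
  obtain ⟨κ, κ0, hκ⟩ := hG n
  obtain ⟨C, p, hp, hC⟩ := hE n M H α k B r κ b hH hα h3 hr
  obtain ⟨N, hN⟩ := exists_nat_gt (Real.exp (M0 * C))
  obtain ⟨T, hT, hT'⟩ := hQ b.S Γ g2 (fun v hv => hc v hv) N
  have hT1 : ∀ j, T j ∈ b.Gam i := fun j => g1 ▸ hT j
  choose u u0 u1 u2 using fun j => hM0 _ _ (hT1 j)
  have hd : ∀ q : Fin N × Fin M0, _ := fun q => hC _ _ (u2 q.1 q.2 q.2.2)
  choose δ δ0 hδ using hd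
  obtain ⟨ε, ε0, ε1, hε⟩ : ∃ ε : ℝ, 0 < ε ∧ ε ≤ 1 ∧ ∀ q, ε ≤ δ q := by
    have : ∀ᶠ ε in 𝓝[>] (0 : ℝ), 0 < ε ∧ ε ≤ 1 ∧ ∀ q, ε ≤ δ q := by
      refine (eventually_mem_nhdsWithin).and (Eventually.and ?_ (eventually_all.2 fun q => ?_))
      · exact nhdsWithin_le_nhds (eventually_le_nhds one_pos)
      · exact nhdsWithin_le_nhds (eventually_le_nhds (δ0 q))
    exact this.exists
  obtain ⟨w, w1, w2, w3, w4⟩ := hY n M H a ε hn hH ha ⟨ε0, ε1⟩
  have hO : ∀ j, IsOpen (b.O j) := fun j => (b.e j).isOpen_inter_preimage isOpen_ball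
  obtain ⟨D, hD⟩ := hκ M _ hn w3 w4 b.I b.O b.S.card hO fun x =>
    (b.cov x).imp fun j hj => ⟨hj.1.1, b.uq j hj.1.2⟩
  obtain ⟨l, hl⟩ := fin37 N (M0 * C) D hN
  obtain ⟨Q, _, _, ρ, ρ1, ρ2, ρ3⟩ := hT' l
  have hs : ∀ j d x, x ∈ b.O j → x ∈ b.O d → b.c j d x ∈ Subgroup.closure (b.S : Set PG) :=
    fun j d x hj hd => Subgroup.subset_closure (b.lc j d x hj hd).1
  obtain ⟨f, f1, f2⟩ := hD Q (b.S.image ρ) (fun j d x => ρ (b.c j d x)) Finset.card_image_le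
    (fun j d x hj hd => ⟨Finset.mem_image_of_mem _ (b.lc j d x hj hd).1,
      (b.lc j d x hj hd).2.1.mono fun y hy => by simp only [hy], fun d' hd' => by
        rw [← ρ2 _ _ (hs d d' x hd hd'), (b.lc j d x hj hd).2.2 d' hd']⟩) i _ (hp ε w i)
  refine hl Q (ρ ∘ T) (fun t => f i t (p ε w i)) ρ3 (fun t j => ?_) f1 (f2 i _ (hp ε w i)).1
  have cmp : b.Cmp (tE M H ε w) κ fun v => f v.1 (t * ρ v.2) := fun j g x hx =>
    ⟨fun d hd => by
      show f d (t * ρ (g * b.c j d x)) x = f j (t * ρ g) x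
      rw [ρ2 _ _ (hs j d x hx hd), ← mul_assoc]
      exact (f2 j x hx).2.1 d _ hd,
    ((f2 j x hx).2.2 _ _ (b.mem j) hx.1).1.of_le (by exact_mod_cast le_top),
    ((f2 j x hx).2.2 _ _ (b.mem j) hx.1).2⟩
  have := fin_chain (fun q => f (u j q).1 (t * ρ (u j q).2) (p ε w (u j q).1)) C M0
    fun q hq => hδ (j, ⟨q, hq⟩) ε w _ ε0.le (hε _) w1 w2 cmp
  simpa only [u0, u1, ρ1, mul_one, Function.comp_apply] using this

end Pool.Agent.Lib.F4G
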