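import Pool.Agent.Lib.ZK.N_BOZ
import Pool.Agent.Lib.KP21.E21

/-! Project f4g: the bound for the gradient of the iterated resolvent. -/

open scoped Classical Topology ContDiff ComplexOrder Matrix
open Set Filter

noncomputable section

namespace Pool.Agent.Lib.F4G.G47

open Pool.Agent.Lib.HS32 Pool.Agent.Lib.ZK

variable {n : ℕ} {M : Mf n} {G : M.Fam (Mat n)}

/-- The square of the trace is bounded by the norm. -/
theorem tr_sq_le (hG : M.Met G) {S : M.Fam (Mat n)} (hS : M.Form S) (x : M.X) :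
    M.tr G S x ^ 2 ≤ n * M.ip G S S x := by
  rcases Nat.eq_zero_or_pos n with rfl | hn
  · simp [Mf.tr, Matrix.trace]
  have hn' : (0 : ℝ) < n := by exact_mod_cast hn
  have h := NBOZ.ip_hs hG (hS.sub (hG.toForm.smul (M.tr G S x / n))) x
  rw [Mf.ip_sub, Mf.ip_smul, hG.ip_self, Mf.tr_sub, Mf.tr_smul, hG.tr_self, Mf.ip_comm,
    Mf.ip_sub, Mf.ip_smul, hG.ip_self] at h
  have e : M.tr G S x / n * n = M.tr G S x := div_mul_cancel₀ _ hn'.ne'
  rw [e, sub_self, mul_zero, sub_zero, sub_nonneg, div_mul_eq_mul_div, div_le_iff₀ hn'] at h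
  linarith

/-- The maximum principle. -/
theorem le_of_sub [M.Cpt] (hG : M.Met G) {w : M.X → ℝ} (hw : M.Sm w) {C : ℝ}
    (h : ∀ x, w x - M.lap G w x ≤ C) (x : M.X) : w x ≤ C := by
  obtain ⟨y, hy⟩ := hw.exists_max
  have a := ((((mLAP n M _ _ hw hw).2.2 _ hG).2.2.1 y 0).2.2.2.2.2.2.2.2.1
    (Eventually.of_forall hy)).1
  linarith [h y, hy x]

theorem lap_exp (hG : M.Met G) {f : M.X → ℝ} (hf : M.Sm f) (x : M.X) :
    M.lap G (fun y => Real.exp (f y)) x = Real.exp (f x) * (M.lap G f x + M.gr G f f x) := by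
  have h := (((mLAP n M _ _ hf hf).2.2 G hG).2.2.2.1 Real.exp
    (fun _ => Real.contDiff_exp.contDiffAt) x).1
  rw [h, Real.deriv_exp, Real.deriv_exp]
  ring

theorem gr_exp (hG : M.Met G) {f g : M.X → ℝ} (hf : M.Sm f) (hg : M.Sm g) (x : M.X) :
    M.gr G (fun y => Real.exp (f y)) g x = Real.exp (f x) * M.gr G f g x := by
  have h := (((mLAP n M _ _ hf hg).2.2 G hG).2.2.2.1 Real.exp
    (fun _ => Real.contDiff_exp.contDiffAt) x).2
  rw [h, Real.deriv_exp]

theorem gr_const (hG : M.Met G) {g : M.X → ℝ} (hg : M.Sm g) (c : ℝ) (x : M.X) :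
    M.gr G (fun _ => c) g x = 0 :=
  ((((mLAP n M _ _ (Mf.sm_const c) hg).2.2 _ hG).2.2.1 x 0).2.2.2.2.2.2.2.2.1
    (Eventually.of_forall fun _ => le_rfl)).2.1

/-- The arithmetic of the step. -/
theorem arith {N Q W p a L I : ℝ} (hN : 0 < N) (hp : 0 < p) (hL : L = 1 - Q - p)
    (hI : L ^ 2 ≤ N * I) (hB : I - Q - 2 * (p * (a - Q)) ≤ 0) (ha : a ^ 2 ≤ W * Q)
    (hQ : N + 2 < Q) : Q * (1 + 1 / (2 * N)) ^ 2 ≤ W := by
  by_contra k
  rw [not_le] at k
  set d := 1 / (2 * N) with hd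
  have d0 : 0 < d := by positivity
  have dN : N * d = 1 / 2 := by rw [hd]; field_simp
  have Q0 : 0 < Q := by linarith
  have a1 : a ≤ (1 + d) * Q := by
    refine abs_le_of_sq_le_sq' ?_ (by positivity) |>.2
    nlinarith [mul_lt_mul_of_pos_right k Q0]
  have b1 : I ≤ Q + 2 * (p * (d * Q)) := by
    nlinarith [mul_le_mul_of_nonneg_left a1 hp.le]
  have b2 : N * I ≤ N * Q + p * Q := by
    have := mul_le_mul_of_nonneg_left b1 hN.le
    have e : N * (Q + 2 * (p * (d * Q))) = N * Q + 2 * (N * d) * (p * Q) := by ring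
    rw [e, dN] at this
    linarith
  rw [hL] at hI
  have b3 : 0 ≤ p * (Q - 2) := mul_nonneg hp.le (by linarith)
  nlinarith [sq_nonneg p, mul_pos Q0 (sub_pos.2 hQ)]

/-- One step of the iteration improves the bound for the gradient of the logarithm. -/
theorem step [M.Cpt] (hn : 0 < n) (hG : M.Kae G) (hR : M.Le (-G) (M.ric G)) {f g : M.X → ℝ}
    {W : ℝ} (hf : M.Sm f) (hg : M.Sm g)
    (he : ∀ x, Real.exp (f x) - M.lap G (fun y => Real.exp (f y)) x = Real.exp (g x))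
    (hW : ∀ x, M.gr G g g x ≤ W) (x : M.X) :
    M.gr G f f x ≤ max ((n : ℝ) + 2) (W / (1 + 1 / (2 * (n : ℝ))) ^ 2) := by
  have hn' : (0 : ℝ) < n := by exact_mod_cast hn
  have hM := hG.toMet
  have hQ : M.Sm (M.gr G f f) := ((mLAP n M _ _ hf hf).2.2 G hM).2.1
  obtain ⟨y, hy⟩ := hQ.exists_max
  refine (hy x).trans ?_
  by_contra k
  rw [not_le, max_lt_iff] at k
  obtain ⟨m1, m2, -⟩ := ((((mLAP n M _ _ hQ hf).2.2 _ hM).2.2.1 y 0).2.2.2.2.2.2.2.2.1
    (Eventually.of_forall hy))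
  have hp : M.Sm fun x => Real.exp (g x - f x) := (hg.sub hf).exp
  have eL : M.lap G f = fun x => (1 - M.gr G f f x) - Real.exp (g x - f x) := by
    funext x
    have h := he x
    rw [lap_exp hM hf] at h
    have e0 := Real.exp_pos (f x)
    rw [Real.exp_sub, ← h]
    field_simp
    ring
  have hD := ((mHES n M).2.2.1 f hf).2
  have h1 := ZK26.boch n M G f hG hf y
  have h2 := NK.ip_mono hM hD hR y
  have h3 : M.ip G (M.ds f f) (-G) y = -M.gr G f f y := by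
    rw [← neg_one_smul ℝ G, Mf.ip_smul]
    rw [neg_one_mul, hM.ip_self]
    rfl
  have h4 : M.gr G (M.lap G f) f y =
      -(Real.exp (g y - f y) * (M.gr G g f y - M.gr G f f y)) := by
    rw [eL, NK.gr_sub ((Mf.sm_const 1).sub hQ) hp, NK.gr_sub (Mf.sm_const 1) hQ, gr_const hM hf,
      m2, gr_exp hM (hg.sub hf) hf, NK.gr_sub hg hf]
    ring
  have h5 := tr_sq_le hM ((mHES n M).1 f hf).toForm y
  have h6 := (((mLAP n M _ _ hg hf).2.2 _ hM).2.2.1 y 0).2.2.2.2.2.2.2.1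
  have h7 := (((mLAP n M _ _ hf hf).2.2 _ hM).2.2.1 y 0).2.2.2.2.2.2.1
  rw [Mf.ip_comm (S := M.ric G), h4] at h1
  have := arith (W := W) (a := M.gr G g f y) (I := M.ip G (M.hs f) (M.hs f) y) hn'
    (Real.exp_pos (g y - f y)) (congrFun eL y) h5 (by linarith)
    (h6.trans (mul_le_mul_of_nonneg_right (hW y) h7)) k.1
  have k2 := k.2
  rw [div_lt_iff₀ (by positivity)] at k2
  linarith

/-- The operator `A` from functions on `M` to functions on `M'` preserves smoothness and commutes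
with `1 - Δ`. -/
def Com (M M' : Mf n) (G : M.Fam (Mat n)) (G' : M'.Fam (Mat n))
    (A : (M.X → ℝ) → M'.X → ℝ) : Prop :=
  ∀ w, M.Sm w → M'.Sm (A w) ∧ ∀ x, A (fun y => w y - M.lap G w y) x = A w x - M'.lap G' (A w) x

/-- The resolvent of a positive function. -/
theorem res [M.Cpt] (hG : M.Met G) {g : M.X → ℝ} {B : ℝ} (hg : M.Sm g)
    (hB : ∀ x, -(B * Real.exp (g x)) ≤ M.lap G (fun y => Real.exp (g y)) x) :
    ∃ f, M.Sm f ∧
      (∀ x, Real.exp (f x) - M.lap G (fun y => Real.exp (f y)) x = Real.exp (g x)) ∧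
      (∀ x, Real.exp (g x) ≤ (1 + B) * Real.exp (f x)) ∧
      ∀ (M' : Mf n) [M'.Cpt] (G' : M'.Fam (Mat n)) (A : (M.X → ℝ) → M'.X → ℝ) (C : ℝ), M'.Met G' →
        Com M M' G G' A → (∀ x, A (fun y => Real.exp (g y)) x ≤ C) →
        ∀ x, A (fun y => Real.exp (f y)) x ≤ C := by
  obtain ⟨V, -⟩ := (mCOV n M).2.2.1
  obtain ⟨v, hv, ev⟩ := HS21.eLINR.ex M V G _ 1 hG hg.exp one_pos
  simp only [one_mul] at ev
  have l := fun c x => ((mLAP n M _ _ hv hv).2.2 _ hG).2.2.1 x c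
  have v0 : ∀ x, 0 < v x := by
    obtain ⟨y, hy⟩ := hv.exists_min
    have a := ((l 0 y).2.2.2.2.2.2.2.2.2 (Eventually.of_forall hy)).1
    intro x
    linarith [ev y, hy x, Real.exp_pos (g y)]
  have e : (fun y => Real.exp (Real.log (v y))) = v := funext fun y => Real.exp_log (v0 y)
  refine ⟨fun y => Real.log (v y), hv.log fun x => (v0 x).ne', fun x => ?_, fun x => ?_,
    fun M' _ G' A C hG' hA hC x => ?_⟩
  · rw [e, Real.exp_log (v0 x), ev]
  · have h1 := hv.const_mul (1 + B)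
    have := le_of_sub hG (hg.exp.sub h1) (C := 0) (fun y => by
      rw [(((mLAP n M _ _ hg.exp h1).2.2 _ hG).2.2.1 y 0).2.2.1, (l (1 + B) y).2.2.2.1]
      have := hB y
      rw [← ev y] at this ⊢
      linarith) x
    rw [Real.exp_log (v0 x)]
    linarith
  · rw [e]
    refine le_of_sub hG' (hA v hv).1 (fun y => ?_) x
    rw [← (hA v hv).2, funext ev]
    exact hC y

/-- The iteration. -/
theorem iter [M.Cpt] (hn : 0 < n) (hG : M.Kae G) (hR : M.Le (-G) (M.ric G)) {g : M.X → ℝ}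
    {W B : ℝ} (hg : M.Sm g) (B0 : 0 ≤ B) (hW : ∀ x, M.gr G g g x ≤ W)
    (hB : ∀ x, -(B * Real.exp (g x)) ≤ M.lap G (fun y => Real.exp (g y)) x) (j : ℕ) :
    ∃ f, M.Sm f ∧
      (∀ x, M.gr G f f x ≤ max ((n : ℝ) + 2) (W / ((1 + 1 / (2 * (n : ℝ))) ^ 2) ^ j)) ∧
      (∀ x, -(B * Real.exp (f x)) ≤ M.lap G (fun y => Real.exp (f y)) x) ∧
      (∀ x, Real.exp (g x) ≤ (1 + B) ^ j * Real.exp (f x)) ∧
      ∀ (M' : Mf n) [M'.Cpt] (G' : M'.Fam (Mat n)) (A : (M.X → ℝ) → M'.X → ℝ) (C : ℝ), M'.Met G' →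
        Com M M' G G' A → (∀ x, A (fun y => Real.exp (g y)) x ≤ C) →
        ∀ x, A (fun y => Real.exp (f y)) x ≤ C := by
  have hn' : (0 : ℝ) < n := by exact_mod_cast hn
  induction j with
  | zero => exact ⟨g, hg, fun x => le_max_of_le_right (by simpa using hW x), hB,
      fun x => by simp, fun _ _ _ _ _ _ _ h => h⟩
  | succ j ih =>
    obtain ⟨f, hf, f1, f2, f3, f4⟩ := ih
    obtain ⟨f', hf', g1, g2, g3⟩ := res hG.toMet hf f2
    refine ⟨f', hf', fun x => (step hn hG hR hf' hf g1 f1 x).trans ?_, fun x => ?_, fun x => ?_,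
      fun M' _ G' A C hG' hA hC => g3 M' G' A C hG' hA (f4 M' G' A C hG' hA hC)⟩
    · have q1 : (1 : ℝ) ≤ (1 + 1 / (2 * (n : ℝ))) ^ 2 :=
        one_le_pow₀ (le_add_of_nonneg_right (by positivity))
      refine max_le (le_max_left _ _) ?_
      rw [← max_div_div_right (zero_le_one.trans q1), div_div, ← pow_succ]
      exact max_le_max (div_le_self (by positivity) q1) le_rfl
    · linarith [g1 x, g2 x]
    · rw [pow_succ, mul_assoc]
      exact (f3 x).trans (mul_le_mul_of_nonneg_left (g2 x) (by positivity))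

end Pool.Agent.Lib.F4G.G47

namespace Pool.Agent.Lib.F4G

open Pool.Agent.Lib.HS32

/-- The bound for the gradient: constants depend only on the dimension and on `W`, `B`. -/
theorem grad47 (n : ℕ) (hn : 0 < n) (W B : ℝ) (B0 : 0 ≤ B) : ∃ c : ℝ, 0 ≤ c ∧
    ∀ (M : Mf n) [M.Cpt] (G : M.Fam (Mat n)) (u : M.X → ℝ), M.Kae G → M.Le (-G) (M.ric G) →
      M.Sm u → (∀ x, 0 < u x) → (∀ x, M.gr G u u x ≤ W * u x ^ 2) →
      (∀ x, -(B * u x) ≤ M.lap G u x) →
      ∃ f, M.Sm f ∧ (∀ x, M.gr G f f x ≤ (n : ℝ) + 2) ∧ (∀ x, Real.log (u x) - c ≤ f x) ∧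
        ∀ (M' : Mf n) [M'.Cpt] (G' : M'.Fam (Mat n)) (A : (M.X → ℝ) → M'.X → ℝ) (C : ℝ),
          M'.Met G' → G47.Com M M' G G' A → (∀ x, A u x ≤ C) →
          ∀ x, A (fun y => Real.exp (f y)) x ≤ C := by
  have hn' : (0 : ℝ) < n := by exact_mod_cast hn
  have q1 : (1 : ℝ) < (1 + 1 / (2 * (n : ℝ))) ^ 2 :=
    one_lt_pow₀ (lt_add_of_pos_right _ (by positivity)) two_ne_zero
  obtain ⟨j, hj⟩ := pow_unbounded_of_one_lt W q1
  refine ⟨j * Real.log (1 + B), mul_nonneg j.cast_nonneg (Real.log_nonneg (by linarith)),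
    fun M _ G u hG hR hu u0 hW hB => ?_⟩
  have e : (fun y => Real.exp (Real.log (u y))) = u := funext fun y => Real.exp_log (u0 y)
  have hg := hu.log fun x => (u0 x).ne'
  obtain ⟨f, hf, f1, -, f3, f4⟩ := G47.iter hn hG hR (W := W) hg B0 (fun x => by
    have a := G47.gr_exp hG.toMet hg hu x
    have b := G47.gr_exp hG.toMet hg hg x
    rw [e, Real.exp_log (u0 x)] at a b
    rw [(((mLAP n M _ _ hg hu).2.2 _ hG.toMet).2.2.1 x 0).2.2.2.2.2.1, b] at a
    have := hW x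
    rw [a] at this
    have p := pow_pos (u0 x) 2
    by_contra k
    nlinarith [mul_lt_mul_of_pos_right (not_le.1 k) p])
    (fun x => by rw [e, Real.exp_log (u0 x)]; exact hB x) j
  refine ⟨f, hf, fun x => (f1 x).trans (max_le le_rfl ?_), fun x => ?_,
    fun M' _ G' A C hG' hA hC => f4 M' G' A C hG' hA fun x => by rw [e]; exact hC x⟩
  · rw [div_le_iff₀ (by positivity)]
    nlinarith [pow_pos (zero_lt_one.trans q1) j]
  · have := Real.log_le_log (Real.exp_pos _) (f3 x)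
    rw [Real.log_exp, Real.log_mul (by positivity) (Real.exp_pos _).ne', Real.log_pow,
      Real.log_exp] at this
    linarith

end Pool.Agent.Lib.F4G
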