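import Mathlib

/-! Project f4g: a subgroup of a finitely generated subgroup of `SL(2, ℂ)` without finite orbit on the
projective line has an element with an eigenvalue that is not a root of unity. -/

open scoped Matrix MatrixGroups

namespace Pool.Agent.Lib.F4G

namespace U76

theorem jac : IsJacobsonRing ℤ := by
  refine isJacobsonRing_iff_prime_eq.2 fun P hP => ?_
  by_cases h : P = ⊥
  · subst h
    refine le_bot_iff.1 fun x hx => ?_
    have := Int.isUnit_iff.1 (Ideal.mem_jacobson_bot.1 hx x)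
    exact mul_self_eq_zero.1 (by rcases this with h | h <;> nlinarith [mul_self_nonneg x])
  · have := Ring.DimensionLEOne.maximalOfPrime h hP
    exact Ideal.jacobson_eq_self_of_isMaximal

theorem fin (K : Type) [Field K] [i : Algebra ℤ K] [Algebra.FiniteType ℤ K] : Finite K := by
  obtain rfl : i = Ring.toIntAlgebra K := Subsingleton.elim _ _
  have := jac
  have := finite_of_finite_type_of_isJacobsonRing ℤ K
  by_cases h : Function.Injective (algebraMap ℤ K)
  · exact absurd (isField_of_isIntegral_of_isField h (Field.toIsField K)) Int.not_isField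
  · rw [injective_iff_map_eq_zero] at h
    push Not at h
    obtain ⟨p, h1, h2⟩ := h
    exact Module.finite_of_fg_torsion K fun x => ⟨⟨p, mem_nonZeroDivisors_of_ne_zero h2⟩, by
      change p • x = 0
      rw [Algebra.smul_def, h1, zero_mul]⟩

/-- A finite residue field in which a given element survives. -/
theorem res (A : Type) [CommRing A] [IsDomain A] [Algebra ℤ A] [Algebra.FiniteType ℤ A] {a : A}
    (ha : a ≠ 0) : ∃ (k : Type) (_ : Field k) (_ : Finite k) (f : A →+* k), f a ≠ 0 := by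
  have := jac
  have : IsJacobsonRing A := isJacobsonRing_of_finiteType (A := ℤ)
  obtain ⟨m, hm, h4⟩ : ∃ m : Ideal A, m.IsMaximal ∧ a ∉ m := by
    by_contra h
    push Not at h
    refine ha (Ideal.mem_bot.1 ?_)
    rw [← isJacobsonRing_iff_prime_eq.1 this ⊥ Ideal.isPrime_bot]
    exact Ideal.mem_sInf.2 fun m hm => h m hm.2
  let _ := Ideal.Quotient.field m
  exact ⟨A ⧸ m, inferInstance, fin (A ⧸ m), Ideal.Quotient.mk m,
    fun h => h4 (Ideal.Quotient.eq_zero_iff_mem.1 h)⟩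

theorem root {A k : Type} [CommRing A] [IsDomain A] [Field k] (f : A →+* k)
    {g : Matrix (Fin 2) (Fin 2) A} (hg : f.mapMatrix g = 1) {n : ℕ} (hn : (n : k) ≠ 0)
    (h : (g ^ n - 1).det = 0) : (g - 1).det = 0 := by
  rw [← geom_sum_mul, Matrix.det_mul] at h
  refine (mul_eq_zero.1 h).resolve_left fun c => ?_
  have := congrArg f c
  rw [RingHom.map_det, map_sum, map_zero] at this
  simp only [map_pow, hg, one_pow, Finset.sum_const, Finset.card_range] at this
  rw [← Nat.cast_smul_eq_nsmul k, Matrix.det_smul, Matrix.det_one, mul_one] at this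
  exact pow_ne_zero _ hn this

theorem line {N : Matrix (Fin 2) (Fin 2) ℂ} (h0 : N ≠ 0) (ht : N.trace = 0) (hd : N.det = 0) :
    ∃ v : Fin 2 → ℂ, v ≠ 0 ∧ ∀ g : Matrix (Fin 2) (Fin 2) ℂ, (N * g).trace = 0 →
      ∃ c : ℂ, g *ᵥ v = c • v := by
  rw [Matrix.trace_fin_two] at ht
  rw [Matrix.det_fin_two] at hd
  have e : N 1 1 = -N 0 0 := by linear_combination ht
  by_cases hc : N 1 0 = 0
  · have a : N 0 0 = 0 := by
      rw [e, hc] at hd
      exact mul_self_eq_zero.1 (by linear_combination -hd)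
    have b : N 0 1 ≠ 0 := fun b => h0 (by
      ext i j
      fin_cases i <;> fin_cases j <;> simp [a, b, hc, e])
    refine ⟨![1, 0], fun c => one_ne_zero (congrFun c 0), fun g hg => ⟨g 0 0, ?_⟩⟩
    simp only [Matrix.trace_fin_two, Matrix.mul_apply, Fin.sum_univ_two, a, hc, e] at hg
    have : g 1 0 = 0 := (mul_eq_zero.1 (by linear_combination hg : N 0 1 * g 1 0 = 0)).resolve_left b
    ext i
    fin_cases i <;> simp [Matrix.mulVec, dotProduct, this]
  · refine ⟨![N 0 0, N 1 0], fun c => hc (congrFun c 1), fun g hg =>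
      ⟨(g 1 0 * N 0 0 + g 1 1 * N 1 0) / N 1 0, ?_⟩⟩
    simp only [Matrix.trace_fin_two, Matrix.mul_apply, Fin.sum_univ_two, e] at hg
    rw [e] at hd
    ext i
    fin_cases i
    · simp only [Matrix.mulVec, dotProduct, Fin.sum_univ_two, Fin.zero_eta, Matrix.cons_val_zero,
        Matrix.cons_val_one, Pi.smul_apply, smul_eq_mul]
      field_simp
      linear_combination N 1 0 * hg + g 1 0 * hd
    · simp only [Matrix.mulVec, dotProduct, Fin.sum_univ_two, Fin.mk_one, Matrix.cons_val_zero,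
        Matrix.cons_val_one, Pi.smul_apply, smul_eq_mul]
      field_simp

theorem tr {g : Matrix (Fin 2) (Fin 2) ℂ} (h1 : g.det = 1) (h : (g - 1).det = 0) :
    g.trace = 2 := by
  rw [Matrix.det_fin_two] at h1 h
  simp only [Matrix.sub_apply, Matrix.one_apply_eq, Matrix.one_apply_ne (zero_ne_one),
    Matrix.one_apply_ne (one_ne_zero)] at h
  rw [Matrix.trace_fin_two]
  linear_combination h1 - h

end U76

open U76 in
theorem uni76 (S : Finset SL(2, ℂ)) (Γ : Subgroup SL(2, ℂ))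
    (hS : Γ ≤ Subgroup.closure (S : Set SL(2, ℂ))) (h : ∀ v : Fin 2 → ℂ, v ≠ 0 →
    ¬((fun g : SL(2, ℂ) => Submodule.span ℂ {g.1 *ᵥ v}) '' (Γ : Set SL(2, ℂ))).Finite) :
    ∃ g ∈ Γ, ∃ (l : ℂ) (v : Fin 2 → ℂ), v ≠ 0 ∧
      g.1 *ᵥ v = l • v ∧ ∀ m, 0 < m → l ^ m ≠ 1 := by
  by_contra hn
  push Not at hn
  have hT := Set.finite_range fun p : S × Fin 2 × Fin 2 => p.1.1.1 p.2.1 p.2.2
  set A := Algebra.adjoin ℤ (Set.range fun p : S × Fin 2 × Fin 2 => p.1.1.1 p.2.1 p.2.2) with hA
  have : Algebra.FiniteType ℤ A := .adjoin_of_finite hT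
  have h1 : ∀ x ∈ Subgroup.closure (S : Set SL(2, ℂ)), ∀ i j, x.1 i j ∈ A := by
    intro x hx
    induction hx using Subgroup.closure_induction with
    | mem x hx => exact fun i j => Algebra.subset_adjoin ⟨⟨⟨x, hx⟩, i, j⟩, rfl⟩
    | one =>
      intro i j
      rw [Matrix.SpecialLinearGroup.coe_one, Matrix.one_apply]
      split_ifs
      exacts [A.one_mem, A.zero_mem]
    | mul x y _ _ hx hy =>
      intro i j
      rw [Matrix.SpecialLinearGroup.coe_mul, Matrix.mul_apply]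
      exact A.sum_mem fun k _ => A.mul_mem (hx i k) (hy k j)
    | inv x _ hx =>
      intro i j
      rw [Matrix.SpecialLinearGroup.coe_inv, Matrix.adjugate_fin_two]
      fin_cases i <;> fin_cases j
      exacts [hx 1 1, A.neg_mem (hx 0 1), A.neg_mem (hx 1 0), hx 0 0]
  let ι := A.val.toRingHom.mapMatrix (m := Fin 2)
  have h2 : Function.Injective ι := Matrix.map_injective Subtype.val_injective
  obtain ⟨φ₀, h0⟩ : ∃ φ₀ : Γ → Matrix (Fin 2) (Fin 2) A, ∀ x, ι (φ₀ x) = x.1.1 :=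
    ⟨fun x => Matrix.of fun i j => ⟨x.1.1 i j, h1 x.1 (hS x.2) i j⟩, fun x => rfl⟩
  obtain ⟨φ, hφ⟩ : ∃ φ : Γ →* Matrix (Fin 2) (Fin 2) A, ∀ x, ι (φ x) = x.1.1 :=
    ⟨{ toFun := φ₀
       map_one' := h2 (by rw [h0, map_one]; rfl)
       map_mul' := fun x y => h2 (by rw [map_mul, h0, h0, h0]; rfl) }, h0⟩
  have hd : ∀ B : Matrix (Fin 2) (Fin 2) A, B.det = 0 ↔ (ι B).det = 0 := fun B => by
    rw [← RingHom.map_det]
    exact (map_eq_zero_iff _ Subtype.val_injective).symm
  obtain ⟨k, _, _, f, -⟩ := res A one_ne_zero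
  obtain ⟨p, hp⟩ := CharP.exists k
  have pp := CharP.char_is_prime k p
  obtain ⟨k', _, _, f', hf'⟩ := res A (a := p) (Nat.cast_ne_zero.2 pp.ne_zero)
  rw [map_natCast] at hf'
  let ψ := (f.mapMatrix.toMonoidHom.comp φ).prod (f'.mapMatrix.toMonoidHom.comp φ)
  have t2 : ∀ x : Γ, ψ x = 1 → x.1.1.trace = 2 := fun x hx => by
    obtain ⟨l, hl⟩ := Module.End.exists_eigenvalue (Matrix.toLin' x.1.1)
    obtain ⟨v, v1, v0⟩ := hl.exists_hasEigenvector
    have e : x.1.1 *ᵥ v = l • v := Module.End.mem_eigenspace_iff.1 v1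
    obtain ⟨m, m0, hm⟩ := hn x.1 x.2 l v v0 e
    have e' : ∀ j : ℕ, (x.1.1 ^ j) *ᵥ v = l ^ j • v := fun j => by
      induction j with
      | zero => simp
      | succ j ih => rw [pow_succ, ← Matrix.mulVec_mulVec, e, Matrix.mulVec_smul, ih, smul_smul,
          pow_succ']
    obtain ⟨a, b, hb, rfl⟩ := Nat.exists_eq_pow_mul_and_not_dvd m0.ne' p pp.one_lt.ne'
    have x1 : f.mapMatrix (φ x) = 1 := congrArg Prod.fst hx
    have x2 : f'.mapMatrix (φ x) = 1 := congrArg Prod.snd hx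
    refine tr x.1.2 ?_
    have := root f' x2 (n := p ^ a) (by rw [Nat.cast_pow]; exact pow_ne_zero _ hf')
      (root f (g := φ x ^ p ^ a) (by rw [map_pow, x1, one_pow]) (n := b)
        (fun c => hb ((CharP.cast_eq_zero_iff k p b).1 c)) ((hd _).2 (by
          rw [← pow_mul, map_sub, map_pow, map_one, hφ]
          exact Matrix.exists_mulVec_eq_zero_iff.1 ⟨v, v0, by
            rw [Matrix.sub_mulVec, e', hm, one_smul, Matrix.one_mulVec, sub_self]⟩)))
    rwa [hd, map_sub, map_one, hφ] at this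
  obtain ⟨v, v0, hv⟩ : ∃ v : Fin 2 → ℂ, v ≠ 0 ∧ ∀ x : Γ, ψ x = 1 → ∃ c : ℂ, x.1.1 *ᵥ v = c • v := by
    by_cases c : ∃ u : Γ, ψ u = 1 ∧ u.1.1 - 1 ≠ 0
    · obtain ⟨u, u1, u2⟩ := c
      have tu := t2 u u1
      obtain ⟨v, v0, hv⟩ := line u2 (by rw [Matrix.trace_sub, tu]; simp) (by
        have := u.1.2
        rw [Matrix.trace_fin_two] at tu
        rw [Matrix.det_fin_two] at this ⊢
        simp only [Matrix.sub_apply, Matrix.one_apply_eq, Matrix.one_apply_ne (zero_ne_one),
          Matrix.one_apply_ne (one_ne_zero)]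
        linear_combination this - tu)
      refine ⟨v, v0, fun x hx => hv _ ?_⟩
      have := t2 (u * x) (by rw [map_mul, u1, hx, one_mul])
      rw [Matrix.sub_mul, Matrix.one_mul, Matrix.trace_sub, t2 x hx, sub_eq_zero]
      exact this
    · push Not at c
      exact ⟨![1, 0], fun c => one_ne_zero (congrFun c 0), fun x hx =>
        ⟨1, by rw [sub_eq_zero.1 (c x hx), Matrix.one_mulVec, one_smul]⟩⟩
  have ft : Function.FactorsThrough (fun g : Γ => Submodule.span ℂ {g.1.1 *ᵥ v}) ψ := by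
    intro x y hxy
    obtain ⟨c, hc⟩ := hv (y⁻¹ * x) (by rw [map_mul, hxy, ← map_mul, inv_mul_cancel, map_one])
    have e : x.1.1 *ᵥ v = c • y.1.1 *ᵥ v := by
      rw [← Matrix.mulVec_smul, ← hc, Matrix.mulVec_mulVec, ← Matrix.SpecialLinearGroup.coe_mul]
      simp
    have c0 : c ≠ 0 := fun c0 => by
      rw [c0, zero_smul] at e
      exact one_ne_zero (x.1.2.symm.trans (Matrix.exists_mulVec_eq_zero_iff.1 ⟨v, v0, e⟩))
    beta_reduce
    rw [e, Submodule.span_singleton_smul_eq c0.isUnit]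
  obtain ⟨E, hE⟩ := (Function.factorsThrough_iff _).1 ft
  refine h v v0 ((Set.finite_range E).subset ?_)
  rintro _ ⟨g, hg, rfl⟩
  exact ⟨ψ ⟨g, hg⟩, (congrFun hE ⟨g, hg⟩).symm⟩

end Pool.Agent.Lib.F4G
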