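import Pool.Agent.Lib.F4G.GrpAsm
import Pool.Agent.Lib.F4G.GrpUNI

namespace Pool.Agent.Lib.F4G

open Matrix
open scoped MatrixGroups

theorem st_GRP (S : Finset SL(2, ℂ)) (Γ : Subgroup SL(2, ℂ))
    (hS : Γ ≤ Subgroup.closure (S : Set SL(2, ℂ)))
    (h : ∀ v : Fin 2 → ℂ, v ≠ 0 →
      ¬ ((fun g : SL(2, ℂ) => Submodule.span ℂ {g.1 *ᵥ v}) '' Γ).Finite) (N : ℕ) :
    ∃ T : Fin N → SL(2, ℂ), (∀ i, T i ∈ Γ) ∧ ∀ k : ℕ,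
      ∃ (Q : Type) (_ : Group Q) (_ : Finite Q) (ρ : Subgroup.closure (S : Set SL(2, ℂ)) →* Q),
        (∀ x, x.1 = -1 → ρ x = 1) ∧ ∀ (w w' : Fin k → Fin N)
          (x x' : Subgroup.closure (S : Set SL(2, ℂ))), x.1 = (List.ofFn (T ∘ w)).prod →
          x'.1 = (List.ofFn (T ∘ w')).prod → ρ x = ρ x' → w = w' :=
  G78.grp_of S Γ hS h (uni76 S Γ hS h) N

end Pool.Agent.Lib.F4G
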