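import Mathlib

namespace Pool.Agent.Lib.F4G.G78

theorem jacobson_int : IsJacobsonRing ℤ := by
  refine isJacobsonRing_iff_prime_eq.2 fun P hP => ?_
  by_cases h : P = ⊥
  · subst h
    refine le_bot_iff.1 fun x hx => ?_
    have := Int.isUnit_iff.1 (Ideal.mem_jacobson_bot.1 hx x)
    exact mul_self_eq_zero.1 (by rcases this with h | h <;> nlinarith [mul_self_nonneg x])
  · have := Ring.DimensionLEOne.maximalOfPrime h hP
    exact Ideal.jacobson_eq_self_of_isMaximal

theorem finite_field (K : Type) [Field K] [i : Algebra ℤ K] [Algebra.FiniteType ℤ K] :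
    Finite K := by
  obtain rfl : i = Ring.toIntAlgebra K := Subsingleton.elim _ _
  have := jacobson_int
  have := finite_of_finite_type_of_isJacobsonRing ℤ K
  by_cases h : Function.Injective (algebraMap ℤ K)
  · exact absurd (isField_of_isIntegral_of_isField h (Field.toIsField K)) Int.not_isField
  · rw [injective_iff_map_eq_zero] at h
    push Not at h
    obtain ⟨p, h1, h2⟩ := h
    exact Module.finite_of_fg_torsion K fun x => ⟨⟨p, mem_nonZeroDivisors_of_ne_zero h2⟩, by
      change p • x = 0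
      rw [Algebra.smul_def, h1, zero_mul]⟩

theorem malcev {G : Type} [Group G] (hG : Group.FG G) {n : Type} [Fintype n] [DecidableEq n]
    (ψ : G →* Matrix n n ℂ) {ι : Type} [Finite ι] (g : ι → G) (hg : ∀ a, ψ (g a) ≠ 1) :
    ∃ (Q : Type) (_ : Group Q) (_ : Finite Q) (ρ : G →* Q),
      (∀ x, ψ x = 1 → ρ x = 1) ∧ ∀ a, ρ (g a) ≠ 1 := by
  classical
  have := Fintype.ofFinite ι
  obtain ⟨S, hS, hS'⟩ := Monoid.fg_iff.1 (Group.fg_iff_monoid_fg.1 hG)
  have := hS'.to_subtype
  have hT := Set.finite_range fun p : S × n × n => ψ p.1 p.2.1 p.2.2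
  set A := Algebra.adjoin ℤ (Set.range fun p : S × n × n => ψ p.1 p.2.1 p.2.2) with hA
  have : Algebra.FiniteType ℤ A := .adjoin_of_finite hT
  have h1 : ∀ x i j, ψ x i j ∈ A := by
    intro x
    have hx : x ∈ Submonoid.closure S := hS ▸ Submonoid.mem_top x
    induction hx using Submonoid.closure_induction with
    | mem x hx => exact fun i j => Algebra.subset_adjoin ⟨⟨⟨x, hx⟩, i, j⟩, rfl⟩
    | one =>
      intro i j
      rw [map_one, Matrix.one_apply]
      split_ifs
      exacts [A.one_mem, A.zero_mem]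
    | mul x y _ _ hx hy =>
      intro i j
      rw [map_mul, Matrix.mul_apply]
      exact A.sum_mem fun k _ => A.mul_mem (hx i k) (hy k j)
  have h2 : Function.Injective (A.val.toRingHom.mapMatrix (m := n)) :=
    Matrix.map_injective Subtype.val_injective
  let φ : G →* Matrix n n A :=
    { toFun := fun x => Matrix.of fun i j => ⟨ψ x i j, h1 x i j⟩
      map_one' := h2 ((map_one ψ).trans (map_one _).symm)
      map_mul' := fun x y => h2 ((map_mul ψ x y).trans (map_mul A.val.toRingHom.mapMatrix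
        (Matrix.of fun i j => ⟨ψ x i j, h1 x i j⟩)
        (Matrix.of fun i j => ⟨ψ y i j, h1 y i j⟩)).symm) }
  have h3 : ∀ a, ∃ i j, (φ (g a) - 1) i j ≠ 0 := by
    intro a
    by_contra h
    push Not at h
    exact hg a ((congrArg A.val.toRingHom.mapMatrix
      (sub_eq_zero.1 (Matrix.ext h))).trans (map_one _))
  choose i j h3 using h3
  have h6 : ∏ a, (φ (g a) - 1) (i a) (j a) ≠ 0 := Finset.prod_ne_zero_iff.2 fun a _ => h3 a
  have := jacobson_int
  have : IsJacobsonRing A := isJacobsonRing_of_finiteType (A := ℤ)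
  obtain ⟨m, hm, h4⟩ : ∃ m : Ideal A, m.IsMaximal ∧ ∏ a, (φ (g a) - 1) (i a) (j a) ∉ m := by
    by_contra h
    push Not at h
    refine h6 (Ideal.mem_bot.1 ?_)
    rw [← isJacobsonRing_iff_prime_eq.1 this ⊥ Ideal.isPrime_bot]
    exact Ideal.mem_sInf.2 fun m hm => h m hm.2
  let _ := Ideal.Quotient.field m
  have := finite_field (A ⧸ m)
  refine ⟨(Matrix n n (A ⧸ m))ˣ, inferInstance, inferInstance,
    ((Ideal.Quotient.mk m).mapMatrix.toMonoidHom.comp φ).toHomUnits, fun x hx => ?_,
    fun a h => h4 ?_⟩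
  · have e : φ x = 1 := h2 (hx.trans (map_one _).symm)
    refine Units.ext ?_
    change (Ideal.Quotient.mk m).mapMatrix (φ x) = 1
    rw [e, map_one]
  · have h5 : (Ideal.Quotient.mk m).mapMatrix (φ (g a) - 1) = 0 := by
      rw [map_sub, map_one, sub_eq_zero]
      exact congrArg Units.val h
    have h7 : (φ (g a) - 1) (i a) (j a) ∈ m :=
      Ideal.Quotient.eq_zero_iff_mem.1 (congrFun (congrFun h5 (i a)) (j a))
    exact Ideal.mem_of_dvd m (Finset.dvd_prod_of_mem _ (Finset.mem_univ a)) h7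

end Pool.Agent.Lib.F4G.G78
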