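import Pool.Agent.Lib.F4G.GrpPP
import Pool.Agent.Lib.F4G.GrpMal
import Pool.Agent.Lib.MP_0bf891_al.Abs

namespace Pool.Agent.Lib.F4G.G78

open Matrix
open scoped MatrixGroups Kronecker

theorem second (g : SL(2, ℂ)) {l : ℂ} {v : Fin 2 → ℂ} (hv0 : v ≠ 0) (hv : g.1 *ᵥ v = l • v)
    (hl : l ^ 2 ≠ 1) : l ≠ 0 ∧ ∃ u : Fin 2 → ℂ, g.1 *ᵥ u = l⁻¹ • u ∧ dd v u ≠ 0 := by
  have hl0 : l ≠ 0 := fun h => mv_ne g hv0 (by rw [hv, h, zero_smul])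
  refine ⟨hl0, ?_⟩
  have hd := g.2
  rw [Matrix.det_fin_two] at hd
  have h1 : (g.1 - l • (1 : Matrix (Fin 2) (Fin 2) ℂ)).det = 0 :=
    Matrix.exists_mulVec_eq_zero_iff.1 ⟨v, hv0, by
      rw [Matrix.sub_mulVec, Matrix.smul_mulVec, Matrix.one_mulVec, hv, sub_self]⟩
  have h2 : (g.1 - l⁻¹ • (1 : Matrix (Fin 2) (Fin 2) ℂ)).det = 0 := by
    rw [Matrix.det_fin_two] at h1 ⊢
    simp at h1 ⊢
    field_simp
    linear_combination h1 + (l ^ 2 - 1) * hd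
  obtain ⟨u, hu0, hu⟩ := Matrix.exists_mulVec_eq_zero_iff.2 h2
  rw [Matrix.sub_mulVec, Matrix.smul_mulVec, Matrix.one_mulVec, sub_eq_zero] at hu
  refine ⟨u, hu, fun h => ?_⟩
  have h3 : u ∈ Submodule.span ℂ {v} := par hv0 hu0 h ▸ Submodule.mem_span_singleton_self u
  obtain ⟨s, rfl⟩ := Submodule.mem_span_singleton.1 h3
  rw [Matrix.mulVec_smul, hv, smul_comm, ← sub_eq_zero, ← sub_smul] at hu
  have h4 := sub_eq_zero.1 ((smul_eq_zero.1 hu).resolve_right hu0)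
  exact hl (by rw [sq]; nth_rewrite 2 [h4]; exact mul_inv_cancel₀ hl0)

theorem free (Γ : Subgroup SL(2, ℂ))
    (h : ∀ v : Fin 2 → ℂ, v ≠ 0 →
      ¬ ((fun g : SL(2, ℂ) => Submodule.span ℂ {g.1 *ᵥ v}) '' Γ).Finite)
    {g : SL(2, ℂ)} (hg : g ∈ Γ) {l : ℂ} {v : Fin 2 → ℂ} (hv0 : v ≠ 0) (hv : g.1 *ᵥ v = l • v)
    (hl : ∀ m : ℕ, 0 < m → l ^ m ≠ 1) (N : ℕ) :
    ∃ T : Fin N → SL(2, ℂ), (∀ i, T i ∈ Γ) ∧ ∀ l l' : List (Fin N), l.length = l'.length →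
      ((l.map T).prod = (l'.map T).prod ∨ (l.map T).prod = -(l'.map T).prod) → l = l' := by
  obtain ⟨hl0, u, hu, hvu⟩ := second g hv0 hv (hl 2 two_pos)
  obtain ⟨ab, hab⟩ : ∃ ab : AbsoluteValue ℂ ℝ, ab l ≠ 1 := by
    by_contra hc
    push Not at hc
    obtain ⟨n, h1, h2⟩ := MP_0bf891_al.pow_eq_one_of_abs hc
    exact hl n h1 h2
  rcases hab.lt_or_gt with h1 | h1
  · have hu0 : u ≠ 0 := fun h => hvu (by simp [dd, h])
    refine pp ab Γ hg (l := l⁻¹) ?_ hu (by rw [inv_inv]; exact hv) (fun h0 => hvu ?_) (h u hu0) N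
    · rw [map_inv₀]
      exact (one_lt_inv₀ (ab.pos hl0)).2 h1
    · unfold dd at h0 ⊢
      linear_combination -h0
  · exact pp ab Γ hg h1 hv hu hvu (h v hv0) N

noncomputable def kr : SL(2, ℂ) →* Matrix (Fin 2 × Fin 2) (Fin 2 × Fin 2) ℂ where
  toFun g := g.1 ⊗ₖ g.1
  map_one' := by simp
  map_mul' g h := by
    rw [Matrix.SpecialLinearGroup.coe_mul, Matrix.mul_kronecker_mul]

theorem kr_neg : kr (-1) = 1 := by
  change (-1 : SL(2, ℂ)).1 ⊗ₖ (-1 : SL(2, ℂ)).1 = 1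
  rw [Matrix.SpecialLinearGroup.coe_neg, Matrix.SpecialLinearGroup.coe_one, ← neg_one_smul ℂ,
    Matrix.smul_kronecker, Matrix.kronecker_smul, smul_smul]
  simp

theorem kr_eq {g : SL(2, ℂ)} (h : kr g = 1) : g = 1 ∨ g = -1 := by
  have e : ∀ a b, g.1 a.1 b.1 * g.1 a.2 b.2 = (1 : Matrix (Fin 2 × Fin 2) (Fin 2 × Fin 2) ℂ) a b :=
    fun a b => congrFun (congrFun h a) b
  have h1 := e (0, 0) (0, 0)
  have h2 := e (0, 0) (1, 1)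
  have h3 := e (1, 1) (0, 0)
  have h4 := e (0, 1) (0, 1)
  simp at h1 h2 h3 h4
  rcases mul_self_eq_one_iff.1 h1 with h5 | h5
  · left
    rw [h5, one_mul] at h4
    ext i j
    fin_cases i <;> fin_cases j <;> simp [h2, h3, h4, h5]
  · right
    rw [h5, neg_one_mul, neg_eq_iff_eq_neg] at h4
    ext i j
    fin_cases i <;> fin_cases j <;> simp [h2, h3, h4, h5]

theorem quot (S : Finset SL(2, ℂ)) {ι : Type} [Finite ι]
    (y : ι → Subgroup.closure (S : Set SL(2, ℂ)))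
    (hy : ∀ a b, ((y a).1 = (y b).1 ∨ (y a).1 = -(y b).1) → a = b) :
    ∃ (Q : Type) (_ : Group Q) (_ : Finite Q) (ρ : Subgroup.closure (S : Set SL(2, ℂ)) →* Q),
      (∀ x, x.1 = -1 → ρ x = 1) ∧ ∀ a b, ρ (y a) = ρ (y b) → a = b := by
  have hG : Group.FG (Subgroup.closure (S : Set SL(2, ℂ))) := Group.closure_finset_fg S
  obtain ⟨Q, i1, i2, ρ, h1, h2⟩ := malcev hG (kr.comp (Subgroup.subtype _))
    (fun p : {p : ι × ι // p.1 ≠ p.2} => (y p.1.2)⁻¹ * y p.1.1) (fun p hp => p.2 (hy _ _ (by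
      have h3 : kr ((y p.1.2).1⁻¹ * (y p.1.1).1) = 1 := hp
      rcases kr_eq h3 with h4 | h4
      · exact Or.inl (inv_mul_eq_one.1 h4).symm
      · exact Or.inr ((inv_mul_eq_iff_eq_mul.1 h4).trans (mul_neg_one _)))))
  refine ⟨Q, i1, i2, ρ, fun x hx => h1 x ?_, fun a b hab => ?_⟩
  · change kr x.1 = 1
    rw [hx, kr_neg]
  · by_contra hne
    refine h2 ⟨(a, b), hne⟩ ?_
    rw [map_mul, map_inv, hab, inv_mul_cancel]

theorem grp_of (S : Finset SL(2, ℂ)) (Γ : Subgroup SL(2, ℂ))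
    (hS : Γ ≤ Subgroup.closure (S : Set SL(2, ℂ)))
    (h : ∀ v : Fin 2 → ℂ, v ≠ 0 →
      ¬ ((fun g : SL(2, ℂ) => Submodule.span ℂ {g.1 *ᵥ v}) '' Γ).Finite)
    (hu : ∃ g ∈ Γ, ∃ (l : ℂ) (v : Fin 2 → ℂ), v ≠ 0 ∧ g.1 *ᵥ v = l • v ∧
      ∀ m : ℕ, 0 < m → l ^ m ≠ 1) (N : ℕ) :
    ∃ T : Fin N → SL(2, ℂ), (∀ i, T i ∈ Γ) ∧ ∀ k : ℕ,
      ∃ (Q : Type) (_ : Group Q) (_ : Finite Q) (ρ : Subgroup.closure (S : Set SL(2, ℂ)) →* Q),
        (∀ x, x.1 = -1 → ρ x = 1) ∧ ∀ (w w' : Fin k → Fin N)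
          (x x' : Subgroup.closure (S : Set SL(2, ℂ))), x.1 = (List.ofFn (T ∘ w)).prod →
          x'.1 = (List.ofFn (T ∘ w')).prod → ρ x = ρ x' → w = w' := by
  obtain ⟨g, hg, l, v, hv0, hv, hl⟩ := hu
  obtain ⟨T, hT, hw⟩ := free Γ h hg hv0 hv hl N
  refine ⟨T, hT, fun k => ?_⟩
  have hm : ∀ w : Fin k → Fin N, (List.ofFn (T ∘ w)).prod ∈
      Subgroup.closure (S : Set SL(2, ℂ)) := fun w => hS (Γ.list_prod_mem fun x hx => by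
    obtain ⟨i, rfl⟩ := List.mem_ofFn.1 hx
    exact hT _)
  obtain ⟨Q, i1, i2, ρ, h1, h2⟩ := quot S (fun w : Fin k → Fin N => ⟨_, hm w⟩) fun a b hab =>
    List.ofFn_injective (hw _ _ (by simp) (by rw [List.map_ofFn, List.map_ofFn]; exact hab))
  refine ⟨Q, i1, i2, ρ, h1, fun w w' x x' hx hx' e => h2 w w' ?_⟩
  rw [show x = ⟨_, hm w⟩ from Subtype.ext hx, show x' = ⟨_, hm w'⟩ from Subtype.ext hx'] at e
  exact e

end Pool.Agent.Lib.F4G.G78
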