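import Pool.Agent.Lib.F4G.Grp

namespace Pool.Agent.Lib.F4G

open Matrix
open scoped MatrixGroups

namespace G78

theorem cen {g : SL(2, ℂ)} : g ∈ Subgroup.center SL(2, ℂ) ↔ g = 1 ∨ g = -1 := by
  constructor
  · intro h
    obtain ⟨r, h1, h2⟩ := Matrix.SpecialLinearGroup.mem_center_iff.1 h
    rw [Fintype.card_fin] at h1
    rcases sq_eq_one_iff.1 h1 with rfl | rfl
    · exact Or.inl (Subtype.ext (by rw [← h2]; simp))
    · exact Or.inr (Subtype.ext (by rw [← h2, map_neg, map_one]; simp))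
  · rintro (rfl | rfl)
    · exact Subgroup.one_mem _
    · exact Subgroup.mem_center_iff.2 fun g => by simp

theorem mk_eq {a b : SL(2, ℂ)} :
    (QuotientGroup.mk a : Matrix.ProjectiveSpecialLinearGroup (Fin 2) ℂ) = QuotientGroup.mk b ↔
      a = b ∨ a = -b := by
  rw [eq_comm, QuotientGroup.eq, cen, inv_mul_eq_one, inv_mul_eq_iff_eq_mul, mul_neg_one,
    eq_comm]

theorem span_eq {a b : SL(2, ℂ)} (h : a = b ∨ a = -b) (v : Fin 2 → ℂ) :
    Submodule.span ℂ {a.1 *ᵥ v} = Submodule.span ℂ {b.1 *ᵥ v} := by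
  rcases h with rfl | rfl
  · rfl
  · rw [Matrix.SpecialLinearGroup.coe_neg, Matrix.neg_mulVec, ← Set.neg_singleton,
      Submodule.span_neg]

noncomputable def krP : Matrix.ProjectiveSpecialLinearGroup (Fin 2) ℂ →*
    Matrix (Fin 2 × Fin 2) (Fin 2 × Fin 2) ℂ :=
  QuotientGroup.lift _ kr fun g hg => by
    rcases cen.1 hg with rfl | rfl
    · exact map_one kr
    · exact kr_neg

theorem krP_eq {g : Matrix.ProjectiveSpecialLinearGroup (Fin 2) ℂ} (h : krP g = 1) : g = 1 := by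
  obtain ⟨a, rfl⟩ := QuotientGroup.mk_surjective g
  exact (QuotientGroup.eq_one_iff a).2 (cen.2 (kr_eq h))

theorem quotP (S : Finset (Matrix.ProjectiveSpecialLinearGroup (Fin 2) ℂ)) {ι : Type} [Finite ι]
    (y : ι → Subgroup.closure (S : Set (Matrix.ProjectiveSpecialLinearGroup (Fin 2) ℂ)))
    (hy : Function.Injective y) :
    ∃ (Q : Type) (_ : Group Q) (_ : Finite Q)
      (ρ : Subgroup.closure (S : Set (Matrix.ProjectiveSpecialLinearGroup (Fin 2) ℂ)) →* Q),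
      ∀ a b, ρ (y a) = ρ (y b) → a = b := by
  obtain ⟨Q, i1, i2, ρ, -, h2⟩ := malcev (Group.closure_finset_fg S)
    (krP.comp (Subgroup.subtype _))
    (fun p : {p : ι × ι // p.1 ≠ p.2} => (y p.1.2)⁻¹ * y p.1.1) (fun p hp => p.2 (hy (by
      have h3 : (y p.1.2).1⁻¹ * (y p.1.1).1 = 1 := krP_eq hp
      exact Subtype.ext (inv_mul_eq_one.1 h3).symm)))
  refine ⟨Q, i1, i2, ρ, fun a b hab => ?_⟩
  by_contra hne
  refine h2 ⟨(a, b), hne⟩ ?_
  rw [map_mul, map_inv, hab, inv_mul_cancel]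

theorem freeP (S : Finset (Matrix.ProjectiveSpecialLinearGroup (Fin 2) ℂ))
    (Γ : Subgroup (Matrix.ProjectiveSpecialLinearGroup (Fin 2) ℂ))
    (hS : Γ ≤ Subgroup.closure (S : Set (Matrix.ProjectiveSpecialLinearGroup (Fin 2) ℂ)))
    (h : ∀ v : Fin 2 → ℂ, v ≠ 0 →
      ¬ ((fun g : Matrix.ProjectiveSpecialLinearGroup (Fin 2) ℂ =>
        Submodule.span ℂ {(Quotient.out g : SL(2, ℂ)).1 *ᵥ v}) '' Γ).Finite) (N : ℕ) :
    ∃ T : Fin N → Matrix.ProjectiveSpecialLinearGroup (Fin 2) ℂ, (∀ i, T i ∈ Γ) ∧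
      ∀ l l' : List (Fin N), l.length = l'.length → (l.map T).prod = (l'.map T).prod → l = l' := by
  classical
  let π : SL(2, ℂ) →* Matrix.ProjectiveSpecialLinearGroup (Fin 2) ℂ := QuotientGroup.mk' _
  have hπ : ∀ g, π (Quotient.out g) = g := fun g => Quotient.out_eq g
  let S' : Finset SL(2, ℂ) := insert (-1) (S.image fun g => (Quotient.out g : SL(2, ℂ)))
  have hn : (-1 : SL(2, ℂ)) ∈ Subgroup.closure (S' : Set SL(2, ℂ)) :=
    Subgroup.subset_closure (Finset.mem_insert_self _ _)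
  have hS' : Γ.comap π ≤ Subgroup.closure (S' : Set SL(2, ℂ)) := by
    intro g hg
    have h1 : Subgroup.closure (S : Set (Matrix.ProjectiveSpecialLinearGroup (Fin 2) ℂ)) ≤
        (Subgroup.closure (S' : Set SL(2, ℂ))).map π := (Subgroup.closure_le _).2 fun x hx =>
      ⟨Quotient.out x, Subgroup.subset_closure (Finset.mem_insert_of_mem
        (Finset.mem_image_of_mem _ hx)), hπ x⟩
    obtain ⟨a, ha, e⟩ := h1 (hS hg)
    rcases mk_eq.1 e.symm with rfl | rfl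
    · exact ha
    · rw [← neg_one_mul]
      exact Subgroup.mul_mem _ hn ha
  have h' : ∀ v : Fin 2 → ℂ, v ≠ 0 →
      ¬ ((fun g : SL(2, ℂ) => Submodule.span ℂ {g.1 *ᵥ v}) '' (Γ.comap π)).Finite :=
    fun v hv hf => h v hv (hf.subset (by
      rintro _ ⟨g, hg, rfl⟩
      exact ⟨Quotient.out g, by change π _ ∈ Γ; rw [hπ]; exact hg, rfl⟩))
  obtain ⟨g, hg, l, v, hv0, hv, hl⟩ := uni76 S' _ hS' h'
  obtain ⟨T, hT, hw⟩ := free _ h' hg hv0 hv hl N
  refine ⟨fun i => π (T i), hT, fun l l' h1 h2 => hw l l' h1 (mk_eq.1 ?_)⟩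
  change π _ = π _
  rw [map_list_prod, map_list_prod, List.map_map, List.map_map]
  exact h2

end G78

theorem st_GRPP (S : Finset (Matrix.ProjectiveSpecialLinearGroup (Fin 2) ℂ))
    (Γ : Subgroup (Matrix.ProjectiveSpecialLinearGroup (Fin 2) ℂ))
    (hS : Γ ≤ Subgroup.closure (S : Set (Matrix.ProjectiveSpecialLinearGroup (Fin 2) ℂ)))
    (h : ∀ v : Fin 2 → ℂ, v ≠ 0 →
      ¬ ((fun g : Matrix.ProjectiveSpecialLinearGroup (Fin 2) ℂ =>
        Submodule.span ℂ {(Quotient.out g : SL(2, ℂ)).1 *ᵥ v}) '' Γ).Finite) (N : ℕ) :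
    ∃ T : Fin N → Matrix.ProjectiveSpecialLinearGroup (Fin 2) ℂ, (∀ i, T i ∈ Γ) ∧ ∀ k : ℕ,
      ∃ (Q : Type) (_ : Group Q) (_ : Finite Q)
        (ρ : Subgroup.closure (S : Set (Matrix.ProjectiveSpecialLinearGroup (Fin 2) ℂ)) →* Q),
        ∀ (w w' : Fin k → Fin N)
          (x x' : Subgroup.closure (S : Set (Matrix.ProjectiveSpecialLinearGroup (Fin 2) ℂ))),
          x.1 = (List.ofFn (T ∘ w)).prod → x'.1 = (List.ofFn (T ∘ w')).prod →
          ρ x = ρ x' → w = w' := by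
  obtain ⟨T, hT, hw⟩ := G78.freeP S Γ hS h N
  refine ⟨T, hT, fun k => ?_⟩
  have hm : ∀ w : Fin k → Fin N, (List.ofFn (T ∘ w)).prod ∈
      Subgroup.closure (S : Set (Matrix.ProjectiveSpecialLinearGroup (Fin 2) ℂ)) :=
    fun w => hS (Γ.list_prod_mem fun x hx => by
      obtain ⟨i, rfl⟩ := List.mem_ofFn.1 hx
      exact hT _)
  obtain ⟨Q, i1, i2, ρ, h2⟩ := G78.quotP S (fun w : Fin k → Fin N => ⟨_, hm w⟩) fun a b hab =>
    List.ofFn_injective (hw _ _ (by simp) (by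
      rw [List.map_ofFn, List.map_ofFn]
      exact congrArg Subtype.val hab))
  refine ⟨Q, i1, i2, ρ, fun w w' x x' hx hx' e => h2 w w' ?_⟩
  rw [show x = ⟨_, hm w⟩ from Subtype.ext hx, show x' = ⟨_, hm w'⟩ from Subtype.ext hx'] at e
  exact e

end Pool.Agent.Lib.F4G
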