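import Mathlib

namespace Pool.Agent.Lib.F4G.G78

open Filter Matrix
open scoped MatrixGroups

theorem core (ab : AbsoluteValue ℂ ℝ) {a : ℂ} (b c d : ℂ) (ha : a ≠ 0) {R δ : ℝ} (hR : 0 ≤ R)
    (hδ : 0 < δ) {l : ℂ} (hl : 1 < ab l) :
    ∀ᶠ n : ℕ in atTop, ∀ X Y : ℂ, X ≠ 0 → ab Y ≤ R * ab X →
      a * l ^ n * X + b * l⁻¹ ^ n * Y ≠ 0 ∧
      ab ((c * l ^ n * X + d * l⁻¹ ^ n * Y) - c / a * (a * l ^ n * X + b * l⁻¹ ^ n * Y)) ≤
        δ * ab (a * l ^ n * X + b * l⁻¹ ^ n * Y) := by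
  have ha' : 0 < ab a := ab.pos ha
  set e := d - c / a * b with he
  have h1 := (tendsto_pow_atTop_atTop_of_one_lt hl).eventually_gt_atTop
    ((ab b * R + ab e * R / δ) / ab a)
  filter_upwards [h1] with n hn X Y hX hY
  have hX' : 0 < ab X := ab.pos hX
  have hL : 1 ≤ ab l ^ n := one_le_pow₀ hl.le
  have ht : ab (l⁻¹ ^ n) ≤ 1 := by
    rw [map_pow, map_inv₀]
    exact pow_le_one₀ (by positivity) (inv_le_one_of_one_le₀ hl.le)
  have ht0 : 0 ≤ ab (l⁻¹ ^ n) := ab.nonneg _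
  rw [div_lt_iff₀ ha'] at hn
  have h2 : ∀ s : ℂ, ab (s * l⁻¹ ^ n * Y) ≤ ab s * R * ab X := fun s => by
    rw [map_mul, map_mul]
    have := ab.nonneg s
    have := ab.nonneg Y
    calc ab s * ab (l⁻¹ ^ n) * ab Y ≤ ab s * 1 * (R * ab X) := by gcongr
      _ = _ := by ring
  have h3 : ab a * ab l ^ n * ab X - ab b * R * ab X ≤ ab (a * l ^ n * X + b * l⁻¹ ^ n * Y) := by
    have h4 := ab.sub_le_add (a * l ^ n * X + b * l⁻¹ ^ n * Y) (b * l⁻¹ ^ n * Y)
    rw [add_sub_cancel_right, map_mul, map_mul, map_pow] at h4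
    linarith [h2 b]
  have h5 : ab e * R / δ * ab X < ab (a * l ^ n * X + b * l⁻¹ ^ n * Y) := by
    nlinarith
  have h6 : 0 ≤ ab e * R / δ * ab X := by
    have := ab.nonneg e
    positivity
  refine ⟨fun h => ?_, ?_⟩
  · rw [h, map_zero] at h5
    linarith
  · have h7 : (c * l ^ n * X + d * l⁻¹ ^ n * Y) - c / a * (a * l ^ n * X + b * l⁻¹ ^ n * Y) =
        e * l⁻¹ ^ n * Y := by
      rw [he]
      field_simp
      ring
    rw [h7]
    refine (h2 e).trans ?_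
    have h8 : ab e * R * ab X = δ * (ab e * R / δ * ab X) := by field_simp
    rw [h8]
    exact mul_le_mul_of_nonneg_left h5.le hδ.le

def dd (x y : Fin 2 → ℂ) : ℂ := x 0 * y 1 - x 1 * y 0

theorem par {x y : Fin 2 → ℂ} (hx : x ≠ 0) (hy : y ≠ 0) (h : dd x y = 0) :
    Submodule.span ℂ {x} = Submodule.span ℂ {y} := by
  have key : ∀ {x y : Fin 2 → ℂ}, y ≠ 0 → dd x y = 0 → x ∈ Submodule.span ℂ {y} := by
    intro x y hy h
    rw [Submodule.mem_span_singleton]
    unfold dd at h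
    by_cases h0 : y 0 = 0
    · have h1 : y 1 ≠ 0 := fun h1 => hy (by ext i; fin_cases i <;> simp [h0, h1])
      refine ⟨x 1 / y 1, ?_⟩
      rw [h0, mul_zero, sub_zero] at h
      ext i
      fin_cases i
      · simp [h0, (mul_eq_zero.1 h).resolve_right h1]
      · simp [h1]
    · refine ⟨x 0 / y 0, ?_⟩
      ext i
      fin_cases i
      · simp [h0]
      · simp
        field_simp
        linear_combination h
  refine le_antisymm ?_ ?_ <;> rw [Submodule.span_singleton_le_iff_mem]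
  · exact key hy h
  · exact key hx (by unfold dd at h ⊢; linear_combination -h)

theorem mv_ne (g : SL(2, ℂ)) {v : Fin 2 → ℂ} (hv : v ≠ 0) : g.1 *ᵥ v ≠ 0 := fun h =>
  hv (Matrix.eq_zero_of_mulVec_eq_zero (by rw [g.2]; exact one_ne_zero) h)

theorem words {G V : Type} [Group G] [HasDistribNeg G] (act : G → V → V)
    (hm : ∀ g h x, act (g * h) x = act g (act h x)) (h1 : ∀ x, act 1 x = x)
    {I : Type} (T : I → G) (C : Set V) (D : I → Set V) (x0 : V) (hx0 : x0 ∈ C)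
    (hT : ∀ i, ∀ x ∈ C, act (T i) x ∈ D i) (hD : ∀ i, D i ⊆ C)
    (hN : ∀ i g x, act g x ∈ D i → act (-g) x ∈ D i)
    (hd : ∀ i j, ∀ x ∈ D i, x ∈ D j → i = j) :
    ∀ l l' : List I, l.length = l'.length →
      ((l.map T).prod = (l'.map T).prod ∨ (l.map T).prod = -(l'.map T).prod) → l = l' := by
  have hC : ∀ l : List I, act (l.map T).prod x0 ∈ C := by
    intro l
    induction l with
    | nil => simpa [h1] using hx0
    | cons i l ih =>
      rw [List.map_cons, List.prod_cons, hm]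
      exact hD i (hT i _ ih)
  have hI : ∀ i (l : List I), act ((i :: l).map T).prod x0 ∈ D i := fun i l => by
    rw [List.map_cons, List.prod_cons, hm]
    exact hT i _ (hC l)
  intro l
  induction l with
  | nil => intro l' h _; exact (List.length_eq_zero_iff.1 h.symm).symm
  | cons i l ih =>
    intro l' h e
    cases l' with
    | nil => simp at h
    | cons j l' =>
      have hij : i = j := by
        refine hd i j _ (hI i l) ?_
        rcases e with e | e <;> rw [e]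
        · exact hI j l'
        · exact hN j _ _ (hI j l')
      subst hij
      rw [ih l' (by simpa using h) ?_]
      simp only [List.map_cons, List.prod_cons] at e
      rcases e with e | e
      · exact Or.inl (mul_left_cancel e)
      · exact Or.inr (mul_left_cancel (e.trans (mul_neg _ _).symm))

theorem pp (ab : AbsoluteValue ℂ ℝ) (Γ : Subgroup SL(2, ℂ)) {g : SL(2, ℂ)} (hg : g ∈ Γ)
    {l : ℂ} (hl : 1 < ab l) {v u : Fin 2 → ℂ} (hv : g.1 *ᵥ v = l • v) (hu : g.1 *ᵥ u = l⁻¹ • u)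
    (hvu : dd v u ≠ 0)
    (hinf : ¬ ((fun g : SL(2, ℂ) => Submodule.span ℂ {g.1 *ᵥ v}) '' Γ).Finite) (N : ℕ) :
    ∃ T : Fin N → SL(2, ℂ), (∀ i, T i ∈ Γ) ∧ ∀ l l' : List (Fin N), l.length = l'.length →
      ((l.map T).prod = (l'.map T).prod ∨ (l.map T).prod = -(l'.map T).prod) → l = l' := by
  classical
  have hv0 : v ≠ 0 := fun h => hvu (by simp [dd, h])
  have hu0 : u ≠ 0 := fun h => hvu (by simp [dd, h])
  have hinf' : (((fun g : SL(2, ℂ) => Submodule.span ℂ {g.1 *ᵥ v}) '' Γ) \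
      {Submodule.span ℂ {u}}).Infinite := Set.Infinite.sdiff hinf (Set.finite_singleton _)
  have e := hinf'.natEmbedding
  have hh : ∀ i : Fin N, ∃ h ∈ Γ, Submodule.span ℂ {h.1 *ᵥ v} = (e i).1 := fun i => (e i).2.1
  choose h hΓ hh using hh
  let X : (Fin 2 → ℂ) → ℂ := fun x => dd x u
  let Y : (Fin 2 → ℂ) → ℂ := fun x => dd v x
  have hX : ∀ i, X ((h i).1 *ᵥ v) ≠ 0 := fun i h0 =>
    (e i).2.2 ((hh i).symm.trans (par (mv_ne _ hv0) hu0 h0))
  let q : Fin N → ℂ := fun i => Y ((h i).1 *ᵥ v) / X ((h i).1 *ᵥ v)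
  have hq : ∀ i j, q i = q j → i = j := fun i j hij => by
    have h0 : dd ((h i).1 *ᵥ v) ((h j).1 *ᵥ v) = 0 := by
      have h1 := (div_eq_div_iff (hX i) (hX j)).1 hij
      refine (mul_eq_zero.1 ?_).resolve_left hvu
      simp only [X, Y, dd] at h1 ⊢
      linear_combination -h1
    have h2 := par (mv_ne _ hv0) (mv_ne _ hv0) h0
    rw [hh, hh] at h2
    exact Fin.ext (e.injective (Subtype.ext h2))
  obtain ⟨δ, hδ, hδ1, hδq⟩ : ∃ δ : ℝ, 0 < δ ∧ δ ≤ 1 ∧ ∀ i j, i ≠ j → 2 * δ < ab (q i - q j) := by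
    have h1 : ∀ᶠ δ : ℝ in nhdsWithin 0 (Set.Ioi 0), ∀ p : Fin N × Fin N,
        p.1 ≠ p.2 → 2 * δ < ab (q p.1 - q p.2) := by
      refine eventually_all.2 fun p => ?_
      by_cases hp : p.1 = p.2
      · exact Eventually.of_forall fun _ h => absurd hp h
      · have h2 : 0 < ab (q p.1 - q p.2) := ab.pos (sub_ne_zero.2 fun h => hp (hq _ _ h))
        filter_upwards [Ioo_mem_nhdsGT (half_pos h2)] with δ hδ _
        linarith [hδ.2]
    obtain ⟨δ, h2, h3⟩ := (h1.and (Ioo_mem_nhdsGT one_pos)).exists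
    exact ⟨δ, h3.1, h3.2.le, fun i j => h2 (i, j)⟩
  let R : ℝ := 1 + ∑ i, ab (q i)
  have hqR : ∀ i, ab (q i) + 1 ≤ R := fun i => by
    have := Finset.single_le_sum (f := fun i => ab (q i)) (fun i _ => ab.nonneg _)
      (Finset.mem_univ i)
    simp only [R]
    linarith
  have hR : 0 ≤ R := add_nonneg zero_le_one (Finset.sum_nonneg fun i _ => ab.nonneg _)
  obtain ⟨n, hn⟩ := (eventually_all.2 fun i : Fin N =>
    core ab (X ((h i).1 *ᵥ u) / dd v u) (Y ((h i).1 *ᵥ v) / dd v u) (Y ((h i).1 *ᵥ u) / dd v u)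
      (div_ne_zero (hX i) hvu) hR hδ hl).exists
  have hp : ∀ {w : Fin 2 → ℂ} {s : ℂ}, g.1 *ᵥ w = s • w → ∀ m : ℕ, (g ^ m).1 *ᵥ w = s ^ m • w := by
    intro w s hw m
    induction m with
    | zero => simp
    | succ m ih =>
      rw [pow_succ, Matrix.SpecialLinearGroup.coe_mul, ← Matrix.mulVec_mulVec, hw,
        Matrix.mulVec_smul, ih, smul_smul, pow_succ']
  have hx : ∀ i x, (h i * g ^ n).1 *ᵥ x = (l ^ n * X x / dd v u) • (h i).1 *ᵥ v +
      (l⁻¹ ^ n * Y x / dd v u) • (h i).1 *ᵥ u := fun i x => by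
    have h1 : x = (X x / dd v u) • v + (Y x / dd v u) • u := by
      ext k
      fin_cases k <;>
      · simp only [X, Y, Pi.add_apply, Pi.smul_apply, smul_eq_mul]
        field_simp
        simp [dd]
        ring
    conv_lhs => rw [h1]
    rw [Matrix.SpecialLinearGroup.coe_mul, ← Matrix.mulVec_mulVec, Matrix.mulVec_add,
      Matrix.mulVec_smul, Matrix.mulVec_smul, hp hv, hp hu, smul_smul, smul_smul,
      Matrix.mulVec_add, Matrix.mulVec_smul, Matrix.mulVec_smul]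
    congr 2 <;> ring
  refine ⟨fun i => h i * g ^ n, fun i => Γ.mul_mem (hΓ i) (Γ.pow_mem hg n), ?_⟩
  refine words (fun (g : SL(2, ℂ)) (x : Fin 2 → ℂ) => g.1 *ᵥ x) (fun g h x => ?_) (fun x => ?_) _
    {x | X x ≠ 0 ∧ ab (Y x) ≤ R * ab (X x)}
    (fun i => {x | X x ≠ 0 ∧ ab (Y x - q i * X x) ≤ δ * ab (X x)}) v ⟨hvu, ?_⟩
    (fun i x hxC => ?_) (fun i x hxD => ⟨hxD.1, ?_⟩) (fun i g x hxD => ?_) (fun i j x hi hj => ?_)
  · rw [Matrix.SpecialLinearGroup.coe_mul, Matrix.mulVec_mulVec]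
  · simp
  · have h0 : Y v = 0 := by simp only [Y, dd]; ring
    rw [h0, map_zero]
    exact mul_nonneg hR (ab.nonneg _)
  · have h1 := hn i (X x) (Y x) hxC.1 hxC.2
    have e1 : X ((h i * g ^ n).1 *ᵥ x) = X ((h i).1 *ᵥ v) / dd v u * l ^ n * X x +
        X ((h i).1 *ᵥ u) / dd v u * l⁻¹ ^ n * Y x := by
      rw [hx]
      simp only [X, dd, Pi.add_apply, Pi.smul_apply, smul_eq_mul]
      ring
    have e2 : Y ((h i * g ^ n).1 *ᵥ x) = Y ((h i).1 *ᵥ v) / dd v u * l ^ n * X x +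
        Y ((h i).1 *ᵥ u) / dd v u * l⁻¹ ^ n * Y x := by
      rw [hx]
      simp only [Y, dd, Pi.add_apply, Pi.smul_apply, smul_eq_mul]
      ring
    have e3 : q i = Y ((h i).1 *ᵥ v) / dd v u / (X ((h i).1 *ᵥ v) / dd v u) :=
      (div_div_div_cancel_right₀ hvu _ _).symm
    change X _ ≠ 0 ∧ ab (Y _ - q i * X _) ≤ δ * ab (X _)
    rw [e1, e2, e3]
    exact h1
  · have h1 := ab.add_le (Y x - q i * X x) (q i * X x)
    rw [sub_add_cancel, map_mul] at h1
    have h2 := hxD.2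
    have h3 := ab.nonneg (X x)
    have h4 := hqR i
    nlinarith
  · have e1 : ∀ x : Fin 2 → ℂ, X (-x) = -X x := fun x => by simp only [X, dd, Pi.neg_apply]; ring
    have e2 : ∀ x : Fin 2 → ℂ, Y (-x) = -Y x := fun x => by simp only [Y, dd, Pi.neg_apply]; ring
    change X _ ≠ 0 ∧ ab (Y _ - q i * X _) ≤ δ * ab (X _)
    rw [Matrix.SpecialLinearGroup.coe_neg, Matrix.neg_mulVec, e1, e2, ab.map_neg]
    refine ⟨neg_ne_zero.2 hxD.1, ?_⟩
    have e3 : -Y (g.1 *ᵥ x) - q i * -X (g.1 *ᵥ x) = -(Y (g.1 *ᵥ x) - q i * X (g.1 *ᵥ x)) := by ring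
    rw [e3, ab.map_neg]
    exact hxD.2
  · by_contra hij
    have h1 := hδq i j hij
    have h2 := ab.sub_le_add (Y x - q j * X x) (Y x - q i * X x)
    have e3 : Y x - q j * X x - (Y x - q i * X x) = (q i - q j) * X x := by ring
    rw [e3, map_mul] at h2
    have h3 := ab.pos hi.1
    have h4 := hi.2
    have h5 := hj.2
    nlinarith

end Pool.Agent.Lib.F4G.G78
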