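import Pool.Agent.Lib.F4G.MyAtl

/-! Project f4g, the theorem of Myers for an atlas of discs: pointwise lemmas. -/

open Set Metric

noncomputable section

namespace Pool.Agent.Lib.F4G.My

theorem ln_nonneg (F : ℂ → ℝ) (a b : ℂ) : 0 ≤ ln F a b := by unfold ln; positivity

theorem ln_moeb {F G : ℂ → ℝ} {a b c d x y : ℂ} (h1 : a * d - b * c = 1) (hx : c * x + d ≠ 0)
    (hy : c * y + d ≠ 0) (ex : G ((a * x + b) / (c * x + d)) = F x - 4 * Real.log ‖c * x + d‖)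
    (ey : G ((a * y + b) / (c * y + d)) = F y - 4 * Real.log ‖c * y + d‖) :
    ln G ((a * x + b) / (c * x + d)) ((a * y + b) / (c * y + d)) = ln F x y := by
  have px : 0 < ‖c * x + d‖ := norm_pos_iff.2 hx
  have py : 0 < ‖c * y + d‖ := norm_pos_iff.2 hy
  have e1 : (a * y + b) / (c * y + d) - (a * x + b) / (c * x + d) =
      (y - x) / ((c * x + d) * (c * y + d)) := by
    rw [div_sub_div _ _ hy hx, mul_comm (c * y + d) (c * x + d)]
    congr 1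
    linear_combination (y - x) * h1
  unfold ln
  rw [e1, ex, ey, norm_div, norm_mul]
  have e2 : -(F x - 4 * Real.log ‖c * x + d‖ + (F y - 4 * Real.log ‖c * y + d‖)) / 4 =
      -(F x + F y) / 4 + Real.log ‖c * x + d‖ + Real.log ‖c * y + d‖ := by ring
  rw [e2, Real.exp_add, Real.exp_add, Real.exp_log px, Real.exp_log py]
  generalize ‖c * x + d‖ = s at px
  generalize ‖c * y + d‖ = t at py
  field_simp

theorem norm_le_ln {F : ℂ → ℝ} {a b : ℂ} {B : ℝ} (ha : |F a| ≤ B) (hb : |F b| ≤ B) :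
    ‖b - a‖ ≤ Real.exp B * ln F a b := by
  unfold ln
  have h1 : (1 : ℝ) ≤ Real.exp B * Real.exp (-(F a + F b) / 4) := by
    rw [← Real.exp_add]
    apply Real.one_le_exp
    have := abs_le.1 ha; have := abs_le.1 hb; have := abs_nonneg (F a)
    linarith
  nlinarith [norm_nonneg (b - a)]

theorem ln_le_norm {F : ℂ → ℝ} {a b : ℂ} {B : ℝ} (ha : |F a| ≤ B) (hb : |F b| ≤ B) :
    ln F a b ≤ Real.exp B * ‖b - a‖ := by
  unfold ln
  have h1 : Real.exp (-(F a + F b) / 4) ≤ Real.exp B := by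
    apply Real.exp_le_exp.2
    have := abs_le.1 ha; have := abs_le.1 hb; have := abs_nonneg (F a)
    linarith
  nlinarith [norm_nonneg (b - a)]

theorem mv_zero (F : ℂ → ℝ) (a ζ : ℂ) : mv F a 0 ζ = a := by simp [mv]

theorem den_ge {A u ζ : ℂ} {B L s : ℝ} (hA : ‖A‖ ≤ B) (hu : ‖u‖ ≤ L) (hζ : ‖ζ‖ = s)
    (h : s * B * L ≤ 1) : 1 / 2 ≤ ‖1 - ζ * A * u / 2‖ := by
  have h0 : 0 ≤ s := hζ ▸ norm_nonneg ζ
  have h1 : ‖ζ * A * u / 2‖ ≤ 1 / 2 := by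
    rw [norm_div, norm_mul, norm_mul, hζ, Complex.norm_two]
    have : s * ‖A‖ * ‖u‖ ≤ s * B * L :=
      mul_le_mul (mul_le_mul_of_nonneg_left hA h0) hu (norm_nonneg _)
        (mul_nonneg h0 ((norm_nonneg _).trans hA))
    linarith
  have h2 := norm_sub_norm_le (1 : ℂ) (ζ * A * u / 2)
  rw [norm_one] at h2
  linarith

theorem mv_sub {F : ℂ → ℝ} {a u ζ : ℂ} {B L s : ℝ} (hA : ‖Fw F a‖ ≤ B) (hu : ‖u‖ ≤ L)
    (hζ : ‖ζ‖ = s) (h : s * B * L ≤ 1) : ‖mv F a u ζ - a‖ ≤ 2 * s * L := by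
  have h0 : 0 ≤ s := hζ ▸ norm_nonneg ζ
  have h1 := den_ge hA hu hζ h
  unfold mv
  rw [add_sub_cancel_left, norm_div, norm_mul, hζ, div_le_iff₀ (by linarith)]
  have h2 : s * ‖u‖ ≤ s * L := mul_le_mul_of_nonneg_left hu h0
  have h3 : 0 ≤ s * L := mul_nonneg h0 ((norm_nonneg _).trans hu)
  nlinarith

theorem mv_moeb {F G : ℂ → ℝ} {a b c d z u ζ : ℂ} (h1 : a * d - b * c = 1) (hz : c * z + d ≠ 0)
    (hc : Fw G ((a * z + b) / (c * z + d)) = (c * z + d) ^ 2 * Fw F z - 2 * c * (c * z + d))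
    (hD : 1 - ζ * Fw F z * u / 2 ≠ 0) (hm : c * mv F z u ζ + d ≠ 0) :
    (a * mv F z u ζ + b) / (c * mv F z u ζ + d) =
      mv G ((a * z + b) / (c * z + d)) (u / (c * z + d) ^ 2) ζ := by
  unfold mv at *
  rw [hc]
  generalize hQ : c * z + d = Q at *
  generalize hDD : 1 - ζ * Fw F z * u / 2 = D at *
  have e1 : c * (z + ζ * u / D) + d = (Q * D + c * ζ * u) / D := by
    rw [← hQ]; field_simp; ring
  have hN : Q * D + c * ζ * u ≠ 0 := by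
    intro h; apply hm; rw [e1, h, zero_div]
  have e2 : 1 - ζ * (Q ^ 2 * Fw F z - 2 * c * Q) * (u / Q ^ 2) / 2 =
      (Q * D + c * ζ * u) / Q := by
    rw [← hDD]; field_simp; ring
  have e3 : a * (z + ζ * u / D) + b = ((a * z + b) * D + a * ζ * u) / D := by
    field_simp; ring
  rw [e1, e2, e3]
  generalize hNN : Q * D + c * ζ * u = N at *
  have e4 : ((a * z + b) * D + a * ζ * u) * Q = (a * z + b) * N + ζ * u := by
    rw [← hNN, ← hQ]; linear_combination (ζ * u) * h1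
  field_simp
  linear_combination e4

/-- Parallel transport along one step. -/
theorem par {F : ℂ → ℝ} {a b e : ℂ} {B P f g : ℝ} (hB : 1 ≤ B) (hP : 0 ≤ P)
    (hA : ‖Fw F a‖ ≤ B) (hA' : ‖Fw F b‖ ≤ B) (hL : ‖Fw F b - Fw F a‖ ≤ B * ‖b - a‖)
    (hT : |F b - F a - 2 * (Fw F a * (b - a)).re| ≤ B * ‖b - a‖ ^ 2)
    (he : ‖e‖ = Real.exp (F a / 2)) (hf : ‖(f : ℂ) * e‖ ≤ P) (hg : |g - f| ≤ ln F a b)
    (ht : ‖b - a‖ * (B ^ 2 * (8 * P + 6)) ≤ 3 / 4) :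
    ∃ e' q : ℂ, ‖e'‖ = Real.exp (F b / 2) ∧ ‖q‖ ≤ 2 ∧
      q * (b - a) = g * e' - f * e - (b - a) * (Fw F a * (f * e) + Fw F b * (g * e')) / 2 := by
  generalize Fw F a = A at *
  generalize Fw F b = A' at *
  unfold ln at hg
  generalize hΔ : b - a = Δ at *
  have t0 : 0 ≤ ‖Δ‖ := norm_nonneg _
  generalize hρ : (F b - F a) / 2 - (A * Δ).re = ρ
  have hB2 : B ≤ B ^ 2 := by nlinarith
  have htB : ‖Δ‖ * B ≤ 1 / 8 := by
    have : ‖Δ‖ * (B * 6) ≤ ‖Δ‖ * (B ^ 2 * (8 * P + 6)) :=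
      mul_le_mul_of_nonneg_left (by nlinarith) t0
    linarith
  have t1 : ‖Δ‖ ≤ 1 / 8 := by nlinarith
  have hρ1 : |ρ| ≤ B * ‖Δ‖ ^ 2 := by
    have ee : F b - F a - 2 * (A * Δ).re = 2 * ρ := by rw [← hρ]; ring
    rw [ee, abs_mul, abs_two] at hT
    have := abs_nonneg ρ
    linarith
  have hAΔ : ‖A * Δ‖ ≤ B * ‖Δ‖ := by rw [norm_mul]; exact mul_le_mul_of_nonneg_right hA t0
  have hρ2 : |ρ| ≤ B * ‖Δ‖ := by
    refine hρ1.trans ?_
    have : B * ‖Δ‖ ^ 2 = B * ‖Δ‖ * ‖Δ‖ := by ring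
    rw [this]
    exact mul_le_of_le_one_right (by positivity) (by linarith)
  have hθ : ‖A * Δ + ρ‖ ≤ 2 * (B * ‖Δ‖) := by
    have := norm_add_le (A * Δ) (ρ : ℂ)
    rw [Complex.norm_real, Real.norm_eq_abs] at this
    linarith
  have hθ1 : ‖A * Δ + ρ‖ ≤ 1 := by nlinarith
  have hre : (A * Δ + ρ).re = (F b - F a) / 2 := by
    rw [Complex.add_re, Complex.ofReal_re, ← hρ]; ring
  have hF : (F b - F a) / 2 ≤ 1 / 4 := by
    rw [← hre]
    have := (le_abs_self _).trans (Complex.abs_re_le_norm (A * Δ + ρ))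
    nlinarith
  have x1 := Complex.norm_exp_sub_one_le hθ1
  have x2 := Complex.norm_exp_sub_one_sub_id_le hθ1
  generalize hE : Complex.exp (A * Δ + ρ) = X at x1 x2
  have hX : ‖X‖ = Real.exp ((F b - F a) / 2) := by rw [← hE, Complex.norm_exp, hre]
  have he' : ‖e * X‖ = Real.exp (F b / 2) := by
    rw [norm_mul, he, hX, ← Real.exp_add]; congr 1; ring
  have T1 : ‖((g : ℂ) - f) * (e * X)‖ ≤ 5 / 4 * ‖Δ‖ := by
    rw [norm_mul, he', ← Complex.ofReal_sub, Complex.norm_real, Real.norm_eq_abs]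
    have h2 : Real.exp (-(F a + F b) / 4) * Real.exp (F b / 2) ≤ 5 / 4 := by
      rw [← Real.exp_add]
      have h3 : -(F a + F b) / 4 + F b / 2 ≤ 1 / 8 := by linarith
      refine (Real.exp_le_exp.2 h3).trans ?_
      have := abs_le.1 (Real.abs_exp_sub_one_le (x := 1 / 8) (by norm_num [abs_of_pos]))
      rw [abs_of_pos (by norm_num : (0 : ℝ) < 1 / 8)] at this
      linarith [this.2]
    calc |g - f| * Real.exp (F b / 2)
        ≤ ‖Δ‖ * Real.exp (-(F a + F b) / 4) * Real.exp (F b / 2) :=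
          mul_le_mul_of_nonneg_right hg (Real.exp_pos _).le
      _ = ‖Δ‖ * (Real.exp (-(F a + F b) / 4) * Real.exp (F b / 2)) := by ring
      _ ≤ ‖Δ‖ * (5 / 4) := mul_le_mul_of_nonneg_left h2 t0
      _ = 5 / 4 * ‖Δ‖ := by ring
  have T2 : ‖(f : ℂ) * e * (X - 1 - A * Δ)‖ ≤ P * (5 * B ^ 2 * ‖Δ‖ ^ 2) := by
    rw [norm_mul]
    refine mul_le_mul hf ?_ (norm_nonneg _) hP
    have ee : X - 1 - A * Δ = (X - 1 - (A * Δ + ρ)) + ρ := by ring
    rw [ee]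
    have h2 := norm_add_le (X - 1 - (A * Δ + ρ)) (ρ : ℂ)
    rw [Complex.norm_real, Real.norm_eq_abs] at h2
    have h3 : ‖A * Δ + ρ‖ ^ 2 ≤ (2 * (B * ‖Δ‖)) ^ 2 := pow_le_pow_left₀ (norm_nonneg _) hθ 2
    have h4 : B * ‖Δ‖ ^ 2 ≤ B ^ 2 * ‖Δ‖ ^ 2 := mul_le_mul_of_nonneg_right hB2 (by positivity)
    nlinarith
  have T3 : ‖(g : ℂ) * (e * X) - f * e‖ ≤ (5 / 4 + 4 * P * B) * ‖Δ‖ := by
    have ee : (g : ℂ) * (e * X) - f * e = (g - f) * (e * X) + f * e * (X - 1) := by ring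
    rw [ee]
    have h2 := norm_add_le (((g : ℂ) - f) * (e * X)) (f * e * (X - 1))
    have h3 : ‖(f : ℂ) * e * (X - 1)‖ ≤ P * (4 * (B * ‖Δ‖)) := by
      rw [norm_mul]; exact mul_le_mul hf (by linarith) (norm_nonneg _) hP
    nlinarith
  have T4 : ‖A * (f * e) - A' * (g * (e * X))‖ ≤ (5 * P + 2) * B ^ 2 * ‖Δ‖ := by
    have ee : A * (f * e) - A' * (g * (e * X)) =
        -((A' - A) * (f * e)) - A' * (g * (e * X) - f * e) := by ring
    rw [ee]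
    have h2 := norm_sub_le (-((A' - A) * (f * e))) (A' * (g * (e * X) - f * e))
    rw [norm_neg, norm_mul, norm_mul A'] at h2
    have h3 : ‖A' - A‖ * ‖(f : ℂ) * e‖ ≤ B * ‖Δ‖ * P :=
      mul_le_mul hL hf (norm_nonneg _) (by positivity)
    have h4 : ‖A'‖ * ‖(g : ℂ) * (e * X) - f * e‖ ≤ B * ((5 / 4 + 4 * P * B) * ‖Δ‖) :=
      mul_le_mul hA' T3 (norm_nonneg _) (by linarith)
    have h5 : B * (‖Δ‖ * P) ≤ B ^ 2 * (‖Δ‖ * P) := mul_le_mul_of_nonneg_right hB2 (by positivity)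
    have h6 : B * ‖Δ‖ ≤ B ^ 2 * ‖Δ‖ := mul_le_mul_of_nonneg_right hB2 t0
    have h7 : 0 ≤ B ^ 2 * ‖Δ‖ := by positivity
    nlinarith
  generalize hR : (g : ℂ) * (e * X) - f * e - Δ * (A * (f * e) + A' * (g * (e * X))) / 2 = R
  have hRn : ‖R‖ ≤ 2 * ‖Δ‖ := by
    have ee : R = (g - f) * (e * X) + f * e * (X - 1 - A * Δ) +
        Δ * (A * (f * e) - A' * (g * (e * X))) / 2 := by rw [← hR]; ring
    have h2 : ‖Δ * (A * (f * e) - A' * (g * (e * X))) / 2‖ ≤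
        ‖Δ‖ * ((5 * P + 2) * B ^ 2 * ‖Δ‖) / 2 := by
      rw [norm_div, norm_mul, Complex.norm_two]
      exact div_le_div_of_nonneg_right (mul_le_mul_of_nonneg_left T4 t0) (by norm_num)
    have h3 := norm_add₃_le (a := ((g : ℂ) - f) * (e * X)) (b := f * e * (X - 1 - A * Δ))
      (c := Δ * (A * (f * e) - A' * (g * (e * X))) / 2)
    rw [← ee] at h3
    have h4 : ‖Δ‖ * (‖Δ‖ * (B ^ 2 * (8 * P + 6))) ≤ ‖Δ‖ * (3 / 4) :=
      mul_le_mul_of_nonneg_left ht t0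
    have h5 : 0 ≤ B ^ 2 * ‖Δ‖ ^ 2 := by positivity
    have h6 : 0 ≤ P * (B ^ 2 * ‖Δ‖ ^ 2) := by positivity
    nlinarith
  by_cases h0 : Δ = 0
  · refine ⟨e * X, 0, he', by simp, ?_⟩
    rw [hR, zero_mul]
    rw [h0, norm_zero, mul_zero] at hRn
    exact (norm_le_zero_iff.1 hRn).symm
  · refine ⟨e * X, R / Δ, he', ?_, ?_⟩
    · rw [norm_div, div_le_iff₀ (norm_pos_iff.2 h0)]; exact hRn
    · rw [hR, div_mul_cancel₀ _ h0]

end Pool.Agent.Lib.F4G.My
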