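import Pool.Agent.Lib.F4G.MyA

/-! Project f4g, the theorem of Myers for an atlas of discs: chains. -/

open Set Metric

noncomputable section

namespace Pool.Agent.Lib.F4G.My

/-- An atlas with uniform constants. -/
structure Gd {V I : Type} (p : V → I) (F : I → ℂ → ℝ) (J : V → ℂ → V → ℂ → Prop)
    (k B r : ℝ) : Prop extends Atl p F J k B r where
  hB : 1 ≤ B
  r8 : r ≤ 1 / 8
  tay : ∀ i (a b : ℂ), ‖a‖ ≤ 3 / 4 → ‖b‖ ≤ 3 / 4 →
    ‖Fw (F i) a‖ ≤ B ∧ ‖Fw (F i) b - Fw (F i) a‖ ≤ B * ‖b - a‖ ∧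
    |F i b - F i a - 2 * (Fw (F i) a * (b - a)).re| ≤ B * ‖b - a‖ ^ 2

/-- Chains of small steps and their cost. -/
inductive Ch {V I : Type} (p : V → I) (F : I → ℂ → ℝ) (J : V → ℂ → V → ℂ → Prop) (τ : ℝ) :
    V → ℂ → V → ℂ → ℝ → Prop
  | nil {v z w y} : J v z w y → Ch p F J τ v z w y 0
  | cons {v z u x x' w y L} : J v z u x → ‖x‖ ≤ 1 / 2 → ‖x'‖ ≤ 3 / 4 → ln (F (p u)) x x' ≤ τ →
      Ch p F J τ u x' w y L → Ch p F J τ v z w y (ln (F (p u)) x x' + L)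

variable {V I : Type} {p : V → I} {F : I → ℂ → ℝ} {J : V → ℂ → V → ℂ → Prop} {k B r τ : ℝ}

theorem Ch.nonneg {v w : V} {z y : ℂ} {L : ℝ} (c : Ch p F J τ v z w y L) : 0 ≤ L := by
  induction c with
  | nil _ => exact le_rfl
  | cons _ _ _ _ _ ih => exact add_nonneg (ln_nonneg _ _ _) ih

theorem Gd.jump (h : Gd p F J k B r) {v u w : V} {z x y : ℂ} {L : ℝ} (j : J v z u x)
    (c : Ch p F J τ u x w y L) : Ch p F J τ v z w y L := by
  cases c with
  | nil j' => exact .nil (h.trans _ _ _ _ _ _ j j')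
  | cons j' a b c d => exact .cons (h.trans _ _ _ _ _ _ j j') a b c d

theorem Gd.app (h : Gd p F J k B r) {v u w : V} {z x y : ℂ} {L L' : ℝ}
    (c : Ch p F J τ v z u x L) (c' : Ch p F J τ u x w y L') :
    Ch p F J τ v z w y (L + L') := by
  induction c with
  | nil j => rw [zero_add]; exact h.jump j c'
  | cons j a b c _ ih => rw [add_assoc]; exact .cons j a b c (ih c')

theorem Gd.trf (h : Gd p F J k B r) {u w : V} {x y x' : ℂ} (j : J u x w y) (hx : ‖x‖ ≤ 3 / 4)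
    (hy : ‖y‖ ≤ 3 / 4) (hd : ‖x' - x‖ < r) :
    ∃ y', ‖y'‖ < 1 ∧ J u x' w y' ∧ ln (F (p w)) y y' = ln (F (p u)) x x' := by
  obtain ⟨a, b, c, d, h1, rfl, h3⟩ := h.ext _ _ _ _ j hx hy
  obtain ⟨n1, -, -, e1⟩ := h3 x (by simpa using h.hr)
  obtain ⟨n2, l2, j2, e2⟩ := h3 x' hd
  exact ⟨_, l2, j2, ln_moeb h1 n1 n2 e1 e2⟩

theorem Gd.dist (h : Gd p F J k B r) (i : I) {a b : ℂ} (ha : ‖a‖ < 1) (hb : ‖b‖ < 1) :
    ‖b - a‖ ≤ Real.exp B * ln (F i) a b := norm_le_ln (h.bd i a ha) (h.bd i b hb)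

theorem norm_le_add {a b : ℂ} {s t : ℝ} (ha : ‖a‖ ≤ s) (h : ‖b - a‖ ≤ t) : ‖b‖ ≤ s + t := by
  have := norm_add_le a (b - a)
  rw [add_sub_cancel] at this
  linarith

theorem Gd.step1 (h : Gd p F J k B r) (hτ : Real.exp B * (2 * τ) < r) {u w : V} {x x' y : ℂ}
    {L : ℝ} (hx : ‖x‖ ≤ 3 / 4) (hx' : ‖x'‖ ≤ 3 / 4) (hl : ln (F (p u)) x x' ≤ τ)
    (c : Ch p F J τ u x' w y L) : Ch p F J τ u x w y (ln (F (p u)) x x' + L) := by
  have t0 : 0 ≤ τ := (ln_nonneg _ _ _).trans hl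
  have eB := Real.exp_pos B
  have d1 := h.dist (p u) (a := x) (b := x') (by linarith) (by linarith)
  have d2 : Real.exp B * ln (F (p u)) x x' ≤ Real.exp B * τ := mul_le_mul_of_nonneg_left hl eB.le
  have d3 : 0 ≤ Real.exp B * τ := by positivity
  obtain ⟨u2, x2, n2, j2⟩ := h.inn u x hx
  obtain ⟨x2', l2, j3, e⟩ := h.trf (x' := x') j2 hx (by linarith) (by linarith)
  have d4 := h.dist (p u2) (a := x2) (b := x2') (by linarith) l2
  rw [e] at d4
  have n3 : ‖x2'‖ ≤ 1 / 2 + 1 / 4 := norm_le_add n2 (by linarith [h.r8])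
  rw [← e]
  exact .cons j2 n2 (by linarith) (e ▸ hl) (h.jump (h.symm _ _ _ _ j3) c)

theorem Gd.lip (h : Gd p F J k B r) (i : I) {a b : ℂ} (ha : ‖a‖ ≤ 3 / 4) (hb : ‖b‖ ≤ 3 / 4)
    (hd : ‖b - a‖ ≤ 1) : |F i b - F i a| ≤ 3 * B * ‖b - a‖ := by
  obtain ⟨h1, -, h3⟩ := h.tay i a b ha hb
  have t0 := norm_nonneg (b - a)
  have h4 : |(Fw (F i) a * (b - a)).re| ≤ B * ‖b - a‖ := by
    refine (Complex.abs_re_le_norm _).trans ?_
    rw [norm_mul]; exact mul_le_mul_of_nonneg_right h1 t0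
  have h5 : B * ‖b - a‖ ^ 2 ≤ B * ‖b - a‖ :=
    mul_le_mul_of_nonneg_left (by nlinarith) (by linarith [h.hB])
  have := abs_le.1 h3; have := abs_le.1 h4
  rw [abs_le]; constructor <;> linarith

theorem half_le {G : ℂ → ℝ} {x x' a b : ℂ} {η : ℝ} (h1 : ‖b - a‖ = ‖x' - x‖ / 2)
    (h2 : G x + G x' - (G a + G b) ≤ 4 * η) (h0 : 0 ≤ η) (h6 : η ≤ 1 / 6) :
    ln G a b ≤ (1 + 2 * η) / 2 * ln G x x' := by
  unfold ln
  have e : -(G a + G b) / 4 = -(G x + G x') / 4 + (G x + G x' - (G a + G b)) / 4 := by ring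
  rw [h1, e, Real.exp_add]
  have h3 : Real.exp ((G x + G x' - (G a + G b)) / 4) ≤ 1 + 2 * η := by
    refine (Real.exp_le_exp.2 (by linarith : _ ≤ η)).trans ?_
    have := abs_le.1 (Real.abs_exp_sub_one_le (x := η) (by rw [abs_of_nonneg h0]; linarith))
    rw [abs_of_nonneg h0] at this
    linarith [this.2]
  have h4 : 0 ≤ ‖x' - x‖ * Real.exp (-(G x + G x') / 4) := by positivity
  nlinarith

theorem Gd.step2 (h : Gd p F J k B r) (hτ : Real.exp B * (2 * τ) < r) {η : ℝ}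
    (hη : B * (Real.exp B * (2 * τ)) ≤ η) (h6 : η ≤ 1 / 6) {u w : V} {x x' y : ℂ}
    {L : ℝ} (hx : ‖x‖ ≤ 3 / 4) (hx' : ‖x'‖ ≤ 3 / 4) (hl : ln (F (p u)) x x' ≤ 3 / 2 * τ)
    (c : Ch p F J τ u x' w y L) :
    ∃ L', Ch p F J τ u x w y L' ∧ L' ≤ (1 + 2 * η) * ln (F (p u)) x x' + L := by
  have l0 := ln_nonneg (F (p u)) x x'
  have t0 : 0 ≤ τ := by linarith
  have eB := Real.exp_pos B
  have hB := h.hB
  have h0 : 0 ≤ η := le_trans (by positivity) hη
  have d1 := h.dist (p u) (a := x) (b := x') (by linarith) (by linarith)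
  have d2 : ‖x' - x‖ ≤ Real.exp B * (2 * τ) :=
    d1.trans (mul_le_mul_of_nonneg_left (by linarith) eB.le)
  have d3 : B * ‖x' - x‖ ≤ η := (mul_le_mul_of_nonneg_left d2 (by linarith)).trans hη
  have n0 := norm_nonneg (x' - x)
  have hm : ‖(x + x') / 2‖ ≤ 3 / 4 := by
    rw [norm_div, Complex.norm_two]; linarith [norm_add_le x x']
  have e1 : ‖(x + x') / 2 - x‖ = ‖x' - x‖ / 2 := by
    rw [show (x + x') / 2 - x = (x' - x) / 2 by ring, norm_div, Complex.norm_two]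
  have e2 : ‖x' - (x + x') / 2‖ = ‖x' - x‖ / 2 := by
    rw [show x' - (x + x') / 2 = (x' - x) / 2 by ring, norm_div, Complex.norm_two]
  generalize (x + x') / 2 = m at hm e1 e2
  have r8 := h.r8
  have f1 := abs_le.1 (h.lip (p u) hx hm (by linarith))
  have f2 := abs_le.1 (h.lip (p u) hm hx' (by linarith))
  rw [e1] at f1; rw [e2] at f2
  have g1 := half_le (G := F (p u)) e1 (by nlinarith [f2.2]) h0 h6
  have g2 := half_le (G := F (p u)) e2 (by nlinarith [f1.1]) h0 h6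
  have g3 : (1 + 2 * η) / 2 * ln (F (p u)) x x' ≤ τ := by nlinarith
  exact ⟨_, h.step1 hτ hx hm (g1.trans g3) (h.step1 hτ hm hx' (g2.trans g3) c), by linarith⟩

/-- Two inner points of a disc are joined by a chain. -/
theorem Gd.seg (h : Gd p F J k B r) (hτ : Real.exp B * (2 * τ) < r) (t0 : 0 < τ) (u : V)
    {x x' : ℂ} (hx : ‖x‖ ≤ 3 / 4) (hx' : ‖x'‖ ≤ 3 / 4) : ∃ L, Ch p F J τ u x u x' L := by
  have eB := Real.exp_pos B
  have key : ∀ n : ℕ, ∀ x : ℂ, ‖x‖ ≤ 3 / 4 → ‖x' - x‖ ≤ n * (τ / Real.exp B) →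
      ∃ L, Ch p F J τ u x u x' L := by
    intro n
    induction n with
    | zero =>
      intro x hx hd
      have : x' = x := by simpa [sub_eq_zero] using hd
      exact ⟨0, .nil (this ▸ h.refl u x' (by linarith))⟩
    | succ n ih =>
      intro x hx hd
      have n1 : (0 : ℝ) < n + 1 := by positivity
      have n2 : ((n : ℂ) + 1) ≠ 0 := by exact_mod_cast n1.ne'
      have n3 : ‖(n : ℂ) + 1‖ = n + 1 := by
        rw [show (n : ℂ) + 1 = ((n + 1 : ℕ) : ℂ) by push_cast; rfl, Complex.norm_natCast]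
        push_cast; rfl
      push_cast at hd
      have hm : ‖(n * x + x') / (n + 1)‖ ≤ 3 / 4 := by
        rw [norm_div, n3, div_le_iff₀ n1]
        have := norm_add_le ((n : ℂ) * x) x'
        rw [norm_mul, Complex.norm_natCast] at this
        nlinarith [Nat.cast_nonneg (α := ℝ) n]
      have e1 : ‖(n * x + x') / (n + 1) - x‖ ≤ τ / Real.exp B := by
        rw [show (n * x + x') / (n + 1) - x = (x' - x) / (n + 1) by field_simp; ring, norm_div,
          n3, div_le_iff₀ n1]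
        linarith
      have e2 : ‖x' - (n * x + x') / (n + 1)‖ ≤ n * (τ / Real.exp B) := by
        rw [show x' - (n * x + x') / (n + 1) = n * (x' - x) / (n + 1) by field_simp; ring,
          norm_div, n3, div_le_iff₀ n1, norm_mul, Complex.norm_natCast]
        nlinarith [Nat.cast_nonneg (α := ℝ) n]
      generalize (n * x + x') / (n + 1) = m at hm e1 e2
      obtain ⟨L, c⟩ := ih m hm e2
      refine ⟨_, h.step1 hτ hx hm ?_ c⟩
      refine (ln_le_norm (h.bd _ x (by linarith)) (h.bd _ m (by linarith))).trans ?_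
      rwa [le_div_iff₀ eB, mul_comm] at e1
  obtain ⟨n, hn⟩ := exists_nat_ge (‖x' - x‖ / (τ / Real.exp B))
  exact key n x hx (by rwa [div_le_iff₀ (by positivity)] at hn)

theorem Gd.conn (h : Gd p F J k B r) (hτ : Real.exp B * (2 * τ) < r) (t0 : 0 < τ) {v w : V}
    (e : Relation.EqvGen (Lk J) v w) :
    (∃ L, Ch p F J τ v 0 w 0 L) ∧ ∃ L, Ch p F J τ w 0 v 0 L := by
  have z0 : ‖(0 : ℂ)‖ ≤ 3 / 4 := by norm_num
  have key : ∀ v w z y, ‖z‖ ≤ 3 / 4 → ‖y‖ ≤ 3 / 4 → J v z w y → ∃ L, Ch p F J τ v 0 w 0 L := by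
    intro v w z y hz hy j
    obtain ⟨L1, c1⟩ := h.seg hτ t0 v z0 hz
    obtain ⟨L2, c2⟩ := h.seg hτ t0 w hy z0
    exact ⟨_, h.app c1 (h.jump j c2)⟩
  induction e with
  | rel v w l =>
    obtain ⟨z, y, hz, hy, j⟩ := l
    exact ⟨key _ _ _ _ hz hy j, key _ _ _ _ hy hz (h.symm _ _ _ _ j)⟩
  | refl v => exact ⟨⟨0, .nil (h.refl v 0 (by simp))⟩, ⟨0, .nil (h.refl v 0 (by simp))⟩⟩
  | symm _ _ _ ih => exact ih.symm
  | trans _ _ _ _ _ ih1 ih2 =>
    obtain ⟨⟨_, a⟩, ⟨_, b⟩⟩ := ih1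
    obtain ⟨⟨_, c⟩, ⟨_, d⟩⟩ := ih2
    exact ⟨⟨_, h.app a c⟩, ⟨_, h.app d b⟩⟩

/-- Joined by `n` links. -/
def Nl (J : V → ℂ → V → ℂ → Prop) : ℕ → V → V → Prop
  | 0, v, w => v = w
  | n + 1, v, w => ∃ u, Lk J v u ∧ Nl J n u w

theorem Nl.seq {n : ℕ} {v w : V} (h : Nl J n v w) :
    ∃ u : ℕ → V, u 0 = v ∧ u n = w ∧ ∀ j < n, Lk J (u j) (u (j + 1)) := by
  induction n generalizing v with
  | zero => exact ⟨fun _ => v, rfl, h, fun j hj => absurd hj (Nat.not_lt_zero j)⟩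
  | succ n ih =>
    obtain ⟨u, l, h'⟩ := h
    obtain ⟨f, f0, fn, fl⟩ := ih h'
    refine ⟨fun j => Nat.casesOn j v f, rfl, fn, fun j hj => ?_⟩
    cases j with
    | zero => rw [← f0] at l; exact l
    | succ j => exact fl j (by omega)

theorem Gd.pad (h : Gd p F J k B r) (n : ℕ) (w : V) : Nl J n w w := by
  induction n with
  | zero => rfl
  | succ n ih => exact ⟨w, ⟨0, 0, by norm_num, by norm_num, h.refl w 0 (by simp)⟩, ih⟩

theorem Gd.grp (h : Gd p F J k B r) (hτ : Real.exp B * (2 * τ) < r) {u w : V} {x y : ℂ} {L : ℝ}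
    (c : Ch p F J τ u x w y L) (hy : ‖y‖ ≤ 3 / 4) : ∀ (v : V) (z : ℂ) (θ : ℝ) (n : ℕ),
    J v z u x → ‖z‖ ≤ 1 / 2 + θ → θ ≤ 1 / 4 → θ + Real.exp B * L ≤ n / 8 →
    Nl J (n + 1) v w := by
  have eB := Real.exp_pos B
  have r8 := h.r8
  induction c with
  | nil j =>
    intro v z θ n j0 hz h4 _
    exact ⟨_, ⟨z, _, by linarith, hy, h.trans _ _ _ _ _ _ j0 j⟩, h.pad n _⟩
  | @cons u x u2 x2 x2' w y L j n2 n2' hl c ih =>
    intro v z θ n j0 hz h4 hn
    have j1 := h.trans _ _ _ _ _ _ j0 j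
    have l0 := ln_nonneg (F (p u2)) x2 x2'
    have d1 := h.dist (p u2) (a := x2) (b := x2') (by linarith) (by linarith)
    have d2 : Real.exp B * ln (F (p u2)) x2 x2' ≤ Real.exp B * τ :=
      mul_le_mul_of_nonneg_left hl eB.le
    have d3 : 0 ≤ Real.exp B * ln (F (p u2)) x2 x2' := by positivity
    have L0 : 0 ≤ Real.exp B * L := mul_nonneg eB.le c.nonneg
    rw [mul_add] at hn
    by_cases hc : θ + Real.exp B * ln (F (p u2)) x2 x2' ≤ 1 / 4
    · obtain ⟨z', l', j2, e⟩ := h.trf (x' := x2') (h.symm _ _ _ _ j1) (by linarith) (by linarith)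
        (by linarith)
      have d4 := h.dist (p v) (a := z) (b := z') (by linarith) l'
      rw [e] at d4
      exact ih hy v z' _ n (h.symm _ _ _ _ j2) (by linarith [norm_le_add hz d4]) hc (by linarith)
    · cases n with
      | zero => exfalso; simp only [Nat.cast_zero, zero_div] at hn; linarith
      | succ n =>
        push_cast at hn
        exact ⟨u2, ⟨z, x2, by linarith, by linarith, j1⟩,
          ih hy u2 x2' _ n (h.refl _ _ (by linarith)) (norm_le_add n2 d1) (by linarith)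
            (by linarith)⟩

end Pool.Agent.Lib.F4G.My
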