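import Pool.Agent.Lib.F4G.MyB

/-! Project f4g, the theorem of Myers for an atlas of discs: long chains can be shortened. -/

open Set Metric

noncomputable section

namespace Pool.Agent.Lib.F4G.My

/-- The tent function. -/
def tent (H t : ℝ) : ℝ := max 0 (min t (3 * H + 1 - t))

/-- The potential. -/
def pot (H t : ℝ) : ℝ := 4 * max 0 (3 * H + 2 - t) - 21 * max 0 (2 * H + 1 - max t (H + 1))

theorem tent_nonneg (H t : ℝ) : 0 ≤ tent H t := le_max_left _ _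

theorem tent_le {H t : ℝ} (h : 1 ≤ H) : tent H t ≤ 3 * H + 1 := by
  unfold tent; simp only [max_def, min_def]; split_ifs <;> linarith

theorem tent_zero {H t : ℝ} (h : 3 * H + 1 ≤ t) : tent H t = 0 := by
  unfold tent; exact max_eq_left ((min_le_right _ _).trans (by linarith))

theorem tent_lip {H t δ : ℝ} (h : 0 ≤ δ) : |tent H (t + δ) - tent H t| ≤ δ := by
  unfold tent; rw [abs_le]; simp only [max_def, min_def]
  constructor <;> split_ifs <;> linarith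

theorem pot_nonneg {H t : ℝ} (h1 : 1 ≤ H) (h : 3 * H + 1 ≤ t) : 0 ≤ pot H t := by
  unfold pot; simp only [max_def]; split_ifs <;> linarith

theorem pot_zero {H : ℝ} (h1 : 1 ≤ H) : pot H 0 ≤ -1 := by
  unfold pot; simp only [max_def]; split_ifs <;> linarith

theorem pot_step {H t δ k : ℝ} (h1 : 1 ≤ H) (hk : 0 < k) (hH : 21 ≤ k / 4 * H ^ 2)
    (ht : t < 3 * H + 1) (h0 : 0 ≤ δ) (hδ : δ ≤ 1) :
    δ * (4 - k / 4 * tent H t ^ 2) + pot H (t + δ) ≤ pot H t := by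
  have k0 : 0 ≤ δ * (k / 4 * tent H t ^ 2) := by positivity
  by_cases hc : H ≤ t ∧ t ≤ 2 * H + 1
  · have a : H ≤ tent H t := le_max_of_le_right (le_min hc.1 (by linarith [hc.2]))
    have b : H ^ 2 ≤ tent H t ^ 2 := pow_le_pow_left₀ (by linarith) a 2
    have c : 21 ≤ k / 4 * tent H t ^ 2 := hH.trans (mul_le_mul_of_nonneg_left b (by positivity))
    have d : δ * 21 ≤ δ * (k / 4 * tent H t ^ 2) := mul_le_mul_of_nonneg_left c h0
    rw [mul_sub]
    unfold pot; simp only [max_def]; split_ifs <;> linarith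
  · rw [mul_sub]
    rw [not_and_or, not_le, not_le] at hc
    unfold pot; simp only [max_def]
    rcases hc with hc | hc <;> split_ifs <;> linarith

variable {V I : Type} {p : V → I} {F : I → ℂ → ℝ} {J : V → ℂ → V → ℂ → Prop} {k B r τ : ℝ}

/-- The choice of the small constants. -/
structure Sm (F : I → ℂ → ℝ) (k B r H P s η τ : ℝ) : Prop where
  H1 : 1 ≤ H
  Hk : 21 ≤ k / 4 * H ^ 2
  eP : (3 * H + 1) * Real.exp B ≤ P
  s0 : 0 < s
  s1 : s * B * P ≤ 1
  s2 : 2 * s * P < r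
  e0 : 0 ≤ η
  e1 : η ≤ 1 / 6
  e2 : 2 * η * (1 + 3 * s ^ 2) ≤ s ^ 2
  t0 : 0 < τ
  t1 : τ ≤ 1
  t2 : Real.exp B * (2 * τ) < r
  t3 : B * (Real.exp B * (2 * τ)) ≤ η
  t4 : Real.exp B * τ * (B ^ 2 * (8 * P + 6)) ≤ 3 / 4
  st : ∀ i, ∀ a b u v q : ℂ, ‖a‖ ≤ 5 / 8 → ‖b‖ ≤ 5 / 8 → ‖u‖ ≤ P → ‖v‖ ≤ P →
    q * (b - a) = v - u - (b - a) * (Fw (F i) a * u + Fw (F i) b * v) / 2 → ‖q‖ ≤ 2 →
    (∀ ζ : ℂ, ‖ζ‖ = s → ln (F i) (mv (F i) a u ζ) (mv (F i) b v ζ) ≤ 3 / 2 * ln (F i) a b) ∧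
    ln (F i) (mv (F i) a u s) (mv (F i) b v s) +
      ln (F i) (mv (F i) a u (s * Complex.I)) (mv (F i) b v (s * Complex.I)) +
      ln (F i) (mv (F i) a u (-s)) (mv (F i) b v (-s)) +
      ln (F i) (mv (F i) a u (-(s * Complex.I))) (mv (F i) b v (-(s * Complex.I))) ≤
      4 * ln (F i) a b * (1 + s ^ 2 * (3 - k / 4 * (Real.exp (-F i a) * ‖u‖ ^ 2)))

theorem Gd.diff (h : Gd p F J k B r) (i : I) {z : ℂ} (hz : ‖z‖ < 1) :
    DifferentiableAt ℝ (F i) z :=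
  ((h.cv i).1.contDiffAt (isOpen_ball.mem_nhds (by simpa using hz))).differentiableAt
    (by norm_num)

theorem Gd.vec (h : Gd p F J k B r) {H P s η : ℝ} (S : Sm F k B r H P s η τ) (i : I) {z e : ℂ}
    (hz : ‖z‖ < 1) (he : ‖e‖ = Real.exp (F i z / 2)) (t : ℝ) : ‖(tent H t : ℂ) * e‖ ≤ P := by
  rw [norm_mul, Complex.norm_real, Real.norm_eq_abs, abs_of_nonneg (tent_nonneg _ _), he]
  refine le_trans (mul_le_mul (tent_le S.H1) (Real.exp_le_exp.2 ?_) (Real.exp_pos _).le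
    (by linarith [S.H1])) S.eP
  have := abs_le.1 (h.bd i z hz)
  linarith [h.hB]

/-- The perturbation passes through an identification. -/
theorem Gd.jmv (h : Gd p F J k B r) (hC : St_COV) {H P s η : ℝ} (S : Sm F k B r H P s η τ)
    {v u : V} {z x e : ℂ} (j : J v z u x) (hz : ‖z‖ ≤ 3 / 4) (hx : ‖x‖ ≤ 3 / 4)
    (he : ‖e‖ = Real.exp (F (p v) z / 2)) (t : ℝ) :
    ∃ e2 : ℂ, ‖e2‖ = Real.exp (F (p u) x / 2) ∧ ∀ ζ : ℂ, ‖ζ‖ = s →
      J v (mv (F (p v)) z (tent H t * e) ζ) u (mv (F (p u)) x (tent H t * e2) ζ) := by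
  obtain ⟨a, b, c, d, h1, rfl, h3⟩ := h.ext _ _ _ _ j hz hx
  obtain ⟨n1, l1, -, e1⟩ := h3 z (by simpa using h.hr)
  have pq : 0 < ‖c * z + d‖ := norm_pos_iff.2 n1
  have cov := hC (F (p v)) (F (p u)) a b c d z h1 n1 (h.diff _ (by linarith)) (h.diff _ l1) (by
    filter_upwards [ball_mem_nhds z h.hr] with y hy
    exact (h3 y (by rwa [mem_ball, dist_eq_norm] at hy)).2.2.2)
  refine ⟨e / (c * z + d) ^ 2, ?_, fun ζ hζ => ?_⟩
  · rw [norm_div, norm_pow, he, e1,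
      show (F (p v) z - 4 * Real.log ‖c * z + d‖) / 2 =
        F (p v) z / 2 - (Real.log ‖c * z + d‖ + Real.log ‖c * z + d‖) by ring,
      Real.exp_sub, Real.exp_add, Real.exp_log pq, sq]
  · have hA := (h.tay (p v) z z hz hz).1
    have hu := h.vec S (p v) (by linarith) he t
    have d1 := mv_sub hA hu hζ S.s1
    obtain ⟨n2, -, j2, -⟩ := h3 _ (d1.trans_lt S.s2)
    have d2 := den_ge hA hu hζ S.s1
    rw [mv_moeb h1 n1 cov (by intro h0; rw [h0, norm_zero] at d2; linarith) n2,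
      mul_div_assoc] at j2
    exact j2

theorem Gd.pert (h : Gd p F J k B r) (hC : St_COV) {H P s η : ℝ} (S : Sm F k B r H P s η τ)
    {v w : V} {z y : ℂ} {L : ℝ} (c : Ch p F J τ v z w y L) : ∀ (t : ℝ) (e : ℂ), ‖z‖ ≤ 5 / 8 →
    ‖e‖ = Real.exp (F (p v) z / 2) → 3 * H + 1 ≤ t + L →
    ∃ Lf : ℂ → ℝ, (∀ ζ : ℂ, ‖ζ‖ = s →
      Ch p F J τ v (mv (F (p v)) z (tent H t * e) ζ) w y (Lf ζ)) ∧
      Lf s + Lf (s * Complex.I) + Lf (-s) + Lf (-(s * Complex.I)) ≤
        4 * L + 4 * s ^ 2 * pot H t := by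
  have late : ∀ {v w : V} {z y : ℂ} {L : ℝ}, Ch p F J τ v z w y L → ∀ (t : ℝ) (e : ℂ),
      3 * H + 1 ≤ t → ∃ Lf : ℂ → ℝ, (∀ ζ : ℂ, ‖ζ‖ = s →
      Ch p F J τ v (mv (F (p v)) z (tent H t * e) ζ) w y (Lf ζ)) ∧
      Lf s + Lf (s * Complex.I) + Lf (-s) + Lf (-(s * Complex.I)) ≤
        4 * L + 4 * s ^ 2 * pot H t := by
    intro v w z y L c t e ht
    refine ⟨fun _ => L, fun ζ _ => ?_, ?_⟩
    · rw [tent_zero ht, Complex.ofReal_zero, zero_mul, mv_zero]; exact c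
    · have : 0 ≤ 4 * s ^ 2 * pot H t := mul_nonneg (by positivity) (pot_nonneg S.H1 ht)
      linarith
  have eB := Real.exp_pos B
  have r8 := h.r8
  have hB := h.hB
  have P0 : 0 ≤ P := le_trans (mul_nonneg (by linarith [S.H1]) eB.le) S.eP
  induction c with
  | nil j => intro t e _ _ ht; exact late (.nil j) t e (by linarith)
  | @cons v z u x x' w y L j nx nx' hl c ih =>
    intro t e hz he hL
    by_cases ht : 3 * H + 1 ≤ t
    · exact late (.cons j nx nx' hl c) t e ht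
    rw [not_le] at ht
    obtain ⟨e2, he2, hj⟩ := h.jmv hC S j (by linarith) (by linarith) he t
    have l0 := ln_nonneg (F (p u)) x x'
    have d1 := h.dist (p u) (a := x) (b := x') (by linarith) (by linarith)
    have d2 : ‖x' - x‖ ≤ Real.exp B * τ := d1.trans (mul_le_mul_of_nonneg_left hl eB.le)
    have d3 : Real.exp B * τ ≤ 1 / 8 := by
      have := S.t2; have := mul_pos eB S.t0; linarith
    have n5 : ‖x'‖ ≤ 5 / 8 := by linarith [norm_le_add nx (d2.trans d3)]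
    obtain ⟨a1, a2, a3⟩ := h.tay (p u) x x' (by linarith) nx'
    have a4 := (h.tay (p u) x' x' nx' nx').1
    have u1 := h.vec S (p u) (z := x) (by linarith) he2 t
    obtain ⟨e', q, he', q2, hq⟩ := par hB P0 a1 a4 a2 a3 he2 u1 (tent_lip l0)
      ((mul_le_mul_of_nonneg_right d2 (by positivity)).trans S.t4)
    have u2 := h.vec S (p u) (z := x') (by linarith) he' (t + ln (F (p u)) x x')
    obtain ⟨b1, b2⟩ := S.st (p u) x x' _ _ q (by linarith) n5 u1 u2 hq q2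
    obtain ⟨Lf, c1, c2⟩ := ih (t + ln (F (p u)) x x') e' n5 he' (by linarith)
    have key : ∀ ζ : ℂ, ∃ L', ‖ζ‖ = s →
        Ch p F J τ v (mv (F (p v)) z (tent H t * e) ζ) w y L' ∧
        L' ≤ (1 + 2 * η) * ln (F (p u)) (mv (F (p u)) x (tent H t * e2) ζ)
          (mv (F (p u)) x' (tent H (t + ln (F (p u)) x x') * e') ζ) + Lf ζ := by
      intro ζ
      by_cases hζ : ‖ζ‖ = s
      · have m1 := norm_le_add nx ((mv_sub a1 u1 hζ S.s1).trans (S.s2.le.trans r8))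
        have m2 := norm_le_add n5 ((mv_sub a4 u2 hζ S.s1).trans (S.s2.le.trans r8))
        obtain ⟨L', c3, c4⟩ := h.step2 S.t2 S.t3 S.e1 (by linarith) (by linarith)
          ((b1 ζ hζ).trans (by linarith)) (c1 ζ hζ)
        exact ⟨L', fun _ => ⟨h.jump (hj ζ hζ) c3, c4⟩⟩
      · exact ⟨0, fun h => absurd h hζ⟩
    choose Lg hg using key
    refine ⟨Lg, fun ζ hζ => (hg ζ hζ).1, ?_⟩
    have s0 := S.s0
    have z1 : ‖(s : ℂ)‖ = s := by rw [Complex.norm_real, Real.norm_eq_abs, abs_of_pos s0]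
    have z2 : ‖(s : ℂ) * Complex.I‖ = s := by rw [norm_mul, z1, Complex.norm_I, mul_one]
    have g1 := (hg _ z1).2
    have g2 := (hg _ z2).2
    have g3 := (hg (-s) (by rw [norm_neg, z1])).2
    have g4 := (hg (-(s * Complex.I)) (by rw [norm_neg, z2])).2
    have ek : Real.exp (-F (p u) x) * ‖(tent H t : ℂ) * e2‖ ^ 2 = tent H t ^ 2 := by
      rw [norm_mul, Complex.norm_real, Real.norm_eq_abs, abs_of_nonneg (tent_nonneg _ _), he2,
        mul_pow, sq (Real.exp _), ← Real.exp_add, add_halves, Real.exp_neg]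
      field_simp
    rw [ek] at b2
    have g5 := mul_le_mul_of_nonneg_left b2 (by linarith [S.e0] : 0 ≤ 1 + 2 * η)
    have g6 := pot_step S.H1 h.hk S.Hk ht l0 (hl.trans S.t1)
    have k0 : 0 ≤ k / 4 * tent H t ^ 2 := by have := h.hk; positivity
    generalize k / 4 * tent H t ^ 2 = κ at *
    generalize ln (F (p u)) x x' = δ at *
    have g7 : (1 + 2 * η) * (1 + s ^ 2 * (3 - κ)) ≤ 1 + s ^ 2 * (4 - κ) := by
      have := S.e2
      have : 0 ≤ η * (s ^ 2 * κ) := mul_nonneg S.e0 (by positivity)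
      nlinarith
    have g8 := mul_le_mul_of_nonneg_left g7 (by positivity : 0 ≤ 4 * δ)
    have g9 := mul_le_mul_of_nonneg_left g6 (by positivity : 0 ≤ 4 * s ^ 2)
    nlinarith

theorem Gd.short (h : Gd p F J k B r) (hC : St_COV) {H P s η : ℝ} (S : Sm F k B r H P s η τ)
    {v w : V} {L : ℝ} (c : Ch p F J τ v 0 w 0 L) :
    ∃ L', Ch p F J τ v 0 w 0 L' ∧ L' ≤ 3 * H + 1 := by
  have s0 := S.s0
  have s2 : 0 < s ^ 2 := by positivity
  have key : ∀ n : ℕ, ∀ L, Ch p F J τ v 0 w 0 L → L ≤ 3 * H + 1 + n * s ^ 2 →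
      ∃ L', Ch p F J τ v 0 w 0 L' ∧ L' ≤ 3 * H + 1 := by
    intro n
    induction n with
    | zero => intro L c hL; exact ⟨L, c, by simpa using hL⟩
    | succ n ih =>
      intro L c hL
      by_cases h1 : L ≤ 3 * H + 1
      · exact ⟨L, c, h1⟩
      obtain ⟨Lf, c1, c2⟩ := h.pert hC S c 0 (Real.exp (F (p v) 0 / 2) : ℝ) (by norm_num)
        (by rw [Complex.norm_real, Real.norm_eq_abs, abs_of_pos (Real.exp_pos _)]) (by linarith)
      have t0 : tent H 0 = 0 := max_eq_left (min_le_left _ _)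
      simp only [t0, Complex.ofReal_zero, zero_mul, mv_zero] at c1
      have z1 : ‖(s : ℂ)‖ = s := by rw [Complex.norm_real, Real.norm_eq_abs, abs_of_pos s0]
      have z2 : ‖(s : ℂ) * Complex.I‖ = s := by rw [norm_mul, z1, Complex.norm_I, mul_one]
      have p0 := mul_le_mul_of_nonneg_left (pot_zero S.H1) (by positivity : 0 ≤ 4 * s ^ 2)
      push_cast at hL
      by_contra hn
      have f : ∀ ζ : ℂ, ‖ζ‖ = s → 3 * H + 1 + n * s ^ 2 < Lf ζ := fun ζ hζ =>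
        not_le.1 fun hle => hn (ih _ (c1 ζ hζ) hle)
      have g1 := f _ z1
      have g2 := f _ z2
      have g3 := f (-s) (by rw [norm_neg, z1])
      have g4 := f (-(s * Complex.I)) (by rw [norm_neg, z2])
      linarith
  obtain ⟨n, hn⟩ := exists_nat_ge (L / s ^ 2)
  rw [div_le_iff₀ s2] at hn
  exact key n L c (by linarith [S.H1])

end Pool.Agent.Lib.F4G.My
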