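import Pool.Agent.Lib.F4G.MyC

/-! Project f4g, the theorem of Myers for an atlas of discs: choice of the constants. -/

open Set Metric Filter Topology

noncomputable section

namespace Pool.Agent.Lib.F4G.My

theorem ev_small (C : ℝ) {ε : ℝ} (h : 0 < ε) : ∀ᶠ s in 𝓝[>] (0 : ℝ), s * C < ε := by
  have : Tendsto (fun s : ℝ => s * C) (𝓝 0) (𝓝 (0 * C)) := tendsto_id.mul_const C
  rw [zero_mul] at this
  exact (this.mono_left nhdsWithin_le_nhds).eventually (gt_mem_nhds h)

variable {V I : Type} {p : V → I} {F : I → ℂ → ℝ} {J : V → ℂ → V → ℂ → Prop} {k B r : ℝ}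

theorem Atl.gd [Finite I] (hT : St_TAY) (h : Atl p F J k B r) : ∃ B' r', Gd p F J k B' r' := by
  choose T T1 T2 using fun i => hT (F i) (h.cv i).1
  obtain ⟨M, hM⟩ := Finite.exists_le T
  have b : ∀ i, T i ≤ max (max B 1) M := fun i => (hM i).trans (le_max_right _ _)
  refine ⟨max (max B 1) M, min r (1 / 8), ⟨h.hk, lt_min h.hr (by norm_num), h.cv,
    fun i z hz => (h.bd i z hz).trans ((le_max_left _ _).trans (le_max_left _ _)), h.refl, h.symm,
    h.trans, h.inn, fun v z w y j hz hy => ?_⟩, (le_max_right _ _).trans (le_max_left _ _),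
    min_le_right _ _, fun i x y hx hy => ?_⟩
  · obtain ⟨a, b, c, d, h1, h2, h3⟩ := h.ext v z w y j hz hy
    exact ⟨a, b, c, d, h1, h2, fun x hx => h3 x (hx.trans_le (min_le_left _ _))⟩
  · obtain ⟨t1, t2, t3⟩ := T2 i x y hx hy
    exact ⟨t1.trans (b i), t2.trans (mul_le_mul_of_nonneg_right (b i) (norm_nonneg _)),
      t3.trans (mul_le_mul_of_nonneg_right (b i) (by positivity))⟩

theorem Gd.sm [Finite I] (hS : St_STEP) (h : Gd p F J k B r) :
    ∃ H P s η τ, Sm F k B r H P s η τ := by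
  have hk := h.hk
  have hr := h.hr
  have k1 : 0 < 84 / k := by positivity
  have Hk : 21 ≤ k / 4 * (1 + 84 / k) ^ 2 := by
    have e : k / 4 * (84 / k) = 21 := by field_simp; norm_num
    have : 84 / k ≤ (1 + 84 / k) ^ 2 := by nlinarith
    exact e ▸ mul_le_mul_of_nonneg_left this (by positivity)
  have H1 : 1 ≤ 1 + 84 / k := by linarith
  generalize 1 + 84 / k = H at Hk H1
  have P0 : 0 < (3 * H + 1) * Real.exp B := by positivity
  generalize hP : (3 * H + 1) * Real.exp B = P at P0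
  choose s0 s1 s2 using fun i => hS (F i) k P hk P0 (h.cv i)
  obtain ⟨s, ⟨a1, a2, a3, a4⟩, a0⟩ := (((eventually_all.2 fun i => ev_small 1 (s1 i)).and
    ((ev_small (B * P) one_pos).and ((ev_small (2 * P) hr).and (ev_small 1 one_pos)))).and
    self_mem_nhdsWithin).exists
  have a0 : 0 < s := a0
  have η0 : 0 < s ^ 2 / 8 := by positivity
  have ss : s ^ 2 ≤ 1 := by nlinarith
  obtain ⟨τ, ⟨b1, b2, b3, b4⟩, b0⟩ := (((ev_small 1 one_pos).and
    ((ev_small (Real.exp B * 2) hr).and ((ev_small (B * (Real.exp B * 2)) η0).and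
    (ev_small (Real.exp B * (B ^ 2 * (8 * P + 6))) (by norm_num : (0 : ℝ) < 3 / 4))))).and
    self_mem_nhdsWithin).exists
  exact ⟨H, P, s, s ^ 2 / 8, τ, H1, Hk, hP.le, a0, by linarith, by linarith, η0.le, by linarith,
    by nlinarith, b0, by linarith, by linarith, by linarith, by linarith,
    fun i => s2 i s a0 (by linarith [a1 i])⟩

theorem myers_of (hS : St_STEP) (hT : St_TAY) (hC : St_COV) : St_MYERS := by
  intro V I _ p F J k B r h
  obtain ⟨B, r, h⟩ := h.gd hT
  obtain ⟨H, P, s, η, τ, S⟩ := h.sm hS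
  obtain ⟨n, hn⟩ := exists_nat_ge (8 * (Real.exp B * (3 * H + 1)))
  refine ⟨n + 1, fun v w e => Nl.seq ?_⟩
  obtain ⟨L, c⟩ := (h.conn S.t2 S.t0 e).1
  obtain ⟨L', c', hL⟩ := h.short hC S c
  refine h.grp S.t2 c' (by norm_num) v 0 0 n (h.refl v 0 (by simp)) (by norm_num) (by norm_num) ?_
  have := mul_le_mul_of_nonneg_left hL (Real.exp_pos B).le
  linarith

end Pool.Agent.Lib.F4G.My
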