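import Mathlib

/-! Project f4g, the theorem of Myers for an atlas of discs: definitions and leaves. -/

open Set Metric

noncomputable section

namespace Pool.Agent.Lib.F4G.My

/-- The derivative in `w`. -/
def Fw (F : ℂ → ℝ) (a : ℂ) : ℂ :=
  (((fderiv ℝ F a 1 : ℝ) : ℂ) - Complex.I * ((fderiv ℝ F a Complex.I : ℝ) : ℂ)) / 2

/-- The covariant perturbation of the point `a` in the direction `u`. -/
def mv (F : ℂ → ℝ) (a u ζ : ℂ) : ℂ := a + ζ * u / (1 - ζ * Fw F a * u / 2)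

/-- The invariant cost of a step. -/
def ln (F : ℂ → ℝ) (a b : ℂ) : ℝ := ‖b - a‖ * Real.exp (-(F a + F b) / 4)

/-- The metric `exp (-F) |dw|^2` has curvature at least `2 k` on the unit disc. -/
def Cv (k : ℝ) (F : ℂ → ℝ) : Prop := ContDiffOn ℝ 2 F (ball 0 1) ∧ ∀ z ∈ ball (0 : ℂ) 1,
  4 * k * Real.exp (-F z) ≤
    fderiv ℝ (fderiv ℝ F) z 1 1 + fderiv ℝ (fderiv ℝ F) z Complex.I Complex.I

/-- The mean of a perturbed step over four directions. -/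
def St_STEP : Prop := ∀ (F : ℂ → ℝ) (k L : ℝ), 0 < k → 0 < L → Cv k F →
  ∃ s0 : ℝ, 0 < s0 ∧ ∀ s : ℝ, 0 < s → s ≤ s0 → ∀ a b u v q : ℂ, ‖a‖ ≤ 5 / 8 → ‖b‖ ≤ 5 / 8 →
    ‖u‖ ≤ L → ‖v‖ ≤ L → q * (b - a) = v - u - (b - a) * (Fw F a * u + Fw F b * v) / 2 →
    ‖q‖ ≤ 2 →
    (∀ ζ : ℂ, ‖ζ‖ = s → ln F (mv F a u ζ) (mv F b v ζ) ≤ 3 / 2 * ln F a b) ∧
    ln F (mv F a u s) (mv F b v s) +
      ln F (mv F a u (s * Complex.I)) (mv F b v (s * Complex.I)) +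
      ln F (mv F a u (-s)) (mv F b v (-s)) +
      ln F (mv F a u (-(s * Complex.I))) (mv F b v (-(s * Complex.I))) ≤
      4 * ln F a b * (1 + s ^ 2 * (3 - k / 4 * (Real.exp (-F a) * ‖u‖ ^ 2)))

/-- First order bounds on a smaller disc. -/
def St_TAY : Prop := ∀ F : ℂ → ℝ, ContDiffOn ℝ 2 F (ball 0 1) →
  ∃ B : ℝ, 1 ≤ B ∧ ∀ a b : ℂ, ‖a‖ ≤ 3 / 4 → ‖b‖ ≤ 3 / 4 →
    ‖Fw F a‖ ≤ B ∧ ‖Fw F b - Fw F a‖ ≤ B * ‖b - a‖ ∧
    |F b - F a - 2 * (Fw F a * (b - a)).re| ≤ B * ‖b - a‖ ^ 2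

/-- The transformation rule of the derivative under a Moebius map. -/
def St_COV : Prop := ∀ (F G : ℂ → ℝ) (a b c d z : ℂ), a * d - b * c = 1 → c * z + d ≠ 0 →
  DifferentiableAt ℝ F z → DifferentiableAt ℝ G ((a * z + b) / (c * z + d)) →
  (∀ᶠ y in nhds z, G ((a * y + b) / (c * y + d)) = F y - 4 * Real.log ‖c * y + d‖) →
  Fw G ((a * z + b) / (c * z + d)) = (c * z + d) ^ 2 * Fw F z - 2 * c * (c * z + d)

end Pool.Agent.Lib.F4G.My
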