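import Pool.Agent.Lib.F4.M7

/-! Project f4g: the system of rank two of a projective triple; its solutions change by a constant
matrix of determinant one. -/

open scoped Classical Topology ContDiff Matrix
open Set Filter Metric

set_option linter.unusedVariables false

noncomputable section

namespace Pool.Agent.Lib.F4G

open Pool.Agent.Lib.SV (E)
open Pool.Agent.Lib.HS32 Pool.Agent.Lib.F4

variable {n : ℕ}

/-- The pair `s`, `u` solves the system of rank two at `z`. -/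
structure Sys (al be ga : E n → E n) (s u : E n → ℂ) (z : E n) : Prop where
  ds : DifferentiableAt ℂ s z
  du : DifferentiableAt ℂ u z
  es : ∀ k, dz k s z = be z k * s z / 2 + al z k * u z
  eu : ∀ k, dz k u z = ga z k * s z / 2 - be z k * u z / 2

/-- Two solutions with determinant one. -/
structure Dv2 (al be ga : E n → E n) (s u t v : E n → ℂ) (z : E n) : Prop where
  h1 : Sys al be ga s u z
  h2 : Sys al be ga t v z
  dt : s z * v z - u z * t z = 1

namespace R85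

open scoped Matrix.Norms.Operator
open Pool.Agent.Lib.F4.M7

/-- Matrices from their entries. -/
def ofL : (Fin 2 → Fin 2 → ℂ) →L[ℂ] Mat 2 :=
  LinearMap.toContinuousLinearMap (Matrix.ofLinearEquiv ℂ).toLinearMap

/-- An entry. -/
def enL (i j : Fin 2) : Mat 2 →L[ℂ] ℂ :=
  LinearMap.toContinuousLinearMap (Matrix.entryLinearMap ℂ ℂ i j)

theorem mat_d {A : E n → Mat 2} {z : E n} (h : ∀ i j, DifferentiableAt ℂ (A · i j) z) :
    DifferentiableAt ℂ A z ∧
      ∀ k, fderiv ℂ A z (Pi.single k 1) = Matrix.of fun i j => dz k (A · i j) z := by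
  have a : DifferentiableAt ℂ A z :=
    (ofL.differentiableAt.comp z (differentiableAt_pi.2 fun i => differentiableAt_pi.2 (h i)) :)
  refine ⟨a, fun k => Matrix.ext fun i j => ?_⟩
  rw [Matrix.of_apply, (mHOL n _ z).2.1 (h i j)]
  exact (congrArg (fun D : E n →L[ℂ] ℂ => D (Pi.single k 1))
    ((enL i j).hasFDerivAt.comp z a.hasFDerivAt).fderiv).symm

theorem ent_d {A : E n → Mat 2} {z : E n} (h : DifferentiableAt ℂ A z) (i j : Fin 2) :
    DifferentiableAt ℂ (A · i j) z := ((enL i j).differentiableAt.comp z h :)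

/-- The connection. -/
def l2 (al be ga : E n → E n) (k : Fin n) (z : E n) : Mat 2 :=
  !![be z k * 2⁻¹, ga z k * 2⁻¹; al z k, -(be z k * 2⁻¹)]

/-- The gauge matrix. -/
def g2 (r c : E n → ℂ) (z : E n) : Mat 2 := !![r z, r z * c z * 2⁻¹; 0, (r z)⁻¹]

/-- The matrix of two solutions. -/
def m2 (s u t v : E n → ℂ) (z : E n) : Mat 2 := !![s z, u z; t z, v z]

theorem fl {al be ga : E n → E n} {z : E n} (h : Tri al be ga z) : Fl (l2 al be ga) z := by
  have a := differentiableAt_pi.1 h.da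
  have b := differentiableAt_pi.1 h.db
  have c := differentiableAt_pi.1 h.dg
  have d : ∀ k, _ := fun k => mat_d (A := l2 al be ga k) (z := z) fun i j => by
    have := a k
    have := b k
    have := c k
    fin_cases i <;> fin_cases j <;> simp only [l2] <;> simp <;> fun_prop
  have e1 : ∀ j k, dz j (fun w => be w k * 2⁻¹) z = dz j (be · k) z * 2⁻¹ := fun j k => by
    rw [dz_fd ((b k).hasFDerivAt.mul_const _), dz_fd (b k).hasFDerivAt]; simp [mul_comm]
  have e2 : ∀ j k, dz j (fun w => ga w k * 2⁻¹) z = dz j (ga · k) z * 2⁻¹ := fun j k => by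
    rw [dz_fd ((c k).hasFDerivAt.mul_const _), dz_fd (c k).hasFDerivAt]; simp [mul_comm]
  have e3 : ∀ j k, dz j (fun w => -(be w k * 2⁻¹)) z = -(dz j (be · k) z * 2⁻¹) := fun j k => by
    rw [dz_fd ((b k).hasFDerivAt.mul_const _).fun_neg, dz_fd (b k).hasFDerivAt]; simp [mul_comm]
  refine ⟨fun k => (d k).1, fun j k => ?_⟩
  erw [(d k).2, (d j).2]
  ext p q
  have := h.ea j k
  have := h.eb j k
  have := h.eg j k
  fin_cases p <;> fin_cases q <;> simp [l2, e1, e2, e3] <;> grind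

theorem par_of {al be ga : E n → E n} {s u t v : E n → ℂ} {z : E n} (h1 : Sys al be ga s u z)
    (h2 : Sys al be ga t v z) : Par (l2 al be ga) (m2 s u t v) z := by
  have d := mat_d (A := m2 s u t v) (z := z) fun i j => by
    have := h1.ds
    have := h1.du
    have := h2.ds
    have := h2.du
    fin_cases i <;> fin_cases j <;> simp only [m2] <;> simpa
  refine ⟨d.1, fun k => ?_⟩
  erw [d.2]
  ext p q
  have := h1.es k
  have := h1.eu k
  have := h2.es k
  have := h2.eu k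
  fin_cases p <;> fin_cases q <;> simp [l2, m2, Matrix.mul_apply, Fin.sum_univ_two] <;> grind

theorem sys_of {al be ga : E n → E n} {T : E n → Mat 2} {z : E n} (h : Par (l2 al be ga) T z)
    (i : Fin 2) : Sys al be ga (T · i 0) (T · i 1) z := by
  have d := (mat_d (ent_d h.d)).2
  refine ⟨ent_d h.d _ _, ent_d h.d _ _, fun k => ?_, fun k => ?_⟩
  · have := congrFun (congrFun ((d k).symm.trans (h.e k)) i) 0
    simp [l2, Matrix.mul_apply, Fin.sum_univ_two] at this
    rw [this]; ring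
  · have := congrFun (congrFun ((d k).symm.trans (h.e k)) i) 1
    simp [l2, Matrix.mul_apply, Fin.sum_univ_two] at this
    rw [this]; ring

theorem gau {M : Mf n} {e e' : M.Ch} (he : e ∈ M.C) (he' : e' ∈ M.C) {x : M.X}
    (hx : x ∈ e.source) (hx' : x ∈ e'.source) {al be ga al' be' ga' : E n → E n} {c r : E n → ℂ}
    (h : Gg e e' al be ga al' be' ga' c x) (hr : DifferentiableAt ℂ r (e' x))
    (h2 : ∀ᶠ w in 𝓝 (e' x), r w * r w = (jm (e ∘ e'.symm) w).det) :
    Gau e e' (l2 al be ga) (l2 al' be' ga') (g2 r c) x := by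
  obtain ⟨h1, h0, -⟩ := (mTR n M).2.1 e he e' he' x hx hx'
  obtain ⟨hc, ea, eb, eg⟩ := h
  have e9 : (M.J e e' x).det = r (e' x) * r (e' x) := h2.self_of_nhds.symm
  have e8 : ∀ k, dz k (fun w => (jm (e ∘ e'.symm) w).det) (e' x) =
      2 * r (e' x) * dz k r (e' x) := fun k => by
    rw [dz_fd ((hr.hasFDerivAt.fun_mul hr.hasFDerivAt).congr_of_eventuallyEq
      (h2.mono fun w hw => hw.symm)), dz_fd hr.hasFDerivAt]
    simp
    ring
  rw [e9] at h0 ea eb eg
  have r0 : r (e' x) ≠ 0 := left_ne_zero_of_mul h0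
  have i0 : DifferentiableAt ℂ (fun w => (r w)⁻¹) (e' x) := hr.fun_inv r0
  have d := mat_d (A := g2 r c) (z := e' x) fun i j => by
    fin_cases i <;> fin_cases j <;> simp only [g2] <;> simp <;> fun_prop
  have e0 : ∀ j (t : ℂ), dz j (fun _ => t) (e' x) = 0 := fun j t => dz_fd (hasFDerivAt_const _ _) j
  have e2 : ∀ j, dz j (fun w => r w * c w * 2⁻¹) (e' x) =
      (r (e' x) * dz j c (e' x) + c (e' x) * dz j r (e' x)) * 2⁻¹ := fun j => by
    rw [dz_fd ((hr.hasFDerivAt.fun_mul hc.hasFDerivAt).mul_const _),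
      dz_fd hr.hasFDerivAt, dz_fd hc.hasFDerivAt]
    simp
    ring
  have e3 : ∀ j, dz j (fun w => (r w)⁻¹) (e' x) = -dz j r (e' x) / r (e' x) ^ 2 := fun j => by
    refine (dz_fd ((hasDerivAt_inv r0).comp_hasFDerivAt (e' x) hr.hasFDerivAt) j).trans ?_
    rw [dz_fd hr.hasFDerivAt]
    simp
    ring
  refine ⟨d.1, (Matrix.isUnit_iff_isUnit_det _).2 (Ne.isUnit ?_), fun k => ?_⟩
  · simp [g2, Matrix.det_fin_two, r0]
  · have s1 : ∑ j, M.J e e' x j k • l2 al be ga j (e x) =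
        !![(be (e x) ᵥ* M.J e e' x) k * 2⁻¹, (ga (e x) ᵥ* M.J e e' x) k * 2⁻¹;
          (al (e x) ᵥ* M.J e e' x) k, -((be (e x) ᵥ* M.J e e' x) k * 2⁻¹)] := by
      ext p q
      fin_cases p <;> fin_cases q <;>
        simp [l2, Matrix.sum_apply, Matrix.vecMul, dotProduct, mul_comm, Finset.mul_sum,
          mul_left_comm]
    have q1 := congrFun ea k
    have q2 := eb k
    have q3 := eg k
    rw [Pi.smul_apply, smul_eq_mul] at q1
    rw [e8] at q2
    rw [s1]
    generalize (be (e x) ᵥ* M.J e e' x) k = B at *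
    generalize (ga (e x) ᵥ* M.J e e' x) k = C at *
    generalize (al (e x) ᵥ* M.J e e' x) k = A at *
    erw [d.2]
    ext p q
    fin_cases p <;> fin_cases q <;>
      simp [l2, g2, Matrix.mul_apply, Fin.sum_univ_two, e0, e2, e3] <;>
      simp only [q3, q2, q1] <;> field_simp <;> ring

theorem const_dz {f : E n → ℂ} {z : E n}
    (h : ∀ᶠ w in 𝓝 z, DifferentiableAt ℂ f w ∧ ∀ k, dz k f w = 0) : ∀ᶠ w in 𝓝 z, f w = f z := by
  obtain ⟨r, hr, hb⟩ := Metric.eventually_nhds_iff_ball.1 h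
  filter_upwards [ball_mem_nhds z hr] with w hw
  refine isOpen_ball.is_const_of_fderiv_eq_zero (𝕜 := ℂ) (convex_ball z r).isPreconnected
    (fun w hw => (hb w hw).1.differentiableWithinAt) (fun w hw => ?_) hw (mem_ball_self hr)
  ext v
  rw [clm_sum, Finset.sum_eq_zero fun k _ => ?_]
  · rfl
  · rw [← (mHOL n _ w).2.1 (hb w hw).1, (hb w hw).2, smul_zero]

theorem par_mul {l : Fin n → E n → Mat 2} {T : E n → Mat 2} {z : E n} (h : Par l T z)
    (A : Mat 2) : Par l (fun w => A * T w) z := by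
  refine ⟨h.d.const_mul A, fun k => ?_⟩
  rw [(h.d.hasFDerivAt.const_mul A).fderiv, mul_assoc, ← h.e]
  simp

theorem wr {al be ga : E n → E n} {s u t v : E n → ℂ} {z : E n} (h1 : Sys al be ga s u z)
    (h2 : Sys al be ga t v z) : DifferentiableAt ℂ (fun w => s w * v w - u w * t w) z ∧
      ∀ k, dz k (fun w => s w * v w - u w * t w) z = 0 := by
  have a := (h1.ds.hasFDerivAt.fun_mul h2.du.hasFDerivAt).fun_sub
    (h1.du.hasFDerivAt.fun_mul h2.ds.hasFDerivAt)
  refine ⟨a.differentiableAt, fun k => ?_⟩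
  have e1 := (dz_fd h1.ds.hasFDerivAt k).symm.trans (h1.es k)
  have e2 := (dz_fd h1.du.hasFDerivAt k).symm.trans (h1.eu k)
  have e3 := (dz_fd h2.ds.hasFDerivAt k).symm.trans (h2.es k)
  have e4 := (dz_fd h2.du.hasFDerivAt k).symm.trans (h2.eu k)
  rw [dz_fd a]
  simp [e1, e2, e3, e4]
  ring

theorem sqrt_loc {g : E n → ℂ} {z : E n} (h : HolN g z) (h0 : g z ≠ 0) :
    ∃ r : E n → ℂ, ∀ᶠ w in 𝓝 z, DifferentiableAt ℂ r w ∧ r w * r w = g w := by
  obtain ⟨q, hq⟩ := IsAlgClosed.exists_eq_mul_self (g z)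
  refine ⟨fun w => Complex.exp (Complex.log (g w / g z) / 2) * q, ?_⟩
  have a : ∀ᶠ w in 𝓝 z, g w / g z ∈ Complex.slitPlane :=
    (h.self_of_nhds.continuousAt.div_const _).eventually (Complex.isOpen_slitPlane.mem_nhds (by
      simp [div_self h0]))
  filter_upwards [h, a] with w hw ha
  have b : DifferentiableAt ℂ (fun w => g w / g z) w := by
    simp only [div_eq_mul_inv]; exact hw.mul_const _
  have d : DifferentiableAt ℂ (fun w => Complex.log (g w / g z) / 2) w := by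
    simp only [div_eq_mul_inv _ (2 : ℂ)]; exact (b.clog ha).mul_const _
  refine ⟨d.cexp.mul_const _, ?_⟩
  rw [mul_mul_mul_comm, ← Complex.exp_add, add_halves,
    Complex.exp_log (Complex.slitPlane_ne_zero ha), ← hq, div_mul_cancel₀ _ h0]

theorem loc {al be ga : E n → E n} {z : E n} (h : ∀ᶠ w in 𝓝 z, Tri al be ga w) :
    ∃ s u t v : E n → ℂ, s z = 1 ∧ t z = 0 ∧
      ∀ᶠ w in 𝓝 z, Dv2 al be ga s u t v w ∧ s w ≠ 0 := by
  obtain ⟨T, hT⟩ := frameK (l := l2 al be ga) (x := z) (h.mono fun w hw => fl hw)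
  set P : E n → Mat 2 := fun w => Ring.inverse (T z) * T w with hP
  have p1 : P z = 1 := Ring.inverse_mul_cancel _ hT.self_of_nhds.2
  have p2 : ∀ᶠ w in 𝓝 z, ∀ i, Sys al be ga (P · i 0) (P · i 1) w :=
    hT.mono fun w hw i => sys_of (par_mul hw.1 _) i
  have p3 := const_dz (p2.mono fun w hw => wr (hw 0) (hw 1))
  have p4 : P z 0 0 = 1 := by simp [p1]
  refine ⟨(P · 0 0), (P · 0 1), (P · 1 0), (P · 1 1), p4, by simp [p1], ?_⟩
  filter_upwards [p2, p3, (p2.self_of_nhds 0).ds.continuousAt.eventually_ne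
    (y := 0) (by simp [p4])] with w h2 h3 h4
  exact ⟨⟨h2 0, h2 1, by simp [h3, p1]⟩, h4⟩

theorem tr {M : Mf n} {e e' : M.Ch} (he : e ∈ M.C) (he' : e' ∈ M.C) {x : M.X}
    (hx : x ∈ e.source) (hx' : x ∈ e'.source) {al be ga al' be' ga' : E n → E n} {c : E n → ℂ}
    {s u t v s' u' t' v' : E n → ℂ}
    (h : ∀ᶠ y in 𝓝 x, Gg e e' al be ga al' be' ga' c y ∧ Dv2 al be ga s u t v (e y) ∧
      Dv2 al' be' ga' s' u' t' v' (e' y)) :
    ∃ (A : Matrix.SpecialLinearGroup (Fin 2) ℂ) (r : M.X → ℂ), ContinuousAt r x ∧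
      ∀ᶠ y in 𝓝 x, r y ^ 2 = (M.J e e' y).det ∧
        s' (e' y) = r y * (A 0 0 * s (e y) + A 0 1 * t (e y)) ∧
        t' (e' y) = r y * (A 1 0 * s (e y) + A 1 1 * t (e y)) := by
  obtain ⟨t1, t0, -, t2, -⟩ := (mTR n M).2.1 e he e' he' x hx hx'
  obtain ⟨r, hr⟩ := sqrt_loc (mCHN n _ _ t1).2.2.2.2.1 t0
  have c1 := e'.continuousAt hx'
  have c2 := e'.continuousAt_symm (e'.map_source hx')
  set P : E n → Mat 2 := fun w => m2 s u t v (e (e'.symm w)) * g2 r c w with hP
  have k1 : ∀ᶠ w in 𝓝 (e' x), (Par (l2 al' be' ga') (m2 s' u' t' v') w ∧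
      Par (l2 al' be' ga') P w ∧ IsUnit (P w)) ∧ (P w).det = 1 ∧ (m2 s' u' t' v' w).det = 1 := by
    filter_upwards [t2, hr.eventually_nhds, c2.eventually ((e'.left_inv hx').symm ▸ h)]
      with w hw h1 h2
    obtain ⟨w1, w2, w3, w4, w5, w6, w7⟩ := hw
    have g1 := gau he he' w2 w3 h2.1 (r := r) (w6.symm ▸ h1.self_of_nhds.1)
      (w6.symm ▸ h1.mono fun _ h => h.2)
    have q1 := par_gau he he' w2 w3 g1 (par_of h2.2.1.h1 h2.2.1.h2)
    have q2 := par_of h2.2.2.h1 h2.2.2.h2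
    have q3 := h2.2.2.dt
    have r0 : r w ≠ 0 := left_ne_zero_of_mul (b := r w) (by
      rw [h1.self_of_nhds.2, ← w7]; exact ((mTR n M).2.1 e he e' he' _ w2 w3).2.1)
    rw [w6] at q1 q2 q3
    have q4 : (P w).det = 1 := by
      simp only [hP, Matrix.det_mul]
      simp [m2, g2, Matrix.det_fin_two, r0, h2.2.1.dt]
    exact ⟨⟨q2, q1, (Matrix.isUnit_iff_isUnit_det _).2 (q4 ▸ isUnit_one)⟩, q4,
      by simp [m2, Matrix.det_fin_two, q3]⟩
  have k2 := const_of_par (k1.mono fun w hw => hw.1)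
  set A : Mat 2 := m2 s' u' t' v' (e' x) * Ring.inverse (P (e' x)) with hA
  have k3 : ∀ᶠ w in 𝓝 (e' x), m2 s' u' t' v' w = A * P w := by
    filter_upwards [k1, k2] with w h1 h2
    rw [← h2, mul_assoc, Ring.inverse_mul_cancel _ h1.1.2.2, mul_one]
  have k4 : A.det = 1 := by
    have := congrArg Matrix.det k3.self_of_nhds
    rwa [Matrix.det_mul, k1.self_of_nhds.2.1, k1.self_of_nhds.2.2, mul_one, eq_comm] at this
  refine ⟨⟨A, k4⟩, fun y => r (e' y), hr.self_of_nhds.1.continuousAt.comp c1, ?_⟩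
  filter_upwards [c1.eventually k3, c1.eventually hr, e'.open_source.mem_nhds hx'] with y h1 h2 h3
  have a0 := congrFun (congrFun h1 0) 0
  have a1 := congrFun (congrFun h1 1) 0
  simp only [hP, e'.left_inv h3] at a0 a1
  simp [m2, g2, Matrix.mul_apply, Fin.sum_univ_two] at a0 a1
  refine ⟨by rw [sq, h2.2]; rfl, ?_, ?_⟩
  · rw [a0]; ring
  · rw [a1]; ring

end R85

/-- Local solutions. -/
theorem rk_loc {al be ga : E n → E n} {z : E n} (h : ∀ᶠ w in 𝓝 z, Tri al be ga w) :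
    ∃ s u t v : E n → ℂ, s z = 1 ∧ t z = 0 ∧
      ∀ᶠ w in 𝓝 z, Dv2 al be ga s u t v w ∧ s w ≠ 0 := R85.loc h

/-- The form is `s ^ 2` times the derivative of the quotient. -/
theorem rk_al {al be ga : E n → E n} {s u t v : E n → ℂ} {z : E n} (h : Dv2 al be ga s u t v z)
    (h0 : s z ≠ 0) : DifferentiableAt ℂ (fun w => t w / s w) z ∧
      ∀ k, al z k = s z ^ 2 * dz k (fun w => t w / s w) z := by
  have a := h.h2.ds.hasFDerivAt.fun_mul
    ((hasDerivAt_inv h0).comp_hasFDerivAt z h.h1.ds.hasFDerivAt)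
  simp only [div_eq_mul_inv]
  refine ⟨a.differentiableAt, fun k => ?_⟩
  have e1 := (M7.dz_fd h.h1.ds.hasFDerivAt k).symm.trans (h.h1.es k)
  have e3 := (M7.dz_fd h.h2.ds.hasFDerivAt k).symm.trans (h.h2.es k)
  have e4 := h.dt
  refine ((congrArg (s z ^ 2 * ·) (M7.dz_fd a k)).trans ?_).symm
  simp [e1, e3]
  field_simp
  linear_combination (2 * al z k) * e4

/-- The change of the solutions. -/
theorem rk_tr {M : Mf n} {e e' : M.Ch} (he : e ∈ M.C) (he' : e' ∈ M.C) {x : M.X}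
    (hx : x ∈ e.source) (hx' : x ∈ e'.source) {al be ga al' be' ga' : E n → E n} {c : E n → ℂ}
    {s u t v s' u' t' v' : E n → ℂ}
    (h : ∀ᶠ y in 𝓝 x, Gg e e' al be ga al' be' ga' c y ∧ Dv2 al be ga s u t v (e y) ∧
      Dv2 al' be' ga' s' u' t' v' (e' y)) :
    ∃ (A : Matrix.SpecialLinearGroup (Fin 2) ℂ) (r : M.X → ℂ), ContinuousAt r x ∧
      ∀ᶠ y in 𝓝 x, r y ^ 2 = (M.J e e' y).det ∧
        s' (e' y) = r y * (A 0 0 * s (e y) + A 0 1 * t (e y)) ∧
        t' (e' y) = r y * (A 1 0 * s (e y) + A 1 1 * t (e y)) := R85.tr he he' hx hx' h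

/-- A fractional linear map determines its matrix up to sign. -/
theorem rk_uni (A B : Matrix.SpecialLinearGroup (Fin 2) ℂ) {T : Set ℂ} (hT : T.Infinite)
    (h : ∀ w ∈ T, (A 0 0 + A 0 1 * w) * (B 1 0 + B 1 1 * w) =
      (B 0 0 + B 0 1 * w) * (A 1 0 + A 1 1 * w)) : A = B ∨ A = -B := by
  have dA := A.det_coe
  have dB := B.det_coe
  rw [Matrix.det_fin_two] at dA dB
  obtain ⟨a, ha⟩ := hT.nonempty
  obtain ⟨b, hb, ab⟩ := hT.exists_notMem_finset {a}
  obtain ⟨d, hd, abd⟩ := hT.exists_notMem_finset {a, b}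
  simp only [Finset.mem_insert, Finset.mem_singleton, not_or] at ab abd
  have h1 := h a ha
  have h2 := h b hb
  have h3 := h d hd
  have e2 : A 0 1 * B 1 1 - B 0 1 * A 1 1 = 0 := by
    refine (mul_eq_zero.1 (?_ : ((b - a) * (d - a) * (d - b)) * _ = 0)).resolve_left
      (mul_ne_zero (mul_ne_zero (sub_ne_zero.2 ab) (sub_ne_zero.2 abd.1)) (sub_ne_zero.2 abd.2))
    linear_combination (d - b) * h1 - (d - a) * h2 + (b - a) * h3
  have e1 : A 0 0 * B 1 1 + A 0 1 * B 1 0 - B 0 0 * A 1 1 - B 0 1 * A 1 0 = 0 := by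
    refine (mul_eq_zero.1 (?_ : (b - a) * _ = 0)).resolve_left (sub_ne_zero.2 ab)
    linear_combination h2 - h1 - (b ^ 2 - a ^ 2) * e2
  have e0 : A 0 0 * B 1 0 - B 0 0 * A 1 0 = 0 := by
    linear_combination h1 - a * e1 - a ^ 2 * e2
  set l := B 1 1 * A 0 0 - B 0 1 * A 1 0 with hl
  have f0 : A 0 0 = l * B 0 0 := by linear_combination (-A 0 0) * dB - B 0 1 * e0
  have f1 : A 1 0 = l * B 1 0 := by linear_combination (-A 1 0) * dB - B 1 1 * e0
  have f2 : A 0 1 = l * B 0 1 := by linear_combination (-A 0 1) * dB + B 0 0 * e2 - B 0 1 * e1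
  have f3 : A 1 1 = l * B 1 1 := by linear_combination (-A 1 1) * dB + B 1 0 * e2 - B 1 1 * e1
  have l2 : l * l = 1 := by
    rw [f0, f1, f2, f3] at dA
    linear_combination dA - l * l * dB
  clear_value l
  rcases mul_self_eq_one_iff.1 l2 with rfl | rfl
  · left
    ext i j
    fin_cases i <;> fin_cases j <;> simp [f0, f1, f2, f3]
  · right
    ext i j
    fin_cases i <;> fin_cases j <;> simp [f0, f1, f2, f3]

end Pool.Agent.Lib.F4G
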