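import Mathlib

/-! Project f4g: the theorem of Fubini on segments. -/

open scoped Topology ENNReal NNReal
open Set Filter MeasureTheory Metric

set_option linter.unusedSectionVars false

noncomputable section

namespace Pool.Agent.Lib.F4G

namespace S39

variable {E : Type} [NormedAddCommGroup E] [NormedSpace ℝ E] [FiniteDimensional ℝ E]
  [MeasurableSpace E] [BorelSpace E]

theorem inv (P : E →ₗ[ℝ] E) (hP : ∀ x, P (P x) = P x) {t : ℝ} (ht : t ≠ 1) :
    LinearMap.det (LinearMap.id - t • P) * LinearMap.det (LinearMap.id + (t / (1 - t)) • P) = 1 := by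
  rw [← map_mul]
  have : (LinearMap.id - t • P) * (LinearMap.id + (t / (1 - t)) • P) = (1 : E →ₗ[ℝ] E) := by
    ext x
    have h : (1 - t) ≠ 0 := sub_ne_zero.2 ht.symm
    have e : t / (1 - t) - t - t * (t / (1 - t)) = 0 := by field_simp; ring
    simp only [Module.End.mul_apply, LinearMap.sub_apply, LinearMap.add_apply, LinearMap.id_apply,
      LinearMap.smul_apply, map_add, map_smul, hP, Module.End.one_apply]
    calc _ = x + (t / (1 - t) - t - t * (t / (1 - t))) • P x := by module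
      _ = x := by rw [e, zero_smul, add_zero]
  rw [this, map_one]

theorem bdd (P : E →ₗ[ℝ] E) :
    ∃ C : ℝ, ∀ s ∈ Icc (0 : ℝ) 1, |LinearMap.det (LinearMap.id + s • P)| ≤ C := by
  have h : Continuous fun s : ℝ => LinearMap.det (LinearMap.id + s • P) := by
    have h1 : Continuous fun s : ℝ =>
        (ContinuousLinearMap.id ℝ E + s • LinearMap.toContinuousLinearMap P).det :=
      ContinuousLinearMap.continuous_det.comp (by fun_prop)
    exact h1
  obtain ⟨C, hC⟩ := isCompact_Icc.exists_bound_of_continuousOn h.continuousOn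
  exact ⟨C, hC⟩

theorem meas (P : E →ₗ[ℝ] E) :
    Measurable fun q : (E × E) × ℝ => q.1.1 + q.2 • P (q.1.2 - q.1.1) := by
  have := P.continuous_of_finiteDimensional
  fun_prop

theorem half (μ : Measure E) [μ.IsAddHaarMeasure] (P : E →ₗ[ℝ] E) (hP : ∀ x, P (P x) = P x)
    {C : ℝ} (hC : ∀ s ∈ Icc (0 : ℝ) 1, |LinearMap.det (LinearMap.id + s • P)| ≤ C) {K : Set E}
    (hK : MeasurableSet K) (hc : ∀ x ∈ K, ∀ y ∈ K, ∀ t ∈ Icc (0 : ℝ) 1, x + t • P (y - x) ∈ K)
    {l : E → ℝ≥0∞} (hl : Measurable l) {t : ℝ} (h0 : 0 ≤ t) (h1 : t ≤ 1 / 2) :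
    ∫⁻ p in K ×ˢ K, l (p.1 + t • P (p.2 - p.1)) ∂μ.prod μ ≤
      ENNReal.ofReal C * μ K * ∫⁻ z in K, l z ∂μ := by
  have cP := P.continuous_of_finiteDimensional
  have hd := inv P hP (t := t) (by linarith)
  have hn : LinearMap.det (LinearMap.id - t • P) ≠ 0 := left_ne_zero_of_mul_eq_one hd
  have hb : |(LinearMap.det (LinearMap.id - t • P))⁻¹| ≤ C := by
    rw [← eq_inv_of_mul_eq_one_right hd]
    refine hC _ ⟨div_nonneg h0 (by linarith), ?_⟩
    rw [div_le_one (by linarith)]
    linarith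
  rw [← Measure.prod_restrict, lintegral_prod_symm _ (by fun_prop)]
  calc _ ≤ ∫⁻ _ in K, ENNReal.ofReal C * ∫⁻ z in K, l z ∂μ ∂μ := by
        refine setLIntegral_mono' hK fun y hy => ?_
        have m : Measurable fun z => K.indicator l (z + t • P y) :=
          (hl.indicator hK).comp (by fun_prop)
        calc _ ≤ ∫⁻ x in K, K.indicator l ((LinearMap.id - t • P : E →ₗ[ℝ] E) x + t • P y) ∂μ := by
              refine setLIntegral_mono' hK fun x hx => le_of_eq ?_
              have e : (LinearMap.id - t • P : E →ₗ[ℝ] E) x + t • P y = x + t • P (y - x) := by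
                simp only [LinearMap.sub_apply, LinearMap.id_apply, LinearMap.smul_apply, map_sub]
                module
              rw [e, indicator_of_mem (hc x hx y hy t ⟨h0, by linarith⟩)]
          _ ≤ ∫⁻ x, K.indicator l ((LinearMap.id - t • P : E →ₗ[ℝ] E) x + t • P y) ∂μ :=
              setLIntegral_le_lintegral _ _
          _ = ∫⁻ z, K.indicator l (z + t • P y) ∂μ.map (LinearMap.id - t • P : E →ₗ[ℝ] E) :=
              (lintegral_map m (LinearMap.continuous_of_finiteDimensional _).measurable).symm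
          _ ≤ _ := by
              rw [Measure.map_linearMap_addHaar_eq_smul_addHaar μ hn, lintegral_smul_measure,
                lintegral_add_right_eq_self, lintegral_indicator hK, smul_eq_mul]
              exact mul_le_mul_left (ENNReal.ofReal_le_ofReal hb) _
    _ = _ := by rw [setLIntegral_const, mul_right_comm]

theorem swap (μ : Measure E) [μ.IsAddHaarMeasure] (P : E →ₗ[ℝ] E) (hP : ∀ x, P (P x) = P x)
    {K : Set E} (hK : MeasurableSet K)
    (hc : ∀ x ∈ K, ∀ y ∈ K, ∀ t ∈ Icc (0 : ℝ) 1, x + t • P (y - x) ∈ K)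
    {l : E → ℝ≥0∞} (hl : Measurable l) (t : ℝ) :
    ∫⁻ p in K ×ˢ K, l (p.1 + t • P (p.2 - p.1)) ∂μ.prod μ ≤
      ∫⁻ p in K ×ˢ K, l (p.1 + (1 - t) • P (p.2 - p.1)) ∂μ.prod μ := by
  have cP := P.continuous_of_finiteDimensional
  let D : E × E →ₗ[ℝ] E := P ∘ₗ (LinearMap.snd ℝ E E - LinearMap.fst ℝ E E)
  let σ : E × E →ₗ[ℝ] E × E := (LinearMap.fst ℝ E E + D).prod (LinearMap.snd ℝ E E - D)
  have hσ : ∀ p, σ p = (p.1 + P (p.2 - p.1), p.2 - P (p.2 - p.1)) := fun p => rfl
  have k : ∀ p : E × E, P ((σ p).2 - (σ p).1) = -P (p.2 - p.1) := fun p => by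
    simp only [hσ, map_sub, map_add, hP]
    abel
  have h2 : σ * σ = 1 := LinearMap.ext fun p => by
    rw [Module.End.mul_apply, hσ (σ p), k, hσ]
    ext <;> simp only [Module.End.one_apply] <;> abel
  have hd : LinearMap.det σ * LinearMap.det σ = 1 := by rw [← map_mul, h2, map_one]
  have ha : |(LinearMap.det σ)⁻¹| = 1 := by
    rcases mul_self_eq_one_iff.1 hd with h | h <;> simp [h]
  have hm := Measure.map_linearMap_addHaar_eq_smul_addHaar (μ.prod μ)
    (left_ne_zero_of_mul_eq_one hd)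
  rw [ha, ENNReal.ofReal_one, one_smul] at hm
  have m : Measurable ((K ×ˢ K).indicator fun p : E × E => l (p.1 + (1 - t) • P (p.2 - p.1))) :=
    Measurable.indicator (by fun_prop) (hK.prod hK)
  rw [← lintegral_indicator (hK.prod hK) fun p : E × E => l (p.1 + (1 - t) • P (p.2 - p.1)),
    ← hm, lintegral_map m σ.continuous_of_finiteDimensional.measurable, hm]
  refine le_trans (setLIntegral_mono' (hK.prod hK) fun p hp => le_of_eq ?_)
    (setLIntegral_le_lintegral _ _)
  have hp' : σ p ∈ K ×ˢ K := by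
    have a := hc _ hp.1 _ hp.2 1 ⟨zero_le_one, le_rfl⟩
    have b := hc _ hp.2 _ hp.1 1 ⟨zero_le_one, le_rfl⟩
    rw [one_smul] at a b
    rw [← neg_sub, map_neg, ← sub_eq_add_neg] at b
    exact ⟨a, b⟩
  rw [indicator_of_mem hp', k, hσ]
  congr 1
  module

end S39

open S39 in
/-- Segments in the directions of a projection. -/
theorem segP39 {E : Type} [NormedAddCommGroup E] [NormedSpace ℝ E] [FiniteDimensional ℝ E]
    [MeasurableSpace E] [BorelSpace E] (μ : Measure E) [μ.IsAddHaarMeasure] (P : E →ₗ[ℝ] E)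
    (hP : ∀ x, P (P x) = P x) : ∃ C : ℝ≥0, ∀ (K : Set E) (l : E → ℝ≥0∞), MeasurableSet K →
      (∀ x ∈ K, ∀ y ∈ K, ∀ t ∈ Icc (0 : ℝ) 1, x + t • P (y - x) ∈ K) → Measurable l →
      ∫⁻ p in K ×ˢ K, (∫⁻ t in Icc (0 : ℝ) 1, l (p.1 + t • P (p.2 - p.1))) ∂μ.prod μ ≤
        C * μ K * ∫⁻ z in K, l z ∂μ := by
  obtain ⟨C, hC⟩ := bdd P
  refine ⟨C.toNNReal, fun K l hK hc hl => ?_⟩
  rw [lintegral_lintegral_swap (f := fun (p : E × E) (t : ℝ) => l (p.1 + t • P (p.2 - p.1)))
    (hl.comp (meas P)).aemeasurable]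
  calc _ ≤ ∫⁻ _ in Icc (0 : ℝ) 1, ENNReal.ofReal C * μ K * ∫⁻ z in K, l z ∂μ := by
        refine setLIntegral_mono' measurableSet_Icc fun t ht => ?_
        rcases le_total t (1 / 2) with h | h
        · exact half μ P hP hC hK hc hl ht.1 h
        · exact (swap μ P hP hK hc hl t).trans
            (half μ P hP hC hK hc hl (by linarith [ht.2]) (by linarith))
    _ = _ := by simp [ENNReal.ofReal]

/-- Segments in a convex set. -/
theorem seg39 {E : Type} [NormedAddCommGroup E] [NormedSpace ℝ E] [FiniteDimensional ℝ E]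
    [MeasurableSpace E] [BorelSpace E] (μ : Measure E) [μ.IsAddHaarMeasure] :
    ∃ C : ℝ≥0, ∀ (K : Set E) (l : E → ℝ≥0∞), MeasurableSet K → Convex ℝ K → Measurable l →
      ∫⁻ p in K ×ˢ K, (∫⁻ t in Icc (0 : ℝ) 1, l (p.1 + t • (p.2 - p.1))) ∂μ.prod μ ≤
        C * μ K * ∫⁻ z in K, l z ∂μ := by
  obtain ⟨C, hC⟩ := segP39 μ LinearMap.id fun _ => rfl
  exact ⟨C, fun K l hK hc hl => hC K l hK (fun x hx y hy t ht => hc.add_smul_sub_mem hx hy ht) hl⟩

/-- Segments with one frozen coordinate in a polydisc. -/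
theorem segL39 (n : ℕ) (k : Fin n) : ∃ C : ℝ≥0, ∀ (c : Fin n → ℂ) (r : ℝ)
    (l : (Fin n → ℂ) → ℝ≥0∞), Measurable l →
      ∫⁻ p in ball c r ×ˢ ball c r, (∫⁻ t in Icc (0 : ℝ) 1,
        l (p.1 + t • (Function.update p.2 k (p.1 k) - p.1))) ∂(volume.prod volume) ≤
        C * volume (ball c r) * ∫⁻ z in ball c r, l z := by
  let P : (Fin n → ℂ) →ₗ[ℝ] Fin n → ℂ :=
    LinearMap.id - LinearMap.single ℝ (fun _ => ℂ) k ∘ₗ LinearMap.proj k
  have hP : ∀ x j, P x j = if j = k then 0 else x j := fun x j => by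
    by_cases h : j = k
    · simp [P, h]
    · simp [P, h]
  have e : ∀ x y : Fin n → ℂ, Function.update y k (x k) - x = P (y - x) := fun x y => by
    funext j
    rw [hP]
    by_cases h : j = k
    · simp [h]
    · simp [h]
  obtain ⟨C, hC⟩ := segP39 volume P fun x => funext fun j => by
    rw [hP, hP]
    split_ifs <;> rfl
  refine ⟨C, fun c r l hl => ?_⟩
  simp only [e]
  refine hC _ l measurableSet_ball (fun x hx y hy t ht => ?_) hl
  rw [← e]
  refine (convex_ball c r).add_smul_sub_mem hx ?_ ht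
  have r0 : 0 < r := dist_nonneg.trans_lt hx
  rw [mem_ball, dist_pi_lt_iff r0] at hx hy ⊢
  intro j
  by_cases h : j = k
  · simpa [h] using hx k
  · simpa [h] using hy j

/-- The oscillation along a segment. -/
theorem osc39 {E : Type} [NormedAddCommGroup E] [NormedSpace ℝ E] {f : E → ℝ} {x v : E}
    {g : ℝ → ℝ≥0∞} (hf : ∀ t ∈ Icc (0 : ℝ) 1, ContDiffAt ℝ 1 f (x + t • v))
    (hg : ∀ t ∈ Icc (0 : ℝ) 1, ENNReal.ofReal |fderiv ℝ f (x + t • v) v| ≤ g t) :
    ENNReal.ofReal |f (x + v) - f x| ≤ ∫⁻ t in Icc (0 : ℝ) 1, g t := by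
  have hd : ∀ t ∈ uIcc (0 : ℝ) 1, HasDerivAt (fun s : ℝ => f (x + s • v))
      (fderiv ℝ f (x + t • v) v) t := fun t ht => by
    rw [uIcc_of_le zero_le_one] at ht
    have h1 : HasDerivAt (fun s : ℝ => x + s • v) v t := by
      simpa using ((hasDerivAt_id t).smul_const v).const_add x
    exact ((hf t ht).differentiableAt one_ne_zero).hasFDerivAt.comp_hasDerivAt t h1
  have hc : ContinuousOn (fun t : ℝ => fderiv ℝ f (x + t • v) v) (Icc 0 1) := fun t ht => by
    have h1 : ContinuousAt (fderiv ℝ f) (x + t • v) :=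
      ((hf t ht).fderiv_right (m := 0) (by simp)).continuousAt
    have h2 : ContinuousAt (fun s : ℝ => fderiv ℝ f (x + s • v)) t :=
      ContinuousAt.comp (f := fun s : ℝ => x + s • v) h1 (by fun_prop)
    exact (h2.clm_apply continuousAt_const).continuousWithinAt
  have hi := intervalIntegral.integral_eq_sub_of_hasDerivAt hd
    (hc.intervalIntegrable_of_Icc zero_le_one)
  simp only [one_smul, zero_smul, add_zero] at hi
  rw [← hi, intervalIntegral.integral_of_le zero_le_one, ← Real.norm_eq_abs, ofReal_norm]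
  refine (enorm_integral_le_lintegral_enorm _).trans ?_
  refine le_trans (setLIntegral_mono' measurableSet_Ioc fun t ht => ?_)
    (lintegral_mono_set Ioc_subset_Icc_self)
  rw [← ofReal_norm, Real.norm_eq_abs]
  exact hg t (Ioc_subset_Icc_self ht)

end Pool.Agent.Lib.F4G
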